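import Pool.Agent.Lib.MP_28b1a7_an.Abs3

/-!
The orthogonal Pelczynski swindle.
-/

namespace Pool.Agent.MP28b1a7

open MeasureTheory Set ContinuousLinearMap
open scoped ENNReal NNReal InnerProductSpace

section Mix

variable {X Y : Type*} [NormedAddCommGroup X] [InnerProductSpace ℂ X] [CompleteSpace X]
  [NormedAddCommGroup Y] [InnerProductSpace ℂ Y] [CompleteSpace Y]

/-- replace the component of `y` in the range of `L` by `L x` -/
noncomputable def mix (L : X →L[ℂ] Y) (x : X) (y : Y) : Y := L x + (y - L (adjoint L y))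

theorem mix_add (L : X →L[ℂ] Y) (x x' : X) (y y' : Y) :
    mix L (x + x') (y + y') = mix L x y + mix L x' y' := by
  unfold mix; simp only [map_add]; abel

theorem mix_smul (L : X →L[ℂ] Y) (a : ℂ) (x : X) (y : Y) :
    mix L (a • x) (a • y) = a • mix L x y := by
  unfold mix; simp only [map_smul, smul_add, smul_sub]

variable {L : X →L[ℂ] Y}

theorem adj_mix (hL : ∀ x, adjoint L (L x) = x) (x : X) (y : Y) : adjoint L (mix L x y) = x := by
  unfold mix; simp only [map_add, map_sub, hL]; abel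

theorem mix_mix (hL : ∀ x, adjoint L (L x) = x) (x x' : X) (y : Y) :
    mix L x (mix L x' y) = mix L x y := by
  have h := adj_mix hL x' y
  conv_lhs => unfold mix
  have h2 : L x' + (y - L (adjoint L y)) = mix L x' y := rfl
  rw [h2, h]
  unfold mix
  abel

theorem mix_self (y : Y) : mix L (adjoint L y) y = y := by
  unfold mix; abel

theorem norm_iso (hL : ∀ x, adjoint L (L x) = x) (x : X) : ‖L x‖ = ‖x‖ := by
  have h1 : ‖L x‖ ^ 2 = ‖x‖ ^ 2 := by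
    rw [← inner_self_eq_norm_sq (𝕜 := ℂ), ← inner_self_eq_norm_sq (𝕜 := ℂ),
      ← adjoint_inner_right, hL]
  exact (sq_eq_sq₀ (norm_nonneg _) (norm_nonneg _)).1 h1

theorem norm_mix (hL : ∀ x, adjoint L (L x) = x) (x : X) (y : Y) :
    ‖mix L x y‖ ^ 2 = ‖x‖ ^ 2 + ‖y - L (adjoint L y)‖ ^ 2 := by
  have h1 : ⟪L x, y - L (adjoint L y)⟫_ℂ = 0 := by
    rw [← adjoint_inner_right, map_sub, hL, sub_self, inner_zero_right]
  unfold mix
  have h2 := norm_add_sq_eq_norm_sq_add_norm_sq_of_inner_eq_zero (𝕜 := ℂ) _ _ h1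
  rw [norm_iso hL] at h2
  linarith

theorem enorm_mix (hL : ∀ x, adjoint L (L x) = x) (x : X) (y : Y) :
    ‖mix L x y‖ₑ ^ 2 = ‖x‖ₑ ^ 2 + ‖y - L (adjoint L y)‖ₑ ^ 2 := by
  have h := norm_mix hL x y
  rw [← ofReal_norm, ← ofReal_norm, ← ofReal_norm, ← ENNReal.ofReal_pow (norm_nonneg _),
    ← ENNReal.ofReal_pow (norm_nonneg _), ← ENNReal.ofReal_pow (norm_nonneg _), h,
    ENNReal.ofReal_add (sq_nonneg _) (sq_nonneg _)]

theorem enorm_split (hL : ∀ x, adjoint L (L x) = x) (y : Y) :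
    ‖y‖ₑ ^ 2 = ‖adjoint L y‖ₑ ^ 2 + ‖y - L (adjoint L y)‖ₑ ^ 2 := by
  rw [← enorm_mix hL, mix_self]

end Mix

section Swindle

variable {G : ℕ} {X : Type*} [NormedAddCommGroup X] [InnerProductSpace ℂ X] [CompleteSpace X]

theorem n2_Rk_le (hG : 2 ≤ G) (k : ℕ) (c : Idx G → ℂ) : n2 (Rk hG k c) ≤ n2 c := by
  rw [n2_split hG c]
  exact le_add_left (ENNReal.le_tsum k)

/-- restriction to the `k`-th subtree on `ℓ²` -/
noncomputable def RD (hG : 2 ≤ G) (k : ℕ) (c : DD G) : DD G :=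
  ⟨Rk hG k c, memℓp_of_n2 (ne_top_of_le_ne_top (n2_ne_top c) (n2_Rk_le hG k c))⟩

theorem RD_coe (hG : 2 ≤ G) (k : ℕ) (c : DD G) :
    ((RD hG k c : DD G) : Idx G → ℂ) = Rk hG k c := rfl

theorem RD_add (hG : 2 ≤ G) (k : ℕ) (c d : DD G) : RD hG k (c + d) = RD hG k c + RD hG k d := rfl

theorem RD_smul (hG : 2 ≤ G) (k : ℕ) (a : ℂ) (c : DD G) : RD hG k (a • c) = a • RD hG k c := rfl

variable (hG : 2 ≤ G) (J : X →L[ℂ] DD G)

/-- components of the shifted vector -/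
noncomputable def uT (f : X) (s : DD G) : ℕ → Idx G → ℂ
  | 0 => ((mix J f (RD hG 0 s) : DD G) : Idx G → ℂ)
  | k + 1 => ((mix J (adjoint J (RD hG k s)) (RD hG (k + 1) s) : DD G) : Idx G → ℂ)

/-- components of the inversely shifted vector -/
noncomputable def vT (t : DD G) (k : ℕ) : Idx G → ℂ :=
  ((mix J (adjoint J (RD hG (k + 1) t)) (RD hG k t) : DD G) : Idx G → ℂ)

variable {J}

theorem n2_uT (hJ : ∀ x, adjoint J (J x) = x) (f : X) (s : DD G) :
    n2 (glue hG s (uT hG J f s)) = ‖f‖ₑ ^ 2 + ‖s‖ₑ ^ 2 := by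
  have h0 : n2 (uT hG J f s 0) =
      ‖f‖ₑ ^ 2 + ‖RD hG 0 s - J (adjoint J (RD hG 0 s))‖ₑ ^ 2 := by
    unfold uT
    rw [n2_eq', enorm_mix hJ]
  have h1 : ∀ k, n2 (uT hG J f s (k + 1)) = ‖adjoint J (RD hG k s)‖ₑ ^ 2 +
      ‖RD hG (k + 1) s - J (adjoint J (RD hG (k + 1) s))‖ₑ ^ 2 := by
    intro k
    unfold uT
    rw [n2_eq', enorm_mix hJ]
  have h2 : ‖s‖ₑ ^ 2 = wp hG s + ∑' k, (‖adjoint J (RD hG k s)‖ₑ ^ 2 +
      ‖RD hG k s - J (adjoint J (RD hG k s))‖ₑ ^ 2) := by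
    rw [← n2_eq', n2_split hG]
    congr 1
    refine tsum_congr fun k => ?_
    rw [← enorm_split hJ, ← n2_eq']
    rfl
  rw [n2_glue, tsum_eq_zero_add' ENNReal.summable, h0, tsum_congr h1, h2, ENNReal.tsum_add,
    ENNReal.tsum_add,
    tsum_eq_zero_add' (f := fun k => ‖RD hG k s - J (adjoint J (RD hG k s))‖ₑ ^ 2)
      ENNReal.summable]
  ring

theorem n2_vT (hJ : ∀ x, adjoint J (J x) = x) (t : DD G) :
    n2 (glue hG t (vT hG J t)) ≤ 2 * ‖t‖ₑ ^ 2 := by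
  have h1 : ∀ k, n2 (vT hG J t k) ≤ n2 (Rk hG (k + 1) t) + n2 (Rk hG k t) := by
    intro k
    unfold vT
    rw [n2_eq', enorm_mix hJ]
    refine add_le_add ?_ ?_
    · rw [← RD_coe, n2_eq', enorm_split hJ (RD hG (k + 1) t)]
      exact le_add_right le_rfl
    · rw [← RD_coe, n2_eq', enorm_split hJ (RD hG k t)]
      exact le_add_left le_rfl
  have h2 : ‖t‖ₑ ^ 2 = wp hG t + ∑' k, n2 (Rk hG k t) := by
    rw [← n2_eq', n2_split hG]
  rw [n2_glue]
  calc wp hG t + ∑' k, n2 (vT hG J t k) ≤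
      wp hG t + ∑' k, (n2 (Rk hG (k + 1) t) + n2 (Rk hG k t)) :=
        add_le_add le_rfl (ENNReal.tsum_le_tsum h1)
    _ ≤ wp hG t + (∑' k, n2 (Rk hG k t) + ∑' k, n2 (Rk hG k t)) := by
        rw [ENNReal.tsum_add]
        refine add_le_add le_rfl (add_le_add ?_ le_rfl)
        rw [tsum_eq_zero_add' (f := fun k => n2 (Rk hG k t)) ENNReal.summable]
        exact le_add_left le_rfl
    _ ≤ 2 * ‖t‖ₑ ^ 2 := by
        rw [h2, mul_add, ← two_mul]
        refine add_le_add ?_ le_rfl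
        rw [two_mul]
        exact le_add_left le_rfl

/-- the shift `X ⊕ ℓ² → ℓ²` -/
noncomputable def Tf (hJ : ∀ x, adjoint J (J x) = x) (a : X × DD G) : DD G :=
  ⟨glue hG a.2 (uT hG J a.1 a.2), memℓp_of_n2 (by
    rw [n2_uT hG hJ]
    exact ENNReal.add_ne_top.2 ⟨ENNReal.pow_ne_top enorm_ne_top, ENNReal.pow_ne_top enorm_ne_top⟩)⟩

/-- the second component of the inverse shift -/
noncomputable def Ts (hJ : ∀ x, adjoint J (J x) = x) (t : DD G) : DD G :=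
  ⟨glue hG t (vT hG J t), memℓp_of_n2 (ne_top_of_le_ne_top
    (ENNReal.mul_ne_top ENNReal.ofNat_ne_top (ENNReal.pow_ne_top enorm_ne_top))
    (n2_vT hG hJ t))⟩

theorem RD_Tf_zero (hJ : ∀ x, adjoint J (J x) = x) (f : X) (s : DD G) :
    RD hG 0 (Tf hG hJ (f, s)) = mix J f (RD hG 0 s) := by
  apply lp.ext
  exact Rk_glue hG _ _ 0

theorem RD_Tf_succ (hJ : ∀ x, adjoint J (J x) = x) (f : X) (s : DD G) (k : ℕ) :
    RD hG (k + 1) (Tf hG hJ (f, s)) =
      mix J (adjoint J (RD hG k s)) (RD hG (k + 1) s) := by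
  apply lp.ext
  exact Rk_glue hG _ _ (k + 1)

theorem RD_Ts (hJ : ∀ x, adjoint J (J x) = x) (t : DD G) (k : ℕ) :
    RD hG k (Ts hG hJ t) = mix J (adjoint J (RD hG (k + 1) t)) (RD hG k t) := by
  apply lp.ext
  exact Rk_glue hG _ _ k

theorem DD_ext {c d : DD G} (h1 : ∀ i, i ∉ range (io hG) → c i = d i)
    (h2 : ∀ k, RD hG k c = RD hG k d) : c = d := by
  apply lp.ext
  refine ext_io hG h1 fun k => ?_
  have := congrArg (fun e : DD G => (e : Idx G → ℂ)) (h2 k)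
  exact this

theorem Tf_W (hJ : ∀ x, adjoint J (J x) = x) (f : X) (s : DD G) {i : Idx G}
    (h : i ∉ range (io hG)) : Tf hG hJ (f, s) i = s i := glue_not hG _ _ h

theorem Ts_W (hJ : ∀ x, adjoint J (J x) = x) (t : DD G) {i : Idx G}
    (h : i ∉ range (io hG)) : Ts hG hJ t i = t i := glue_not hG _ _ h

/-- the shift as a linear equivalence -/
noncomputable def TE (hJ : ∀ x, adjoint J (J x) = x) : (X × DD G) ≃ₗ[ℂ] DD G where
  toFun := Tf hG hJ
  map_add' := by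
    rintro ⟨f, s⟩ ⟨f', s'⟩
    refine DD_ext hG (fun i hi => ?_) fun k => ?_
    · have h1 : (f, s) + (f', s') = (f + f', s + s') := rfl
      have h2 : (Tf hG hJ (f, s) + Tf hG hJ (f', s')) i =
        Tf hG hJ (f, s) i + Tf hG hJ (f', s') i := rfl
      rw [h1, h2, Tf_W hG hJ _ _ hi, Tf_W hG hJ _ _ hi, Tf_W hG hJ _ _ hi]
      rfl
    · have h1 : (f, s) + (f', s') = (f + f', s + s') := rfl
      rw [h1, RD_add]
      cases k with
      | zero => rw [RD_Tf_zero, RD_Tf_zero, RD_Tf_zero, RD_add, mix_add]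
      | succ k => rw [RD_Tf_succ, RD_Tf_succ, RD_Tf_succ, RD_add, RD_add, map_add, mix_add]
  map_smul' := by
    rintro a ⟨f, s⟩
    refine DD_ext hG (fun i hi => ?_) fun k => ?_
    · have h1 : a • (f, s) = (a • f, a • s) := rfl
      have h2 : (((RingHom.id ℂ) a) • Tf hG hJ (f, s)) i = a • (Tf hG hJ (f, s) i) := rfl
      rw [h1, h2, Tf_W hG hJ _ _ hi, Tf_W hG hJ _ _ hi]
      rfl
    · have h1 : a • (f, s) = (a • f, a • s) := rfl
      rw [h1, RD_smul]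
      simp only [RingHom.id_apply]
      cases k with
      | zero => rw [RD_Tf_zero, RD_Tf_zero, RD_smul, mix_smul]
      | succ k => rw [RD_Tf_succ, RD_Tf_succ, RD_smul, RD_smul, map_smul, mix_smul]
  invFun := fun t => (adjoint J (RD hG 0 t), Ts hG hJ t)
  left_inv := by
    rintro ⟨f, s⟩
    refine Prod.ext ?_ ?_
    · simp only [RD_Tf_zero, adj_mix hJ]
    · refine DD_ext hG (fun i hi => ?_) fun k => ?_
      · simp only [Ts_W hG hJ _ hi, Tf_W hG hJ _ _ hi]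
      · rw [RD_Ts, RD_Tf_succ, adj_mix hJ]
        cases k with
        | zero => rw [RD_Tf_zero, mix_mix hJ, mix_self]
        | succ k => rw [RD_Tf_succ, mix_mix hJ, mix_self]
  right_inv := by
    intro t
    refine DD_ext hG (fun i hi => ?_) fun k => ?_
    · rw [Tf_W hG hJ _ _ hi, Ts_W hG hJ _ hi]
    · cases k with
      | zero => rw [RD_Tf_zero, RD_Ts, mix_mix hJ, mix_self]
      | succ k => rw [RD_Tf_succ, RD_Ts, RD_Ts, adj_mix hJ, mix_mix hJ, mix_self]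

theorem TE_norm (hJ : ∀ x, adjoint J (J x) = x) (f : X) (s : DD G) :
    ‖TE hG hJ (f, s)‖ₑ ^ 2 = ‖f‖ₑ ^ 2 + ‖s‖ₑ ^ 2 := by
  rw [← n2_eq']
  exact n2_uT hG hJ f s

/-! ### bounds -/

theorem ga_le_one (hG : 2 ≤ G) : ga G ≤ 1 := by
  unfold ga
  rw [ENNReal.inv_le_one]
  apply ENNReal.one_le_rpow
  · exact_mod_cast (by omega : 1 ≤ G)
  · norm_num

theorem ga_inv (hG : 2 ≤ G) : (ga G)⁻¹ ≠ ⊤ ∧ (ga G)⁻¹ * ga G = 1 := by
  have h1 : (G : ℝ≥0∞) ^ (1 / 2 : ℝ) ≠ ⊤ :=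
    ENNReal.rpow_ne_top_of_nonneg (by norm_num) (ENNReal.natCast_ne_top G)
  have h3 : 1 ≤ (G : ℝ≥0∞) ^ (1 / 2 : ℝ) := by
    apply ENNReal.one_le_rpow
    · exact_mod_cast (by omega : 1 ≤ G)
    · norm_num
  have h2 : (G : ℝ≥0∞) ^ (1 / 2 : ℝ) ≠ 0 := (lt_of_lt_of_le one_pos h3).ne'
  unfold ga
  rw [inv_inv]
  exact ⟨h1, ENNReal.mul_inv_cancel h2 h1⟩

theorem ND_mix_le (p : Seminorm ℂ X) {C : ℝ≥0∞}
    (h1 : ∀ f, ND (J f : Idx G → ℂ) ≤ C * ENNReal.ofReal (p f))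
    (h2 : ∀ d : DD G, ENNReal.ofReal (p (adjoint J d)) ≤ C * ND (d : Idx G → ℂ))
    (x : X) (s : DD G) :
    ND ((mix J x s : DD G) : Idx G → ℂ) ≤ C * ENNReal.ofReal (p x) + (1 + C * C) * ND (s : Idx G → ℂ) := by
  have e1 : ((mix J x s : DD G) : Idx G → ℂ) =
      (J x : Idx G → ℂ) + ((s : Idx G → ℂ) - (J (adjoint J s) : Idx G → ℂ)) := rfl
  rw [e1]
  refine (ND_add_le _ _).trans (add_le_add (h1 x) ((ND_sub_le _ _).trans ?_))
  rw [add_mul, one_mul]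
  refine add_le_add le_rfl ((h1 _).trans ?_)
  rw [mul_assoc]
  exact mul_le_mul_right (h2 s) _

theorem ND_uT_sum (p : Seminorm ℂ X) {C : ℝ≥0∞} (hJ : ∀ x, adjoint J (J x) = x)
    (h1 : ∀ f, ND (J f : Idx G → ℂ) ≤ C * ENNReal.ofReal (p f))
    (h2 : ∀ d : DD G, ENNReal.ofReal (p (adjoint J d)) ≤ C * ND (d : Idx G → ℂ))
    (f : X) (s : DD G) :
    ND (TE hG hJ (f, s) : Idx G → ℂ) ≤
      (2 + C + 2 * (C * C)) * (ENNReal.ofReal (p f) + ND (s : Idx G → ℂ)) := by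
  set γ := ga G with hγ
  have hγ1 : γ ≤ 1 := ga_le_one hG
  have hS : ∑' k, γ ^ (k + 1) * ND (Rk hG k s) ≤ ND (s : Idx G → ℂ) := ND_lower hG s
  have hW : ND (wres hG (TE hG hJ (f, s) : Idx G → ℂ)) ≤ ND (s : Idx G → ℂ) := by
    refine le_trans (le_of_eq ?_) (ND_wres_le hG s)
    congr 1
    refine ext_io hG (fun i hi => ?_) fun k => ?_
    · unfold wres
      rw [glue_not hG _ _ hi, glue_not hG _ _ hi]
      exact Tf_W hG hJ f s hi
    · unfold wres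
      rw [Rk_glue, Rk_glue]
  have h0 : ND (Rk hG 0 (TE hG hJ (f, s) : Idx G → ℂ)) ≤
      C * ENNReal.ofReal (p f) + (1 + C * C) * ND (Rk hG 0 s) := by
    have e : Rk hG 0 (TE hG hJ (f, s) : Idx G → ℂ) =
        ((mix J f (RD hG 0 s) : DD G) : Idx G → ℂ) :=
      congrArg (fun e : DD G => (e : Idx G → ℂ)) (RD_Tf_zero hG hJ f s)
    rw [e]
    exact ND_mix_le p h1 h2 f (RD hG 0 s)
  have h3 : ∀ k, ND (Rk hG (k + 1) (TE hG hJ (f, s) : Idx G → ℂ)) ≤
      C * C * ND (Rk hG k s) + (1 + C * C) * ND (Rk hG (k + 1) s) := by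
    intro k
    have e : Rk hG (k + 1) (TE hG hJ (f, s) : Idx G → ℂ) =
        ((mix J (adjoint J (RD hG k s)) (RD hG (k + 1) s) : DD G) : Idx G → ℂ) :=
      congrArg (fun e : DD G => (e : Idx G → ℂ)) (RD_Tf_succ hG hJ f s k)
    rw [e]
    refine (ND_mix_le p h1 h2 _ (RD hG (k + 1) s)).trans (add_le_add ?_ le_rfl)
    rw [mul_assoc]
    exact mul_le_mul_right (h2 (RD hG k s)) _
  set A := ENNReal.ofReal (p f) with hA
  set N := ND (s : Idx G → ℂ) with hN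
  have h4 : ∑' k, γ ^ (k + 1) * ND (Rk hG k (TE hG hJ (f, s) : Idx G → ℂ)) ≤
      C * A + (1 + 2 * (C * C)) * N := by
    rw [tsum_eq_zero_add' ENNReal.summable]
    have h5 : ∀ k, γ ^ (k + 1 + 1) * ND (Rk hG (k + 1) (TE hG hJ (f, s) : Idx G → ℂ)) ≤
        C * C * (γ ^ (k + 1) * ND (Rk hG k s)) +
          (1 + C * C) * (γ ^ (k + 1 + 1) * ND (Rk hG (k + 1) s)) := by
      intro k
      calc _ ≤ γ ^ (k + 1 + 1) * (C * C * ND (Rk hG k s) +
            (1 + C * C) * ND (Rk hG (k + 1) s)) := mul_le_mul_right (h3 k) _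
        _ = γ * (C * C * (γ ^ (k + 1) * ND (Rk hG k s))) +
            (1 + C * C) * (γ ^ (k + 1 + 1) * ND (Rk hG (k + 1) s)) := by ring
        _ ≤ _ := by
            refine add_le_add ?_ le_rfl
            calc γ * (C * C * (γ ^ (k + 1) * ND (Rk hG k s)))
                ≤ 1 * (C * C * (γ ^ (k + 1) * ND (Rk hG k s))) := mul_le_mul_left hγ1 _
              _ = _ := one_mul _
    have h6 : γ ^ (0 + 1) * ND (Rk hG 0 (TE hG hJ (f, s) : Idx G → ℂ)) ≤
        C * A + (1 + C * C) * (γ ^ (0 + 1) * ND (Rk hG 0 s)) := by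
      calc _ ≤ γ ^ (0 + 1) * (C * A + (1 + C * C) * ND (Rk hG 0 s)) := mul_le_mul_right h0 _
        _ = γ * (C * A) + (1 + C * C) * (γ ^ (0 + 1) * ND (Rk hG 0 s)) := by ring
        _ ≤ _ := by
            refine add_le_add ?_ le_rfl
            calc γ * (C * A) ≤ 1 * (C * A) := mul_le_mul_left hγ1 _
              _ = _ := one_mul _
    refine (add_le_add h6 (ENNReal.tsum_le_tsum h5)).trans ?_
    rw [ENNReal.tsum_add, ENNReal.tsum_mul_left, ENNReal.tsum_mul_left]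
    have h7 : ∑' k, γ ^ (k + 1) * ND (Rk hG k s) =
        γ ^ (0 + 1) * ND (Rk hG 0 s) + ∑' k, γ ^ (k + 1 + 1) * ND (Rk hG (k + 1) s) :=
      tsum_eq_zero_add' ENNReal.summable
    calc C * A + (1 + C * C) * (γ ^ (0 + 1) * ND (Rk hG 0 s)) +
          (C * C * ∑' k, γ ^ (k + 1) * ND (Rk hG k s) +
            (1 + C * C) * ∑' k, γ ^ (k + 1 + 1) * ND (Rk hG (k + 1) s))
        = C * A + (1 + C * C) * (∑' k, γ ^ (k + 1) * ND (Rk hG k s)) +
          C * C * ∑' k, γ ^ (k + 1) * ND (Rk hG k s) := by rw [h7]; ring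
      _ ≤ C * A + (1 + C * C) * N + C * C * N := by gcongr
      _ = C * A + (1 + 2 * (C * C)) * N := by ring
  calc ND (TE hG hJ (f, s) : Idx G → ℂ)
      ≤ N + (C * A + (1 + 2 * (C * C)) * N) := (ND_upper hG _).trans (add_le_add hW h4)
    _ = C * A + (2 + 2 * (C * C)) * N := by ring
    _ ≤ (2 + C + 2 * (C * C)) * A + (2 + C + 2 * (C * C)) * N := by
        refine add_le_add ?_ ?_
        · refine mul_le_mul_left ?_ _
          calc C = C + 0 := (add_zero C).symm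
            _ ≤ C + (2 + 2 * (C * C)) := add_le_add le_rfl zero_le
            _ = _ := by ring
        · refine mul_le_mul_left ?_ _
          calc 2 + 2 * (C * C) = 2 + 2 * (C * C) + 0 := (add_zero _).symm
            _ ≤ 2 + 2 * (C * C) + C := add_le_add le_rfl zero_le
            _ = _ := by ring
    _ = _ := by ring

theorem ND_vT_sum (p : Seminorm ℂ X) {C : ℝ≥0∞} (hJ : ∀ x, adjoint J (J x) = x)
    (h1 : ∀ f, ND (J f : Idx G → ℂ) ≤ C * ENNReal.ofReal (p f))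
    (h2 : ∀ d : DD G, ENNReal.ofReal (p (adjoint J d)) ≤ C * ND (d : Idx G → ℂ))
    (t : DD G) :
    ENNReal.ofReal (p ((TE hG hJ).symm t).1) + ND (((TE hG hJ).symm t).2 : Idx G → ℂ) ≤
      (2 + C * (ga G)⁻¹ + C * C + C * C * (ga G)⁻¹) * ND (t : Idx G → ℂ) := by
  set γ := ga G with hγ
  obtain ⟨hγt, hγi⟩ := ga_inv hG
  rw [← hγ] at hγt hγi
  set N := ND (t : Idx G → ℂ) with hN
  have hS : ∑' k, γ ^ (k + 1) * ND (Rk hG k t) ≤ N := ND_lower hG t
  have h0 : ((TE hG hJ).symm t).1 = adjoint J (RD hG 0 t) := rfl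
  have h3 : ((TE hG hJ).symm t).2 = Ts hG hJ t := rfl
  rw [h0, h3]
  have h4 : ENNReal.ofReal (p (adjoint J (RD hG 0 t))) ≤ C * γ⁻¹ * N := by
    refine (h2 _).trans ?_
    rw [mul_assoc]
    refine mul_le_mul_right ?_ _
    calc ND (Rk hG 0 t) = γ⁻¹ * (γ ^ (0 + 1) * ND (Rk hG 0 t)) := by
          rw [zero_add, pow_one, ← mul_assoc, hγi, one_mul]
      _ ≤ γ⁻¹ * N := mul_le_mul_right
          ((ENNReal.le_tsum (f := fun k => γ ^ (k + 1) * ND (Rk hG k t)) 0).trans hS) _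
  have hW : ND (wres hG (Ts hG hJ t : Idx G → ℂ)) ≤ N := by
    refine le_trans (le_of_eq ?_) (ND_wres_le hG t)
    congr 1
    refine ext_io hG (fun i hi => ?_) fun k => ?_
    · unfold wres
      rw [glue_not hG _ _ hi, glue_not hG _ _ hi]
      exact Ts_W hG hJ t hi
    · unfold wres
      rw [Rk_glue, Rk_glue]
  have h5 : ∀ k, γ ^ (k + 1) * ND (Rk hG k (Ts hG hJ t : Idx G → ℂ)) ≤
      C * C * γ⁻¹ * (γ ^ (k + 1 + 1) * ND (Rk hG (k + 1) t)) +
        (1 + C * C) * (γ ^ (k + 1) * ND (Rk hG k t)) := by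
    intro k
    have e : Rk hG k (Ts hG hJ t : Idx G → ℂ) =
        ((mix J (adjoint J (RD hG (k + 1) t)) (RD hG k t) : DD G) : Idx G → ℂ) :=
      congrArg (fun e : DD G => (e : Idx G → ℂ)) (RD_Ts hG hJ t k)
    rw [e]
    have h6 : ND ((mix J (adjoint J (RD hG (k + 1) t)) (RD hG k t) : DD G) : Idx G → ℂ) ≤
        C * C * ND (Rk hG (k + 1) t) + (1 + C * C) * ND (Rk hG k t) := by
      refine (ND_mix_le p h1 h2 _ (RD hG k t)).trans (add_le_add ?_ le_rfl)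
      rw [mul_assoc]
      exact mul_le_mul_right (h2 (RD hG (k + 1) t)) _
    calc _ ≤ γ ^ (k + 1) * (C * C * ND (Rk hG (k + 1) t) + (1 + C * C) * ND (Rk hG k t)) :=
          mul_le_mul_right h6 _
      _ = (γ⁻¹ * γ) * (γ ^ (k + 1) * (C * C * ND (Rk hG (k + 1) t) +
            (1 + C * C) * ND (Rk hG k t))) := by rw [hγi, one_mul]
      _ = C * C * γ⁻¹ * (γ ^ (k + 1 + 1) * ND (Rk hG (k + 1) t)) +
            (γ⁻¹ * γ) * ((1 + C * C) * (γ ^ (k + 1) * ND (Rk hG k t))) := by ring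
      _ = _ := by rw [hγi, one_mul]
  have h6 : ∑' k, γ ^ (k + 1) * ND (Rk hG k (Ts hG hJ t : Idx G → ℂ)) ≤
      C * C * γ⁻¹ * N + (1 + C * C) * N := by
    refine (ENNReal.tsum_le_tsum h5).trans ?_
    rw [ENNReal.tsum_add, ENNReal.tsum_mul_left, ENNReal.tsum_mul_left]
    refine add_le_add (mul_le_mul_right ?_ _) (mul_le_mul_right hS _)
    refine le_trans ?_ hS
    rw [tsum_eq_zero_add' (f := fun k => γ ^ (k + 1) * ND (Rk hG k t)) ENNReal.summable]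
    exact le_add_left le_rfl
  calc _ ≤ C * γ⁻¹ * N + (N + (C * C * γ⁻¹ * N + (1 + C * C) * N)) :=
        add_le_add h4 ((ND_upper hG _).trans (add_le_add hW h6))
    _ = _ := by ring

end Swindle

end Pool.Agent.MP28b1a7
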