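import Pool.Agent.Lib.MP_28b1a7_an.Abs1
import Pool.Agent.Lib.MP_28b1a7_an.Abs4

/-!
The abstract Hilbert space part: a unitary between `ℓ²` of the tree and `H` that is bounded in
both directions for the seminorm `p` and the square function norm.
-/

namespace Pool.Agent.MP28b1a7

open MeasureTheory Set ContinuousLinearMap
open scoped ENNReal NNReal InnerProductSpace

variable {G : ℕ} {H : Type*} [NormedAddCommGroup H] [InnerProductSpace ℂ H] [CompleteSpace H]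

section

variable (hG : 2 ≤ G) {J : H →L[ℂ] DD G} {K : DD G →L[ℂ] H}

theorem adj_id (x : DD G) : adjoint (ContinuousLinearMap.id ℂ (DD G))
    ((ContinuousLinearMap.id ℂ (DD G)) x) = x := by
  have h : adjoint (ContinuousLinearMap.id ℂ (DD G)) = ContinuousLinearMap.id ℂ (DD G) := by
    rw [← ContinuousLinearMap.star_eq_adjoint]
    exact star_one _
  rw [h]; rfl

theorem adj_id' (x : DD G) : adjoint (ContinuousLinearMap.id ℂ (DD G)) x = x := adj_id x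

/-- `H ≃ H ⊕ ℓ²` -/
noncomputable def SE (hK : ∀ x, adjoint K (K x) = x) : H ≃ₗ[ℂ] H × DD G where
  toFun f := (mix K ((TE hG (adj_id (G := G))).symm (adjoint K f)).1 f,
    ((TE hG (adj_id (G := G))).symm (adjoint K f)).2)
  map_add' f f' := by
    simp only [map_add, Prod.fst_add, Prod.snd_add, mix_add]
    rfl
  map_smul' a f := by
    simp only [map_smul, Prod.smul_fst, Prod.smul_snd, mix_smul, RingHom.id_apply]
    rfl
  invFun g := mix K (TE hG (adj_id (G := G)) (adjoint K g.1, g.2)) g.1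
  left_inv f := by
    simp only [adj_mix hK, mix_mix hK, Prod.mk.eta, LinearEquiv.apply_symm_apply, mix_self]
  right_inv g := by
    simp only [adj_mix hK, LinearEquiv.symm_apply_apply, mix_mix hK, mix_self]

theorem SE_norm (hK : ∀ x, adjoint K (K x) = x) (f : H) :
    ‖(SE hG hK f).1‖ₑ ^ 2 + ‖(SE hG hK f).2‖ₑ ^ 2 = ‖f‖ₑ ^ 2 := by
  have h1 : (SE hG hK f).1 = mix K ((TE hG (adj_id (G := G))).symm (adjoint K f)).1 f := rfl
  have h2 : (SE hG hK f).2 = ((TE hG (adj_id (G := G))).symm (adjoint K f)).2 := rfl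
  have h3 := TE_norm hG (adj_id (G := G)) ((TE hG (adj_id (G := G))).symm (adjoint K f)).1
    ((TE hG (adj_id (G := G))).symm (adjoint K f)).2
  rw [Prod.mk.eta, LinearEquiv.apply_symm_apply] at h3
  rw [h1, h2, enorm_mix hK, enorm_split hK f, h3]
  ring

/-- the unitary `H ≃ ℓ²` as a linear equivalence -/
noncomputable def VE (hJ : ∀ x, adjoint J (J x) = x) (hK : ∀ x, adjoint K (K x) = x) :
    H ≃ₗ[ℂ] DD G := (SE hG hK).trans (TE hG hJ)

theorem VE_norm (hJ : ∀ x, adjoint J (J x) = x) (hK : ∀ x, adjoint K (K x) = x) (f : H) :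
    ‖VE hG hJ hK f‖ = ‖f‖ := by
  have h1 : VE hG hJ hK f = TE hG hJ ((SE hG hK f).1, (SE hG hK f).2) := rfl
  have h2 : ‖VE hG hJ hK f‖ₑ ^ 2 = ‖f‖ₑ ^ 2 := by
    rw [h1, TE_norm, SE_norm]
  have h3 : ‖VE hG hJ hK f‖ₑ = ‖f‖ₑ := (ENNReal.pow_right_strictMono two_ne_zero).injective h2
  rw [← toReal_enorm, h3, toReal_enorm]

theorem p_mix_le (p : Seminorm ℂ H) {C : ℝ≥0∞}
    (k1 : ∀ d : DD G, ENNReal.ofReal (p (K d)) ≤ C * ND (d : Idx G → ℂ))
    (k2 : ∀ f, ND (adjoint K f : Idx G → ℂ) ≤ C * ENNReal.ofReal (p f)) (x : DD G) (f : H) :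
    ENNReal.ofReal (p (mix K x f)) ≤
      C * ND (x : Idx G → ℂ) + (1 + C * C) * ENNReal.ofReal (p f) := by
  have e1 : mix K x f = K x + (f - K (adjoint K f)) := rfl
  have h1 : p (mix K x f) ≤ p (K x) + (p f + p (K (adjoint K f))) := by
    rw [e1]
    exact (map_add_le_add p _ _).trans (add_le_add le_rfl (map_sub_le_add p _ _))
  calc ENNReal.ofReal (p (mix K x f)) ≤
      ENNReal.ofReal (p (K x) + (p f + p (K (adjoint K f)))) := ENNReal.ofReal_le_ofReal h1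
    _ = ENNReal.ofReal (p (K x)) + (ENNReal.ofReal (p f) +
        ENNReal.ofReal (p (K (adjoint K f)))) := by
        rw [ENNReal.ofReal_add (apply_nonneg _ _) (by positivity),
          ENNReal.ofReal_add (apply_nonneg _ _) (apply_nonneg _ _)]
    _ ≤ C * ND (x : Idx G → ℂ) + (ENNReal.ofReal (p f) + C * (C * ENNReal.ofReal (p f))) := by
        refine add_le_add (k1 x) (add_le_add le_rfl ((k1 _).trans ?_))
        exact mul_le_mul_right (k2 f) _
    _ = _ := by ring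

theorem ofReal_NDs (d : DD G) (h0 : 0 < G) :
    ENNReal.ofReal (NDs h0 d) = ND (d : Idx G → ℂ) := ENNReal.ofReal_toReal (ND_ne_top h0 d)

theorem core_bounds (p : Seminorm ℂ H) {C : ℝ≥0∞} (hC : C ≠ ⊤)
    (hJ : ∀ x, adjoint J (J x) = x) (hK : ∀ x, adjoint K (K x) = x)
    (h1 : ∀ f, ND (J f : Idx G → ℂ) ≤ C * ENNReal.ofReal (p f))
    (h2 : ∀ d : DD G, ENNReal.ofReal (p (adjoint J d)) ≤ C * ND (d : Idx G → ℂ))
    (k1 : ∀ d : DD G, ENNReal.ofReal (p (K d)) ≤ C * ND (d : Idx G → ℂ))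
    (k2 : ∀ f, ND (adjoint K f : Idx G → ℂ) ≤ C * ENNReal.ofReal (p f)) :
    ∃ C' : ℝ≥0∞, C' ≠ ⊤ ∧
      (∀ f, ND (VE hG hJ hK f : Idx G → ℂ) ≤ C' * ENNReal.ofReal (p f)) ∧
      (∀ d, ENNReal.ofReal (p ((VE hG hJ hK).symm d)) ≤ C' * ND (d : Idx G → ℂ)) := by
  have h0 : 0 < G := by omega
  obtain ⟨hγt, -⟩ := ga_inv hG
  -- bounds for the shift on `ℓ² ⊕ ℓ²`
  have i1 : ∀ f : DD G, ND ((ContinuousLinearMap.id ℂ (DD G)) f : Idx G → ℂ) ≤
      1 * ENNReal.ofReal (NDs h0 f) := by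
    intro f
    rw [ofReal_NDs, one_mul]; rfl
  have i2 : ∀ d : DD G, ENNReal.ofReal (NDs h0 (adjoint (ContinuousLinearMap.id ℂ (DD G)) d)) ≤
      1 * ND (d : Idx G → ℂ) := by
    intro d
    rw [ofReal_NDs, one_mul, adj_id']
  set C0 : ℝ≥0∞ := 2 + 1 + 2 * (1 * 1) with hC0
  set C1 : ℝ≥0∞ := 2 + 1 * (ga G)⁻¹ + 1 * 1 + 1 * 1 * (ga G)⁻¹ with hC1
  have hC0t : C0 ≠ ⊤ := by rw [hC0]; norm_num
  have hC1t : C1 ≠ ⊤ := by
    rw [hC1]
    simp only [one_mul]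
    exact ENNReal.add_ne_top.2 ⟨ENNReal.add_ne_top.2 ⟨ENNReal.add_ne_top.2
      ⟨ENNReal.ofNat_ne_top, hγt⟩, ENNReal.one_ne_top⟩, hγt⟩
  have a1 : ∀ s' s : DD G, ND (TE hG (adj_id (G := G)) (s', s) : Idx G → ℂ) ≤
      C0 * (ND (s' : Idx G → ℂ) + ND (s : Idx G → ℂ)) := by
    intro s' s
    have := ND_uT_sum hG (NDs h0) (adj_id (G := G)) i1 i2 s' s
    rwa [ofReal_NDs] at this
  have a2 : ∀ t : DD G, ND (((TE hG (adj_id (G := G))).symm t).1 : Idx G → ℂ) +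
      ND (((TE hG (adj_id (G := G))).symm t).2 : Idx G → ℂ) ≤ C1 * ND (t : Idx G → ℂ) := by
    intro t
    have := ND_vT_sum hG (NDs h0) (adj_id (G := G)) i1 i2 t
    rwa [ofReal_NDs] at this
  -- bounds for the shift on `H ⊕ ℓ²`
  set D0 : ℝ≥0∞ := 2 + C + 2 * (C * C) with hD0
  set D1 : ℝ≥0∞ := 2 + C * (ga G)⁻¹ + C * C + C * C * (ga G)⁻¹ with hD1
  have hD0t : D0 ≠ ⊤ := by
    rw [hD0]
    exact ENNReal.add_ne_top.2 ⟨ENNReal.add_ne_top.2 ⟨ENNReal.ofNat_ne_top, hC⟩,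
      ENNReal.mul_ne_top ENNReal.ofNat_ne_top (ENNReal.mul_ne_top hC hC)⟩
  have hD1t : D1 ≠ ⊤ := by
    rw [hD1]
    exact ENNReal.add_ne_top.2 ⟨ENNReal.add_ne_top.2 ⟨ENNReal.add_ne_top.2
      ⟨ENNReal.ofNat_ne_top, ENNReal.mul_ne_top hC hγt⟩, ENNReal.mul_ne_top hC hC⟩,
      ENNReal.mul_ne_top (ENNReal.mul_ne_top hC hC) hγt⟩
  have b1 := ND_uT_sum hG p hJ h1 h2
  have b2 := ND_vT_sum hG p hJ h1 h2
  rw [← hD0] at b1
  rw [← hD1] at b2
  set A : ℝ≥0∞ := D0 * (C * (C1 * C) + (1 + C * C) + C1 * C) with hA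
  set B : ℝ≥0∞ := C * (C0 * (C * D1 + D1)) + (1 + C * C) * D1 with hB
  have hAt : A ≠ ⊤ := by
    rw [hA]
    refine ENNReal.mul_ne_top hD0t (ENNReal.add_ne_top.2 ⟨ENNReal.add_ne_top.2
      ⟨ENNReal.mul_ne_top hC (ENNReal.mul_ne_top hC1t hC), ENNReal.add_ne_top.2
        ⟨ENNReal.one_ne_top, ENNReal.mul_ne_top hC hC⟩⟩, ENNReal.mul_ne_top hC1t hC⟩)
  have hBt : B ≠ ⊤ := by
    rw [hB]
    refine ENNReal.add_ne_top.2 ⟨ENNReal.mul_ne_top hC (ENNReal.mul_ne_top hC0t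
      (ENNReal.add_ne_top.2 ⟨ENNReal.mul_ne_top hC hD1t, hD1t⟩)), ENNReal.mul_ne_top
      (ENNReal.add_ne_top.2 ⟨ENNReal.one_ne_top, ENNReal.mul_ne_top hC hC⟩) hD1t⟩
  refine ⟨A + B, ENNReal.add_ne_top.2 ⟨hAt, hBt⟩, fun f => ?_, fun d => ?_⟩
  · have e1 : VE hG hJ hK f = TE hG hJ ((SE hG hK f).1, (SE hG hK f).2) := rfl
    have e2 : (SE hG hK f).1 = mix K ((TE hG (adj_id (G := G))).symm (adjoint K f)).1 f := rfl
    have e3 : (SE hG hK f).2 = ((TE hG (adj_id (G := G))).symm (adjoint K f)).2 := rfl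
    set P := ENNReal.ofReal (p f) with hP
    set x := ((TE hG (adj_id (G := G))).symm (adjoint K f)).1 with hx
    set y := ((TE hG (adj_id (G := G))).symm (adjoint K f)).2 with hy
    have h3 : ND (x : Idx G → ℂ) + ND (y : Idx G → ℂ) ≤ C1 * C * P := by
      refine (a2 (adjoint K f)).trans ?_
      rw [mul_assoc]
      exact mul_le_mul_right (k2 f) _
    have h4 : ND (x : Idx G → ℂ) ≤ C1 * C * P := le_trans (le_add_right le_rfl) h3
    have h5 : ND (y : Idx G → ℂ) ≤ C1 * C * P := le_trans (le_add_left le_rfl) h3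
    rw [e1]
    calc ND (TE hG hJ ((SE hG hK f).1, (SE hG hK f).2) : Idx G → ℂ)
        ≤ D0 * (ENNReal.ofReal (p (SE hG hK f).1) + ND ((SE hG hK f).2 : Idx G → ℂ)) := b1 _ _
      _ ≤ D0 * ((C * (C1 * C * P) + (1 + C * C) * P) + C1 * C * P) := by
          refine mul_le_mul_right (add_le_add ?_ ?_) _
          · rw [e2]
            exact (p_mix_le p k1 k2 x f).trans (add_le_add (mul_le_mul_right h4 _) le_rfl)
          · rw [e3]; exact h5
      _ = A * P := by rw [hA]; ring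
      _ ≤ (A + B) * P := mul_le_mul_left (le_add_right le_rfl) _
  · have e1 : (VE hG hJ hK).symm d = mix K (TE hG (adj_id (G := G))
        (adjoint K ((TE hG hJ).symm d).1, ((TE hG hJ).symm d).2)) ((TE hG hJ).symm d).1 := rfl
    have h3 := b2 d
    set N := ND (d : Idx G → ℂ) with hN
    set g := ((TE hG hJ).symm d).1 with hg
    set s := ((TE hG hJ).symm d).2 with hs
    have h4 : ENNReal.ofReal (p g) ≤ D1 * N := le_trans (le_add_right le_rfl) h3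
    have h5 : ND (s : Idx G → ℂ) ≤ D1 * N := le_trans (le_add_left le_rfl) h3
    rw [e1]
    calc _ ≤ C * ND (TE hG (adj_id (G := G)) (adjoint K g, s) : Idx G → ℂ) +
          (1 + C * C) * ENNReal.ofReal (p g) := p_mix_le p k1 k2 _ g
      _ ≤ C * (C0 * (C * (D1 * N) + D1 * N)) + (1 + C * C) * (D1 * N) := by
          refine add_le_add (mul_le_mul_right ((a1 _ _).trans (mul_le_mul_right
            (add_le_add ((k2 g).trans (mul_le_mul_right h4 _)) h5) _)) _) (mul_le_mul_right h4 _)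
      _ = B * N := by rw [hB]; ring
      _ ≤ (A + B) * N := mul_le_mul_left (le_add_left le_rfl) _

end

theorem hilbert_core {H : Type*} [NormedAddCommGroup H] [InnerProductSpace ℂ H] [CompleteSpace H]
    (p : Seminorm ℂ H) (hp : ∀ x, p x ≤ ‖x‖) (G : ℕ) (hG : 2 ≤ G) (C : ℝ)
    (A B : H →L[ℂ] DD G)
    (hA1 : ∀ f, (ND (A f : Idx G → ℂ)).toReal ≤ C * p f)
    (hA2 : ∀ c : DD G, p (adjoint A c) ≤ C * (ND (c : Idx G → ℂ)).toReal)
    (hB1 : ∀ f, (ND (B f : Idx G → ℂ)).toReal ≤ C * p f)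
    (hB2 : ∀ c : DD G, p (adjoint B c) ≤ C * (ND (c : Idx G → ℂ)).toReal)
    (hAE : ∀ f, ‖adjoint A (A f) - f‖ ≤ 1 / 2 * ‖f‖)
    (hAp : ∀ f, p (adjoint A (A f) - f) ≤ 1 / 2 * p f)
    (hBE : ∀ c, ‖B (adjoint B c) - c‖ ≤ 1 / 2 * ‖c‖)
    (hBp : ∀ c, (ND ((B (adjoint B c) - c : DD G) : Idx G → ℂ)).toReal ≤
      1 / 2 * (ND (c : Idx G → ℂ)).toReal) :
    ∃ (U : DD G ≃ₗᵢ[ℂ] H) (C' : ℝ), (∀ c, p (U c) ≤ C' * (ND (c : Idx G → ℂ)).toReal) ∧
      (∀ f, (ND (U.symm f : Idx G → ℂ)).toReal ≤ C' * p f) := by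
  have h0 : 0 < G := by omega
  obtain ⟨R, hR1, hR2, hR3⟩ := invsqrt p 1 (by simpa using hp) (adjoint A ∘L A)
    (by rw [adjoint_comp, adjoint_adjoint]) hAE hAp
  obtain ⟨S, hS1, hS2, hS3⟩ := invsqrt (NDs h0) 1 (by simpa using NDs_le h0) (B ∘L adjoint B)
    (by rw [adjoint_comp, adjoint_adjoint]) hBE hBp
  set J : H →L[ℂ] DD G := A ∘L R with hJdef
  set K : DD G →L[ℂ] H := adjoint B ∘L S with hKdef
  have hJa : adjoint J = R ∘L adjoint A := by rw [hJdef, adjoint_comp, hR1]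
  have hKa : adjoint K = S ∘L B := by rw [hKdef, adjoint_comp, adjoint_adjoint, hS1]
  have hJ : ∀ x, adjoint J (J x) = x := by
    intro x; rw [hJa]; exact hR2 x
  have hK : ∀ x, adjoint K (K x) = x := by
    intro x; rw [hKa]; exact hS2 x
  set c : ℝ≥0∞ := ENNReal.ofReal (2 * |C|) with hc
  have toE : ∀ (f : H) (d : DD G), (ND (d : Idx G → ℂ)).toReal ≤ 2 * |C| * p f →
      ND (d : Idx G → ℂ) ≤ c * ENNReal.ofReal (p f) := by
    intro f d h
    rw [← ENNReal.ofReal_toReal (ND_ne_top h0 d), hc, ← ENNReal.ofReal_mul (by positivity)]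
    exact ENNReal.ofReal_le_ofReal h
  have toE' : ∀ (f : H) (d : DD G), p f ≤ 2 * |C| * (ND (d : Idx G → ℂ)).toReal →
      ENNReal.ofReal (p f) ≤ c * ND (d : Idx G → ℂ) := by
    intro f d h
    conv_rhs => rw [← ENNReal.ofReal_toReal (ND_ne_top h0 d)]
    rw [hc, ← ENNReal.ofReal_mul (by positivity)]
    exact ENNReal.ofReal_le_ofReal h
  have hCa : C ≤ |C| := le_abs_self C
  have hab := abs_nonneg C
  have j1 : ∀ f, ND (J f : Idx G → ℂ) ≤ c * ENNReal.ofReal (p f) := by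
    intro f
    refine toE f (J f) ((hA1 (R f)).trans ?_)
    have h1 := hR3 f
    have h2 : 0 ≤ p (R f) := apply_nonneg _ _
    nlinarith
  have j2 : ∀ d : DD G, ENNReal.ofReal (p (adjoint J d)) ≤ c * ND (d : Idx G → ℂ) := by
    intro d
    refine toE' _ d ?_
    rw [hJa]
    have h1 := hR3 (adjoint A d)
    have h2 := hA2 d
    have h3 : 0 ≤ (ND (d : Idx G → ℂ)).toReal := ENNReal.toReal_nonneg
    refine h1.trans ?_
    nlinarith
  have k1 : ∀ d : DD G, ENNReal.ofReal (p (K d)) ≤ c * ND (d : Idx G → ℂ) := by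
    intro d
    refine toE' _ d ((hB2 (S d)).trans ?_)
    have h1 : (ND (S d : Idx G → ℂ)).toReal ≤ 2 * (ND (d : Idx G → ℂ)).toReal := hS3 d
    have h2 : 0 ≤ (ND (S d : Idx G → ℂ)).toReal := ENNReal.toReal_nonneg
    nlinarith
  have k2 : ∀ f, ND (adjoint K f : Idx G → ℂ) ≤ c * ENNReal.ofReal (p f) := by
    intro f
    refine toE f _ ?_
    rw [hKa]
    have h1 : (ND (S (B f) : Idx G → ℂ)).toReal ≤ 2 * (ND (B f : Idx G → ℂ)).toReal := hS3 (B f)
    have h2 := hB1 f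
    have h3 : 0 ≤ p f := apply_nonneg _ _
    refine h1.trans ?_
    nlinarith
  obtain ⟨C', hC't, u1, u2⟩ := core_bounds hG p ENNReal.ofReal_ne_top hJ hK j1 j2 k1 k2
  set V : H ≃ₗᵢ[ℂ] DD G := ⟨VE hG hJ hK, VE_norm hG hJ hK⟩ with hV
  refine ⟨V.symm, C'.toReal, fun d => ?_, fun f => ?_⟩
  · have h1 := u2 d
    have h2 : C' * ND (d : Idx G → ℂ) ≠ ⊤ := ENNReal.mul_ne_top hC't (ND_ne_top h0 d)
    have h3 := (ENNReal.ofReal_le_iff_le_toReal h2).1 h1
    rw [ENNReal.toReal_mul] at h3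
    exact h3
  · have h1 := u1 f
    have h2 := ENNReal.toReal_mono (ENNReal.mul_ne_top hC't ENNReal.ofReal_ne_top) h1
    rw [ENNReal.toReal_mul, ENNReal.toReal_ofReal (apply_nonneg _ _)] at h2
    exact h2

end Pool.Agent.MP28b1a7
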