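import Mathlib

/-!
Inverse square roots of operators close to the identity, with bounds in a seminorm.
-/

namespace Pool.Agent.MP28b1a7

open ContinuousLinearMap Filter Topology
open scoped InnerProductSpace

theorem exists_coeff : ∃ a : ℕ → ℝ, (∀ k, |a k| ≤ 1) ∧
    ∀ n, ∑ ij ∈ Finset.HasAntidiagonal.antidiagonal n, a ij.1 * a ij.2 = 1 := by
  refine ⟨fun k => (-1) ^ k * Ring.choose (-(1 / 2) : ℝ) k, ?_, ?_⟩
  · intro k
    rw [abs_mul, abs_pow, abs_neg, abs_one, one_pow, one_mul]
    induction k with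
    | zero => simp
    | succ k ih =>
      have h : Ring.choose (-(1 / 2) : ℝ) (k + 1) =
          Ring.choose (-(1 / 2) : ℝ) k * ((-(1 / 2) - k) / (k + 1)) := by
        rw [Ring.choose_eq_smul, Ring.choose_eq_smul, descPochhammer_succ_right,
          Polynomial.smeval_mul, Polynomial.smeval_sub, Polynomial.smeval_X,
          Polynomial.smeval_natCast, Nat.factorial_succ]
        push_cast
        simp only [smul_eq_mul, pow_one, pow_zero, nsmul_eq_mul, mul_one]
        have h1 : ((k : ℝ) + 1) ≠ 0 := by positivity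
        have h2 : (k.factorial : ℝ) ≠ 0 := by positivity
        field_simp
      rw [h, abs_mul]
      have h1 : |(-(1 / 2) - (k : ℝ)) / (k + 1)| ≤ 1 := by
        have hk : (0 : ℝ) ≤ k := k.cast_nonneg
        rw [abs_div, abs_of_pos (by positivity : (0 : ℝ) < k + 1), div_le_one (by positivity),
          abs_le]
        constructor <;> linarith
      calc |Ring.choose (-(1 / 2) : ℝ) k| * |(-(1 / 2) - (k : ℝ)) / (k + 1)| ≤ 1 * 1 :=
          mul_le_mul ih h1 (abs_nonneg _) zero_le_one
        _ = 1 := one_mul 1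
  · intro n
    have h1 := Ring.add_choose_eq (R := ℝ) (r := -(1 / 2)) (s := -(1 / 2)) n (Commute.refl _)
    have h2 : (-(1 / 2) + -(1 / 2) : ℝ) = -1 := by norm_num
    rw [h2, Ring.choose_neg] at h1
    have h3 : (1 + (n : ℝ) - 1) = n := by ring
    rw [h3, Ring.choose_natCast, Nat.choose_self] at h1
    have h4 : ∀ ij ∈ Finset.HasAntidiagonal.antidiagonal n,
        (-1) ^ ij.1 * Ring.choose (-(1 / 2) : ℝ) ij.1 *
        ((-1) ^ ij.2 * Ring.choose (-(1 / 2) : ℝ) ij.2) =
        (-1) ^ n * (Ring.choose (-(1 / 2) : ℝ) ij.1 * Ring.choose (-(1 / 2) : ℝ) ij.2) := by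
      intro ij hij
      rw [← Finset.HasAntidiagonal.mem_antidiagonal.1 hij, pow_add]
      ring
    rw [Finset.sum_congr rfl h4, ← Finset.mul_sum, ← h1]
    have h5 : ((Int.negOnePow (n : ℤ)) • ((1 : ℕ) : ℝ)) = (-1) ^ n := by
      rcases Nat.even_or_odd n with h | h
      · have h6 : Int.negOnePow (n : ℤ) = 1 := Int.negOnePow_even _ (by exact_mod_cast h)
        rw [h6, h.neg_one_pow]; simp
      · have h6 : Int.negOnePow (n : ℤ) = -1 := Int.negOnePow_odd _ (by exact_mod_cast h)
        rw [h6, h.neg_one_pow]; simp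
    rw [h5, ← mul_pow]
    norm_num

variable {H : Type*} [NormedAddCommGroup H] [InnerProductSpace ℂ H] [CompleteSpace H]

/-- The inverse square root. -/
theorem invsqrt (p : Seminorm ℂ H) (M : ℝ) (hp : ∀ x, p x ≤ M * ‖x‖) (T : H →L[ℂ] H)
    (hT : adjoint T = T) (h1 : ∀ f, ‖T f - f‖ ≤ 1 / 2 * ‖f‖) (h2 : ∀ f, p (T f - f) ≤ 1 / 2 * p f) :
    ∃ R : H →L[ℂ] H, adjoint R = R ∧ (∀ x, R (T (R x)) = x) ∧ ∀ x, p (R x) ≤ 2 * p x := by
  obtain ⟨a, ha, hsum⟩ := exists_coeff
  set F : H →L[ℂ] H := 1 - T with hF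
  have hFx : ∀ x, F x = x - T x := fun x => rfl
  have hFn : ‖F‖ ≤ 1 / 2 := by
    refine ContinuousLinearMap.opNorm_le_bound _ (by norm_num) fun x => ?_
    rw [hFx, norm_sub_rev]; exact h1 x
  have hFp : ∀ x, p (F x) ≤ 1 / 2 * p x := by
    intro x
    rw [hFx, map_sub_rev]; exact h2 x
  have hFs : star F = F := by
    rw [hF, star_sub, star_one, ContinuousLinearMap.star_eq_adjoint, hT]
  have hFpow : ∀ k, ‖F ^ k‖ ≤ (1 / 2) ^ k := by
    intro k
    induction k with
    | zero =>
      rw [pow_zero, pow_zero]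
      exact ContinuousLinearMap.norm_id_le
    | succ k ih =>
      rw [pow_succ, pow_succ]
      exact (norm_mul_le _ _).trans (mul_le_mul ih hFn (norm_nonneg _) (by positivity))
  have hterm : ∀ k, ‖((a k : ℂ)) • F ^ k‖ ≤ (1 / 2) ^ k := by
    intro k
    rw [norm_smul]
    have h3 : ‖(a k : ℂ)‖ ≤ 1 := by
      rw [Complex.norm_real]; exact ha k
    calc ‖(a k : ℂ)‖ * ‖F ^ k‖ ≤ 1 * (1 / 2) ^ k :=
        mul_le_mul h3 (hFpow k) (norm_nonneg _) zero_le_one
      _ = _ := one_mul _
  have hsn : Summable fun k => ‖((a k : ℂ)) • F ^ k‖ :=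
    Summable.of_nonneg_of_le (fun _ => norm_nonneg _) hterm
      (summable_geometric_of_lt_one (by norm_num) (by norm_num))
  have hs : Summable fun k => ((a k : ℂ)) • F ^ k := hsn.of_norm
  set R : H →L[ℂ] H := ∑' k, ((a k : ℂ)) • F ^ k with hR
  have hRs : star R = R := by
    rw [hR, tsum_star]
    congr 1
    funext k
    rw [star_smul, star_pow, hFs]
    simp
  have hRR : R * R * (1 - F) = 1 := by
    rw [hR, tsum_mul_tsum_eq_tsum_sum_antidiagonal_of_summable_norm hsn hsn]
    have h3 : (fun n => ∑ kl ∈ Finset.HasAntidiagonal.antidiagonal n,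
        ((a kl.1 : ℂ)) • F ^ kl.1 * ((a kl.2 : ℂ)) • F ^ kl.2) = fun n => F ^ n := by
      funext n
      have h4 : ∀ kl ∈ Finset.HasAntidiagonal.antidiagonal n,
          ((a kl.1 : ℂ)) • F ^ kl.1 * ((a kl.2 : ℂ)) • F ^ kl.2 =
            (((a kl.1 * a kl.2 : ℝ)) : ℂ) • F ^ n := by
        intro kl hkl
        rw [smul_mul_smul_comm, ← pow_add, Finset.HasAntidiagonal.mem_antidiagonal.1 hkl]
        push_cast
        rfl
      rw [Finset.sum_congr rfl h4, ← Finset.sum_smul]
      have h5 := hsum n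
      have h6 : ∑ i ∈ Finset.HasAntidiagonal.antidiagonal n, (((a i.1 * a i.2 : ℝ)) : ℂ) = 1 := by
        rw [← Complex.ofReal_sum, h5, Complex.ofReal_one]
      rw [h6, one_smul]
    rw [h3]
    exact geom_series_mul_neg F (lt_of_le_of_lt hFn (by norm_num))
  have hcomm : Commute F R := by
    rw [hR]
    have h3 : F * ∑' k, ((a k : ℂ)) • F ^ k = (∑' k, ((a k : ℂ)) • F ^ k) * F := by
      rw [← hs.tsum_mul_left, ← hs.tsum_mul_right]
      congr 1
      funext k
      rw [mul_smul_comm, smul_mul_assoc, (Commute.pow_self F k).eq]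
    exact h3
  have hTF : T = 1 - F := by rw [hF]; abel
  have hRTR : R * T * R = 1 := by
    have h3 : Commute T R := by
      rw [hTF]; exact (Commute.one_left R).sub_left hcomm
    rw [mul_assoc, h3.eq, ← mul_assoc, hTF]
    exact hRR
  refine ⟨R, hRs, fun x => ?_, fun x => ?_⟩
  · have h3 := congrArg (fun S : H →L[ℂ] H => S x) hRTR
    exact h3
  · have hpF : ∀ k x, p ((F ^ k) x) ≤ (1 / 2) ^ k * p x := by
      intro k
      induction k with
      | zero => intro x; simp
      | succ k ih =>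
        intro x
        have h3 : (F ^ (k + 1)) x = (F ^ k) (F x) := by rw [pow_succ]; rfl
        rw [h3]
        refine (ih (F x)).trans ?_
        have h4 := mul_le_mul_of_nonneg_left (hFp x) (by positivity : (0 : ℝ) ≤ (1 / 2) ^ k)
        calc _ ≤ _ := h4
          _ = _ := by ring
    have hpt : ∀ k, p ((((a k : ℂ)) • F ^ k) x) ≤ (1 / 2) ^ k * p x := by
      intro k
      have h3 : (((a k : ℂ)) • F ^ k) x = (a k : ℂ) • (F ^ k) x := rfl
      rw [h3, map_smul_eq_mul]
      have h4 : ‖(a k : ℂ)‖ ≤ 1 := by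
        rw [Complex.norm_real]; exact ha k
      calc ‖(a k : ℂ)‖ * p ((F ^ k) x) ≤ 1 * ((1 / 2) ^ k * p x) :=
          mul_le_mul h4 (hpF k x) (apply_nonneg _ _) zero_le_one
        _ = _ := one_mul _
    have hpc : Continuous p := by
      refine Seminorm.continuous_of_le (q := M.toNNReal • normSeminorm ℂ H) ?_ ?_
      · have h3 : Continuous fun x : H => ((M.toNNReal : ℝ)) * ‖x‖ := by fun_prop
        exact h3
      · intro y
        refine (hp y).trans ?_
        have h3 : (M.toNNReal • normSeminorm ℂ H) y = (M.toNNReal : ℝ) * ‖y‖ := rfl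
        rw [h3]
        exact mul_le_mul_of_nonneg_right (Real.le_coe_toNNReal M) (norm_nonneg _)
    have hRx : HasSum (fun k => (((a k : ℂ)) • F ^ k) x) (R x) := by
      have := hs.hasSum.mapL (ContinuousLinearMap.apply ℂ H x)
      exact this
    have hlim := (hpc.tendsto (R x)).comp hRx.tendsto_sum_nat
    refine le_of_tendsto hlim (Eventually.of_forall fun n => ?_)
    simp only [Function.comp_apply]
    calc p (∑ k ∈ Finset.range n, (((a k : ℂ)) • F ^ k) x)
        ≤ ∑ k ∈ Finset.range n, p ((((a k : ℂ)) • F ^ k) x) := Finset.le_sum_of_subadditive p (map_zero p).le (fun x y => map_add_le_add p x y) _ _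
      _ ≤ ∑ k ∈ Finset.range n, (1 / 2) ^ k * p x := Finset.sum_le_sum fun k _ => hpt k
      _ = (∑ k ∈ Finset.range n, (1 / 2) ^ k) * p x := by rw [Finset.sum_mul]
      _ ≤ 2 * p x := by
        refine mul_le_mul_of_nonneg_right ?_ (apply_nonneg _ _)
        have := Summable.sum_le_tsum (Finset.range n) (fun k _ => by positivity)
          (summable_geometric_of_lt_one (r := (1 / 2 : ℝ)) (by norm_num) (by norm_num))
        rwa [tsum_geometric_two] at this

end Pool.Agent.MP28b1a7
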