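import Pool.Agent.Lib.MP_28b1a7_an.Defs

/-!
Basic properties of the square function norm `ND`.
-/

namespace Pool.Agent.MP28b1a7

open MeasureTheory Set
open scoped ENNReal NNReal

theorem sqf_le_of_sq {X : Type*} {ι : Type*} {F : ι → X → ℝ≥0∞} {x : X} {b : ℝ≥0∞}
    (h : ∑' j, F j x ^ 2 ≤ b ^ 2) : sqf F x ≤ b := by
  rw [← ENNReal.pow_le_pow_left_iff two_ne_zero, sqf_sq]; exact h

theorem sqf_add_le {X : Type*} {ι : Type*} (F F' : ι → X → ℝ≥0∞) (x : X) :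
    sqf (fun j x => F j x + F' j x) x ≤ sqf F x + sqf F' x := by
  apply sqf_le_of_sq
  rw [ENNReal.tsum_eq_iSup_sum]
  refine iSup_le fun s => ?_
  have h1 := ENNReal.Lp_add_le (p := 2) s (fun j => F j x) (fun j => F' j x) (by norm_num)
  have h2 : ∀ G : ι → X → ℝ≥0∞, (∑ i ∈ s, G i x ^ (2 : ℝ)) ^ (1 / (2 : ℝ)) ≤ sqf G x := by
    intro G
    unfold sqf
    apply ENNReal.rpow_le_rpow _ (by norm_num)
    have h3 : ∀ j, G j x ^ (2 : ℝ) = G j x ^ 2 := fun j => ENNReal.rpow_two _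
    simp only [h3]
    exact ENNReal.sum_le_tsum s
  have h3 := h1.trans (add_le_add (h2 F) (h2 F'))
  have h4 := pow_le_pow_left' h3 2
  refine le_trans (le_of_eq ?_) h4
  rw [← ENNReal.rpow_natCast, ← ENNReal.rpow_mul]
  norm_num

/-- squared `ℓ²` norm with values in `[0,∞]` -/
noncomputable def n2 {ι : Type*} (c : ι → ℂ) : ℝ≥0∞ := ∑' i, ‖c i‖ₑ ^ 2

variable {G : ℕ}

theorem measurable_lvl (c : Idx G → ℂ) (t : ℕ) : Measurable (lvl c t) := by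
  unfold lvl
  refine Measurable.const_mul ?_ _
  have h1 : Measurable fun x : ℝ => ⌊x * (G : ℝ) ^ t⌋₊ :=
    Nat.measurable_floor.comp (measurable_id.mul_const _)
  have h2 : Measurable fun m : ℕ => ‖co c t m‖ₑ := measurable_from_nat
  exact h2.comp h1

theorem measurable_sqf_lvl (c : Idx G → ℂ) : Measurable (sqf (lvl c)) :=
  meas_sqf fun t => measurable_lvl c t

theorem co_add (c d : Idx G → ℂ) (t m : ℕ) : co (c + d) t m = co c t m + co d t m := by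
  unfold co; split_ifs <;> simp

theorem co_smul (a : ℂ) (c : Idx G → ℂ) (t m : ℕ) : co (a • c) t m = a * co c t m := by
  unfold co; split_ifs <;> simp

theorem ND_add_le (c d : Idx G → ℂ) : ND (c + d) ≤ ND c + ND d := by
  unfold ND
  rw [← lintegral_add_left (measurable_sqf_lvl c)]
  refine lintegral_mono fun x => ?_
  refine le_trans (sqf_mono fun t => ?_) (sqf_add_le (lvl c) (lvl d) x)
  unfold lvl
  rw [co_add, ← mul_add]
  gcongr
  exact enorm_add_le _ _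

theorem ND_smul (a : ℂ) (c : Idx G → ℂ) : ND (a • c) = ‖a‖ₑ * ND c := by
  unfold ND
  rw [← lintegral_const_mul _ (measurable_sqf_lvl c)]
  refine lintegral_congr fun x => ?_
  rw [← sqf_const_mul]
  congr 1
  funext t y
  unfold lvl
  rw [co_smul, enorm_mul]
  ring

theorem ND_neg (c : Idx G → ℂ) : ND (-c) = ND c := by
  have h := ND_smul (-1) c
  simpa using h

theorem ND_sub_le (c d : Idx G → ℂ) : ND (c - d) ≤ ND c + ND d := by
  rw [sub_eq_add_neg, ← ND_neg d]; exact ND_add_le c (-d)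

theorem ND_mono {c d : Idx G → ℂ} (h : ∀ i, ‖c i‖ₑ ≤ ‖d i‖ₑ) : ND c ≤ ND d := by
  unfold ND
  refine lintegral_mono fun x => sqf_mono fun t => ?_
  unfold lvl
  refine mul_le_mul_right ?_ _
  unfold co
  split_ifs with h1
  · exact h _
  · exact le_rfl

theorem lintegral_floor_le (hG : 0 < G) (t : ℕ) (h : ℕ → ℝ≥0∞) :
    ∫⁻ x in Ico (0 : ℝ) 1, h ⌊x * (G : ℝ) ^ t⌋₊ ≤ ((G : ℝ≥0∞) ^ t)⁻¹ * ∑' m, h m := by
  have hm : Measurable fun x : ℝ => ⌊x * (G : ℝ) ^ t⌋₊ :=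
    Nat.measurable_floor.comp (measurable_id.mul_const _)
  have hGt : (0 : ℝ) < (G : ℝ) ^ t := by positivity
  have h1 : ∫⁻ x in Ico (0 : ℝ) 1, h ⌊x * (G : ℝ) ^ t⌋₊ =
      ∫⁻ m, h m ∂((volume.restrict (Ico (0 : ℝ) 1)).map fun x : ℝ => ⌊x * (G : ℝ) ^ t⌋₊) := by
    rw [lintegral_map measurable_from_nat hm]
  rw [h1, lintegral_countable', ← ENNReal.tsum_mul_left]
  refine ENNReal.tsum_le_tsum fun m => ?_
  rw [mul_comm]
  refine mul_le_mul_left ?_ _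
  rw [Measure.map_apply hm (measurableSet_singleton m),
    Measure.restrict_apply (hm (measurableSet_singleton m))]
  have h2 : (fun x : ℝ => ⌊x * (G : ℝ) ^ t⌋₊) ⁻¹' {m} ∩ Ico (0 : ℝ) 1 ⊆
      Ico ((m : ℝ) / (G : ℝ) ^ t) ((m + 1) / (G : ℝ) ^ t) := by
    rintro x ⟨hx1, hx2⟩
    have hx3 : ⌊x * (G : ℝ) ^ t⌋₊ = m := hx1
    have hx0 : 0 ≤ x * (G : ℝ) ^ t := mul_nonneg hx2.1 hGt.le
    have h3 := Nat.floor_le hx0
    have h4 := Nat.lt_floor_add_one (x * (G : ℝ) ^ t)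
    rw [hx3] at h3 h4
    exact ⟨by rwa [div_le_iff₀ hGt], by rwa [lt_div_iff₀ hGt]⟩
  refine (measure_mono h2).trans ?_
  rw [Real.volume_Ico]
  have h3 : ((m : ℝ) + 1) / (G : ℝ) ^ t - m / (G : ℝ) ^ t = ((G : ℝ) ^ t)⁻¹ := by
    field_simp; ring
  rw [h3, ENNReal.ofReal_inv_of_pos hGt, ENNReal.ofReal_pow (by positivity), ENNReal.ofReal_natCast]

theorem tsum_co (c : Idx G → ℂ) : ∑' t, ∑' m, ‖co c t m‖ₑ ^ 2 = n2 c := by
  rw [← ENNReal.tsum_prod (f := fun t m => ‖co c t m‖ₑ ^ 2)]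
  unfold n2
  have hinj : Function.Injective (Subtype.val : Idx G → ℕ × ℕ) := Subtype.val_injective
  rw [← hinj.tsum_eq (f := fun p : ℕ × ℕ => ‖co c p.1 p.2‖ₑ ^ 2)]
  · refine tsum_congr fun i => ?_
    unfold co
    rw [dif_pos i.2]
  · intro p hp
    rw [Function.mem_support] at hp
    by_contra hc
    apply hp
    have h1 : ¬ p.2 < G ^ p.1 := by
      intro h2
      exact hc ⟨⟨p, h2⟩, rfl⟩
    unfold co
    rw [dif_neg h1]
    simp

theorem ND_sq_le (hG : 0 < G) (c : Idx G → ℂ) : ND c ^ 2 ≤ n2 c := by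
  have hGt : ∀ t, (G : ℝ≥0∞) ^ t ≠ 0 := fun t => pow_ne_zero _ (by exact_mod_cast hG.ne')
  have hGt' : ∀ t, (G : ℝ≥0∞) ^ t ≠ ⊤ := fun t => ENNReal.pow_ne_top (ENNReal.natCast_ne_top G)
  have h1 : ∫⁻ x in Ico (0 : ℝ) 1, sqf (lvl c) x ^ 2 ≤ n2 c := by
    simp_rw [sqf_sq]
    rw [lintegral_tsum fun t => ((measurable_lvl c t).pow_const 2).aemeasurable, ← tsum_co]
    refine ENNReal.tsum_le_tsum fun t => ?_
    have h2 : ∀ x, lvl c t x ^ 2 = (G : ℝ≥0∞) ^ t * ‖co c t ⌊x * (G : ℝ) ^ t⌋₊‖ₑ ^ 2 := by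
      intro x
      unfold lvl
      rw [mul_pow]
      congr 1
      rw [← ENNReal.rpow_natCast, ← ENNReal.rpow_mul]
      norm_num
    simp_rw [h2]
    rw [lintegral_const_mul' _ _ (hGt' t)]
    refine (mul_le_mul_right (lintegral_floor_le hG t fun m => ‖co c t m‖ₑ ^ 2) _).trans ?_
    rw [← mul_assoc, ENNReal.mul_inv_cancel (hGt t) (hGt' t), one_mul]
  have h2 := ENNReal.lintegral_mul_le_Lp_mul_Lq (volume.restrict (Ico (0 : ℝ) 1))
    (p := 2) (q := 2) Real.HolderConjugate.two_two (f := sqf (lvl c)) (g := fun _ => 1)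
    (measurable_sqf_lvl c).aemeasurable aemeasurable_const
  have h3 : ∫⁻ a in Ico (0 : ℝ) 1, ((sqf (lvl c) * (fun _ => 1) : ℝ → ℝ≥0∞)) a = ND c := by
    unfold ND
    refine lintegral_congr fun x => ?_
    simp
  rw [h3] at h2
  have h4 : ∫⁻ a in Ico (0 : ℝ) 1, (sqf (lvl c) a) ^ (2 : ℝ) =
      ∫⁻ a in Ico (0 : ℝ) 1, (sqf (lvl c) a) ^ 2 :=
    lintegral_congr fun x => ENNReal.rpow_two _
  rw [h4] at h2
  have h5 : (∫⁻ _ in Ico (0 : ℝ) 1, (1 : ℝ≥0∞) ^ (2 : ℝ)) ^ (1 / (2 : ℝ)) = 1 := by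
    simp
  rw [h5, mul_one] at h2
  calc ND c ^ 2 ≤ ((∫⁻ a in Ico (0 : ℝ) 1, sqf (lvl c) a ^ 2) ^ (1 / (2 : ℝ))) ^ 2 :=
        pow_le_pow_left' h2 2
    _ = ∫⁻ a in Ico (0 : ℝ) 1, sqf (lvl c) a ^ 2 := by
        rw [← ENNReal.rpow_natCast, ← ENNReal.rpow_mul]; norm_num
    _ ≤ n2 c := h1

/-! ### `ℓ²` -/

theorem n2_eq (c : DD G) : n2 (c : Idx G → ℂ) = ENNReal.ofReal (‖c‖ ^ 2) := by
  have h1 := lp.hasSum_norm (p := 2) (by norm_num) c
  have h2 : ∀ x : ℝ, x ^ (2 : ℝ≥0∞).toReal = x ^ 2 := by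
    intro x
    rw [ENNReal.toReal_ofNat]
    exact_mod_cast Real.rpow_natCast x 2
  simp only [h2] at h1
  rw [← h1.tsum_eq, ENNReal.ofReal_tsum_of_nonneg (fun i => sq_nonneg _) h1.summable]
  unfold n2
  refine tsum_congr fun i => ?_
  rw [ENNReal.ofReal_pow (norm_nonneg _), ofReal_norm]

theorem n2_eq' (c : DD G) : n2 (c : Idx G → ℂ) = ‖c‖ₑ ^ 2 := by
  rw [n2_eq, ENNReal.ofReal_pow (norm_nonneg _), ofReal_norm]

theorem n2_ne_top (c : DD G) : n2 (c : Idx G → ℂ) ≠ ⊤ := by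
  rw [n2_eq]; exact ENNReal.ofReal_ne_top

theorem memℓp_of_n2 {c : Idx G → ℂ} (h : n2 c ≠ ⊤) : Memℓp c 2 := by
  refine memℓp_gen ?_
  have h2 : ∀ x : ℝ, x ^ (2 : ℝ≥0∞).toReal = x ^ 2 := by
    intro x
    rw [ENNReal.toReal_ofNat]
    exact_mod_cast Real.rpow_natCast x 2
  simp only [h2]
  have h3 := ENNReal.summable_toReal h
  refine h3.congr fun i => ?_
  rw [ENNReal.toReal_pow, toReal_enorm]

theorem ND_le_enorm (hG : 0 < G) (c : DD G) : ND (c : Idx G → ℂ) ≤ ‖c‖ₑ := by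
  rw [← ENNReal.pow_le_pow_left_iff two_ne_zero, ← n2_eq']
  exact ND_sq_le hG _

theorem ND_ne_top (hG : 0 < G) (c : DD G) : ND (c : Idx G → ℂ) ≠ ⊤ :=
  ne_top_of_le_ne_top enorm_ne_top (ND_le_enorm hG c)

/-- the square function norm as a seminorm on `ℓ²` -/
noncomputable def NDs (hG : 0 < G) : Seminorm ℂ (DD G) :=
  Seminorm.of (fun c => (ND (c : Idx G → ℂ)).toReal)
    (fun c d => by
      rw [← ENNReal.toReal_add (ND_ne_top hG c) (ND_ne_top hG d)]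
      refine ENNReal.toReal_mono (ENNReal.add_ne_top.2 ⟨ND_ne_top hG c, ND_ne_top hG d⟩) ?_
      exact ND_add_le _ _)
    (fun a c => by
      have h1 : ND ((a • c : DD G) : Idx G → ℂ) = ‖a‖ₑ * ND (c : Idx G → ℂ) := ND_smul a _
      rw [h1, ENNReal.toReal_mul, toReal_enorm])

theorem NDs_apply (hG : 0 < G) (c : DD G) : NDs hG c = (ND (c : Idx G → ℂ)).toReal := rfl

theorem NDs_le (hG : 0 < G) (c : DD G) : NDs hG c ≤ ‖c‖ := by
  rw [NDs_apply, ← toReal_enorm]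
  exact ENNReal.toReal_mono enorm_ne_top (ND_le_enorm hG c)

end Pool.Agent.MP28b1a7
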