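import Pool.Agent.Lib.MP_28b1a7_an.Abs2

/-!
Self-similar decomposition of the tree.
-/

namespace Pool.Agent.MP28b1a7

open MeasureTheory Set
open scoped ENNReal NNReal

variable {G : ℕ}

theorem two_pow_le (hG : 2 ≤ G) (t k : ℕ) : 2 * G ^ t ≤ G ^ (t + k + 1) := by
  have h1 : G ^ (t + k + 1) = G ^ t * G ^ k * G := by rw [pow_succ, pow_add]
  have h2 : 1 ≤ G ^ k := Nat.one_le_pow _ _ (by omega)
  have h3 : G ^ t * 1 ≤ G ^ t * G ^ k := Nat.mul_le_mul_left _ h2
  have h4 : G ^ t * 1 * 2 ≤ G ^ t * G ^ k * G := Nat.mul_le_mul h3 hG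
  rw [h1]
  linarith

/-- the embeddings of the tree as the subtrees under `[G^{-k-1}, 2 G^{-k-1})` -/
def io (hG : 2 ≤ G) (p : ℕ × Idx G) : Idx G :=
  ⟨(p.2.1.1 + p.1 + 1, p.2.1.2 + G ^ p.2.1.1), by
    have h1 := p.2.2
    have h2 := two_pow_le hG p.2.1.1 p.1
    simp only
    omega⟩

theorem io_injective (hG : 2 ≤ G) : Function.Injective (io hG) := by
  have key : ∀ (k k' t t' m m' : ℕ), m < G ^ t → t + k + 1 = t' + k' + 1 →
      m + G ^ t = m' + G ^ t' → ¬ t < t' := by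
    intro k k' t t' m m' hm h1 h2 h3
    have h4 : 2 * G ^ t ≤ G ^ t' := by
      obtain ⟨d, rfl⟩ : ∃ d, t' = t + d + 1 := ⟨t' - t - 1, by omega⟩
      exact two_pow_le hG t d
    omega
  rintro ⟨k, ⟨⟨t, m⟩, hm⟩⟩ ⟨k', ⟨⟨t', m'⟩, hm'⟩⟩ h
  have h0 := congrArg Subtype.val h
  simp only [io, Prod.mk.injEq] at h0
  obtain ⟨h1, h2⟩ := h0
  have h3 := key k k' t t' m m' hm h1 h2
  have h4 := key k' k t' t m' m hm' h1.symm h2.symm
  have h5 : t = t' := by omega
  subst h5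
  have h6 : k = k' := by omega
  have h7 : m = m' := by omega
  subst h6; subst h7
  rfl

theorem io_injective' (hG : 2 ≤ G) (k : ℕ) : Function.Injective fun i => io hG (k, i) := by
  intro i j h
  have := io_injective hG h
  simpa using this

/-- the function with values `u k` on the `k`-th subtree and `w` elsewhere -/
noncomputable def glue (hG : 2 ≤ G) (w : Idx G → ℂ) (u : ℕ → Idx G → ℂ) : Idx G → ℂ :=
  Function.extend (io hG) (fun p => u p.1 p.2) w

/-- restriction to the `k`-th subtree -/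
def Rk (hG : 2 ≤ G) (k : ℕ) (c : Idx G → ℂ) : Idx G → ℂ := fun i => c (io hG (k, i))

theorem glue_io (hG : 2 ≤ G) (w : Idx G → ℂ) (u : ℕ → Idx G → ℂ) (k : ℕ) (i : Idx G) :
    glue hG w u (io hG (k, i)) = u k i :=
  (io_injective hG).extend_apply _ _ (k, i)

theorem glue_not (hG : 2 ≤ G) (w : Idx G → ℂ) (u : ℕ → Idx G → ℂ) {i : Idx G}
    (h : i ∉ range (io hG)) : glue hG w u i = w i := by
  unfold glue
  exact Function.extend_apply' _ _ _ fun ⟨a, ha⟩ => h ⟨a, ha⟩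

theorem Rk_glue (hG : 2 ≤ G) (w : Idx G → ℂ) (u : ℕ → Idx G → ℂ) (k : ℕ) :
    Rk hG k (glue hG w u) = u k := funext fun i => glue_io hG w u k i

theorem ext_io (hG : 2 ≤ G) {c d : Idx G → ℂ} (h1 : ∀ i, i ∉ range (io hG) → c i = d i)
    (h2 : ∀ k, Rk hG k c = Rk hG k d) : c = d := by
  funext i
  by_cases hi : i ∈ range (io hG)
  · obtain ⟨⟨k, j⟩, rfl⟩ := hi
    exact congrFun (h2 k) j
  · exact h1 i hi

theorem glue_self (hG : 2 ≤ G) (c : Idx G → ℂ) : glue hG c (fun k => Rk hG k c) = c :=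
  ext_io hG (fun _ hi => glue_not hG _ _ hi) fun k => Rk_glue hG _ _ k

/-- squared norm of the part outside the subtrees -/
noncomputable def wp (hG : 2 ≤ G) (w : Idx G → ℂ) : ℝ≥0∞ :=
  ∑' i : ((range (io hG))ᶜ : Set (Idx G)), ‖w i‖ₑ ^ 2

theorem n2_glue (hG : 2 ≤ G) (w : Idx G → ℂ) (u : ℕ → Idx G → ℂ) :
    n2 (glue hG w u) = wp hG w + ∑' k, n2 (u k) := by
  have h1 := (ENNReal.summable (f := (fun i => ‖glue hG w u i‖ₑ ^ 2) ∘
    ((↑) : range (io hG) → Idx G))).tsum_add_tsum_compl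
    (ENNReal.summable (f := (fun i => ‖glue hG w u i‖ₑ ^ 2) ∘
    ((↑) : ((range (io hG))ᶜ : Set (Idx G)) → Idx G)))
  unfold n2
  rw [← h1, add_comm]
  congr 1
  · unfold wp
    refine tsum_congr fun i => ?_
    rw [glue_not hG w u i.2]
  · rw [tsum_range (g := io hG) (fun i => ‖glue hG w u i‖ₑ ^ 2) (io_injective hG),
      ENNReal.tsum_prod' (f := fun p : ℕ × Idx G => ‖glue hG w u (io hG p)‖ₑ ^ 2)]
    refine tsum_congr fun k => tsum_congr fun i => ?_
    rw [glue_io]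

theorem n2_split (hG : 2 ≤ G) (c : Idx G → ℂ) :
    n2 c = wp hG c + ∑' k, n2 (Rk hG k c) := by
  conv_lhs => rw [← glue_self hG c]
  exact n2_glue hG c _

/-! ### the square function norm -/

/-- extension by zero from the `k`-th subtree -/
noncomputable def Ek (hG : 2 ≤ G) (k : ℕ) (d : Idx G → ℂ) : Idx G → ℂ :=
  Function.extend (fun i => io hG (k, i)) d 0

theorem Ek_io (hG : 2 ≤ G) (k : ℕ) (d : Idx G → ℂ) (i : Idx G) :
    Ek hG k d (io hG (k, i)) = d i := (io_injective' hG k).extend_apply _ _ i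

theorem Ek_not (hG : 2 ≤ G) (k : ℕ) (d : Idx G → ℂ) {i : Idx G}
    (h : ∀ j, io hG (k, j) ≠ i) : Ek hG k d i = 0 := by
  unfold Ek
  rw [Function.extend_apply' _ _ _ fun ⟨a, ha⟩ => h a ha]
  rfl

theorem co_Ek_low (hG : 2 ≤ G) (k : ℕ) (d : Idx G → ℂ) {t m : ℕ} (h : t < k + 1) :
    co (Ek hG k d) t m = 0 := by
  unfold co
  split_ifs with h1
  · apply Ek_not
    intro j hj
    have h2 := congrArg (fun i => i.1.1) hj
    simp only [io] at h2
    omega
  · rfl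

theorem co_Ek_lt (hG : 2 ≤ G) (k : ℕ) (d : Idx G → ℂ) {t m : ℕ} (h : m < G ^ t) :
    co (Ek hG k d) (t + (k + 1)) m = 0 := by
  unfold co
  split_ifs with h1
  · apply Ek_not
    intro j hj
    have h2 := congrArg (fun i => i.1.1) hj
    have h3 := congrArg (fun i => i.1.2) hj
    simp only [io] at h2 h3
    have h4 : j.1.1 = t := by omega
    rw [h4] at h3
    omega
  · rfl

theorem co_Ek_add (hG : 2 ≤ G) (k : ℕ) (d : Idx G → ℂ) (t m : ℕ) :
    co (Ek hG k d) (t + (k + 1)) (m + G ^ t) = co d t m := by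
  by_cases hm : m < G ^ t
  · have h1 : m + G ^ t < G ^ (t + (k + 1)) := by
      have := two_pow_le hG t k
      have h2 : t + (k + 1) = t + k + 1 := by ring
      rw [h2]
      omega
    unfold co
    rw [dif_pos h1, dif_pos hm]
    exact Ek_io hG k d ⟨(t, m), hm⟩
  · unfold co
    rw [dif_neg hm]
    split_ifs with h1
    · apply Ek_not
      intro j hj
      have h2 := congrArg (fun i => i.1.1) hj
      have h3 := congrArg (fun i => i.1.2) hj
      have h5 := j.2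
      simp only [io] at h2 h3
      have h4 : j.1.1 = t := by omega
      rw [h4] at h3 h5
      omega
    · rfl

theorem lvl_zero_of_one_le (c : Idx G → ℂ) (t : ℕ) {y : ℝ} (hG : 0 < G) (hy : 1 ≤ y) :
    lvl c t y = 0 := by
  unfold lvl
  have h1 : G ^ t ≤ ⌊y * (G : ℝ) ^ t⌋₊ := by
    apply Nat.le_floor
    push_cast
    have : (0 : ℝ) < (G : ℝ) ^ t := by positivity
    nlinarith
  unfold co
  rw [dif_neg (not_lt.2 h1)]
  simp

theorem sqf_lvl_zero_of_one_le (c : Idx G → ℂ) {y : ℝ} (hG : 0 < G) (hy : 1 ≤ y) :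
    sqf (lvl c) y = 0 := by
  unfold sqf
  simp [lvl_zero_of_one_le c _ hG hy]

/-- the square function of `Ek k d` -/
theorem sqf_Ek (hG : 2 ≤ G) (k : ℕ) (d : Idx G → ℂ) {x : ℝ} (hx : 0 ≤ x) :
    sqf (lvl (Ek hG k d)) x = if x * (G : ℝ) ^ (k + 1) - 1 ∈ Ico (0 : ℝ) 1 then
      ((G : ℝ≥0∞) ^ (k + 1)) ^ (1 / 2 : ℝ) * sqf (lvl d) (x * (G : ℝ) ^ (k + 1) - 1) else 0 := by
  have hG0 : (0 : ℝ) < G := by exact_mod_cast (by omega : 0 < G)
  set y := x * (G : ℝ) ^ (k + 1) - 1 with hy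
  have hxy : ∀ t, x * (G : ℝ) ^ (t + (k + 1)) = (y + 1) * (G : ℝ) ^ t := by
    intro t; rw [hy, pow_add]; ring
  have hlow : ∀ t, t < k + 1 → lvl (Ek hG k d) t x = 0 := by
    intro t ht
    unfold lvl
    rw [co_Ek_low hG k d ht]; simp
  have htail : ∀ f : ℕ → ℝ≥0∞, (∀ t, t < k + 1 → f t = 0) → ∑' t, f t = ∑' t, f (t + (k + 1)) := by
    intro f hf
    rw [← (ENNReal.summable (f := fun t => f (t + (k + 1)))).sum_add_tsum_nat_add' (k := k + 1)]
    rw [Finset.sum_eq_zero fun t ht => hf t (Finset.mem_range.1 ht), zero_add]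
  by_cases h0 : 0 ≤ y
  · have hl : ∀ t, lvl (Ek hG k d) (t + (k + 1)) x =
        ((G : ℝ≥0∞) ^ (k + 1)) ^ (1 / 2 : ℝ) * lvl d t y := by
      intro t
      unfold lvl
      have h1 : ⌊x * (G : ℝ) ^ (t + (k + 1))⌋₊ = ⌊y * (G : ℝ) ^ t⌋₊ + G ^ t := by
        rw [hxy, add_mul, one_mul]
        have h2 : ((G : ℝ) ^ t) = ((G ^ t : ℕ) : ℝ) := by push_cast; rfl
        rw [h2, Nat.floor_add_natCast (by positivity)]
      rw [h1, co_Ek_add, pow_add, ENNReal.mul_rpow_of_nonneg _ _ (by norm_num)]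
      ring
    have h1 : sqf (lvl (Ek hG k d)) x =
        ((G : ℝ≥0∞) ^ (k + 1)) ^ (1 / 2 : ℝ) * sqf (lvl d) y := by
      rw [← sqf_const_mul]
      unfold sqf
      congr 1
      rw [htail (fun t => lvl (Ek hG k d) t x ^ 2) fun t ht => by simp only [hlow t ht]; norm_num]
      exact tsum_congr fun t => by rw [hl]
    rw [h1]
    split_ifs with h2
    · rfl
    · have h3 : 1 ≤ y := by
        by_contra hc
        exact h2 ⟨h0, not_le.1 hc⟩
      rw [sqf_lvl_zero_of_one_le d (by omega) h3, mul_zero]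
  · have hl : ∀ t, lvl (Ek hG k d) t x = 0 := by
      intro t
      rcases lt_or_ge t (k + 1) with ht | ht
      · exact hlow t ht
      · obtain ⟨s, rfl⟩ : ∃ s, t = s + (k + 1) := ⟨t - (k + 1), by omega⟩
        unfold lvl
        have h1 : ⌊x * (G : ℝ) ^ (s + (k + 1))⌋₊ < G ^ s := by
          rw [Nat.floor_lt (by positivity), hxy]
          push_cast
          have : (0 : ℝ) < (G : ℝ) ^ s := by positivity
          nlinarith [not_le.1 h0]
        rw [co_Ek_lt hG k d h1]; simp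
    rw [if_neg fun h => h0 h.1]
    unfold sqf
    simp [hl]

theorem lintegral_affine {a : ℝ} (ha : 0 < a) {F : ℝ → ℝ≥0∞} (hF : Measurable F) :
    ∫⁻ x, F (x * a - 1) = (ENNReal.ofReal a)⁻¹ * ∫⁻ y, F y := by
  have h1 := Real.smul_map_volume_mul_right ha.ne'
  have h2 : ∫⁻ y, F y = ENNReal.ofReal a * ∫⁻ x, F (x * a - 1) := by
    rw [← lintegral_sub_right_eq_self F 1]
    conv_lhs => rw [← h1]
    have h3 : Measurable fun x : ℝ => F (x - 1) := hF.comp (measurable_id.sub_const 1)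
    have h4 : Measurable fun x : ℝ => x * a := measurable_id.mul_const a
    rw [lintegral_smul_measure, lintegral_map h3 h4, abs_of_pos ha]
    rfl
  rw [h2, ← mul_assoc, ENNReal.inv_mul_cancel (ENNReal.ofReal_pos.2 ha).ne' ENNReal.ofReal_ne_top,
    one_mul]

/-- the contraction factor -/
noncomputable def ga (G : ℕ) : ℝ≥0∞ := ((G : ℝ≥0∞) ^ (1 / 2 : ℝ))⁻¹

theorem ND_Ek (hG : 2 ≤ G) (k : ℕ) (d : Idx G → ℂ) :
    ND (Ek hG k d) = ga G ^ (k + 1) * ND d := by
  have hG0 : (0 : ℝ) < (G : ℝ) ^ (k + 1) := by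
    have : (0 : ℝ) < G := by exact_mod_cast (by omega : 0 < G)
    positivity
  have hGt : (G : ℝ≥0∞) ≠ 0 := by exact_mod_cast (by omega : G ≠ 0)
  have hGt' : (G : ℝ≥0∞) ≠ ⊤ := ENNReal.natCast_ne_top G
  set F : ℝ → ℝ≥0∞ := (Ico (0 : ℝ) 1).indicator fun y =>
    ((G : ℝ≥0∞) ^ (k + 1)) ^ (1 / 2 : ℝ) * sqf (lvl d) y with hF
  have hFm : Measurable F := (((measurable_sqf_lvl d).const_mul _).indicator measurableSet_Ico)
  have h1 : ND (Ek hG k d) = ∫⁻ x, F (x * (G : ℝ) ^ (k + 1) - 1) := by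
    unfold ND
    rw [← lintegral_indicator measurableSet_Ico]
    refine lintegral_congr fun x => ?_
    by_cases hx : x ∈ Ico (0 : ℝ) 1
    · rw [indicator_of_mem hx, sqf_Ek hG k d hx.1, hF]
      by_cases hy : x * (G : ℝ) ^ (k + 1) - 1 ∈ Ico (0 : ℝ) 1
      · rw [if_pos hy, indicator_of_mem hy]
      · rw [if_neg hy, indicator_of_notMem hy]
    · rw [indicator_of_notMem hx, hF, indicator_of_notMem]
      intro hy
      apply hx
      have h2 : (2 : ℝ) ≤ (G : ℝ) ^ (k + 1) := by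
        have := two_pow_le hG 0 k
        have h3 : 2 ≤ G ^ (k + 1) := by simpa using this
        exact_mod_cast h3
      obtain ⟨hy1, hy2⟩ := hy
      constructor
      · by_contra hc
        have := mul_neg_of_neg_of_pos (not_le.1 hc) hG0
        linarith
      · by_contra hc
        have := mul_le_mul (not_lt.1 hc) h2 (by norm_num) (by linarith [not_lt.1 hc])
        linarith
  rw [h1, lintegral_affine hG0 hFm, hF, lintegral_indicator measurableSet_Ico,
    lintegral_const_mul _ (measurable_sqf_lvl d), ← mul_assoc]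
  unfold ND
  congr 1
  unfold ga
  rw [ENNReal.ofReal_pow (by positivity), ENNReal.ofReal_natCast, ← ENNReal.inv_pow,
    ← ENNReal.rpow_natCast, ← ENNReal.rpow_natCast, ← ENNReal.rpow_mul, ← ENNReal.rpow_mul,
    ← ENNReal.rpow_neg, ← ENNReal.rpow_neg, ← ENNReal.rpow_add _ _ hGt hGt']
  congr 1
  push_cast
  ring

theorem uniq_scale (hG : 2 ≤ G) {x : ℝ} {j k : ℕ}
    (hj : x * (G : ℝ) ^ (j + 1) - 1 ∈ Ico (0 : ℝ) 1)
    (hk : x * (G : ℝ) ^ (k + 1) - 1 ∈ Ico (0 : ℝ) 1) : j = k := by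
  have hG0 : (0 : ℝ) < G := by exact_mod_cast (by omega : 0 < G)
  have key : ∀ {j k : ℕ}, x * (G : ℝ) ^ (j + 1) - 1 ∈ Ico (0 : ℝ) 1 →
      x * (G : ℝ) ^ (k + 1) - 1 ∈ Ico (0 : ℝ) 1 → ¬ j < k := by
    intro j k hj hk hlt
    obtain ⟨d, rfl⟩ : ∃ d, k = j + d + 1 := ⟨k - j - 1, by omega⟩
    have h1 : (2 : ℝ) ≤ (G : ℝ) ^ (d + 1) := by
      have := two_pow_le hG 0 d
      have h3 : 2 ≤ G ^ (d + 1) := by simpa using this
      exact_mod_cast h3
    have h2 : x * (G : ℝ) ^ (j + d + 1 + 1) = x * (G : ℝ) ^ (j + 1) * (G : ℝ) ^ (d + 1) := by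
      rw [mul_assoc, ← pow_add]; congr 2; ring
    have h3 := hj.1
    have h4 := hk.2
    rw [h2] at h4
    nlinarith
  have h1 := key hj hk
  have h2 := key hk hj
  omega

theorem Ek_Rk_le (hG : 2 ≤ G) (k : ℕ) (c : Idx G → ℂ) (i : Idx G) :
    ‖Ek hG k (Rk hG k c) i‖ₑ ≤ ‖c i‖ₑ := by
  by_cases h : ∃ j, io hG (k, j) = i
  · obtain ⟨j, rfl⟩ := h
    rw [Ek_io]; rfl
  · rw [Ek_not hG k _ fun j hj => h ⟨j, hj⟩]; simp

theorem ND_lower (hG : 2 ≤ G) (c : Idx G → ℂ) :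
    ∑' k, ga G ^ (k + 1) * ND (Rk hG k c) ≤ ND c := by
  simp_rw [← ND_Ek hG]
  unfold ND
  rw [← lintegral_tsum fun k => (measurable_sqf_lvl _).aemeasurable]
  refine setLIntegral_mono' measurableSet_Ico fun x hx => ?_
  have h1 : ∀ k, sqf (lvl (Ek hG k (Rk hG k c))) x ≤ sqf (lvl c) x := by
    intro k
    refine sqf_mono fun t => ?_
    unfold lvl
    refine mul_le_mul_right ?_ _
    unfold co
    split_ifs with h1
    · exact Ek_Rk_le hG k c _
    · exact le_rfl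
  by_cases h : ∃ k, x * (G : ℝ) ^ (k + 1) - 1 ∈ Ico (0 : ℝ) 1
  · obtain ⟨k, hk⟩ := h
    rw [tsum_eq_single k]
    · exact h1 k
    · intro j hj
      rw [sqf_Ek hG j _ hx.1, if_neg fun hc => hj (uniq_scale hG hc hk)]
  · push Not at h
    have h2 : ∀ k, sqf (lvl (Ek hG k (Rk hG k c))) x = 0 := by
      intro k
      rw [sqf_Ek hG k _ hx.1, if_neg (h k)]
    simp [h2]

/-- restriction to the complement of the subtrees -/
noncomputable def wres (hG : 2 ≤ G) (c : Idx G → ℂ) : Idx G → ℂ := glue hG c fun _ => 0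

theorem ND_wres_le (hG : 2 ≤ G) (c : Idx G → ℂ) : ND (wres hG c) ≤ ND c := by
  refine ND_mono fun i => ?_
  unfold wres
  by_cases hi : i ∈ range (io hG)
  · obtain ⟨⟨k, j⟩, rfl⟩ := hi
    rw [glue_io]; simp
  · rw [glue_not hG _ _ hi]

theorem ND_upper (hG : 2 ≤ G) (c : Idx G → ℂ) :
    ND c ≤ ND (wres hG c) + ∑' k, ga G ^ (k + 1) * ND (Rk hG k c) := by
  simp_rw [← ND_Ek hG]
  unfold ND
  rw [← lintegral_tsum fun k => (measurable_sqf_lvl _).aemeasurable,
    ← lintegral_add_left (measurable_sqf_lvl _)]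
  refine setLIntegral_mono' measurableSet_Ico fun x hx => ?_
  have hG0 : (0 : ℝ) < G := by exact_mod_cast (by omega : 0 < G)
  have key : ∀ t (h : ⌊x * (G : ℝ) ^ t⌋₊ < G ^ t) (k : ℕ) (j : Idx G),
      io hG (k, j) = ⟨(t, ⌊x * (G : ℝ) ^ t⌋₊), h⟩ →
      x * (G : ℝ) ^ (k + 1) - 1 ∈ Ico (0 : ℝ) 1 := by
    intro t h k j hj
    have h2 := congrArg (fun i => i.1.1) hj
    have h3 := congrArg (fun i => i.1.2) hj
    have h5 := j.2
    simp only [io] at h2 h3
    set s := j.1.1 with hs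
    have hxs : x * (G : ℝ) ^ t = x * (G : ℝ) ^ (k + 1) * (G : ℝ) ^ s := by
      rw [mul_assoc, ← pow_add, ← h2]; congr 2; ring
    have hx0 : 0 ≤ x * (G : ℝ) ^ t := mul_nonneg hx.1 (by positivity)
    have h6 := Nat.floor_le hx0
    have h7 := Nat.lt_floor_add_one (x * (G : ℝ) ^ t)
    have hGs : (0 : ℝ) < (G : ℝ) ^ s := by positivity
    have h8 : ((G : ℝ) ^ s) ≤ (⌊x * (G : ℝ) ^ t⌋₊ : ℝ) := by
      rw [← h3]; push_cast
      have : (0 : ℝ) ≤ (j.1.2 : ℝ) := Nat.cast_nonneg _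
      linarith
    have h9 : (⌊x * (G : ℝ) ^ t⌋₊ : ℝ) + 1 ≤ 2 * (G : ℝ) ^ s := by
      rw [← h3]
      have h10 : j.1.2 + G ^ s + 1 ≤ 2 * G ^ s := by omega
      exact_mod_cast h10
    rw [hxs] at h6 h7 h8 h9
    constructor
    · by_contra hc
      have h10 : x * (G : ℝ) ^ (k + 1) < 1 := by linarith [not_le.1 hc]
      have h11 : x * (G : ℝ) ^ (k + 1) * (G : ℝ) ^ s < 1 * (G : ℝ) ^ s :=
        mul_lt_mul_of_pos_right h10 hGs
      linarith
    · by_contra hc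
      have h10 : 2 ≤ x * (G : ℝ) ^ (k + 1) := by linarith [not_lt.1 hc]
      have h11 : 2 * (G : ℝ) ^ s ≤ x * (G : ℝ) ^ (k + 1) * (G : ℝ) ^ s :=
        mul_le_mul_of_nonneg_right h10 hGs.le
      linarith
  by_cases hex : ∃ k, x * (G : ℝ) ^ (k + 1) - 1 ∈ Ico (0 : ℝ) 1
  · obtain ⟨k, hk⟩ := hex
    have h1 : sqf (lvl c) x ≤ sqf (lvl (wres hG c)) x + sqf (lvl (Ek hG k (Rk hG k c))) x := by
      refine le_trans (sqf_mono fun t => ?_) (sqf_add_le _ _ x)
      unfold lvl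
      rw [← mul_add]
      refine mul_le_mul_right ?_ _
      unfold co
      split_ifs with h1
      · by_cases hi : (⟨(t, ⌊x * (G : ℝ) ^ t⌋₊), h1⟩ : Idx G) ∈ range (io hG)
        · obtain ⟨⟨k', j⟩, hj⟩ := hi
          have h2 := key t h1 k' j hj
          have h3 := uniq_scale hG h2 hk
          subst h3
          rw [← hj, Ek_io]
          exact le_add_left le_rfl
        · unfold wres
          rw [glue_not hG _ _ hi]
          exact le_add_right le_rfl
      · simp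
    refine h1.trans (add_le_add le_rfl ?_)
    exact ENNReal.le_tsum k
  · push Not at hex
    refine le_trans (sqf_mono fun t => ?_) (le_add_right le_rfl)
    unfold lvl
    refine mul_le_mul_right ?_ _
    unfold co
    split_ifs with h1
    · by_cases hi : (⟨(t, ⌊x * (G : ℝ) ^ t⌋₊), h1⟩ : Idx G) ∈ range (io hG)
      · obtain ⟨⟨k', j⟩, hj⟩ := hi
        exact absurd (key t h1 k' j hj) (hex k')
      · unfold wres
        rw [glue_not hG _ _ hi]
    · exact le_rfl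

end Pool.Agent.MP28b1a7
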