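import Pool.Agent.Lib.MP_28b1a7_an.BallMain

/-! From the sphere to the frozen statement. -/

namespace Pool.Agent.MP28b1a7

open MeasureTheory Set Filter Topology
open scoped InnerProductSpace ENNReal NNReal

set_option linter.unusedSectionVars false

variable {n : ℕ} [NeZero n]

/-- averages over spheres -/
noncomputable def II (n : ℕ) (h : (Fin n → ℂ) → ℂ) (r : ℝ) : ℂ :=
  (volume (ballB n)).toReal⁻¹ • ∫ x in ballB n, h ((r / Real.sqrt (∑ i, ‖x i‖ ^ 2)) • x)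

/-- the Hardy norm -/
noncomputable def NN (g : (Fin n → ℂ) → ℂ) : ℝ :=
  sSup ((fun r : ℝ => (II n (fun z => ((‖g z‖ : ℝ) : ℂ)) r).re) '' Set.Ioo 0 1)

lemma II_eq {h : (Fin n → ℂ) → ℂ} (hc : ContinuousOn h (ballB n)) {r : ℝ}
    (hr : r ∈ Ioo (0 : ℝ) 1) :
    II n h r = ∫ ζ : Sph n, h (WithLp.ofLp ((r : ℂ) • (ζ : V n))) ∂sig n := conv hc hr

/-- pull back to Euclidean space -/
def pb (g : (Fin n → ℂ) → ℂ) (x : V n) : ℂ := g (WithLp.ofLp x)

lemma II_norm {g : (Fin n → ℂ) → ℂ} (hc : ContinuousOn g (ballB n)) {r : ℝ}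
    (hr : r ∈ Ioo (0 : ℝ) 1) : (II n (fun z => ((‖g z‖ : ℝ) : ℂ)) r).re = Mr (pb g) r := by
  have h1 : ContinuousOn (fun z => ((‖g z‖ : ℝ) : ℂ)) (ballB n) :=
    Complex.continuous_ofReal.comp_continuousOn hc.norm
  rw [II_eq h1 hr, integral_complex_ofReal, Complex.ofReal_re]
  rfl

lemma II_rpow {g : (Fin n → ℂ) → ℂ} (hc : ContinuousOn g (ballB n)) {r : ℝ}
    (hr : r ∈ Ioo (0 : ℝ) 1) {p : ℝ} (hp : 0 ≤ p) :
    (II n (fun z => ((‖g z‖ ^ p : ℝ) : ℂ)) r).re =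
      ∫ ζ : Sph n, ‖pb g ((r : ℂ) • (ζ : V n))‖ ^ p ∂sig n := by
  have h1 : ContinuousOn (fun z => ((‖g z‖ ^ p : ℝ) : ℂ)) (ballB n) :=
    Complex.continuous_ofReal.comp_continuousOn (hc.norm.rpow_const fun _ _ => Or.inr hp)
  rw [II_eq h1 hr, integral_complex_ofReal, Complex.ofReal_re]
  rfl

lemma NN_nonneg {g : (Fin n → ℂ) → ℂ} (hc : ContinuousOn g (ballB n)) : 0 ≤ NN g := by
  refine Real.sSup_nonneg ?_
  rintro _ ⟨r, hr, rfl⟩
  simp only
  rw [II_norm hc hr]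
  exact Mr_nonneg _ _

lemma NN_le {g : (Fin n → ℂ) → ℂ} (hc : ContinuousOn g (ballB n)) {K : ℝ} (hK0 : 0 ≤ K)
    (hK : ∀ r ∈ Ioo (0 : ℝ) 1, Mr (pb g) r ≤ K) : NN g ≤ K := by
  refine Real.sSup_le ?_ hK0
  rintro _ ⟨r, hr, rfl⟩
  simp only
  rw [II_norm hc hr]
  exact hK r hr

lemma le_NN {g : (Fin n → ℂ) → ℂ} (hc : ContinuousOn g (ballB n)) {K : ℝ}
    (hK : ∀ r ∈ Ioo (0 : ℝ) 1, Mr (pb g) r ≤ K) {r : ℝ} (hr : r ∈ Ioo (0 : ℝ) 1) :
    Mr (pb g) r ≤ NN g := by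
  refine le_csSup ?_ ⟨r, hr, II_norm hc hr⟩
  refine ⟨K, ?_⟩
  rintro _ ⟨r, hr, rfl⟩
  simp only
  rw [II_norm hc hr]
  exact hK r hr

lemma differentiable_toLp : Differentiable ℂ fun z : Fin n → ℂ => (WithLp.toLp 2 z : V n) :=
  (PiLp.continuousLinearEquiv 2 ℂ (fun _ : Fin n => ℂ)).symm.differentiable

lemma differentiable_ofLp : Differentiable ℂ fun z : V n => (WithLp.ofLp z : Fin n → ℂ) :=
  (PiLp.continuousLinearEquiv 2 ℂ (fun _ : Fin n => ℂ)).differentiable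

lemma toLp_mem {z : Fin n → ℂ} (hz : z ∈ ballB n) :
    (WithLp.toLp 2 z : V n) ∈ Metric.ball (0 : V n) 1 := by
  rw [mem_ball_zero_iff, ← mem_ballB_iff]
  exact hz

lemma differentiableOn_pb {f : (Fin n → ℂ) → ℂ} (hf : DifferentiableOn ℂ f (ballB n)) :
    DifferentiableOn ℂ (pb f) (Metric.ball 0 1) := by
  refine hf.comp differentiable_ofLp.differentiableOn (fun z hz => ?_)
  rw [mem_ballB_iff]
  simpa using hz

/-- The final assembly. `hU`: the unitary between the sequence space and `H2`; `hD`: density of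
polynomials in `H^1` of the ball, in a quantitative form. -/
theorem target_of_core (G : ℕ) (hG : 2 ≤ G) (U : DD G ≃ₗᵢ[ℂ] H2 n) (C : ℝ)
    (hU1 : ∀ c : DD G, ∫ ζ, ‖((U c : Lp ℂ 2 (sig n)) : Sph n → ℂ) ζ‖ ∂sig n ≤
      C * (ND (c : Idx G → ℂ)).toReal)
    (hU2 : ∀ f : H2 n, (ND (U.symm f : Idx G → ℂ)).toReal ≤
      C * ∫ ζ, ‖((f : Lp ℂ 2 (sig n)) : Sph n → ℂ) ζ‖ ∂sig n)
    (hD : ∀ f : V n → ℂ, DifferentiableOn ℂ f (Metric.ball 0 1) → ∀ K : ℝ,
      (∀ r ∈ Ioo (0 : ℝ) 1, ∫ ζ : Sph n, ‖f ((r : ℂ) • (ζ : V n))‖ ∂sig n ≤ K) →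
      ∀ δ > 0, ∃ (M : ℕ) (p : Sph n → ℂ), Pol M p ∧ ∀ r ∈ Ioo (0 : ℝ) 1,
        ∫ ζ : Sph n, ‖f ((r : ℂ) • (ζ : V n)) -
          ∑ k ∈ Finset.range M, PP k p ((r : ℂ) • (ζ : V n))‖ ∂sig n ≤ δ) :
    Target n := by
  obtain ⟨e⟩ := exists_enum hG
  have hG0 : 0 < G := by omega
  -- replace `C` by a nonnegative constant
  have hC' : 0 ≤ max C 0 := le_max_right _ _
  have hU1' : ∀ c : DD G, N1L (U c : Lp ℂ 2 (sig n)) ≤ max C 0 * nd c := fun c =>
    (hU1 c).trans (mul_le_mul_of_nonneg_right (le_max_left _ _) ENNReal.toReal_nonneg)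
  have hU2' : ∀ f : H2 n, nd (U.symm f) ≤ max C 0 * N1L (f : Lp ℂ 2 (sig n)) := fun f =>
    (hU2 f).trans (mul_le_mul_of_nonneg_right (le_max_left _ _) (N1L_nonneg _))
  intro B hB I hI H hH N1 hN1
  have hB' : B = ballB n := hB
  subst hB'
  have hI' : I = II n := hI
  subst hI'
  have hN1' : N1 = NN := hN1
  subst hN1'
  have hH1 : ∀ f, f ∈ H 1 → DifferentiableOn ℂ f (ballB n) ∧
      ∃ K : ℝ, ∀ r ∈ Ioo (0 : ℝ) 1, Mr (pb f) r ≤ K := by
    intro f hf
    rw [hH] at hf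
    obtain ⟨h1, K, hK⟩ := hf
    refine ⟨h1, K, fun r hr => ?_⟩
    have h2 := hK ⟨r, hr, rfl⟩
    simp only [Real.rpow_one] at h2
    rwa [II_norm h1.continuousOn hr] at h2
  set s1 : ℕ → DD G := fun k => lp.single 2 (e k) (1 : ℂ) with hs1
  set b : ℕ → (Fin n → ℂ) → ℂ := fun k z => ff U (s1 k) (WithLp.toLp 2 z) with hb
  have hbd : ∀ k, DifferentiableOn ℂ (b k) (ballB n) := fun k =>
    (differentiableOn_cext (lp_integrable _)).comp differentiable_toLp.differentiableOn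
      (fun z hz => toLp_mem hz)
  have hbc : ∀ k, ContinuousOn (b k) (ballB n) := fun k => (hbd k).continuousOn
  have hbpb : ∀ k, pb (b k) = ff U (s1 k) := fun k => by
    ext x; rfl
  -- continuity of the differences
  have hcont : ∀ (f : (Fin n → ℂ) → ℂ), DifferentiableOn ℂ f (ballB n) → ∀ (a : ℕ → ℂ)
      (s : Finset ℕ), ContinuousOn (fun z => (∑ k ∈ s, a k * b k z) - f z) (ballB n) := by
    intro f hf a s
    refine ContinuousOn.sub ?_ hf.continuousOn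
    exact continuousOn_finsetSum s (fun k _ => continuousOn_const.mul (hbc k))
  have hpbd : ∀ (f : (Fin n → ℂ) → ℂ) (a : ℕ → ℂ) (s : Finset ℕ),
      pb (fun z => (∑ k ∈ s, a k * b k z) - f z) =
        fun z => (∑ k ∈ s, a k * ff U (s1 k) z) - pb f z := by
    intro f a s
    rfl
  -- bounds
  have hbdd : ∀ (f : (Fin n → ℂ) → ℂ), DifferentiableOn ℂ f (ballB n) → ∀ K : ℝ,
      (∀ r ∈ Ioo (0 : ℝ) 1, Mr (pb f) r ≤ K) → ∀ (a : ℕ → ℂ) (s : Finset ℕ),
      ∀ r ∈ Ioo (0 : ℝ) 1, Mr (pb (fun z => (∑ k ∈ s, a k * b k z) - f z)) r ≤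
        ‖cut e s a‖ + K := by
    intro f hf K hK a s r hr
    rw [hpbd]
    have h1 : Mr (fun z => (∑ k ∈ s, a k * ff U (s1 k) z) - pb f z) r =
        Mr (fun z => ff U (cut e s a) z - pb f z) r :=
      Mr_congr hr (fun z hz => by rw [ff_cut U e s a hz])
    rw [h1]
    exact (Mr_sub_le (ff_cont U _) (differentiableOn_pb hf).continuousOn hr).trans
      (add_le_add (Mr_ff_norm U _ hr) (hK r hr))
  -- existence of unconditional expansions
  have hex : ∀ f ∈ H 1, ∃ a : ℕ → ℂ,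
      Tendsto (fun s : Finset ℕ => NN (fun z => (∑ k ∈ s, a k * b k z) - f z)) atTop (𝓝 0) := by
    intro f hf
    obtain ⟨hf1, K, hK⟩ := hH1 f hf
    obtain ⟨a, ha⟩ := exists_coeffs hG U (max C 0) hC' hU1' hU2' hD e (differentiableOn_pb hf1) hK
    refine ⟨a, ?_⟩
    rw [Metric.tendsto_nhds]
    intro ε hε
    obtain ⟨s0, hs0⟩ := ha (ε / 2) (by positivity)
    filter_upwards [eventually_ge_atTop s0] with s hs
    have h0 := NN_nonneg (hcont f hf1 a s)
    have h1 : NN (fun z => (∑ k ∈ s, a k * b k z) - f z) ≤ ε / 2 :=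
      NN_le (hcont f hf1 a s) (by positivity) (fun r hr => hs0 s hs r hr)
    rw [Real.dist_eq, sub_zero, abs_of_nonneg h0]
    linarith
  -- uniqueness
  have huniq : ∀ f ∈ H 1, ∀ a a' : ℕ → ℂ,
      Tendsto (fun N : ℕ => NN (fun z => (∑ k ∈ Finset.range N, a k * b k z) - f z)) atTop
        (𝓝 0) →
      Tendsto (fun N : ℕ => NN (fun z => (∑ k ∈ Finset.range N, a' k * b k z) - f z)) atTop
        (𝓝 0) → a = a' := by
    intro f hf a a' h1 h2
    obtain ⟨hf1, K, hK⟩ := hH1 f hf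
    have h3 : ∀ k, (fun k => a k - a' k) k = 0 := by
      refine coeffs_unique hG U (max C 0) hC' hU2' e (d := fun k => a k - a' k)
        (ε := fun N => NN (fun z => (∑ k ∈ Finset.range N, a k * b k z) - f z) +
          NN (fun z => (∑ k ∈ Finset.range N, a' k * b k z) - f z)) ?_ ?_
      · simpa using h1.add h2
      · intro N r hr
        have e1 : Mr (fun z => ∑ k ∈ Finset.range N, (a k - a' k) * ff U (s1 k) z) r =
            Mr (fun z => pb (fun z => (∑ k ∈ Finset.range N, a k * b k z) - f z) z -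
              pb (fun z => (∑ k ∈ Finset.range N, a' k * b k z) - f z) z) r := by
          refine Mr_congr hr (fun z _ => ?_)
          rw [hpbd, hpbd]
          simp only [sub_mul, Finset.sum_sub_distrib]
          ring
        rw [e1]
        have hc1 : ∀ a : ℕ → ℂ, ContinuousOn
            (pb (fun z => (∑ k ∈ Finset.range N, a k * b k z) - f z)) (Metric.ball 0 1) := by
          intro a
          rw [hpbd]
          refine ContinuousOn.sub ?_ (differentiableOn_pb hf1).continuousOn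
          exact continuousOn_finsetSum _ (fun k _ => continuousOn_const.mul (ff_cont U _))
        refine (Mr_sub_le (hc1 a) (hc1 a') hr).trans (add_le_add ?_ ?_)
        · exact le_NN (hcont f hf1 a _) (hbdd f hf1 K hK a _) hr
        · exact le_NN (hcont f hf1 a' _) (hbdd f hf1 K hK a' _) hr
    ext k
    exact sub_eq_zero.1 (h3 k)
  refine ⟨b, ?_, ?_, ?_, ?_⟩
  · -- membership in `H 2`
    intro k
    rw [hH]
    refine ⟨hbd k, ‖s1 k‖ ^ 2, ?_⟩
    rintro _ ⟨r, hr, rfl⟩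
    simp only
    rw [II_rpow (hbc k) hr (by norm_num)]
    have h1 := slices_sq_le (U (s1 k)).2 hr
    have h2 : ‖((U (s1 k) : H2 n) : Lp ℂ 2 (sig n))‖ = ‖s1 k‖ := by
      have h3 : ‖((U (s1 k) : H2 n) : Lp ℂ 2 (sig n))‖ = ‖U (s1 k)‖ := rfl
      rw [h3, U.norm_map]
    rw [h2] at h1
    refine le_trans (le_of_eq ?_) h1
    congr 1; ext ζ
    rw [hbpb]
    exact Real.rpow_two _
  · -- orthonormality
    intro j k
    have h1 := slices_inner (U (s1 j)).2 (U (s1 k)).2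
    have h2 : ⟪((U (s1 k) : H2 n) : Lp ℂ 2 (sig n)), ((U (s1 j) : H2 n) : Lp ℂ 2 (sig n))⟫_ℂ =
        if j = k then (1 : ℂ) else 0 := by
      have h3 : ⟪((U (s1 k) : H2 n) : Lp ℂ 2 (sig n)), ((U (s1 j) : H2 n) : Lp ℂ 2 (sig n))⟫_ℂ =
        ⟪U (s1 k), U (s1 j)⟫_ℂ := rfl
      rw [h3, U.inner_map_map, hs1]
      simp only
      rw [lp.inner_single_left, lp.single_apply]
      by_cases h : j = k
      · subst h; simp
      · have h4 : e k ≠ e j := fun h5 => h (e.injective h5).symm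
        simp [h, h4]
    rw [h2] at h1
    refine h1.congr' ?_
    filter_upwards [eventually_Ioo] with r hr
    rw [II_eq (h := fun z => b j z * star (b k z))
      ((hbc j).mul (continuous_star.comp_continuousOn (hbc k))) hr]
    rfl
  · intro f hf
    obtain ⟨a, ha⟩ := hex f hf
    refine ⟨a, ha.comp tendsto_finset_range, fun a' ha' => ?_⟩
    exact huniq f hf a' a ha' (ha.comp tendsto_finset_range)
  · intro f hf a ha
    obtain ⟨a', ha'⟩ := hex f hf
    have := huniq f hf a a' ha (ha'.comp tendsto_finset_range)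
    subst this
    exact ha'

end Pool.Agent.MP28b1a7
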