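import Pool.Agent.Lib.MP_28b1a7_an.BallLim2

/-! Conversion between ball averages and integrals over the sphere. -/

namespace Pool.Agent.MP28b1a7

open MeasureTheory Set Filter Topology
open scoped InnerProductSpace ENNReal NNReal

set_option linter.unusedSectionVars false

variable {n : ℕ} [NeZero n]

lemma mem_ballB_iff (x : V n) : WithLp.ofLp x ∈ ballB n ↔ ‖x‖ < 1 := by
  unfold ballB
  rw [mem_setOf_eq, ← EuclideanSpace.norm_sq_eq]
  constructor
  · intro h
    nlinarith [norm_nonneg x]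
  · intro h
    nlinarith [norm_nonneg x]

lemma norm_toLp (x : Fin n → ℂ) : ‖(WithLp.toLp 2 x : V n)‖ = Real.sqrt (∑ i, ‖x i‖ ^ 2) := by
  rw [EuclideanSpace.norm_eq]

lemma conv_point {r : ℝ} {x : Fin n → ℂ} (hx : x ≠ 0) :
    WithLp.ofLp ((r : ℂ) • (toS n x : V n)) = (r / Real.sqrt (∑ i, ‖x i‖ ^ 2)) • x := by
  unfold toS
  rw [dif_pos hx]
  simp only
  rw [norm_toLp]
  ext i
  simp
  ring

lemma conv_cont {h : (Fin n → ℂ) → ℂ} (hc : ContinuousOn h (ballB n)) {r : ℝ}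
    (hr : r ∈ Ioo (0 : ℝ) 1) :
    Continuous fun ζ : Sph n => h (WithLp.ofLp ((r : ℂ) • (ζ : V n))) := by
  refine hc.comp_continuous ?_ (fun ζ => ?_)
  · exact (PiLp.continuous_ofLp 2 _).comp (by fun_prop)
  · rw [mem_ballB_iff, norm_smul_sph]
    simpa [abs_of_pos hr.1] using hr.2

lemma conv {h : (Fin n → ℂ) → ℂ} (hc : ContinuousOn h (ballB n)) {r : ℝ}
    (hr : r ∈ Ioo (0 : ℝ) 1) :
    (volume (ballB n)).toReal⁻¹ • ∫ x in ballB n, h ((r / Real.sqrt (∑ i, ‖x i‖ ^ 2)) • x) =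
      ∫ ζ : Sph n, h (WithLp.ofLp ((r : ℂ) • (ζ : V n))) ∂sig n := by
  rw [integral_sig (conv_cont hc hr).measurable]
  congr 1
  have h0 : ∀ᵐ x : Fin n → ℂ ∂(volume.restrict (ballB n)), x ≠ 0 := by
    refine ae_restrict_of_ae ?_
    have : (volume : Measure (Fin n → ℂ)) {0} = 0 := measure_singleton 0
    rw [ae_iff]
    simpa using this
  refine integral_congr_ae ?_
  filter_upwards [h0] with x hx
  rw [conv_point hx]

end Pool.Agent.MP28b1a7
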