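import Pool.Agent.Lib.MP_28b1a7_an.H2def

/-! Extension of functions on the sphere to the ball by the Cauchy integral. -/

namespace Pool.Agent.MP28b1a7

open MeasureTheory Set Filter Topology
open scoped InnerProductSpace ENNReal NNReal

set_option linter.unusedSectionVars false

variable {n : ℕ} [NeZero n]

/-- Cauchy integral of a function on the sphere. -/
noncomputable def cext (g : Sph n → ℂ) (z : V n) : ℂ :=
  ∫ ζ : Sph n, ((1 - ⟪(ζ : V n), z⟫_ℂ) ^ n)⁻¹ * g ζ ∂sig n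

lemma norm_inner_sph_le (ζ : Sph n) (z : V n) : ‖⟪(ζ : V n), z⟫_ℂ‖ ≤ ‖z‖ := by
  have := norm_inner_le_norm (𝕜 := ℂ) (ζ : V n) z
  rwa [sph_norm, one_mul] at this

lemma one_sub_norm_le (ζ : Sph n) (z : V n) : 1 - ‖z‖ ≤ ‖1 - ⟪(ζ : V n), z⟫_ℂ‖ := by
  have h1 := norm_inner_sph_le ζ z
  have h2 := norm_sub_norm_le (1 : ℂ) ⟪(ζ : V n), z⟫_ℂ
  rw [norm_one] at h2
  linarith

lemma one_sub_ne {z : V n} (hz : ‖z‖ < 1) (ζ : Sph n) : 1 - ⟪(ζ : V n), z⟫_ℂ ≠ 0 := by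
  intro h
  have := one_sub_norm_le ζ z
  rw [h, norm_zero] at this
  linarith

lemma norm_kern_le {z : V n} (hz : ‖z‖ < 1) (ζ : Sph n) :
    ‖((1 - ⟪(ζ : V n), z⟫_ℂ) ^ n)⁻¹‖ ≤ ((1 - ‖z‖) ^ n)⁻¹ := by
  rw [norm_inv, norm_pow]
  have h0 : 0 < 1 - ‖z‖ := by linarith
  exact inv_anti₀ (pow_pos h0 n) (pow_le_pow_left₀ h0.le (one_sub_norm_le ζ z) n)

lemma continuous_kern {z : V n} (hz : ‖z‖ < 1) :
    Continuous fun ζ : Sph n => ((1 - ⟪(ζ : V n), z⟫_ℂ) ^ n)⁻¹ := by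
  refine Continuous.inv₀ ?_ (fun ζ => pow_ne_zero _ (one_sub_ne hz ζ))
  fun_prop

lemma integrable_kern {g : Sph n → ℂ} (hg : Integrable g (sig n)) {z : V n} (hz : ‖z‖ < 1) :
    Integrable (fun ζ : Sph n => ((1 - ⟪(ζ : V n), z⟫_ℂ) ^ n)⁻¹ * g ζ) (sig n) :=
  hg.bdd_mul (c := ((1 - ‖z‖) ^ n)⁻¹) (continuous_kern hz).aestronglyMeasurable
    (ae_of_all _ (norm_kern_le hz))

lemma norm_cext_le {g : Sph n → ℂ} (hg : Integrable g (sig n)) {z : V n} (hz : ‖z‖ < 1) :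
    ‖cext g z‖ ≤ ((1 - ‖z‖) ^ n)⁻¹ * ∫ ζ, ‖g ζ‖ ∂sig n := by
  unfold cext
  refine (norm_integral_le_integral_norm _).trans ?_
  rw [← integral_const_mul]
  refine integral_mono (integrable_kern hg hz).norm (hg.norm.const_mul _) (fun ζ => ?_)
  simp only [norm_mul]
  exact mul_le_mul_of_nonneg_right (norm_kern_le hz ζ) (norm_nonneg _)

lemma cext_add {g h : Sph n → ℂ} (hg : Integrable g (sig n)) (hh : Integrable h (sig n))
    {z : V n} (hz : ‖z‖ < 1) : cext (fun ζ => g ζ + h ζ) z = cext g z + cext h z := by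
  unfold cext
  rw [← integral_add (integrable_kern hg hz) (integrable_kern hh hz)]
  simp only [mul_add]

lemma cext_smul (a : ℂ) (g : Sph n → ℂ) (z : V n) :
    cext (fun ζ => a * g ζ) z = a * cext g z := by
  unfold cext
  rw [← integral_const_mul]
  congr 1; ext ζ; ring

lemma cext_congr {g h : Sph n → ℂ} (hgh : g =ᵐ[sig n] h) : cext g = cext h := by
  ext z
  unfold cext
  refine integral_congr_ae ?_
  filter_upwards [hgh] with ζ hζ
  rw [hζ]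

lemma hasFDerivAt_kern (ζ : Sph n) {z : V n} (hz : ‖z‖ < 1) :
    HasFDerivAt (fun z : V n => ((1 - ⟪(ζ : V n), z⟫_ℂ) ^ n)⁻¹)
      (((n : ℂ) * (1 - ⟪(ζ : V n), z⟫_ℂ) ^ (n - 1) / ((1 - ⟪(ζ : V n), z⟫_ℂ) ^ n) ^ 2) •
        innerSL ℂ (ζ : V n)) z := by
  have h1 : HasFDerivAt (fun z : V n => ⟪(ζ : V n), z⟫_ℂ) (innerSL ℂ (ζ : V n)) z :=
    (innerSL ℂ (ζ : V n)).hasFDerivAt
  have h2 : HasDerivAt (fun w : ℂ => ((1 - w) ^ n)⁻¹)
      ((n : ℂ) * (1 - ⟪(ζ : V n), z⟫_ℂ) ^ (n - 1) / ((1 - ⟪(ζ : V n), z⟫_ℂ) ^ n) ^ 2)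
      ⟪(ζ : V n), z⟫_ℂ := by
    have h3 : HasDerivAt (fun w : ℂ => 1 - w) (-1) ⟪(ζ : V n), z⟫_ℂ := by
      simpa using (hasDerivAt_id (⟪(ζ : V n), z⟫_ℂ)).const_sub 1
    have h4 := (h3.pow n).inv (pow_ne_zero n (one_sub_ne hz ζ))
    refine HasDerivAt.congr_deriv (f := fun w : ℂ => ((1 - w) ^ n)⁻¹) h4 ?_
    simp only [Pi.pow_apply]
    ring
  exact h2.comp_hasFDerivAt z h1

lemma differentiableOn_cext {g : Sph n → ℂ} (hg : Integrable g (sig n)) :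
    DifferentiableOn ℂ (cext g) (Metric.ball 0 1) := by
  intro z0 hz0
  rw [mem_ball_zero_iff] at hz0
  set ρ : ℝ := (1 + ‖z0‖) / 2 with hρ
  have hρ1 : ρ < 1 := by rw [hρ]; linarith
  have hρ0 : ‖z0‖ < ρ := by rw [hρ]; linarith
  have hs : Metric.ball (0 : V n) ρ ∈ 𝓝 z0 :=
    Metric.isOpen_ball.mem_nhds (by rwa [mem_ball_zero_iff])
  have key := hasFDerivAt_integral_of_dominated_of_fderiv_le (𝕜 := ℂ) (μ := sig n)
    (F := fun (z : V n) (ζ : Sph n) => ((1 - ⟪(ζ : V n), z⟫_ℂ) ^ n)⁻¹ * g ζ)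
    (F' := fun (z : V n) (ζ : Sph n) => g ζ •
      (((n : ℂ) * (1 - ⟪(ζ : V n), z⟫_ℂ) ^ (n - 1) / ((1 - ⟪(ζ : V n), z⟫_ℂ) ^ n) ^ 2) •
        innerSL ℂ (ζ : V n)))
    (bound := fun ζ => ‖g ζ‖ * ((n : ℝ) * 2 ^ (n - 1) / ((1 - ρ) ^ n) ^ 2))
    hs ?_ ?_ ?_ ?_ ?_ ?_
  · exact key.differentiableAt.differentiableWithinAt
  · filter_upwards [hs] with z hz
    rw [mem_ball_zero_iff] at hz
    exact (integrable_kern hg (hz.trans hρ1)).aestronglyMeasurable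
  · exact integrable_kern hg hz0
  · refine hg.aestronglyMeasurable.smul (Continuous.aestronglyMeasurable ?_)
    refine Continuous.smul (f := fun ζ : Sph n => ((n : ℂ) * (1 - ⟪(ζ : V n), z0⟫_ℂ) ^ (n - 1) /
      ((1 - ⟪(ζ : V n), z0⟫_ℂ) ^ n) ^ 2)) (g := fun ζ : Sph n => innerSL ℂ (ζ : V n)) ?_ ?_
    · refine Continuous.div ?_ ?_ (fun ζ => pow_ne_zero _ (pow_ne_zero _ (one_sub_ne hz0 ζ)))
      · fun_prop
      · fun_prop
    · exact (innerSL ℂ (E := V n)).continuous.comp continuous_subtype_val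
  · refine ae_of_all _ (fun ζ z hz => ?_)
    rw [mem_ball_zero_iff] at hz
    rw [norm_smul, norm_smul, innerSL_apply_norm, sph_norm, mul_one]
    refine mul_le_mul_of_nonneg_left ?_ (norm_nonneg _)
    rw [norm_div, norm_mul, norm_pow, norm_pow, norm_pow]
    have h1 : ‖1 - ⟪(ζ : V n), z⟫_ℂ‖ ≤ 2 := by
      refine (norm_sub_le _ _).trans ?_
      rw [norm_one]
      have := norm_inner_sph_le ζ z
      linarith
    have h2 : 1 - ρ ≤ ‖1 - ⟪(ζ : V n), z⟫_ℂ‖ := by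
      have := one_sub_norm_le ζ z
      linarith
    have h3 : 0 < 1 - ρ := by linarith
    have h4 : ‖(n : ℂ)‖ = n := by simp
    rw [h4]
    gcongr
  · exact hg.norm.mul_const _
  · refine ae_of_all _ (fun ζ z hz => ?_)
    rw [mem_ball_zero_iff] at hz
    have h := (hasFDerivAt_kern ζ (hz.trans hρ1)).mul_const (g ζ)
    exact h

/-! ### Power series expansion -/

lemma hasSum_kern {w : ℂ} (hw : ‖w‖ < 1) :
    HasSum (fun k => (cc n k : ℂ) * w ^ k) ((1 - w) ^ n)⁻¹ := by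
  have h := hasSum_choose_mul_geometric_of_norm_lt_one (n - 1) hw
  have hn : 1 ≤ n := Nat.one_le_iff_ne_zero.2 (NeZero.ne n)
  rw [Nat.sub_add_cancel hn, one_div] at h
  have e : ∀ k, cc n k = (k + (n - 1)).choose (n - 1) := fun k => by
    unfold cc; rw [Nat.add_sub_assoc hn]
  simp_rw [e]
  exact h

lemma summable_cc {r : ℝ} (h0 : 0 ≤ r) (h1 : r < 1) : Summable fun k => (cc n k : ℝ) * r ^ k := by
  have h := summable_choose_mul_geometric_of_norm_lt_one (R := ℝ) (n - 1)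
    (r := r) (by rwa [Real.norm_of_nonneg h0])
  have hn : 1 ≤ n := Nat.one_le_iff_ne_zero.2 (NeZero.ne n)
  have e : ∀ k, cc n k = (k + (n - 1)).choose (n - 1) := fun k => by
    unfold cc; rw [Nat.add_sub_assoc hn]
  simp_rw [e]
  exact h

lemma integrable_ppker {g : Sph n → ℂ} (hg : Integrable g (sig n)) (k : ℕ) (z : V n) :
    Integrable (fun ζ : Sph n => ⟪(ζ : V n), z⟫_ℂ ^ k * g ζ) (sig n) :=
  hg.bdd_mul (c := ‖z‖ ^ k) (by fun_prop) (ae_of_all _ (fun ζ => by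
    rw [norm_pow]; exact pow_le_pow_left₀ (norm_nonneg _) (norm_inner_sph_le ζ z) k))

lemma hasSum_PP {g : Sph n → ℂ} (hg : Integrable g (sig n)) {z : V n} (hz : ‖z‖ < 1) :
    HasSum (fun k => PP k g z) (cext g z) := by
  have h := hasSum_integral_of_summable_integral_norm (μ := sig n)
    (F := fun (k : ℕ) (ζ : Sph n) => (cc n k : ℂ) * (⟪(ζ : V n), z⟫_ℂ ^ k * g ζ))
    (fun k => (integrable_ppker hg k z).const_mul _) ?_
  · have e1 : (fun k => ∫ ζ : Sph n, (cc n k : ℂ) * (⟪(ζ : V n), z⟫_ℂ ^ k * g ζ) ∂sig n) =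
        fun k => PP k g z := by
      ext k; unfold PP; rw [integral_const_mul]
    rw [e1] at h
    have e2 : ∫ ζ : Sph n, ∑' k, (cc n k : ℂ) * (⟪(ζ : V n), z⟫_ℂ ^ k * g ζ) ∂sig n = cext g z := by
      unfold cext
      congr 1
      ext ζ
      have h1 : ‖⟪(ζ : V n), z⟫_ℂ‖ < 1 := (norm_inner_sph_le ζ z).trans_lt hz
      have h2 := (hasSum_kern (n := n) h1).mul_right (g ζ)
      rw [← h2.tsum_eq]
      congr 1; ext k; ring
    rwa [e2] at h
  · refine Summable.of_nonneg_of_le (fun k => integral_nonneg (fun _ => norm_nonneg _))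
      (fun k => ?_) ((summable_cc (n := n) (norm_nonneg z) hz).mul_right (∫ ζ, ‖g ζ‖ ∂sig n))
    rw [mul_assoc, ← integral_const_mul, ← integral_const_mul]
    refine integral_mono ((integrable_ppker hg k z).const_mul _).norm
      ((hg.norm.const_mul _).const_mul _) (fun ζ => ?_)
    simp only [norm_mul, norm_pow, Complex.norm_natCast]
    gcongr
    exact norm_inner_sph_le ζ z

lemma PP_monoB (l k : ℕ) (v z : V n) :
    PP l (fun ζ : Sph n => ⟪v, (ζ : V n)⟫_ℂ ^ k) z = if k = l then ⟪v, z⟫_ℂ ^ k else 0 := by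
  unfold PP
  have h := inner_pow_int (n := n) k l v z
  have e : ∀ ζ : Sph n, ⟪(ζ : V n), z⟫_ℂ ^ l * ⟪v, (ζ : V n)⟫_ℂ ^ k =
      ⟪v, (ζ : V n)⟫_ℂ ^ k * ⟪(ζ : V n), z⟫_ℂ ^ l := fun ζ => mul_comm _ _
  simp_rw [e]
  rw [h]
  split_ifs with hkl
  · subst hkl
    have hc : (cc n k : ℂ) ≠ 0 := by
      have : 0 < cc n k := Nat.choose_pos (by
        have := Nat.one_le_iff_ne_zero.2 (NeZero.ne n); omega)
      exact_mod_cast this.ne'
    field_simp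
  · simp

lemma integrable_of_continuous {g : Sph n → ℂ} (hg : Continuous g) : Integrable g (sig n) := by
  obtain ⟨C, hC⟩ := IsCompact.exists_bound_of_continuousOn (isCompact_univ (X := Sph n))
    hg.continuousOn
  exact Integrable.of_bound hg.aestronglyMeasurable C (ae_of_all _ fun x => hC x (mem_univ x))

lemma cext_mono (k : ℕ) (v : V n) {z : V n} (hz : ‖z‖ < 1) :
    cext (fun ζ : Sph n => ⟪v, (ζ : V n)⟫_ℂ ^ k) z = ⟪v, z⟫_ℂ ^ k := by
  have h := hasSum_PP (integrable_of_continuous (g := fun ζ : Sph n => ⟪v, (ζ : V n)⟫_ℂ ^ k)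
    (by fun_prop)) hz
  have h2 : HasSum (fun l => PP l (fun ζ : Sph n => ⟪v, (ζ : V n)⟫_ℂ ^ k) z) (⟪v, z⟫_ℂ ^ k) := by
    have := hasSum_single (f := fun l => PP l (fun ζ : Sph n => ⟪v, (ζ : V n)⟫_ℂ ^ k) z) k
      (fun l hl => by rw [PP_monoB, if_neg (Ne.symm hl)])
    rwa [PP_monoB, if_pos rfl] at this
  exact h.unique h2

end Pool.Agent.MP28b1a7
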