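import Pool.Agent.Lib.MP_28b1a7_an.BallPol

/-! Slices of the Cauchy extension: contraction and convergence. -/

namespace Pool.Agent.MP28b1a7

open MeasureTheory Set Filter Topology
open scoped InnerProductSpace ENNReal NNReal

set_option linter.unusedSectionVars false

variable {n : ℕ} [NeZero n]

lemma integrable_real {g : Sph n → ℝ} (hg : Continuous g) : Integrable g (sig n) := by
  obtain ⟨C, hC⟩ := IsCompact.exists_bound_of_continuousOn (isCompact_univ (X := Sph n))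
    hg.continuousOn
  exact Integrable.of_bound hg.aestronglyMeasurable C (ae_of_all _ fun ζ => hC ζ (mem_univ _))

lemma norm_smul_sph (r : ℂ) (ζ : Sph n) : ‖r • (ζ : V n)‖ = ‖r‖ := by
  rw [norm_smul, sph_norm, mul_one]

lemma continuous_slice {g : Sph n → ℂ} (hg : Integrable g (sig n)) {r : ℂ} (hr : ‖r‖ < 1) :
    Continuous fun ζ : Sph n => cext g (r • (ζ : V n)) := by
  have h := (differentiableOn_cext hg).continuousOn
  refine h.comp_continuous (by fun_prop) (fun ζ => ?_)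
  rw [mem_ball_zero_iff, norm_smul_sph]
  exact hr

/-- rotation by a unimodular number -/
noncomputable def scalU (n : ℕ) (lam : ℂ) (h : ‖lam‖ = 1) : V n ≃ₗᵢ[ℂ] V n :=
  { LinearEquiv.smulOfNeZero ℂ (V n) lam (by intro h0; rw [h0, norm_zero] at h; norm_num at h) with
    norm_map' := fun x => by
      change ‖lam • x‖ = ‖x‖
      rw [norm_smul, h, one_mul] }

lemma integral_rot {E : Type*} [NormedAddCommGroup E] [NormedSpace ℝ E] {F : V n → E}
    (hF : Continuous F) {lam : ℂ} (h : ‖lam‖ = 1) :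
    ∫ ζ : Sph n, F (lam • (ζ : V n)) ∂sig n = ∫ ζ : Sph n, F ζ ∂sig n := by
  have h1 := sig_map (scalU n lam h)
  have h2 := integral_map (μ := sig n) (φ := uact (scalU n lam h)) h1.measurable.aemeasurable
    (f := fun ζ : Sph n => F ζ) (hF.comp continuous_subtype_val).aestronglyMeasurable
  rw [h1.map_eq] at h2
  rw [h2]
  rfl

/-- `L^2` classes represented by polynomials. -/
def Good (x : Sph n → ℂ) : Prop :=
  ∃ P : V n → ℂ, Continuous P ∧ (x =ᵐ[sig n] fun ζ => P ζ) ∧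
    (∀ z : V n, ‖z‖ < 1 → cext x z = P z) ∧
    (∀ b : Sph n → ℂ, Measurable b → (∃ C : ℝ, ∀ ζ, ‖b ζ‖ ≤ C) →
      Differentiable ℂ fun lam : ℂ => ∫ ζ : Sph n, P (lam • (ζ : V n)) * b ζ ∂sig n)

lemma integrable_cont_mul {P : Sph n → ℂ} (hP : Continuous P) {b : Sph n → ℂ} (hb : Measurable b)
    (hb2 : ∃ C : ℝ, ∀ ζ, ‖b ζ‖ ≤ C) : Integrable (fun ζ => P ζ * b ζ) (sig n) := by
  obtain ⟨C, hC⟩ := hb2
  exact (integrable_of_continuous hP).mul_bdd (c := C) hb.aestronglyMeasurable (ae_of_all _ hC)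

lemma good_mono (k : ℕ) (v : V n) :
    Good (n := n) (ContinuousMap.toLp 2 (sig n) ℂ (mono k v) : Lp ℂ 2 (sig n)) := by
  have h1 := ContinuousMap.coeFn_toLp (p := 2) (𝕜 := ℂ) (sig n) (mono k v)
  refine ⟨fun z => ⟪v, z⟫_ℂ ^ k, by fun_prop, ?_, ?_, ?_⟩
  · filter_upwards [h1] with ζ hζ
    rw [hζ]; rfl
  · intro z hz
    rw [cext_congr h1]
    exact cext_mono k v hz
  · intro b hb hb2
    have e : (fun lam : ℂ => ∫ ζ : Sph n, ⟪v, lam • (ζ : V n)⟫_ℂ ^ k * b ζ ∂sig n) =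
        fun lam : ℂ => lam ^ k * ∫ ζ : Sph n, ⟪v, (ζ : V n)⟫_ℂ ^ k * b ζ ∂sig n := by
      ext lam
      rw [← integral_const_mul]
      congr 1
      ext ζ
      rw [inner_smul_right]
      ring
    rw [e]
    fun_prop

lemma Good.add {x y : Sph n → ℂ} (hx : Good x) (hy : Good y) (hxi : Integrable x (sig n))
    (hyi : Integrable y (sig n)) : Good (fun ζ => x ζ + y ζ) := by
  obtain ⟨P, hP1, hP2, hP3, hP4⟩ := hx
  obtain ⟨Q, hQ1, hQ2, hQ3, hQ4⟩ := hy
  refine ⟨fun z => P z + Q z, hP1.add hQ1, ?_, ?_, ?_⟩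
  · filter_upwards [hP2, hQ2] with ζ h1 h2
    rw [h1, h2]
  · intro z hz
    rw [cext_add hxi hyi hz, hP3 z hz, hQ3 z hz]
  · intro b hb hb2
    have e : (fun lam : ℂ => ∫ ζ : Sph n, (P (lam • (ζ : V n)) + Q (lam • (ζ : V n))) * b ζ ∂sig n) =
        fun lam : ℂ => (∫ ζ : Sph n, P (lam • (ζ : V n)) * b ζ ∂sig n) +
          ∫ ζ : Sph n, Q (lam • (ζ : V n)) * b ζ ∂sig n := by
      ext lam
      rw [← integral_add (integrable_cont_mul (P := fun ζ : Sph n => P (lam • (ζ : V n)))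
        (by fun_prop) hb hb2) (integrable_cont_mul (P := fun ζ : Sph n => Q (lam • (ζ : V n)))
        (by fun_prop) hb hb2)]
      simp_rw [add_mul]
    rw [e]
    exact (hP4 b hb hb2).add (hQ4 b hb hb2)

lemma Good.smul {x : Sph n → ℂ} (hx : Good x) (a : ℂ) : Good (fun ζ => a * x ζ) := by
  obtain ⟨P, hP1, hP2, hP3, hP4⟩ := hx
  refine ⟨fun z => a * P z, continuous_const.mul hP1, ?_, ?_, ?_⟩
  · filter_upwards [hP2] with ζ h1
    rw [h1]
  · intro z hz
    rw [cext_smul, hP3 z hz]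
  · intro b hb hb2
    have e : (fun lam : ℂ => ∫ ζ : Sph n, (a * P (lam • (ζ : V n))) * b ζ ∂sig n) =
        fun lam : ℂ => a * ∫ ζ : Sph n, P (lam • (ζ : V n)) * b ζ ∂sig n := by
      ext lam
      rw [← integral_const_mul]
      congr 1; ext ζ; ring
    rw [e]
    exact (hP4 b hb hb2).const_mul a

lemma Good.congr {x y : Sph n → ℂ} (hx : Good x) (hxy : y =ᵐ[sig n] x) : Good y := by
  obtain ⟨P, hP1, hP2, hP3, hP4⟩ := hx
  exact ⟨P, hP1, hxy.trans hP2, fun z hz => by rw [cext_congr hxy, hP3 z hz], hP4⟩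

lemma lp_integrable (x : Lp ℂ 2 (sig n)) : Integrable (x : Sph n → ℂ) (sig n) :=
  (Lp.memLp x).integrable (by norm_num)

lemma good_span {x : Lp ℂ 2 (sig n)} (hx : x ∈ Submodule.span ℂ {f | ∃ (k : ℕ) (v : V n), f =
    ContinuousMap.toLp 2 (sig n) ℂ (mono k v)}) : Good (x : Sph n → ℂ) := by
  induction hx using Submodule.span_induction with
  | mem x h =>
    obtain ⟨k, v, rfl⟩ := h
    exact good_mono k v
  | zero =>
    refine Good.congr (x := fun _ => 0) ⟨fun _ => 0, continuous_const, ae_eq_refl _, ?_, ?_⟩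
      (Lp.coeFn_zero _ _ _)
    · intro z _
      unfold cext
      simp
    · intro b _ _
      simp
  | add x y _ _ hx hy =>
    exact (hx.add hy (lp_integrable x) (lp_integrable y)).congr (Lp.coeFn_add x y)
  | smul a x _ hx =>
    refine (hx.smul a).congr ?_
    filter_upwards [Lp.coeFn_smul a x] with ζ hζ
    rw [hζ]
    simp

lemma maxmod {F : ℂ → ℂ} (hF : Differentiable ℂ F) {K : ℝ} (hK : ∀ lam : ℂ, ‖lam‖ = 1 → ‖F lam‖ ≤ K)
    {r : ℂ} (hr : ‖r‖ < 1) : ‖F r‖ ≤ K := by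
  refine Complex.norm_le_of_forall_mem_frontier_norm_le (U := Metric.ball 0 1)
    Metric.isBounded_ball hF.diffContOnCl ?_ (subset_closure (by simpa using hr))
  intro z hz
  rw [frontier_ball (0 : ℂ) one_ne_zero] at hz
  exact hK z (by simpa using hz)

lemma Good.l1 {x : Sph n → ℂ} (hx : Good x) {r : ℂ} (hr : ‖r‖ < 1) :
    ∫ ζ : Sph n, ‖cext x (r • (ζ : V n))‖ ∂sig n ≤ ∫ ζ, ‖x ζ‖ ∂sig n := by
  obtain ⟨P, hP1, hP2, hP3, hP4⟩ := hx
  have e1 : ∫ ζ : Sph n, ‖cext x (r • (ζ : V n))‖ ∂sig n =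
      ∫ ζ : Sph n, ‖P (r • (ζ : V n))‖ ∂sig n := by
    congr 1; ext ζ
    rw [hP3 _ (by rw [norm_smul_sph]; exact hr)]
  have e2 : ∫ ζ, ‖x ζ‖ ∂sig n = ∫ ζ : Sph n, ‖P ζ‖ ∂sig n := by
    refine integral_congr_ae ?_
    filter_upwards [hP2] with ζ hζ
    rw [hζ]
  rw [e1, e2]
  set b : Sph n → ℂ := fun ζ => (starRingEnd ℂ) (P (r • (ζ : V n))) / (‖P (r • (ζ : V n))‖ : ℂ)
    with hb
  have hPr : Measurable fun ζ : Sph n => P (r • (ζ : V n)) := by
    have : Continuous fun ζ : Sph n => P (r • (ζ : V n)) := by fun_prop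
    exact this.measurable
  have hbm : Measurable b := by
    rw [hb]
    exact (Complex.continuous_conj.measurable.comp hPr).div
      (Complex.measurable_ofReal.comp hPr.norm)
  have hb1 : ∀ ζ, ‖b ζ‖ ≤ 1 := by
    intro ζ
    rw [hb]
    simp only [norm_div, RCLike.norm_conj, Complex.norm_real, norm_norm]
    exact div_self_le_one _
  have hF := hP4 b hbm ⟨1, hb1⟩
  have hK : ∀ lam : ℂ, ‖lam‖ = 1 →
      ‖∫ ζ : Sph n, P (lam • (ζ : V n)) * b ζ ∂sig n‖ ≤ ∫ ζ : Sph n, ‖P ζ‖ ∂sig n := by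
    intro lam hlam
    rw [← integral_rot (F := fun z => ‖P z‖) hP1.norm hlam]
    refine (norm_integral_le_integral_norm _).trans ?_
    have hi : Integrable (fun ζ : Sph n => P (lam • (ζ : V n)) * b ζ) (sig n) :=
      integrable_cont_mul (P := fun ζ : Sph n => P (lam • (ζ : V n))) (by fun_prop) hbm ⟨1, hb1⟩
    refine integral_mono hi.norm (integrable_of_continuous (g := fun ζ : Sph n =>
      P (lam • (ζ : V n))) (by fun_prop)).norm (fun ζ => ?_)
    simp only [norm_mul]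
    exact mul_le_of_le_one_right (norm_nonneg _) (hb1 ζ)
  have h := maxmod hF hK hr
  have e3 : ∫ ζ : Sph n, P (r • (ζ : V n)) * b ζ ∂sig n =
      ((∫ ζ : Sph n, ‖P (r • (ζ : V n))‖ ∂sig n : ℝ) : ℂ) := by
    rw [← integral_complex_ofReal]
    congr 1; ext ζ
    rw [hb]
    simp only
    by_cases h0 : P (r • (ζ : V n)) = 0
    · rw [h0]; simp
    · have h1 : (‖P (r • (ζ : V n))‖ : ℂ) ≠ 0 := by
        simpa using h0
      rw [mul_div_assoc', Complex.mul_conj, Complex.normSq_eq_norm_sq, div_eq_iff h1]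
      push_cast
      ring
  rw [e3, Complex.norm_real, Real.norm_of_nonneg (integral_nonneg fun _ => norm_nonneg _)] at h
  exact h

lemma Good.l2 {x : Sph n → ℂ} (hx : Good x) {r : ℂ} (hr : ‖r‖ < 1) :
    ∫ ζ : Sph n, ‖cext x (r • (ζ : V n))‖ ^ 2 ∂sig n ≤ ∫ ζ, ‖x ζ‖ ^ 2 ∂sig n := by
  obtain ⟨P, hP1, hP2, hP3, hP4⟩ := hx
  have e1 : ∫ ζ : Sph n, ‖cext x (r • (ζ : V n))‖ ^ 2 ∂sig n =
      ∫ ζ : Sph n, ‖P (r • (ζ : V n))‖ ^ 2 ∂sig n := by
    congr 1; ext ζ
    rw [hP3 _ (by rw [norm_smul_sph]; exact hr)]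
  have e2 : ∫ ζ, ‖x ζ‖ ^ 2 ∂sig n = ∫ ζ : Sph n, ‖P ζ‖ ^ 2 ∂sig n := by
    refine integral_congr_ae ?_
    filter_upwards [hP2] with ζ hζ
    rw [hζ]
  rw [e1, e2]
  set b : Sph n → ℂ := fun ζ => (starRingEnd ℂ) (P (r • (ζ : V n))) with hb
  have hbc : Continuous b := by
    rw [hb]
    exact Complex.continuous_conj.comp (by fun_prop)
  have hb1 : ∃ C : ℝ, ∀ ζ, ‖b ζ‖ ≤ C := by
    obtain ⟨C, hC⟩ := IsCompact.exists_bound_of_continuousOn (isCompact_univ (X := Sph n))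
      hbc.continuousOn
    exact ⟨C, fun ζ => hC ζ (mem_univ _)⟩
  have hF := hP4 b hbc.measurable hb1
  set A := ∫ ζ : Sph n, ‖P ζ‖ ^ 2 ∂sig n with hA
  set B := ∫ ζ : Sph n, ‖P (r • (ζ : V n))‖ ^ 2 ∂sig n with hB
  have hK : ∀ lam : ℂ, ‖lam‖ = 1 →
      ‖∫ ζ : Sph n, P (lam • (ζ : V n)) * b ζ ∂sig n‖ ≤ 1 / 2 * A + 1 / 2 * B := by
    intro lam hlam
    rw [hA, ← integral_rot (F := fun z => ‖P z‖ ^ 2) (hP1.norm.pow 2) hlam, hB]
    refine (norm_integral_le_integral_norm _).trans ?_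
    rw [← integral_const_mul, ← integral_const_mul, ← integral_add]
    · refine integral_mono (integrable_cont_mul (P := fun ζ : Sph n => P (lam • (ζ : V n)))
        (by fun_prop) hbc.measurable hb1).norm ?_ (fun ζ => ?_)
      · exact integrable_real (by fun_prop)
      · simp only [norm_mul, hb, RCLike.norm_conj]
        nlinarith [sq_nonneg (‖P (lam • (ζ : V n))‖ - ‖P (r • (ζ : V n))‖)]
    · exact integrable_real (by fun_prop)
    · exact integrable_real (by fun_prop)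
  have h := maxmod hF hK hr
  have e3 : ∫ ζ : Sph n, P (r • (ζ : V n)) * b ζ ∂sig n = ((B : ℝ) : ℂ) := by
    rw [hB, ← integral_complex_ofReal]
    congr 1; ext ζ
    rw [hb]
    simp only
    rw [Complex.mul_conj, Complex.normSq_eq_norm_sq]
  have hB0 : 0 ≤ B := integral_nonneg fun _ => by positivity
  rw [e3, Complex.norm_real, Real.norm_of_nonneg hB0] at h
  linarith

end Pool.Agent.MP28b1a7
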