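import Pool.Agent.Lib.MP_28b1a7_an.BallLim

/-! Slices as elements of `L^2`: contraction and convergence on the Hardy space. -/

namespace Pool.Agent.MP28b1a7

open MeasureTheory Set Filter Topology
open scoped InnerProductSpace ENNReal NNReal

set_option linter.unusedSectionVars false

variable {n : ℕ} [NeZero n]

/-- the `L^1` norm -/
noncomputable def N1L (x : Lp ℂ 2 (sig n)) : ℝ := ∫ ζ, ‖x ζ‖ ∂sig n

lemma N1L_nonneg (x : Lp ℂ 2 (sig n)) : 0 ≤ N1L x := integral_nonneg fun _ => norm_nonneg _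

lemma N1L_add (x y : Lp ℂ 2 (sig n)) : N1L (x + y) ≤ N1L x + N1L y := by
  unfold N1L
  rw [← integral_add (lp_integrable x).norm (lp_integrable y).norm]
  refine integral_mono_ae (lp_integrable _).norm
    ((lp_integrable x).norm.add (lp_integrable y).norm) ?_
  filter_upwards [Lp.coeFn_add x y] with ζ hζ
  rw [hζ]
  exact norm_add_le _ _

lemma N1L_neg (x : Lp ℂ 2 (sig n)) : N1L (-x) = N1L x := by
  unfold N1L
  refine integral_congr_ae ?_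
  filter_upwards [Lp.coeFn_neg x] with ζ hζ
  rw [hζ]
  simp

lemma N1L_sub (x y : Lp ℂ 2 (sig n)) : N1L (x - y) ≤ N1L x + N1L y := by
  rw [sub_eq_add_neg, ← N1L_neg y]
  exact N1L_add _ _

lemma norm_sq_eq (x : Lp ℂ 2 (sig n)) : ‖x‖ ^ 2 = ∫ ζ, ‖x ζ‖ ^ 2 ∂sig n := by
  have h1 : ⟪x, x⟫_ℂ = ((∫ ζ, ‖x ζ‖ ^ 2 ∂sig n : ℝ) : ℂ) := by
    rw [L2.inner_def, ← integral_complex_ofReal]
    congr 1; ext ζ
    rw [inner_self_eq_norm_sq_to_K]
    push_cast; rfl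
  have h2 := inner_self_eq_norm_sq_to_K (𝕜 := ℂ) x
  rw [h1] at h2
  have h3 : ((∫ ζ, ‖x ζ‖ ^ 2 ∂sig n : ℝ) : ℂ) = ((‖x‖ ^ 2 : ℝ) : ℂ) := by
    rw [h2]; push_cast; rfl
  exact (Complex.ofReal_injective h3).symm

lemma N1L_le (x : Lp ℂ 2 (sig n)) : N1L x ≤ ‖x‖ := by
  unfold N1L
  rw [integral_norm_eq_lintegral_enorm (lp_integrable x).aestronglyMeasurable,
    ← eLpNorm_one_eq_lintegral_enorm, Lp.norm_def]
  refine ENNReal.toReal_mono (Lp.eLpNorm_ne_top x) ?_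
  exact eLpNorm_le_eLpNorm_of_exponent_le (by norm_num) (Lp.aestronglyMeasurable x)

lemma norm_le_of_bound (x : Lp ℂ 2 (sig n)) {C : ℝ} (hC : 0 ≤ C) (h : ∀ᵐ ζ ∂sig n, ‖x ζ‖ ≤ C) :
    ‖x‖ ≤ C := by
  have := Lp.norm_le_of_ae_bound hC h
  simpa [measureUnivNNReal] using this

lemma ofReal_norm_lt {r : ℝ} (h : |r| < 1) : ‖(r : ℂ)‖ < 1 := by simpa using h

lemma memLp_slice (x : Lp ℂ 2 (sig n)) {r : ℝ} (h : |r| < 1) :
    MemLp (fun ζ : Sph n => cext x ((r : ℂ) • (ζ : V n))) 2 (sig n) := by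
  have hc := continuous_slice (lp_integrable x) (ofReal_norm_lt h)
  obtain ⟨C, hC⟩ := IsCompact.exists_bound_of_continuousOn (isCompact_univ (X := Sph n))
    hc.continuousOn
  exact MemLp.of_bound hc.aestronglyMeasurable C (ae_of_all _ fun ζ => hC ζ (mem_univ _))

open Classical in
/-- slices -/
noncomputable def TT (r : ℝ) (x : Lp ℂ 2 (sig n)) : Lp ℂ 2 (sig n) :=
  if h : |r| < 1 then (memLp_slice x h).toLp else 0

lemma TT_coe {r : ℝ} (h : |r| < 1) (x : Lp ℂ 2 (sig n)) :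
    TT r x =ᵐ[sig n] fun ζ : Sph n => cext x ((r : ℂ) • (ζ : V n)) := by
  unfold TT
  rw [dif_pos h]
  exact MemLp.coeFn_toLp _

lemma cext_lp_add (x y : Lp ℂ 2 (sig n)) {z : V n} (hz : ‖z‖ < 1) :
    cext (x + y : Lp ℂ 2 (sig n)) z = cext x z + cext y z := by
  rw [cext_congr (Lp.coeFn_add x y)]
  exact cext_add (lp_integrable x) (lp_integrable y) hz

lemma cext_lp_smul (a : ℂ) (x : Lp ℂ 2 (sig n)) (z : V n) :
    cext (a • x : Lp ℂ 2 (sig n)) z = a * cext x z := by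
  rw [cext_congr (Lp.coeFn_smul a x)]
  exact cext_smul a _ z

lemma cext_lp_sub (x y : Lp ℂ 2 (sig n)) {z : V n} (hz : ‖z‖ < 1) :
    cext (x - y : Lp ℂ 2 (sig n)) z = cext x z - cext y z := by
  have h : x - y = x + (-1 : ℂ) • y := by simp [sub_eq_add_neg]
  rw [h, cext_lp_add _ _ hz, cext_lp_smul]
  ring

lemma cext_lp_zero (z : V n) : cext (0 : Lp ℂ 2 (sig n)) z = 0 := by
  rw [cext_congr (Lp.coeFn_zero ℂ 2 (sig n))]
  unfold cext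
  simp

lemma cext_lp_sum {ι : Type*} (s : Finset ι) (f : ι → Lp ℂ 2 (sig n)) {z : V n} (hz : ‖z‖ < 1) :
    cext (∑ i ∈ s, f i : Lp ℂ 2 (sig n)) z = ∑ i ∈ s, cext (f i) z := by
  classical
  induction s using Finset.induction_on with
  | empty => simpa using cext_lp_zero z
  | insert a s ha ih => rw [Finset.sum_insert ha, Finset.sum_insert ha, cext_lp_add _ _ hz, ih]

lemma smul_lt {r : ℝ} (h : |r| < 1) (ζ : Sph n) : ‖(r : ℂ) • (ζ : V n)‖ < 1 := by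
  rw [norm_smul_sph]; exact ofReal_norm_lt h

lemma TT_sub {r : ℝ} (x y : Lp ℂ 2 (sig n)) : TT r (x - y) = TT r x - TT r y := by
  by_cases h : |r| < 1
  · refine Lp.ext ?_
    filter_upwards [TT_coe h (x - y), TT_coe h x, TT_coe h y, Lp.coeFn_sub (TT r x) (TT r y)] with
      ζ h1 h2 h3 h4
    rw [h1, h4, Pi.sub_apply, h2, h3, cext_lp_sub _ _ (smul_lt h ζ)]
  · unfold TT
    rw [dif_neg h, dif_neg h, dif_neg h, sub_zero]

lemma norm_TT_le {r : ℝ} (h : |r| < 1) (x : Lp ℂ 2 (sig n)) :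
    ‖TT r x‖ ≤ ((1 - |r|) ^ n)⁻¹ * ‖x‖ := by
  have h0 : 0 < 1 - |r| := by linarith
  refine norm_le_of_bound _ (by positivity) ?_
  filter_upwards [TT_coe h x] with ζ hζ
  rw [hζ]
  refine (norm_cext_le (lp_integrable x) (smul_lt h ζ)).trans ?_
  have e : ‖(r : ℂ) • (ζ : V n)‖ = |r| := by
    rw [norm_smul_sph]; simp
  rw [e]
  exact mul_le_mul_of_nonneg_left (N1L_le x) (by positivity)

lemma Good.TT_norm {x : Lp ℂ 2 (sig n)} (hx : Good (x : Sph n → ℂ)) {r : ℝ} (h : |r| < 1) :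
    ‖TT r x‖ ≤ ‖x‖ := by
  have h1 := hx.l2 (ofReal_norm_lt h)
  rw [← norm_sq_eq] at h1
  have h2 : ‖TT r x‖ ^ 2 ≤ ‖x‖ ^ 2 := by
    rw [norm_sq_eq]
    refine le_trans (le_of_eq ?_) h1
    refine integral_congr_ae ?_
    filter_upwards [TT_coe h x] with ζ hζ
    rw [hζ]
  exact (pow_le_pow_iff_left₀ (norm_nonneg _) (norm_nonneg _) two_ne_zero).1 h2

lemma N1L_TT {x : Lp ℂ 2 (sig n)} {r : ℝ} (h : |r| < 1) :
    N1L (TT r x) = ∫ ζ : Sph n, ‖cext x ((r : ℂ) • (ζ : V n))‖ ∂sig n := by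
  unfold N1L
  refine integral_congr_ae ?_
  filter_upwards [TT_coe h x] with ζ hζ
  rw [hζ]

lemma Good.N1L_TT_le {x : Lp ℂ 2 (sig n)} (hx : Good (x : Sph n → ℂ)) {r : ℝ} (h : |r| < 1) :
    N1L (TT r x) ≤ N1L x := by
  rw [N1L_TT h]
  exact hx.l1 (ofReal_norm_lt h)

lemma exists_good {x : Lp ℂ 2 (sig n)} (hx : x ∈ H2 n) {ε : ℝ} (hε : 0 < ε) :
    ∃ y : Lp ℂ 2 (sig n), Good (y : Sph n → ℂ) ∧ ‖x - y‖ < ε ∧ y ∈ H2 n := by
  have h1 : x ∈ closure ((Submodule.span ℂ {f | ∃ (k : ℕ) (v : V n), f =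
    ContinuousMap.toLp 2 (sig n) ℂ (mono k v)} : Submodule ℂ (Lp ℂ 2 (sig n))) : Set _) := hx
  obtain ⟨y, hy, hxy⟩ := Metric.mem_closure_iff.1 h1 ε hε
  exact ⟨y, good_span hy, by rwa [dist_eq_norm] at hxy,
    Submodule.le_topologicalClosure _ hy⟩

lemma H2_TT_norm {x : Lp ℂ 2 (sig n)} (hx : x ∈ H2 n) {r : ℝ} (h : |r| < 1) :
    ‖TT r x‖ ≤ ‖x‖ := by
  have h0 : 0 < 1 - |r| := by linarith
  set K := ((1 - |r|) ^ n)⁻¹ with hK
  have hK0 : 0 < K := by positivity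
  refine le_of_forall_pos_le_add (fun ε hε => ?_)
  obtain ⟨y, hy, hxy, -⟩ := exists_good hx (ε := ε / (K + 1)) (by positivity)
  have h1 : TT r x = TT r (x - y) + TT r y := by rw [TT_sub]; abel
  have h2 : ‖y‖ ≤ ‖x‖ + ‖x - y‖ := by
    have := norm_sub_norm_le y x
    rw [norm_sub_rev] at this
    linarith
  calc ‖TT r x‖ ≤ ‖TT r (x - y)‖ + ‖TT r y‖ := by rw [h1]; exact norm_add_le _ _
    _ ≤ K * ‖x - y‖ + (‖x‖ + ‖x - y‖) := add_le_add (norm_TT_le h _) ((hy.TT_norm h).trans h2)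
    _ = ‖x‖ + (K + 1) * ‖x - y‖ := by ring
    _ ≤ ‖x‖ + (K + 1) * (ε / (K + 1)) := by gcongr
    _ = ‖x‖ + ε := by field_simp

lemma H2_TT_N1L {x : Lp ℂ 2 (sig n)} (hx : x ∈ H2 n) {r : ℝ} (h : |r| < 1) :
    N1L (TT r x) ≤ N1L x := by
  have h0 : 0 < 1 - |r| := by linarith
  set K := ((1 - |r|) ^ n)⁻¹ with hK
  have hK0 : 0 < K := by positivity
  refine le_of_forall_pos_le_add (fun ε hε => ?_)
  obtain ⟨y, hy, hxy, -⟩ := exists_good hx (ε := ε / (K + 1)) (by positivity)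
  have h1 : TT r x = TT r (x - y) + TT r y := by rw [TT_sub]; abel
  have h2 : N1L y ≤ N1L x + ‖x - y‖ := by
    have h3 : y = x - (x - y) := by abel
    calc N1L y = N1L (x - (x - y)) := by rw [← h3]
      _ ≤ N1L x + N1L (x - y) := N1L_sub _ _
      _ ≤ _ := by gcongr; exact N1L_le _
  calc N1L (TT r x) ≤ N1L (TT r (x - y)) + N1L (TT r y) := by rw [h1]; exact N1L_add _ _
    _ ≤ K * ‖x - y‖ + (N1L x + ‖x - y‖) :=
        add_le_add ((N1L_le _).trans (norm_TT_le h _)) ((hy.N1L_TT_le h).trans h2)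
    _ = N1L x + (K + 1) * ‖x - y‖ := by ring
    _ ≤ N1L x + (K + 1) * (ε / (K + 1)) := by gcongr
    _ = N1L x + ε := by field_simp

lemma eventually_Ioo : ∀ᶠ r : ℝ in 𝓝[<] 1, r ∈ Ioo (0 : ℝ) 1 := by
  exact Ioo_mem_nhdsLT (by norm_num)

lemma Good.tendsto {x : Lp ℂ 2 (sig n)} (hx : Good (x : Sph n → ℂ)) :
    Tendsto (fun r : ℝ => ‖TT r x - x‖ ^ 2) (𝓝[<] 1) (𝓝 0) := by
  obtain ⟨P, hP1, hP2, hP3, hP4⟩ := hx
  set F : ℝ → ℝ := fun r => ∫ ζ : Sph n, ‖P ((r : ℂ) • (ζ : V n)) - P ζ‖ ^ 2 ∂sig n with hF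
  have hc : Continuous F := by
    have h := continuous_parametric_integral_of_continuous (μ := sig n)
      (f := fun (r : ℝ) (ζ : Sph n) => ‖P ((r : ℂ) • (ζ : V n)) - P ζ‖ ^ 2)
      (by unfold Function.uncurry; fun_prop) (s := univ) isCompact_univ
    simpa only [Measure.restrict_univ] using h
  have h1 : F 1 = 0 := by rw [hF]; simp
  have h2 : Tendsto F (𝓝[<] 1) (𝓝 0) := by
    rw [← h1]
    exact (hc.tendsto 1).mono_left nhdsWithin_le_nhds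
  refine h2.congr' ?_
  filter_upwards [eventually_Ioo] with r hr
  have hr1 : |r| < 1 := by rw [abs_of_pos hr.1]; exact hr.2
  rw [hF, norm_sq_eq]
  refine integral_congr_ae ?_
  filter_upwards [TT_coe hr1 x, hP2, Lp.coeFn_sub (TT r x) x] with ζ h3 h4 h5
  rw [h5, Pi.sub_apply, h3, h4, hP3 _ (smul_lt hr1 ζ)]

lemma H2_tendsto {x : Lp ℂ 2 (sig n)} (hx : x ∈ H2 n) :
    Tendsto (fun r : ℝ => TT r x) (𝓝[<] 1) (𝓝 x) := by
  rw [Metric.tendsto_nhds]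
  intro ε hε
  obtain ⟨y, hy, hxy, hyH2⟩ := exists_good hx (ε := ε / 4) (by positivity)
  have hyH : x - y ∈ H2 n := Submodule.sub_mem _ hx hyH2
  have h1 := (hy.tendsto).eventually (gt_mem_nhds (show (0 : ℝ) < (ε / 4) ^ 2 by positivity))
  filter_upwards [h1, eventually_Ioo] with r hr1 hr2
  have hr3 : |r| < 1 := by rw [abs_of_pos hr2.1]; exact hr2.2
  rw [dist_eq_norm]
  have h2 : TT r x - x = TT r (x - y) + (TT r y - y) - (x - y) := by rw [TT_sub]; abel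
  have h3 : ‖TT r y - y‖ < ε / 4 := lt_of_pow_lt_pow_left₀ 2 (by positivity) hr1
  have h4 := H2_TT_norm hyH hr3
  calc ‖TT r x - x‖ ≤ ‖TT r (x - y) + (TT r y - y)‖ + ‖x - y‖ := by rw [h2]; exact norm_sub_le _ _
    _ ≤ ‖TT r (x - y)‖ + ‖TT r y - y‖ + ‖x - y‖ := by gcongr; exact norm_add_le _ _
    _ < ε := by linarith

lemma N1L_le_of_slices {x : Lp ℂ 2 (sig n)} (hx : x ∈ H2 n) {K : ℝ}
    (hK : ∀ r ∈ Ioo (0 : ℝ) 1, ∫ ζ : Sph n, ‖cext x ((r : ℂ) • (ζ : V n))‖ ∂sig n ≤ K) :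
    N1L x ≤ K := by
  have h1 : Tendsto (fun r : ℝ => ‖x - TT r x‖) (𝓝[<] 1) (𝓝 0) := by
    have := (tendsto_const_nhds (x := x)).sub (H2_tendsto hx)
    simpa using this.norm
  have h2 : Tendsto (fun r : ℝ => ‖x - TT r x‖ + K) (𝓝[<] 1) (𝓝 (0 + K)) := h1.add_const K
  rw [zero_add] at h2
  refine ge_of_tendsto h2 ?_
  filter_upwards [eventually_Ioo] with r hr
  have hr1 : |r| < 1 := by rw [abs_of_pos hr.1]; exact hr.2
  have h3 := hK r hr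
  rw [← N1L_TT hr1] at h3
  calc N1L x = N1L ((x - TT r x) + TT r x) := by rw [sub_add_cancel]
    _ ≤ N1L (x - TT r x) + N1L (TT r x) := N1L_add _ _
    _ ≤ _ := add_le_add (N1L_le _) h3

lemma slices_le_N1L {x : Lp ℂ 2 (sig n)} (hx : x ∈ H2 n) {r : ℝ} (hr : r ∈ Ioo (0 : ℝ) 1) :
    ∫ ζ : Sph n, ‖cext x ((r : ℂ) • (ζ : V n))‖ ∂sig n ≤ N1L x := by
  have hr1 : |r| < 1 := by rw [abs_of_pos hr.1]; exact hr.2
  rw [← N1L_TT hr1]
  exact H2_TT_N1L hx hr1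

lemma slices_sq_le {x : Lp ℂ 2 (sig n)} (hx : x ∈ H2 n) {r : ℝ} (hr : r ∈ Ioo (0 : ℝ) 1) :
    ∫ ζ : Sph n, ‖cext x ((r : ℂ) • (ζ : V n))‖ ^ 2 ∂sig n ≤ ‖x‖ ^ 2 := by
  have hr1 : |r| < 1 := by rw [abs_of_pos hr.1]; exact hr.2
  have h1 := H2_TT_norm hx hr1
  have h2 : ∫ ζ : Sph n, ‖cext x ((r : ℂ) • (ζ : V n))‖ ^ 2 ∂sig n = ‖TT r x‖ ^ 2 := by
    rw [norm_sq_eq]
    refine integral_congr_ae ?_
    filter_upwards [TT_coe hr1 x] with ζ hζ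
    rw [hζ]
  rw [h2]
  exact pow_le_pow_left₀ (norm_nonneg _) h1 2

lemma slices_inner {x y : Lp ℂ 2 (sig n)} (hx : x ∈ H2 n) (hy : y ∈ H2 n) :
    Tendsto (fun r : ℝ => ∫ ζ : Sph n, cext x ((r : ℂ) • (ζ : V n)) *
      star (cext y ((r : ℂ) • (ζ : V n))) ∂sig n) (𝓝[<] 1) (𝓝 ⟪y, x⟫_ℂ) := by
  have h1 := (H2_tendsto hy).inner (𝕜 := ℂ) (H2_tendsto hx)
  refine h1.congr' ?_
  filter_upwards [eventually_Ioo] with r hr
  have hr1 : |r| < 1 := by rw [abs_of_pos hr.1]; exact hr.2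
  rw [L2.inner_def]
  refine integral_congr_ae ?_
  filter_upwards [TT_coe hr1 x, TT_coe hr1 y] with ζ h2 h3
  rw [h2, h3]
  simp [RCLike.inner_apply]

end Pool.Agent.MP28b1a7
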