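import Pool.Agent.Lib.MP_28b1a7_an.Abs2

/-! Coordinates and cut-offs for the square function norm of sequences. -/

namespace Pool.Agent.MP28b1a7

open MeasureTheory Set Filter Topology
open scoped InnerProductSpace ENNReal NNReal

variable {G : ℕ}

lemma coord_le (hG : 0 < G) (i : Idx G) :
    ∃ K : ℝ, 0 ≤ K ∧ ∀ c : DD G, ‖c i‖ ≤ K * (ND (c : Idx G → ℂ)).toReal := by
  obtain ⟨⟨t, m⟩, h⟩ := i
  simp only at h
  have hGt : (0 : ℝ) < (G : ℝ) ^ t := pow_pos (by exact_mod_cast hG) t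
  have hm : ((m : ℝ) + 1) / (G : ℝ) ^ t ≤ 1 := by
    rw [div_le_one hGt]
    exact_mod_cast h
  refine ⟨(G : ℝ) ^ t, hGt.le, fun c => ?_⟩
  set S : Set ℝ := Ico ((m : ℝ) / (G : ℝ) ^ t) (((m : ℝ) + 1) / (G : ℝ) ^ t) with hS
  have hSsub : S ⊆ Ico (0 : ℝ) 1 := by
    intro x hx
    exact ⟨le_trans (by positivity) hx.1, hx.2.trans_le hm⟩
  have hvol : volume S = ENNReal.ofReal (1 / (G : ℝ) ^ t) := by
    rw [hS, Real.volume_Ico]
    congr 1
    ring
  have hlow : ∀ x ∈ S, ‖(c : Idx G → ℂ) ⟨(t, m), h⟩‖ₑ ≤ sqf (lvl (c : Idx G → ℂ)) x := by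
    intro x hx
    refine le_trans ?_ (le_sqf _ x t)
    have hfl : ⌊x * (G : ℝ) ^ t⌋₊ = m := by
      rw [Nat.floor_eq_iff (by
        have : 0 ≤ x := (hSsub hx).1
        positivity)]
      have h1 := hx.1
      have h2 := hx.2
      rw [div_le_iff₀ hGt] at h1
      rw [lt_div_iff₀ hGt] at h2
      exact ⟨h1, h2⟩
    unfold lvl
    rw [hfl]
    unfold co
    rw [dif_pos h]
    have h1 : (1 : ℝ≥0∞) ≤ ((G : ℝ≥0∞) ^ t) ^ (1 / 2 : ℝ) := by
      refine ENNReal.one_le_rpow ?_ (by norm_num)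
      exact one_le_pow₀ (by exact_mod_cast hG)
    calc ‖(c : Idx G → ℂ) ⟨(t, m), h⟩‖ₑ = 1 * ‖(c : Idx G → ℂ) ⟨(t, m), h⟩‖ₑ := (one_mul _).symm
      _ ≤ _ := by gcongr
  have hND : ‖(c : Idx G → ℂ) ⟨(t, m), h⟩‖ₑ * ENNReal.ofReal (1 / (G : ℝ) ^ t) ≤
      ND (c : Idx G → ℂ) := by
    unfold ND
    calc ‖(c : Idx G → ℂ) ⟨(t, m), h⟩‖ₑ * ENNReal.ofReal (1 / (G : ℝ) ^ t)
        = ∫⁻ _ in S, ‖(c : Idx G → ℂ) ⟨(t, m), h⟩‖ₑ := by
          rw [setLIntegral_const, hvol]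
      _ ≤ ∫⁻ x in S, sqf (lvl (c : Idx G → ℂ)) x :=
          setLIntegral_mono' (by rw [hS]; exact measurableSet_Ico) hlow
      _ ≤ ∫⁻ x in Ico (0 : ℝ) 1, sqf (lvl (c : Idx G → ℂ)) x :=
          lintegral_mono_set hSsub
  have h2 := ENNReal.toReal_mono (ND_ne_top hG c) hND
  rw [ENNReal.toReal_mul, toReal_enorm, ENNReal.toReal_ofReal (by positivity)] at h2
  rw [mul_one_div, div_le_iff₀ hGt] at h2
  linarith

/-- finite parts of sequences -/
noncomputable def cut (e : ℕ ≃ Idx G) (s : Finset ℕ) (a : ℕ → ℂ) : DD G :=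
  ∑ k ∈ s, a k • lp.single 2 (e k) (1 : ℂ)

lemma single_smul (e : ℕ ≃ Idx G) (k : ℕ) (a : ℂ) :
    a • (lp.single 2 (e k) (1 : ℂ) : DD G) = lp.single 2 (e k) a := by
  ext j
  rw [lp.coeFn_smul, Pi.smul_apply, lp.single_apply, lp.single_apply]
  by_cases h : j = e k
  · subst h; simp
  · simp [h]

lemma cut_coord (e : ℕ ≃ Idx G) (s : Finset ℕ) (a : ℕ → ℂ) (j : ℕ) :
    (cut e s a) (e j) = if j ∈ s then a j else 0 := by
  unfold cut
  rw [lp.coeFn_sum, Finset.sum_apply]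
  have h1 : ∀ k ∈ s, ((a k • lp.single 2 (e k) (1 : ℂ) : DD G) : Idx G → ℂ) (e j) =
      if j = k then a j else 0 := by
    intro k _
    rw [single_smul, lp.single_apply]
    by_cases h : j = k
    · subst h; simp
    · have h2 : e j ≠ e k := fun h3 => h (e.injective h3)
      simp [h, h2]
  rw [Finset.sum_congr rfl h1, Finset.sum_ite_eq]

lemma cut_sub (e : ℕ ≃ Idx G) (s : Finset ℕ) (a b : ℕ → ℂ) :
    cut e s (fun k => a k - b k) = cut e s a - cut e s b := by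
  unfold cut
  rw [← Finset.sum_sub_distrib]
  simp only [sub_smul]

lemma norm_cut_le (e : ℕ ≃ Idx G) (s : Finset ℕ) (a : ℕ → ℂ) :
    ‖cut e s a‖ ≤ ∑ k ∈ s, ‖a k‖ := by
  unfold cut
  refine (norm_sum_le _ _).trans (Finset.sum_le_sum fun k _ => ?_)
  rw [norm_smul, lp.norm_single (by norm_num)]
  simp

lemma ND_cut_le (hG : 0 < G) (e : ℕ ≃ Idx G) (s : Finset ℕ) (c : DD G) :
    (ND ((cut e s (fun k => c (e k)) : DD G) : Idx G → ℂ)).toReal ≤
      (ND (c : Idx G → ℂ)).toReal := by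
  refine ENNReal.toReal_mono (ND_ne_top hG c) (ND_mono fun i => ?_)
  obtain ⟨j, rfl⟩ := e.surjective i
  rw [cut_coord]
  split_ifs
  · exact le_rfl
  · simp

lemma tendsto_cut (e : ℕ ≃ Idx G) (c : DD G) :
    Tendsto (fun s : Finset ℕ => cut e s (fun k => c (e k))) atTop (𝓝 c) := by
  have h1 := lp.hasSum_single (p := 2) (by norm_num) c
  have h2 := (e.hasSum_iff).2 h1
  have h3 : (fun s : Finset ℕ => cut e s (fun k => c (e k))) =
      fun s : Finset ℕ => ∑ k ∈ s, ((fun i => (lp.single 2 i (c i) : DD G)) ∘ e) k := by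
    ext1 s
    unfold cut
    refine Finset.sum_congr rfl (fun k _ => ?_)
    rw [single_smul]
    rfl
  rw [h3]
  exact h2

lemma exists_enum (hG : 2 ≤ G) : Nonempty (ℕ ≃ Idx G) := by
  have : Infinite (Idx G) := by
    refine Infinite.of_injective (fun t : ℕ => (⟨(t, 0), by positivity⟩ : Idx G)) ?_
    intro a b h
    have := congrArg (fun i : Idx G => i.1.1) h
    simpa using this
  exact nonempty_equiv_of_countable

end Pool.Agent.MP28b1a7
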