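import Pool.Agent.Lib.MP_28b1a7_an.BallConv
import Pool.Agent.Lib.MP_28b1a7_an.BallND

/-! Existence and uniqueness of the expansions. -/

namespace Pool.Agent.MP28b1a7

open MeasureTheory Set Filter Topology
open scoped InnerProductSpace ENNReal NNReal

set_option linter.unusedSectionVars false

variable {n : ℕ} [NeZero n] {G : ℕ}

/-- `L^1` norm of a slice -/
noncomputable def Mr (g : V n → ℂ) (r : ℝ) : ℝ := ∫ ζ : Sph n, ‖g ((r : ℂ) • (ζ : V n))‖ ∂sig n

lemma Mr_nonneg (g : V n → ℂ) (r : ℝ) : 0 ≤ Mr g r := integral_nonneg fun _ => norm_nonneg _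

lemma slice_continuous {g : V n → ℂ} (hg : ContinuousOn g (Metric.ball 0 1)) {r : ℝ}
    (hr : r ∈ Ioo (0 : ℝ) 1) : Continuous fun ζ : Sph n => g ((r : ℂ) • (ζ : V n)) := by
  refine hg.comp_continuous (by fun_prop) (fun ζ => ?_)
  rw [mem_ball_zero_iff, norm_smul_sph]
  simpa [abs_of_pos hr.1] using hr.2

lemma slice_mem {r : ℝ} (hr : r ∈ Ioo (0 : ℝ) 1) (ζ : Sph n) : ‖(r : ℂ) • (ζ : V n)‖ < 1 := by
  rw [norm_smul_sph]
  simpa [abs_of_pos hr.1] using hr.2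

lemma Mr_congr {g h : V n → ℂ} {r : ℝ} (hr : r ∈ Ioo (0 : ℝ) 1)
    (hgh : ∀ z : V n, ‖z‖ < 1 → g z = h z) : Mr g r = Mr h r := by
  unfold Mr
  congr 1; ext ζ
  rw [hgh _ (slice_mem hr ζ)]

lemma Mr_add_le {g h : V n → ℂ} (hg : ContinuousOn g (Metric.ball 0 1))
    (hh : ContinuousOn h (Metric.ball 0 1)) {r : ℝ} (hr : r ∈ Ioo (0 : ℝ) 1) :
    Mr (fun z => g z + h z) r ≤ Mr g r + Mr h r := by
  unfold Mr
  have h1 := (integrable_of_continuous (slice_continuous hg hr)).norm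
  have h2 := (integrable_of_continuous (slice_continuous hh hr)).norm
  rw [← integral_add h1 h2]
  refine integral_mono ?_ (h1.add h2) (fun ζ => norm_add_le _ _)
  exact (integrable_of_continuous ((slice_continuous hg hr).add (slice_continuous hh hr))).norm

lemma Mr_neg (g : V n → ℂ) (r : ℝ) : Mr (fun z => - g z) r = Mr g r := by
  unfold Mr
  simp only [norm_neg]

lemma Mr_sub_le {g h : V n → ℂ} (hg : ContinuousOn g (Metric.ball 0 1))
    (hh : ContinuousOn h (Metric.ball 0 1)) {r : ℝ} (hr : r ∈ Ioo (0 : ℝ) 1) :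
    Mr (fun z => g z - h z) r ≤ Mr g r + Mr h r := by
  have h1 := Mr_add_le (h := fun z => - h z) hg hh.neg hr
  rw [Mr_neg] at h1
  simpa only [sub_eq_add_neg] using h1

/-- the function on the ball attached to a sequence -/
noncomputable def ff (U : DD G ≃ₗᵢ[ℂ] H2 n) (c : DD G) : V n → ℂ :=
  cext ((U c : Lp ℂ 2 (sig n)) : Sph n → ℂ)

lemma ff_cont (U : DD G ≃ₗᵢ[ℂ] H2 n) (c : DD G) : ContinuousOn (ff U c) (Metric.ball 0 1) :=
  (differentiableOn_cext (lp_integrable _)).continuousOn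

lemma ff_sub (U : DD G ≃ₗᵢ[ℂ] H2 n) (c d : DD G) {z : V n} (hz : ‖z‖ < 1) :
    ff U (c - d) z = ff U c z - ff U d z := by
  unfold ff
  rw [map_sub, Submodule.coe_sub]
  exact cext_lp_sub _ _ hz

lemma ff_cut (U : DD G ≃ₗᵢ[ℂ] H2 n) (e : ℕ ≃ Idx G) (s : Finset ℕ) (a : ℕ → ℂ) {z : V n}
    (hz : ‖z‖ < 1) :
    ff U (cut e s a) z = ∑ k ∈ s, a k * ff U (lp.single 2 (e k) (1 : ℂ)) z := by
  unfold ff cut
  rw [map_sum, Submodule.coe_sum, cext_lp_sum _ _ hz]
  refine Finset.sum_congr rfl (fun k _ => ?_)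
  rw [map_smul, Submodule.coe_smul, cext_lp_smul]

lemma Mr_ff_le (U : DD G ≃ₗᵢ[ℂ] H2 n) (c : DD G) {r : ℝ} (hr : r ∈ Ioo (0 : ℝ) 1) :
    Mr (ff U c) r ≤ N1L (U c : Lp ℂ 2 (sig n)) :=
  slices_le_N1L (U c).2 hr

lemma Mr_ff_norm (U : DD G ≃ₗᵢ[ℂ] H2 n) (c : DD G) {r : ℝ} (hr : r ∈ Ioo (0 : ℝ) 1) :
    Mr (ff U c) r ≤ ‖c‖ := by
  refine (Mr_ff_le U c hr).trans ((N1L_le _).trans (le_of_eq ?_))
  have h1 : ‖(U c : Lp ℂ 2 (sig n))‖ = ‖U c‖ := rfl
  rw [h1, U.norm_map]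

/-- the seminorm on sequences -/
noncomputable def nd (c : DD G) : ℝ := (ND (c : Idx G → ℂ)).toReal

lemma nd_add_le (hG : 0 < G) (c d : DD G) : nd (c + d) ≤ nd c + nd d := map_add_le_add (NDs hG) c d

lemma nd_le (hG : 0 < G) (c : DD G) : nd c ≤ ‖c‖ := NDs_le hG c

theorem exists_coeffs (hG : 2 ≤ G) (U : DD G ≃ₗᵢ[ℂ] H2 n) (C : ℝ) (hC : 0 ≤ C)
    (hU1 : ∀ c : DD G, N1L (U c : Lp ℂ 2 (sig n)) ≤ C * nd c)
    (hU2 : ∀ f : H2 n, nd (U.symm f) ≤ C * N1L (f : Lp ℂ 2 (sig n)))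
    (hD : ∀ f : V n → ℂ, DifferentiableOn ℂ f (Metric.ball 0 1) → ∀ K : ℝ,
      (∀ r ∈ Ioo (0 : ℝ) 1, ∫ ζ : Sph n, ‖f ((r : ℂ) • (ζ : V n))‖ ∂sig n ≤ K) →
      ∀ δ > 0, ∃ (M : ℕ) (p : Sph n → ℂ), Pol M p ∧ ∀ r ∈ Ioo (0 : ℝ) 1,
        ∫ ζ : Sph n, ‖f ((r : ℂ) • (ζ : V n)) -
          ∑ k ∈ Finset.range M, PP k p ((r : ℂ) • (ζ : V n))‖ ∂sig n ≤ δ)
    (e : ℕ ≃ Idx G) {f : V n → ℂ} (hf : DifferentiableOn ℂ f (Metric.ball 0 1)) {K : ℝ}
    (hK : ∀ r ∈ Ioo (0 : ℝ) 1, Mr f r ≤ K) :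
    ∃ a : ℕ → ℂ, ∀ ε > 0, ∃ s0 : Finset ℕ, ∀ s, s0 ⊆ s → ∀ r ∈ Ioo (0 : ℝ) 1,
      Mr (fun z => (∑ k ∈ s, a k * ff U (lp.single 2 (e k) (1 : ℂ)) z) - f z) r ≤ ε := by
  have hG0 : 0 < G := by omega
  have hfc := hf.continuousOn
  set δ : ℕ → ℝ := fun i => 1 / ((i : ℝ) + 1) with hδ
  have hδ0 : ∀ i, 0 < δ i := fun i => by rw [hδ]; positivity
  have hδt : Tendsto δ atTop (𝓝 0) := tendsto_one_div_add_atTop_nhds_zero_nat
  have hδa : ∀ i j, i ≤ j → δ j ≤ δ i := fun i j h => by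
    rw [hδ]; simp only
    apply one_div_le_one_div_of_le (by positivity)
    have : (i : ℝ) ≤ j := by exact_mod_cast h
    linarith
  choose M p hp hpr using fun i : ℕ => hD f hf K hK (δ i) (hδ0 i)
  -- the approximants in `L^2`
  set x : ℕ → Lp ℂ 2 (sig n) := fun i => (hp i).1.memLpB.toLp with hx
  have hxp : ∀ i, x i =ᵐ[sig n] p i := fun i => MemLp.coeFn_toLp _
  have hxH : ∀ i, x i ∈ H2 n := fun i => mem_H2_of_Pol (hp i) _ (hxp i)
  set c : ℕ → DD G := fun i => U.symm ⟨x i, hxH i⟩ with hc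
  have hUc : ∀ i, ((U (c i) : H2 n) : Lp ℂ 2 (sig n)) = x i := fun i => by
    rw [hc]; simp
  have hcext : ∀ i (z : V n), ‖z‖ < 1 → ff U (c i) z = ∑ k ∈ Finset.range (M i), PP k (p i) z := by
    intro i z hz
    unfold ff
    rw [hUc, cext_congr (hxp i), (hp i).cext_eq hz]
  have hap : ∀ i, ∀ r ∈ Ioo (0 : ℝ) 1, Mr (fun z => f z - ff U (c i) z) r ≤ δ i := by
    intro i r hr
    rw [Mr_congr hr (h := fun z => f z - ∑ k ∈ Finset.range (M i), PP k (p i) z)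
      (fun z hz => by rw [hcext i z hz])]
    exact hpr i r hr
  have hN : ∀ i j, N1L (x i - x j) ≤ δ i + δ j := by
    intro i j
    refine N1L_le_of_slices (Submodule.sub_mem _ (hxH i) (hxH j)) (fun r hr => ?_)
    have e1 : ∫ ζ : Sph n, ‖cext (x i - x j : Lp ℂ 2 (sig n)) ((r : ℂ) • (ζ : V n))‖ ∂sig n =
        Mr (fun z => (f z - ff U (c j) z) - (f z - ff U (c i) z)) r := by
      unfold Mr
      congr 1; ext ζ
      rw [cext_lp_sub _ _ (slice_mem hr ζ)]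
      unfold ff
      rw [hUc, hUc]
      congr 1
      ring
    rw [e1]
    refine (Mr_sub_le (g := fun z => f z - ff U (c j) z) (h := fun z => f z - ff U (c i) z)
      (hfc.sub (ff_cont U _)) (hfc.sub (ff_cont U _)) hr).trans ?_
    have h1 := hap i r hr
    have h2 := hap j r hr
    linarith
  have hnd : ∀ i j, nd (c i - c j) ≤ C * (δ i + δ j) := by
    intro i j
    have h1 := hU2 (⟨x i, hxH i⟩ - ⟨x j, hxH j⟩)
    rw [map_sub] at h1
    refine h1.trans (mul_le_mul_of_nonneg_left ?_ hC)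
    exact hN i j
  -- limits of the coordinates
  have hlim : ∀ k : ℕ, ∃ a : ℂ, Tendsto (fun i => c i (e k)) atTop (𝓝 a) := by
    intro k
    obtain ⟨Kk, hK0, hKk⟩ := coord_le hG0 (e k)
    refine cauchySeq_tendsto_of_complete ?_
    refine cauchySeq_of_le_tendsto_0 (fun N => Kk * (C * (2 * δ N))) ?_ ?_
    · intro i j N hi hj
      rw [dist_eq_norm]
      have h1 := hKk (c i - c j)
      have h2 : (c i - c j : DD G) (e k) = c i (e k) - c j (e k) := rfl
      rw [h2] at h1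
      refine h1.trans (mul_le_mul_of_nonneg_left ((hnd i j).trans ?_) hK0)
      refine mul_le_mul_of_nonneg_left ?_ hC
      have := hδa N i hi
      have := hδa N j hj
      linarith
    · have : Tendsto (fun N => Kk * (C * (2 * δ N))) atTop (𝓝 (Kk * (C * (2 * 0)))) :=
        ((hδt.const_mul 2).const_mul C).const_mul Kk
      simpa using this
  choose a ha using hlim
  refine ⟨a, ?_⟩
  -- estimate for the finite parts
  have hcut : ∀ (s : Finset ℕ) (i : ℕ), nd (cut e s a - cut e s (fun k => c i (e k))) ≤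
      C * δ i := by
    intro s i
    have h1 : ∀ j, nd (cut e s a - cut e s (fun k => c i (e k))) ≤
        (∑ k ∈ s, ‖a k - c j (e k)‖) + C * (δ j + δ i) := by
      intro j
      have e1 : cut e s a - cut e s (fun k => c i (e k)) =
          cut e s (fun k => a k - c j (e k)) + cut e s (fun k => (c j - c i : DD G) (e k)) := by
        have e2 : (fun k => (c j - c i : DD G) (e k)) = fun k => c j (e k) - c i (e k) := rfl
        rw [e2, cut_sub, cut_sub]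
        abel
      rw [e1]
      refine (nd_add_le hG0 _ _).trans (add_le_add ?_ ?_)
      · exact (nd_le hG0 _).trans (norm_cut_le e s _)
      · exact (ND_cut_le hG0 e s (c j - c i)).trans (hnd j i)
    have h2 : Tendsto (fun j => (∑ k ∈ s, ‖a k - c j (e k)‖) + C * (δ j + δ i)) atTop
        (𝓝 ((∑ k ∈ s, ‖a k - a k‖) + C * (0 + δ i))) := by
      refine Tendsto.add ?_ ((hδt.add_const _).const_mul C)
      refine tendsto_finsetSum _ (fun k _ => ?_)
      exact (tendsto_const_nhds.sub (ha k)).norm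
    have h3 := ge_of_tendsto' h2 h1
    simpa using h3
  intro ε hε
  -- choose `i`
  obtain ⟨i, hi⟩ : ∃ i, (C * C + 1) * δ i < ε / 2 := by
    have h1 : Tendsto (fun i => (C * C + 1) * δ i) atTop (𝓝 ((C * C + 1) * 0)) :=
      hδt.const_mul _
    rw [mul_zero] at h1
    exact (h1.eventually (gt_mem_nhds (by positivity : (0 : ℝ) < ε / 2))).exists
  have h1 := tendsto_cut e (c i)
  rw [Metric.tendsto_nhds] at h1
  obtain ⟨s0, hs0⟩ := Filter.eventually_atTop.1 (h1 (ε / 2) (by positivity))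
  refine ⟨s0, fun s hs r hr => ?_⟩
  have h2 := hs0 s hs
  rw [dist_eq_norm] at h2
  have e1 : Mr (fun z => (∑ k ∈ s, a k * ff U (lp.single 2 (e k) (1 : ℂ)) z) - f z) r =
      Mr (fun z => (ff U (cut e s a - cut e s (fun k => c i (e k))) z +
        ff U (cut e s (fun k => c i (e k)) - c i) z) - (f z - ff U (c i) z)) r := by
    refine Mr_congr hr (fun z hz => ?_)
    rw [← ff_cut U e s a hz, ff_sub U _ _ hz, ff_sub U _ _ hz]
    ring
  rw [e1]
  have h3 := Mr_sub_le (g := fun z => ff U (cut e s a - cut e s (fun k => c i (e k))) z +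
      ff U (cut e s (fun k => c i (e k)) - c i) z) (h := fun z => f z - ff U (c i) z)
    ((ff_cont U (cut e s a - cut e s (fun k => c i (e k)))).add
    (ff_cont U (cut e s (fun k => c i (e k)) - c i))) (hfc.sub (ff_cont U (c i))) hr
  have h4 := Mr_add_le (ff_cont U (cut e s a - cut e s (fun k => c i (e k))))
    (ff_cont U (cut e s (fun k => c i (e k)) - c i)) hr
  have h5 : Mr (ff U (cut e s a - cut e s (fun k => c i (e k)))) r ≤ C * (C * δ i) :=
    (Mr_ff_le U _ hr).trans ((hU1 _).trans (mul_le_mul_of_nonneg_left (hcut s i) hC))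
  have h6 := Mr_ff_norm U (cut e s (fun k => c i (e k)) - c i) hr
  have h7 := hap i r hr
  refine h3.trans ?_
  have h8 : Mr (fun z => ff U (cut e s a - cut e s (fun k => c i (e k))) z +
        ff U (cut e s (fun k => c i (e k)) - c i) z) r ≤ C * (C * δ i) + ε / 2 := by
    refine h4.trans (add_le_add h5 (h6.trans h2.le))
  nlinarith [h8, h7, hi]

theorem coeffs_unique (hG : 2 ≤ G) (U : DD G ≃ₗᵢ[ℂ] H2 n) (C : ℝ) (hC : 0 ≤ C)
    (hU2 : ∀ f : H2 n, nd (U.symm f) ≤ C * N1L (f : Lp ℂ 2 (sig n)))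
    (e : ℕ ≃ Idx G) {d : ℕ → ℂ} {ε : ℕ → ℝ} (hε : Tendsto ε atTop (𝓝 0))
    (hd : ∀ N, ∀ r ∈ Ioo (0 : ℝ) 1,
      Mr (fun z => ∑ k ∈ Finset.range N, d k * ff U (lp.single 2 (e k) (1 : ℂ)) z) r ≤ ε N) :
    ∀ k, d k = 0 := by
  have hG0 : 0 < G := by omega
  intro k
  obtain ⟨Kk, hK0, hKk⟩ := coord_le hG0 (e k)
  have h1 : ∀ᶠ N in atTop, ‖d k‖ ≤ Kk * (C * ε N) := by
    filter_upwards [eventually_gt_atTop k] with N hN
    have h2 := hKk (cut e (Finset.range N) d)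
    rw [cut_coord, if_pos (Finset.mem_range.2 hN)] at h2
    refine h2.trans (mul_le_mul_of_nonneg_left ?_ hK0)
    have h3 := hU2 (U (cut e (Finset.range N) d))
    rw [LinearIsometryEquiv.symm_apply_apply] at h3
    refine h3.trans (mul_le_mul_of_nonneg_left ?_ hC)
    refine N1L_le_of_slices (U _).2 (fun r hr => ?_)
    refine le_trans (le_of_eq ?_) (hd N r hr)
    unfold Mr
    congr 1; ext ζ
    simp only
    rw [← ff_cut U e _ _ (slice_mem hr ζ)]
    rfl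
  have h2 : Tendsto (fun N => Kk * (C * ε N)) atTop (𝓝 (Kk * (C * 0))) :=
    (hε.const_mul C).const_mul Kk
  have h3 := ge_of_tendsto h2 h1
  simpa using h3

end Pool.Agent.MP28b1a7
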