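import Pool.Agent.Lib.MP_28b1a7_an.BallExt

/-! Polynomials: projections, membership in the Hardy space. -/

namespace Pool.Agent.MP28b1a7

open MeasureTheory Set Filter Topology
open scoped InnerProductSpace ENNReal NNReal

set_option linter.unusedSectionVars false

variable {n : ℕ} [NeZero n]

lemma BM.integrableB {p : Sph n → ℂ} (hp : BM p) : Integrable p (sig n) := by
  obtain ⟨hm, C, hC⟩ := hp
  exact Integrable.of_bound hm.aestronglyMeasurable C (ae_of_all _ hC)

lemma BM.memLpB {p : Sph n → ℂ} (hp : BM p) : MemLp p 2 (sig n) := by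
  obtain ⟨hm, C, hC⟩ := hp
  exact MemLp.of_bound hm.aestronglyMeasurable C (ae_of_all _ hC)

lemma continuous_PP_sph {g : Sph n → ℂ} (hg : Integrable g (sig n)) (k : ℕ) :
    Continuous fun ζ : Sph n => PP k g ζ := by
  unfold PP
  refine continuous_const.mul ?_
  refine continuous_of_dominated (bound := fun ζ => ‖g ζ‖)
    (fun z => (integrable_ppker hg k z).aestronglyMeasurable) (fun z => ?_) hg.norm ?_
  · refine ae_of_all _ (fun ζ => ?_)
    rw [norm_mul, norm_pow]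
    have : ‖⟪(ζ : V n), (z : V n)⟫_ℂ‖ ^ k ≤ 1 := pow_le_one₀ (norm_nonneg _) (norm_inner_le_one ζ z)
    nlinarith [norm_nonneg (g ζ)]
  · refine ae_of_all _ (fun ζ => ?_)
    fun_prop

lemma integrable_prod_ker {g : Sph n → ℂ} (hg : Integrable g (sig n)) {h : Sph n → ℂ}
    (hh : Integrable h (sig n)) (k : ℕ) :
    Integrable (fun q : Sph n × Sph n => h q.1 * (⟪(q.2 : V n), (q.1 : V n)⟫_ℂ ^ k * g q.2))
      ((sig n).prod (sig n)) := by
  have h1 : Integrable (fun q : Sph n × Sph n => h q.1 * g q.2) ((sig n).prod (sig n)) :=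
    hh.mul_prod hg
  have h2 := h1.bdd_mul (c := 1) (f := fun q : Sph n × Sph n => ⟪(q.2 : V n), (q.1 : V n)⟫_ℂ ^ k)
    (by fun_prop) (ae_of_all _ (fun q => by
      rw [norm_pow]; exact pow_le_one₀ (norm_nonneg _) (norm_inner_le_one q.2 q.1)))
  refine h2.congr (ae_of_all _ fun q => ?_)
  simp only
  ring

lemma integral_PP {g : Sph n → ℂ} (hg : Integrable g (sig n)) {h : Sph n → ℂ}
    (hh : Integrable h (sig n)) (k : ℕ) :
    ∫ ζ : Sph n, h ζ * PP k g ζ ∂sig n =
      (cc n k : ℂ) * ∫ η : Sph n, g η * ∫ ζ : Sph n, h ζ * ⟪(η : V n), (ζ : V n)⟫_ℂ ^ k ∂sig n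
        ∂sig n := by
  unfold PP
  have e1 : ∀ ζ : Sph n, h ζ * ((cc n k : ℂ) * ∫ η : Sph n, ⟪(η : V n), (ζ : V n)⟫_ℂ ^ k * g η
      ∂sig n) = (cc n k : ℂ) * ∫ η : Sph n, h ζ * (⟪(η : V n), (ζ : V n)⟫_ℂ ^ k * g η) ∂sig n := by
    intro ζ
    rw [integral_const_mul]
    ring
  simp_rw [e1]
  rw [integral_const_mul, integral_integral_swap (integrable_prod_ker hg hh k)]
  congr 1
  congr 1
  ext η
  rw [← integral_const_mul]
  congr 1
  ext ζ
  ring

lemma PP_PP {g : Sph n → ℂ} (hg : Integrable g (sig n)) (k l : ℕ) (z : V n) :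
    PP l (fun ζ : Sph n => PP k g ζ) z = if k = l then PP k g z else 0 := by
  have h0 : PP l (fun ζ : Sph n => PP k g ζ) z =
      (cc n l : ℂ) * ∫ ζ : Sph n, ⟪(ζ : V n), z⟫_ℂ ^ l * PP k g ζ ∂sig n := rfl
  rw [h0, integral_PP hg (integrable_of_continuous (g := fun ζ : Sph n => ⟪(ζ : V n), z⟫_ℂ ^ l)
    (by fun_prop))]
  have e : ∀ η : Sph n, ∫ ζ : Sph n, ⟪(ζ : V n), z⟫_ℂ ^ l * ⟪(η : V n), (ζ : V n)⟫_ℂ ^ k ∂sig n =
      if k = l then ⟪(η : V n), z⟫_ℂ ^ k / (cc n k : ℂ) else 0 := by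
    intro η
    rw [← inner_pow_int]
    congr 1
    ext ζ
    ring
  simp_rw [e]
  split_ifs with hkl
  · subst hkl
    have hc : (cc n k : ℂ) ≠ 0 := by
      have : 0 < cc n k := Nat.choose_pos (by
        have := Nat.one_le_iff_ne_zero.2 (NeZero.ne n); omega)
      exact_mod_cast this.ne'
    unfold PP
    rw [← integral_const_mul, ← integral_const_mul, ← integral_const_mul]
    congr 1
    ext η
    field_simp
  · simp

lemma PP_sum_int {ι : Type*} (s : Finset ι) (f : ι → Sph n → ℂ) (hf : ∀ i ∈ s, Integrable (f i) (sig n))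
    (l : ℕ) (z : V n) : PP l (fun ζ => ∑ i ∈ s, f i ζ) z = ∑ i ∈ s, PP l (f i) z := by
  unfold PP
  simp_rw [Finset.mul_sum]
  rw [integral_finsetSum s (fun i hi => integrable_ppker (hf i hi) l z), Finset.mul_sum]

lemma Pol.PP_eq {M : ℕ} {p : Sph n → ℂ} (hp : Pol M p) (l : ℕ) (hl : M ≤ l) (z : V n) :
    PP l p z = 0 := by
  have hi := hp.1.integrableB
  have e : p = fun ζ : Sph n => ∑ k ∈ Finset.range M, PP k p ζ := by
    ext ζ; exact hp.2 ζ
  have h1 : PP l p z = PP l (fun ζ : Sph n => ∑ k ∈ Finset.range M, PP k p ζ) z := by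
    rw [← e]
  rw [h1, PP_sum_int _ _ (fun k _ => integrable_of_continuous (continuous_PP_sph hi k))]
  refine Finset.sum_eq_zero (fun k hk => ?_)
  rw [PP_PP hi, if_neg]
  have := Finset.mem_range.1 hk
  omega

lemma Pol.cext_eq {M : ℕ} {p : Sph n → ℂ} (hp : Pol M p) {z : V n} (hz : ‖z‖ < 1) :
    cext p z = ∑ k ∈ Finset.range M, PP k p z := by
  have h := hasSum_PP hp.1.integrableB hz
  have h2 : HasSum (fun k => PP k p z) (∑ k ∈ Finset.range M, PP k p z) :=
    hasSum_sum_of_ne_finset_zero (fun l hl => hp.PP_eq l (by simpa using hl) z)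
  exact h.unique h2

lemma mem_H2_of_Pol {M : ℕ} {p : Sph n → ℂ} (hp : Pol M p) (x : Lp ℂ 2 (sig n))
    (hx : x =ᵐ[sig n] p) : x ∈ H2 n := by
  have hi := hp.1.integrableB
  unfold H2
  rw [← Submodule.orthogonal_orthogonal (K := (Submodule.span ℂ {f | ∃ (k : ℕ) (v : V n), f =
    ContinuousMap.toLp 2 (sig n) ℂ (mono k v)}).topologicalClosure)]
  rw [Submodule.mem_orthogonal]
  intro h hh
  have hh' : ∀ (k : ℕ) (v : V n), ∫ ζ : Sph n, (starRingEnd ℂ) (h ζ) * ⟪v, (ζ : V n)⟫_ℂ ^ k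
      ∂sig n = 0 := by
    intro k v
    rw [Submodule.mem_orthogonal'] at hh
    have h1 := hh (ContinuousMap.toLp 2 (sig n) ℂ (mono k v))
      (Submodule.le_topologicalClosure _ (Submodule.subset_span ⟨k, v, rfl⟩))
    rw [L2.inner_def] at h1
    rw [← h1]
    refine integral_congr_ae ?_
    filter_upwards [ContinuousMap.coeFn_toLp (p := 2) (𝕜 := ℂ) (sig n) (mono k v)] with ζ hζ
    rw [hζ]
    simp only [RCLike.inner_apply, mono, ContinuousMap.coe_mk]
    ring
  rw [L2.inner_def]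
  have hh2 : Integrable (fun ζ => (starRingEnd ℂ) (h ζ)) (sig n) := by
    have h1 : Integrable (h : Sph n → ℂ) (sig n) := (Lp.memLp h).integrable (by norm_num)
    refine h1.norm.mono' ?_ (ae_of_all _ fun ζ => by simp)
    exact (Complex.continuous_conj.comp_aestronglyMeasurable h1.aestronglyMeasurable)
  have e : ∫ ζ : Sph n, ⟪(h : Sph n → ℂ) ζ, (x : Sph n → ℂ) ζ⟫_ℂ ∂sig n =
      ∑ k ∈ Finset.range M, ∫ ζ : Sph n, (starRingEnd ℂ) (h ζ) * PP k p ζ ∂sig n := by
    rw [← integral_finsetSum]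
    · refine integral_congr_ae ?_
      filter_upwards [hx] with ζ hζ
      rw [hζ, hp.2 ζ, ← Finset.mul_sum]
      simp only [RCLike.inner_apply]
      ring
    · intro k _
      have hc := continuous_PP_sph hi k
      obtain ⟨C, hC⟩ := IsCompact.exists_bound_of_continuousOn (isCompact_univ (X := Sph n))
        hc.continuousOn
      exact hh2.mul_bdd (c := C) hc.aestronglyMeasurable (ae_of_all _ fun ζ => hC ζ (mem_univ ζ))
  rw [e]
  refine Finset.sum_eq_zero (fun k _ => ?_)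
  rw [integral_PP hi hh2]
  simp_rw [hh']
  simp

end Pool.Agent.MP28b1a7
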