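import Pool.Agent.Lib.MP_28b1a7_an.LP

/-!
The Carleson measure property of Littlewood-Paley pieces of bounded functions.
-/

namespace Pool.Agent.MP28b1a7

open MeasureTheory Filter Topology
open scoped InnerProductSpace ENNReal NNReal

section
variable {n : ℕ} [NeZero n]

omit [NeZero n] in
lemma pst_add (j : ℕ) (F G : Sph n → ℂ) (z : Sph n) :
    pst j (fun w => F w + G w) z ≤ pst j F z + pst j G z := by
  unfold pst
  refine iSup_le fun w => ?_
  calc ‖F w + G w‖ₑ / wte j z w ^ LL n ≤ (‖F w‖ₑ + ‖G w‖ₑ) / wte j z w ^ LL n := by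
        gcongr; exact enorm_add_le _ _
    _ = ‖F w‖ₑ / wte j z w ^ LL n + ‖G w‖ₑ / wte j z w ^ LL n := ENNReal.add_div
    _ ≤ _ := add_le_add (le_iSup (fun w : Sph n => ‖F w‖ₑ / wte j z w ^ LL n) w)
        (le_iSup (fun w : Sph n => ‖G w‖ₑ / wte j z w ^ LL n) w)

lemma VM_add (M : ℕ) (m : ℕ → ℝ) {f g : Sph n → ℂ} (hf : BM f) (hg : BM g) (z : V n) :
    VM M m (fun x => f x + g x) z = VM M m f z + VM M m g z := by
  unfold VM
  rw [← Finset.sum_add_distrib]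
  refine Finset.sum_congr rfl fun k _ => ?_
  rw [PP_add k hf.integrable hg.integrable]; ring

omit [NeZero n] in
lemma enn_add_sq_le (a b : ℝ≥0∞) : (a + b) ^ 2 ≤ 2 * a ^ 2 + 2 * b ^ 2 := by
  have h := ENNReal.rpow_add_le_mul_rpow_add_rpow a b (p := 2) (by norm_num)
  have e : (2 : ℝ) - 1 = 1 := by norm_num
  rw [e, ENNReal.rpow_one] at h
  have e2 : ∀ x : ℝ≥0∞, x ^ (2 : ℝ) = x ^ 2 := fun x => by
    rw [← ENNReal.rpow_natCast]; norm_num
  rw [e2, e2, e2] at h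
  rwa [mul_add] at h

lemma far_bound (n : ℕ) [NeZero n] : ∃ C : ℝ≥0, ∀ (j0 i : ℕ) (b : Sph n → ℂ), BM b →
    (∀ x, ‖b x‖ ≤ 1) → ∀ z : Sph n, (∀ η : Sph n, b η ≠ 0 → 1 ≤ 2 ^ j0 * dd (z : V n) η) →
      pst (j0 + i) (fun w : Sph n => VV (j0 + i) b w) z ≤ C * (2 ^ i)⁻¹ := by
  obtain ⟨C, hC⟩ := pst_mult isMult_AA n
  refine ⟨C, fun j0 i b hb hb1 z hz => ?_⟩
  refine (hC (j0 + i) b hb z).trans ?_
  gcongr
  have h1 : ∀ η : Sph n, kN n (LL n) (j0 + i) z η * ‖b η‖ₑ ≤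
      (2 ^ i)⁻¹ * kN n (2 * n) (j0 + i) z η := by
    intro η
    by_cases h0 : b η = 0
    · rw [h0]; simp
    · have h2 := hz η h0
      have h3 : (2 : ℝ≥0∞) ^ i ≤ wte (j0 + i) z η := by
        unfold wte
        have : ((2 : ℝ≥0∞) ^ i) = ENNReal.ofReal (2 ^ i) := by
          rw [ENNReal.ofReal_pow (by norm_num)]; norm_num
        rw [this]
        apply ENNReal.ofReal_le_ofReal
        unfold wt
        rw [pow_add]
        have h4 : (0 : ℝ) < 2 ^ i := by positivity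
        nlinarith
      have h5 : ‖b η‖ₑ ≤ 1 := by
        rw [← ofReal_norm, ← ENNReal.ofReal_one]
        exact ENNReal.ofReal_le_ofReal (hb1 η)
      have h6 := one_le_wte (j0 + i) z η
      have h7 : wte (j0 + i) z η ≤ wte (j0 + i) z η ^ (n + 3) := by
        calc wte (j0 + i) z η = wte (j0 + i) z η ^ 1 := (pow_one _).symm
          _ ≤ _ := pow_le_pow_right₀ h6 (by omega)
      calc kN n (LL n) (j0 + i) z η * ‖b η‖ₑ ≤ kN n (LL n) (j0 + i) z η * 1 := by gcongr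
        _ = 2 ^ ((j0 + i) * n) * (wte (j0 + i) z η ^ (2 * n) * wte (j0 + i) z η ^ (n + 3))⁻¹ := by
            rw [mul_one]; unfold kN LL
            rw [div_eq_mul_inv, ← pow_add]
            congr 3; ring
        _ ≤ 2 ^ ((j0 + i) * n) * (wte (j0 + i) z η ^ (2 * n) * 2 ^ i)⁻¹ := by
            have h8 := h3.trans h7
            exact mul_le_mul' le_rfl (ENNReal.inv_le_inv.mpr (mul_le_mul' le_rfl h8))
        _ = (2 ^ i)⁻¹ * kN n (2 * n) (j0 + i) z η := by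
            unfold kN
            rw [ENNReal.mul_inv (Or.inr (by finiteness)) (Or.inr (by positivity)), div_eq_mul_inv]
            ring
  refine (lintegral_mono h1).trans ?_
  rw [lintegral_const_mul _ (kN_measurable _ _ _)]
  calc _ ≤ ((2 : ℝ≥0∞) ^ i)⁻¹ * 1 := by
        gcongr
        exact kN_int_le n le_rfl _ z
    _ = _ := mul_one _

lemma measurable_dd (z0 : Sph n) : Measurable fun η : Sph n => dd (z0 : V n) η := by
  have : Continuous fun η : Sph n => dd (z0 : V n) η := by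
    unfold dd
    fun_prop
  exact this.measurable

lemma sig_ball_le (z0 : Sph n) (j0 : ℕ) {K : ℝ} (hK : 0 ≤ K) :
    sig n {η : Sph n | 2 ^ j0 * dd (z0 : V n) η ≤ K} ≤
      ENNReal.ofReal (4 ^ n * K ^ n) * (2 ^ (j0 * n))⁻¹ := by
  have e : {η : Sph n | 2 ^ j0 * dd (z0 : V n) η ≤ K} =
      {η : Sph n | dd (z0 : V n) η ≤ K / 2 ^ j0} := by
    ext η
    simp only [Set.mem_ofPred_eq]
    rw [le_div_iff₀ (by positivity), mul_comm]
  rw [e]
  refine (ball_upper z0 (by positivity)).trans (le_of_eq ?_)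
  rw [div_pow, ← mul_div_assoc, ENNReal.ofReal_div_of_pos (by positivity), div_eq_mul_inv,
    ← pow_mul, ENNReal.ofReal_pow (by norm_num : (0 : ℝ) ≤ 2)]
  norm_num

/-- (II) Carleson estimate -/
theorem carleson (n : ℕ) [NeZero n] (K : ℝ) (hK : 1 ≤ K) : ∃ C : ℝ≥0, ∀ (b : Sph n → ℂ), BM b →
    (∀ x, ‖b x‖ ≤ 1) → ∀ (z0 : Sph n) (j0 : ℕ),
      ∫⁻ z in {z : Sph n | 2 ^ j0 * dd (z0 : V n) z ≤ K},
        ∑' i, pst (j0 + i) (fun w : Sph n => VV (j0 + i) b w) z ^ 2 ∂sig n ≤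
        C * (2 ^ (j0 * n))⁻¹ := by
  obtain ⟨C1, hC1⟩ := pst_L2 n
  obtain ⟨C2, hC2⟩ := far_bound n
  obtain ⟨D, hD⟩ : ∃ D : ℝ≥0, ENNReal.ofReal (4 ^ n * (4 * K) ^ n) ≤ D :=
    ⟨(4 ^ n * (4 * K) ^ n).toNNReal, le_rfl⟩
  refine ⟨2 * C1 * D + 2 * (C2 ^ 2 * 2) * D, fun b hb hb1 z0 j0 => ?_⟩
  classical
  set R : Set (Sph n) := {z : Sph n | 2 ^ j0 * dd (z0 : V n) z ≤ K} with hR
  set Nr : Set (Sph n) := {z : Sph n | 2 ^ j0 * dd (z0 : V n) z ≤ 4 * K} with hNr
  have hRm : MeasurableSet R := measurableSet_le ((measurable_dd z0).const_mul _) measurable_const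
  have hNm : MeasurableSet Nr := measurableSet_le ((measurable_dd z0).const_mul _) measurable_const
  set b1 : Sph n → ℂ := Nr.indicator b with hb1'
  set b2 : Sph n → ℂ := Nrᶜ.indicator b with hb2'
  have hB1 : BM b1 := ⟨hb.1.indicator hNm, 1, fun x => by
    rw [hb1', Set.indicator_apply]; split_ifs
    · exact hb1 x
    · simp⟩
  have hB2 : BM b2 := ⟨hb.1.indicator hNm.compl, 1, fun x => by
    rw [hb2', Set.indicator_apply]; split_ifs
    · exact hb1 x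
    · simp⟩
  have hsum : b = fun x => b1 x + b2 x := by
    funext x
    exact (congrFun (Set.indicator_self_add_compl Nr b) x).symm
  have hpt : ∀ z ∈ R, ∑' i, pst (j0 + i) (fun w : Sph n => VV (j0 + i) b w) z ^ 2 ≤
      2 * ∑' j, pst j (fun w : Sph n => VV j b1 w) z ^ 2 + 2 * (C2 ^ 2 * 2) := by
    intro z hz
    have hfar : ∀ i, pst (j0 + i) (fun w : Sph n => VV (j0 + i) b2 w) z ≤ C2 * (2 ^ i)⁻¹ := by
      intro i
      refine hC2 j0 i b2 hB2 (fun x => ?_) z (fun η hη => ?_)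
      · rw [hb2', Set.indicator_apply]; split_ifs
        · exact hb1 x
        · simp
      · have h1 : η ∈ Nrᶜ := by
          by_contra h
          exact hη (Set.indicator_of_notMem h b)
        have h2 : 4 * K < 2 ^ j0 * dd (z0 : V n) η := not_le.mp h1
        have h3 := dd_quasi z0 z η
        have h4 : 2 ^ j0 * dd (z0 : V n) z ≤ K := hz
        have h5 : (0 : ℝ) < 2 ^ j0 := by positivity
        nlinarith
    have h1 : ∀ i, pst (j0 + i) (fun w : Sph n => VV (j0 + i) b w) z ^ 2 ≤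
        2 * pst (j0 + i) (fun w : Sph n => VV (j0 + i) b1 w) z ^ 2 +
        2 * (C2 ^ 2 * (2 ^ i)⁻¹) := by
      intro i
      have h2 : pst (j0 + i) (fun w : Sph n => VV (j0 + i) b w) z ≤
          pst (j0 + i) (fun w : Sph n => VV (j0 + i) b1 w) z + C2 * (2 ^ i)⁻¹ := by
        have h3 : (fun w : Sph n => VV (j0 + i) b (w : V n)) =
            fun w : Sph n => VV (j0 + i) b1 (w : V n) + VV (j0 + i) b2 (w : V n) := by
          funext w
          unfold VV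
          rw [← VM_add _ _ hB1 hB2, ← hsum]
        rw [h3]
        exact (pst_add _ _ _ _).trans (add_le_add le_rfl (hfar i))
      have h4 : ((2 : ℝ≥0∞) ^ i)⁻¹ ≤ 1 := by
        rw [ENNReal.inv_le_one]
        exact one_le_pow₀ (by norm_num)
      calc _ ≤ (pst (j0 + i) (fun w : Sph n => VV (j0 + i) b1 w) z + C2 * (2 ^ i)⁻¹) ^ 2 := by
            gcongr
        _ ≤ 2 * pst (j0 + i) (fun w : Sph n => VV (j0 + i) b1 w) z ^ 2 +
            2 * (C2 * (2 ^ i)⁻¹) ^ 2 := by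
            exact enn_add_sq_le _ _
        _ ≤ _ := by
            rw [mul_pow]
            gcongr
            calc ((2 : ℝ≥0∞) ^ i)⁻¹ ^ 2 = ((2 : ℝ≥0∞) ^ i)⁻¹ * ((2 : ℝ≥0∞) ^ i)⁻¹ := pow_two _
              _ ≤ ((2 : ℝ≥0∞) ^ i)⁻¹ * 1 := by gcongr
              _ = _ := mul_one _
    calc _ ≤ ∑' i, (2 * pst (j0 + i) (fun w : Sph n => VV (j0 + i) b1 w) z ^ 2 +
        2 * (C2 ^ 2 * (2 ^ i)⁻¹)) := ENNReal.tsum_le_tsum h1
      _ = 2 * ∑' i, pst (j0 + i) (fun w : Sph n => VV (j0 + i) b1 w) z ^ 2 +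
          2 * (C2 ^ 2 * ∑' i : ℕ, ((2 : ℝ≥0∞) ^ i)⁻¹) := by
          rw [ENNReal.tsum_add, ENNReal.tsum_mul_left, ENNReal.tsum_mul_left,
            ENNReal.tsum_mul_left]
      _ ≤ _ := by
          have h5 := ENNReal.tsum_comp_le_tsum_of_injective (f := fun i => j0 + i)
            (add_right_injective j0) (fun j => pst j (fun w : Sph n => VV j b1 w) z ^ 2)
          have h6 : ∑' i : ℕ, ((2 : ℝ≥0∞) ^ i)⁻¹ = 2 := by
            have h7 := ENNReal.tsum_geometric (2 : ℝ≥0∞)⁻¹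
            simp_rw [ENNReal.inv_pow]
            rw [h7]
            norm_num
          rw [h6]
          exact add_le_add (mul_le_mul' le_rfl h5) le_rfl
  have hσR : sig n R ≤ D * (2 ^ (j0 * n))⁻¹ := by
    refine (sig_ball_le z0 j0 (by linarith)).trans ?_
    gcongr
    refine le_trans (ENNReal.ofReal_le_ofReal ?_) hD
    gcongr
    linarith
  have hσN : sig n Nr ≤ D * (2 ^ (j0 * n))⁻¹ := by
    refine (sig_ball_le z0 j0 (by linarith)).trans ?_
    gcongr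
  have hL2 : ∫⁻ ζ, ‖b1 ζ‖ₑ ^ 2 ∂sig n ≤ sig n Nr := by
    rw [← lintegral_indicator_one hNm]
    refine lintegral_mono fun ζ => ?_
    rw [hb1', Set.indicator_apply, Set.indicator_apply]
    split_ifs
    · have h5 : ‖b ζ‖ₑ ≤ 1 := by
        rw [← ofReal_norm, ← ENNReal.ofReal_one]
        exact ENNReal.ofReal_le_ofReal (hb1 ζ)
      calc ‖b ζ‖ₑ ^ 2 ≤ 1 ^ 2 := by gcongr
        _ = _ := by simp
    · simp
  have hmeas : ∀ j, Measurable fun z : Sph n => pst j (fun w : Sph n => VV j b1 w) z ^ 2 :=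
    fun j => (measurable_pst _ _).pow_const 2
  calc ∫⁻ z in R, ∑' i, pst (j0 + i) (fun w : Sph n => VV (j0 + i) b w) z ^ 2 ∂sig n
      ≤ ∫⁻ z in R, (2 * ∑' j, pst j (fun w : Sph n => VV j b1 w) z ^ 2 + 2 * (C2 ^ 2 * 2))
        ∂sig n := setLIntegral_mono' hRm hpt
    _ = 2 * ∫⁻ z in R, ∑' j, pst j (fun w : Sph n => VV j b1 w) z ^ 2 ∂sig n +
        2 * (C2 ^ 2 * 2) * sig n R := by
        have h1 : Measurable fun z : Sph n => ∑' j, pst j (fun w : Sph n => VV j b1 w) z ^ 2 :=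
          Measurable.tsum hmeas
        rw [lintegral_add_left (h1.const_mul 2), lintegral_const_mul _ h1, setLIntegral_const]
    _ ≤ 2 * (C1 * sig n Nr) + 2 * (C2 ^ 2 * 2) * sig n R := by
        gcongr
        calc ∫⁻ z in R, ∑' j, pst j (fun w : Sph n => VV j b1 w) z ^ 2 ∂sig n
            ≤ ∫⁻ z, ∑' j, pst j (fun w : Sph n => VV j b1 w) z ^ 2 ∂sig n :=
              setLIntegral_le_lintegral _ _
          _ = ∑' j, ∫⁻ z, pst j (fun w : Sph n => VV j b1 w) z ^ 2 ∂sig n :=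
              lintegral_tsum fun j => (hmeas j).aemeasurable
          _ ≤ C1 * ∫⁻ ζ, ‖b1 ζ‖ₑ ^ 2 ∂sig n := hC1 b1 hB1
          _ ≤ _ := by gcongr
    _ ≤ 2 * (C1 * (D * (2 ^ (j0 * n))⁻¹)) + 2 * (C2 ^ 2 * 2) * (D * (2 ^ (j0 * n))⁻¹) := by
        gcongr
    _ = _ := by push_cast; ring

end

end Pool.Agent.MP28b1a7
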