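import Mathlib

/-!
Nested nets and nested intervals: abstract part.
-/

namespace Pool.Agent.MP28b1a7.TreeAux

open Set MeasureTheory Filter Topology

section Intervals

variable {X : Type*} [LinearOrder X]

/-- left end of the interval of `v` among the siblings `s`, starting at `a` -/
noncomputable def lpos (s : Finset X) (w : X → ℝ) (a : ℝ) (v : X) : ℝ :=
  a + ∑ u ∈ s with u < v, w u

lemma exists_interval (s : Finset X) (w : X → ℝ) (a x : ℝ) (h1 : a ≤ x)
    (h2 : x < a + ∑ v ∈ s, w v) : ∃ v ∈ s, lpos s w a v ≤ x ∧ x < lpos s w a v + w v := by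
  induction s using Finset.induction_on_max with
  | empty => simp at h2; linarith
  | insert m s hm ih =>
    have hms : m ∉ s := fun h => lt_irrefl _ (hm m h)
    have hf : (insert m s).filter (· < m) = s := by
      ext u
      simp only [Finset.mem_filter, Finset.mem_insert]
      constructor
      · rintro ⟨h | h, h'⟩
        · exact absurd h' (by rw [h]; exact lt_irrefl _)
        · exact h
      · intro h
        exact ⟨Or.inr h, hm u h⟩
    by_cases h : x < a + ∑ v ∈ s, w v
    · obtain ⟨v, hv, h3, h4⟩ := ih h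
      have hf' : (insert m s).filter (· < v) = s.filter (· < v) := by
        rw [Finset.filter_insert, if_neg (not_lt.2 (hm v hv).le)]
      refine ⟨v, Finset.mem_insert_of_mem hv, ?_, ?_⟩
      · unfold lpos at h3 ⊢; rw [hf']; exact h3
      · unfold lpos at h4 ⊢; rw [hf']; exact h4
    · refine ⟨m, Finset.mem_insert_self _ _, ?_, ?_⟩
      · unfold lpos; rw [hf]; exact not_lt.1 h
      · unfold lpos; rw [hf]; rw [Finset.sum_insert hms] at h2; linarith

lemma lpos_lt (s : Finset X) (w : X → ℝ) (hw : ∀ v ∈ s, 0 ≤ w v) (a : ℝ) {v1 v2 : X}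
    (h1 : v1 ∈ s) (h : v1 < v2) : lpos s w a v1 + w v1 ≤ lpos s w a v2 := by
  unfold lpos
  have hsub : insert v1 (s.filter (· < v1)) ⊆ s.filter (· < v2) := by
    intro u hu
    rw [Finset.mem_insert] at hu
    rcases hu with rfl | hu
    · exact Finset.mem_filter.2 ⟨h1, h⟩
    · rw [Finset.mem_filter] at hu ⊢
      exact ⟨hu.1, hu.2.trans h⟩
  have h3 := Finset.sum_le_sum_of_subset_of_nonneg hsub
    (fun i hi _ => hw i (Finset.mem_filter.1 hi).1)
  rw [Finset.sum_insert (by simp)] at h3
  linarith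

lemma lpos_unique (s : Finset X) (w : X → ℝ) (hw : ∀ v ∈ s, 0 ≤ w v) (a x : ℝ) {v1 v2 : X}
    (h1 : v1 ∈ s) (h2 : v2 ∈ s) (h3 : lpos s w a v1 ≤ x) (h4 : x < lpos s w a v1 + w v1)
    (h5 : lpos s w a v2 ≤ x) (h6 : x < lpos s w a v2 + w v2) : v1 = v2 := by
  rcases lt_trichotomy v1 v2 with h | h | h
  · have := lpos_lt s w hw a h1 h
    linarith
  · exact h
  · have := lpos_lt s w hw a h2 h
    linarith

lemma le_lpos (s : Finset X) (w : X → ℝ) (hw : ∀ v ∈ s, 0 ≤ w v) (a : ℝ) (v : X) :
    a ≤ lpos s w a v := by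
  unfold lpos
  have := Finset.sum_nonneg (s := s.filter (· < v)) (f := w)
    (fun i hi => hw i (Finset.mem_filter.1 hi).1)
  linarith

lemma lpos_add_le (s : Finset X) (w : X → ℝ) (hw : ∀ v ∈ s, 0 ≤ w v) (a : ℝ) {v : X}
    (hv : v ∈ s) : lpos s w a v + w v ≤ a + ∑ u ∈ s, w u := by
  unfold lpos
  have hsub : insert v (s.filter (· < v)) ⊆ s := by
    intro u hu
    rw [Finset.mem_insert] at hu
    rcases hu with rfl | hu
    · exact hv
    · exact (Finset.mem_filter.1 hu).1
  have h3 := Finset.sum_le_sum_of_subset_of_nonneg hsub (fun i hi _ => hw i hi)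
  rw [Finset.sum_insert (by simp)] at h3
  linarith

variable (N : ℕ → Finset X) (par : ℕ → X → X) (w : ℕ → X → ℝ) (root : X)

/-- left ends of the intervals of the nodes -/
noncomputable def tlo : ℕ → X → ℝ
  | 0, _ => 0
  | t + 1, v => lpos ((N (t + 1)).filter fun u => par t u = par t v) (w (t + 1))
      (tlo t (par t v)) v

open Classical in
/-- the node of level `t` whose interval contains `x` -/
noncomputable def tal : ℕ → ℝ → X
  | 0, _ => root
  | t + 1, x => if h : x ∈ Ico (0 : ℝ) 1 ∧ ∃ v ∈ N (t + 1), par t v = tal t x ∧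
      tlo N par w (t + 1) v ≤ x ∧ x < tlo N par w (t + 1) v + w (t + 1) v
    then h.2.choose else root

variable {N par w root}

lemma tal_outside (t : ℕ) {x : ℝ} (hx : x ∉ Ico (0 : ℝ) 1) : tal N par w root t x = root := by
  cases t with
  | zero => rfl
  | succ t =>
    rw [tal, dif_neg]
    exact fun h => hx h.1

lemma tlo_bounds (hpar : ∀ t, ∀ v ∈ N (t + 1), par t v ∈ N t) (hw : ∀ t, ∀ v ∈ N t, 0 ≤ w t v)
    (hsum : ∀ t, ∀ u ∈ N t, ∑ v ∈ N (t + 1) with par t v = u, w (t + 1) v = w t u)
    (hN : N 0 = {root}) (hr : w 0 root = 1) (t : ℕ) : ∀ v ∈ N t,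
      0 ≤ tlo N par w t v ∧ tlo N par w t v + w t v ≤ 1 := by
  induction t with
  | zero =>
    intro v hv
    rw [hN, Finset.mem_singleton] at hv
    subst hv
    simp [tlo, hr]
  | succ t ih =>
    intro v hv
    have h1 := ih _ (hpar t v hv)
    have hw' : ∀ u ∈ (N (t + 1)).filter (fun u => par t u = par t v), 0 ≤ w (t + 1) u :=
      fun u hu => hw _ u (Finset.mem_filter.1 hu).1
    have h2 := le_lpos _ (w (t + 1)) hw' (tlo N par w t (par t v)) v
    have h3 := lpos_add_le _ (w (t + 1)) hw' (tlo N par w t (par t v))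
      (Finset.mem_filter.2 ⟨hv, rfl⟩)
    rw [hsum t _ (hpar t v hv)] at h3
    rw [tlo]
    constructor <;> linarith

lemma tlo_child (hpar : ∀ t, ∀ v ∈ N (t + 1), par t v ∈ N t) (hw : ∀ t, ∀ v ∈ N t, 0 ≤ w t v)
    (hsum : ∀ t, ∀ u ∈ N t, ∑ v ∈ N (t + 1) with par t v = u, w (t + 1) v = w t u)
    (t : ℕ) : ∀ v ∈ N (t + 1),
      tlo N par w t (par t v) ≤ tlo N par w (t + 1) v ∧
      tlo N par w (t + 1) v + w (t + 1) v ≤ tlo N par w t (par t v) + w t (par t v) := by
  intro v hv
  have hw' : ∀ u ∈ (N (t + 1)).filter (fun u => par t u = par t v), 0 ≤ w (t + 1) u :=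
    fun u hu => hw _ u (Finset.mem_filter.1 hu).1
  have h2 := le_lpos _ (w (t + 1)) hw' (tlo N par w t (par t v)) v
  have h3 := lpos_add_le _ (w (t + 1)) hw' (tlo N par w t (par t v))
    (Finset.mem_filter.2 ⟨hv, rfl⟩)
  rw [hsum t _ (hpar t v hv)] at h3
  rw [tlo]
  exact ⟨h2, h3⟩

lemma tal_spec (hpar : ∀ t, ∀ v ∈ N (t + 1), par t v ∈ N t) (hw : ∀ t, ∀ v ∈ N t, 0 ≤ w t v)
    (hsum : ∀ t, ∀ u ∈ N t, ∑ v ∈ N (t + 1) with par t v = u, w (t + 1) v = w t u)
    (hN : N 0 = {root}) (hr : w 0 root = 1) {x : ℝ} (hx : x ∈ Ico (0 : ℝ) 1) (t : ℕ) :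
    tal N par w root t x ∈ N t ∧
    (∀ v ∈ N t, tal N par w root t x = v ↔
      tlo N par w t v ≤ x ∧ x < tlo N par w t v + w t v) ∧
    par t (tal N par w root (t + 1) x) = tal N par w root t x := by
  -- existence of the next node
  have key : ∀ t, tal N par w root t x ∈ N t →
      (∀ v ∈ N t, tal N par w root t x = v ↔
        tlo N par w t v ≤ x ∧ x < tlo N par w t v + w t v) →
      tal N par w root (t + 1) x ∈ N (t + 1) ∧
      par t (tal N par w root (t + 1) x) = tal N par w root t x ∧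
      tlo N par w (t + 1) (tal N par w root (t + 1) x) ≤ x ∧
      x < tlo N par w (t + 1) (tal N par w root (t + 1) x) +
        w (t + 1) (tal N par w root (t + 1) x) := by
    intro t h1 h2
    have h3 := (h2 _ h1).1 rfl
    set u := tal N par w root t x with hu
    have h4 : x < tlo N par w t u + ∑ v ∈ N (t + 1) with par t v = u, w (t + 1) v := by
      rw [hsum t u h1]; exact h3.2
    obtain ⟨v, hv, h5, h6⟩ := exists_interval _ (w (t + 1)) _ x h3.1 h4
    rw [Finset.mem_filter] at hv
    have he : x ∈ Ico (0 : ℝ) 1 ∧ ∃ v ∈ N (t + 1), par t v = tal N par w root t x ∧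
      tlo N par w (t + 1) v ≤ x ∧ x < tlo N par w (t + 1) v + w (t + 1) v := by
      refine ⟨hx, v, hv.1, hv.2, ?_, ?_⟩
      · rw [tlo]; simp only [hv.2]; exact h5
      · rw [tlo]; simp only [hv.2]; exact h6
    have hd : tal N par w root (t + 1) x = he.2.choose := by
      rw [tal, dif_pos he]
    have hc := he.2.choose_spec
    rw [hd]
    exact ⟨hc.1, hc.2.1, hc.2.2.1, hc.2.2.2⟩
  have main : ∀ t, tal N par w root t x ∈ N t ∧
      (∀ v ∈ N t, tal N par w root t x = v ↔
        tlo N par w t v ≤ x ∧ x < tlo N par w t v + w t v) := by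
    intro t
    induction t with
    | zero =>
      refine ⟨by rw [hN]; simp [tal], ?_⟩
      intro v hv
      rw [hN, Finset.mem_singleton] at hv
      subst hv
      simp only [tal, tlo, hr, zero_add, true_iff]
      exact ⟨hx.1, hx.2⟩
    | succ t ih =>
      obtain ⟨k1, k2, k3, k4⟩ := key t ih.1 ih.2
      refine ⟨k1, fun v hv => ⟨fun h => by rw [← h]; exact ⟨k3, k4⟩, fun h => ?_⟩⟩
      have hc := tlo_child hpar hw hsum t v hv
      have h1 : tal N par w root t x = par t v :=
        (ih.2 _ (hpar t v hv)).2 ⟨hc.1.trans h.1, h.2.trans_le hc.2⟩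
      have hw' : ∀ u ∈ (N (t + 1)).filter (fun u => par t u = par t v), 0 ≤ w (t + 1) u :=
        fun u hu => hw _ u (Finset.mem_filter.1 hu).1
      have h2 : par t (tal N par w root (t + 1) x) = par t v := k2.trans h1
      refine lpos_unique _ (w (t + 1)) hw' (tlo N par w t (par t v)) x
        (Finset.mem_filter.2 ⟨k1, h2⟩) (Finset.mem_filter.2 ⟨hv, rfl⟩) ?_ ?_ ?_ ?_
      · rw [tlo] at k3; simp only [h2] at k3; exact k3
      · rw [tlo] at k4; simp only [h2] at k4; exact k4
      · exact h.1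
      · exact h.2
  exact ⟨(main t).1, (main t).2, (key t (main t).1 (main t).2).2.1⟩

/-- Measurability of the step functions. -/
lemma measurable_tal [MeasurableSpace X] (hpar : ∀ t, ∀ v ∈ N (t + 1), par t v ∈ N t)
    (hw : ∀ t, ∀ v ∈ N t, 0 ≤ w t v)
    (hsum : ∀ t, ∀ u ∈ N t, ∑ v ∈ N (t + 1) with par t v = u, w (t + 1) v = w t u)
    (hN : N 0 = {root}) (hr : w 0 root = 1) (t : ℕ) : Measurable (tal N par w root t) := by
  classical
  intro B _
  have h : tal N par w root t ⁻¹' B =
      (⋃ v ∈ (N t).filter (· ∈ B), (Ico (0 : ℝ) 1 ∩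
        Ico (tlo N par w t v) (tlo N par w t v + w t v))) ∪
      ((Ico (0 : ℝ) 1)ᶜ ∩ {_x | root ∈ B}) := by
    ext x
    simp only [mem_preimage, mem_union, mem_iUnion, mem_inter_iff, Finset.mem_filter,
      mem_compl_iff, exists_prop]
    by_cases hx : x ∈ Ico (0 : ℝ) 1
    · obtain ⟨h1, h2, -⟩ := tal_spec hpar hw hsum hN hr hx t
      constructor
      · intro h
        exact Or.inl ⟨_, ⟨h1, h⟩, hx, (h2 _ h1).1 rfl⟩
      · rintro (⟨v, ⟨hv, hvB⟩, -, h3⟩ | h)
        · rw [(h2 v hv).2 h3]; exact hvB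
        · exact absurd hx h.1
    · rw [tal_outside t hx]
      constructor
      · intro h
        exact Or.inr ⟨hx, h⟩
      · rintro (⟨v, ⟨hv, hvB⟩, h3, -⟩ | h)
        · exact absurd h3 hx
        · exact h.2
  rw [h]
  refine MeasurableSet.union ?_ ?_
  · exact Finset.measurableSet_biUnion _ fun v _ => measurableSet_Ico.inter measurableSet_Ico
  · exact measurableSet_Ico.compl.inter (MeasurableSet.const _)

end Intervals

section Weights

variable {X : Type*} [LinearOrder X]

/-- measurable selection from a finite set -/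
lemma exists_near {Y : Type*} [MeasurableSpace Y] (N : Finset X) (R : Y → X → Prop)
    (hR : ∀ v ∈ N, MeasurableSet {y | R y v}) (hcov : ∀ y, ∃ v ∈ N, R y v) :
    ∃ f : Y → X, (∀ y, f y ∈ N ∧ R y (f y)) ∧ ∀ v, MeasurableSet {y | f y = v} := by
  classical
  have hne : ∀ y, (N.filter (R y)).Nonempty := by
    intro y
    obtain ⟨v, hv, h⟩ := hcov y
    exact ⟨v, Finset.mem_filter.2 ⟨hv, h⟩⟩
  refine ⟨fun y => (N.filter (R y)).min' (hne y), fun y => ?_, fun v => ?_⟩
  · exact Finset.mem_filter.1 (Finset.min'_mem _ (hne y))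
  · by_cases hv : v ∈ N
    · have h : {y | (N.filter (R y)).min' (hne y) = v} =
          {y | R y v} ∩ ⋂ u ∈ N.filter (· < v), {y | R y u}ᶜ := by
        ext y
        simp only [Set.mem_ofPred_eq, mem_inter_iff, mem_iInter, Finset.mem_filter,
          mem_compl_iff]
        constructor
        · intro h
          have h1 := Finset.mem_filter.1 (Finset.min'_mem _ (hne y))
          rw [h] at h1
          refine ⟨h1.2, fun u hu hRu => ?_⟩
          have h2 := Finset.min'_le _ u (Finset.mem_filter.2 ⟨hu.1, hRu⟩)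
          rw [h] at h2
          exact absurd hu.2 (not_lt.2 h2)
        · rintro ⟨h1, h2⟩
          refine le_antisymm (Finset.min'_le _ v (Finset.mem_filter.2 ⟨hv, h1⟩)) ?_
          refine Finset.le_min' _ _ _ fun u hu => ?_
          rw [Finset.mem_filter] at hu
          by_contra h3
          exact h2 u ⟨hu.1, not_le.1 h3⟩ hu.2
      rw [h]
      refine (hR v hv).inter (Finset.measurableSet_biInter _ fun u hu => ?_)
      exact (hR u (Finset.mem_filter.1 hu).1).compl
    · have h : {y | (N.filter (R y)).min' (hne y) = v} = ∅ := by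
        ext y
        simp only [Set.mem_ofPred_eq, mem_empty_iff_false, iff_false]
        intro h
        have h1 := Finset.mem_filter.1 (Finset.min'_mem _ (hne y))
        rw [h] at h1
        exact hv h1.1
      rw [h]
      exact MeasurableSet.empty

/-- ancestor `k` levels up, starting from level `t + k` -/
def anc (par : ℕ → X → X) (t : ℕ) : ℕ → X → X
  | 0, v => v
  | k + 1, v => anc par t k (par (t + k) v)

omit [LinearOrder X] in
lemma anc_succ (par : ℕ → X → X) (t k : ℕ) (v : X) :
    anc par t (k + 1) v = par t (anc par (t + 1) k v) := by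
  induction k generalizing v with
  | zero => rfl
  | succ k ih =>
    rw [anc, ih, anc]
    congr 3
    omega

omit [LinearOrder X] in
lemma anc_mem {N : ℕ → Finset X} {par : ℕ → X → X} (hpar : ∀ t, ∀ v ∈ N (t + 1), par t v ∈ N t)
    (t k : ℕ) (v : X) (hv : v ∈ N (t + k)) : anc par t k v ∈ N t := by
  induction k generalizing v with
  | zero => exact hv
  | succ k ih => exact ih _ (hpar _ _ hv)

lemma exists_weights {Y : Type*} [MeasurableSpace Y] (μ : Measure Y) [IsProbabilityMeasure μ]
    {N : ℕ → Finset X} {par : ℕ → X → X} {root : X}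
    (hpar : ∀ t, ∀ v ∈ N (t + 1), par t v ∈ N t) (hN : N 0 = {root})
    (near : ℕ → Y → X) (hnear : ∀ T y, near T y ∈ N T)
    (hmeas : ∀ T v, MeasurableSet {y | near T y = v}) :
    ∃ (w : ℕ → X → ℝ) (F : Filter ℕ), F ≤ atTop ∧ F.NeBot ∧ w 0 root = 1 ∧
      (∀ t, ∀ u ∈ N t, ∑ v ∈ N (t + 1) with par t v = u, w (t + 1) v = w t u) ∧
      ∀ t v, Tendsto (fun T => μ.real {y | anc par t (T - t) (near T y) = v}) F (𝓝 (w t v)) := by
  classical
  -- limits along an ultrafilter
  have hlim : ∀ t v, ∃ a : ℝ, Tendsto (fun T => μ.real {y | anc par t (T - t) (near T y) = v})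
      (hyperfilter ℕ : Filter ℕ) (𝓝 a) := by
    intro t v
    have hc : IsCompact (Icc (0 : ℝ) 1) := isCompact_Icc
    have hle : ((hyperfilter ℕ).map
        (fun T => μ.real {y | anc par t (T - t) (near T y) = v}) : Filter ℝ) ≤
        𝓟 (Icc (0 : ℝ) 1) := by
      rw [le_principal_iff, Ultrafilter.mem_coe, Ultrafilter.mem_map]
      refine Filter.Eventually.of_forall fun T => ?_
      exact ⟨measureReal_nonneg, measureReal_le_one⟩
    obtain ⟨a, -, ha⟩ := hc.ultrafilter_le_nhds _ hle
    exact ⟨a, ha⟩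
  choose w hw using hlim
  have hms : ∀ t T v, MeasurableSet {y | anc par t (T - t) (near T y) = v} := by
    intro t T v
    have h : {y | anc par t (T - t) (near T y) = v} =
        ⋃ u ∈ (N T).filter (fun u => anc par t (T - t) u = v), {y | near T y = u} := by
      ext y
      simp only [Set.mem_ofPred_eq, mem_iUnion, Finset.mem_filter, exists_prop]
      constructor
      · intro h
        exact ⟨near T y, ⟨hnear T y, h⟩, rfl⟩
      · rintro ⟨u, ⟨-, h⟩, rfl⟩
        exact h
    rw [h]
    exact Finset.measurableSet_biUnion _ fun u _ => hmeas T u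
  have hF : (hyperfilter ℕ : Filter ℕ) ≤ atTop := by
    rw [← Nat.cofinite_eq_atTop]
    exact hyperfilter_le_cofinite
  refine ⟨w, hyperfilter ℕ, hF, inferInstance, ?_, ?_, hw⟩
  · refine tendsto_nhds_unique (hw 0 root) ?_
    refine tendsto_const_nhds.congr fun T => ?_
    have h : {y | anc par 0 (T - 0) (near T y) = root} = univ := by
      ext y
      simp only [Set.mem_ofPred_eq, mem_univ, iff_true]
      have h1 := anc_mem hpar 0 (T - 0) (near T y) (by simpa using hnear T y)
      rw [hN, Finset.mem_singleton] at h1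
      exact h1
    rw [h]
    simp
  · intro t u hu
    have h1 : Tendsto (fun T => ∑ v ∈ N (t + 1) with par t v = u,
        μ.real {y | anc par (t + 1) (T - (t + 1)) (near T y) = v}) (hyperfilter ℕ : Filter ℕ)
        (𝓝 (∑ v ∈ N (t + 1) with par t v = u, w (t + 1) v)) :=
      tendsto_finsetSum _ fun v _ => hw (t + 1) v
    refine tendsto_nhds_unique h1 ?_
    refine (hw t u).congr' ?_
    have hev : ∀ᶠ T in (hyperfilter ℕ : Filter ℕ), t + 1 ≤ T := hF (eventually_ge_atTop (t + 1))
    filter_upwards [hev] with T hT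
    obtain ⟨k, rfl⟩ := Nat.exists_eq_add_of_le hT
    have e1 : t + 1 + k - t = k + 1 := by omega
    have e2 : t + 1 + k - (t + 1) = k := by omega
    have h : {y | anc par t (t + 1 + k - t) (near (t + 1 + k) y) = u} =
        ⋃ v ∈ (N (t + 1)).filter (fun v => par t v = u),
          {y | anc par (t + 1) (t + 1 + k - (t + 1)) (near (t + 1 + k) y) = v} := by
      ext y
      simp only [Set.mem_ofPred_eq, mem_iUnion, Finset.mem_filter, exists_prop]
      rw [e1, e2, anc_succ]
      constructor
      · intro h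
        exact ⟨_, ⟨anc_mem hpar (t + 1) k _ (hnear _ y), h⟩, rfl⟩
      · rintro ⟨v, ⟨-, h⟩, rfl⟩
        exact h
    rw [h]
    exact measureReal_biUnion_finset (fun v _ v' _ hne => by
      rw [Function.onFun, Set.disjoint_left]
      intro y h1 h2
      exact hne (h1.symm.trans h2)) (fun v _ => hms (t + 1) (t + 1 + k) v)

end Weights

end Pool.Agent.MP28b1a7.TreeAux
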