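import Pool.Agent.Lib.MP_28b1a7_an.Meas
import Pool.Agent.Lib.MP_28b1a7_an.TreeAux

/-!
Nested nets on the sphere, organised as nested intervals of `[0,1)`.
-/

namespace Pool.Agent.MP28b1a7

open MeasureTheory Set Filter Topology
open scoped InnerProductSpace ENNReal NNReal

namespace TreeAux

/-- the metric -/
noncomputable def rho {n : ℕ} (x y : Sph n) : ℝ := Real.sqrt (dd (x : V n) y)

/-- the radii -/
noncomputable def rr (t : ℕ) : ℝ := 2 / 16 ^ t

lemma rr_pos (t : ℕ) : 0 < rr t := by unfold rr; positivity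

lemma rr_succ (t : ℕ) : rr (t + 1) = rr t / 16 := by unfold rr; rw [pow_succ]; field_simp

lemma rr_sq (t : ℕ) : rr t ^ 2 = 4 / 2 ^ (8 * t) := by
  unfold rr
  rw [div_pow, ← pow_mul]
  have : (2 : ℝ) ^ (8 * t) = 16 ^ (t * 2) := by
    rw [show (16 : ℝ) = 2 ^ 4 by norm_num, ← pow_mul]
    congr 1; ring
  rw [this]; norm_num

variable {n : ℕ}

lemma rho_nonneg (x y : Sph n) : 0 ≤ rho x y := Real.sqrt_nonneg _

lemma rho_comm (x y : Sph n) : rho x y = rho y x := by unfold rho; rw [dd_comm]

lemma rho_self (x : Sph n) : rho x x = 0 := by unfold rho; rw [dd_self]; simp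

lemma rho_sq (x y : Sph n) : rho x y ^ 2 = dd (x : V n) y := Real.sq_sqrt (dd_nonneg _ _)

lemma rho_tri (x c y : Sph n) : rho x y ≤ rho x c + rho c y :=
  sqrt_dd_triangle x c y

lemma dd_le_norm (x y : Sph n) : dd (x : V n) y ≤ ‖(x : V n) - y‖ := by
  unfold dd
  have h : (1 : ℂ) - ⟪(x : V n), (y : V n)⟫_ℂ = ⟪(x : V n), (x : V n) - y⟫_ℂ := by
    rw [inner_sub_right, inner_self_eq_norm_sq_to_K, sph_norm]
    simp
  rw [h]
  refine (norm_inner_le_norm _ _).trans ?_
  rw [sph_norm, one_mul]

lemma dist_le_rho (x y : Sph n) : dist x y ≤ 2 * rho x y := by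
  have h1 := norm_sub_sq_le_dd x y
  have h2 : dist x y = ‖(x : V n) - y‖ := by rw [Subtype.dist_eq, dist_eq_norm]
  rw [h2]
  have h3 := rho_nonneg x y
  rw [← rho_sq] at h1
  nlinarith [norm_nonneg ((x : V n) - y), sq_nonneg (rho x y)]

lemma dist_ge_dd (x y : Sph n) : dd (x : V n) y ≤ dist x y := by
  rw [Subtype.dist_eq, dist_eq_norm]
  exact dd_le_norm x y

lemma continuous_rho (y : Sph n) : Continuous fun x : Sph n => rho x y := by
  unfold rho dd
  refine Real.continuous_sqrt.comp (Continuous.norm ?_)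
  fun_prop

lemma exists_net (n : ℕ) [NeZero n] {r : ℝ} (hr : 0 < r) : ∃ N : Finset (Sph n),
    (∀ u ∈ N, ∀ v ∈ N, u ≠ v → r ≤ rho u v) ∧ ∀ x : Sph n, ∃ v ∈ N, rho x v < r := by
  classical
  by_contra hcon
  push Not at hcon
  have h1 : ∀ m : ℕ, ∃ N : Finset (Sph n), N.card = m ∧
      ∀ u ∈ N, ∀ v ∈ N, u ≠ v → r ≤ rho u v := by
    intro m
    induction m with
    | zero => exact ⟨∅, by simp, by simp⟩
    | succ m ih =>
      obtain ⟨N, hm, hN⟩ := ih
      obtain ⟨x, hx⟩ := hcon N hN
      have hxN : x ∉ N := fun h => by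
        have := hx x h
        rw [rho_self] at this
        linarith
      refine ⟨insert x N, by rw [Finset.card_insert_of_notMem hxN, hm], ?_⟩
      intro u hu v hv huv
      rw [Finset.mem_insert] at hu hv
      rcases hu with rfl | hu
      · rcases hv with rfl | hv
        · exact absurd rfl huv
        · exact hx v hv
      · rcases hv with rfl | hv
        · rw [rho_comm]; exact hx u hu
        · exact hN u hu v hv huv
  obtain ⟨T, -, hTf, hT⟩ := finite_cover_balls_of_compact (isCompact_univ (X := Sph n))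
    (show (0 : ℝ) < r ^ 2 / 2 by positivity)
  obtain ⟨N, hcard, hN⟩ := h1 (hTf.toFinset.card + 1)
  have h2 : ∀ x : Sph n, ∃ c ∈ hTf.toFinset, dist x c < r ^ 2 / 2 := by
    intro x
    have := hT (mem_univ x)
    simp only [mem_iUnion, Metric.mem_ball, exists_prop] at this
    obtain ⟨c, hc, h⟩ := this
    exact ⟨c, by simpa using hc, h⟩
  choose c hc hc' using h2
  obtain ⟨u, hu, v, hv, huv, he⟩ := Finset.exists_ne_map_eq_of_card_lt_of_maps_to
    (t := hTf.toFinset) (s := N) (f := c) (by omega) (fun u _ => hc u)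
  have h3 := hN u hu v hv huv
  have h4 : dist u v < r ^ 2 := by
    calc dist u v ≤ dist u (c u) + dist v (c u) := dist_triangle_right _ _ _
      _ = dist u (c u) + dist v (c v) := by rw [he]
      _ < r ^ 2 / 2 + r ^ 2 / 2 := add_lt_add (hc' u) (hc' v)
      _ = r ^ 2 := by ring
  have h5 := dist_ge_dd u v
  rw [← rho_sq] at h5
  nlinarith

/-- integral of a function of finitely many values -/
lemma integral_fin {X Y : Type*} [MeasurableSpace Y] (μ : Measure Y) [IsFiniteMeasure μ]
    (N : Finset X) (f : Y → X) (hf : ∀ᵐ y ∂μ, f y ∈ N) (hm : ∀ v ∈ N, MeasurableSet {y | f y = v})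
    (F : X → ℝ) : ∫ y, F (f y) ∂μ = ∑ v ∈ N, μ.real {y | f y = v} * F v := by
  classical
  have h1 : ∀ᵐ y ∂μ, F (f y) = ∑ v ∈ N, ({y | f y = v} : Set Y).indicator (fun _ => F v) y := by
    filter_upwards [hf] with y hy
    rw [Finset.sum_eq_single_of_mem (f y) hy]
    · rw [indicator_of_mem]
      exact rfl
    · intro v _ hv
      rw [indicator_of_notMem]
      exact fun h => hv h.symm
  rw [integral_congr_ae h1, integral_finsetSum]
  · refine Finset.sum_congr rfl fun v hv => ?_
    rw [integral_indicator_const _ (hm v hv)]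
    simp
  · intro v hv
    exact (integrable_const _).indicator (hm v hv)


/-- The geometric data: nets, nearest parents and measurable approximations. -/
structure Net (n : ℕ) [NeZero n] where
  /-- nets -/
  N : ℕ → Finset (Sph n)
  /-- parents -/
  par : ℕ → Sph n → Sph n
  /-- approximations -/
  near : ℕ → Sph n → Sph n
  /-- the root -/
  root : Sph n
  sep : ∀ t, ∀ u ∈ N t, ∀ v ∈ N t, u ≠ v → rr t ≤ rho u v
  par_mem : ∀ t v, par t v ∈ N t
  par_lt : ∀ t v, rho v (par t v) < rr t
  par_le : ∀ t v, ∀ u ∈ N t, rho v (par t v) ≤ rho v u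
  near_mem : ∀ t x, near t x ∈ N t
  near_lt : ∀ t x, rho x (near t x) < rr t
  near_meas : ∀ t v, MeasurableSet {x | near t x = v}
  hroot : N 0 = {root}

lemma exists_Net (n : ℕ) [NeZero n] [LinearOrder (Sph n)] : Nonempty (Net n) := by
  choose N hsep hcov using fun t => exists_net n (rr_pos t)
  have hpar : ∀ t v, ∃ u ∈ N t, ∀ u' ∈ N t, rho v u ≤ rho v u' := by
    intro t v
    obtain ⟨u, hu, -⟩ := hcov t v
    exact Finset.exists_min_image (N t) (fun u => rho v u) ⟨u, hu⟩
  choose par hpar1 hpar2 using hpar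
  have hnear : ∀ t, ∃ f : Sph n → Sph n, (∀ y, f y ∈ N t ∧ rho y (f y) < rr t) ∧
      ∀ v, MeasurableSet {y | f y = v} := by
    intro t
    refine exists_near (N t) (fun (y v : Sph n) => rho y v < rr t) (fun v _ => ?_)
      (fun y => hcov t y)
    exact (isOpen_Iio.preimage (continuous_rho v)).measurableSet
  choose near hnear1 hnear2 using hnear
  obtain ⟨root, hroot, -⟩ := hcov 0 (e0 n)
  refine ⟨⟨N, par, near, root, hsep, hpar1, fun t v => ?_, hpar2, fun t x => (hnear1 t x).1,
    fun t x => (hnear1 t x).2, hnear2, ?_⟩⟩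
  · obtain ⟨u, hu, h⟩ := hcov t v
    exact (hpar2 t v u hu).trans_lt h
  · refine Finset.eq_singleton_iff_unique_mem.2 ⟨hroot, fun v hv => ?_⟩
    by_contra hne
    have h1 := hsep 0 v hv root hroot hne
    have h2 := dd_le_two v root
    rw [← rho_sq] at h2
    have h3 : rr 0 = 2 := by unfold rr; norm_num
    rw [h3] at h1
    nlinarith

namespace Net

variable [NeZero n] (D : Net n)

lemma anc_near (t k : ℕ) (v : Sph n) :
    rho v (anc D.par t k v) ≤ 16 / 15 * (rr t - rr (t + k)) := by
  induction k generalizing v with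
  | zero => simp [anc, rho_self]
  | succ k ih =>
    have h1 := ih (D.par (t + k) v)
    have h2 := rho_tri v (D.par (t + k) v) (anc D.par t k (D.par (t + k) v))
    have h3 := (D.par_lt (t + k) v).le
    have h4 := rr_succ (t + k)
    rw [anc, show t + (k + 1) = t + k + 1 by ring, h4]
    linarith

lemma anc_near' (t k : ℕ) (v : Sph n) :
    rho v (anc D.par t k v) ≤ 16 / 15 * rr t := by
  have h1 := D.anc_near t k v
  have h2 := rr_pos (t + k)
  linarith

/-- the ancestor of the approximation is close -/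
lemma anc_near_near {t T : ℕ} (h : t ≤ T) (x : Sph n) :
    rho x (anc D.par t (T - t) (D.near T x)) ≤ 16 / 15 * rr t := by
  obtain ⟨k, rfl⟩ := Nat.exists_eq_add_of_le h
  rw [Nat.add_sub_cancel_left]
  have h1 := D.anc_near t k (D.near (t + k) x)
  have h2 := rho_tri x (D.near (t + k) x) (anc D.par t k (D.near (t + k) x))
  have h3 := (D.near_lt (t + k) x).le
  have h4 := rr_pos (t + k)
  linarith

/-- points close to a node have it as ancestor -/
lemma anc_near_eq {t T : ℕ} (h : t + 1 ≤ T) {x α : Sph n} (hα : α ∈ D.N t)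
    (hx : rho x α ≤ rr t / 8) : anc D.par t (T - t) (D.near T x) = α := by
  obtain ⟨k, rfl⟩ := Nat.exists_eq_add_of_le h
  have e : t + 1 + k - t = k + 1 := by omega
  rw [e, anc_succ]
  have h1 := D.anc_near_near h x
  rw [Nat.add_sub_cancel_left, rr_succ] at h1
  set γ := anc D.par (t + 1) k (D.near (t + 1 + k) x) with hγ
  have h2 := D.par_le t γ α hα
  have h3 := rho_tri γ x α
  have h4 : rho γ x = rho x γ := rho_comm _ _
  have h5 := rho_tri (D.par t γ) γ α
  have h6 : rho (D.par t γ) γ = rho γ (D.par t γ) := rho_comm _ _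
  by_contra hne
  have h7 := D.sep t _ (D.par_mem t γ) α hα hne
  have h8 := rr_pos t
  linarith

end Net

end TreeAux

open TreeAux in
/-- nested nets on the sphere organised as nested intervals, with a measure preserving map
from `[0,1)` onto the sphere -/
theorem exists_tree (n : ℕ) [NeZero n] :
    ∃ (c1 c2 C3 : ℝ) (N : ℕ → Finset (Sph n)) (α : ℕ → ℝ → Sph n) (lo hi : ℕ → Sph n → ℝ)
      (Ψ : ℝ → Sph n), 0 < c1 ∧ 0 < c2 ∧ 0 < C3 ∧ 
      (∀ t, ∀ x ∈ Ico (0 : ℝ) 1, α t x ∈ N t) ∧
      (∀ t, ∀ v ∈ N t, {x | x ∈ Ico (0 : ℝ) 1 ∧ α t x = v} = Ico (lo t v) (hi t v)) ∧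
      (∀ t, ∀ v ∈ N t, 0 ≤ lo t v ∧ hi t v ≤ 1 ∧ c1 / (2 : ℝ) ^ (8 * t * n) ≤ hi t v - lo t v ∧
        hi t v - lo t v ≤ c2 / (2 : ℝ) ^ (8 * t * n)) ∧
      (∀ t, ∀ x ∈ Ico (0 : ℝ) 1, ∀ y ∈ Ico (0 : ℝ) 1, α (t + 1) x = α (t + 1) y → α t x = α t y) ∧
      Measurable Ψ ∧ Measure.map Ψ (volume.restrict (Ico (0 : ℝ) 1)) = sig n ∧
      (∀ t, ∀ x ∈ Ico (0 : ℝ) 1, dd (Ψ x : V n) (α t x) ≤ C3 / 2 ^ (8 * t)) ∧
      (∀ t, ∀ u ∈ N t, ∀ v ∈ N t, u ≠ v → 4 / 2 ^ (8 * t) ≤ dd (u : V n) v) := by
  let _ : LinearOrder (Sph n) := IsWellOrder.linearOrder WellOrderingRel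
  obtain ⟨D⟩ := exists_Net n
  have hpar : ∀ t, ∀ v ∈ D.N (t + 1), D.par t v ∈ D.N t := fun t v _ => D.par_mem t v
  obtain ⟨w, F, hF, hFne, hr, hsum, hlim⟩ := exists_weights (sig n) (N := D.N) (par := D.par)
    (root := D.root) hpar D.hroot D.near D.near_mem D.near_meas
  obtain ⟨c, hc0, hc⟩ := ball_lower n
  have hms : ∀ t T v, MeasurableSet {y | anc D.par t (T - t) (D.near T y) = v} := by
    intro t T v
    classical
    have h : {y | anc D.par t (T - t) (D.near T y) = v} =
        ⋃ u ∈ (D.N T).filter (fun u => anc D.par t (T - t) u = v), {y | D.near T y = u} := by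
      ext y
      simp only [Set.mem_ofPred_eq, mem_iUnion, Finset.mem_filter, exists_prop]
      constructor
      · intro h
        exact ⟨D.near T y, ⟨D.near_mem T y, h⟩, rfl⟩
      · rintro ⟨u, ⟨-, h⟩, rfl⟩
        exact h
    rw [h]
    exact Finset.measurableSet_biUnion _ fun u _ => D.near_meas T u
  -- lower bound for the weights
  have hwlow : ∀ t, ∀ v ∈ D.N t, (c / 16 ^ n) / (2 : ℝ) ^ (8 * t * n) ≤ w t v := by
    intro t v hv
    refine ge_of_tendsto (hlim t v) ?_
    have hev : ∀ᶠ T in F, t + 1 ≤ T := hF (eventually_ge_atTop (t + 1))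
    filter_upwards [hev] with T hT
    have hs : (1 : ℝ) / (16 * 2 ^ (8 * t)) ≤ 2 := by
      rw [div_le_iff₀ (by positivity)]
      have : (1 : ℝ) ≤ 2 ^ (8 * t) := one_le_pow₀ (by norm_num)
      linarith
    have h1 := hc v (1 / (16 * 2 ^ (8 * t))) (by positivity) hs
    have h2 : sig n {y : Sph n | dd (v : V n) y ≤ 1 / (16 * 2 ^ (8 * t))} ≤
        sig n {y | anc D.par t (T - t) (D.near T y) = v} := by
      refine measure_mono fun y hy => ?_
      rw [Set.mem_ofPred_eq] at hy ⊢
      refine D.anc_near_eq hT hv ?_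
      rw [dd_comm] at hy
      unfold rho
      have h3 := rr_pos t
      rw [Real.sqrt_le_left (by positivity), div_pow, rr_sq]
      refine hy.trans (le_of_eq ?_)
      field_simp
      norm_num
    have h3 := h1.trans h2
    rw [← ENNReal.ofReal_toReal (measure_ne_top (sig n) _), ENNReal.ofReal_le_ofReal_iff
      ENNReal.toReal_nonneg] at h3
    refine le_trans (le_of_eq ?_) h3
    rw [pow_mul, div_pow, mul_pow, one_pow]
    field_simp
  -- upper bound for the weights
  have hwup : ∀ t, ∀ v ∈ D.N t, w t v ≤ (4 ^ n * 36 ^ n) / (2 : ℝ) ^ (8 * t * n) := by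
    intro t v hv
    refine le_of_tendsto (hlim t v) ?_
    have hev : ∀ᶠ T in F, t + 1 ≤ T := hF (eventually_ge_atTop (t + 1))
    filter_upwards [hev] with T hT
    have h1 := ball_upper v (t := 36 / 2 ^ (8 * t)) (by positivity)
    have h2 : sig n {y | anc D.par t (T - t) (D.near T y) = v} ≤
        sig n {y : Sph n | dd (v : V n) y ≤ 36 / 2 ^ (8 * t)} := by
      refine measure_mono fun y hy => ?_
      rw [Set.mem_ofPred_eq] at hy ⊢
      have h3 := D.anc_near_near (t := t) (T := T) (by omega) y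
      rw [hy] at h3
      rw [dd_comm, ← rho_sq]
      have h4 := rr_pos t
      have h5 := rr_sq t
      have h6 := rho_nonneg y v
      have h7 : (36 : ℝ) / 2 ^ (8 * t) = 9 * rr t ^ 2 := by rw [h5]; ring
      rw [h7]
      nlinarith
    have h3 := h2.trans h1
    rw [← ENNReal.ofReal_toReal (measure_ne_top (sig n) _), ENNReal.ofReal_le_ofReal_iff
      (by positivity)] at h3
    refine h3.trans (le_of_eq ?_)
    rw [div_pow, ← pow_mul, mul_div_assoc]
  have hw : ∀ t, ∀ v ∈ D.N t, 0 ≤ w t v := fun t v hv =>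
    le_trans (by positivity) (hwlow t v hv)
  -- the step functions
  set α := tal D.N D.par w D.root with hα
  have hspec := fun {x : ℝ} (hx : x ∈ Ico (0 : ℝ) 1) t =>
    tal_spec hpar hw hsum D.hroot hr hx t
  have hαm : ∀ t, Measurable (α t) := fun t => measurable_tal hpar hw hsum D.hroot hr t
  have hαpar : ∀ x t k, α t x = anc D.par t k (α (t + k) x) ∨ x ∉ Ico (0 : ℝ) 1 := by
    intro x t k
    by_cases hx : x ∈ Ico (0 : ℝ) 1
    · left
      induction k with
      | zero => rfl
      | succ k ih =>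
        rw [anc, ← add_assoc, (hspec hx (t + k)).2.2]
        exact ih
    · exact Or.inr hx
  have hαd : ∀ x t k, rho (α (t + k) x) (α t x) ≤ 16 / 15 * rr t := by
    intro x t k
    rcases hαpar x t k with h | h
    · have := D.anc_near' t k (α (t + k) x)
      rwa [← h] at this
    · rw [hα, tal_outside _ h, tal_outside _ h, rho_self]
      have := rr_pos t
      positivity
  have hcs : ∀ x, ∃ y, Tendsto (fun t => α t x) atTop (𝓝 y) := by
    intro x
    refine cauchySeq_tendsto_of_complete (cauchySeq_of_le_geometric (1 / 16) 5 (by norm_num)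
      fun t => ?_)
    have h1 := hαd x t 1
    have h2 := dist_le_rho (α (t + 1) x) (α t x)
    rw [dist_comm]
    have h3 : rr t = 2 * (1 / 16) ^ t := by unfold rr; rw [one_div, inv_pow]; field_simp
    have h4 : (0 : ℝ) < (1 / 16) ^ t := by positivity
    rw [h3] at h1
    linarith
  choose Ψ hΨ using hcs
  have hΨm : Measurable Ψ := measurable_of_tendsto_metrizable hαm (tendsto_pi_nhds.2 hΨ)
  have hΨd : ∀ t x, rho (Ψ x) (α t x) ≤ 16 / 15 * rr t := by
    intro t x
    have h1 : Tendsto (fun s => rho (α (t + s) x) (α t x)) atTop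
        (𝓝 (rho (Ψ x) (α t x))) := by
      have h2 : Tendsto (fun s => α (t + s) x) atTop (𝓝 (Ψ x)) := by
        have := (tendsto_add_atTop_iff_nat t).2 (hΨ x)
        simpa only [add_comm] using this
      exact ((continuous_rho (α t x)).tendsto _).comp h2
    exact le_of_tendsto h1 (Eventually.of_forall fun s => hαd x t s)
  have hmap : Measure.map Ψ (volume.restrict (Ico (0 : ℝ) 1)) = sig n := by
    have : IsProbabilityMeasure (volume.restrict (Ico (0 : ℝ) 1)) := ⟨by simp⟩
    have : IsProbabilityMeasure (Measure.map Ψ (volume.restrict (Ico (0 : ℝ) 1))) :=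
      Measure.isProbabilityMeasure_map hΨm.aemeasurable
    refine ext_of_forall_integral_eq_of_IsFiniteMeasure fun G => ?_
    rw [integral_map hΨm.aemeasurable G.continuous.aestronglyMeasurable]
    have hG : Continuous G := G.continuous
    have hA : Tendsto (fun t => ∫ x in Ico (0 : ℝ) 1, G (α t x)) atTop
        (𝓝 (∫ x in Ico (0 : ℝ) 1, G (Ψ x))) := by
      refine tendsto_integral_of_dominated_convergence (fun _ => ‖G‖)
        (fun t => (hG.measurable.comp (hαm t)).aestronglyMeasurable) (integrable_const _)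
        (fun t => Eventually.of_forall fun x => G.norm_coe_le_norm _)
        (Eventually.of_forall fun x => (hG.tendsto _).comp (hΨ x))
    refine tendsto_nhds_unique hA ?_
    have hlev : ∀ t, ∀ v ∈ D.N t, (volume.restrict (Ico (0 : ℝ) 1)).real {x | α t x = v} =
        w t v := by
      intro t v hv
      have h1 : {x | α t x = v} ∩ Ico (0 : ℝ) 1 =
          Ico (tlo D.N D.par w t v) (tlo D.N D.par w t v + w t v) := by
        ext x
        have hb := tlo_bounds hpar hw hsum D.hroot hr t v hv
        simp only [mem_inter_iff, Set.mem_ofPred_eq]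
        constructor
        · rintro ⟨h1, h2⟩
          exact ((hspec h2 t).2.1 v hv).1 h1
        · intro h1
          have h2 : x ∈ Ico (0 : ℝ) 1 := ⟨hb.1.trans h1.1, h1.2.trans_le hb.2⟩
          exact ⟨((hspec h2 t).2.1 v hv).2 h1, h2⟩
      rw [measureReal_def, Measure.restrict_apply' measurableSet_Ico, h1, Real.volume_Ico]
      rw [add_sub_cancel_left, ENNReal.toReal_ofReal (hw t v hv)]
    have hAf : ∀ t, ∫ x in Ico (0 : ℝ) 1, G (α t x) = ∑ v ∈ D.N t, w t v * G v := by
      intro t
      rw [integral_fin (volume.restrict (Ico (0 : ℝ) 1)) (D.N t) (α t) ?_ ?_ G]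
      · exact Finset.sum_congr rfl fun v hv => by rw [hlev t v hv]
      · filter_upwards [ae_restrict_mem measurableSet_Ico] with x hx
        exact (hspec hx t).1
      · intro v _
        exact hαm t (measurableSet_singleton v)
    rw [Metric.tendsto_atTop]
    intro ε hε
    have huc := CompactSpace.uniformContinuous_of_continuous hG
    rw [Metric.uniformContinuous_iff] at huc
    obtain ⟨δ, hδ, huc⟩ := huc (ε / 2) (by positivity)
    have hrt : Tendsto (fun t => 2 * (16 / 15 * rr t)) atTop (𝓝 0) := by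
      have h1 : Tendsto (fun t : ℕ => (1 / 16 : ℝ) ^ t) atTop (𝓝 0) :=
        tendsto_pow_atTop_nhds_zero_of_lt_one (by norm_num) (by norm_num)
      have h2 := h1.const_mul (2 * (16 / 15 * 2))
      rw [mul_zero] at h2
      refine h2.congr fun t => ?_
      unfold rr
      rw [one_div, inv_pow]
      field_simp
    obtain ⟨t0, ht0⟩ := (hrt.eventually (gt_mem_nhds hδ)).exists_forall_of_atTop
    refine ⟨t0, fun t ht => ?_⟩
    rw [hAf t, Real.dist_eq]
    have hlim2 : Tendsto (fun T => |∑ v ∈ D.N t,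
        (sig n).real {y | anc D.par t (T - t) (D.near T y) = v} * G v - ∫ x, G x ∂sig n|) F
        (𝓝 |∑ v ∈ D.N t, w t v * G v - ∫ x, G x ∂sig n|) := by
      refine (Tendsto.sub_const ?_ _).abs
      exact tendsto_finsetSum _ fun v _ => (hlim t v).mul_const _
    refine lt_of_le_of_lt (le_of_tendsto hlim2 ?_) (half_lt_self hε)
    have hev : ∀ᶠ T in F, t ≤ T := hF (eventually_ge_atTop t)
    filter_upwards [hev] with T hT
    rw [← integral_fin (sig n) (D.N t) (fun y => anc D.par t (T - t) (D.near T y)) ?_ ?_ G]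
    · have hmeas : Measurable fun y => anc D.par t (T - t) (D.near T y) := by
        intro B _
        classical
        have h : (fun y => anc D.par t (T - t) (D.near T y)) ⁻¹' B =
            ⋃ u ∈ (D.N t).filter (· ∈ B), {y | anc D.par t (T - t) (D.near T y) = u} := by
          ext y
          simp only [mem_preimage, mem_iUnion, Finset.mem_filter, exists_prop,
            Set.mem_ofPred_eq]
          constructor
          · intro h
            refine ⟨_, ⟨anc_mem hpar t (T - t) _ ?_, h⟩, rfl⟩
            rw [Nat.add_sub_cancel' hT]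
            exact D.near_mem T y
          · rintro ⟨u, ⟨-, h⟩, rfl⟩
            exact h
        rw [h]
        exact Finset.measurableSet_biUnion _ fun u _ => hms t T u
      have hint1 : Integrable (fun y => G (anc D.par t (T - t) (D.near T y))) (sig n) := by
        refine Integrable.of_bound (hG.measurable.comp hmeas).aestronglyMeasurable ‖G‖
          (Eventually.of_forall fun y => G.norm_coe_le_norm _)
      have hint2 : Integrable (fun y => G y) (sig n) :=
        Integrable.of_bound hG.aestronglyMeasurable ‖G‖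
          (Eventually.of_forall fun y => G.norm_coe_le_norm _)
      rw [← integral_sub hint1 hint2, ← Real.norm_eq_abs]
      have h2 := norm_integral_le_of_norm_le_const (μ := sig n) (C := ε / 2)
        (f := fun y => G (anc D.par t (T - t) (D.near T y)) - G y)
        (Eventually.of_forall fun y => by
          rw [← dist_eq_norm, dist_comm]
          refine (huc ?_).le
          refine lt_of_le_of_lt (dist_le_rho _ _) (lt_of_le_of_lt ?_ (ht0 t ht))
          have h3 := D.anc_near_near hT y
          have h4 := rho_comm y (anc D.par t (T - t) (D.near T y))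
          linarith)
      simpa using h2
    · refine Eventually.of_forall fun y => anc_mem hpar t (T - t) _ ?_
      rw [Nat.add_sub_cancel' hT]
      exact D.near_mem T y
    · exact fun v _ => hms t T v
  refine ⟨c / 16 ^ n, 4 ^ n * 36 ^ n, 5, D.N, α, tlo D.N D.par w,
    fun t v => tlo D.N D.par w t v + w t v, Ψ, by positivity, by positivity, by norm_num,
    fun t x hx => (hspec hx t).1, ?_, ?_, ?_, hΨm, hmap, ?_, ?_⟩
  · intro t v hv
    ext x
    have hb := tlo_bounds hpar hw hsum D.hroot hr t v hv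
    simp only [Set.mem_ofPred_eq]
    constructor
    · rintro ⟨h2, h1⟩
      exact ((hspec h2 t).2.1 v hv).1 h1
    · intro h1
      have h2 : x ∈ Ico (0 : ℝ) 1 := ⟨hb.1.trans h1.1, h1.2.trans_le hb.2⟩
      exact ⟨h2, ((hspec h2 t).2.1 v hv).2 h1⟩
  · intro t v hv
    have hb := tlo_bounds hpar hw hsum D.hroot hr t v hv
    refine ⟨hb.1, hb.2, ?_, ?_⟩
    · rw [add_sub_cancel_left]; exact hwlow t v hv
    · rw [add_sub_cancel_left]; exact hwup t v hv
  · intro t x hx y hy h
    show tal D.N D.par w D.root t x = tal D.N D.par w D.root t y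
    rw [← (hspec hx t).2.2, ← (hspec hy t).2.2]
    exact congrArg _ h
  · intro t x hx
    have h1 := hΨd t x
    have h2 := rho_nonneg (Ψ x) (α t x)
    have h3 := rr_sq t
    have h4 := rr_pos t
    rw [← rho_sq]
    have h5 : (5 : ℝ) / 2 ^ (8 * t) = 5 / 4 * rr t ^ 2 := by rw [h3]; ring
    rw [h5]
    nlinarith
  · intro t u hu v hv huv
    have h1 := D.sep t u hu v hv huv
    have h3 := rr_sq t
    have h4 := rr_pos t
    rw [← rho_sq, ← h3]
    exact pow_le_pow_left₀ h4.le h1 2

end Pool.Agent.MP28b1a7
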