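import Pool.Agent.Lib.MP_28b1a7_an.Carl
import Pool.Agent.Lib.MP_28b1a7_an.Tree

/-!
The nested nets as a structure, and the duality inequality on coarse cells.
-/

namespace Pool.Agent.MP28b1a7

open MeasureTheory Filter Topology Set
open scoped InnerProductSpace ENNReal NNReal

/-- the unit interval with Lebesgue measure -/
noncomputable abbrev mu01 : Measure ℝ := volume.restrict (Ico (0 : ℝ) 1)

/-- The output of `exists_tree` as a structure. -/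
structure TreeData (n : ℕ) [NeZero n] where
  c1 : ℝ
  c2 : ℝ
  C3 : ℝ
  N : ℕ → Finset (Sph n)
  α : ℕ → ℝ → Sph n
  lo : ℕ → Sph n → ℝ
  hi : ℕ → Sph n → ℝ
  Ψ : ℝ → Sph n
  c1_pos : 0 < c1
  c2_pos : 0 < c2
  C3_pos : 0 < C3
  α_mem : ∀ t, ∀ x ∈ Ico (0 : ℝ) 1, α t x ∈ N t
  cell : ∀ t, ∀ v ∈ N t, {x | x ∈ Ico (0 : ℝ) 1 ∧ α t x = v} = Ico (lo t v) (hi t v)
  lo_nonneg : ∀ t, ∀ v ∈ N t, 0 ≤ lo t v
  hi_le : ∀ t, ∀ v ∈ N t, hi t v ≤ 1
  len_ge : ∀ t, ∀ v ∈ N t, c1 / (2 : ℝ) ^ (8 * t * n) ≤ hi t v - lo t v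
  len_le : ∀ t, ∀ v ∈ N t, hi t v - lo t v ≤ c2 / (2 : ℝ) ^ (8 * t * n)
  nested : ∀ t, ∀ x ∈ Ico (0 : ℝ) 1, ∀ y ∈ Ico (0 : ℝ) 1, α (t + 1) x = α (t + 1) y → α t x = α t y
  Ψ_meas : Measurable Ψ
  Ψ_map : Measure.map Ψ mu01 = sig n
  near : ∀ t, ∀ x ∈ Ico (0 : ℝ) 1, dd (Ψ x : V n) (α t x) ≤ C3 / 2 ^ (8 * t)
  sep : ∀ t, ∀ u ∈ N t, ∀ v ∈ N t, u ≠ v → 4 / 2 ^ (8 * t) ≤ dd (u : V n) v

lemma exists_treeData (n : ℕ) [NeZero n] : Nonempty (TreeData n) := by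
  obtain ⟨c1, c2, C3, N, α, lo, hi, Ψ, h1, h2, h3, h4, h5, h6, h7, h8, h9, h10, h11⟩ :=
    exists_tree n
  exact ⟨⟨c1, c2, C3, N, α, lo, hi, Ψ, h1, h2, h3, h4, h5, fun t v hv => (h6 t v hv).1,
    fun t v hv => (h6 t v hv).2.1, fun t v hv => (h6 t v hv).2.2.1,
    fun t v hv => (h6 t v hv).2.2.2, h7, h8, h9, h10, h11⟩⟩

namespace TreeData

variable {n : ℕ} [NeZero n] (T : TreeData n)

/-- nodes as a measurable function on the whole line -/
noncomputable def β (t : ℕ) (x : ℝ) : Sph n :=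
  letI := Classical.dec (x ∈ Ico (0 : ℝ) 1)
  if x ∈ Ico (0 : ℝ) 1 then T.α t x else e0 n

lemma β_eq {t : ℕ} {x : ℝ} (hx : x ∈ Ico (0 : ℝ) 1) : T.β t x = T.α t x := by
  unfold β; rw [if_pos hx]

lemma β_mem {t : ℕ} {x : ℝ} (hx : x ∈ Ico (0 : ℝ) 1) : T.β t x ∈ T.N t := by
  rw [T.β_eq hx]; exact T.α_mem t x hx

lemma β_preimage (t : ℕ) (s : Set (Sph n)) :
    MeasurableSet ({x | T.β t x ∈ s}) := by
  classical
  have h : {x | T.β t x ∈ s} = (⋃ v ∈ (T.N t).filter (fun v => v ∈ s), Ico (T.lo t v) (T.hi t v)) ∪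
      {x | x ∉ Ico (0 : ℝ) 1 ∧ e0 n ∈ s} := by
    ext x
    simp only [mem_union, mem_iUnion, Finset.mem_filter, mem_ofPred_eq]
    constructor
    · intro hx
      by_cases h01 : x ∈ Ico (0 : ℝ) 1
      · left
        rw [T.β_eq h01] at hx
        refine ⟨T.α t x, ⟨T.α_mem t x h01, hx⟩, ?_⟩
        rw [← T.cell t _ (T.α_mem t x h01)]
        exact ⟨h01, rfl⟩
      · right
        unfold β at hx
        rw [if_neg h01] at hx
        exact ⟨h01, hx⟩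
    · rintro (⟨v, ⟨hv, hvs⟩, hx⟩ | ⟨h01, hs⟩)
      · rw [← T.cell t v hv] at hx
        rw [T.β_eq hx.1, hx.2]
        exact hvs
      · unfold β
        rw [if_neg h01]
        exact hs
  rw [h]
  apply MeasurableSet.union
  · exact Finset.measurableSet_biUnion _ fun v _ => measurableSet_Ico
  · by_cases hs : e0 n ∈ s
    · simp only [hs, and_true]
      exact measurableSet_Ico.compl
    · simp [hs]

lemma measurable_β (t : ℕ) : Measurable (T.β t) := fun s _ => T.β_preimage t s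

lemma measurable_comp_β (t : ℕ) {E : Type*} [MeasurableSpace E] (F : Sph n → E) :
    Measurable fun x => F (T.β t x) := fun s _ => T.β_preimage t (F ⁻¹' s)

lemma β_nested {t t' : ℕ} (h : t ≤ t') {x y : ℝ} (hx : x ∈ Ico (0 : ℝ) 1)
    (hy : y ∈ Ico (0 : ℝ) 1) (hxy : T.β t' x = T.β t' y) : T.β t x = T.β t y := by
  induction t', h using Nat.le_induction with
  | base => exact hxy
  | succ t' _ ih =>
    apply ih
    rw [T.β_eq hx, T.β_eq hy] at hxy ⊢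
    exact T.nested t' x hx y hy hxy

lemma cell_len {t : ℕ} {v : Sph n} (hv : v ∈ T.N t) :
    volume (Ico (T.lo t v) (T.hi t v)) = ENNReal.ofReal (T.hi t v - T.lo t v) := Real.volume_Ico

lemma cell_subset {t : ℕ} {v : Sph n} (hv : v ∈ T.N t) :
    Ico (T.lo t v) (T.hi t v) ⊆ Ico (0 : ℝ) 1 := by
  rw [← T.cell t v hv]
  exact fun x hx => hx.1

/-- integration over `[0,1)` by cells -/
lemma lintegral_cells (t : ℕ) (F : ℝ → ℝ≥0∞) :
    ∫⁻ x, F x ∂mu01 = ∑ v ∈ T.N t, ∫⁻ x in Ico (T.lo t v) (T.hi t v), F x := by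
  have h : Ico (0 : ℝ) 1 = ⋃ v ∈ T.N t, Ico (T.lo t v) (T.hi t v) := by
    ext x
    simp only [mem_iUnion]
    constructor
    · intro hx
      refine ⟨T.α t x, T.α_mem t x hx, ?_⟩
      rw [← T.cell t _ (T.α_mem t x hx)]
      exact ⟨hx, rfl⟩
    · rintro ⟨v, hv, hx⟩
      exact T.cell_subset hv hx
  have hd : (T.N t : Set (Sph n)).PairwiseDisjoint fun v => Ico (T.lo t v) (T.hi t v) := by
    intro u hu v hv huv
    rw [Function.onFun, Set.disjoint_left]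
    intro x hx hx'
    rw [← T.cell t u hu] at hx
    rw [← T.cell t v hv] at hx'
    exact huv (hx.2.symm.trans hx'.2)
  unfold mu01
  rw [h, lintegral_biUnion_finset hd fun v _ => measurableSet_Ico]

/-- change of variables -/
lemma lintegral_Ψ {F : Sph n → ℝ≥0∞} (hF : Measurable F) :
    ∫⁻ x, F (T.Ψ x) ∂mu01 = ∫⁻ z, F z ∂sig n := by
  rw [← T.Ψ_map, lintegral_map hF T.Ψ_meas]

lemma near' {t j : ℕ} (h : j ≤ 8 * t + 7) {x : ℝ} (hx : x ∈ Ico (0 : ℝ) 1) :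
    2 ^ j * dd (T.β t x : V n) (T.Ψ x) ≤ 128 * T.C3 := by
  rw [T.β_eq hx, dd_comm]
  have h1 := T.near t x hx
  have h2 : (2 : ℝ) ^ j ≤ 2 ^ (8 * t + 7) := pow_le_pow_right₀ (by norm_num) h
  have h3 := dd_nonneg (T.Ψ x : V n) (T.α t x)
  calc (2 : ℝ) ^ j * dd (T.Ψ x : V n) (T.α t x) ≤ 2 ^ (8 * t + 7) * (T.C3 / 2 ^ (8 * t)) := by
        gcongr
    _ = 128 * T.C3 := by
        rw [pow_add]; field_simp; norm_num; ring

/-- comparison of Peetre functions at `Ψ x` and at the node of the coarse cell -/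
lemma pst_compare : ∃ C : ℝ≥0, ∀ (j t : ℕ) (_ : j ≤ 8 * t + 7) (F : Sph n → ℂ) (x : ℝ),
    x ∈ Ico (0 : ℝ) 1 → pst j F (T.Ψ x) ≤ C * pst j F (T.β t x) ∧
      pst j F (T.β t x) ≤ C * pst j F (T.Ψ x) := by
  have hC3 := T.C3_pos
  refine ⟨((2 * (1 + 128 * T.C3)) ^ LL n).toNNReal, fun j t hjt F x hx => ?_⟩
  have h1 := T.near' hjt hx
  have h2 : wte j (T.β t x) (T.Ψ x) ≤ ENNReal.ofReal (1 + 128 * T.C3) := by
    unfold wte wt
    apply ENNReal.ofReal_le_ofReal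
    linarith
  have h3 : (2 * wte j (T.β t x) (T.Ψ x)) ^ LL n ≤
      (((2 * (1 + 128 * T.C3)) ^ LL n).toNNReal : ℝ≥0∞) := by
    calc (2 * wte j (T.β t x) (T.Ψ x)) ^ LL n ≤ (2 * ENNReal.ofReal (1 + 128 * T.C3)) ^ LL n := by
          gcongr
      _ = ENNReal.ofReal ((2 * (1 + 128 * T.C3)) ^ LL n) := by
          rw [ENNReal.ofReal_pow (by positivity), ENNReal.ofReal_mul (by norm_num)]
          norm_num
      _ = _ := rfl
  constructor
  · refine (pst_slow j F (T.Ψ x) (T.β t x)).trans ?_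
    rw [wte_comm]
    gcongr
  · refine (pst_slow j F (T.β t x) (T.Ψ x)).trans ?_
    gcongr

/-- Carleson estimate on a cell -/
lemma carleson_cell : ∃ C : ℝ≥0, ∀ (b : Sph n → ℂ), BM b → (∀ x, ‖b x‖ ≤ 1) →
    ∀ (t j : ℕ), 8 * t ≤ j → j ≤ 8 * t + 7 → ∀ v ∈ T.N t,
      ∫⁻ x in Ico (T.lo t v) (T.hi t v),
        ∑' i, pst (j + i) (fun w : Sph n => VV (j + i) b w) (T.Ψ x) ^ 2 ≤
        C * volume (Ico (T.lo t v) (T.hi t v)) := by
  have hC3 := T.C3_pos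
  have hc1 := T.c1_pos
  obtain ⟨C, hC⟩ := carleson n (1 + 128 * T.C3) (by linarith)
  refine ⟨C * (T.c1⁻¹).toNNReal, fun b hb hb1 t j hj1 hj2 v hv => ?_⟩
  set R : Set (Sph n) := {z : Sph n | 2 ^ j * dd (v : V n) z ≤ 1 + 128 * T.C3} with hR
  have hRm : MeasurableSet R := measurableSet_le ((measurable_dd v).const_mul _) measurable_const
  set Φ : Sph n → ℝ≥0∞ := fun z => ∑' i, pst (j + i) (fun w : Sph n => VV (j + i) b w) z ^ 2
    with hΦ
  have hΦm : Measurable Φ := Measurable.tsum fun i => (measurable_pst _ _).pow_const 2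
  have hsub : Ico (T.lo t v) (T.hi t v) ⊆ T.Ψ ⁻¹' R := by
    intro x hx
    have h1 : x ∈ Ico (0 : ℝ) 1 ∧ T.α t x = v := by
      have := T.cell t v hv
      rw [← this] at hx
      exact hx
    have h2 := T.near' hj2 h1.1
    rw [T.β_eq h1.1, h1.2] at h2
    change 2 ^ j * dd (v : V n) (T.Ψ x) ≤ 1 + 128 * T.C3
    linarith
  have h1 : ∫⁻ x in Ico (T.lo t v) (T.hi t v), Φ (T.Ψ x) ≤ C * (2 ^ (j * n))⁻¹ := by
    calc ∫⁻ x in Ico (T.lo t v) (T.hi t v), Φ (T.Ψ x)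
        = ∫⁻ x in Ico (T.lo t v) (T.hi t v), R.indicator Φ (T.Ψ x) := by
          refine setLIntegral_congr_fun measurableSet_Ico fun x hx => ?_
          have hxR : T.Ψ x ∈ R := hsub hx
          rw [Set.indicator_of_mem hxR]
      _ ≤ ∫⁻ x, R.indicator Φ (T.Ψ x) ∂mu01 := lintegral_mono_set (T.cell_subset hv)
      _ = ∫⁻ z in R, Φ z ∂sig n := by
          rw [T.lintegral_Ψ (hΦm.indicator hRm), lintegral_indicator hRm]
      _ ≤ _ := hC b hb hb1 v j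
  refine h1.trans ?_
  rw [T.cell_len hv]
  have h2 := T.len_ge t v hv
  have h3 : ((2 : ℝ≥0∞) ^ (j * n))⁻¹ ≤ ENNReal.ofReal (T.c1⁻¹ * (T.hi t v - T.lo t v)) := by
    have h4 : ((2 : ℝ≥0∞) ^ (j * n))⁻¹ = ENNReal.ofReal ((2 ^ (j * n))⁻¹) := by
      rw [ENNReal.ofReal_inv_of_pos (by positivity), ENNReal.ofReal_pow (by norm_num)]
      norm_num
    rw [h4]
    apply ENNReal.ofReal_le_ofReal
    have h5 : (2 : ℝ) ^ (8 * t * n) ≤ 2 ^ (j * n) :=
      pow_le_pow_right₀ (by norm_num) (Nat.mul_le_mul_right n hj1)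
    calc ((2 : ℝ) ^ (j * n))⁻¹ ≤ (2 ^ (8 * t * n))⁻¹ := by gcongr
      _ = T.c1⁻¹ * (T.c1 / 2 ^ (8 * t * n)) := by field_simp
      _ ≤ _ := by gcongr
  calc (C : ℝ≥0∞) * (2 ^ (j * n))⁻¹ ≤ C * ENNReal.ofReal (T.c1⁻¹ * (T.hi t v - T.lo t v)) := by
        gcongr
    _ = _ := by
        rw [ENNReal.ofReal_mul (by positivity)]
        push_cast
        rw [ENNReal.ofReal]
        ring

/-- (III) duality on coarse cells -/
theorem coarse_dual : ∃ C : ℝ≥0, ∀ (b : Sph n → ℂ), BM b → (∀ x, ‖b x‖ ≤ 1) →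
    ∀ (F : ℕ → Sph n → ℂ),
      ∫⁻ x, ∑' j, pst j (F j) (T.Ψ x) * pst j (fun w : Sph n => VV j b w) (T.Ψ x) ∂mu01 ≤
        C * ∫⁻ z, sqf (fun j => pst j (F j)) z ∂sig n := by
  obtain ⟨C1, hC1⟩ := T.pst_compare
  obtain ⟨C2, hC2⟩ := T.carleson_cell
  have hC2' : (C2 : ℝ≥0∞) ≤ ((C2 + 1 : ℝ≥0) : ℝ≥0∞) ^ 2 := by
    have h : C2 ≤ (C2 + 1) ^ 2 := by
      have : (0 : ℝ≥0) ≤ C2 := zero_le
      calc C2 ≤ (C2 + 1) * 1 := by simp
        _ ≤ (C2 + 1) * (C2 + 1) := by gcongr; simp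
        _ = _ := (pow_two _).symm
    exact_mod_cast h
  refine ⟨C1 * (3 * (C2 + 1) * C1), fun b hb hb1 F => ?_⟩
  set u : ℕ → ℝ → ℝ≥0∞ := fun j x => pst j (F j) (T.β (j / 8) x) with hu
  set v : ℕ → ℝ → ℝ≥0∞ := fun j x => pst j (fun w : Sph n => VV j b w) (T.Ψ x) with hv
  have hj8 : ∀ j : ℕ, j ≤ 8 * (j / 8) + 7 := fun j => by omega
  have hj8' : ∀ j : ℕ, 8 * (j / 8) ≤ j := fun j => by omega
  have hum : ∀ j, Measurable (u j) := fun j => T.measurable_comp_β (j / 8) _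
  have hvm : ∀ j, Measurable (v j) := fun j => (measurable_pst _ _).comp T.Ψ_meas
  have hmain := dual_ineq (μ := mu01)
    (fun i x y => x ∈ Ico (0 : ℝ) 1 ∧ y ∈ Ico (0 : ℝ) 1 ∧ T.β (i / 8) x = T.β (i / 8) y)
    (fun i x y h => ⟨h.1, h.2.1, T.β_nested (by omega) h.1 h.2.1 h.2.2⟩) hum hvm
    (fun i x y h => by simp only [hu]; rw [h.2.2]) (C := C2 + 1) (by positivity)
    (fun i g hg hgr => by
      rw [T.lintegral_cells (i / 8), T.lintegral_cells (i / 8), Finset.mul_sum]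
      refine Finset.sum_le_sum fun w hw => ?_
      have hconst : ∀ x ∈ Ico (T.lo (i / 8) w) (T.hi (i / 8) w),
          g x = g (T.lo (i / 8) w) := by
        intro x hx
        have h1 := T.cell (i / 8) w hw
        have hx' : x ∈ Ico (0 : ℝ) 1 ∧ T.α (i / 8) x = w := by
          rw [← h1] at hx; exact hx
        have hlo : T.lo (i / 8) w ∈ Ico (T.lo (i / 8) w) (T.hi (i / 8) w) :=
          ⟨le_rfl, lt_of_le_of_lt hx.1 hx.2⟩
        have hlo' : T.lo (i / 8) w ∈ Ico (0 : ℝ) 1 ∧ T.α (i / 8) (T.lo (i / 8) w) = w := by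
          rw [← h1] at hlo; exact hlo
        apply hgr
        exact ⟨hx'.1, hlo'.1, by rw [T.β_eq hx'.1, T.β_eq hlo'.1, hx'.2, hlo'.2]⟩
      have e1 : ∫⁻ x in Ico (T.lo (i / 8) w) (T.hi (i / 8) w), g x * ∑' j, v (i + j) x ^ 2 =
          g (T.lo (i / 8) w) * ∫⁻ x in Ico (T.lo (i / 8) w) (T.hi (i / 8) w),
            ∑' j, v (i + j) x ^ 2 := by
        rw [← lintegral_const_mul _ (Measurable.tsum fun j => (hvm _).pow_const 2)]
        exact setLIntegral_congr_fun measurableSet_Ico fun x hx => by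
          rw [hconst x hx]
      have e2 : ∫⁻ x in Ico (T.lo (i / 8) w) (T.hi (i / 8) w), g x =
          g (T.lo (i / 8) w) * volume (Ico (T.lo (i / 8) w) (T.hi (i / 8) w)) := by
        rw [← setLIntegral_const]
        exact setLIntegral_congr_fun measurableSet_Ico fun x hx => by
          rw [hconst x hx]
      rw [e1, e2]
      calc g (T.lo (i / 8) w) * ∫⁻ x in Ico (T.lo (i / 8) w) (T.hi (i / 8) w),
            ∑' j, v (i + j) x ^ 2
          ≤ g (T.lo (i / 8) w) * (C2 * volume (Ico (T.lo (i / 8) w) (T.hi (i / 8) w))) := by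
            gcongr
            exact hC2 b hb hb1 (i / 8) i (hj8' i) (hj8 i) w hw
        _ ≤ g (T.lo (i / 8) w) * (((C2 + 1 : ℝ≥0) : ℝ≥0∞) ^ 2 *
            volume (Ico (T.lo (i / 8) w) (T.hi (i / 8) w))) := by gcongr
        _ = _ := by ring)
  have h1 : ∫⁻ x, ∑' j, pst j (F j) (T.Ψ x) * v j x ∂mu01 ≤
      C1 * ∫⁻ x, ∑' j, u j x * v j x ∂mu01 := by
    rw [← lintegral_const_mul' _ _ ENNReal.coe_ne_top]
    refine setLIntegral_mono' measurableSet_Ico fun x hx => ?_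
    rw [← ENNReal.tsum_mul_left]
    refine ENNReal.tsum_le_tsum fun j => ?_
    calc _ ≤ (C1 * u j x) * v j x := by
          gcongr
          exact (hC1 j (j / 8) (hj8 j) (F j) x hx).1
      _ = _ := by ring
  have h2 : ∫⁻ x, sqf u x ∂mu01 ≤ C1 * ∫⁻ z, sqf (fun j => pst j (F j)) z ∂sig n := by
    rw [← T.lintegral_Ψ (meas_sqf fun j => measurable_pst j (F j)),
      ← lintegral_const_mul' _ _ ENNReal.coe_ne_top]
    refine setLIntegral_mono' measurableSet_Ico fun x hx => ?_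
    have h3 : sqf u x ≤ sqf (fun j x => (C1 : ℝ≥0∞) * pst j (F j) (T.Ψ x)) x :=
      sqf_mono fun j => (hC1 j (j / 8) (hj8 j) (F j) x hx).2
    rw [sqf_const_mul] at h3
    exact h3
  calc _ ≤ _ := h1
    _ ≤ C1 * (3 * (C2 + 1 : ℝ≥0) * ∫⁻ x, sqf u x ∂mu01) := by gcongr
    _ ≤ C1 * (3 * (C2 + 1 : ℝ≥0) * (C1 * ∫⁻ z, sqf (fun j => pst j (F j)) z ∂sig n)) := by gcongr
    _ = _ := by push_cast; ring

end TreeData

end Pool.Agent.MP28b1a7
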