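import Pool.Agent.Lib.MP_28b1a7_an.Coarse

/-!
Carleson estimate over arbitrary intervals, and comparison of sums over nodes with integrals.
-/

namespace Pool.Agent.MP28b1a7

open MeasureTheory Filter Topology Set
open scoped InnerProductSpace ENNReal NNReal

namespace TreeData

variable {n : ℕ} [NeZero n] (T : TreeData n)

/-- Carleson estimate over intervals -/
lemma carleson_interval : ∃ C : ℝ≥0, ∀ (b : Sph n → ℂ), BM b → (∀ x, ‖b x‖ ≤ 1) →
    ∀ (s : ℕ) (a a' : ℝ), 0 ≤ a → a ≤ a' → a' ≤ 1 →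
      ∫⁻ x in Ico a a',
        ∑' i, pst (8 * s + i) (fun w : Sph n => VV (8 * s + i) b w) (T.Ψ x) ^ 2 ≤
        C * ENNReal.ofReal (a' - a + 2 * (T.c2 / 2 ^ (8 * s * n))) := by
  obtain ⟨C, hC⟩ := T.carleson_cell
  refine ⟨C, fun b hb hb1 s a a' ha haa' ha' => ?_⟩
  set δ := T.c2 / 2 ^ (8 * s * n) with hδ
  have hδ0 : 0 < δ := by have := T.c2_pos; positivity
  set Φ : ℝ → ℝ≥0∞ := fun x => ∑' i, pst (8 * s + i)
    (fun w : Sph n => VV (8 * s + i) b w) (T.Ψ x) ^ 2 with hΦ
  have h1 : ∫⁻ x in Ico a a', Φ x = ∫⁻ x, (Ico a a').indicator Φ x ∂mu01 := by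
    rw [mu01, lintegral_indicator measurableSet_Ico, Measure.restrict_restrict measurableSet_Ico]
    congr 2
    ext x
    constructor
    · intro hx
      exact ⟨hx, le_trans ha hx.1, lt_of_lt_of_le hx.2 ha'⟩
    · exact fun hx => hx.1
  have h2 : ∫⁻ x, (Ico (a - δ) (a' + δ)).indicator (fun _ => (1 : ℝ≥0∞)) x ∂mu01 ≤
      ENNReal.ofReal (a' - a + 2 * δ) := by
    calc _ ≤ ∫⁻ x, (Ico (a - δ) (a' + δ)).indicator (fun _ => (1 : ℝ≥0∞)) x :=
          lintegral_mono' Measure.restrict_le_self le_rfl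
      _ = volume (Ico (a - δ) (a' + δ)) := by
          rw [lintegral_indicator measurableSet_Ico]; simp
      _ = _ := by rw [Real.volume_Ico]; congr 1; ring
  rw [h1]
  refine le_trans ?_ (mul_le_mul' le_rfl h2)
  rw [T.lintegral_cells s, T.lintegral_cells s, Finset.mul_sum]
  refine Finset.sum_le_sum fun v hv => ?_
  by_cases hmeet : ∃ y ∈ Ico (T.lo s v) (T.hi s v), y ∈ Ico a a'
  · obtain ⟨y, hy, hya⟩ := hmeet
    have hlen := T.len_le s v hv
    rw [← hδ] at hlen
    have h3 : ∫⁻ x in Ico (T.lo s v) (T.hi s v),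
        (Ico (a - δ) (a' + δ)).indicator (fun _ => (1 : ℝ≥0∞)) x =
        volume (Ico (T.lo s v) (T.hi s v)) := by
      rw [← setLIntegral_one]
      refine setLIntegral_congr_fun measurableSet_Ico fun x hx => ?_
      rw [Set.indicator_of_mem]
      constructor
      · linarith [hx.1, hx.2, hy.1, hy.2, hya.1]
      · linarith [hx.1, hx.2, hy.1, hy.2, hya.2]
    rw [h3]
    calc _ ≤ ∫⁻ x in Ico (T.lo s v) (T.hi s v), Φ x :=
          lintegral_mono fun x => Set.indicator_le_self _ _ _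
      _ ≤ _ := hC b hb hb1 s (8 * s) le_rfl (by omega) v hv
  · have h3 : ∫⁻ x in Ico (T.lo s v) (T.hi s v), (Ico a a').indicator Φ x = 0 := by
      rw [← lintegral_zero (μ := volume.restrict (Ico (T.lo s v) (T.hi s v)))]
      refine setLIntegral_congr_fun measurableSet_Ico fun x hx => ?_
      rw [Set.indicator_of_notMem]
      intro hxa
      exact hmeet ⟨x, hx, hxa⟩
    rw [h3]
    exact zero_le

/-- Bochner integral of a function of the node -/
lemma integral_β (t : ℕ) (F : Sph n → ℂ) :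
    ∫ x, F (T.β t x) ∂mu01 = ∑ v ∈ T.N t, ((T.hi t v - T.lo t v : ℝ) : ℂ) * F v := by
  classical
  have h : Ico (0 : ℝ) 1 = ⋃ v ∈ T.N t, Ico (T.lo t v) (T.hi t v) := by
    ext x
    simp only [mem_iUnion]
    constructor
    · intro hx
      refine ⟨T.α t x, T.α_mem t x hx, ?_⟩
      rw [← T.cell t _ (T.α_mem t x hx)]
      exact ⟨hx, rfl⟩
    · rintro ⟨v, hv, hx⟩
      exact T.cell_subset hv hx
  have hd : (T.N t : Set (Sph n)).Pairwise (Function.onFun Disjoint
      fun v => Ico (T.lo t v) (T.hi t v)) := by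
    intro u hu v hv huv
    rw [Function.onFun, Set.disjoint_left]
    intro x hx hx'
    rw [← T.cell t u hu] at hx
    rw [← T.cell t v hv] at hx'
    exact huv (hx.2.symm.trans hx'.2)
  have hconst : ∀ v ∈ T.N t, ∀ x ∈ Ico (T.lo t v) (T.hi t v), F (T.β t x) = F v := by
    intro v hv x hx
    rw [← T.cell t v hv] at hx
    rw [T.β_eq hx.1, hx.2]
  unfold mu01
  rw [h, integral_biUnion_finset _ (fun v _ => measurableSet_Ico) hd]
  · refine Finset.sum_congr rfl fun v hv => ?_
    rw [setIntegral_congr_fun measurableSet_Ico (hconst v hv), setIntegral_const]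
    have hlo : T.lo t v ≤ T.hi t v := by
      have h1 := T.len_ge t v hv
      have h2 : 0 < T.c1 / (2 : ℝ) ^ (8 * t * n) := by have := T.c1_pos; positivity
      linarith
    rw [Measure.real, Real.volume_Ico, ENNReal.toReal_ofReal (by linarith)]
    rfl
  · intro v hv
    apply IntegrableOn.congr_fun (f := fun _ => F v) _ (fun x hx => (hconst v hv x hx).symm)
      measurableSet_Ico
    exact integrableOn_const (by rw [Real.volume_Ico]; exact ENNReal.ofReal_ne_top)

/-- Bochner change of variables -/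
lemma integral_Ψ {F : Sph n → ℂ} (hF : Measurable F) :
    ∫ x, F (T.Ψ x) ∂mu01 = ∫ z, F z ∂sig n := by
  rw [← T.Ψ_map, integral_map T.Ψ_meas.aemeasurable hF.aestronglyMeasurable]

end TreeData

end Pool.Agent.MP28b1a7
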