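import Pool.Agent.Lib.MP_28b1a7_an.FS2

/-!
The duality inequality between the `H^1`-type square function norm and Carleson sequences.
-/

namespace Pool.Agent.MP28b1a7

open MeasureTheory ENNReal
open scoped NNReal

variable {X : Type*}

/-- partial square functions -/
noncomputable def BB (u : ℕ → X → ℝ≥0∞) (i : ℕ) (x : X) : ℝ≥0∞ :=
  (∑ l ∈ Finset.range i, u l x ^ 2) ^ (1 / 2 : ℝ)

lemma BB_sq (u : ℕ → X → ℝ≥0∞) (i : ℕ) (x : X) :
    BB u i x ^ 2 = ∑ l ∈ Finset.range i, u l x ^ 2 := by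
  unfold BB
  rw [← ENNReal.rpow_natCast, ← ENNReal.rpow_mul]; norm_num

lemma BB_zero (u : ℕ → X → ℝ≥0∞) (x : X) : BB u 0 x = 0 := by
  unfold BB; simp

lemma BB_mono (u : ℕ → X → ℝ≥0∞) {i j : ℕ} (h : i ≤ j) (x : X) : BB u i x ≤ BB u j x := by
  unfold BB
  apply ENNReal.rpow_le_rpow _ (by norm_num)
  exact Finset.sum_le_sum_of_subset (Finset.range_mono h)

lemma BB_le_sqf (u : ℕ → X → ℝ≥0∞) (i : ℕ) (x : X) : BB u i x ≤ sqf u x := by
  unfold BB sqf
  apply ENNReal.rpow_le_rpow _ (by norm_num)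
  exact ENNReal.sum_le_tsum _

/-- increments -/
noncomputable def dB (u : ℕ → X → ℝ≥0∞) (i : ℕ) (x : X) : ℝ≥0∞ := BB u (i + 1) x - BB u i x

lemma sum_dB (u : ℕ → X → ℝ≥0∞) (x : X) (n : ℕ) :
    ∑ i ∈ Finset.range n, dB u i x = BB u n x := by
  induction n with
  | zero => simp [BB_zero]
  | succ n ih =>
    rw [Finset.sum_range_succ, ih]
    unfold dB
    rw [add_tsub_cancel_of_le (BB_mono u (Nat.le_succ n) x)]

lemma tsum_dB_le (u : ℕ → X → ℝ≥0∞) (x : X) : ∑' i, dB u i x ≤ sqf u x := by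
  rw [ENNReal.tsum_eq_iSup_nat]
  exact iSup_le fun n => by rw [sum_dB]; exact BB_le_sqf u n x

lemma u_sq_le (u : ℕ → X → ℝ≥0∞) (x : X) (hx : sqf u x < ∞) (i : ℕ) :
    u i x ^ 2 ≤ 2 * (BB u (i + 1) x * dB u i x) := by
  have hB : BB u i x ≠ ∞ := ((BB_le_sqf u i x).trans_lt hx).ne
  have h1 : BB u i x + dB u i x = BB u (i + 1) x := by
    unfold dB
    rw [add_tsub_cancel_of_le (BB_mono u (Nat.le_succ i) x)]
  have h2 : BB u (i + 1) x ^ 2 = BB u i x ^ 2 + u i x ^ 2 := by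
    rw [BB_sq, BB_sq, Finset.sum_range_succ]
  have h3 : BB u i x ^ 2 + u i x ^ 2 = BB u i x ^ 2 +
      (2 * BB u i x * dB u i x + dB u i x ^ 2) := by
    rw [← h2, ← h1]; ring
  have h4 : u i x ^ 2 = 2 * BB u i x * dB u i x + dB u i x ^ 2 :=
    (ENNReal.add_right_inj (by finiteness)).mp h3
  rw [h4, ← h1]
  calc 2 * BB u i x * dB u i x + dB u i x ^ 2
      ≤ 2 * BB u i x * dB u i x + 2 * dB u i x ^ 2 := by
        gcongr
        exact le_mul_of_one_le_left zero_le (by norm_num)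
    _ = _ := by ring

lemma amgm {C u v A : ℝ≥0∞} (hC0 : C ≠ 0) (hC : C ≠ ∞) (hA0 : A ≠ 0) (hA : A ≠ ∞) :
    u * v ≤ C * (u ^ 2 * A⁻¹) + C⁻¹ * (v ^ 2 * A) := by
  rcases le_total v (C * u * A⁻¹) with h | h
  · calc u * v ≤ u * (C * u * A⁻¹) := by gcongr
      _ = C * (u ^ 2 * A⁻¹) := by ring
      _ ≤ _ := le_self_add
  · have h2 : u ≤ C⁻¹ * v * A := by
      calc u = (C⁻¹ * C) * u * (A⁻¹ * A) := by
            rw [ENNReal.inv_mul_cancel hC0 hC, ENNReal.inv_mul_cancel hA0 hA]; ring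
        _ = C⁻¹ * (C * u * A⁻¹) * A := by ring
        _ ≤ C⁻¹ * v * A := by gcongr
    calc u * v ≤ (C⁻¹ * v * A) * v := by gcongr
      _ = C⁻¹ * (v ^ 2 * A) := by ring
      _ ≤ _ := le_add_self

variable [MeasurableSpace X]

lemma meas_BB {u : ℕ → X → ℝ≥0∞} (hu : ∀ i, Measurable (u i)) (i : ℕ) : Measurable (BB u i) := by
  unfold BB
  exact (Finset.measurable_sum _ fun l _ => (hu l).pow_const 2).pow_const _

lemma meas_dB {u : ℕ → X → ℝ≥0∞} (hu : ∀ i, Measurable (u i)) (i : ℕ) : Measurable (dB u i) := by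
  unfold dB
  exact (meas_BB hu _).sub (meas_BB hu _)

/-- The duality inequality. -/
theorem dual_ineq {μ : Measure X} (r : ℕ → X → X → Prop)
    (hr : ∀ i x y, r (i + 1) x y → r i x y) {u v : ℕ → X → ℝ≥0∞} (hum : ∀ i, Measurable (u i))
    (hvm : ∀ i, Measurable (v i)) (hu : ∀ i x y, r i x y → u i x = u i y) {C : ℝ≥0} (hC : 0 < C)
    (hv : ∀ i (g : X → ℝ≥0∞), Measurable g → (∀ x y, r i x y → g x = g y) →
      ∫⁻ x, g x * ∑' j, v (i + j) x ^ 2 ∂μ ≤ (C : ℝ≥0∞) ^ 2 * ∫⁻ x, g x ∂μ) :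
    ∫⁻ x, ∑' i, u i x * v i x ∂μ ≤ 3 * C * ∫⁻ x, sqf u x ∂μ := by
  have hSm : Measurable (sqf u) := meas_sqf hum
  by_cases hfin : ∫⁻ x, sqf u x ∂μ = ∞
  · rw [hfin, ENNReal.mul_top]
    · exact le_top
    · have : (3 * (C : ℝ≥0∞)) ≠ 0 := by
        simp only [ne_eq, mul_eq_zero, OfNat.ofNat_ne_zero, coe_eq_zero, false_or]
        exact hC.ne'
      exact this
  have hae : ∀ᵐ x ∂μ, sqf u x < ∞ := ae_lt_top hSm hfin
  have hC0 : (C : ℝ≥0∞) ≠ 0 := by simpa using hC.ne'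
  have hCt : (C : ℝ≥0∞) ≠ ∞ := coe_ne_top
  have hrle : ∀ i j, i ≤ j → ∀ x y, r j x y → r i x y := by
    intro i j hij
    induction j, hij using Nat.le_induction with
    | base => exact fun _ _ h => h
    | succ j _ ih => exact fun x y h => ih x y (hr j x y h)
  have hdc : ∀ i x y, r i x y → dB u i x = dB u i y := by
    intro i x y hxy
    have h1 : ∀ l ≤ i, u l x = u l y := fun l hl => hu l x y (hrle l i hl x y hxy)
    unfold dB BB
    congr 2
    · exact Finset.sum_congr rfl fun l hl => by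
        rw [h1 l (Nat.lt_succ_iff.mp (Finset.mem_range.mp hl))]
    · exact Finset.sum_congr rfl fun l hl => by
        rw [h1 l (Finset.mem_range.mp hl).le]
  have hpt : ∀ᵐ x ∂μ, ∑' i, u i x * v i x ≤ 2 * C * ∑' i, dB u i x +
      (C : ℝ≥0∞)⁻¹ * ∑' i, v i x ^ 2 * BB u (i + 1) x := by
    filter_upwards [hae] with x hx
    rw [← ENNReal.tsum_mul_left, ← ENNReal.tsum_mul_left, ← ENNReal.tsum_add]
    refine ENNReal.tsum_le_tsum fun i => ?_
    have hfi : BB u (i + 1) x ≠ ∞ := ((BB_le_sqf u _ x).trans_lt hx).ne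
    rcases eq_or_ne (BB u (i + 1) x) 0 with h0 | h0
    · have : u i x = 0 := by
        have h1 := BB_sq u (i + 1) x
        rw [h0] at h1
        have h2 : u i x ^ 2 = 0 := by
          have h3 : ∑ l ∈ Finset.range (i + 1), u l x ^ 2 = 0 := by rw [← h1]; simp
          exact (Finset.sum_eq_zero_iff.mp h3) i (Finset.self_mem_range_succ i)
        simpa using h2
      rw [this, zero_mul]; exact zero_le
    · refine (amgm hC0 hCt h0 hfi).trans ?_
      gcongr ?_ + ?_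
      · have h1 := u_sq_le u x hx i
        calc (C : ℝ≥0∞) * (u i x ^ 2 * (BB u (i + 1) x)⁻¹)
            ≤ C * (2 * (BB u (i + 1) x * dB u i x) * (BB u (i + 1) x)⁻¹) := by gcongr
          _ = 2 * C * dB u i x * (BB u (i + 1) x * (BB u (i + 1) x)⁻¹) := by ring
          _ = 2 * C * dB u i x := by rw [ENNReal.mul_inv_cancel h0 hfi, mul_one]
      · exact le_rfl
  have hA : ∫⁻ x, ∑' i, dB u i x ∂μ ≤ ∫⁻ x, sqf u x ∂μ := lintegral_mono fun x => tsum_dB_le u x
  have hB : ∫⁻ x, ∑' i, v i x ^ 2 * BB u (i + 1) x ∂μ ≤ (C : ℝ≥0∞) ^ 2 * ∫⁻ x, sqf u x ∂μ := by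
    have e : ∀ x, ∑' i, v i x ^ 2 * BB u (i + 1) x =
        ∑' l, dB u l x * ∑' j, v (l + j) x ^ 2 := by
      intro x
      have e1 : ∀ i, v i x ^ 2 * BB u (i + 1) x =
          ∑' l, if l ≤ i then v i x ^ 2 * dB u l x else 0 := by
        intro i
        rw [← sum_dB, Finset.mul_sum, tsum_eq_sum (s := Finset.range (i + 1))]
        · refine Finset.sum_congr rfl fun l hl => ?_
          rw [if_pos (Nat.lt_succ_iff.mp (Finset.mem_range.mp hl))]
        · intro l hl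
          rw [if_neg]
          intro h
          exact hl (Finset.mem_range.mpr (Nat.lt_succ_iff.mpr h))
      simp_rw [e1]
      rw [ENNReal.tsum_comm]
      refine tsum_congr fun l => ?_
      rw [← ENNReal.tsum_mul_left]
      have e2 : ∑' i, (if l ≤ i then v i x ^ 2 * dB u l x else 0) =
          ∑' j, v (l + j) x ^ 2 * dB u l x := by
        have hinj : Function.Injective (fun j : ℕ => l + j) := fun a b h => by
          simpa using h
        have h3 := hinj.tsum_eq (f := fun i => if l ≤ i then v i x ^ 2 * dB u l x else 0) (by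
          intro i hi
          rw [Function.mem_support] at hi
          by_cases hli : l ≤ i
          · exact ⟨i - l, by simp only; omega⟩
          · simp only [hli, if_false] at hi; exact absurd rfl hi)
        rw [← h3]
        refine tsum_congr fun j => ?_
        simp
      rw [e2]
      exact tsum_congr fun j => mul_comm _ _
    simp_rw [e]
    rw [lintegral_tsum]
    · calc ∑' l, ∫⁻ x, dB u l x * ∑' j, v (l + j) x ^ 2 ∂μ ≤
            ∑' l, (C : ℝ≥0∞) ^ 2 * ∫⁻ x, dB u l x ∂μ :=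
            ENNReal.tsum_le_tsum fun l => hv l (dB u l) (meas_dB hum l) (hdc l)
        _ = (C : ℝ≥0∞) ^ 2 * ∫⁻ x, ∑' l, dB u l x ∂μ := by
            rw [ENNReal.tsum_mul_left, lintegral_tsum fun l => (meas_dB hum l).aemeasurable]
        _ ≤ _ := by gcongr
    · intro l
      exact ((meas_dB hum l).mul (Measurable.tsum fun j => (hvm _).pow_const 2)).aemeasurable
  calc ∫⁻ x, ∑' i, u i x * v i x ∂μ ≤ ∫⁻ x, (2 * C * ∑' i, dB u i x +
      (C : ℝ≥0∞)⁻¹ * ∑' i, v i x ^ 2 * BB u (i + 1) x) ∂μ := lintegral_mono_ae hpt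
    _ = 2 * C * ∫⁻ x, ∑' i, dB u i x ∂μ +
        (C : ℝ≥0∞)⁻¹ * ∫⁻ x, ∑' i, v i x ^ 2 * BB u (i + 1) x ∂μ := by
        have m1 : Measurable fun x => ∑' i, dB u i x := Measurable.tsum fun i => meas_dB hum i
        have m2 : Measurable fun x => ∑' i, v i x ^ 2 * BB u (i + 1) x :=
          Measurable.tsum fun i => ((hvm i).pow_const 2).mul (meas_BB hum _)
        rw [lintegral_add_left (m1.const_mul _), lintegral_const_mul _ m1,
          lintegral_const_mul _ m2]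
    _ ≤ 2 * C * ∫⁻ x, sqf u x ∂μ + (C : ℝ≥0∞)⁻¹ * ((C : ℝ≥0∞) ^ 2 * ∫⁻ x, sqf u x ∂μ) := by
        gcongr
    _ = 3 * C * ∫⁻ x, sqf u x ∂μ := by
        have : (C : ℝ≥0∞)⁻¹ * ((C : ℝ≥0∞) ^ 2 * ∫⁻ x, sqf u x ∂μ) =
            ((C : ℝ≥0∞)⁻¹ * C) * (C * ∫⁻ x, sqf u x ∂μ) := by ring
        rw [this, ENNReal.inv_mul_cancel hC0 hCt]
        ring

end Pool.Agent.MP28b1a7
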