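import Pool.Agent.Lib.MP_28b1a7_an.FS

/-!
Vector-valued inequality.
-/

namespace Pool.Agent.MP28b1a7

open MeasureTheory ENNReal
open scoped NNReal

variable {X : Type*} [MeasurableSpace X]
variable {μ : Measure X} [SFinite μ] {k : ℕ → X → X → ℝ≥0∞} {C : ℝ≥0}

/-- square function -/
noncomputable def sqf {ι : Type*} (G : ι → X → ℝ≥0∞) (x : X) : ℝ≥0∞ :=
  (∑' j, G j x ^ 2) ^ (1 / 2 : ℝ)

omit [MeasurableSpace X] in
lemma sqf_sq {ι : Type*} (G : ι → X → ℝ≥0∞) (x : X) : sqf G x ^ 2 = ∑' j, G j x ^ 2 := by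
  unfold sqf
  rw [← ENNReal.rpow_natCast, ← ENNReal.rpow_mul]; norm_num

lemma meas_sqf {ι : Type*} [Countable ι] {G : ι → X → ℝ≥0∞} (hG : ∀ j, Measurable (G j)) :
    Measurable (sqf G) := by
  unfold sqf
  exact (Measurable.tsum fun j => (hG j).pow_const 2).pow_const _

omit [MeasurableSpace X] in
lemma sqf_mono {ι : Type*} {G G' : ι → X → ℝ≥0∞} {x : X} (h : ∀ j, G j x ≤ G' j x) :
    sqf G x ≤ sqf G' x := by
  unfold sqf
  apply ENNReal.rpow_le_rpow _ (by norm_num)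
  exact ENNReal.tsum_le_tsum fun j => pow_le_pow_left' (h j) 2

omit [MeasurableSpace X] in
lemma le_sqf {ι : Type*} (G : ι → X → ℝ≥0∞) (x : X) (j : ι) : G j x ≤ sqf G x := by
  rw [← ENNReal.pow_le_pow_left_iff two_ne_zero, sqf_sq]
  exact ENNReal.le_tsum j

omit [MeasurableSpace X] in
lemma sqf_const_mul {ι : Type*} (c : ℝ≥0∞) (G : ι → X → ℝ≥0∞) (x : X) :
    sqf (fun j x => c * G j x) x = c * sqf G x := by
  unfold sqf
  simp_rw [mul_pow]
  rw [ENNReal.tsum_mul_left, mul_rpow_of_nonneg _ _ (by norm_num), ← ENNReal.rpow_natCast,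
    ← ENNReal.rpow_mul]
  norm_num

theorem FS_ineq (H : KF μ k C) {G : ℕ → X → ℝ≥0∞} (hG : ∀ j, Measurable (G j)) :
    ∫⁻ x, (∑' j, (TK μ k j (fun y => G j y ^ (2 / 3 : ℝ)) x) ^ 3) ^ (1 / 2 : ℝ) ∂μ ≤
      (2 * C ^ 2 : ℝ≥0) * ∫⁻ x, sqf G x ∂μ := by
  set S := sqf G with hS
  have hSm : Measurable S := meas_sqf hG
  have hC1 : 1 ≤ C := H.one_le
  by_cases hfin : ∫⁻ x, S x ∂μ = ∞
  · rw [hfin, ENNReal.mul_top]
    · exact le_top
    · rw [ne_eq, coe_eq_zero]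
      exact (mul_pos two_pos (pow_pos (lt_of_lt_of_le one_pos hC1) 2)).ne'
  have hae : ∀ᵐ x ∂μ, S x < ∞ := ae_lt_top hSm hfin
  set U : ℕ → X → ℝ≥0∞ := fun j y => G j y ^ 2 * (S y)⁻¹ with hU
  have hUm : ∀ j, Measurable (U j) := fun j => ((hG j).pow_const 2).mul hSm.inv
  have hpt : ∀ j y, S y < ∞ → G j y ^ (2 / 3 : ℝ) =
      (S y ^ (1 / 2 : ℝ)) ^ (2 / 3 : ℝ) * (U j y) ^ (1 / 3 : ℝ) := by
    intro j y hy
    rcases eq_or_ne (S y) 0 with h0 | h0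
    · have : G j y = 0 := le_antisymm (by rw [← h0]; exact le_sqf G y j) zero_le
      rw [this, h0, ENNReal.zero_rpow_of_pos (by norm_num), ENNReal.zero_rpow_of_pos (by norm_num),
        ENNReal.zero_rpow_of_pos (by norm_num), zero_mul]
    · rw [hU]
      simp only
      rw [mul_rpow_of_nonneg _ _ (by norm_num : (0 : ℝ) ≤ 1 / 3), ENNReal.inv_rpow,
        ← ENNReal.rpow_mul, ← ENNReal.rpow_natCast, ← ENNReal.rpow_mul]
      have e1 : (1 / 2 : ℝ) * (2 / 3) = 1 / 3 := by norm_num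
      have e2 : ((2 : ℕ) : ℝ) * (1 / 3) = 2 / 3 := by norm_num
      rw [e1, e2]
      have h1 : S y ^ (1 / 3 : ℝ) ≠ 0 := by
        intro h
        rw [ENNReal.rpow_eq_zero_iff] at h
        rcases h with h | h
        · exact h0 h.1
        · exact absurd h.2 (by norm_num)
      have h2 : S y ^ (1 / 3 : ℝ) ≠ ∞ := ENNReal.rpow_ne_top_of_nonneg (by norm_num) hy.ne
      calc G j y ^ (2 / 3 : ℝ) = G j y ^ (2 / 3 : ℝ) * (S y ^ (1 / 3 : ℝ) *
            (S y ^ (1 / 3 : ℝ))⁻¹) := by rw [ENNReal.mul_inv_cancel h1 h2, mul_one]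
        _ = _ := by ring
  set A : X → ℝ≥0∞ := fun y => S y ^ (1 / 2 : ℝ) with hA
  have hAm : Measurable A := hSm.pow_const _
  have hT : ∀ j x, (TK μ k j (fun y => G j y ^ (2 / 3 : ℝ)) x) ^ 3 ≤
      (TK μ k j A x) ^ 2 * TK μ k j (U j) x := by
    intro j x
    have hkm := meas_k_left H.meas j x
    have h1 : TK μ k j (fun y => G j y ^ (2 / 3 : ℝ)) x ≤
        (TK μ k j A x) ^ (2 / 3 : ℝ) * (TK μ k j (U j) x) ^ (1 / 3 : ℝ) := by
      unfold TK
      have hm1 : Measurable fun y => k j x y * A y := hkm.mul hAm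
      have hm2 : Measurable fun y => k j x y * U j y := hkm.mul (hUm j)
      have h := lintegral_mul_norm_pow_le (μ := μ) (f := fun y => k j x y * A y)
        (g := fun y => k j x y * U j y) hm1.aemeasurable hm2.aemeasurable
        (p := 2 / 3) (q := 1 / 3) (by norm_num) (by norm_num) (by norm_num)
      refine le_trans (le_of_eq ?_) h
      refine lintegral_congr_ae ?_
      filter_upwards [hae] with y hy
      rw [hpt j y hy, mul_rpow_of_nonneg (k j x y) (A y) (by norm_num : (0 : ℝ) ≤ 2 / 3),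
        mul_rpow_of_nonneg (k j x y) (U j y) (by norm_num : (0 : ℝ) ≤ 1 / 3)]
      have e : k j x y = k j x y ^ (2 / 3 : ℝ) * k j x y ^ (1 / 3 : ℝ) := by
        rw [← ENNReal.rpow_add_of_nonneg _ _ (by norm_num) (by norm_num)]
        norm_num
      conv_lhs => rw [e]
      rw [hA]
      ring
    calc _ ≤ ((TK μ k j A x) ^ (2 / 3 : ℝ) * (TK μ k j (U j) x) ^ (1 / 3 : ℝ)) ^ 3 := by gcongr
      _ = _ := by
        rw [mul_pow, ← ENNReal.rpow_natCast, ← ENNReal.rpow_mul, ← ENNReal.rpow_natCast,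
          ← ENNReal.rpow_mul]
        have e1 : (2 / 3 : ℝ) * ((3 : ℕ) : ℝ) = ((2 : ℕ) : ℝ) := by norm_num
        have e2 : (1 / 3 : ℝ) * ((3 : ℕ) : ℝ) = 1 := by norm_num
        rw [e1, e2, ENNReal.rpow_natCast, ENNReal.rpow_one]
  set P : X → ℝ≥0∞ := fun x => ⨆ j, TK μ k j A x with hP
  have hPm : Measurable P := Measurable.iSup fun j => meas_TK H.meas j hAm
  set Q : X → ℝ≥0∞ := fun x => ∑' j, TK μ k j (U j) x with hQ
  have hQm : Measurable Q := Measurable.tsum fun j => meas_TK H.meas j (hUm j)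
  have hpoint : ∀ x, (∑' j, (TK μ k j (fun y => G j y ^ (2 / 3 : ℝ)) x) ^ 3) ^ (1 / 2 : ℝ) ≤
      P x * Q x ^ (1 / 2 : ℝ) := by
    intro x
    have h1 : ∑' j, (TK μ k j (fun y => G j y ^ (2 / 3 : ℝ)) x) ^ 3 ≤ P x ^ 2 * Q x := by
      rw [hQ, ← ENNReal.tsum_mul_left]
      refine ENNReal.tsum_le_tsum fun j => (hT j x).trans ?_
      gcongr
      exact le_iSup (fun j => TK μ k j A x) j
    calc _ ≤ (P x ^ 2 * Q x) ^ (1 / 2 : ℝ) := ENNReal.rpow_le_rpow h1 (by norm_num)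
      _ = _ := by
        rw [mul_rpow_of_nonneg _ _ (by norm_num), ← ENNReal.rpow_natCast, ← ENNReal.rpow_mul]
        norm_num
  have hmain : (∫⁻ x, P x * Q x ^ (1 / 2 : ℝ) ∂μ) ^ 2 ≤
      ((2 * C ^ 2 : ℝ≥0) * ∫⁻ x, S x ∂μ) ^ 2 := by
    have h1 := CS (μ := μ) hPm (hQm.pow_const (1 / 2 : ℝ))
    have e1 : ∀ a : ℝ≥0∞, (a ^ (1 / 2 : ℝ)) ^ 2 = a := by
      intro a
      rw [← ENNReal.rpow_natCast, ← ENNReal.rpow_mul]; norm_num
    simp only [e1] at h1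
    have h2 : ∫⁻ x, P x ^ 2 ∂μ ≤ (2 * C) ^ 2 * ∫⁻ x, S x ∂μ := by
      have := max_L2 H hAm
      simpa only [hA, e1] using this
    have h3 : ∫⁻ x, Q x ∂μ ≤ C * ∫⁻ x, S x ∂μ := by
      rw [hQ, lintegral_tsum fun j => (meas_TK H.meas j (hUm j)).aemeasurable]
      calc ∑' j, ∫⁻ x, TK μ k j (U j) x ∂μ ≤ ∑' j, C * ∫⁻ x, U j x ∂μ :=
            ENNReal.tsum_le_tsum fun j => lintegral_TK_le H j (hUm j)
        _ = C * ∑' j, ∫⁻ x, U j x ∂μ := ENNReal.tsum_mul_left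
        _ = C * ∫⁻ x, ∑' j, U j x ∂μ := by
            rw [lintegral_tsum fun j => (hUm j).aemeasurable]
        _ ≤ C * ∫⁻ x, S x ∂μ := by
            gcongr with x
            rw [hU]
            simp only
            rw [ENNReal.tsum_mul_right, ← sqf_sq G x, ← hS, pow_two, mul_assoc]
            exact mul_le_of_le_one_right' (ENNReal.mul_inv_le_one _)
    calc _ ≤ _ := h1
      _ ≤ ((2 * C) ^ 2 * ∫⁻ x, S x ∂μ) * (C * ∫⁻ x, S x ∂μ) := by gcongr
      _ = (4 * (C : ℝ≥0∞) ^ 3) * (∫⁻ x, S x ∂μ) ^ 2 := by ring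
      _ ≤ (4 * (C : ℝ≥0∞) ^ 4) * (∫⁻ x, S x ∂μ) ^ 2 := by
          gcongr
          · exact_mod_cast hC1
          · norm_num
      _ = _ := by push_cast; ring
  calc _ ≤ ∫⁻ x, P x * Q x ^ (1 / 2 : ℝ) ∂μ := lintegral_mono hpoint
    _ ≤ _ := (ENNReal.pow_le_pow_left_iff two_ne_zero).mp hmain

end Pool.Agent.MP28b1a7
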