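import Mathlib

/-!
Estimates for kernels `∑ m(k/2^j) q(k) w^k` with smooth compactly supported `m`.
-/

namespace Pool.Agent.MP28b1a7

open scoped ContDiff
open Finset

/-- backward difference -/
def fd (h : ℝ) (m : ℝ → ℝ) : ℝ → ℝ := fun x => m x - m (x - h)

lemma fd_contDiff {h : ℝ} {m : ℝ → ℝ} (hm : ContDiff ℝ ∞ m) : ContDiff ℝ ∞ (fd h m) := by
  unfold fd; fun_prop

lemma fd_iter_bound {h : ℝ} (hh : 0 ≤ h) (N : ℕ) : ∀ (m : ℝ → ℝ) (C : ℝ), ContDiff ℝ ∞ m →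
    (∀ x, |iteratedDeriv N m x| ≤ C) → ∀ x, |((fd h)^[N] m) x| ≤ C * h ^ N := by
  induction N with
  | zero => intro m C hm hb x; simpa using hb x
  | succ N ih =>
    intro m C hm hb x
    rw [Function.iterate_succ, Function.comp]
    have h1 : ∀ x, |iteratedDeriv N (fd h m) x| ≤ C * h := by
      intro y
      have e : iteratedDeriv N (fd h m) y = iteratedDeriv N m y - iteratedDeriv N m (y - h) := by
        have := iteratedDeriv_fun_sub (n := N) (f := m) (g := fun z => m (z - h)) (x := y)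
          (hm.contDiffAt.of_le (by exact_mod_cast le_top))
          ((hm.comp (contDiff_id.sub contDiff_const)).contDiffAt.of_le (by exact_mod_cast le_top))
        rw [iteratedDeriv_comp_sub_const] at this
        exact this
      rw [e]
      have h2 := Convex.norm_image_sub_le_of_norm_deriv_le (f := iteratedDeriv N m)
        (s := Set.univ) (x := y - h) (y := y) (C := C)
        (fun z _ => by
          have := hm.differentiable_iteratedDeriv N (by exact_mod_cast WithTop.coe_lt_top _)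
          exact this z)
        (fun z _ => by
          have := hb z
          rw [iteratedDeriv_succ] at this
          simpa using this) convex_univ (Set.mem_univ _) (Set.mem_univ _)
      simp only [sub_sub_cancel, Real.norm_eq_abs, abs_of_nonneg hh] at h2
      exact h2
    have := ih (fd h m) (C * h) (fd_contDiff hm) h1 x
    calc _ ≤ C * h * h ^ N := this
      _ = C * h ^ (N + 1) := by ring

lemma fd_iter_contDiff {h : ℝ} {m : ℝ → ℝ} (hm : ContDiff ℝ ∞ m) (N : ℕ) :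
    ContDiff ℝ ∞ ((fd h)^[N] m) := by
  induction N with
  | zero => simpa using hm
  | succ N ih => rw [Function.iterate_succ_apply']; exact fd_contDiff ih

lemma fd_iter_zero_left {h : ℝ} (hh : 0 ≤ h) {m : ℝ → ℝ} (hm : ∀ x ≤ 0, m x = 0) (N : ℕ) :
    ∀ x ≤ 0, ((fd h)^[N] m) x = 0 := by
  induction N with
  | zero => simpa using hm
  | succ N ih =>
    intro x hx
    rw [Function.iterate_succ_apply']
    change (fd h)^[N] m x - (fd h)^[N] m (x - h) = 0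
    rw [ih x hx, ih (x - h) (by linarith), sub_zero]

lemma fd_iter_zero_right {h : ℝ} (hh : 0 ≤ h) {m : ℝ → ℝ} {R : ℝ} (hm : ∀ x, R ≤ x → m x = 0)
    (N : ℕ) : ∀ x, R + N * h ≤ x → ((fd h)^[N] m) x = 0 := by
  induction N with
  | zero => simpa using hm
  | succ N ih =>
    intro x hx
    rw [Function.iterate_succ_apply']
    change (fd h)^[N] m x - (fd h)^[N] m (x - h) = 0
    push_cast at hx
    rw [ih x (by nlinarith), ih (x - h) (by nlinarith), sub_zero]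

/-- the partial sum -/
noncomputable def ks (m : ℝ → ℝ) (h : ℝ) (δ M : ℕ) (w : ℂ) : ℂ :=
  ∑ k ∈ range M, ((m (((k + δ : ℕ) : ℝ) * h) : ℝ) : ℂ) * w ^ k

lemma ks_step {m : ℝ → ℝ} {h : ℝ} {δ M : ℕ} (hδ : m (((δ : ℝ) - 1) * h) = 0)
    (hM : m (((M + δ : ℕ) : ℝ) * h) = 0) (w : ℂ) :
    (1 - w) * ks m h δ M w = ks (fd h m) h δ (M + 1) w := by
  unfold ks
  have e1 : ∑ k ∈ range (M + 1), ((fd h m (((k + δ : ℕ) : ℝ) * h) : ℝ) : ℂ) * w ^ k =
      ∑ k ∈ range (M + 1), ((m (((k + δ : ℕ) : ℝ) * h) : ℝ) : ℂ) * w ^ k -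
      ∑ k ∈ range (M + 1), ((m (((k + δ : ℕ) : ℝ) * h - h) : ℝ) : ℂ) * w ^ k := by
    rw [← sum_sub_distrib]
    refine sum_congr rfl fun k _ => ?_
    unfold fd
    push_cast
    ring
  rw [e1, sum_range_succ, hM, sum_range_succ' (fun k => ((m (((k + δ : ℕ) : ℝ) * h - h) : ℝ) : ℂ)
    * w ^ k)]
  have e2 : m (((0 + δ : ℕ) : ℝ) * h - h) = 0 := by
    have : (((0 + δ : ℕ) : ℝ) * h - h) = ((δ : ℝ) - 1) * h := by push_cast; ring
    rw [this, hδ]
  rw [e2]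
  have e3 : ∑ k ∈ range M, ((m (((k + 1 + δ : ℕ) : ℝ) * h - h) : ℝ) : ℂ) * w ^ (k + 1) =
      w * ∑ k ∈ range M, ((m (((k + δ : ℕ) : ℝ) * h) : ℝ) : ℂ) * w ^ k := by
    rw [mul_sum]
    refine sum_congr rfl fun k _ => ?_
    have : (((k + 1 + δ : ℕ) : ℝ) * h - h) = ((k + δ : ℕ) : ℝ) * h := by push_cast; ring
    rw [this]; ring
  rw [e3]
  simp
  ring

lemma ks_iter {m : ℝ → ℝ} {h : ℝ} (hh : 0 ≤ h) {δ M : ℕ} (hδ : δ ≤ 1) {R : ℝ}
    (h0 : ∀ x ≤ 0, m x = 0) (hR : ∀ x, R ≤ x → m x = 0) (hM : R ≤ M * h) (w : ℂ) (N : ℕ) :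
    (1 - w) ^ N * ks m h δ M w = ks ((fd h)^[N] m) h δ (M + N) w := by
  induction N with
  | zero => simp
  | succ N ih =>
    rw [pow_succ', mul_assoc, ih, Function.iterate_succ_apply', ks_step, add_assoc]
    · apply fd_iter_zero_left hh h0
      have : (δ : ℝ) ≤ 1 := by exact_mod_cast hδ
      nlinarith
    · apply fd_iter_zero_right hh hR
      push_cast
      have : 0 ≤ (δ : ℝ) * h := by positivity
      nlinarith

lemma ks_norm_le {m : ℝ → ℝ} {h : ℝ} {δ M : ℕ} {C : ℝ} (hC : ∀ x, |m x| ≤ C) {w : ℂ}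
    (hw : ‖w‖ ≤ 1) : ‖ks m h δ M w‖ ≤ M * C := by
  unfold ks
  refine (norm_sum_le _ _).trans ?_
  calc _ ≤ ∑ k ∈ range M, C := by
        refine sum_le_sum fun k _ => ?_
        rw [norm_mul, norm_pow, Complex.norm_real]
        have h1 : ‖w‖ ^ k ≤ 1 := pow_le_one₀ (norm_nonneg _) hw
        have h2 := hC (((k + δ : ℕ) : ℝ) * h)
        rw [Real.norm_eq_abs]
        have h3 := abs_nonneg (m (((k + δ : ℕ) : ℝ) * h))
        nlinarith [norm_nonneg w, pow_nonneg (norm_nonneg w) k]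
    _ = M * C := by simp

lemma iteratedDeriv_bounded {m : ℝ → ℝ} (hm : ContDiff ℝ ∞ m) (hc : HasCompactSupport m)
    (N : ℕ) : ∃ C, 0 ≤ C ∧ ∀ x, |iteratedDeriv N m x| ≤ C := by
  have h1 : HasCompactSupport (iteratedDeriv N m) := by
    induction N with
    | zero => simpa using hc
    | succ N ih => rw [iteratedDeriv_succ]; exact ih.deriv
  obtain ⟨C, hC⟩ := (hm.continuous_iteratedDeriv N
    (by exact_mod_cast le_top)).bounded_above_of_compact_support h1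
  exact ⟨C, (norm_nonneg _).trans (hC 0), fun x => hC x⟩

lemma compactSupport_of_zero {m : ℝ → ℝ} (h0 : ∀ x ≤ 0, m x = 0) {R : ℝ}
    (hR : ∀ x, R ≤ x → m x = 0) : HasCompactSupport m := by
  apply HasCompactSupport.of_support_subset_isCompact (isCompact_Icc (a := 0) (b := R))
  intro x hx
  rw [Function.mem_support] at hx
  constructor
  · by_contra hlt
    exact hx (h0 x (le_of_lt (not_le.mp hlt)))
  · by_contra hlt
    exact hx (hR x (le_of_lt (not_le.mp hlt)))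

/-- The basic kernel estimate. -/
theorem ks_bound {m : ℝ → ℝ} (hm : ContDiff ℝ ∞ m) (h0 : ∀ x ≤ 0, m x = 0)
    (hR : ∀ x, 4 ≤ x → m x = 0) (N : ℕ) :
    ∃ C, 0 ≤ C ∧ ∀ (j δ : ℕ), δ ≤ 1 → ∀ w : ℂ, ‖w‖ ≤ 1 →
      ‖ks m (1 / 2 ^ j) δ (4 * 2 ^ j) w‖ * (1 + 2 ^ j * ‖1 - w‖) ^ N ≤ C * 2 ^ j := by
  have hc := compactSupport_of_zero h0 hR
  obtain ⟨C0, hC0, hb0⟩ := iteratedDeriv_bounded hm hc 0
  obtain ⟨CN, hCN, hbN⟩ := iteratedDeriv_bounded hm hc N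
  refine ⟨2 ^ N * (4 * C0 + (4 + N) * CN), by positivity, fun j δ hδ w hw => ?_⟩
  set h : ℝ := 1 / 2 ^ j with hh
  have hp : (0 : ℝ) < 2 ^ j := by positivity
  have hpos : 0 < h := by positivity
  have hph : (2 : ℝ) ^ j * h = 1 := by rw [hh]; field_simp
  set S := ks m h δ (4 * 2 ^ j) w with hS
  have b0 : ‖S‖ ≤ 4 * 2 ^ j * C0 := by
    have := ks_norm_le (h := h) (δ := δ) (M := 4 * 2 ^ j) (fun x => by simpa using hb0 x) hw
    simpa using this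
  have bN : ‖1 - w‖ ^ N * ‖S‖ ≤ (4 * 2 ^ j + N) * (CN * h ^ N) := by
    have e := ks_iter (m := m) hpos.le (M := 4 * 2 ^ j) hδ h0 hR
      (by push_cast; rw [mul_assoc, hph]; norm_num) w N
    rw [← norm_pow, ← norm_mul, e]
    have := ks_norm_le (h := h) (δ := δ) (M := 4 * 2 ^ j + N) (m := (fd h)^[N] m)
      (fd_iter_bound hpos.le N m CN hm hbN) hw
    simpa using this
  have hx : (0 : ℝ) ≤ 2 ^ j * ‖1 - w‖ := by positivity
  have hSn := norm_nonneg S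
  have h1 : (1 + 2 ^ j * ‖1 - w‖) ^ N ≤ 2 ^ N * (1 + (2 ^ j * ‖1 - w‖) ^ N) := by
    rcases le_total (2 ^ j * ‖1 - w‖) 1 with hle | hle
    · calc (1 + 2 ^ j * ‖1 - w‖) ^ N ≤ 2 ^ N := by gcongr; linarith
        _ ≤ 2 ^ N * (1 + (2 ^ j * ‖1 - w‖) ^ N) := by
          have : 0 ≤ (2 ^ j * ‖1 - w‖) ^ N := by positivity
          nlinarith [pow_pos (two_pos : (0 : ℝ) < 2) N]
    · calc (1 + 2 ^ j * ‖1 - w‖) ^ N ≤ (2 * (2 ^ j * ‖1 - w‖)) ^ N := by gcongr; linarith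
        _ = 2 ^ N * (2 ^ j * ‖1 - w‖) ^ N := by rw [mul_pow]
        _ ≤ _ := by gcongr; linarith
  calc ‖S‖ * (1 + 2 ^ j * ‖1 - w‖) ^ N ≤ ‖S‖ * (2 ^ N * (1 + (2 ^ j * ‖1 - w‖) ^ N)) := by gcongr
    _ = 2 ^ N * (‖S‖ + 2 ^ (j * N) * (‖1 - w‖ ^ N * ‖S‖)) := by
        rw [mul_pow, ← pow_mul]; ring
    _ ≤ 2 ^ N * (4 * 2 ^ j * C0 + 2 ^ (j * N) * ((4 * 2 ^ j + N) * (CN * h ^ N))) := by gcongr
    _ = 2 ^ N * (4 * 2 ^ j * C0 + (4 * 2 ^ j + N) * CN) := by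
        have : (2 : ℝ) ^ (j * N) * h ^ N = 1 := by rw [pow_mul, ← mul_pow, hph, one_pow]
        linear_combination (2 ^ N * ((4 * 2 ^ j + N) * CN)) * this
    _ ≤ 2 ^ N * (4 * C0 + (4 + N) * CN) * 2 ^ j := by
        have : (1 : ℝ) ≤ 2 ^ j := one_le_pow₀ (by norm_num)
        have hN : (0 : ℝ) ≤ N := by positivity
        have : (N : ℝ) * CN ≤ N * CN * 2 ^ j := by nlinarith [mul_nonneg hN hCN]
        nlinarith [pow_pos (two_pos : (0 : ℝ) < 2) N]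

/-- kernel sums with a polynomial weight -/
noncomputable def kp (m : ℝ → ℝ) (q : Polynomial ℝ) (j δ : ℕ) (w : ℂ) : ℂ :=
  ∑ k ∈ range (4 * 2 ^ j), ((m (((k + δ : ℕ) : ℝ) * (1 / 2 ^ j)) *
    q.eval ((k + δ : ℕ) : ℝ) : ℝ) : ℂ) * w ^ k

theorem kp_bound {m : ℝ → ℝ} (hm : ContDiff ℝ ∞ m) (h0 : ∀ x ≤ 0, m x = 0)
    (hR : ∀ x, 4 ≤ x → m x = 0) (q : Polynomial ℝ) (d : ℕ) (hq : q.natDegree ≤ d) (N : ℕ) :
    ∃ C, 0 ≤ C ∧ ∀ (j δ : ℕ), δ ≤ 1 → ∀ w : ℂ, ‖w‖ ≤ 1 →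
      ‖kp m q j δ w‖ * (1 + 2 ^ j * ‖1 - w‖) ^ N ≤ C * 2 ^ (j * (d + 1)) := by
  have key : ∀ l : ℕ, ∃ C, 0 ≤ C ∧ ∀ (j δ : ℕ), δ ≤ 1 → ∀ w : ℂ, ‖w‖ ≤ 1 →
      ‖ks (fun x => x ^ l * m x) (1 / 2 ^ j) δ (4 * 2 ^ j) w‖ * (1 + 2 ^ j * ‖1 - w‖) ^ N ≤
        C * 2 ^ j := by
    intro l
    exact ks_bound (by fun_prop) (fun x hx => by simp [h0 x hx]) (fun x hx => by simp [hR x hx]) N
  choose C hC hb using key
  refine ⟨∑ l ∈ range (d + 1), |q.coeff l| * C l, sum_nonneg fun l _ =>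
    mul_nonneg (abs_nonneg _) (hC l), fun j δ hδ w hw => ?_⟩
  have hp : (0 : ℝ) < 2 ^ j := by positivity
  have e : kp m q j δ w = ∑ l ∈ range (d + 1), ((q.coeff l * 2 ^ (j * l) : ℝ) : ℂ) *
      ks (fun x => x ^ l * m x) (1 / 2 ^ j) δ (4 * 2 ^ j) w := by
    unfold kp ks
    simp_rw [mul_sum]
    rw [sum_comm]
    refine sum_congr rfl fun k _ => ?_
    rw [Polynomial.eval_eq_sum_range' (Nat.lt_succ_of_le hq)]
    rw [← Nat.succ_eq_add_one]
    push_cast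
    rw [mul_sum, sum_mul]
    refine sum_congr rfl fun l _ => ?_
    have : ((2 : ℂ) ^ (j * l)) * ((1 / 2 ^ j : ℂ)) ^ l = 1 := by
      rw [pow_mul, ← mul_pow]
      rw [mul_one_div_cancel (pow_ne_zero _ two_ne_zero), one_pow]
    rw [mul_pow]
    linear_combination (-(((k : ℂ) + δ) ^ l * (q.coeff l : ℂ) *
      ((m (((k : ℝ) + δ) * (1 / 2 ^ j)) : ℝ) : ℂ) * w ^ k)) * this
  rw [e]
  calc _ ≤ (∑ l ∈ range (d + 1), ‖((q.coeff l * 2 ^ (j * l) : ℝ) : ℂ) *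
        ks (fun x => x ^ l * m x) (1 / 2 ^ j) δ (4 * 2 ^ j) w‖) * (1 + 2 ^ j * ‖1 - w‖) ^ N := by
        gcongr; exact norm_sum_le _ _
    _ = ∑ l ∈ range (d + 1), |q.coeff l| * 2 ^ (j * l) *
        (‖ks (fun x => x ^ l * m x) (1 / 2 ^ j) δ (4 * 2 ^ j) w‖ *
          (1 + 2 ^ j * ‖1 - w‖) ^ N) := by
        rw [sum_mul]
        refine sum_congr rfl fun l _ => ?_
        rw [norm_mul, Complex.norm_real, Real.norm_eq_abs, abs_mul, abs_of_pos (by positivity :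
          (0 : ℝ) < 2 ^ (j * l))]
        ring
    _ ≤ ∑ l ∈ range (d + 1), |q.coeff l| * 2 ^ (j * d) * (C l * 2 ^ j) := by
        refine sum_le_sum fun l hl => ?_
        have hl' : l ≤ d := by
          have := mem_range.mp hl; omega
        have h1 := hb l j δ hδ w hw
        have h2 : (2 : ℝ) ^ (j * l) ≤ 2 ^ (j * d) :=
          pow_le_pow_right₀ (by norm_num) (Nat.mul_le_mul_left _ hl')
        have h3 : 0 ≤ ‖ks (fun x => x ^ l * m x) (1 / 2 ^ j) δ (4 * 2 ^ j) w‖ *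
          (1 + 2 ^ j * ‖1 - w‖) ^ N := by positivity
        gcongr
    _ = (∑ l ∈ range (d + 1), |q.coeff l| * C l) * 2 ^ (j * (d + 1)) := by
        rw [sum_mul]
        refine sum_congr rfl fun l _ => ?_
        rw [mul_add, pow_add, mul_one]
        ring

end Pool.Agent.MP28b1a7
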