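import Pool.Agent.Lib.MP_28b1a7_an.Geom
import Pool.Agent.Lib.MP_28b1a7_an.Kern
import Pool.Agent.Lib.MP_28b1a7_an.FS2
import Pool.Agent.Lib.MP_28b1a7_an.Dual

/-!
Common definitions: the measure on the sphere, projections onto homogeneous components,
multipliers, the tree `Idx G` of `G`-adic intervals and the square function norm of sequences.
-/

namespace Pool.Agent.MP28b1a7

open MeasureTheory Set
open scoped InnerProductSpace ENNReal NNReal

/-- The open unit ball, as a subset of `Fin n → ℂ`. -/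
def ballB (n : ℕ) : Set (Fin n → ℂ) := {z | ∑ i, ‖z i‖ ^ 2 < 1}

/-- A base point of the sphere. -/
noncomputable def e0 (n : ℕ) [NeZero n] : Sph n :=
  ⟨EuclideanSpace.single (0 : Fin n) (1 : ℂ), by simp⟩

/-- Radial projection of `ℂ^n` to the sphere. -/
noncomputable def toS (n : ℕ) [NeZero n] (x : Fin n → ℂ) : Sph n :=
  if h : x ≠ 0 then ⟨((‖(WithLp.toLp 2 x : V n)‖⁻¹ : ℝ) : ℂ) • (WithLp.toLp 2 x : V n), by
    have h0 : ‖(WithLp.toLp 2 x : V n)‖ ≠ 0 := by
      rw [norm_ne_zero_iff]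
      intro h1
      exact h (by simpa using h1)
    simp [norm_smul, h0]⟩ else e0 n

/-- The normalised surface measure of the sphere. -/
noncomputable def sig (n : ℕ) [NeZero n] : Measure (Sph n) :=
  (volume (ballB n))⁻¹ • (volume.restrict (ballB n)).map (toS n)

/-- action of a unitary on the sphere -/
noncomputable def uact {n : ℕ} (U : V n ≃ₗᵢ[ℂ] V n) (x : Sph n) : Sph n := ⟨U x, by simp⟩

/-- `binom(k+n-1, n-1)`, the dimension of the space of homogeneous polynomials of degree `k`. -/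
def cc (n k : ℕ) : ℕ := Nat.choose (k + n - 1) (n - 1)

section
variable {n : ℕ} [NeZero n]

/-- Projection on the homogeneous polynomials of degree `k`. -/
noncomputable def PP (k : ℕ) (f : Sph n → ℂ) (z : V n) : ℂ :=
  (cc n k : ℂ) * ∫ ζ : Sph n, ⟪(ζ : V n), z⟫_ℂ ^ k * f ζ ∂sig n

/-- Multiplier operators with finitely supported multiplier. -/
noncomputable def VM (M : ℕ) (m : ℕ → ℝ) (f : Sph n → ℂ) (z : V n) : ℂ :=
  ∑ k ∈ Finset.range M, (m k : ℂ) * PP k f z

/-- Kernels of multiplier operators. -/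
noncomputable def KM (M : ℕ) (m : ℕ → ℝ) (z η : V n) : ℂ :=
  ∑ k ∈ Finset.range M, ((m k : ℂ) * (cc n k : ℂ)) * ⟪η, z⟫_ℂ ^ k

/-- Bounded measurable functions. -/
def BM (f : Sph n → ℂ) : Prop := Measurable f ∧ ∃ C : ℝ, ∀ x, ‖f x‖ ≤ C

/-- Polynomials of degree `< M` on the sphere, described by the reproducing property. -/
def Pol (M : ℕ) (f : Sph n → ℂ) : Prop :=
  BM f ∧ ∀ z : Sph n, f z = ∑ k ∈ Finset.range M, PP k f z

end

/-- the angle function -/
noncomputable def phi (x : ℝ) : ℝ := Real.pi / 2 * Real.smoothTransition (x - 1)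

/-- low pass profile -/
noncomputable def ms (x : ℝ) : ℝ := Real.cos (phi x) ^ 2

/-- band pass profile, `ma^2 = ms x - ms (2x)` -/
noncomputable def ma (x : ℝ) : ℝ := Real.sin (phi (2 * x)) * Real.cos (phi x)

/-- wider profile, equal to one on `[1/2, 2]` -/
noncomputable def mth (x : ℝ) : ℝ := Real.cos (phi (x / 2)) * Real.sin (phi (4 * x))

/-- The Littlewood-Paley multipliers, `∑ j, AA j k ^ 2 = 1`. -/
noncomputable def AA (j k : ℕ) : ℝ :=
  if j = 0 then (if k ≤ 1 then 1 else 0) else ma (k / 2 ^ j)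

/-- The wider multipliers, `TH j k * AA j k = AA j k`. -/
noncomputable def TH (j k : ℕ) : ℝ :=
  if j = 0 then (if k ≤ 1 then 1 else 0) else mth (k / 2 ^ j)

/-- The Littlewood-Paley pieces. -/
noncomputable def VV {n : ℕ} [NeZero n] (j : ℕ) (f : Sph n → ℂ) (z : V n) : ℂ :=
  VM (4 * 2 ^ j) (AA j) f z

/-- The averaging kernels on the sphere. -/
noncomputable def tk (n : ℕ) (j : ℕ) (x y : Sph n) : ℝ≥0∞ :=
  ENNReal.ofReal (2 ^ (j * n) / wt j (x : V n) y ^ (2 * n + 2))

/-! The tree. -/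

/-- Indices of the `G`-adic subintervals of `[0,1)`: `(t, m)` is `[m/G^t, (m+1)/G^t)`. -/
def Idx (G : ℕ) : Type := {p : ℕ × ℕ // p.2 < G ^ p.1}

noncomputable instance (G : ℕ) : DecidableEq (Idx G) := Classical.decEq _

instance (G : ℕ) : Countable (Idx G) := by unfold Idx; infer_instance

/-- coordinates extended by zero -/
noncomputable def co {G : ℕ} (c : Idx G → ℂ) (t m : ℕ) : ℂ :=
  if h : m < G ^ t then c ⟨(t, m), h⟩ else 0

/-- The level-`t` part of a sequence as a function on `[0,1)`. -/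
noncomputable def lvl {G : ℕ} (c : Idx G → ℂ) (t : ℕ) (x : ℝ) : ℝ≥0∞ :=
  ((G : ℝ≥0∞) ^ t) ^ (1 / 2 : ℝ) * ‖co c t ⌊x * (G : ℝ) ^ t⌋₊‖ₑ

/-- The square function norm of a sequence indexed by the tree. -/
noncomputable def ND {G : ℕ} (c : Idx G → ℂ) : ℝ≥0∞ :=
  ∫⁻ x in Ico (0 : ℝ) 1, sqf (lvl c) x

/-- The Hilbert space of sequences. -/
noncomputable abbrev DD (G : ℕ) := lp (fun _ : Idx G => ℂ) 2

/-- The monomial-type functions spanning the polynomials. -/
noncomputable def mono {n : ℕ} (k : ℕ) (v : V n) : C(Sph n, ℂ) :=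
  ⟨fun ζ => ⟪v, (ζ : V n)⟫_ℂ ^ k, by fun_prop⟩

end Pool.Agent.MP28b1a7
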