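import Pool.Agent.Lib.MP_28b1a7_an.Coarse

/-!
Density of the polynomials in the Hardy space `H^1` of the ball, in a quantitative form.
-/

namespace Pool.Agent.MP28b1a7

open MeasureTheory Set Filter Topology
open scoped InnerProductSpace ENNReal NNReal
open Finset (range sum_congr)

namespace Dens

section
variable {n : ℕ} [NeZero n]

/-! ### Taylor coefficients on complex lines -/

/-- Taylor coefficients of `w ↦ f (w v)` -/
noncomputable def tay (f : V n → ℂ) (k : ℕ) (v : V n) : ℂ :=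
  (k.factorial : ℂ)⁻¹ * iteratedDeriv k (fun w : ℂ => f (w • v)) 0

omit [NeZero n] in
lemma hasSum_tay {f : V n → ℂ} (hf : DifferentiableOn ℂ f (Metric.ball 0 1)) (v : Sph n) {w : ℂ}
    (hw : ‖w‖ < 1) : HasSum (fun k => tay f k (v : V n) * w ^ k) (f (w • (v : V n))) := by
  have h1 : DifferentiableOn ℂ (fun w : ℂ => f (w • (v : V n))) (Metric.ball 0 1) := by
    refine hf.comp (by fun_prop) fun z hz => ?_
    rw [mem_ball_zero_iff] at hz ⊢
    rw [norm_smul, sph_norm, mul_one]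
    exact hz
  have h2 := Complex.hasSum_taylorSeries_on_ball h1 (z := w) (by simpa using hw)
  have h3 : (fun k => tay f k (v : V n) * w ^ k) = fun k : ℕ => ((k.factorial : ℂ))⁻¹ •
      (w - 0) ^ k • iteratedDeriv k (fun w : ℂ => f (w • (v : V n))) 0 := by
    funext k
    unfold tay
    simp only [sub_zero, smul_eq_mul]
    ring
  rw [h3]
  exact h2

/-- dilations of a function, restricted to the sphere -/
noncomputable def dil (f : V n → ℂ) (r : ℝ) (ζ : Sph n) : ℂ := f ((r : ℂ) • (ζ : V n))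

omit [NeZero n] in
lemma hasSum_dil {f : V n → ℂ} (hf : DifferentiableOn ℂ f (Metric.ball 0 1)) (v : Sph n) {r : ℝ}
    (hr : r ∈ Ioo (0 : ℝ) 1) :
    HasSum (fun k => tay f k (v : V n) * (r : ℂ) ^ k) (dil f r v) :=
  hasSum_tay hf v (by
    rw [Complex.norm_real, Real.norm_eq_abs, abs_of_pos hr.1]; exact hr.2)

lemma BM_dil {f : V n → ℂ} (hf : DifferentiableOn ℂ f (Metric.ball 0 1)) {r : ℝ}
    (hr : r ∈ Ioo (0 : ℝ) 1) : BM (dil f r) := by
  apply BM_cont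
  unfold dil
  refine hf.continuousOn.comp_continuous (by fun_prop) fun ζ => ?_
  rw [mem_ball_zero_iff, norm_smul, sph_norm, mul_one, Complex.norm_real, Real.norm_eq_abs,
    abs_of_pos hr.1]
  exact hr.2

/-- reproduction -/
lemma PP_dil {f : V n → ℂ} (hf : DifferentiableOn ℂ f (Metric.ball 0 1)) (v : Sph n) {r : ℝ}
    (hr : r ∈ Ioo (0 : ℝ) 1) (k : ℕ) : PP k (dil f r) v = tay f k (v : V n) * (r : ℂ) ^ k := by
  have hr0 := hr.1
  have hr1 := hr.2
  have hcc : (cc n k : ℂ) ≠ 0 := by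
    unfold cc
    have : 0 < Nat.choose (k + n - 1) (n - 1) := Nat.choose_pos (by
      have := Nat.pos_of_ne_zero (NeZero.ne n); omega)
    exact_mod_cast this.ne'
  have h1 : DifferentiableOn ℂ (fun z : V n => f ((r : ℂ) • z)) (Metric.ball 0 (1 / r)) := by
    refine hf.comp (by fun_prop) fun z hz => ?_
    rw [mem_ball_zero_iff] at hz ⊢
    rw [norm_smul, Complex.norm_real, Real.norm_eq_abs, abs_of_pos hr0]
    rw [lt_div_iff₀ hr0] at hz
    linarith
  have h2 := mean_line (R := 1 / r) (by rw [lt_div_iff₀ hr0]; linarith) h1 v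
    (g := fun w => (starRingEnd ℂ) w ^ k) (by fun_prop)
  have h3 : PP k (dil f r) v = (cc n k : ℂ) *
      ∫ ζ : Sph n, f ((r : ℂ) • (⟪(v : V n), ζ⟫_ℂ • (v : V n))) *
        (starRingEnd ℂ) ⟪(v : V n), (ζ : V n)⟫_ℂ ^ k ∂sig n := by
    rw [← h2]
    unfold PP dil
    congr 1
    refine integral_congr_ae (Eventually.of_forall fun ζ => ?_)
    simp only [inner_conj_symm]
    ring
  rw [h3]
  have hw1 : ∀ ζ : Sph n, ‖⟪(v : V n), (ζ : V n)⟫_ℂ‖ ≤ 1 := fun ζ => norm_inner_le_one v ζ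
  set F : ℕ → Sph n → ℂ := fun l ζ => tay f l (v : V n) * (r : ℂ) ^ l *
    (⟪(v : V n), (ζ : V n)⟫_ℂ ^ l * ⟪(ζ : V n), (v : V n)⟫_ℂ ^ k) with hF
  have hFs : ∀ ζ : Sph n, ∑' l, F l ζ = f ((r : ℂ) • (⟪(v : V n), ζ⟫_ℂ • (v : V n))) *
        (starRingEnd ℂ) ⟪(v : V n), (ζ : V n)⟫_ℂ ^ k := by
    intro ζ
    have h4 : ‖(r : ℂ) * ⟪(v : V n), (ζ : V n)⟫_ℂ‖ < 1 := by
      rw [norm_mul, Complex.norm_real, Real.norm_eq_abs, abs_of_pos hr0]
      have := hw1 ζ
      nlinarith [norm_nonneg ⟪(v : V n), (ζ : V n)⟫_ℂ]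
    have h5 := (hasSum_tay hf v h4).mul_right ((starRingEnd ℂ) ⟪(v : V n), (ζ : V n)⟫_ℂ ^ k)
    rw [smul_smul, ← h5.tsum_eq]
    refine tsum_congr fun l => ?_
    simp only [hF, inner_conj_symm]
    ring
  have hsum : Summable fun l => ‖tay f l (v : V n) * (r : ℂ) ^ l‖ := (hasSum_dil hf v hr).summable.norm
  have hFc : ∀ l, Continuous (F l) := fun l => by fun_prop
  have hFi : ∀ l, Integrable (F l) (sig n) := fun l => (BM_cont (hFc l)).integrable
  have hFn : ∀ l (ζ : Sph n), ‖F l ζ‖ ≤ ‖tay f l (v : V n) * (r : ℂ) ^ l‖ := by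
    intro l ζ
    simp only [hF]
    rw [norm_mul]
    refine mul_le_of_le_one_right (norm_nonneg _) ?_
    rw [norm_mul, norm_pow, norm_pow]
    have h6 := hw1 ζ
    have h7 := norm_inner_le_one ζ v
    calc _ ≤ (1 : ℝ) ^ l * 1 ^ k := by gcongr
      _ = 1 := by simp
  have h8 := hasSum_integral_of_summable_integral_norm hFi (by
    refine Summable.of_nonneg_of_le (fun l => integral_nonneg fun ζ => norm_nonneg _)
      (fun l => ?_) hsum
    calc ∫ ζ, ‖F l ζ‖ ∂sig n ≤ ∫ _ζ : Sph n, ‖tay f l (v : V n) * (r : ℂ) ^ l‖ ∂sig n :=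
          integral_mono (hFi l).norm (integrable_const _) (hFn l)
      _ = _ := by simp)
  simp_rw [hFs] at h8
  have h9 : ∀ l, ∫ ζ, F l ζ ∂sig n = if l = k then tay f k (v : V n) * (r : ℂ) ^ k / (cc n k : ℂ)
      else 0 := by
    intro l
    simp only [hF]
    rw [integral_const_mul, inner_pow_int]
    split_ifs with h
    · subst h
      rw [inner_self_eq_norm_sq_to_K, sph_norm]
      simp
      ring
    · simp
  simp_rw [h9] at h8
  have h10 := hasSum_ite_eq k (tay f k (v : V n) * (r : ℂ) ^ k / (cc n k : ℂ))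
  rw [h8.unique h10]
  field_simp

/-- the homogeneous components in terms of the dilation by `1/2` -/
lemma PP_half {f : V n → ℂ} (hf : DifferentiableOn ℂ f (Metric.ball 0 1)) (v : Sph n) (k : ℕ) :
    (2 : ℂ) ^ k * PP k (dil f (1 / 2)) v = tay f k (v : V n) := by
  rw [PP_dil hf v (by norm_num) k]
  push_cast
  rw [mul_comm (tay f k v), ← mul_assoc, ← mul_pow]
  norm_num

lemma norm_tay_le {f : V n → ℂ} (hf : DifferentiableOn ℂ f (Metric.ball 0 1)) {K : ℝ}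
    (hK : ∀ r ∈ Ioo (0 : ℝ) 1, ∫ ζ : Sph n, ‖dil f r ζ‖ ∂sig n ≤ K) (v : Sph n) (k : ℕ) :
    ‖tay f k (v : V n)‖ ≤ cc n k * K := by
  have h1 : ∀ r ∈ Ioo (0 : ℝ) 1, ‖tay f k (v : V n)‖ * r ^ k ≤ cc n k * K := by
    intro r hr
    have h2 := norm_PP_le k (BM_dil hf hr).integrable (v : V n)
    rw [PP_dil hf v hr k, sph_norm, one_pow, mul_one, norm_mul, norm_pow, Complex.norm_real,
      Real.norm_eq_abs, abs_of_pos hr.1] at h2
    refine h2.trans ?_
    gcongr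
    exact hK r hr
  have h3 : Tendsto (fun r : ℝ => ‖tay f k (v : V n)‖ * r ^ k) (𝓝[<] 1)
      (𝓝 (‖tay f k (v : V n)‖ * 1 ^ k)) :=
    tendsto_nhdsWithin_of_tendsto_nhds (((continuous_id.pow k).const_mul _).tendsto 1)
  rw [one_pow, mul_one] at h3
  refine le_of_tendsto h3 ?_
  have h4 : Ioo (0 : ℝ) 1 ∈ 𝓝[<] (1 : ℝ) := Ioo_mem_nhdsLT (by norm_num)
  filter_upwards [h4] with r hr using h1 r hr

lemma summable_cc (n : ℕ) [NeZero n] (K : ℝ) {r : ℝ} (hr : r ∈ Ioo (0 : ℝ) 1) :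
    Summable fun k => (cc n k * K) * r ^ k := by
  have h := summable_choose_mul_geometric_of_norm_lt_one (n - 1) (r := r) (by
    rw [Real.norm_eq_abs, abs_of_pos hr.1]; exact hr.2)
  have h2 := h.mul_left K
  refine h2.congr fun k => ?_
  unfold cc
  have : k + n - 1 = k + (n - 1) := by
    have := Nat.pos_of_ne_zero (NeZero.ne n); omega
  rw [this]
  ring

/-! ### polynomials with prescribed multipliers -/

/-- the polynomial `∑ k < M, m k * f_k` -/
noncomputable def QQ (f : V n → ℂ) (M : ℕ) (m : ℕ → ℝ) (z : V n) : ℂ :=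
  VM M (fun k => m k * 2 ^ k) (dil f (1 / 2)) z

lemma QQ_eq {f : V n → ℂ} (hf : DifferentiableOn ℂ f (Metric.ball 0 1)) (M : ℕ) (m : ℕ → ℝ)
    (v : Sph n) : QQ f M m v = ∑ k ∈ range M, (m k : ℂ) * tay f k (v : V n) := by
  unfold QQ VM
  refine sum_congr rfl fun k _ => ?_
  rw [← PP_half hf v k]
  push_cast
  ring

lemma QQ_smul {f : V n → ℂ} (hf : DifferentiableOn ℂ f (Metric.ball 0 1)) (M : ℕ) (m : ℕ → ℝ)
    (v : Sph n) (w : ℂ) :
    QQ f M m (w • (v : V n)) = ∑ k ∈ range M, (m k : ℂ) * tay f k (v : V n) * w ^ k := by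
  unfold QQ VM
  refine sum_congr rfl fun k _ => ?_
  rw [← PP_half hf v k, PP_smul]
  push_cast
  ring

lemma BM_QQ {f : V n → ℂ} (hf : DifferentiableOn ℂ f (Metric.ball 0 1)) (M : ℕ) (m : ℕ → ℝ) :
    BM fun ζ : Sph n => QQ f M m ζ := BM_VM _ _ (BM_dil hf (by norm_num))

lemma continuous_QQ {f : V n → ℂ} (hf : DifferentiableOn ℂ f (Metric.ball 0 1)) (M : ℕ)
    (m : ℕ → ℝ) : Continuous (QQ f M m) := by
  unfold QQ VM
  exact continuous_finsetSum _ fun k _ => continuous_const.mul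
    (continuous_PP k (BM_dil hf (by norm_num)).integrable)

lemma VV_QQ {f : V n → ℂ} (hf : DifferentiableOn ℂ f (Metric.ball 0 1)) {M j : ℕ}
    (h : 4 * 2 ^ j ≤ M) (m : ℕ → ℝ) (z : V n) :
    VV j (fun ζ : Sph n => QQ f M m ζ) z = QQ f (4 * 2 ^ j) (fun k => AA j k * m k) z := by
  unfold VV QQ
  rw [VM_comp _ _ _ _ (BM_dil hf (by norm_num)) z (fun k hk hk' => absurd (lt_of_lt_of_le hk h)
    (not_lt.mpr hk'))]
  simp_rw [mul_assoc]

lemma Pol_QQ {f : V n → ℂ} (hf : DifferentiableOn ℂ f (Metric.ball 0 1)) (M : ℕ) (m : ℕ → ℝ) :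
    Pol M fun ζ : Sph n => QQ f M m ζ := Pol_VM _ _ (BM_dil hf (by norm_num))

/-! ### Step 1: approximation by polynomials with bounded norms -/

section bounded
variable {f : V n → ℂ} (hf : DifferentiableOn ℂ f (Metric.ball 0 1)) {K : ℝ}
    (hK : ∀ r ∈ Ioo (0 : ℝ) 1, ∫ ζ : Sph n, ‖dil f r ζ‖ ∂sig n ≤ K)
include hf hK

lemma norm_term_le {m : ℕ → ℝ} (hm : ∀ k, |m k| ≤ 1) {r : ℝ} (hr : r ∈ Ioo (0 : ℝ) 1)
    (v : Sph n) (k : ℕ) :
    ‖(m k : ℂ) * tay f k (v : V n) * (r : ℂ) ^ k‖ ≤ cc n k * K * r ^ k := by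
  rw [norm_mul, norm_mul, norm_pow, Complex.norm_real, Complex.norm_real, Real.norm_eq_abs,
    Real.norm_eq_abs, abs_of_pos hr.1]
  have h1 := norm_tay_le hf hK v k
  have h2 : |m k| * ‖tay f k (v : V n)‖ ≤ 1 * (cc n k * K) :=
    mul_le_mul (hm k) h1 (norm_nonneg _) zero_le_one
  rw [one_mul] at h2
  have := hr.1
  gcongr

lemma norm_QQ_le {m : ℕ → ℝ} (hm : ∀ k, |m k| ≤ 1) {r : ℝ} (hr : r ∈ Ioo (0 : ℝ) 1) (M : ℕ)
    (v : Sph n) :
    ‖QQ f M m ((r : ℂ) • (v : V n))‖ ≤ ∑' k, cc n k * K * r ^ k := by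
  rw [QQ_smul hf]
  refine (norm_sum_le _ _).trans ?_
  refine (Finset.sum_le_sum fun k _ => norm_term_le hf hK hm hr v k).trans ?_
  refine (summable_cc n K hr).sum_le_tsum _ fun k _ => ?_
  exact (norm_nonneg _).trans (norm_term_le hf hK hm hr v k)

/-- convergence of multiplier polynomials to the function -/
lemma tendsto_QQ_radial {r : ℝ} (hr : r ∈ Ioo (0 : ℝ) 1) {m : ℕ → ℕ → ℝ} {M : ℕ → ℕ}
    (hm : ∀ i k, |m i k| ≤ 1) (hm0 : ∀ i k, M i ≤ k → m i k = 0)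
    (hm1 : ∀ k, Tendsto (fun i => m i k) atTop (𝓝 1)) (v : Sph n) :
    Tendsto (fun i => QQ f (M i) (m i) ((r : ℂ) • (v : V n))) atTop (𝓝 (dil f r v)) := by
  have h1 : ∀ i, QQ f (M i) (m i) ((r : ℂ) • (v : V n)) =
      ∑' k, (m i k : ℂ) * tay f k (v : V n) * (r : ℂ) ^ k := by
    intro i
    rw [QQ_smul hf, tsum_eq_sum]
    intro k hk
    rw [hm0 i k (by simpa using hk)]
    simp
  simp_rw [h1]
  rw [← (hasSum_dil hf v hr).tsum_eq]
  refine tendsto_tsum_of_dominated_convergence (summable_cc n K hr) (fun k => ?_)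
    (Eventually.of_forall fun i k => norm_term_le hf hK (hm i) hr v k)
  have h2 : Tendsto (fun i => ((m i k : ℝ) : ℂ)) atTop (𝓝 ((1 : ℝ) : ℂ)) :=
    (Complex.continuous_ofReal.tendsto _).comp (hm1 k)
  have h3 := (h2.mul_const (tay f k (v : V n))).mul_const ((r : ℂ) ^ k)
  simpa using h3

lemma tendsto_int_QQ {r : ℝ} (hr : r ∈ Ioo (0 : ℝ) 1) :
    Tendsto (fun M => ∫ ζ : Sph n, ‖QQ f M (fun k => r ^ k) ζ‖ ∂sig n) atTop
      (𝓝 (∫ ζ : Sph n, ‖dil f r ζ‖ ∂sig n)) := by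
  have e : ∀ (M : ℕ) (v : Sph n), QQ f M (fun k => r ^ k) v =
      QQ f M (fun k => if k < M then 1 else 0) ((r : ℂ) • (v : V n)) := by
    intro M v
    rw [QQ_eq hf, QQ_smul hf]
    refine sum_congr rfl fun k hk => ?_
    rw [if_pos (Finset.mem_range.1 hk)]
    push_cast
    ring
  have hm : ∀ i k : ℕ, |(if k < i then 1 else 0 : ℝ)| ≤ 1 := by
    intro i k; split_ifs <;> simp
  refine tendsto_integral_of_dominated_convergence (fun _ => ∑' k, cc n k * K * r ^ k)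
    (fun M => ?_) (integrable_const _) (fun M => Eventually.of_forall fun v => ?_)
    (Eventually.of_forall fun v => ?_)
  · exact (BM_QQ hf M _).integrable.norm.1
  · rw [norm_norm, e]
    exact norm_QQ_le hf hK (m := fun k => if k < M then 1 else 0) (hm M) hr M v
  · simp_rw [e]
    refine (tendsto_QQ_radial hf hK hr (m := fun i k => if k < i then 1 else 0)
      (M := fun i => i) hm (fun i k hik => by simp [hik]) (fun k => ?_) v).norm
    refine tendsto_const_nhds.congr' ?_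
    filter_upwards [eventually_gt_atTop k] with i hi
    simp [hi]

/-- the approximating sequence -/
lemma exists_seq : ∃ (r : ℕ → ℝ) (M : ℕ → ℕ), (∀ i, r i ∈ Ioo (0 : ℝ) 1) ∧
    Tendsto r atTop (𝓝 1) ∧ (∀ i, i ≤ M i) ∧
    ∀ i, ∫ ζ : Sph n, ‖QQ f (M i) (fun k => r i ^ k) ζ‖ ∂sig n ≤ K + 1 := by
  have hr : ∀ i : ℕ, (1 : ℝ) - 1 / ((i : ℝ) + 2) ∈ Ioo (0 : ℝ) 1 := by
    intro i
    have h1 : (0 : ℝ) < (i : ℝ) + 2 := by positivity
    have h2 : 1 / ((i : ℝ) + 2) < 1 := by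
      rw [div_lt_one h1]; have : (0 : ℝ) ≤ i := Nat.cast_nonneg i; linarith
    have h3 : 0 < 1 / ((i : ℝ) + 2) := by positivity
    constructor <;> linarith
  have h : ∀ i : ℕ, ∃ M : ℕ, i ≤ M ∧
      ∫ ζ : Sph n, ‖QQ f M (fun k => (1 - 1 / ((i : ℝ) + 2)) ^ k) ζ‖ ∂sig n ≤ K + 1 := by
    intro i
    have h1 := tendsto_int_QQ hf hK (hr i)
    have h2 := h1.eventually (gt_mem_nhds (lt_of_le_of_lt (hK _ (hr i)) (lt_add_one K)))
    obtain ⟨M, hM1, hM2⟩ := ((eventually_ge_atTop i).and h2).exists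
    exact ⟨M, hM1, hM2.le⟩
  choose M hM1 hM2 using h
  refine ⟨fun i => 1 - 1 / ((i : ℝ) + 2), M, hr, ?_, hM1, hM2⟩
  have h3 : Tendsto (fun i : ℕ => 1 / ((i : ℝ) + 2)) atTop (𝓝 0) :=
    tendsto_const_nhds.div_atTop
      (tendsto_atTop_add_const_right _ _ tendsto_natCast_atTop_atTop)
  simpa using tendsto_const_nhds.sub h3

end bounded

/-! ### Step 2: Fatou -/

omit [NeZero n] in
lemma pst_lsc (j : ℕ) {F : ℕ → Sph n → ℂ} {G : Sph n → ℂ}
    (h : ∀ w, Tendsto (fun i => F i w) atTop (𝓝 (G w))) (z : Sph n) :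
    pst j G z ≤ liminf (fun i => pst j (F i) z) atTop := by
  conv_lhs => unfold pst
  refine iSup_le fun w => ?_
  have h1 : Tendsto (fun i => ‖F i w‖ₑ / wte j z w ^ LL n) atTop
      (𝓝 (‖G w‖ₑ / wte j z w ^ LL n)) := by
    refine ENNReal.Tendsto.div_const ((continuous_enorm.tendsto _).comp (h w)) (Or.inr ?_)
    exact pow_ne_zero _ (wte_ne_zero _ _ _)
  rw [← h1.liminf_eq]
  refine liminf_le_liminf (Eventually.of_forall fun i => ?_)
  exact le_iSup (fun w : Sph n => ‖F i w‖ₑ / wte j z w ^ LL n) w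

lemma liminf_rpow (u : ℕ → ℝ≥0∞) {y : ℝ} (hy : 0 < y) :
    (liminf u atTop) ^ y = liminf (fun i => u i ^ y) atTop :=
  (ENNReal.orderIsoRpow y hy).liminf_apply

lemma sqf_lsc {X : Type*} {F : ℕ → ℕ → X → ℝ≥0∞} {G : ℕ → X → ℝ≥0∞} {z : X}
    (h : ∀ j, G j z ≤ liminf (fun i => F i j z) atTop) :
    sqf G z ≤ liminf (fun i => sqf (F i) z) atTop := by
  unfold sqf
  rw [← liminf_rpow _ (by norm_num : (0 : ℝ) < 1 / 2)]
  apply ENNReal.rpow_le_rpow _ (by norm_num)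
  calc ∑' j, G j z ^ 2 ≤ ∑' j, liminf (fun i => F i j z ^ 2) atTop := by
        refine ENNReal.tsum_le_tsum fun j => ?_
        have h1 := liminf_rpow (fun i => F i j z) (y := (2 : ℕ)) (by norm_num)
        simp_rw [ENNReal.rpow_natCast] at h1
        rw [← h1]
        exact pow_le_pow_left' (h j) 2
    _ = ∫⁻ j, liminf (fun i => F i j z ^ 2) atTop ∂(Measure.count : Measure ℕ) :=
        (lintegral_count _).symm
    _ ≤ liminf (fun i => ∫⁻ j, F i j z ^ 2 ∂(Measure.count : Measure ℕ)) atTop :=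
        lintegral_liminf_le fun i => measurable_of_countable _
    _ = _ := by simp_rw [lintegral_count]

/-- the Littlewood-Paley pieces of `f` -/
noncomputable def WW (f : V n → ℂ) (j : ℕ) (ζ : Sph n) : ℂ := QQ f (4 * 2 ^ j) (AA j) ζ

lemma WW_bound (n : ℕ) [NeZero n] : ∃ C : ℝ≥0, ∀ (f : V n → ℂ) (K : ℝ),
    DifferentiableOn ℂ f (Metric.ball 0 1) →
    (∀ r ∈ Ioo (0 : ℝ) 1, ∫ ζ : Sph n, ‖dil f r ζ‖ ∂sig n ≤ K) →
    ∫⁻ ζ : Sph n, sqf (fun (j : ℕ) => pst j (WW f j)) ζ ∂sig n ≤ C * ENNReal.ofReal (K + 1) := by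
  obtain ⟨C, hC⟩ := LP_pst n
  refine ⟨C, fun f K hf hK => ?_⟩
  obtain ⟨r, M, hr, hr1, hM, hint⟩ := exists_seq hf hK
  set p : ℕ → Sph n → ℂ := fun i ζ => QQ f (M i) (fun k => r i ^ k) ζ with hp
  have hconv : ∀ (j : ℕ) (w : Sph n),
      Tendsto (fun i => VV j (p i) (w : V n)) atTop (𝓝 (WW f j w)) := by
    intro j w
    have h1 : ∀ᶠ i in atTop, VV j (p i) (w : V n) =
        ∑ k ∈ range (4 * 2 ^ j), ((AA j k * r i ^ k : ℝ) : ℂ) * tay f k (w : V n) := by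
      filter_upwards [eventually_ge_atTop (4 * 2 ^ j)] with i hi
      simp only [hp]
      rw [VV_QQ hf (hi.trans (hM i)), QQ_eq hf]
    refine Tendsto.congr' (EventuallyEq.symm h1) ?_
    unfold WW
    rw [QQ_eq hf]
    refine tendsto_finsetSum _ fun k _ => ?_
    refine Tendsto.mul_const _ ?_
    have h2 : Tendsto (fun i => AA j k * r i ^ k) atTop (𝓝 (AA j k * 1 ^ k)) :=
      (hr1.pow k).const_mul _
    rw [one_pow, mul_one] at h2
    exact (Complex.continuous_ofReal.tendsto _).comp h2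
  calc ∫⁻ ζ : Sph n, sqf (fun (j : ℕ) => pst j (WW f j)) ζ ∂sig n
      ≤ ∫⁻ ζ : Sph n, liminf (fun i => sqf (fun (j : ℕ) => pst j (fun w : Sph n => VV j (p i) w)) ζ)
          atTop ∂sig n := by
        refine lintegral_mono fun ζ => ?_
        exact sqf_lsc fun j => pst_lsc j (hconv j) ζ
    _ ≤ liminf (fun i => ∫⁻ ζ : Sph n, sqf (fun (j : ℕ) => pst j (fun w : Sph n => VV j (p i) w)) ζ
          ∂sig n) atTop :=
        lintegral_liminf_le fun i => meas_sqf fun j => measurable_pst _ _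
    _ ≤ liminf (fun _ : ℕ => C * ENNReal.ofReal (K + 1)) atTop := by
        refine liminf_le_liminf (Eventually.of_forall fun i => ?_)
        refine (hC (M i) (p i) (Pol_QQ hf _ _)).trans ?_
        gcongr
        rw [← ofReal_integral_norm_eq_lintegral_enorm (BM_QQ hf _ _).integrable]
        exact ENNReal.ofReal_le_ofReal (hint i)
    _ = _ := by simp

/-! ### Step 3: duality -/

omit [NeZero n] in
/-- a bounded measurable phase -/
lemma exists_phase {g : Sph n → ℂ} (hg : BM g) : ∃ b : Sph n → ℂ, BM b ∧ (∀ x, ‖b x‖ ≤ 1) ∧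
    ∀ x, g x * (starRingEnd ℂ) (b x) = (‖g x‖ : ℂ) := by
  refine ⟨fun x => g x / (‖g x‖ : ℂ), ⟨hg.1.div (Complex.measurable_ofReal.comp hg.1.norm), 1,
    fun x => ?_⟩, fun x => ?_, fun x => ?_⟩
  · rw [norm_div, Complex.norm_real, norm_norm]
    exact div_self_le_one _
  · rw [norm_div, Complex.norm_real, norm_norm]
    exact div_self_le_one _
  · by_cases h : g x = 0
    · simp [h]
    · have h1 : (‖g x‖ : ℂ) ≠ 0 := by simpa using h
      rw [map_div₀, Complex.conj_ofReal, mul_div_assoc', Complex.mul_conj, Complex.normSq_eq_norm_sq,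
        div_eq_iff h1]
      push_cast
      ring

/-- partial sums of the reproducing formula -/
noncomputable def SJ (f : V n → ℂ) (J : ℕ) (z : V n) : ℂ :=
  QQ f (4 * 2 ^ J) (fun k => ms (k / 2 ^ J)) z

lemma SJ_sub {f : V n → ℂ} (hf : DifferentiableOn ℂ f (Metric.ball 0 1)) {J J' : ℕ} (h : J ≤ J')
    (v : Sph n) : SJ f J' v - SJ f J v =
      ∑ j ∈ Finset.Ioc J J', VV j (WW f j) (v : V n) := by
  have h1 : ∀ {j J' : ℕ}, j ≤ J' → VV j (WW f j) (v : V n) =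
      ∑ k ∈ range (4 * 2 ^ J'), ((AA j k ^ 2 : ℝ) : ℂ) * tay f k (v : V n) := by
    intro j J' hj
    have e : WW f j = fun ζ : Sph n => QQ f (4 * 2 ^ j) (AA j) ζ := rfl
    rw [e, VV_QQ hf le_rfl, QQ_eq hf]
    have hle : 4 * 2 ^ j ≤ 4 * 2 ^ J' := Nat.mul_le_mul_left 4 (Nat.pow_le_pow_right (by norm_num) hj)
    simp_rw [← pow_two]
    refine Finset.sum_subset (Finset.range_mono hle) fun k _ hk => ?_
    rw [AA_of_le (by
      have : 4 * 2 ^ j ≤ k := by simpa using hk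
      omega)]
    simp
  have h2 : ∀ J : ℕ, SJ f J v = ∑ j ∈ range (J + 1), VV j (WW f j) (v : V n) := by
    intro J
    rw [sum_congr rfl fun j hj => h1 (J' := J) (Nat.lt_succ_iff.1 (Finset.mem_range.1 hj)),
      Finset.sum_comm]
    unfold SJ
    rw [QQ_eq hf]
    refine sum_congr rfl fun k _ => ?_
    rw [← sum_AA_sq, ← Finset.sum_mul]
    push_cast
    rfl
  rw [h2, h2, Finset.range_eq_Ico, Finset.range_eq_Ico, sub_eq_iff_eq_add,
    ← Finset.sum_Ico_consecutive _ (Nat.zero_le (J + 1)) (Nat.add_le_add_right h 1), add_comm]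
  congr 1
  refine Finset.sum_congr ?_ fun _ _ => rfl
  ext j
  simp only [Finset.mem_Ico, Finset.mem_Ioc]
  omega

/-- tails of the family of pieces -/
noncomputable def tl (f : V n → ℂ) (J j : ℕ) : Sph n → ℂ := if J < j then WW f j else fun _ => 0

lemma SJ_diff (n : ℕ) [NeZero n] : ∃ C : ℝ≥0, ∀ f : V n → ℂ,
    DifferentiableOn ℂ f (Metric.ball 0 1) → ∀ J J' : ℕ, J ≤ J' →
      ∫⁻ ζ : Sph n, ‖SJ f J' ζ - SJ f J ζ‖ₑ ∂sig n ≤
        C * ∫⁻ ζ : Sph n, sqf (fun (j : ℕ) => pst j (tl f J j)) ζ ∂sig n := by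
  obtain ⟨T⟩ := exists_treeData n
  obtain ⟨C, hC⟩ := T.coarse_dual
  refine ⟨C, fun f hf J J' hJ => ?_⟩
  have hWB : ∀ j, BM (WW f j) := fun j => BM_QQ hf _ _
  have hDB : BM fun ζ : Sph n => SJ f J' ζ - SJ f J ζ := (BM_QQ hf _ _).sub (BM_QQ hf _ _)
  obtain ⟨b, hb, hb1, hphase⟩ := exists_phase hDB
  have h1 : ((∫ ζ : Sph n, ‖SJ f J' ζ - SJ f J ζ‖ ∂sig n : ℝ) : ℂ) =
      ∑ j ∈ Finset.Ioc J J', ip (WW f j) (fun ζ : Sph n => VV j b ζ) := by
    rw [← integral_complex_ofReal]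
    have e1 : ∫ ζ : Sph n, ((‖SJ f J' ζ - SJ f J ζ‖ : ℝ) : ℂ) ∂sig n =
        ip (fun ζ : Sph n => ∑ j ∈ Finset.Ioc J J', VV j (WW f j) (ζ : V n)) b := by
      unfold ip
      refine integral_congr_ae (Eventually.of_forall fun ζ => ?_)
      simp only
      rw [← hphase ζ, SJ_sub hf hJ]
    rw [e1, ip_sum_left _ (fun j _ => BM_VV j (hWB j)) hb]
    refine sum_congr rfl fun j _ => ?_
    exact ip_VM _ _ (hWB j) hb
  have h2 : ∫⁻ ζ : Sph n, ‖SJ f J' ζ - SJ f J ζ‖ₑ ∂sig n ≤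
      ∑ j ∈ Finset.Ioc J J', ∫⁻ ζ : Sph n, ‖WW f j ζ‖ₑ * ‖VV j b (ζ : V n)‖ₑ ∂sig n := by
    rw [← ofReal_integral_norm_eq_lintegral_enorm hDB.integrable]
    have h3 : 0 ≤ ∫ ζ : Sph n, ‖SJ f J' ζ - SJ f J ζ‖ ∂sig n := integral_nonneg fun _ => norm_nonneg _
    have h4 : ENNReal.ofReal (∫ ζ : Sph n, ‖SJ f J' ζ - SJ f J ζ‖ ∂sig n) =
        ‖((∫ ζ : Sph n, ‖SJ f J' ζ - SJ f J ζ‖ ∂sig n : ℝ) : ℂ)‖ₑ := by
      rw [← ofReal_norm, Complex.norm_real, Real.norm_eq_abs, abs_of_nonneg h3]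
    rw [h4, h1]
    refine (enorm_sum_le _ _).trans (Finset.sum_le_sum fun j _ => ?_)
    unfold ip
    refine (enorm_integral_le_lintegral_enorm _).trans (le_of_eq ?_)
    refine lintegral_congr fun ζ => ?_
    rw [enorm_mul]
    congr 1
    rw [← ofReal_norm, RCLike.norm_conj, ofReal_norm]
  refine h2.trans ?_
  have hm : ∀ j, Measurable fun ζ : Sph n => pst j (tl f J j) ζ *
      pst j (fun w : Sph n => VV j b w) ζ := fun j => (measurable_pst _ _).mul (measurable_pst _ _)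
  calc ∑ j ∈ Finset.Ioc J J', ∫⁻ ζ : Sph n, ‖WW f j ζ‖ₑ * ‖VV j b (ζ : V n)‖ₑ ∂sig n
      ≤ ∑ j ∈ Finset.Ioc J J', ∫⁻ ζ : Sph n, pst j (tl f J j) ζ *
          pst j (fun w : Sph n => VV j b w) ζ ∂sig n := by
        refine Finset.sum_le_sum fun j hj => lintegral_mono fun ζ => ?_
        have hj' : J < j := (Finset.mem_Ioc.1 hj).1
        have e : tl f J j = WW f j := if_pos hj'
        rw [e]
        exact mul_le_mul' (le_pst_self j _ ζ) (le_pst_self j (fun w : Sph n => VV j b w) ζ)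
    _ = ∫⁻ ζ : Sph n, ∑ j ∈ Finset.Ioc J J', pst j (tl f J j) ζ *
          pst j (fun w : Sph n => VV j b w) ζ ∂sig n := (lintegral_finsetSum _ fun j _ => hm j).symm
    _ ≤ ∫⁻ ζ : Sph n, ∑' j, pst j (tl f J j) ζ *
          pst j (fun w : Sph n => VV j b w) ζ ∂sig n :=
        lintegral_mono fun ζ => ENNReal.sum_le_tsum _
    _ = ∫⁻ x, ∑' j, pst j (tl f J j) (T.Ψ x) *
          pst j (fun w : Sph n => VV j b w) (T.Ψ x) ∂mu01 :=
        (T.lintegral_Ψ (F := fun ζ => ∑' j, pst j (tl f J j) ζ *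
          pst j (fun w : Sph n => VV j b w) ζ) (Measurable.tsum hm)).symm
    _ ≤ _ := hC b hb hb1 (tl f J)

/-- the tails tend to zero -/
lemma tendsto_tl {f : V n → ℂ} (hfin : ∫⁻ ζ : Sph n, sqf (fun (j : ℕ) => pst j (WW f j)) ζ ∂sig n ≠ ∞) :
    Tendsto (fun J => ∫⁻ ζ : Sph n, sqf (fun (j : ℕ) => pst j (tl f J j)) ζ ∂sig n) atTop (𝓝 0) := by
  have hm : Measurable fun ζ : Sph n => sqf (fun (j : ℕ) => pst j (WW f j)) ζ :=
    meas_sqf fun j => measurable_pst _ _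
  have hpst0 : ∀ (j : ℕ) (z : Sph n), pst j (fun _ => 0) z = 0 := by
    intro j z
    unfold pst
    simp
  have h0 := tendsto_lintegral_of_dominated_convergence (μ := sig n)
    (F := fun J ζ => sqf (fun (j : ℕ) => pst j (tl f J j)) ζ) (f := fun _ => 0)
    (fun ζ => sqf (fun (j : ℕ) => pst j (WW f j)) ζ)
    (fun J => meas_sqf fun j => measurable_pst _ _)
    (fun J => Eventually.of_forall fun ζ => sqf_mono fun j => by
      unfold tl
      split_ifs
      · exact le_rfl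
      · rw [hpst0]; exact zero_le) hfin ?_
  · simpa using h0
  filter_upwards [ae_lt_top hm hfin] with ζ hζ
  have h1 : ∑' j, pst j (WW f j) ζ ^ 2 ≠ ∞ := by
    rw [← sqf_sq (fun (j : ℕ) => pst j (WW f j)) ζ]
    exact ENNReal.pow_ne_top hζ.ne
  have h2 := ENNReal.tendsto_sum_nat_add _ h1
  have h3 : ∀ J, ∑' j, pst j (tl f J j) ζ ^ 2 = ∑' k, pst (k + (J + 1)) (WW f (k + (J + 1))) ζ ^ 2 := by
    intro J
    rw [← Summable.sum_add_tsum_nat_add' (f := fun j => pst j (tl f J j) ζ ^ 2) (k := J + 1)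
      ENNReal.summable]
    have e1 : ∑ i ∈ range (J + 1), pst i (tl f J i) ζ ^ 2 = 0 := by
      refine Finset.sum_eq_zero fun j hj => ?_
      have : tl f J j = fun _ => 0 := if_neg (by
        have := Finset.mem_range.1 hj; omega)
      rw [this, hpst0]; simp
    rw [e1, zero_add]
    refine tsum_congr fun k => ?_
    have : tl f J (k + (J + 1)) = WW f (k + (J + 1)) := if_pos (by omega)
    rw [this]
  have h4 : Tendsto (fun J => ∑' j, pst j (tl f J j) ζ ^ 2) atTop (𝓝 0) := by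
    simp_rw [h3]
    exact h2.comp (tendsto_add_atTop_nat 1)
  have h5 := (ENNReal.continuous_rpow_const (y := 1 / 2)).tendsto 0
  rw [ENNReal.zero_rpow_of_pos (by norm_num)] at h5
  exact h5.comp h4

/-! ### Step 4: dilations do not increase the norm of polynomials -/

lemma int_rot {F : V n → ℂ} (hF : Continuous F) {c : ℂ} (hc : ‖c‖ = 1) :
    ∫ ζ : Sph n, ‖F (c • (ζ : V n))‖ ∂sig n = ∫ ζ : Sph n, ‖F ζ‖ ∂sig n := by
  have hcont : Continuous (uact (rotC n c hc)) := by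
    unfold uact
    exact Continuous.subtype_mk (by fun_prop) _
  have h := sig_map (rotC n c hc)
  have h2 := integral_map (μ := sig n) hcont.measurable.aemeasurable
    (f := fun ζ : Sph n => ‖F ζ‖) (by
      rw [h.map_eq]
      exact ((hF.comp continuous_subtype_val).norm).aestronglyMeasurable)
  rw [h.map_eq] at h2
  rw [h2]
  rfl

lemma int_dil_le {f : V n → ℂ} (hf : DifferentiableOn ℂ f (Metric.ball 0 1)) (M : ℕ) (m : ℕ → ℝ)
    {r : ℝ} (hr : r ∈ Ioo (0 : ℝ) 1) :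
    ∫ ζ : Sph n, ‖QQ f M m ((r : ℂ) • (ζ : V n))‖ ∂sig n ≤ ∫ ζ : Sph n, ‖QQ f M m ζ‖ ∂sig n := by
  have hc : Continuous (QQ f M m) := continuous_QQ hf M m
  have hgB : BM fun ζ : Sph n => QQ f M m ((r : ℂ) • (ζ : V n)) := BM_cont (by fun_prop)
  obtain ⟨b, hb, hb1, hph⟩ := exists_phase hgB
  set Φ : ℂ → ℂ := fun w => ∑ k ∈ range M, (∫ ζ : Sph n, (m k : ℂ) * tay f k (ζ : V n) *
    (starRingEnd ℂ) (b ζ) ∂sig n) * w ^ k with hΦ
  have hBt : ∀ k, BM fun ζ : Sph n => (m k : ℂ) * tay f k (ζ : V n) * (starRingEnd ℂ) (b ζ) := by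
    intro k
    refine BM.mul (BM.const_mul ?_ _) hb.conj
    have e : (fun ζ : Sph n => tay f k (ζ : V n)) = fun ζ : Sph n =>
        (2 : ℂ) ^ k * PP k (dil f (1 / 2)) ζ := by
      funext ζ; rw [PP_half hf]
    rw [e]
    exact (BM_PP k (BM_dil hf (by norm_num))).const_mul _
  have hΦ2 : ∀ w : ℂ, Φ w = ∫ ζ : Sph n, QQ f M m (w • (ζ : V n)) * (starRingEnd ℂ) (b ζ) ∂sig n := by
    intro w
    simp_rw [QQ_smul hf, Finset.sum_mul]
    rw [integral_finsetSum]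
    · refine sum_congr rfl fun k _ => ?_
      rw [← integral_mul_const]
      refine integral_congr_ae (Eventually.of_forall fun ζ => ?_)
      simp only
      ring
    · intro k _
      refine (((hBt k).const_mul (w ^ k)).integrable).congr (Eventually.of_forall fun ζ => ?_)
      simp only
      ring
  have hbound : ∀ w : ℂ, ‖w‖ = 1 → ‖Φ w‖ ≤ ∫ ζ : Sph n, ‖QQ f M m ζ‖ ∂sig n := by
    intro w hw
    rw [hΦ2, ← int_rot hc hw]
    refine (norm_integral_le_integral_norm _).trans ?_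
    refine integral_mono_of_nonneg (Eventually.of_forall fun ζ => norm_nonneg _)
      (BM_cont (f := fun ζ : Sph n => QQ f M m (w • (ζ : V n))) (by fun_prop)).integrable.norm
      (Eventually.of_forall fun ζ => ?_)
    simp only
    rw [norm_mul, RCLike.norm_conj]
    exact mul_le_of_le_one_right (norm_nonneg _) (hb1 ζ)
  have hdiff : Differentiable ℂ Φ := by
    simp only [hΦ]
    fun_prop
  have h1 : ‖Φ r‖ ≤ ∫ ζ : Sph n, ‖QQ f M m ζ‖ ∂sig n := by
    refine Complex.norm_le_of_forall_mem_frontier_norm_le (U := Metric.ball (0 : ℂ) 1)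
      Metric.isBounded_ball hdiff.diffContOnCl (fun z hz => ?_) (subset_closure ?_)
    · rw [frontier_ball (0 : ℂ) one_ne_zero, mem_sphere_zero_iff_norm] at hz
      exact hbound z hz
    · rw [mem_ball_zero_iff, Complex.norm_real, Real.norm_eq_abs, abs_of_pos hr.1]
      exact hr.2
  have h2 : Φ r = ((∫ ζ : Sph n, ‖QQ f M m ((r : ℂ) • (ζ : V n))‖ ∂sig n : ℝ) : ℂ) := by
    rw [hΦ2, ← integral_complex_ofReal]
    exact integral_congr_ae (Eventually.of_forall fun ζ => hph ζ)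
  rw [h2, Complex.norm_real, Real.norm_eq_abs,
    abs_of_nonneg (integral_nonneg fun _ => norm_nonneg _)] at h1
  exact h1

end

end Dens

open Dens in
/-- density of the polynomials -/
theorem density (n : ℕ) [NeZero n] :
    ∀ f : V n → ℂ, DifferentiableOn ℂ f (Metric.ball 0 1) → ∀ K : ℝ,
      (∀ r ∈ Ioo (0 : ℝ) 1, ∫ ζ : Sph n, ‖f ((r : ℂ) • (ζ : V n))‖ ∂sig n ≤ K) →
      ∀ δ > 0, ∃ (M : ℕ) (p : Sph n → ℂ), Pol M p ∧ ∀ r ∈ Ioo (0 : ℝ) 1,
        ∫ ζ : Sph n, ‖f ((r : ℂ) • (ζ : V n)) -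
          ∑ k ∈ Finset.range M, PP k p ((r : ℂ) • (ζ : V n))‖ ∂sig n ≤ δ := by
  intro f hf K hK δ hδ
  obtain ⟨C1, hC1⟩ := WW_bound n
  obtain ⟨C2, hC2⟩ := SJ_diff n
  have hfin : ∫⁻ ζ : Sph n, sqf (fun (j : ℕ) => pst j (WW f j)) ζ ∂sig n ≠ ∞ := by
    refine ne_top_of_le_ne_top ?_ (hC1 f K hf hK)
    exact ENNReal.mul_ne_top ENNReal.coe_ne_top ENNReal.ofReal_ne_top
  have h1 : Tendsto (fun J => (C2 : ℝ≥0∞) *
      ∫⁻ ζ : Sph n, sqf (fun (j : ℕ) => pst j (tl f J j)) ζ ∂sig n) atTop (𝓝 (C2 * 0)) :=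
    ENNReal.Tendsto.const_mul (tendsto_tl hfin) (Or.inr ENNReal.coe_ne_top)
  rw [mul_zero] at h1
  obtain ⟨J, hJ⟩ := (h1.eventually (ge_mem_nhds (ENNReal.ofReal_pos.2 hδ))).exists
  refine ⟨4 * 2 ^ J, fun ζ => SJ f J ζ, Pol_QQ hf _ _, fun r hr => ?_⟩
  have hBh : BM (dil f (1 / 2)) := BM_dil hf (by norm_num)
  have e1 : ∀ z : V n, ∑ k ∈ range (4 * 2 ^ J), PP k (fun ζ : Sph n => SJ f J ζ) z = SJ f J z := by
    intro z
    unfold SJ QQ
    simp_rw [PP_VM _ _ hBh]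
    conv_rhs => unfold VM
    refine sum_congr rfl fun k hk => ?_
    rw [if_pos (Finset.mem_range.1 hk)]
  simp_rw [e1]
  -- the limit in J'
  have hms : ∀ (i k : ℕ), |ms ((k : ℝ) / 2 ^ i)| ≤ 1 := fun i k => by
    rw [abs_of_nonneg (ms_nonneg _)]; exact ms_le_one _
  have hms0 : ∀ i k : ℕ, 4 * 2 ^ i ≤ k → ms ((k : ℝ) / 2 ^ i) = 0 := by
    intro i k hk
    apply ms_of_two_le
    rw [le_div_iff₀ (by positivity)]
    have : ((4 * 2 ^ i : ℕ) : ℝ) ≤ k := by exact_mod_cast hk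
    push_cast at this
    have h2 : (0 : ℝ) < 2 ^ i := by positivity
    linarith
  have hms1 : ∀ k : ℕ, Tendsto (fun i : ℕ => ms ((k : ℝ) / 2 ^ i)) atTop (𝓝 1) := by
    intro k
    refine tendsto_const_nhds.congr' ?_
    filter_upwards [eventually_ge_atTop k] with i hi
    rw [ms_of_le_one]
    rw [div_le_one (by positivity)]
    have h2 : k ≤ 2 ^ i := (hi.trans (Nat.lt_two_pow_self).le)
    exact_mod_cast h2
  have hlim : ∀ v : Sph n, Tendsto (fun i => SJ f i ((r : ℂ) • (v : V n))) atTop (𝓝 (dil f r v)) :=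
    fun v => tendsto_QQ_radial hf hK hr (m := fun i k => ms ((k : ℝ) / 2 ^ i))
      (M := fun i => 4 * 2 ^ i) hms hms0 hms1 v
  have hlim2 : Tendsto (fun i => ∫ ζ : Sph n, ‖SJ f i ((r : ℂ) • (ζ : V n)) -
      SJ f J ((r : ℂ) • (ζ : V n))‖ ∂sig n) atTop
      (𝓝 (∫ ζ : Sph n, ‖dil f r ζ - SJ f J ((r : ℂ) • (ζ : V n))‖ ∂sig n)) := by
    have hcS : ∀ i, Continuous (SJ f i) := fun i => continuous_QQ hf _ _
    refine tendsto_integral_of_dominated_convergence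
      (fun _ => (∑' k, cc n k * K * r ^ k) + (∑' k, cc n k * K * r ^ k))
      (fun i => ?_) (integrable_const _) (fun i => Eventually.of_forall fun v => ?_)
      (Eventually.of_forall fun v => ?_)
    · have h3 := hcS i
      have h4 := hcS J
      exact (BM_cont (f := fun ζ : Sph n => SJ f i ((r : ℂ) • (ζ : V n)) -
        SJ f J ((r : ℂ) • (ζ : V n))) (by fun_prop)).integrable.norm.1
    · rw [norm_norm]
      refine (norm_sub_le _ _).trans (add_le_add ?_ ?_)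
      · exact norm_QQ_le hf hK (m := fun k => ms ((k : ℝ) / 2 ^ i)) (hms i) hr _ v
      · exact norm_QQ_le hf hK (m := fun k => ms ((k : ℝ) / 2 ^ J)) (hms J) hr _ v
    · exact ((hlim v).sub_const _).norm
  refine le_of_tendsto hlim2 ?_
  filter_upwards [eventually_ge_atTop J] with i hi
  have e2 : ∀ z : V n, SJ f i z - SJ f J z =
      QQ f (4 * 2 ^ i) (fun k => ms ((k : ℝ) / 2 ^ i) - ms ((k : ℝ) / 2 ^ J)) z := by
    intro z
    have hle : 4 * 2 ^ J ≤ 4 * 2 ^ i :=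
      Nat.mul_le_mul_left 4 (Nat.pow_le_pow_right (by norm_num) hi)
    have e3 : SJ f J z = QQ f (4 * 2 ^ i) (fun k => ms ((k : ℝ) / 2 ^ J)) z := by
      unfold SJ QQ VM
      refine Finset.sum_subset (Finset.range_mono hle) fun k _ hk => ?_
      simp only [hms0 J k (by simpa using hk)]
      simp
    rw [e3]
    unfold SJ QQ VM
    rw [← Finset.sum_sub_distrib]
    refine sum_congr rfl fun k _ => ?_
    push_cast
    ring
  simp_rw [e2]
  refine (int_dil_le hf _ _ hr).trans ?_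
  simp_rw [← e2]
  have hDB : BM fun ζ : Sph n => SJ f i ζ - SJ f J ζ := (BM_QQ hf _ _).sub (BM_QQ hf _ _)
  have h5 := hC2 f hf J i hi
  rw [← ofReal_integral_norm_eq_lintegral_enorm hDB.integrable] at h5
  exact (ENNReal.ofReal_le_ofReal_iff hδ.le).1 (h5.trans hJ)

end Pool.Agent.MP28b1a7
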