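import Pool.Agent.Lib.MP_28b1a7_an.Coarse
import Pool.Agent.Lib.MP_28b1a7_an.Abs2

/-!
`G`-adic intervals.
-/

namespace Pool.Agent.MP28b1a7

open MeasureTheory Set Filter Topology
open scoped InnerProductSpace ENNReal NNReal

/-- index of the level-`t` interval containing `x` -/
noncomputable def mm (G t : ℕ) (x : ℝ) : ℕ := ⌊x * (G : ℝ) ^ t⌋₊

/-- the `G`-adic intervals -/
def dI (G t m : ℕ) : Set ℝ := Ico ((m : ℝ) / (G : ℝ) ^ t) (((m : ℝ) + 1) / (G : ℝ) ^ t)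

lemma Gt_pos {G : ℕ} (hG : 2 ≤ G) (t : ℕ) : (0 : ℝ) < (G : ℝ) ^ t := by
  have : (0 : ℝ) < G := by exact_mod_cast (by omega : 0 < G)
  positivity

theorem mm_lt {G : ℕ} (hG : 2 ≤ G) (t : ℕ) {x : ℝ} (hx : x ∈ Ico (0 : ℝ) 1) : mm G t x < G ^ t := by
  have h := Gt_pos hG t
  unfold mm
  rw [Nat.floor_lt (mul_nonneg hx.1 h.le)]
  push_cast
  have := hx.2
  nlinarith

theorem mem_dI {G : ℕ} (hG : 2 ≤ G) (t m : ℕ) {x : ℝ} (hx : 0 ≤ x) :
    x ∈ dI G t m ↔ mm G t x = m := by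
  have h := Gt_pos hG t
  unfold mm dI
  rw [Nat.floor_eq_iff (mul_nonneg hx h.le), mem_Ico, div_le_iff₀ h, lt_div_iff₀ h]

lemma dI_nonneg {G t m : ℕ} {x : ℝ} (hx : x ∈ dI G t m) : 0 ≤ x :=
  le_trans (by positivity) hx.1

lemma mm_div (G t j : ℕ) (x : ℝ) (hG : 2 ≤ G) : mm G t x = mm G (t + j) x / G ^ j := by
  unfold mm
  have h := Gt_pos hG j
  rw [← Nat.floor_div_natCast]
  congr 1
  push_cast
  rw [pow_add]
  field_simp

lemma dI_eq_iUnion {G : ℕ} (hG : 2 ≤ G) (t j m : ℕ) :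
    dI G t m = ⋃ l ∈ Finset.range (G ^ j), dI G (t + j) (m * G ^ j + l) := by
  have hGj : 0 < G ^ j := Nat.pow_pos (by omega)
  ext x
  simp only [mem_iUnion, Finset.mem_range, exists_prop]
  constructor
  · intro hx
    have h0 := dI_nonneg hx
    rw [mem_dI hG t m h0, mm_div G t j x hG] at hx
    refine ⟨mm G (t + j) x % G ^ j, Nat.mod_lt _ hGj, ?_⟩
    rw [mem_dI hG _ _ h0, ← hx]
    exact (Nat.div_add_mod' _ _).symm
  · rintro ⟨l, hl, hx⟩
    have h0 := dI_nonneg hx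
    rw [mem_dI hG _ _ h0] at hx
    rw [mem_dI hG t m h0, mm_div G t j x hG, hx]
    rw [mul_comm m, Nat.mul_add_div hGj, Nat.div_eq_of_lt hl, add_zero]

lemma dI_disjoint {G : ℕ} (hG : 2 ≤ G) (t : ℕ) {m m' : ℕ} (h : m ≠ m') :
    Disjoint (dI G t m) (dI G t m') := by
  rw [Set.disjoint_left]
  intro x hx hx'
  have h0 := dI_nonneg hx
  rw [mem_dI hG t _ h0] at hx hx'
  exact h (hx.symm.trans hx')

lemma measurableSet_dI (G t m : ℕ) : MeasurableSet (dI G t m) := measurableSet_Ico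

lemma volume_dI {G : ℕ} (hG : 2 ≤ G) (t m : ℕ) : volume (dI G t m) = ((G : ℝ≥0∞) ^ t)⁻¹ := by
  have h := Gt_pos hG t
  unfold dI
  rw [Real.volume_Ico]
  have h3 : ((m : ℝ) + 1) / (G : ℝ) ^ t - m / (G : ℝ) ^ t = ((G : ℝ) ^ t)⁻¹ := by
    field_simp
    ring
  rw [h3, ENNReal.ofReal_inv_of_pos h, ENNReal.ofReal_pow (by positivity), ENNReal.ofReal_natCast]

/-- integrals over a `G`-adic interval split into the subintervals of level `t + j` -/
theorem lintegral_sub' {G : ℕ} (hG : 2 ≤ G) (t j m : ℕ) (F : ℝ → ℝ≥0∞) :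
    ∫⁻ x in dI G t m, F x = ∑ l ∈ Finset.range (G ^ j), ∫⁻ x in dI G (t + j) (m * G ^ j + l), F x := by
  rw [dI_eq_iUnion hG t j m, lintegral_biUnion_finset]
  · intro l _ l' _ hll
    exact dI_disjoint hG _ (fun h => hll (by simpa using h))
  · exact fun l _ => measurableSet_dI _ _ _

/-- integrals over a `G`-adic interval split into the subintervals of level `t + j` -/
theorem lintegral_sub {G : ℕ} (hG : 2 ≤ G) (t j m : ℕ) (_hm : m < G ^ t) (F : ℝ → ℝ≥0∞) :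
    ∫⁻ x in dI G t m, F x = ∑ l ∈ Finset.range (G ^ j), ∫⁻ x in dI G (t + j) (m * G ^ j + l), F x :=
  lintegral_sub' hG t j m F

lemma dI_zero (G : ℕ) : dI G 0 0 = Ico (0 : ℝ) 1 := by
  unfold dI; simp

lemma lintegral_mu01 {G : ℕ} (hG : 2 ≤ G) (t : ℕ) (F : ℝ → ℝ≥0∞) :
    ∫⁻ x, F x ∂mu01 = ∑ m ∈ Finset.range (G ^ t), ∫⁻ x in dI G t m, F x := by
  have h := lintegral_sub' hG 0 t 0 F
  rw [dI_zero] at h
  simpa using h

lemma dI_subset {G : ℕ} (hG : 2 ≤ G) {t m : ℕ} (hm : m < G ^ t) : dI G t m ⊆ Ico (0 : ℝ) 1 := by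
  intro x hx
  refine ⟨dI_nonneg hx, lt_of_lt_of_le hx.2 ?_⟩
  rw [div_le_one (Gt_pos hG t)]
  exact_mod_cast hm

lemma setLIntegral_dI_const {G : ℕ} (hG : 2 ≤ G) (t m : ℕ) (φ : ℕ → ℝ≥0∞) :
    ∫⁻ x in dI G t m, φ (mm G t x) = φ m * ((G : ℝ≥0∞) ^ t)⁻¹ := by
  rw [setLIntegral_congr_fun (g := fun _ => φ m) (measurableSet_dI _ _ _)]
  · rw [setLIntegral_const, volume_dI hG]
  · intro x hx
    simp only
    rw [(mem_dI hG t m (dI_nonneg hx)).1 hx]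

theorem lintegral_level {G : ℕ} (hG : 2 ≤ G) (t : ℕ) (φ : ℕ → ℝ≥0∞) :
    ∫⁻ x, φ (mm G t x) ∂mu01 = ∑ m ∈ Finset.range (G ^ t), φ m * ((G : ℝ≥0∞) ^ t)⁻¹ := by
  rw [lintegral_mu01 hG t]
  exact Finset.sum_congr rfl fun m _ => setLIntegral_dI_const hG t m φ

lemma measurable_mm (G t : ℕ) : Measurable (mm G t) :=
  Nat.measurable_floor.comp (measurable_id.mul_const _)

/-- the dyadic averaging kernels -/
noncomputable def kd (G : ℕ) (t : ℕ) (x y : ℝ) : ℝ≥0∞ :=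
  if mm G t x = mm G t y then (G : ℝ≥0∞) ^ t else 0

lemma Gt_ne_zero {G : ℕ} (hG : 2 ≤ G) (t : ℕ) : (G : ℝ≥0∞) ^ t ≠ 0 := by
  have : (G : ℝ≥0∞) ≠ 0 := by
    simp only [ne_eq, Nat.cast_eq_zero]; omega
  exact pow_ne_zero _ this

lemma Gt_ne_top (G t : ℕ) : (G : ℝ≥0∞) ^ t ≠ ∞ := ENNReal.pow_ne_top (ENNReal.natCast_ne_top G)

theorem kd_KF {G : ℕ} (hG : 2 ≤ G) : KF mu01 (kd G) 1 := by
  have hint : ∀ j x, ∫⁻ y, kd G j x y ∂mu01 ≤ 1 := by
    intro j x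
    unfold kd
    rw [lintegral_level hG j (fun m => if mm G j x = m then (G : ℝ≥0∞) ^ j else 0)]
    simp only [ite_mul, zero_mul]
    rw [Finset.sum_ite_eq]
    split_ifs
    · rw [ENNReal.mul_inv_cancel (Gt_ne_zero hG j) (Gt_ne_top G j)]
    · exact zero_le_one
  refine ⟨le_rfl, ?_, ?_, ?_, ?_⟩
  · intro j
    have h1 : MeasurableSet {p : ℝ × ℝ | mm G j p.1 = mm G j p.2} :=
      measurableSet_eq_fun ((measurable_mm G j).comp measurable_fst)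
        ((measurable_mm G j).comp measurable_snd)
    exact Measurable.ite h1 measurable_const measurable_const
  · intro j x y
    unfold kd
    simp only [eq_comm]
  · intro j x
    simpa using hint j x
  · intro i j hij x z
    obtain ⟨d, rfl⟩ := Nat.exists_eq_add_of_le hij
    have h1 : ∀ y, kd G i x y * kd G (i + d) y z ≤ kd G i x z * kd G (i + d) z y := by
      intro y
      by_cases hyz : mm G (i + d) y = mm G (i + d) z
      · have h2 : mm G i y = mm G i z := by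
          rw [mm_div G i d y hG, mm_div G i d z hG, hyz]
        have h3 : kd G i x y = kd G i x z := by unfold kd; rw [h2]
        rw [h3]
        unfold kd
        simp [hyz]
      · have : kd G (i + d) y z = 0 := by unfold kd; simp [hyz]
        rw [this, mul_zero]
        exact zero_le
    calc ∫⁻ y, kd G i x y * kd G (i + d) y z ∂mu01
        ≤ ∫⁻ y, kd G i x z * kd G (i + d) z y ∂mu01 := lintegral_mono h1
      _ = kd G i x z * ∫⁻ y, kd G (i + d) z y ∂mu01 := by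
          rw [lintegral_const_mul']
          unfold kd
          split_ifs
          · exact Gt_ne_top G i
          · simp
      _ ≤ kd G i x z * 1 := by gcongr; exact hint _ _
      _ = ((1 : ℝ≥0) : ℝ≥0∞) * kd G i x z := by simp

lemma lvl_eq {G : ℕ} (c : Idx G → ℂ) (t : ℕ) (x : ℝ) :
    lvl c t x = ((G : ℝ≥0∞) ^ t) ^ (1 / 2 : ℝ) * ‖co c t (mm G t x)‖ₑ := rfl

lemma tsum_Idx {G : ℕ} (φ : ℕ → ℕ → ℝ≥0∞) :
    ∑' i : Idx G, φ i.1.1 i.1.2 = ∑' t, ∑ m ∈ Finset.range (G ^ t), φ t m := by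
  have h1 : ∑' i : Idx G, φ i.1.1 i.1.2 =
      ∑' p : ℕ × ℕ, ({p : ℕ × ℕ | p.2 < G ^ p.1} : Set (ℕ × ℕ)).indicator
        (fun p => φ p.1 p.2) p :=
    tsum_subtype ({p : ℕ × ℕ | p.2 < G ^ p.1} : Set (ℕ × ℕ)) (fun p => φ p.1 p.2)
  rw [h1, ENNReal.tsum_prod']
  refine tsum_congr fun t => ?_
  rw [tsum_eq_sum (s := Finset.range (G ^ t))]
  · refine Finset.sum_congr rfl fun m hm => ?_
    rw [indicator_of_mem]
    exact Finset.mem_range.1 hm
  · intro m hm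
    rw [indicator_of_notMem]
    intro h
    exact hm (Finset.mem_range.2 h)

/-- duality on the tree -/
theorem tree_dual {G : ℕ} (hG : 2 ≤ G) {C : ℝ≥0} (hC : 0 < C) (c w : Idx G → ℂ)
    (hw : ∀ t m, m < G ^ t → ∫⁻ x in dI G t m, ∑' j, lvl w (t + j) x ^ 2 ≤
      (C : ℝ≥0∞) ^ 2 * ((G : ℝ≥0∞) ^ t)⁻¹) :
    ∑' i, ‖c i‖ₑ * ‖w i‖ₑ ≤ 3 * C * ND c := by
  have h := dual_ineq (μ := mu01) (fun t x y => mm G t x = mm G t y)
    (fun i x y hxy => by
      rw [mm_div G i 1 x hG, mm_div G i 1 y hG, hxy])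
    (u := lvl c) (v := lvl w) (measurable_lvl c) (measurable_lvl w)
    (fun i x y hxy => by rw [lvl_eq, lvl_eq, hxy]) hC
    (by
      intro t g hg hgr
      rw [lintegral_mu01 hG t, lintegral_mu01 hG t, Finset.mul_sum]
      refine Finset.sum_le_sum fun m hm => ?_
      have hm' := Finset.mem_range.1 hm
      -- `g` is constant on the interval
      set x0 : ℝ := (m : ℝ) / (G : ℝ) ^ t with hx0
      have hx0m : x0 ∈ dI G t m := by
        refine ⟨le_rfl, ?_⟩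
        exact div_lt_div_of_pos_right (by linarith) (Gt_pos hG t)
      have hgc : ∀ x ∈ dI G t m, g x = g x0 := by
        intro x hx
        apply hgr
        rw [(mem_dI hG t m (dI_nonneg hx)).1 hx, (mem_dI hG t m (dI_nonneg hx0m)).1 hx0m]
      have hmeas : Measurable fun x => ∑' j, lvl w (t + j) x ^ 2 :=
        Measurable.tsum fun j => (measurable_lvl w (t + j)).pow_const 2
      rw [setLIntegral_congr_fun (g := fun x => g x0 * ∑' j, lvl w (t + j) x ^ 2)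
        (measurableSet_dI _ _ _) (fun x hx => by simp only; rw [hgc x hx]),
        lintegral_const_mul _ hmeas,
        setLIntegral_congr_fun (g := fun _ => g x0) (measurableSet_dI _ _ _)
          (fun x hx => hgc x hx), setLIntegral_const, volume_dI hG]
      calc _ ≤ g x0 * ((C : ℝ≥0∞) ^ 2 * ((G : ℝ≥0∞) ^ t)⁻¹) := by gcongr; exact hw t m hm'
        _ = _ := by ring)
  refine le_trans (le_of_eq ?_) h
  have hlm : ∀ t, AEMeasurable (fun x => lvl c t x * lvl w t x) mu01 :=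
    fun t => ((measurable_lvl c t).mul (measurable_lvl w t)).aemeasurable
  rw [lintegral_tsum hlm]
  have h1 : ∀ i : Idx G, ‖c i‖ₑ * ‖w i‖ₑ = (fun t m => ‖co c t m‖ₑ * ‖co w t m‖ₑ) i.1.1 i.1.2 := by
    intro i
    have h2 : ∀ d : Idx G → ℂ, co d i.1.1 i.1.2 = d i := by
      intro d
      unfold co
      rw [dif_pos i.2]
      rfl
    simp only [h2]
  refine (tsum_congr h1).trans ((tsum_Idx (fun t m => ‖co c t m‖ₑ * ‖co w t m‖ₑ)).trans ?_)
  refine tsum_congr fun t => ?_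
  have h3 : ∀ x, lvl c t x * lvl w t x =
      (fun m => (G : ℝ≥0∞) ^ t * (‖co c t m‖ₑ * ‖co w t m‖ₑ)) (mm G t x) := by
    intro x
    rw [lvl_eq, lvl_eq]
    have h4 : ((G : ℝ≥0∞) ^ t) ^ (1 / 2 : ℝ) * ((G : ℝ≥0∞) ^ t) ^ (1 / 2 : ℝ) = (G : ℝ≥0∞) ^ t := by
      rw [← ENNReal.rpow_add_of_nonneg _ _ (by norm_num) (by norm_num)]
      norm_num
    calc _ = (((G : ℝ≥0∞) ^ t) ^ (1 / 2 : ℝ) * ((G : ℝ≥0∞) ^ t) ^ (1 / 2 : ℝ)) *
        (‖co c t (mm G t x)‖ₑ * ‖co w t (mm G t x)‖ₑ) := by ring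
      _ = _ := by rw [h4]
  rw [lintegral_congr h3]
  refine Eq.trans ?_ (lintegral_level hG t
    (fun m => (G : ℝ≥0∞) ^ t * (‖co c t m‖ₑ * ‖co w t m‖ₑ))).symm
  refine Finset.sum_congr rfl fun m _ => ?_
  rw [mul_comm ((G : ℝ≥0∞) ^ t), mul_assoc,
    ENNReal.mul_inv_cancel (Gt_ne_zero hG t) (Gt_ne_top G t), mul_one]

/-- restriction to subsets of proportional measure does not decrease the square function norm -/
theorem cell_part {G : ℕ} (hG : 2 ≤ G) {κ : ℝ≥0} (hκ : 0 < κ) : ∃ C : ℝ≥0, ∀ (c : Idx G → ℂ)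
    (E : ℕ → Set ℝ), (∀ t, MeasurableSet (E t)) →
    (∀ t m, m < G ^ t → (κ : ℝ≥0∞) * ((G : ℝ≥0∞) ^ t)⁻¹ ≤ volume (E t ∩ dI G t m)) →
    ND c ≤ C * ∫⁻ x, sqf (fun t => (E t).indicator (lvl c t)) x ∂mu01 := by
  refine ⟨(κ ^ (3 / 2 : ℝ))⁻¹ * 2, ?_⟩
  intro c E hE hκE
  have hκ0 : (κ : ℝ≥0∞) ≠ 0 := by simpa using hκ.ne'
  have hκt : (κ : ℝ≥0∞) ≠ ∞ := ENNReal.coe_ne_top
  have hF := FS_ineq (kd_KF hG) (G := fun t => (E t).indicator (lvl c t))
    (fun t => (measurable_lvl c t).indicator (hE t))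
  simp only [one_pow, mul_one] at hF
  have hT : ∀ t, ∀ x ∈ Ico (0 : ℝ) 1, (κ : ℝ≥0∞) * lvl c t x ^ (2 / 3 : ℝ) ≤
      TK mu01 (kd G) t (fun y => (E t).indicator (lvl c t) y ^ (2 / 3 : ℝ)) x := by
    intro t x hx
    unfold TK
    have hm := mm_lt hG t hx
    set m := mm G t x with hmdef
    have h1 : ∀ y, (E t ∩ dI G t m).indicator
        (fun _ => (G : ℝ≥0∞) ^ t * lvl c t x ^ (2 / 3 : ℝ)) y ≤
        kd G t x y * (E t).indicator (lvl c t) y ^ (2 / 3 : ℝ) := by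
      intro y
      by_cases hy : y ∈ E t ∩ dI G t m
      · rw [indicator_of_mem hy, indicator_of_mem hy.1]
        have h2 : mm G t y = m := (mem_dI hG t m (dI_nonneg hy.2)).1 hy.2
        have h3 : lvl c t y = lvl c t x := by rw [lvl_eq, lvl_eq, h2]
        unfold kd
        rw [h3, if_pos (by rw [h2])]
      · rw [indicator_of_notMem hy]
        exact zero_le
    have hms : MeasurableSet (E t ∩ dI G t m) := (hE t).inter (measurableSet_dI _ _ _)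
    calc (κ : ℝ≥0∞) * lvl c t x ^ (2 / 3 : ℝ)
        = ((G : ℝ≥0∞) ^ t * ((G : ℝ≥0∞) ^ t)⁻¹) * (κ * lvl c t x ^ (2 / 3 : ℝ)) := by
          rw [ENNReal.mul_inv_cancel (Gt_ne_zero hG t) (Gt_ne_top G t), one_mul]
      _ = ((G : ℝ≥0∞) ^ t * lvl c t x ^ (2 / 3 : ℝ)) * (κ * ((G : ℝ≥0∞) ^ t)⁻¹) := by ring
      _ ≤ ((G : ℝ≥0∞) ^ t * lvl c t x ^ (2 / 3 : ℝ)) * volume (E t ∩ dI G t m) := by
          gcongr; exact hκE t m hm
      _ = ∫⁻ y, (E t ∩ dI G t m).indicator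
            (fun _ => (G : ℝ≥0∞) ^ t * lvl c t x ^ (2 / 3 : ℝ)) y ∂mu01 := by
          rw [lintegral_indicator hms, setLIntegral_const, Measure.restrict_apply hms]
          congr 2
          symm
          rw [inter_eq_left]
          exact fun y hy => dI_subset hG hm hy.2
      _ ≤ _ := lintegral_mono h1
  have hS : ∀ x ∈ Ico (0 : ℝ) 1, (κ : ℝ≥0∞) ^ (3 / 2 : ℝ) * sqf (lvl c) x ≤
      (∑' t, (TK mu01 (kd G) t (fun y => (E t).indicator (lvl c t) y ^ (2 / 3 : ℝ)) x) ^ 3) ^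
        (1 / 2 : ℝ) := by
    intro x hx
    unfold sqf
    have e1 : (κ : ℝ≥0∞) ^ (3 / 2 : ℝ) = ((κ : ℝ≥0∞) ^ 3) ^ (1 / 2 : ℝ) := by
      rw [← ENNReal.rpow_natCast, ← ENNReal.rpow_mul]
      norm_num
    rw [e1, ← ENNReal.mul_rpow_of_nonneg _ _ (by norm_num : (0 : ℝ) ≤ 1 / 2),
      ← ENNReal.tsum_mul_left]
    refine ENNReal.rpow_le_rpow (ENNReal.tsum_le_tsum fun t => ?_) (by norm_num)
    have h2 := pow_le_pow_left' (hT t x hx) 3
    refine le_trans (le_of_eq ?_) h2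
    rw [mul_pow]
    congr 1
    rw [← ENNReal.rpow_natCast, ← ENNReal.rpow_natCast, ← ENNReal.rpow_mul]
    norm_num
  have hκ1 : (κ : ℝ≥0∞) ^ (3 / 2 : ℝ) ≠ 0 := by
    intro h
    rw [ENNReal.rpow_eq_zero_iff] at h
    rcases h with h | h
    · exact hκ0 h.1
    · exact hκt h.1
  have hκ2 : (κ : ℝ≥0∞) ^ (3 / 2 : ℝ) ≠ ∞ := ENNReal.rpow_ne_top_of_nonneg (by norm_num) hκt
  have hfin : (κ : ℝ≥0∞) ^ (3 / 2 : ℝ) * ND c ≤
      2 * ∫⁻ x, sqf (fun t => (E t).indicator (lvl c t)) x ∂mu01 := by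
    unfold ND
    rw [← lintegral_const_mul _ (measurable_sqf_lvl c)]
    refine le_trans ?_ hF
    exact setLIntegral_mono' measurableSet_Ico fun x hx => hS x hx
  calc ND c = ((κ : ℝ≥0∞) ^ (3 / 2 : ℝ))⁻¹ * ((κ : ℝ≥0∞) ^ (3 / 2 : ℝ) * ND c) := by
        rw [← mul_assoc, ENNReal.inv_mul_cancel hκ1 hκ2, one_mul]
    _ ≤ ((κ : ℝ≥0∞) ^ (3 / 2 : ℝ))⁻¹ *
        (2 * ∫⁻ x, sqf (fun t => (E t).indicator (lvl c t)) x ∂mu01) := by gcongr
    _ = _ := by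
        have : (((κ ^ (3 / 2 : ℝ))⁻¹ * 2 : ℝ≥0) : ℝ≥0∞) = ((κ : ℝ≥0∞) ^ (3 / 2 : ℝ))⁻¹ * 2 := by
          rw [ENNReal.coe_mul, ENNReal.coe_inv (NNReal.rpow_pos hκ).ne',
            ENNReal.coe_rpow_of_nonneg _ (by norm_num)]
          rfl
        rw [this, mul_assoc]

end Pool.Agent.MP28b1a7
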