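import Pool.Agent.Lib.MP_28b1a7_an.Mult

/-!
Size and smoothness of the multiplier kernels on the sphere.
-/

namespace Pool.Agent.MP28b1a7

open scoped ContDiff InnerProductSpace
open Finset

lemma cc_poly (n : ℕ) [NeZero n] :
    ∃ q : Polynomial ℝ, q.natDegree ≤ n - 1 ∧ ∀ k : ℕ, q.eval (k : ℝ) = cc n k := by
  refine ⟨Polynomial.C (((n - 1).factorial : ℝ)⁻¹) *
    ((ascPochhammer ℝ (n - 1)).comp (Polynomial.X + 1)), ?_, ?_⟩
  · refine (Polynomial.natDegree_C_mul_le _ _).trans ?_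
    refine (Polynomial.natDegree_comp_le).trans ?_
    rw [ascPochhammer_natDegree]
    have : (Polynomial.X + 1 : Polynomial ℝ).natDegree ≤ 1 := by
      have := Polynomial.natDegree_X_add_C (1 : ℝ)
      simp only [Polynomial.C_1] at this
      exact this.le
    nlinarith
  · intro k
    have h1 : n ≠ 0 := NeZero.ne n
    rw [Polynomial.eval_mul, Polynomial.eval_C, Polynomial.eval_comp]
    simp only [Polynomial.eval_add, Polynomial.eval_X, Polynomial.eval_one]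
    have h2 : ((ascPochhammer ℝ (n - 1)).eval ((k : ℝ) + 1)) =
        (((k + 1).ascFactorial (n - 1) : ℕ) : ℝ) := by
      have h3 := ascPochhammer_eval_cast (S := ℝ) (n - 1) (k + 1)
      rw [ascPochhammer_nat_eq_ascFactorial] at h3
      rw [h3]
      push_cast
      rfl
    rw [h2, Nat.ascFactorial_eq_factorial_mul_choose]
    unfold cc
    have h3 : k + n - 1 = k + (n - 1) := by omega
    rw [h3]
    push_cast
    have : (((n - 1).factorial : ℕ) : ℝ) ≠ 0 := by exact_mod_cast Nat.factorial_ne_zero _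
    field_simp

variable {n : ℕ} [NeZero n]

lemma dd_eq' (z η : V n) : dd z η = ‖(1 : ℂ) - ⟪η, z⟫_ℂ‖ := by rw [dd_comm]; rfl

lemma KM_eq_kp {q : Polynomial ℝ} (hq : ∀ k : ℕ, q.eval (k : ℝ) = cc n k) (m : ℝ → ℝ) (j : ℕ)
    (z η : V n) : KM (4 * 2 ^ j) (fun k => m (k / 2 ^ j)) z η = kp m q j 0 ⟪η, z⟫_ℂ := by
  unfold KM kp
  refine sum_congr rfl fun k _ => ?_
  rw [Nat.add_zero, hq k, mul_one_div]
  push_cast
  ring

theorem KM_bound {m : ℝ → ℝ} (hm : ContDiff ℝ ∞ m) (h0 : ∀ x ≤ 0, m x = 0)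
    (hR : ∀ x, 4 ≤ x → m x = 0) (N : ℕ) :
    ∃ C : ℝ, 0 ≤ C ∧ ∀ (j : ℕ) (z η : Sph n),
      ‖KM (4 * 2 ^ j) (fun k => m (k / 2 ^ j)) (z : V n) η‖ * wt j (z : V n) η ^ N ≤
        C * 2 ^ (j * n) := by
  obtain ⟨q, hd, hq⟩ := cc_poly n
  obtain ⟨C, hC, hb⟩ := kp_bound hm h0 hR q (n - 1) hd N
  refine ⟨C, hC, fun j z η => ?_⟩
  have h1 := hb j 0 (by norm_num) ⟪(η : V n), (z : V n)⟫_ℂ (norm_inner_le_one η z)
  have h2 : n - 1 + 1 = n := Nat.succ_pred (NeZero.ne n)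
  rw [KM_eq_kp hq, wt, dd_eq']
  rwa [h2] at h1

lemma hasDerivAt_kp (m : ℝ → ℝ) (hR : ∀ x, 4 ≤ x → m x = 0) (q : Polynomial ℝ) (j : ℕ) (w : ℂ) :
    HasDerivAt (fun w => kp m q j 0 w) (kp m (q * Polynomial.X) j 1 w) w := by
  unfold kp
  have h1 : ∀ k ∈ range (4 * 2 ^ j), HasDerivAt (fun w : ℂ =>
      ((m (((k + 0 : ℕ) : ℝ) * (1 / 2 ^ j)) * q.eval ((k + 0 : ℕ) : ℝ) : ℝ) : ℂ) * w ^ k)
      (((m (((k + 0 : ℕ) : ℝ) * (1 / 2 ^ j)) * q.eval ((k + 0 : ℕ) : ℝ) : ℝ) : ℂ) *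
        ((k : ℂ) * w ^ (k - 1))) w := fun k _ => (hasDerivAt_pow k w).const_mul _
  have h2 := HasDerivAt.fun_sum h1
  refine h2.congr_deriv ?_
  have hM : 4 * 2 ^ j = (4 * 2 ^ j - 1) + 1 := by
    have : 0 < 4 * 2 ^ j := by positivity
    omega
  rw [hM]
  conv_lhs => rw [sum_range_succ']
  conv_rhs => rw [sum_range_succ]
  have e1 : m ((((4 * 2 ^ j - 1 : ℕ) + 1 : ℕ) : ℝ) * (1 / 2 ^ j)) = 0 := by
    rw [← hM]
    apply hR
    push_cast
    rw [mul_one_div, mul_div_assoc, div_self (by positivity)]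
    norm_num
  rw [e1]
  simp only [zero_mul, Complex.ofReal_zero, add_zero, CharP.cast_eq_zero, mul_zero]
  refine sum_congr rfl fun k _ => ?_
  rw [Polynomial.eval_mul, Polynomial.eval_X]
  simp only [Nat.add_sub_cancel]
  push_cast
  ring

theorem KM_diff {m : ℝ → ℝ} (hm : ContDiff ℝ ∞ m) (h0 : ∀ x ≤ 0, m x = 0)
    (hR : ∀ x, 4 ≤ x → m x = 0) (N : ℕ) :
    ∃ C : ℝ, 0 ≤ C ∧ ∀ (j : ℕ) (ε : ℝ), 0 ≤ ε → ε ≤ 1 / 36 → ∀ z z' η : Sph n,
      2 ^ j * dd (z : V n) z' ≤ ε →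
      ‖KM (4 * 2 ^ j) (fun k => m (k / 2 ^ j)) (z : V n) η -
        KM (4 * 2 ^ j) (fun k => m (k / 2 ^ j)) (z' : V n) η‖ * wt j (z : V n) η ^ N ≤
        C * Real.sqrt ε * 2 ^ (j * n) := by
  obtain ⟨q, hd, hq⟩ := cc_poly n
  have h2 : n - 1 + 1 = n := Nat.succ_pred (NeZero.ne n)
  have hd' : (q * Polynomial.X).natDegree ≤ n := by
    refine (Polynomial.natDegree_mul_le).trans ?_
    rw [Polynomial.natDegree_X]
    omega
  obtain ⟨C, hC, hb⟩ := kp_bound hm h0 hR (q * Polynomial.X) n hd' (N + 1)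
  refine ⟨3 * 2 ^ (N + 1) * C, by positivity, fun j ε hε hε1 z z' η hzz => ?_⟩
  have hse : Real.sqrt ε ≤ 1 / 6 := by
    rw [Real.sqrt_le_iff]; constructor
    · norm_num
    · norm_num at hε1 ⊢; exact hε1
  have hd1 := inner_diff_le' j hε (by linarith) z z' η hzz
  rw [KM_eq_kp hq, KM_eq_kp hq]
  set w := ⟪(η : V n), (z : V n)⟫_ℂ with hw
  set w' := ⟪(η : V n), (z' : V n)⟫_ℂ with hw'
  set W := wt j (z : V n) η with hW
  have hW1 : 1 ≤ W := one_le_wt _ _ _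
  have hWd : W = 1 + 2 ^ j * ‖1 - w‖ := by rw [hW, wt, dd_eq']
  have hp : (0 : ℝ) < 2 ^ j := by positivity
  have hww : 2 ^ j * ‖w - w'‖ ≤ W / 2 := by
    calc _ ≤ 3 * Real.sqrt ε * W := hd1
      _ ≤ 3 * (1 / 6) * W := by gcongr
      _ = W / 2 := by ring
  have hseg : ∀ u ∈ segment ℝ w' w, ‖kp m (q * Polynomial.X) j 1 u‖ ≤
      C * 2 ^ (j * (n + 1)) / (W / 2) ^ (N + 1) := by
    intro u hu
    have hu1 : ‖u‖ ≤ 1 := by
      have hc : Convex ℝ (Metric.closedBall (0 : ℂ) 1) := convex_closedBall _ _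
      have := hc.segment_subset (x := w') (y := w) (by simpa using norm_inner_le_one η z')
        (by simpa using norm_inner_le_one η z) hu
      simpa using this
    have hu2 : ‖u - w‖ ≤ ‖w - w'‖ := by
      have := segment_subset_closedBall_right w' w hu
      rwa [mem_closedBall_iff_norm, dist_eq_norm, norm_sub_rev w' w] at this
    have hu3 : W / 2 ≤ 1 + 2 ^ j * ‖1 - u‖ := by
      have h3 : ‖1 - w‖ ≤ ‖1 - u‖ + ‖u - w‖ := by
        have := norm_add_le (1 - u) (u - w)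
        simpa using this
      have h4 : 2 ^ j * ‖1 - w‖ ≤ 2 ^ j * ‖1 - u‖ + 2 ^ j * ‖w - w'‖ := by nlinarith
      linarith
    rw [le_div_iff₀ (by positivity)]
    refine le_trans ?_ (hb j 1 le_rfl u hu1)
    gcongr
  have hmv := (convex_segment (𝕜 := ℝ) w' w).norm_image_sub_le_of_norm_hasDerivWithin_le
    (f := fun w => kp m q j 0 w) (f' := fun w => kp m (q * Polynomial.X) j 1 w)
    (fun u _ => (hasDerivAt_kp m hR q j u).hasDerivWithinAt) hseg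
    (left_mem_segment ℝ w' w) (right_mem_segment ℝ w' w)
  calc ‖kp m q j 0 w - kp m q j 0 w'‖ * W ^ N
      ≤ (C * 2 ^ (j * (n + 1)) / (W / 2) ^ (N + 1) * ‖w - w'‖) * W ^ N := by gcongr
    _ = C * 2 ^ (j * n) * (2 ^ j * ‖w - w'‖) * (W ^ N / (W / 2) ^ (N + 1)) := by
        rw [Nat.mul_succ, pow_add]; ring
    _ ≤ C * 2 ^ (j * n) * (3 * Real.sqrt ε * W) * (W ^ N / (W / 2) ^ (N + 1)) := by gcongr
    _ = 3 * 2 ^ (N + 1) * C * Real.sqrt ε * 2 ^ (j * n) * (W ^ (N + 1) / W ^ (N + 1)) := by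
        rw [div_pow, pow_succ W N]
        field_simp
    _ = _ := by rw [div_self (by positivity), mul_one]

lemma KM_zero_bound (m : ℕ → ℝ) (hm : ∀ k, m k = if k ≤ 1 then 1 else 0) (z η : Sph n) :
    KM 4 m (z : V n) η = 1 + (cc n 1 : ℂ) * ⟪(η : V n), (z : V n)⟫_ℂ := by
  unfold KM
  have h0 : cc n 0 = 1 := by unfold cc; simp
  simp [sum_range_succ, hm, h0]

omit [NeZero n] in
lemma wt_zero_le (z η : Sph n) : wt 0 (z : V n) η ≤ 3 := by
  unfold wt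
  have := dd_le_two z η
  simp only [pow_zero, one_mul]
  linarith

lemma KM_zero_size (m : ℕ → ℝ) (hm : ∀ k, m k = if k ≤ 1 then 1 else 0) (z η : Sph n) :
    ‖KM 4 m (z : V n) η‖ ≤ 1 + cc n 1 := by
  rw [KM_zero_bound m hm]
  refine (norm_add_le _ _).trans ?_
  rw [norm_mul]
  have := norm_inner_le_one η z
  have h2 : ‖(cc n 1 : ℂ)‖ = cc n 1 := by simp
  rw [h2, norm_one]
  have : (0 : ℝ) ≤ cc n 1 := by positivity
  nlinarith

/-- A class of multiplier families covering `AA` and `TH`. -/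
structure IsMult (A : ℕ → ℕ → ℝ) (m : ℝ → ℝ) : Prop where
  smooth : ContDiff ℝ ∞ m
  left : ∀ x ≤ 0, m x = 0
  right : ∀ x, 4 ≤ x → m x = 0
  zero : ∀ k, A 0 k = if k ≤ 1 then 1 else 0
  succ : ∀ j k, A (j + 1) k = m (k / 2 ^ (j + 1))

lemma isMult_AA : IsMult AA ma where
  smooth := ma_contDiff
  left := fun x hx => ma_of_le (by linarith)
  right := fun x hx => ma_of_two_le (by linarith)
  zero := fun k => by simp [AA]
  succ := fun j k => by simp [AA]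

lemma isMult_TH : IsMult TH mth where
  smooth := mth_contDiff
  left := fun x hx => mth_of_le (by linarith)
  right := fun x hx => mth_of_four_le (by linarith)
  zero := fun k => by simp [TH]
  succ := fun j k => by simp [TH]

/-- size of the kernels -/
theorem mult_size {A : ℕ → ℕ → ℝ} {m : ℝ → ℝ} (hA : IsMult A m) (n : ℕ) [NeZero n] (N : ℕ) :
    ∃ C : ℝ, 0 ≤ C ∧ ∀ (j : ℕ) (z η : Sph n),
      ‖KM (4 * 2 ^ j) (A j) (z : V n) η‖ * wt j (z : V n) η ^ N ≤ C * 2 ^ (j * n) := by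
  obtain ⟨C, hC, hb⟩ := KM_bound (n := n) hA.smooth hA.left hA.right N
  refine ⟨C + (1 + cc n 1) * 3 ^ N, by positivity, fun j z η => ?_⟩
  rcases j with _ | j
  · have h1 := KM_zero_size (n := n) (A 0) hA.zero z η
    have h2 := wt_zero_le z η
    have h3 := one_le_wt 0 (z : V n) η
    simp only [pow_zero, mul_one, zero_mul]
    calc _ ≤ (1 + (cc n 1 : ℝ)) * 3 ^ N := by
          gcongr
      _ ≤ _ := by linarith
  · have h1 := hb (j + 1) z η
    have e : A (j + 1) = fun k : ℕ => m (k / 2 ^ (j + 1)) := by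
      funext k; exact hA.succ j k
    rw [e]
    refine h1.trans ?_
    gcongr
    have : (0 : ℝ) ≤ (1 + cc n 1) * 3 ^ N := by positivity
    linarith

/-- smoothness of the kernels -/
theorem mult_diff {A : ℕ → ℕ → ℝ} {m : ℝ → ℝ} (hA : IsMult A m) (n : ℕ) [NeZero n] (N : ℕ) :
    ∃ C : ℝ, 0 ≤ C ∧ ∀ (j : ℕ) (ε : ℝ), 0 ≤ ε → ε ≤ 1 / 36 → ∀ z z' η : Sph n,
      2 ^ j * dd (z : V n) z' ≤ ε →
      ‖KM (4 * 2 ^ j) (A j) (z : V n) η - KM (4 * 2 ^ j) (A j) (z' : V n) η‖ *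
        wt j (z : V n) η ^ N ≤ C * Real.sqrt ε * 2 ^ (j * n) := by
  obtain ⟨C, hC, hb⟩ := KM_diff (n := n) hA.smooth hA.left hA.right N
  refine ⟨C + 3 * cc n 1 * 3 ^ (N + 1), by positivity, fun j ε hε hε1 z z' η hzz => ?_⟩
  have hs := Real.sqrt_nonneg ε
  rcases j with _ | j
  · have h1 := inner_diff_le' 0 hε (by linarith) z z' η hzz
    have h2 := wt_zero_le z η
    have h3 := one_le_wt 0 (z : V n) η
    simp only [pow_zero, mul_one, zero_mul, one_mul] at h1 ⊢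
    rw [KM_zero_bound _ hA.zero, KM_zero_bound _ hA.zero]
    have e : (1 : ℂ) + (cc n 1 : ℂ) * ⟪(η : V n), (z : V n)⟫_ℂ -
        (1 + (cc n 1 : ℂ) * ⟪(η : V n), (z' : V n)⟫_ℂ) =
        (cc n 1 : ℂ) * (⟪(η : V n), (z : V n)⟫_ℂ - ⟪(η : V n), (z' : V n)⟫_ℂ) := by ring
    rw [e, norm_mul]
    have h4 : ‖(cc n 1 : ℂ)‖ = cc n 1 := by simp
    rw [h4]
    calc _ ≤ cc n 1 * (3 * Real.sqrt ε * wt 0 (z : V n) η) * wt 0 (z : V n) η ^ N := by gcongr
      _ = 3 * cc n 1 * wt 0 (z : V n) η ^ (N + 1) * Real.sqrt ε := by ring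
      _ ≤ 3 * cc n 1 * 3 ^ (N + 1) * Real.sqrt ε := by gcongr
      _ ≤ _ := by nlinarith [mul_nonneg hC hs]
  · have h1 := hb (j + 1) ε hε hε1 z z' η hzz
    have e : A (j + 1) = fun k : ℕ => m (k / 2 ^ (j + 1)) := by
      funext k; exact hA.succ j k
    rw [e]
    refine h1.trans ?_
    gcongr
    have : (0 : ℝ) ≤ 3 * cc n 1 * 3 ^ (N + 1) := by positivity
    linarith

end Pool.Agent.MP28b1a7
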