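import Pool.Agent.Lib.MP_28b1a7_an.Meas
import Pool.Agent.Lib.MP_28b1a7_an.KerS

/-!
`L^2` theory of the multiplier operators on bounded functions.
-/

namespace Pool.Agent.MP28b1a7

open MeasureTheory Filter Topology
open scoped InnerProductSpace ComplexConjugate
open Finset (range sum_congr)

variable {n : ℕ} [NeZero n]

omit [NeZero n] in
lemma BM_cont [NeZero n] {f : Sph n → ℂ} (hf : Continuous f) : BM f := by
  refine ⟨hf.measurable, ?_⟩
  obtain ⟨C, hC⟩ := (isCompact_univ (X := Sph n)).exists_bound_of_continuousOn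
    (f := f) hf.continuousOn
  exact ⟨C, fun x => hC x (Set.mem_univ _)⟩

lemma BM.integrable {f : Sph n → ℂ} (hf : BM f) : Integrable f (sig n) := by
  obtain ⟨hm, C, hC⟩ := hf
  exact Integrable.of_bound hm.aestronglyMeasurable C (Eventually.of_forall hC)

lemma BM.mul {f g : Sph n → ℂ} (hf : BM f) (hg : BM g) : BM fun x => f x * g x := by
  obtain ⟨hm, C, hC⟩ := hf
  obtain ⟨hm', C', hC'⟩ := hg
  refine ⟨hm.mul hm', C * C', fun x => ?_⟩
  rw [norm_mul]
  exact mul_le_mul (hC x) (hC' x) (norm_nonneg _) ((norm_nonneg _).trans (hC x))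

lemma BM.add {f g : Sph n → ℂ} (hf : BM f) (hg : BM g) : BM fun x => f x + g x := by
  obtain ⟨hm, C, hC⟩ := hf
  obtain ⟨hm', C', hC'⟩ := hg
  exact ⟨hm.add hm', C + C', fun x => (norm_add_le _ _).trans (add_le_add (hC x) (hC' x))⟩

lemma BM.sub {f g : Sph n → ℂ} (hf : BM f) (hg : BM g) : BM fun x => f x - g x := by
  obtain ⟨hm, C, hC⟩ := hf
  obtain ⟨hm', C', hC'⟩ := hg
  exact ⟨hm.sub hm', C + C', fun x => (norm_sub_le _ _).trans (add_le_add (hC x) (hC' x))⟩

lemma BM.conj {f : Sph n → ℂ} (hf : BM f) : BM fun x => (starRingEnd ℂ) (f x) := by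
  obtain ⟨hm, C, hC⟩ := hf
  exact ⟨(Complex.continuous_conj.measurable).comp hm, C, fun x => by simpa using hC x⟩

lemma BM.const (c : ℂ) : BM fun _ : Sph n => c := ⟨measurable_const, ‖c‖, fun _ => le_rfl⟩

lemma BM.const_mul {f : Sph n → ℂ} (hf : BM f) (c : ℂ) : BM fun x => c * f x :=
  (BM.const c).mul hf

lemma BM.sum {ι : Type*} (s : Finset ι) {f : ι → Sph n → ℂ} (hf : ∀ i ∈ s, BM (f i)) :
    BM fun x => ∑ i ∈ s, f i x := by
  classical
  induction s using Finset.induction_on with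
  | empty => simpa using BM.const (n := n) 0
  | insert a s ha ih =>
    simp only [Finset.sum_insert ha]
    exact (hf a (Finset.mem_insert_self a s)).add
      (ih fun i hi => hf i (Finset.mem_insert_of_mem hi))

/-- bounded measurable functions of two variables are integrable -/
lemma integrable_two {F : Sph n × Sph n → ℂ} (hm : Measurable F) {C : ℝ} (hC : ∀ p, ‖F p‖ ≤ C) :
    Integrable F ((sig n).prod (sig n)) :=
  Integrable.of_bound hm.aestronglyMeasurable C (Eventually.of_forall hC)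

lemma norm_inner_pow_le (k : ℕ) (ζ : Sph n) (z : V n) : ‖⟪(ζ : V n), z⟫_ℂ ^ k‖ ≤ ‖z‖ ^ k := by
  rw [norm_pow]
  have := norm_inner_le_norm (𝕜 := ℂ) (ζ : V n) z
  rw [sph_norm, one_mul] at this
  gcongr

lemma PP_integrand {f : Sph n → ℂ} (hf : BM f) (k : ℕ) (z : V n) :
    BM fun ζ : Sph n => ⟪(ζ : V n), z⟫_ℂ ^ k * f ζ := by
  apply BM.mul _ hf
  exact BM_cont (by fun_prop)

lemma PP_smul (k : ℕ) (f : Sph n → ℂ) (z : V n) (c : ℂ) : PP k f (c • z) = c ^ k * PP k f z := by
  unfold PP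
  have : ∀ ζ : Sph n, ⟪(ζ : V n), c • z⟫_ℂ ^ k * f ζ = c ^ k * (⟪(ζ : V n), z⟫_ℂ ^ k * f ζ) := by
    intro ζ; rw [inner_smul_right]; ring
  simp_rw [this]
  rw [integral_const_mul]; ring

lemma norm_PP_le (k : ℕ) {f : Sph n → ℂ} (hf : Integrable f (sig n)) (z : V n) :
    ‖PP k f z‖ ≤ cc n k * ‖z‖ ^ k * ∫ ζ, ‖f ζ‖ ∂sig n := by
  unfold PP
  rw [norm_mul]
  have h1 : ‖(cc n k : ℂ)‖ = cc n k := by simp
  rw [h1, mul_assoc]
  gcongr
  refine (norm_integral_le_integral_norm _).trans ?_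
  rw [← integral_const_mul]
  apply integral_mono_of_nonneg
  · exact Eventually.of_forall fun x => norm_nonneg _
  · exact hf.norm.const_mul _
  · refine Eventually.of_forall fun ζ => ?_
    simp only [norm_mul]
    gcongr
    exact norm_inner_pow_le k ζ z

lemma continuous_PP (k : ℕ) {f : Sph n → ℂ} (hf : Integrable f (sig n)) :
    Continuous (PP k f) := by
  unfold PP
  refine continuous_const.mul ?_
  rw [continuous_iff_continuousAt]
  intro z0
  apply continuousAt_of_dominated (bound := fun ζ => (‖z0‖ + 1) ^ k * ‖f ζ‖)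
  · refine Eventually.of_forall fun z => ?_
    have : Continuous fun ζ : Sph n => ⟪(ζ : V n), z⟫_ℂ ^ k := by fun_prop
    exact this.aestronglyMeasurable.mul hf.1
  · have : ∀ᶠ z in 𝓝 z0, ‖z‖ ≤ ‖z0‖ + 1 := by
      have h := (continuous_norm (E := V n)).tendsto z0
      have h2 := h.eventually (gt_mem_nhds (lt_add_one ‖z0‖))
      exact h2.mono fun z hz => hz.le
    filter_upwards [this] with z hz
    refine Eventually.of_forall fun ζ => ?_
    rw [norm_mul]
    gcongr
    exact (norm_inner_pow_le k ζ z).trans (by gcongr)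
  · exact hf.norm.const_mul _
  · refine Eventually.of_forall fun ζ => ?_
    have : Continuous fun z : V n => ⟪(ζ : V n), z⟫_ℂ ^ k * f ζ := by fun_prop
    exact this.continuousAt

lemma BM_PP (k : ℕ) {f : Sph n → ℂ} (hf : BM f) : BM fun z : Sph n => PP k f z :=
  BM_cont ((continuous_PP k hf.integrable).comp continuous_subtype_val)

lemma PP_add (k : ℕ) {f g : Sph n → ℂ} (hf : Integrable f (sig n)) (hg : Integrable g (sig n))
    (z : V n) : PP k (fun x => f x + g x) z = PP k f z + PP k g z := by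
  have hi : ∀ {f : Sph n → ℂ}, Integrable f (sig n) →
      Integrable (fun ζ : Sph n => ⟪(ζ : V n), z⟫_ℂ ^ k * f ζ) (sig n) := by
    intro f hf
    refine hf.bdd_mul (c := ‖z‖ ^ k) ?_ ?_
    · have : Continuous fun ζ : Sph n => ⟪(ζ : V n), z⟫_ℂ ^ k := by fun_prop
      exact this.aestronglyMeasurable
    · exact Eventually.of_forall fun ζ => norm_inner_pow_le k ζ z
  unfold PP
  simp_rw [mul_add]
  rw [integral_add (hi hf) (hi hg), mul_add]

lemma PP_const_mul (k : ℕ) (c : ℂ) (f : Sph n → ℂ) (z : V n) :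
    PP k (fun x => c * f x) z = c * PP k f z := by
  unfold PP
  have : ∀ ζ : Sph n, ⟪(ζ : V n), z⟫_ℂ ^ k * (c * f ζ) = c * (⟪(ζ : V n), z⟫_ℂ ^ k * f ζ) := by
    intro ζ; ring
  simp_rw [this]
  rw [integral_const_mul]; ring

lemma PP_zero (k : ℕ) (z : V n) : PP k (fun _ : Sph n => (0 : ℂ)) z = 0 := by
  unfold PP; simp

lemma PP_sum {ι : Type*} (k : ℕ) (s : Finset ι) {f : ι → Sph n → ℂ} (hf : ∀ i ∈ s, BM (f i))
    (z : V n) : PP k (fun x => ∑ i ∈ s, f i x) z = ∑ i ∈ s, PP k (f i) z := by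
  classical
  induction s using Finset.induction_on with
  | empty => simp [PP_zero]
  | insert a s ha ih =>
    simp only [Finset.sum_insert ha]
    have h1 := hf a (Finset.mem_insert_self a s)
    have h2 : ∀ i ∈ s, BM (f i) := fun i hi => hf i (Finset.mem_insert_of_mem hi)
    rw [PP_add k h1.integrable (BM.sum s h2).integrable, ih h2]

/-- composition of the projections -/
lemma PP_comp (k l : ℕ) {f : Sph n → ℂ} (hf : BM f) (z : V n) :
    PP k (fun ζ : Sph n => PP l f ζ) z = if k = l then PP k f z else 0 := by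
  have h0 : (cc n l : ℂ) ≠ 0 := by
    unfold cc
    have : 0 < Nat.choose (l + n - 1) (n - 1) := Nat.choose_pos (by omega)
    exact_mod_cast this.ne'
  obtain ⟨hm, C, hC⟩ := hf
  have e1 : PP k (fun ζ : Sph n => PP l f ζ) z = (cc n k : ℂ) * ((cc n l : ℂ) *
      ∫ ζ : Sph n, ∫ η : Sph n, ⟪(ζ : V n), z⟫_ℂ ^ k * (⟪(η : V n), (ζ : V n)⟫_ℂ ^ l * f η)
        ∂sig n ∂sig n) := by
    unfold PP
    congr 1
    rw [← integral_const_mul]
    refine integral_congr_ae (Eventually.of_forall fun ζ => ?_)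
    simp only
    rw [integral_const_mul]; ring
  rw [e1, integral_integral_swap]
  · have e2 : ∀ η : Sph n, ∫ ζ : Sph n, ⟪(ζ : V n), z⟫_ℂ ^ k *
        (⟪(η : V n), (ζ : V n)⟫_ℂ ^ l * f η) ∂sig n =
        (if l = k then ⟪(η : V n), z⟫_ℂ ^ l / (cc n l : ℂ) else 0) * f η := by
      intro η
      rw [← inner_pow_int, ← integral_mul_const]
      refine integral_congr_ae (Eventually.of_forall fun ζ => ?_)
      simp only; ring
    simp_rw [e2]
    by_cases hkl : k = l
    · subst hkl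
      simp only [if_true]
      unfold PP
      rw [← integral_const_mul]
      congr 1
      refine integral_congr_ae (Eventually.of_forall fun ζ => ?_)
      simp only
      field_simp
    · have : ¬ l = k := fun h => hkl h.symm
      simp [hkl, this]
  · apply integrable_two (C := ‖z‖ ^ k * (1 * C))
    · apply Measurable.mul
      · have : Continuous fun p : Sph n × Sph n => ⟪(p.1 : V n), z⟫_ℂ ^ k := by fun_prop
        exact this.measurable
      · apply Measurable.mul
        · have : Continuous fun p : Sph n × Sph n => ⟪(p.2 : V n), (p.1 : V n)⟫_ℂ ^ l := by fun_prop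
          exact this.measurable
        · exact hm.comp measurable_snd
    · rintro ⟨ζ, η⟩
      simp only [Function.uncurry, norm_mul]
      have h1 := norm_inner_pow_le k ζ z
      have h2 := norm_inner_pow_le l η (ζ : V n)
      rw [sph_norm, one_pow] at h2
      have h3 := hC η
      have h4 : 0 ≤ C := (norm_nonneg _).trans h3
      gcongr

/-- inner product -/
noncomputable def ip (f g : Sph n → ℂ) : ℂ := ∫ ζ, f ζ * (starRingEnd ℂ) (g ζ) ∂sig n

lemma PP_symm (k : ℕ) {f g : Sph n → ℂ} (hf : BM f) (hg : BM g) :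
    ip (fun ζ : Sph n => PP k f ζ) g = ip f (fun ζ : Sph n => PP k g ζ) := by
  obtain ⟨hm, C, hC⟩ := hf
  obtain ⟨hm', C', hC'⟩ := hg
  unfold ip
  have e1 : ∫ ζ : Sph n, PP k f ζ * (starRingEnd ℂ) (g ζ) ∂sig n = (cc n k : ℂ) *
      ∫ ζ : Sph n, ∫ η : Sph n, (⟪(η : V n), (ζ : V n)⟫_ℂ ^ k * f η) * (starRingEnd ℂ) (g ζ)
        ∂sig n ∂sig n := by
    unfold PP
    rw [← integral_const_mul]
    refine integral_congr_ae (Eventually.of_forall fun ζ => ?_)
    simp only
    rw [integral_mul_const]; ring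
  have e2 : ∫ η : Sph n, f η * (starRingEnd ℂ) (PP k g η) ∂sig n = (cc n k : ℂ) *
      ∫ η : Sph n, ∫ ζ : Sph n, (⟪(η : V n), (ζ : V n)⟫_ℂ ^ k * f η) * (starRingEnd ℂ) (g ζ)
        ∂sig n ∂sig n := by
    unfold PP
    rw [← integral_const_mul]
    refine integral_congr_ae (Eventually.of_forall fun η => ?_)
    simp only
    rw [map_mul, ← integral_conj, map_natCast, ← mul_assoc, mul_comm (f η), mul_assoc,
      ← integral_const_mul]
    congr 1
    refine integral_congr_ae (Eventually.of_forall fun ζ => ?_)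
    simp only [map_mul, map_pow, inner_conj_symm]
    ring
  rw [e1, e2, integral_integral_swap]
  apply integrable_two (C := 1 * C * C')
  · apply Measurable.mul
    · apply Measurable.mul
      · have : Continuous fun p : Sph n × Sph n => ⟪(p.2 : V n), (p.1 : V n)⟫_ℂ ^ k := by fun_prop
        exact this.measurable
      · exact hm.comp measurable_snd
    · exact (Complex.continuous_conj.measurable).comp (hm'.comp measurable_fst)
  · rintro ⟨ζ, η⟩
    simp only [Function.uncurry, norm_mul, RCLike.norm_conj]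
    have h2 := norm_inner_pow_le k η (ζ : V n)
    rw [sph_norm, one_pow] at h2
    have h3 := hC η
    have h4 : 0 ≤ C := (norm_nonneg _).trans h3
    have h5 := hC' ζ
    gcongr

lemma ip_conj (f g : Sph n → ℂ) : (starRingEnd ℂ) (ip f g) = ip g f := by
  unfold ip
  rw [← integral_conj]
  refine integral_congr_ae (Eventually.of_forall fun ζ => ?_)
  simp only [map_mul, Complex.conj_conj]
  ring

lemma ip_self (f : Sph n → ℂ) : ip f f = ((∫ ζ, ‖f ζ‖ ^ 2 ∂sig n : ℝ) : ℂ) := by
  unfold ip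
  have h : ∀ ζ : Sph n, f ζ * (starRingEnd ℂ) (f ζ) = ((‖f ζ‖ ^ 2 : ℝ) : ℂ) := fun ζ => by
    rw [Complex.mul_conj, Complex.normSq_eq_norm_sq]
  simp_rw [h]
  exact integral_complex_ofReal

lemma ip_add_left {f g h : Sph n → ℂ} (hf : BM f) (hg : BM g) (hh : BM h) :
    ip (fun x => f x + g x) h = ip f h + ip g h := by
  unfold ip
  simp_rw [add_mul]
  exact integral_add (hf.mul hh.conj).integrable (hg.mul hh.conj).integrable

lemma ip_add_right {f g h : Sph n → ℂ} (hf : BM f) (hg : BM g) (hh : BM h) :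
    ip f (fun x => g x + h x) = ip f g + ip f h := by
  unfold ip
  simp_rw [map_add, mul_add]
  exact integral_add (hf.mul hg.conj).integrable (hf.mul hh.conj).integrable

lemma ip_const_left (c : ℂ) (f g : Sph n → ℂ) : ip (fun x => c * f x) g = c * ip f g := by
  unfold ip
  rw [← integral_const_mul]
  refine integral_congr_ae (Eventually.of_forall fun ζ => ?_)
  simp only; ring

lemma ip_const_right (c : ℂ) (f g : Sph n → ℂ) :
    ip f (fun x => c * g x) = (starRingEnd ℂ) c * ip f g := by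
  unfold ip
  rw [← integral_const_mul]
  refine integral_congr_ae (Eventually.of_forall fun ζ => ?_)
  simp only [map_mul]; ring

lemma ip_zero_left (g : Sph n → ℂ) : ip (fun _ => (0 : ℂ)) g = 0 := by simp [ip]

lemma ip_zero_right (g : Sph n → ℂ) : ip g (fun _ => (0 : ℂ)) = 0 := by simp [ip]

lemma ip_sum_left {ι : Type*} (s : Finset ι) {f : ι → Sph n → ℂ} {g : Sph n → ℂ}
    (hf : ∀ i ∈ s, BM (f i)) (hg : BM g) :
    ip (fun x => ∑ i ∈ s, f i x) g = ∑ i ∈ s, ip (f i) g := by
  classical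
  induction s using Finset.induction_on with
  | empty => simp [ip_zero_left]
  | insert a s ha ih =>
    simp only [Finset.sum_insert ha]
    have h1 := hf a (Finset.mem_insert_self a s)
    have h2 : ∀ i ∈ s, BM (f i) := fun i hi => hf i (Finset.mem_insert_of_mem hi)
    rw [ip_add_left h1 (BM.sum s h2) hg, ih h2]

lemma ip_sum_right {ι : Type*} (s : Finset ι) {f : ι → Sph n → ℂ} {g : Sph n → ℂ}
    (hf : ∀ i ∈ s, BM (f i)) (hg : BM g) :
    ip g (fun x => ∑ i ∈ s, f i x) = ∑ i ∈ s, ip g (f i) := by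
  rw [← ip_conj, ip_sum_left s hf hg, map_sum]
  exact sum_congr rfl fun i _ => ip_conj _ _

/-- orthogonality of the projections -/
lemma ip_PP (k l : ℕ) {f g : Sph n → ℂ} (hf : BM f) (hg : BM g) :
    ip (fun ζ : Sph n => PP k f ζ) (fun ζ : Sph n => PP l g ζ) =
      if k = l then ip f (fun ζ : Sph n => PP k g ζ) else 0 := by
  rw [PP_symm k hf (BM_PP l hg)]
  have : (fun ζ : Sph n => PP k (fun ζ : Sph n => PP l g ζ) (ζ : V n)) =
      fun ζ : Sph n => if k = l then PP k g (ζ : V n) else 0 := by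
    funext ζ; exact PP_comp k l hg ζ
  rw [this]
  split_ifs
  · rfl
  · exact ip_zero_right f

/-- the `L^2` mass of a homogeneous component -/
noncomputable def mass (k : ℕ) (f : Sph n → ℂ) : ℝ := ∫ ζ : Sph n, ‖PP k f (ζ : V n)‖ ^ 2 ∂sig n

lemma mass_nonneg (k : ℕ) (f : Sph n → ℂ) : 0 ≤ mass k f :=
  integral_nonneg fun _ => by positivity

lemma ip_PP_right (k : ℕ) {f : Sph n → ℂ} (hf : BM f) :
    ip f (fun ζ : Sph n => PP k f ζ) = (mass k f : ℂ) := by
  have h := ip_PP k k hf hf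
  simp only [if_true] at h
  rw [← h, ip_self]
  rfl

lemma ip_PP_left (k : ℕ) {f : Sph n → ℂ} (hf : BM f) :
    ip (fun ζ : Sph n => PP k f ζ) f = (mass k f : ℂ) := by
  rw [← ip_conj, ip_PP_right k hf, Complex.conj_ofReal]

lemma BM_VM (M : ℕ) (m : ℕ → ℝ) {f : Sph n → ℂ} (hf : BM f) :
    BM fun z : Sph n => VM M m f z := by
  unfold VM
  exact BM.sum _ fun k _ => (BM_PP k hf).const_mul _

/-- Parseval for multiplier operators -/
lemma VM_sq (M : ℕ) (m : ℕ → ℝ) {f : Sph n → ℂ} (hf : BM f) :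
    ∫ ζ : Sph n, ‖VM M m f (ζ : V n)‖ ^ 2 ∂sig n = ∑ k ∈ range M, m k ^ 2 * mass k f := by
  have h : ip (fun ζ : Sph n => VM M m f ζ) (fun ζ : Sph n => VM M m f ζ) =
      ((∑ k ∈ range M, m k ^ 2 * mass k f : ℝ) : ℂ) := by
    unfold VM
    rw [ip_sum_left _ (fun k _ => (BM_PP k hf).const_mul _)
      (BM.sum _ fun k _ => (BM_PP k hf).const_mul _)]
    push_cast
    refine sum_congr rfl fun k hk => ?_
    rw [ip_sum_right _ (fun k _ => (BM_PP k hf).const_mul _) ((BM_PP k hf).const_mul _)]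
    rw [Finset.sum_eq_single k]
    · rw [ip_const_left, ip_const_right, ip_PP k k hf hf]
      simp only [if_true, Complex.conj_ofReal]
      rw [ip_PP_right k hf]; ring
    · intro l _ hl
      rw [ip_const_left, ip_const_right, ip_PP k l hf hf, if_neg (fun h => hl h.symm)]
      simp
    · intro h; exact absurd hk h
  rw [ip_self] at h
  exact_mod_cast h

/-- Bessel's inequality -/
lemma bessel (M : ℕ) {f : Sph n → ℂ} (hf : BM f) :
    ∑ k ∈ range M, mass k f ≤ ∫ ζ : Sph n, ‖f ζ‖ ^ 2 ∂sig n := by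
  set g : Sph n → ℂ := fun ζ => VM M (fun _ => 1) f ζ with hg
  have hgB : BM g := BM_VM M _ hf
  have h1 : ip (fun x => f x - g x) (fun x => f x - g x) =
      ip f f - ip f g - ip g f + ip g g := by
    have e : (fun x => f x - g x) = fun x => f x + (-1) * g x := by funext x; ring
    rw [e, ip_add_left hf (hgB.const_mul _) (hf.add (hgB.const_mul _)),
      ip_add_right hf hf (hgB.const_mul _), ip_const_left,
      ip_add_right hgB hf (hgB.const_mul _), ip_const_right, ip_const_right]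
    simp only [map_neg, map_one]
    ring
  have h2 : ip f g = ((∑ k ∈ range M, mass k f : ℝ) : ℂ) := by
    rw [hg]
    unfold VM
    rw [ip_sum_right _ (fun k _ => (BM_PP k hf).const_mul _) hf]
    push_cast
    refine sum_congr rfl fun k _ => ?_
    rw [ip_const_right, ip_PP_right k hf]; simp
  have h3 : ip g f = ((∑ k ∈ range M, mass k f : ℝ) : ℂ) := by
    rw [← ip_conj, h2, Complex.conj_ofReal]
  have h4 : ip g g = ((∑ k ∈ range M, mass k f : ℝ) : ℂ) := by
    rw [ip_self, hg, VM_sq M _ hf]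
    simp
  rw [h2, h3, h4, ip_self, ip_self] at h1
  have h5 : (∫ ζ, ‖f ζ - g ζ‖ ^ 2 ∂sig n) = (∫ ζ, ‖f ζ‖ ^ 2 ∂sig n) - ∑ k ∈ range M, mass k f := by
    have : ((∫ ζ, ‖f ζ - g ζ‖ ^ 2 ∂sig n : ℝ) : ℂ) =
        (((∫ ζ, ‖f ζ‖ ^ 2 ∂sig n) - ∑ k ∈ range M, mass k f : ℝ) : ℂ) := by
      rw [h1]; push_cast; ring
    exact_mod_cast this
  have h6 : 0 ≤ ∫ ζ, ‖f ζ - g ζ‖ ^ 2 ∂sig n := integral_nonneg fun _ => by positivity
  linarith

/-- kernel form of the multiplier operators -/
lemma VM_eq_KM (M : ℕ) (m : ℕ → ℝ) {f : Sph n → ℂ} (hf : BM f) (z : V n) :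
    VM M m f z = ∫ η : Sph n, KM M m z η * f η ∂sig n := by
  unfold VM KM
  simp_rw [Finset.sum_mul]
  rw [integral_finsetSum]
  · refine sum_congr rfl fun k _ => ?_
    unfold PP
    rw [← mul_assoc, ← integral_const_mul]
    refine integral_congr_ae (Eventually.of_forall fun ζ => ?_)
    simp only; ring
  · intro k _
    have := ((PP_integrand hf k z).const_mul ((m k : ℂ) * (cc n k : ℂ))).integrable
    refine this.congr (Eventually.of_forall fun ζ => ?_)
    simp only; ring

/-- the projections of a multiplier -/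
lemma PP_VM (M : ℕ) (m : ℕ → ℝ) {f : Sph n → ℂ} (hf : BM f) (k : ℕ) (z : V n) :
    PP k (fun ζ : Sph n => VM M m f ζ) z = if k < M then (m k : ℂ) * PP k f z else 0 := by
  unfold VM
  rw [PP_sum k _ (fun l _ => (BM_PP l hf).const_mul _)]
  have : ∀ l ∈ range M, PP k (fun ζ : Sph n => (m l : ℂ) * PP l f (ζ : V n)) z =
      if k = l then (m k : ℂ) * PP k f z else 0 := by
    intro l _
    rw [PP_const_mul, PP_comp k l hf]
    split_ifs with h
    · subst h; rfl
    · simp
  rw [sum_congr rfl this, Finset.sum_ite_eq]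
  simp

lemma VM_comp (M M' : ℕ) (m m' : ℕ → ℝ) {f : Sph n → ℂ} (hf : BM f) (z : V n)
    (h : ∀ k < M, M' ≤ k → m k = 0) :
    VM M m (fun ζ : Sph n => VM M' m' f ζ) z = VM M (fun k => m k * m' k) f z := by
  unfold VM
  refine sum_congr rfl fun k hk => ?_
  have := PP_VM M' m' hf k z
  unfold VM at this
  rw [this]
  split_ifs with h1
  · push_cast; ring
  · simp [h k (Finset.mem_range.mp hk) (not_lt.mp h1)]

lemma ip_VM (M : ℕ) (m : ℕ → ℝ) {f g : Sph n → ℂ} (hf : BM f) (hg : BM g) :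
    ip (fun ζ : Sph n => VM M m f ζ) g = ip f (fun ζ : Sph n => VM M m g ζ) := by
  unfold VM
  rw [ip_sum_left _ (fun k _ => (BM_PP k hf).const_mul _) hg,
    ip_sum_right _ (fun k _ => (BM_PP k hg).const_mul _) hf]
  refine sum_congr rfl fun k _ => ?_
  rw [ip_const_left, ip_const_right, PP_symm k hf hg, Complex.conj_ofReal]

/-- homogeneous components of polynomials -/
lemma Pol.PP_eq_zero {M : ℕ} {f : Sph n → ℂ} (hf : Pol M f) {k : ℕ} (hk : M ≤ k) (z : V n) :
    PP k f z = 0 := by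
  have h1 : f = fun ζ : Sph n => ∑ l ∈ range M, PP l f (ζ : V n) := by
    funext ζ; exact hf.2 ζ
  have h2 : PP k f z = PP k (fun ζ : Sph n => ∑ l ∈ range M, PP l f (ζ : V n)) z := by
    rw [← h1]
  rw [h2, PP_sum k _ (fun l _ => BM_PP l hf.1)]
  apply Finset.sum_eq_zero
  intro l hl
  rw [PP_comp k l hf.1, if_neg]
  have := Finset.mem_range.mp hl
  omega

lemma Pol.mono_deg {M M' : ℕ} (h : M ≤ M') {f : Sph n → ℂ} (hf : Pol M f) : Pol M' f := by
  refine ⟨hf.1, fun z => ?_⟩
  rw [hf.2 z]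
  apply Finset.sum_subset (Finset.range_mono h)
  intro k _ hk
  exact hf.PP_eq_zero (by simpa using hk) _

lemma Pol.VM_eq {M M' : ℕ} {f : Sph n → ℂ} (hf : Pol M f) (h : M ≤ M') {m : ℕ → ℝ}
    (hm : ∀ k < M, m k = 1) (z : Sph n) : VM M' m f z = f z := by
  rw [hf.2 z]
  unfold VM
  symm
  rw [← Finset.sum_subset (Finset.range_mono h) (f := fun k => (m k : ℂ) * PP k f (z : V n))]
  · refine sum_congr rfl fun k hk => ?_
    rw [hm k (Finset.mem_range.mp hk)]; simp
  · intro k _ hk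
    rw [hf.PP_eq_zero (by simpa using hk)]; simp

lemma Pol_VM (M : ℕ) (m : ℕ → ℝ) {f : Sph n → ℂ} (hf : BM f) :
    Pol M (fun z : Sph n => VM M m f z) := by
  refine ⟨BM_VM M m hf, fun z => ?_⟩
  have : ∀ k ∈ range M, PP k (fun z : Sph n => VM M m f z) (z : V n) = (m k : ℂ) * PP k f z := by
    intro k hk
    rw [PP_VM M m hf, if_pos (Finset.mem_range.mp hk)]
  rw [sum_congr rfl this]
  rfl

/-- Parseval for polynomials -/
lemma Pol.parseval {M : ℕ} {f : Sph n → ℂ} (hf : Pol M f) :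
    ∫ ζ : Sph n, ‖f ζ‖ ^ 2 ∂sig n = ∑ k ∈ range M, mass k f := by
  have h1 : ∀ ζ : Sph n, f ζ = VM M (fun _ => 1) f (ζ : V n) := fun ζ =>
    (hf.VM_eq le_rfl (fun _ _ => rfl) ζ).symm
  have h2 := VM_sq M (fun _ => 1) hf.1
  simp only [one_pow, one_mul] at h2
  rw [← h2]
  exact integral_congr_ae (Eventually.of_forall fun ζ => by simp only; rw [h1 ζ])

end Pool.Agent.MP28b1a7
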