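import Pool.Agent.Lib.MP_28b1a7_an.H2def
import Pool.Agent.Lib.MP_28b1a7_an.L2

/-!
The Hardy space as a Hilbert space: `L^1` norm, polynomials, analysis operators.
-/

namespace Pool.Agent.MP28b1a7

open MeasureTheory Set Filter Topology
open scoped InnerProductSpace ENNReal NNReal

section
variable {n : ℕ} [NeZero n]

lemma Lp_integrable (f : Lp ℂ 2 (sig n)) : Integrable (f : Sph n → ℂ) (sig n) :=
  (Lp.memLp f).integrable (by norm_num)

/-- the `L^1` norm on `H2` -/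
noncomputable def p1 (n : ℕ) [NeZero n] : Seminorm ℂ (H2 n) :=
  Seminorm.of (fun f => ∫ ζ, ‖((f : Lp ℂ 2 (sig n)) : Sph n → ℂ) ζ‖ ∂sig n)
    (fun f g => by
      rw [← integral_add (Lp_integrable _).norm (Lp_integrable _).norm]
      apply integral_mono_ae (Lp_integrable _).norm
        ((Lp_integrable _).norm.add (Lp_integrable _).norm)
      have h := Lp.coeFn_add (f : Lp ℂ 2 (sig n)) (g : Lp ℂ 2 (sig n))
      filter_upwards [h] with ζ hζ
      simp only [Submodule.coe_add, Pi.add_apply] at hζ ⊢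
      rw [hζ]
      exact norm_add_le _ _)
    (fun a f => by
      rw [← integral_const_mul]
      apply integral_congr_ae
      have h := Lp.coeFn_smul a (f : Lp ℂ 2 (sig n))
      filter_upwards [h] with ζ hζ
      simp only [Submodule.coe_smul, Pi.smul_apply] at hζ ⊢
      rw [hζ, norm_smul])

theorem p1_apply (f : H2 n) : p1 n f = ∫ ζ, ‖((f : Lp ℂ 2 (sig n)) : Sph n → ℂ) ζ‖ ∂sig n := rfl

theorem p1_eq_lintegral (f : H2 n) :
    ENNReal.ofReal (p1 n f) = ∫⁻ ζ, ‖((f : Lp ℂ 2 (sig n)) : Sph n → ℂ) ζ‖ₑ ∂sig n := by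
  rw [p1_apply, ofReal_integral_norm_eq_lintegral_enorm (Lp_integrable _)]

theorem p1_le (f : H2 n) : p1 n f ≤ ‖f‖ := by
  have h1 := p1_eq_lintegral f
  have h2 : ‖f‖ = (eLpNorm ((f : Lp ℂ 2 (sig n)) : Sph n → ℂ) 2 (sig n)).toReal := by
    rw [← Lp.norm_def]; rfl
  have h3 : eLpNorm ((f : Lp ℂ 2 (sig n)) : Sph n → ℂ) 1 (sig n) ≤
      eLpNorm ((f : Lp ℂ 2 (sig n)) : Sph n → ℂ) 2 (sig n) :=
    eLpNorm_le_eLpNorm_of_exponent_le (by norm_num) (Lp.aestronglyMeasurable _)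
  rw [eLpNorm_one_eq_lintegral_enorm, ← h1] at h3
  rw [h2]
  exact (ENNReal.ofReal_le_iff_le_toReal (Lp.eLpNorm_ne_top _)).mp h3

lemma BM.memLp {f : Sph n → ℂ} (hf : BM f) : MemLp f 2 (sig n) := by
  obtain ⟨hm, C, hC⟩ := hf
  exact MemLp.of_bound hm.aestronglyMeasurable C (Eventually.of_forall hC)

lemma mono_mem (k : ℕ) (v : V n) : ContinuousMap.toLp 2 (sig n) ℂ (mono k v) ∈ H2 n :=
  Submodule.le_topologicalClosure _ (Submodule.subset_span ⟨k, v, rfl⟩)

lemma PP_mono (k l : ℕ) (v z : V n) :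
    PP l (fun ζ : Sph n => mono k v ζ) z = if k = l then ⟪v, z⟫_ℂ ^ k else 0 := by
  have h0 : (cc n l : ℂ) ≠ 0 := by
    unfold cc
    have : 0 < Nat.choose (l + n - 1) (n - 1) := Nat.choose_pos (by omega)
    exact_mod_cast this.ne'
  unfold PP
  have h := inner_pow_int k l v z
  have e : ∀ ζ : Sph n, ⟪(ζ : V n), z⟫_ℂ ^ l * mono k v ζ =
      ⟪v, (ζ : V n)⟫_ℂ ^ k * ⟪(ζ : V n), z⟫_ℂ ^ l := by
    intro ζ
    change ⟪(ζ : V n), z⟫_ℂ ^ l * ⟪v, (ζ : V n)⟫_ℂ ^ k = _
    ring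
  simp_rw [e]
  rw [h]
  split_ifs with hkl
  · subst hkl; field_simp
  · simp

lemma Pol_mono (k : ℕ) (v : V n) : Pol (k + 1) (fun ζ : Sph n => mono k v ζ) := by
  refine ⟨BM_cont (mono k v).continuous, fun z => ?_⟩
  rw [Finset.sum_eq_single k]
  · rw [PP_mono, if_pos rfl]; rfl
  · intro l _ hl
    rw [PP_mono, if_neg (fun h => hl h.symm)]
  · intro h
    exact absurd (Finset.mem_range.mpr (Nat.lt_succ_self k)) h

lemma Pol.add {M M' : ℕ} {f g : Sph n → ℂ} (hf : Pol M f) (hg : Pol M' g) :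
    Pol (max M M') fun x => f x + g x := by
  have hf' := hf.mono_deg (le_max_left M M')
  have hg' := hg.mono_deg (le_max_right M M')
  refine ⟨hf.1.add hg.1, fun z => ?_⟩
  change f z + g z = _
  rw [hf'.2 z, hg'.2 z, ← Finset.sum_add_distrib]
  refine Finset.sum_congr rfl fun k _ => ?_
  rw [PP_add k hf.1.integrable hg.1.integrable]

lemma Pol.const_mul {M : ℕ} {f : Sph n → ℂ} (hf : Pol M f) (c : ℂ) : Pol M fun x => c * f x := by
  refine ⟨hf.1.const_mul c, fun z => ?_⟩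
  change c * f z = _
  rw [hf.2 z, Finset.mul_sum]
  refine Finset.sum_congr rfl fun k _ => ?_
  rw [PP_const_mul]

lemma Pol_zero : Pol 0 fun _ : Sph n => (0 : ℂ) := ⟨BM.const 0, fun z => by simp⟩

lemma Pol.sum {ι : Type*} (s : Finset ι) (c : ι → ℂ) {M : ι → ℕ} {f : ι → Sph n → ℂ}
    (hf : ∀ i, Pol (M i) (f i)) : ∃ M', Pol M' fun x => ∑ i ∈ s, c i * f i x := by
  classical
  induction s using Finset.induction_on with
  | empty => exact ⟨0, by simpa using Pol_zero⟩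
  | insert a s ha ih =>
    obtain ⟨M', h⟩ := ih
    simp only [Finset.sum_insert ha]
    exact ⟨_, ((hf a).const_mul (c a)).add h⟩

lemma Pol.mem_H2 {M : ℕ} {f : Sph n → ℂ} (hf : Pol M f) : hf.1.memLp.toLp f ∈ H2 n := by
  rw [← Submodule.orthogonal_orthogonal (H2 n), Submodule.mem_orthogonal]
  intro y hy
  have hy0 : ∀ (k : ℕ) (v : V n), ∫ z : Sph n, (starRingEnd ℂ) (y z) * ⟪v, (z : V n)⟫_ℂ ^ k
      ∂sig n = 0 := by
    intro k v
    have h := (Submodule.mem_orthogonal' _ _).mp hy _ (mono_mem k v)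
    rw [L2.inner_def] at h
    rw [← h]
    apply integral_congr_ae
    have h2 := ContinuousMap.coeFn_toLp (p := 2) (𝕜 := ℂ) (sig n) (mono k v)
    filter_upwards [h2] with z hz
    rw [hz]
    simp only [RCLike.inner_apply]
    rw [mul_comm]; rfl
  rw [L2.inner_def]
  have h1 : ∫ z, ⟪y z, (hf.1.memLp.toLp f) z⟫_ℂ ∂sig n =
      ∑ k ∈ Finset.range M, ∫ z : Sph n, (starRingEnd ℂ) (y z) * PP k f (z : V n) ∂sig n := by
    rw [← integral_finsetSum]
    · apply integral_congr_ae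
      filter_upwards [hf.1.memLp.coeFn_toLp] with z hz
      rw [hz]
      simp only [RCLike.inner_apply]
      rw [hf.2 z, ← Finset.mul_sum, mul_comm]
    · intro k _
      obtain ⟨hm, C, hC⟩ := BM_PP k hf.1
      have hyi : Integrable (fun z => (starRingEnd ℂ) (y z)) (sig n) :=
        (Lp_integrable y).congr' (by
          exact (Complex.continuous_conj.comp_aestronglyMeasurable (Lp_integrable y).1))
          (Eventually.of_forall fun z => by simp)
      exact hyi.mul_bdd (c := C) hm.aestronglyMeasurable (Eventually.of_forall hC)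
  rw [h1]
  apply Finset.sum_eq_zero
  intro k _
  have e1 : ∫ z : Sph n, (starRingEnd ℂ) (y z) * PP k f (z : V n) ∂sig n = (cc n k : ℂ) *
      ∫ z : Sph n, ∫ ζ : Sph n, (starRingEnd ℂ) (y z) * (⟪(ζ : V n), (z : V n)⟫_ℂ ^ k * f ζ)
        ∂sig n ∂sig n := by
    unfold PP
    rw [← integral_const_mul]
    refine integral_congr_ae (Eventually.of_forall fun z => ?_)
    simp only
    rw [integral_const_mul]; ring
  rw [e1, integral_integral_swap]
  · have e2 : ∀ ζ : Sph n, ∫ z : Sph n, (starRingEnd ℂ) (y z) *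
        (⟪(ζ : V n), (z : V n)⟫_ℂ ^ k * f ζ) ∂sig n = 0 := by
      intro ζ
      have := hy0 k (ζ : V n)
      have e3 : ∀ z : Sph n, (starRingEnd ℂ) (y z) * (⟪(ζ : V n), (z : V n)⟫_ℂ ^ k * f ζ) =
          ((starRingEnd ℂ) (y z) * ⟪(ζ : V n), (z : V n)⟫_ℂ ^ k) * f ζ := fun z => by ring
      simp_rw [e3]
      rw [integral_mul_const, this, zero_mul]
    simp_rw [e2]
    simp
  · obtain ⟨hm, C, hC⟩ := hf.1
    have hyi : Integrable (fun z => (starRingEnd ℂ) (y z)) (sig n) :=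
      (Lp_integrable y).congr' (by
        exact (Complex.continuous_conj.comp_aestronglyMeasurable (Lp_integrable y).1))
        (Eventually.of_forall fun z => by simp)
    have hyi2 : Integrable (fun p : Sph n × Sph n => (starRingEnd ℂ) (y p.1))
        ((sig n).prod (sig n)) := hyi.comp_fst (sig n)
    refine hyi2.mul_bdd (c := 1 * C) ?_ ?_
    · apply Measurable.aestronglyMeasurable
      apply Measurable.mul
      · have : Continuous fun p : Sph n × Sph n => ⟪(p.2 : V n), (p.1 : V n)⟫_ℂ ^ k := by fun_prop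
        exact this.measurable
      · exact hm.comp measurable_snd
    · refine Eventually.of_forall fun p => ?_
      rw [norm_mul]
      have h2 := norm_inner_pow_le k p.2 (p.1 : V n)
      rw [sph_norm, one_pow] at h2
      have h3 := hC p.2
      gcongr

/-- a polynomial as an element of `H2` -/
noncomputable def ofPol {M : ℕ} {f : Sph n → ℂ} (hf : Pol M f) : H2 n :=
  ⟨hf.1.memLp.toLp f, hf.mem_H2⟩

theorem coe_ofPol {M : ℕ} {f : Sph n → ℂ} (hf : Pol M f) :
    (((ofPol hf : H2 n) : Lp ℂ 2 (sig n)) : Sph n → ℂ) =ᵐ[sig n] f := hf.1.memLp.coeFn_toLp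

theorem p1_ofPol {M : ℕ} {f : Sph n → ℂ} (hf : Pol M f) :
    ENNReal.ofReal (p1 n (ofPol hf)) = ∫⁻ ζ, ‖f ζ‖ₑ ∂sig n := by
  rw [p1_eq_lintegral]
  apply lintegral_congr_ae
  filter_upwards [coe_ofPol hf] with ζ hζ
  rw [hζ]

/-- `ip f g = int f conj g`, so the inner product (conjugate linear in the first slot) is `ip g f` -/
theorem inner_ofPol {M M' : ℕ} {f g : Sph n → ℂ} (hf : Pol M f) (hg : Pol M' g) :
    ⟪ofPol hf, ofPol hg⟫_ℂ = ip g f := by
  rw [Submodule.coe_inner, L2.inner_def]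
  unfold ip
  apply integral_congr_ae
  filter_upwards [coe_ofPol hf, coe_ofPol hg] with ζ h1 h2
  rw [h1, h2]
  simp only [RCLike.inner_apply]

theorem norm_ofPol {M : ℕ} {f : Sph n → ℂ} (hf : Pol M f) :
    ‖ofPol hf‖ ^ 2 = ∫ ζ, ‖f ζ‖ ^ 2 ∂sig n := by
  have h := inner_ofPol hf hf
  have h2 := inner_self_eq_norm_sq_to_K (𝕜 := ℂ) (ofPol hf)
  rw [ip_self] at h
  have h3 : ((‖ofPol hf‖ ^ 2 : ℝ) : ℂ) = ((∫ ζ, ‖f ζ‖ ^ 2 ∂sig n : ℝ) : ℂ) := by
    rw [← h, h2]
    push_cast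
    rfl
  exact Complex.ofReal_injective h3

theorem ofPol_add {M M' : ℕ} {f g : Sph n → ℂ} (hf : Pol M f) (hg : Pol M' g) :
    ofPol hf + ofPol hg = ofPol (hf.add hg) := by
  apply Subtype.ext
  exact (MemLp.toLp_add hf.1.memLp hg.1.memLp).symm

theorem ofPol_smul {M : ℕ} {f : Sph n → ℂ} (hf : Pol M f) (c : ℂ) :
    c • ofPol hf = ofPol (hf.const_mul c) := by
  apply Subtype.ext
  exact (MemLp.toLp_const_smul c hf.1.memLp).symm

theorem coe_ofPol_zero : ((ofPol (Pol_zero (n := n)) : H2 n) : Lp ℂ 2 (sig n)) = 0 := by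
  apply Lp.ext
  filter_upwards [coe_ofPol (Pol_zero (n := n)), Lp.coeFn_zero ℂ 2 (sig n)] with z h1 h2
  rw [h1, h2]; rfl

theorem ofPol_congr {M M' : ℕ} {f g : Sph n → ℂ} (hf : Pol M f) (hg : Pol M' g)
    (h : ∀ x, f x = g x) : ofPol hf = ofPol hg := by
  have : f = g := funext h
  subst this
  rfl

/-- linear combinations -/
theorem ofPol_sum {ι : Type*} (s : Finset ι) (c : ι → ℂ) {M : ι → ℕ} {f : ι → Sph n → ℂ}
    (hf : ∀ i, Pol (M i) (f i)) : ∃ (M' : ℕ) (h : Pol M' (fun x => ∑ i ∈ s, c i * f i x)),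
      ∑ i ∈ s, c i • ofPol (hf i) = ofPol h := by
  classical
  induction s using Finset.induction_on with
  | empty =>
    refine ⟨0, by simpa using Pol_zero, ?_⟩
    apply Subtype.ext
    rw [Finset.sum_empty, ZeroMemClass.coe_zero, ← coe_ofPol_zero]
    exact congrArg Subtype.val (ofPol_congr _ _ fun x => by simp)
  | insert a s ha ih =>
    obtain ⟨M', h, e⟩ := ih
    refine ⟨max (M a) M', by
      simp only [Finset.sum_insert ha]
      exact ((hf a).const_mul (c a)).add h, ?_⟩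
    rw [Finset.sum_insert ha, e, ofPol_smul, ofPol_add]
    exact ofPol_congr _ _ fun x => by rw [Finset.sum_insert ha]

theorem dense_ofPol (n : ℕ) [NeZero n] :
    Dense {x : H2 n | ∃ (M : ℕ) (f : Sph n → ℂ) (hf : Pol M f), x = ofPol hf} := by
  have hspan : ∀ y ∈ Submodule.span ℂ {f | ∃ (k : ℕ) (v : V n), f =
      ContinuousMap.toLp 2 (sig n) ℂ (mono k v)},
      ∃ (M : ℕ) (f : Sph n → ℂ) (hf : Pol M f), y = ((ofPol hf : H2 n) : Lp ℂ 2 (sig n)) := by
    intro y hy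
    induction hy using Submodule.span_induction with
    | mem y hy =>
      obtain ⟨k, v, rfl⟩ := hy
      refine ⟨k + 1, _, Pol_mono k v, ?_⟩
      apply Lp.ext
      filter_upwards [coe_ofPol (Pol_mono k v),
        ContinuousMap.coeFn_toLp (p := 2) (𝕜 := ℂ) (sig n) (mono k v)] with z h1 h2
      rw [h1, h2]
    | zero =>
      exact ⟨0, _, Pol_zero, coe_ofPol_zero.symm⟩
    | add y y' _ _ h1 h2 =>
      obtain ⟨M, f, hf, rfl⟩ := h1
      obtain ⟨M', g, hg, rfl⟩ := h2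
      refine ⟨_, _, hf.add hg, ?_⟩
      rw [← ofPol_add]; rfl
    | smul a y _ h1 =>
      obtain ⟨M, f, hf, rfl⟩ := h1
      refine ⟨_, _, hf.const_mul a, ?_⟩
      rw [← ofPol_smul]; rfl
  rw [Metric.dense_iff]
  intro x r hr
  have hx : (x : Lp ℂ 2 (sig n)) ∈ closure ((Submodule.span ℂ {f | ∃ (k : ℕ) (v : V n), f =
      ContinuousMap.toLp 2 (sig n) ℂ (mono k v)} : Submodule ℂ (Lp ℂ 2 (sig n))) :
      Set (Lp ℂ 2 (sig n))) := x.2
  rw [Metric.mem_closure_iff] at hx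
  obtain ⟨y, hy, hxy⟩ := hx r hr
  obtain ⟨M, f, hf, e⟩ := hspan y hy
  refine ⟨ofPol hf, ?_, M, f, hf, rfl⟩
  rw [Metric.mem_ball, dist_comm, Subtype.dist_eq, ← e]
  exact hxy

/-- duality: to bound the `L^1` norm of a polynomial test against bounded functions -/
theorem p1_le_of_dual {M : ℕ} {f : Sph n → ℂ} (hf : Pol M f) {K : ℝ}
    (h : ∀ b : Sph n → ℂ, BM b → (∀ x, ‖b x‖ ≤ 1) → ‖ip f b‖ ≤ K) : p1 n (ofPol hf) ≤ K := by
  set b : Sph n → ℂ := fun x => f x / (‖f x‖ : ℂ) with hb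
  have hb1 : ∀ x, ‖b x‖ ≤ 1 := by
    intro x
    rw [hb]
    simp only [norm_div, Complex.norm_real, norm_norm]
    exact div_self_le_one _
  have hbm : Measurable b := hf.1.1.div (Complex.measurable_ofReal.comp hf.1.1.norm)
  have h1 := h b ⟨hbm, 1, hb1⟩ hb1
  have h2 : ip f b = ((∫ ζ, ‖f ζ‖ ∂sig n : ℝ) : ℂ) := by
    unfold ip
    have e : ∀ ζ : Sph n, f ζ * (starRingEnd ℂ) (b ζ) = ((‖f ζ‖ : ℝ) : ℂ) := by
      intro ζ
      rw [hb]
      simp only [map_div₀, Complex.conj_ofReal]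
      rw [mul_div_assoc', Complex.mul_conj, Complex.normSq_eq_norm_sq]
      rcases eq_or_ne (‖f ζ‖ : ℝ) 0 with h0 | h0
      · rw [h0]; simp
      · have : (‖f ζ‖ : ℂ) ≠ 0 := by exact_mod_cast h0
        push_cast
        field_simp
    simp_rw [e]
    exact integral_complex_ofReal
  rw [h2, Complex.norm_real, Real.norm_of_nonneg (integral_nonneg fun _ => norm_nonneg _)] at h1
  rw [p1_apply]
  have h3 : ∫ ζ, ‖(((ofPol hf : H2 n) : Lp ℂ 2 (sig n)) : Sph n → ℂ) ζ‖ ∂sig n =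
      ∫ ζ, ‖f ζ‖ ∂sig n := by
    apply integral_congr_ae
    filter_upwards [coe_ofPol hf] with ζ hζ
    rw [hζ]
  rw [h3]; exact h1

end

section
variable {H : Type*} [NormedAddCommGroup H] [InnerProductSpace ℂ H] [CompleteSpace H]
  {ι : Type*}

omit [CompleteSpace H] in
/-- existence of analysis operators from Bessel's inequality on a dense set -/
theorem exists_analysis (ψ : ι → H) (C : ℝ) {S : Set H} (hS : Dense S)
    (h : ∀ f ∈ S, ∀ s : Finset ι, ∑ i ∈ s, ‖⟪ψ i, f⟫_ℂ‖ ^ 2 ≤ C * ‖f‖ ^ 2) :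
    ∃ A : H →L[ℂ] lp (fun _ : ι => ℂ) 2, ∀ f i, A f i = ⟪ψ i, f⟫_ℂ := by
  have hall : ∀ f : H, ∀ s : Finset ι, ∑ i ∈ s, ‖⟪ψ i, f⟫_ℂ‖ ^ 2 ≤ C * ‖f‖ ^ 2 := by
    intro f s
    have hc : IsClosed {f : H | ∑ i ∈ s, ‖⟪ψ i, f⟫_ℂ‖ ^ 2 ≤ C * ‖f‖ ^ 2} := by
      apply isClosed_le
      · fun_prop
      · fun_prop
    have := hc.closure_subset_iff.mpr (fun g hg => h g hg s)
    exact this (hS f)
  have hall' : ∀ f : H, ∀ s : Finset ι,
      ∑ i ∈ s, ‖⟪ψ i, f⟫_ℂ‖ ^ (2 : ℝ≥0∞).toReal ≤ (Real.sqrt |C| * ‖f‖) ^ (2 : ℝ≥0∞).toReal := by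
    intro f s
    have e : (2 : ℝ≥0∞).toReal = ((2 : ℕ) : ℝ) := by norm_num
    rw [e]
    simp only [Real.rpow_natCast]
    refine (hall f s).trans ?_
    rw [mul_pow, Real.sq_sqrt (abs_nonneg _)]
    gcongr
    exact le_abs_self C
  let T : H →ₗ[ℂ] lp (fun _ : ι => ℂ) 2 :=
    { toFun := fun f => ⟨fun i => ⟪ψ i, f⟫_ℂ, memℓp_gen' (hall' f)⟩
      map_add' := fun f g => by
        ext i
        simp only [inner_add_right]
        rfl
      map_smul' := fun a f => by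
        ext i
        simp only [inner_smul_right]
        rfl }
  refine ⟨T.mkContinuous (Real.sqrt |C|) fun f => ?_, fun f i => rfl⟩
  exact lp.norm_le_of_forall_sum_le (by norm_num) (by positivity) (hall' f)

/-- finitely supported sequences -/
noncomputable def finl (c : ι →₀ ℂ) : lp (fun _ : ι => ℂ) 2 :=
  ⟨fun i => c i, memℓp_gen (summable_of_hasFiniteSupport (c.hasFiniteSupport.subset (fun i hi => by
    rw [Function.mem_support] at hi ⊢
    intro h
    apply hi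
    rw [h]; simp)))⟩

theorem finl_apply (c : ι →₀ ℂ) (i : ι) : (finl c) i = c i := rfl

theorem dense_finl : DenseRange (finl : (ι →₀ ℂ) → lp (fun _ : ι => ℂ) 2) := by
  classical
  intro x
  have h := lp.hasSum_single (E := fun _ : ι => ℂ) (p := 2) (by norm_num) x
  refine mem_closure_of_tendsto h (Eventually.of_forall fun s => ?_)
  refine ⟨∑ i ∈ s, Finsupp.single i (x i), ?_⟩
  ext j
  rw [finl_apply]
  simp only [Finsupp.coe_finsetSum, Finset.sum_apply]
  rw [lp.coeFn_sum]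
  simp only [Finset.sum_apply]
  refine Finset.sum_congr rfl fun i _ => ?_
  rw [lp.single_apply, Finsupp.single_apply]
  by_cases hij : i = j
  · subst hij; simp
  · rw [if_neg hij, Pi.single_eq_of_ne (fun h => hij h.symm)]

/-- the adjoint of an analysis operator on finitely supported sequences -/
theorem adjoint_finl {ψ : ι → H} {A : H →L[ℂ] lp (fun _ : ι => ℂ) 2}
    (hA : ∀ f i, A f i = ⟪ψ i, f⟫_ℂ) (c : ι →₀ ℂ) :
    ContinuousLinearMap.adjoint A (finl c) = ∑ i ∈ c.support, c i • ψ i := by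
  apply ext_inner_left ℂ
  intro f
  rw [ContinuousLinearMap.adjoint_inner_right, lp.inner_eq_tsum, inner_sum]
  rw [tsum_eq_sum (s := c.support)]
  · refine Finset.sum_congr rfl fun i _ => ?_
    rw [finl_apply, hA, inner_smul_right, RCLike.inner_apply, inner_conj_symm]
  · intro i hi
    rw [finl_apply, Finsupp.notMem_support_iff.mp hi, inner_zero_right]

end

end Pool.Agent.MP28b1a7
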