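import Pool.Agent.Lib.MP_28b1a7_an.Coarse
import Pool.Agent.Lib.MP_28b1a7_an.H2
import Pool.Agent.Lib.MP_28b1a7_an.Abs2

/-!
Second frame, part 1: the kernel functions, their scalar products and their norms.
-/

namespace Pool.Agent.MP28b1a7.FrB

open MeasureTheory Set Filter Topology
open scoped InnerProductSpace ENNReal NNReal ContDiff

section
variable {n : ℕ} [NeZero n]

lemma KM_eq_sum_mono (M : ℕ) (m : ℕ → ℝ) (v : V n) :
    (fun ζ : Sph n => KM M m (ζ : V n) v) =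
      fun ζ : Sph n => ∑ l ∈ Finset.range M, ((m l : ℂ) * (cc n l : ℂ)) * mono l v ζ := rfl

lemma BM_mono (k : ℕ) (v : V n) : BM fun ζ : Sph n => mono k v ζ := BM_cont (mono k v).continuous

lemma BM_KM (M : ℕ) (m : ℕ → ℝ) (v : V n) : BM fun ζ : Sph n => KM M m (ζ : V n) v := by
  rw [KM_eq_sum_mono]
  exact BM.sum _ fun l _ => (BM_mono l v).const_mul _

lemma PP_KM (M : ℕ) (m : ℕ → ℝ) (v : V n) (k : ℕ) (z : V n) :
    PP k (fun ζ : Sph n => KM M m (ζ : V n) v) z =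
      if k < M then ((m k : ℂ) * (cc n k : ℂ)) * ⟪v, z⟫_ℂ ^ k else 0 := by
  rw [KM_eq_sum_mono, PP_sum k _ (fun l _ => (BM_mono l v).const_mul _)]
  simp_rw [PP_const_mul, PP_mono]
  rw [Finset.sum_congr rfl (g := fun l => if l = k then
    ((m k : ℂ) * (cc n k : ℂ)) * ⟪v, z⟫_ℂ ^ k else 0)]
  · rw [Finset.sum_ite_eq']
    simp only [Finset.mem_range]
  · intro l _
    by_cases h : l = k
    · rw [if_pos h, if_pos h, h]
    · rw [if_neg h, if_neg h, mul_zero]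

lemma Pol_KM (M : ℕ) (m : ℕ → ℝ) (v : V n) : Pol M fun ζ : Sph n => KM M m (ζ : V n) v := by
  refine ⟨BM_KM M m v, fun z => ?_⟩
  unfold KM
  apply Finset.sum_congr rfl
  intro k hk
  have h := PP_KM M m v k (z : V n)
  rw [if_pos (Finset.mem_range.mp hk)] at h
  exact h.symm

lemma VM_KM (M : ℕ) (m m' : ℕ → ℝ) (v z : V n) :
    VM M m (fun ζ : Sph n => KM M m' (ζ : V n) v) z = KM M (fun k => m k * m' k) z v := by
  unfold VM
  rw [KM]
  apply Finset.sum_congr rfl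
  intro k hk
  rw [PP_KM, if_pos (Finset.mem_range.mp hk)]
  push_cast
  ring

lemma VM_KM_zero (M M' : ℕ) (m m' : ℕ → ℝ) (v z : V n) (h : ∀ k, m k * m' k = 0) :
    VM M m (fun ζ : Sph n => KM M' m' (ζ : V n) v) z = 0 := by
  unfold VM
  apply Finset.sum_eq_zero
  intro k _
  rw [PP_KM]
  split_ifs
  · have h1 : (m k : ℂ) * (m' k : ℂ) = 0 := by
      rw [← Complex.ofReal_mul, h k, Complex.ofReal_zero]
    calc (m k : ℂ) * ((m' k : ℂ) * (cc n k : ℂ) * ⟪v, z⟫_ℂ ^ k)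
        = ((m k : ℂ) * (m' k : ℂ)) * ((cc n k : ℂ) * ⟪v, z⟫_ℂ ^ k) := by ring
      _ = 0 := by rw [h1, zero_mul]
  · rw [mul_zero]

lemma conj_KM (M : ℕ) (m : ℕ → ℝ) (z v : V n) :
    (starRingEnd ℂ) (KM M m z v) = KM M m v z := by
  unfold KM
  rw [map_sum]
  apply Finset.sum_congr rfl
  intro k _
  rw [map_mul, map_mul, map_pow, inner_conj_symm, Complex.conj_ofReal, Complex.conj_natCast]

lemma ip_KM (M : ℕ) (m : ℕ → ℝ) {f : Sph n → ℂ} (hf : BM f) (v : V n) :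
    ip f (fun ζ : Sph n => KM M m (ζ : V n) v) = VM M m f v := by
  rw [VM_eq_KM M m hf]
  unfold ip
  congr 1
  funext ζ
  rw [conj_KM, mul_comm]

/-- squared norm of the kernel functions -/
noncomputable def kap (n J : ℕ) : ℝ :=
  ∑ k ∈ Finset.range (4 * 2 ^ J), AA J k * AA J k * (cc n k : ℝ)

lemma kap_nonneg (n J : ℕ) : 0 ≤ kap n J := by
  unfold kap
  exact Finset.sum_nonneg fun k _ => mul_nonneg (mul_self_nonneg _) (Nat.cast_nonneg _)

lemma KM_self (J : ℕ) (v : Sph n) :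
    KM (4 * 2 ^ J) (fun k => AA J k * AA J k) (v : V n) v = (kap n J : ℂ) := by
  unfold KM kap
  have h : ⟪(v : V n), (v : V n)⟫_ℂ = 1 := by
    rw [inner_self_eq_norm_sq_to_K, sph_norm]; simp
  push_cast
  apply Finset.sum_congr rfl
  intro k _
  rw [h, one_pow, mul_one]

lemma phi_two : phi 2 = Real.pi / 2 := phi_of_two_le le_rfl
lemma phi_one : phi 1 = 0 := phi_of_le_one le_rfl

lemma ma_one : ma 1 = 1 := by
  unfold ma
  rw [mul_one, phi_two, phi_one, Real.sin_pi_div_two, Real.cos_zero, mul_one]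

lemma ma_near_one : ∃ η : ℝ, 0 < η ∧ η ≤ 1 ∧ ∀ x, 1 ≤ x → x ≤ 1 + η → 1 / 2 ≤ ma x := by
  have hc : Continuous ma := ma_contDiff.continuous
  have h1 : ∀ᶠ x in 𝓝 (1 : ℝ), 1 / 2 < ma x := by
    apply hc.continuousAt.eventually_const_lt
    rw [ma_one]; norm_num
  obtain ⟨ε, hε, h2⟩ := Metric.eventually_nhds_iff.mp h1
  refine ⟨min (ε / 2) 1, lt_min (by linarith) one_pos, min_le_right _ _, fun x hx hx' => ?_⟩
  apply le_of_lt
  apply h2
  rw [Real.dist_eq, abs_of_nonneg (by linarith)]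
  have := min_le_left (ε / 2) 1
  linarith

lemma cc_lower (n k : ℕ) : (k : ℝ) ^ (n - 1) / ((n - 1).factorial : ℝ) ≤ (cc n k : ℝ) := by
  unfold cc
  have h := Nat.pow_le_choose (α := ℝ) (n - 1) (k + n - 1)
  refine le_trans ?_ h
  apply div_le_div_of_nonneg_right _ (by positivity)
  apply pow_le_pow_left₀ (Nat.cast_nonneg _)
  exact_mod_cast (by omega : k ≤ k + n - 1 + 1 - (n - 1))

/-- lower bound for the norms of the kernel functions -/
lemma kap_lower (n : ℕ) [NeZero n] : ∃ c : ℝ, 0 < c ∧ ∀ J, 1 ≤ J → c * 2 ^ (J * n) ≤ kap n J := by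
  obtain ⟨η, hη, hη1, hma⟩ := ma_near_one
  have hn : 1 ≤ n := Nat.one_le_iff_ne_zero.mpr (NeZero.ne n)
  refine ⟨η / (4 * ((n - 1).factorial : ℝ)), by positivity, fun J hJ => ?_⟩
  obtain ⟨j, rfl⟩ : ∃ j, J = j + 1 := ⟨J - 1, by omega⟩
  set L : ℕ := ⌊η * 2 ^ (j + 1)⌋₊ + 1 with hL
  have hLη : η * 2 ^ (j + 1) ≤ (L : ℝ) := by
    rw [hL]; push_cast
    exact (Nat.lt_floor_add_one _).le
  have hLle : ∀ i < L, (i : ℝ) ≤ η * 2 ^ (j + 1) := by
    intro i hi
    have h1 : i ≤ ⌊η * 2 ^ (j + 1)⌋₊ := by omega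
    exact le_trans (by exact_mod_cast h1) (Nat.floor_le (by positivity))
  have hLsmall : L ≤ 2 ^ (j + 1) + 1 := by
    have h1 : ⌊η * (2 : ℝ) ^ (j + 1)⌋₊ ≤ 2 ^ (j + 1) := by
      apply Nat.floor_le_of_le
      push_cast
      have : (0 : ℝ) < 2 ^ (j + 1) := by positivity
      nlinarith
    omega
  -- restrict the sum
  have hinj : ∀ a ∈ Finset.range L, ∀ b ∈ Finset.range L, 2 ^ (j + 1) + a = 2 ^ (j + 1) + b →
      a = b := fun a _ b _ h => by omega
  have hsub : (Finset.range L).image (fun i => 2 ^ (j + 1) + i) ⊆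
      Finset.range (4 * 2 ^ (j + 1)) := by
    intro k hk
    obtain ⟨i, hi, rfl⟩ := Finset.mem_image.mp hk
    rw [Finset.mem_range] at hi ⊢
    have : 1 ≤ 2 ^ (j + 1) := Nat.one_le_two_pow
    omega
  have h1 : ∑ i ∈ Finset.range L, AA (j + 1) (2 ^ (j + 1) + i) * AA (j + 1) (2 ^ (j + 1) + i) *
      (cc n (2 ^ (j + 1) + i) : ℝ) ≤ kap n (j + 1) := by
    unfold kap
    rw [← Finset.sum_image (f := fun k => AA (j + 1) k * AA (j + 1) k * (cc n k : ℝ)) hinj]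
    apply Finset.sum_le_sum_of_subset_of_nonneg hsub
    intro k _ _
    exact mul_nonneg (mul_self_nonneg _) (Nat.cast_nonneg _)
  refine le_trans ?_ h1
  have h2 : ∀ i ∈ Finset.range L, (1 / 4 : ℝ) * (2 ^ ((j + 1) * (n - 1)) /
      ((n - 1).factorial : ℝ)) ≤ AA (j + 1) (2 ^ (j + 1) + i) * AA (j + 1) (2 ^ (j + 1) + i) *
      (cc n (2 ^ (j + 1) + i) : ℝ) := by
    intro i hi
    rw [Finset.mem_range] at hi
    have hpos : (0 : ℝ) < 2 ^ (j + 1) := by positivity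
    have hA : 1 / 2 ≤ AA (j + 1) (2 ^ (j + 1) + i) := by
      rw [AA_succ]
      apply hma
      · rw [le_div_iff₀ hpos]
        push_cast
        have := Nat.cast_nonneg (α := ℝ) i
        linarith
      · rw [div_le_iff₀ hpos]
        push_cast
        have := hLle i hi
        linarith
    have hC : (2 : ℝ) ^ ((j + 1) * (n - 1)) / ((n - 1).factorial : ℝ) ≤
        (cc n (2 ^ (j + 1) + i) : ℝ) := by
      refine le_trans ?_ (cc_lower n _)
      apply div_le_div_of_nonneg_right _ (by positivity)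
      rw [pow_mul]
      apply pow_le_pow_left₀ (by positivity)
      push_cast
      have := Nat.cast_nonneg (α := ℝ) i
      linarith
    have hAA : (1 / 4 : ℝ) ≤ AA (j + 1) (2 ^ (j + 1) + i) * AA (j + 1) (2 ^ (j + 1) + i) := by
      nlinarith
    exact mul_le_mul hAA hC (by positivity) (mul_self_nonneg _)
  have h3 := Finset.sum_le_sum h2
  rw [Finset.sum_const, Finset.card_range, nsmul_eq_mul] at h3
  refine le_trans ?_ h3
  have e : (2 : ℝ) ^ ((j + 1) * n) = 2 ^ (j + 1) * 2 ^ ((j + 1) * (n - 1)) := by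
    rw [← pow_add]
    congr 1
    obtain ⟨q, rfl⟩ : ∃ q, n = q + 1 := ⟨n - 1, by omega⟩
    simp only [Nat.add_sub_cancel]
    ring
  rw [e]
  have hf : (0 : ℝ) < ((n - 1).factorial : ℝ) := by positivity
  have hp : (0 : ℝ) ≤ 2 ^ ((j + 1) * (n - 1)) := by positivity
  calc η / (4 * ((n - 1).factorial : ℝ)) * (2 ^ (j + 1) * 2 ^ ((j + 1) * (n - 1)))
      = (η * 2 ^ (j + 1)) * (1 / 4 * (2 ^ ((j + 1) * (n - 1)) / ((n - 1).factorial : ℝ))) := by
        field_simp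
    _ ≤ (L : ℝ) * (1 / 4 * (2 ^ ((j + 1) * (n - 1)) / ((n - 1).factorial : ℝ))) := by
        apply mul_le_mul_of_nonneg_right hLη
        positivity

lemma kap_pos (n : ℕ) [NeZero n] {J : ℕ} (hJ : 1 ≤ J) : 0 < kap n J := by
  obtain ⟨c, hc, h⟩ := kap_lower n
  exact lt_of_lt_of_le (by positivity) (h J hJ)

lemma isMult_AA2 : IsMult (fun j k => AA j k * AA j k) (fun x => ma x * ma x) where
  smooth := ma_contDiff.mul ma_contDiff
  left := fun x hx => by rw [ma_of_le (by linarith), mul_zero]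
  right := fun x hx => by rw [ma_of_two_le (by linarith), mul_zero]
  zero := fun k => by
    rw [isMult_AA.zero k]
    split_ifs <;> norm_num
  succ := fun j k => by rw [isMult_AA.succ j k]

/-- the multipliers of levels at distance at least two are disjoint -/
lemma AA_mul_AA {J J' : ℕ} (h : J + 2 ≤ J') (k : ℕ) : AA J k * AA J' k = 0 := by
  by_cases hk : 2 * 2 ^ J ≤ k
  · rw [AA_of_le hk, zero_mul]
  · obtain ⟨j, rfl⟩ : ∃ j, J' = j + 1 := ⟨J' - 1, by omega⟩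
    rw [AA_of_small (j := j), mul_zero]
    push Not at hk
    have h1 : 2 ^ (J + 2) ≤ 2 ^ (j + 1) := Nat.pow_le_pow_right (by norm_num) h
    have h2 : 2 ^ (J + 2) = 4 * 2 ^ J := by rw [pow_add]; ring
    omega

/-- normalised kernel functions -/
noncomputable def psi (J : ℕ) (v : Sph n) (ζ : Sph n) : ℂ :=
  ((((Real.sqrt (kap n J))⁻¹ : ℝ) : ℂ)) * KM (4 * 2 ^ J) (AA J) (ζ : V n) v

lemma Pol_psi (J : ℕ) (v : Sph n) : Pol (4 * 2 ^ J) (psi J v) :=
  (Pol_KM (4 * 2 ^ J) (AA J) (v : V n)).const_mul _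

lemma ip_psi (J : ℕ) (v : Sph n) {f : Sph n → ℂ} (hf : BM f) :
    ip f (psi J v) = ((((Real.sqrt (kap n J))⁻¹ : ℝ) : ℂ)) * VV J f v := by
  unfold psi
  rw [ip_const_right, ip_KM _ _ hf, Complex.conj_ofReal]
  rfl

lemma VM_const_mul (M : ℕ) (m : ℕ → ℝ) (c : ℂ) (f : Sph n → ℂ) (z : V n) :
    VM M m (fun x => c * f x) z = c * VM M m f z := by
  unfold VM
  rw [Finset.mul_sum]
  apply Finset.sum_congr rfl
  intro k _
  rw [PP_const_mul]
  ring

/-- scalar products on the same level -/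
lemma ip_psi_same {J : ℕ} (v v' : Sph n) :
    ip (psi J v') (psi J v) = (((kap n J)⁻¹ : ℝ) : ℂ) *
      KM (4 * 2 ^ J) (fun k => AA J k * AA J k) (v : V n) v' := by
  rw [ip_psi J v (Pol_psi J v').1]
  unfold psi VV
  rw [VM_const_mul, VM_KM, ← mul_assoc, ← Complex.ofReal_mul, ← mul_inv,
    Real.mul_self_sqrt (kap_nonneg n J)]

lemma ip_psi_self {J : ℕ} (hJ : 1 ≤ J) (v : Sph n) : ip (psi J v) (psi J v) = 1 := by
  rw [ip_psi_same, KM_self, ← Complex.ofReal_mul, inv_mul_cancel₀ (kap_pos n hJ).ne',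
    Complex.ofReal_one]

/-- scalar products on different levels -/
lemma ip_psi_diff {J J' : ℕ} (h : J + 2 ≤ J' ∨ J' + 2 ≤ J) (v v' : Sph n) :
    ip (psi J' v') (psi J v) = 0 := by
  rw [ip_psi J v (Pol_psi J' v').1]
  unfold psi VV
  rw [VM_const_mul, VM_KM_zero, mul_zero, mul_zero]
  intro k
  rcases h with h | h
  · exact AA_mul_AA h k
  · rw [mul_comm]; exact AA_mul_AA h k

/-- decay of the scalar products -/
lemma ip_psi_decay (n : ℕ) [NeZero n] : ∃ C : ℝ≥0, ∀ J, 1 ≤ J → ∀ v v' : Sph n,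
    ‖ip (psi J v') (psi J v)‖ₑ * wte J v v' ^ LL n ≤ C := by
  obtain ⟨C, hC⟩ := mult_size_enn isMult_AA2 n (LL n)
  obtain ⟨c, hc, hlow⟩ := kap_lower n
  refine ⟨C * (Real.toNNReal c)⁻¹, fun J hJ v v' => ?_⟩
  rw [ip_psi_same, enorm_mul, mul_assoc]
  have h1 := hC J v v'
  have hk := kap_pos n hJ
  have h2 : ‖(((kap n J)⁻¹ : ℝ) : ℂ)‖ₑ ≤ (ENNReal.ofReal c)⁻¹ * (2 ^ (J * n))⁻¹ := by
    rw [← ENNReal.mul_inv (Or.inr (by finiteness)) (Or.inr (by positivity))]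
    have h3 : ‖(((kap n J)⁻¹ : ℝ) : ℂ)‖ₑ = (ENNReal.ofReal (kap n J))⁻¹ := by
      rw [← ENNReal.ofReal_inv_of_pos hk, ← ofReal_norm, Complex.norm_real,
        Real.norm_of_nonneg (by positivity)]
    rw [h3, ENNReal.inv_le_inv]
    have h4 : (2 : ℝ≥0∞) ^ (J * n) = ENNReal.ofReal (2 ^ (J * n)) := by
      rw [ENNReal.ofReal_pow (by norm_num)]; norm_num
    rw [h4, ← ENNReal.ofReal_mul hc.le]
    exact ENNReal.ofReal_le_ofReal (hlow J hJ)
  calc ‖(((kap n J)⁻¹ : ℝ) : ℂ)‖ₑ *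
      (‖KM (4 * 2 ^ J) (fun k => AA J k * AA J k) (v : V n) v'‖ₑ * wte J v v' ^ LL n)
      ≤ ((ENNReal.ofReal c)⁻¹ * (2 ^ (J * n))⁻¹) * (C * 2 ^ (J * n)) := mul_le_mul' h2 h1
    _ = (C * (ENNReal.ofReal c)⁻¹) * ((2 ^ (J * n))⁻¹ * 2 ^ (J * n)) := by ring
    _ = C * (ENNReal.ofReal c)⁻¹ := by
        rw [ENNReal.inv_mul_cancel (by positivity) (by finiteness), mul_one]
    _ = _ := by
        rw [ENNReal.coe_mul, ENNReal.coe_inv]
        · rfl
        · intro h0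
          rw [Real.toNNReal_eq_zero] at h0
          linarith

end

end Pool.Agent.MP28b1a7.FrB
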