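import Pool.Agent.Lib.MP_28b1a7_an.FB1
import Pool.Agent.Lib.MP_28b1a7_an.Dyadic

/-!
Second frame, part 2: the cells of the spherical tree inside the `G`-adic intervals.
-/

namespace Pool.Agent.MP28b1a7.FrB

open MeasureTheory Set Filter Topology
open scoped InnerProductSpace ENNReal NNReal

/-- the branching number -/
abbrev GG (n : ℕ) : ℕ := 2 ^ (8 * n)

lemma GG_two_le (n : ℕ) [NeZero n] : 2 ≤ GG n := by
  have hn : 1 ≤ n := Nat.one_le_iff_ne_zero.mpr (NeZero.ne n)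
  calc 2 = 2 ^ 1 := by norm_num
    _ ≤ 2 ^ (8 * n) := Nat.pow_le_pow_right (by norm_num) (by omega)

lemma GG_pow (n t : ℕ) : ((GG n : ℕ) : ℝ) ^ t = 2 ^ (8 * t * n) := by
  unfold GG
  push_cast
  rw [← pow_mul]
  congr 1
  ring

lemma GG_pow_pos (n t : ℕ) : (0 : ℝ) < ((GG n : ℕ) : ℝ) ^ t := by
  rw [GG_pow]; positivity

lemma GG_enn (n t : ℕ) : ((GG n : ℕ) : ℝ≥0∞) ^ t = ENNReal.ofReal (((GG n : ℕ) : ℝ) ^ t) := by
  rw [ENNReal.ofReal_pow (Nat.cast_nonneg _), ENNReal.ofReal_natCast]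

lemma GG_enn_ne_zero (n t : ℕ) : ((GG n : ℕ) : ℝ≥0∞) ^ t ≠ 0 := by
  rw [GG_enn]
  exact (ENNReal.ofReal_pos.mpr (GG_pow_pos n t)).ne'

lemma GG_enn_ne_top (n t : ℕ) : ((GG n : ℕ) : ℝ≥0∞) ^ t ≠ ∞ := by
  rw [GG_enn]
  exact ENNReal.ofReal_ne_top

lemma vol_dI (n t m : ℕ) : volume (dI (GG n) t m) = (((GG n : ℕ) : ℝ≥0∞) ^ t)⁻¹ := by
  have h := GG_pow_pos n t
  unfold dI
  rw [Real.volume_Ico, GG_enn, ← ENNReal.ofReal_inv_of_pos h]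
  congr 1
  field_simp
  ring

lemma measurableSet_dI (G t m : ℕ) : MeasurableSet (dI G t m) := measurableSet_Ico

lemma dI_zero (G : ℕ) : dI G 0 0 = Ico (0 : ℝ) 1 := by
  unfold dI; simp

lemma dI_nonneg {G t m : ℕ} {x : ℝ} (hx : x ∈ dI G t m) : 0 ≤ x := by
  refine le_trans ?_ hx.1
  positivity

section
variable {n : ℕ} [NeZero n] (T : TreeData n) (t0 : ℕ)

/-- midpoints -/
noncomputable def mid (n t m : ℕ) : ℝ := ((m : ℝ) + 1 / 2) / ((GG n : ℕ) : ℝ) ^ t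

omit [NeZero n] in
lemma mid_mem {t m : ℕ} (hm : m < GG n ^ t) : mid n t m ∈ Ico (0 : ℝ) 1 := by
  have h := GG_pow_pos n t
  have h1 : (m : ℝ) + 1 ≤ ((GG n : ℕ) : ℝ) ^ t := by exact_mod_cast hm
  unfold mid
  refine ⟨by positivity, ?_⟩
  rw [div_lt_one h]
  linarith

/-- the node attached to an interval -/
noncomputable def vt (t m : ℕ) : Sph n := T.β (t + t0) (mid n t m)

/-- the cell attached to an interval -/
noncomputable def Ec (t m : ℕ) : Set ℝ :=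
  Ico (T.lo (t + t0) (vt T t0 t m)) (T.hi (t + t0) (vt T t0 t m))

/-- the union of the cells of a level -/
noncomputable def Et (t : ℕ) : Set ℝ := ⋃ m ∈ Finset.range (GG n ^ t), Ec T t0 t m

lemma vt_mem {t m : ℕ} (hm : m < GG n ^ t) : vt T t0 t m ∈ T.N (t + t0) := T.β_mem (mid_mem hm)

lemma measurableSet_Ec (t m : ℕ) : MeasurableSet (Ec T t0 t m) := measurableSet_Ico

lemma measurableSet_Et (t : ℕ) : MeasurableSet (Et T t0 t) := by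
  unfold Et
  exact Finset.measurableSet_biUnion _ fun m _ => measurableSet_Ec T t0 t m

lemma mem_Ec_iff {t m : ℕ} (hm : m < GG n ^ t) {x : ℝ} :
    x ∈ Ec T t0 t m ↔ x ∈ Ico (0 : ℝ) 1 ∧ T.β (t + t0) x = vt T t0 t m := by
  unfold Ec
  rw [← T.cell (t + t0) _ (vt_mem T t0 hm)]
  constructor
  · rintro ⟨h1, h2⟩
    exact ⟨h1, by rw [T.β_eq h1]; exact h2⟩
  · rintro ⟨h1, h2⟩
    refine ⟨h1, ?_⟩
    rw [T.β_eq h1] at h2
    exact h2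

lemma mid_mem_Ec {t m : ℕ} (hm : m < GG n ^ t) : mid n t m ∈ Ec T t0 t m :=
  (mem_Ec_iff T t0 hm).mpr ⟨mid_mem hm, rfl⟩

variable {T t0}

lemma pow_split (n t t0 : ℕ) : (2 : ℝ) ^ (8 * (t + t0) * n) = 2 ^ (8 * t0 * n) * ((GG n : ℕ) : ℝ) ^ t := by
  rw [GG_pow, ← pow_add]
  congr 1
  ring

lemma Ec_len_le (h0 : T.c2 ≤ 1 / 2 * 2 ^ (8 * t0 * n)) {t m : ℕ} (hm : m < GG n ^ t) :
    T.hi (t + t0) (vt T t0 t m) - T.lo (t + t0) (vt T t0 t m) ≤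
      1 / 2 / ((GG n : ℕ) : ℝ) ^ t := by
  refine le_trans (T.len_le _ _ (vt_mem T t0 hm)) ?_
  have h := GG_pow_pos n t
  have h2 : (0 : ℝ) < 2 ^ (8 * t0 * n) := by positivity
  rw [pow_split, div_le_div_iff₀ (by positivity) h]
  nlinarith [mul_le_mul_of_nonneg_right h0 h.le]

lemma Ec_len_ge {t m : ℕ} (hm : m < GG n ^ t) :
    T.c1 / 2 ^ (8 * t0 * n) / ((GG n : ℕ) : ℝ) ^ t ≤
      T.hi (t + t0) (vt T t0 t m) - T.lo (t + t0) (vt T t0 t m) := by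
  refine le_trans (le_of_eq ?_) (T.len_ge _ _ (vt_mem T t0 hm))
  rw [pow_split, div_div]

lemma Ec_sub (h0 : T.c2 ≤ 1 / 2 * 2 ^ (8 * t0 * n)) {t m : ℕ} (hm : m < GG n ^ t) :
    Ec T t0 t m ⊆ dI (GG n) t m := by
  intro x hx
  have h := GG_pow_pos n t
  have h1 := Ec_len_le h0 hm
  have h2 := mid_mem_Ec T t0 hm
  unfold Ec at hx h2
  unfold mid at h2
  unfold dI
  have e1 : ((m : ℝ) + 1 / 2) / ((GG n : ℕ) : ℝ) ^ t =
      (m : ℝ) / ((GG n : ℕ) : ℝ) ^ t + 1 / 2 / ((GG n : ℕ) : ℝ) ^ t := by ring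
  have e2 : ((m : ℝ) + 1) / ((GG n : ℕ) : ℝ) ^ t =
      (m : ℝ) / ((GG n : ℕ) : ℝ) ^ t + 1 / 2 / ((GG n : ℕ) : ℝ) ^ t +
        1 / 2 / ((GG n : ℕ) : ℝ) ^ t := by ring
  rw [e1] at h2
  rw [e2]
  constructor
  · linarith [hx.1, h2.2]
  · linarith [hx.2, h2.1]

lemma mm_of_mem_Ec (h0 : T.c2 ≤ 1 / 2 * 2 ^ (8 * t0 * n)) {t m : ℕ} (hm : m < GG n ^ t) {x : ℝ}
    (hx : x ∈ Ec T t0 t m) : mm (GG n) t x = m := by
  have h1 := Ec_sub h0 hm hx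
  exact (mem_dI (GG_two_le n) t m (dI_nonneg h1)).mp h1

lemma vt_ne (h0 : T.c2 ≤ 1 / 2 * 2 ^ (8 * t0 * n)) {t m m' : ℕ} (hm : m < GG n ^ t)
    (hm' : m' < GG n ^ t) (hne : m ≠ m') : vt T t0 t m ≠ vt T t0 t m' := by
  intro h
  apply hne
  have h1 := mm_of_mem_Ec h0 hm (mid_mem_Ec T t0 hm)
  have h2 : mid n t m ∈ Ec T t0 t m' := by
    have h3 := mid_mem_Ec T t0 hm
    unfold Ec at h3 ⊢
    rwa [h] at h3
  have h4 := mm_of_mem_Ec h0 hm' h2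
  omega

variable (T t0) in
/-- proportion of the cells -/
noncomputable def kap0 : ℝ≥0 := Real.toNNReal (T.c1 / 2 ^ (8 * t0 * n))

lemma kap0_pos : 0 < kap0 T t0 := by
  unfold kap0
  rw [Real.toNNReal_pos]
  have := T.c1_pos
  positivity

lemma Ec_vol_ge {t m : ℕ} (hm : m < GG n ^ t) :
    (kap0 T t0 : ℝ≥0∞) * (((GG n : ℕ) : ℝ≥0∞) ^ t)⁻¹ ≤ volume (Ec T t0 t m) := by
  unfold Ec
  have h := GG_pow_pos n t
  rw [Real.volume_Ico, GG_enn, ← ENNReal.ofReal_inv_of_pos h]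
  have h1 : (kap0 T t0 : ℝ≥0∞) = ENNReal.ofReal (T.c1 / 2 ^ (8 * t0 * n)) := rfl
  rw [h1, ← ENNReal.ofReal_mul (by have := T.c1_pos; positivity)]
  apply ENNReal.ofReal_le_ofReal
  exact Ec_len_ge hm

omit [NeZero n] in
lemma lvl_sq (w : Idx (GG n) → ℂ) (t m : ℕ) {x : ℝ} (hx : mm (GG n) t x = m) :
    lvl w t x ^ 2 = ((GG n : ℕ) : ℝ≥0∞) ^ t * ‖co w t m‖ₑ ^ 2 := by
  unfold lvl
  unfold mm at hx
  rw [hx, mul_pow, ← ENNReal.rpow_natCast, ← ENNReal.rpow_mul]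
  norm_num

/-- a single coefficient is controlled by an integral over its cell -/
lemma WE (h0 : T.c2 ≤ 1 / 2 * 2 ^ (8 * t0 * n)) {t m : ℕ} (hm : m < GG n ^ t)
    (w : Idx (GG n) → ℂ) (Φ : ℝ → ℝ≥0∞) (h : ∀ x ∈ Ec T t0 t m, lvl w t x ≤ Φ x) :
    (kap0 T t0 : ℝ≥0∞) * ‖co w t m‖ₑ ^ 2 ≤ ∫⁻ x in Ec T t0 t m, Φ x ^ 2 := by
  have hG := GG_enn_ne_zero n t
  have hG' := GG_enn_ne_top n t
  calc (kap0 T t0 : ℝ≥0∞) * ‖co w t m‖ₑ ^ 2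
      = ((kap0 T t0 : ℝ≥0∞) * (((GG n : ℕ) : ℝ≥0∞) ^ t)⁻¹) *
          (((GG n : ℕ) : ℝ≥0∞) ^ t * ‖co w t m‖ₑ ^ 2) := by
        rw [mul_assoc, ← mul_assoc (((GG n : ℕ) : ℝ≥0∞) ^ t)⁻¹, ENNReal.inv_mul_cancel hG hG',
          one_mul]
    _ ≤ volume (Ec T t0 t m) * (((GG n : ℕ) : ℝ≥0∞) ^ t * ‖co w t m‖ₑ ^ 2) :=
        mul_le_mul_left (Ec_vol_ge hm) _
    _ = ∫⁻ x in Ec T t0 t m, ((GG n : ℕ) : ℝ≥0∞) ^ t * ‖co w t m‖ₑ ^ 2 := by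
        rw [setLIntegral_const, mul_comm]
    _ ≤ ∫⁻ x in Ec T t0 t m, Φ x ^ 2 := by
        apply setLIntegral_mono' (measurableSet_Ec T t0 t m)
        intro x hx
        rw [← lvl_sq w t m (mm_of_mem_Ec h0 hm hx)]
        exact pow_le_pow_left' (h x hx) 2

omit [NeZero n] in
lemma co_eq_zero (w : Idx (GG n) → ℂ) {t m : ℕ} (hm : ¬ m < GG n ^ t) : co w t m = 0 := by
  unfold co
  rw [dif_neg hm]

lemma sum_dI (t : ℕ) (F : ℝ → ℝ≥0∞) :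
    ∑ m ∈ Finset.range (GG n ^ t), ∫⁻ x in dI (GG n) t m, F x = ∫⁻ x, F x ∂mu01 := by
  have h := lintegral_sub (GG_two_le n) 0 t 0 (by norm_num) F
  rw [dI_zero] at h
  rw [h]
  apply Finset.sum_congr rfl
  intro l _
  rw [zero_add, zero_mul, zero_add]

/-- the `l^2` norm -/
lemma L2E (h0 : T.c2 ≤ 1 / 2 * 2 ^ (8 * t0 * n)) (w : Idx (GG n) → ℂ) (Φ : ℕ → ℝ → ℝ≥0∞)
    (h : ∀ t m, m < GG n ^ t → ∀ x ∈ Ec T t0 t m, lvl w t x ≤ Φ t x) :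
    (kap0 T t0 : ℝ≥0∞) * n2 w ≤ ∑' t, ∫⁻ x, Φ t x ^ 2 ∂mu01 := by
  rw [← tsum_co, ← ENNReal.tsum_mul_left]
  apply ENNReal.tsum_le_tsum
  intro t
  rw [tsum_eq_sum (s := Finset.range (GG n ^ t)), Finset.mul_sum, ← sum_dI (n := n) t]
  · apply Finset.sum_le_sum
    intro m hm
    have hm' := Finset.mem_range.mp hm
    exact le_trans (WE h0 hm' w (Φ t) (h t m hm')) (lintegral_mono_set (Ec_sub h0 hm'))
  · intro m hm
    rw [Finset.mem_range] at hm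
    rw [co_eq_zero w hm]
    simp

variable (T t0) in
/-- the square function norm -/
lemma NDE (h0 : T.c2 ≤ 1 / 2 * 2 ^ (8 * t0 * n)) : ∃ C : ℝ≥0, ∀ (w : Idx (GG n) → ℂ)
    (Φ : ℕ → ℝ → ℝ≥0∞), (∀ t m, m < GG n ^ t → ∀ x ∈ Ec T t0 t m, lvl w t x ≤ Φ t x) →
    ND w ≤ C * ∫⁻ x, sqf Φ x ∂mu01 := by
  obtain ⟨C, hC⟩ := cell_part (GG_two_le n) (kap0_pos (T := T) (t0 := t0))
  refine ⟨C, fun w Φ h => ?_⟩
  refine le_trans (hC w (Et T t0) (measurableSet_Et T t0) ?_) ?_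
  · intro t m hm
    refine le_trans (Ec_vol_ge hm) (measure_mono ?_)
    intro x hx
    refine ⟨?_, Ec_sub h0 hm hx⟩
    unfold Et
    rw [mem_iUnion₂]
    exact ⟨m, Finset.mem_range.mpr hm, hx⟩
  · gcongr with x
    apply sqf_mono
    intro t
    by_cases hx : x ∈ Et T t0 t
    · rw [indicator_of_mem hx]
      unfold Et at hx
      rw [mem_iUnion₂] at hx
      obtain ⟨m, hm, hx⟩ := hx
      exact h t m (Finset.mem_range.mp hm) x hx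
    · rw [indicator_of_notMem hx]
      exact bot_le

/-- the Carleson expressions -/
lemma CE (h0 : T.c2 ≤ 1 / 2 * 2 ^ (8 * t0 * n)) (w : Idx (GG n) → ℂ) (Φ : ℕ → ℝ → ℝ≥0∞)
    (hΦ : ∀ t, Measurable (Φ t))
    (h : ∀ t m, m < GG n ^ t → ∀ x ∈ Ec T t0 t m, lvl w t x ≤ Φ t x) (t m : ℕ)
    (hm : m < GG n ^ t) :
    (kap0 T t0 : ℝ≥0∞) * ∫⁻ x in dI (GG n) t m, ∑' j, lvl w (t + j) x ^ 2 ≤
      ∫⁻ x in dI (GG n) t m, ∑' j, Φ (t + j) x ^ 2 := by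
  rw [lintegral_tsum (fun j => ((measurable_lvl w (t + j)).pow_const 2).aemeasurable),
    lintegral_tsum (fun j => ((hΦ (t + j)).pow_const 2).aemeasurable), ← ENNReal.tsum_mul_left]
  apply ENNReal.tsum_le_tsum
  intro j
  rw [lintegral_sub (GG_two_le n) t j m hm, lintegral_sub (GG_two_le n) t j m hm, Finset.mul_sum]
  apply Finset.sum_le_sum
  intro l hl
  have hl' := Finset.mem_range.mp hl
  have hlt : m * GG n ^ j + l < GG n ^ (t + j) := by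
    calc m * GG n ^ j + l < m * GG n ^ j + GG n ^ j := by omega
      _ = (m + 1) * GG n ^ j := by ring
      _ ≤ GG n ^ t * GG n ^ j := Nat.mul_le_mul_right _ hm
      _ = GG n ^ (t + j) := by rw [pow_add]
  have h1 : ∫⁻ x in dI (GG n) (t + j) (m * GG n ^ j + l), lvl w (t + j) x ^ 2 =
      ‖co w (t + j) (m * GG n ^ j + l)‖ₑ ^ 2 := by
    have h2 : ∫⁻ x in dI (GG n) (t + j) (m * GG n ^ j + l), lvl w (t + j) x ^ 2 =
        ∫⁻ x in dI (GG n) (t + j) (m * GG n ^ j + l),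
          ((GG n : ℕ) : ℝ≥0∞) ^ (t + j) * ‖co w (t + j) (m * GG n ^ j + l)‖ₑ ^ 2 := by
      apply setLIntegral_congr_fun (measurableSet_dI _ _ _)
      intro x hx
      exact lvl_sq w (t + j) _ ((mem_dI (GG_two_le n) _ _ (dI_nonneg hx)).mp hx)
    rw [h2, setLIntegral_const, vol_dI, mul_comm, ← mul_assoc,
      ENNReal.inv_mul_cancel (GG_enn_ne_zero n _) (GG_enn_ne_top n _), one_mul]
  rw [h1]
  exact le_trans (WE h0 hlt w (Φ (t + j)) (h (t + j) _ hlt)) (lintegral_mono_set (Ec_sub h0 hlt))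

end

end Pool.Agent.MP28b1a7.FrB
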