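import Pool.Agent.Lib.MP_28b1a7_an.FB2

/-!
Second frame, part 3: the analysis coefficients; Bessel inequality, square function bound and
Carleson condition.
-/

namespace Pool.Agent.MP28b1a7.FrB

open MeasureTheory Set Filter Topology
open scoped InnerProductSpace ENNReal NNReal

section
variable {n : ℕ} [NeZero n] {T : TreeData n} {t0 : ℕ}

lemma near_Ec {t m : ℕ} (hm : m < GG n ^ t) {x : ℝ} (hx : x ∈ Ec T t0 t m) :
    dd (T.Ψ x : V n) (vt T t0 t m) ≤ T.C3 / 2 ^ (8 * (t + t0)) := by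
  obtain ⟨h1, h2⟩ := (mem_Ec_iff T t0 hm).mp hx
  have h3 := T.near (t + t0) x h1
  rwa [← T.β_eq h1, h2] at h3

lemma wte_near (c : ℕ) {t m : ℕ} (hm : m < GG n ^ t) {x : ℝ} (hx : x ∈ Ec T t0 t m) :
    wte (8 * (t + t0) + c) (T.Ψ x) (vt T t0 t m) ≤ ENNReal.ofReal (1 + 2 ^ c * T.C3) := by
  unfold wte wt
  apply ENNReal.ofReal_le_ofReal
  have h1 := near_Ec hm hx
  rw [le_div_iff₀ (by positivity)] at h1
  rw [pow_add]
  have h2 : (0 : ℝ) < 2 ^ c := by positivity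
  nlinarith

/-- Peetre functions at the node and at a point of its cell -/
lemma pst_node (c : ℕ) {t m : ℕ} (hm : m < GG n ^ t) {x : ℝ} (hx : x ∈ Ec T t0 t m)
    (F : Sph n → ℂ) :
    pst (8 * (t + t0) + c) F (vt T t0 t m) ≤
      (2 * ENNReal.ofReal (1 + 2 ^ c * T.C3)) ^ LL n * pst (8 * (t + t0) + c) F (T.Ψ x) := by
  refine le_trans (pst_slow _ F (vt T t0 t m) (T.Ψ x)) ?_
  gcongr
  rw [wte_comm]
  exact wte_near c hm hx

lemma lvl_of_mem (h0 : T.c2 ≤ 1 / 2 * 2 ^ (8 * t0 * n)) {t m : ℕ} (hm : m < GG n ^ t) {x : ℝ}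
    (hx : x ∈ Ec T t0 t m) (w : Idx (GG n) → ℂ) :
    lvl w t x = (((GG n : ℕ) : ℝ≥0∞) ^ t) ^ (1 / 2 : ℝ) * ‖co w t m‖ₑ := by
  have h := mm_of_mem_Ec h0 hm hx
  unfold mm at h
  unfold lvl
  rw [h]

variable (T t0) in
/-- the analysis coefficients -/
noncomputable def ac (c : ℕ) (b : Sph n → ℂ) (i : Idx (GG n)) : ℂ :=
  ip b (psi (8 * (i.1.1 + t0) + c) (vt T t0 i.1.1 i.1.2))

lemma co_ac (c : ℕ) (b : Sph n → ℂ) {t m : ℕ} (hm : m < GG n ^ t) :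
    co (ac T t0 c b) t m = ip b (psi (8 * (t + t0) + c) (vt T t0 t m)) := by
  unfold co
  rw [dif_pos hm]
  rfl

omit [NeZero n] in
lemma two_pow_enn (k : ℕ) : (2 : ℝ≥0∞) ^ k = ENNReal.ofReal (2 ^ k) := by
  rw [ENNReal.ofReal_pow (by norm_num)]; norm_num

lemma enn_sq_le {a b : ℝ≥0∞} (h : a ^ 2 ≤ b ^ 2) : a ≤ b := by
  by_contra hab
  push Not at hab
  exact absurd h (not_le.mpr (ENNReal.pow_lt_pow_left two_ne_zero hab))

variable (T t0) in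
/-- pointwise bound for the analysis coefficients -/
lemma ac_le (h0 : T.c2 ≤ 1 / 2 * 2 ^ (8 * t0 * n)) {c : ℕ} (hc : 1 ≤ c) : ∃ C : ℝ≥0, 0 < C ∧ ∀ b : Sph n → ℂ, BM b → ∀ t m,
    m < GG n ^ t → ∀ x ∈ Ec T t0 t m, lvl (ac T t0 c b) t x ≤
      C * pst (8 * (t + t0) + c) (fun w : Sph n => VV (8 * (t + t0) + c) b w) (T.Ψ x) := by
  obtain ⟨q, hq, hlow⟩ := kap_lower n
  set A : ℝ≥0 := (2 * Real.toNNReal (1 + 2 ^ c * T.C3)) ^ LL n with hA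
  have hA' : (A : ℝ≥0∞) = (2 * ENNReal.ofReal (1 + 2 ^ c * T.C3)) ^ LL n := by
    rw [hA]; push_cast; rfl
  have hApos : 0 < A := by
    rw [hA]
    apply pow_pos
    apply mul_pos two_pos
    rw [Real.toNNReal_pos]
    have := T.C3_pos
    positivity
  set Q : ℝ≥0 := Real.toNNReal ((Real.sqrt q)⁻¹) with hQ
  have hQpos : 0 < Q := by
    rw [hQ, Real.toNNReal_pos]
    positivity
  refine ⟨Q * A, mul_pos hQpos hApos, fun b hb t m hm x hx => ?_⟩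
  set J := 8 * (t + t0) + c with hJ
  have hJ1 : 1 ≤ J := by omega
  have hk := kap_pos n hJ1
  -- the size of the normalising factor
  have h1 : ((GG n : ℕ) : ℝ≥0∞) ^ t * ENNReal.ofReal ((Real.sqrt (kap n J))⁻¹) ^ 2 ≤
      (Q : ℝ≥0∞) ^ 2 := by
    have e1 : (Q : ℝ≥0∞) = ENNReal.ofReal ((Real.sqrt q)⁻¹) := rfl
    rw [e1, GG_enn, ← ENNReal.ofReal_pow (by positivity), ← ENNReal.ofReal_pow (by positivity),
      ← ENNReal.ofReal_mul (by positivity)]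
    apply ENNReal.ofReal_le_ofReal
    rw [inv_pow, inv_pow, Real.sq_sqrt hk.le, Real.sq_sqrt hq.le, ← div_eq_mul_inv,
      div_le_iff₀ hk, inv_mul_eq_div, le_div_iff₀ hq]
    refine le_trans ?_ (hlow J hJ1)
    rw [mul_comm]
    apply mul_le_mul_of_nonneg_left _ hq.le
    rw [GG_pow]
    apply pow_le_pow_right₀ (by norm_num)
    apply Nat.mul_le_mul_right
    omega
  have h2 : ‖co (ac T t0 c b) t m‖ₑ ≤ ENNReal.ofReal ((Real.sqrt (kap n J))⁻¹) *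
      (A * pst J (fun w : Sph n => VV J b w) (T.Ψ x)) := by
    rw [co_ac c b hm, ip_psi _ _ hb, enorm_mul]
    have e2 : ‖(((Real.sqrt (kap n J))⁻¹ : ℝ) : ℂ)‖ₑ = ENNReal.ofReal ((Real.sqrt (kap n J))⁻¹) := by
      rw [← ofReal_norm, Complex.norm_real, Real.norm_of_nonneg (by positivity)]
    rw [← hJ, e2]
    gcongr
    refine le_trans (le_pst_self J (fun w : Sph n => VV J b w) (vt T t0 t m)) ?_
    rw [hA']
    exact pst_node c hm hx _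
  have h3 : (((GG n : ℕ) : ℝ≥0∞) ^ t) ^ (1 / 2 : ℝ) *
      ENNReal.ofReal ((Real.sqrt (kap n J))⁻¹) ≤ Q := by
    apply enn_sq_le
    rw [mul_pow, ← ENNReal.rpow_natCast, ← ENNReal.rpow_mul]
    norm_num
    norm_num at h1
    exact h1
  rw [lvl_of_mem h0 hm hx]
  calc (((GG n : ℕ) : ℝ≥0∞) ^ t) ^ (1 / 2 : ℝ) * ‖co (ac T t0 c b) t m‖ₑ
      ≤ (((GG n : ℕ) : ℝ≥0∞) ^ t) ^ (1 / 2 : ℝ) * (ENNReal.ofReal ((Real.sqrt (kap n J))⁻¹) *
          (A * pst J (fun w : Sph n => VV J b w) (T.Ψ x))) := by gcongr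
    _ = ((((GG n : ℕ) : ℝ≥0∞) ^ t) ^ (1 / 2 : ℝ) * ENNReal.ofReal ((Real.sqrt (kap n J))⁻¹)) *
          (A * pst J (fun w : Sph n => VV J b w) (T.Ψ x)) := by rw [mul_assoc]
    _ ≤ Q * (A * pst J (fun w : Sph n => VV J b w) (T.Ψ x)) := by gcongr
    _ = _ := by rw [ENNReal.coe_mul, mul_assoc]

omit [NeZero n] in
lemma enn_le_of_mul {κ : ℝ≥0} (hκ : 0 < κ) {a b : ℝ≥0∞} (h : (κ : ℝ≥0∞) * a ≤ b) :
    a ≤ ((κ⁻¹ : ℝ≥0) : ℝ≥0∞) * b := by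
  calc a = ((κ⁻¹ : ℝ≥0) : ℝ≥0∞) * (κ * a) := by
        rw [← mul_assoc, ← ENNReal.coe_mul, inv_mul_cancel₀ hκ.ne', ENNReal.coe_one, one_mul]
    _ ≤ _ := by gcongr

lemma level_inj (t0 c : ℕ) : Function.Injective fun t : ℕ => 8 * (t + t0) + c := by
  intro a b h
  simp only at h
  omega

/-- Bessel's inequality -/
lemma ac_bessel (h0 : T.c2 ≤ 1 / 2 * 2 ^ (8 * t0 * n)) {c : ℕ} (hc : 1 ≤ c) : ∃ C : ℝ≥0,
    ∀ f : Sph n → ℂ, BM f → n2 (ac T t0 c f) ≤ C * ∫⁻ ζ, ‖f ζ‖ₑ ^ 2 ∂sig n := by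
  obtain ⟨C1, _, h1⟩ := ac_le T t0 h0 hc
  obtain ⟨C2, h2⟩ := pst_L2 n
  refine ⟨(kap0 T t0)⁻¹ * (C1 ^ 2 * C2), fun f hf => ?_⟩
  rw [ENNReal.coe_mul, mul_assoc]
  apply enn_le_of_mul kap0_pos
  refine le_trans (L2E h0 (ac T t0 c f) _ (fun t m hm x hx => h1 f hf t m hm x hx)) ?_
  calc ∑' t, ∫⁻ x, (C1 * pst (8 * (t + t0) + c) (fun w : Sph n => VV (8 * (t + t0) + c) f w)
        (T.Ψ x)) ^ 2 ∂mu01
      = ∑' t : ℕ, (C1 : ℝ≥0∞) ^ 2 * ∫⁻ z, pst (8 * (t + t0) + c)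
          (fun w : Sph n => VV (8 * (t + t0) + c) f w) z ^ 2 ∂sig n := by
        congr 1
        funext t
        rw [← T.lintegral_Ψ ((measurable_pst _ _).pow_const 2), ← lintegral_const_mul']
        · congr 1
          funext x
          rw [mul_pow]
        · finiteness
    _ = (C1 : ℝ≥0∞) ^ 2 * ∑' t : ℕ, ∫⁻ z, pst (8 * (t + t0) + c)
          (fun w : Sph n => VV (8 * (t + t0) + c) f w) z ^ 2 ∂sig n := by
        rw [ENNReal.tsum_mul_left]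
    _ ≤ (C1 : ℝ≥0∞) ^ 2 * ∑' j : ℕ, ∫⁻ z, pst j (fun w : Sph n => VV j f w) z ^ 2 ∂sig n := by
        refine mul_le_mul_right ?_ _
        exact ENNReal.tsum_comp_le_tsum_of_injective (level_inj t0 c)
          (fun j => ∫⁻ z, pst j (fun w : Sph n => VV j f w) z ^ 2 ∂sig n)
    _ ≤ (C1 : ℝ≥0∞) ^ 2 * (C2 * ∫⁻ ζ, ‖f ζ‖ₑ ^ 2 ∂sig n) := by
        gcongr
        exact h2 f hf
    _ = _ := by
        rw [ENNReal.coe_mul, ENNReal.coe_pow, mul_assoc]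

/-- square function bound for the analysis coefficients of polynomials -/
lemma ac_ND (h0 : T.c2 ≤ 1 / 2 * 2 ^ (8 * t0 * n)) {c : ℕ} (hc : 1 ≤ c) : ∃ C : ℝ≥0,
    ∀ (M : ℕ) (f : Sph n → ℂ), Pol M f → ND (ac T t0 c f) ≤ C * ∫⁻ ζ, ‖f ζ‖ₑ ∂sig n := by
  obtain ⟨C1, _, h1⟩ := ac_le T t0 h0 hc
  obtain ⟨C2, h2⟩ := LP_pst n
  obtain ⟨C3, h3⟩ := NDE T t0 h0
  refine ⟨C3 * (C1 * C2), fun M f hf => ?_⟩
  refine le_trans (h3 (ac T t0 c f) _ (fun t m hm x hx => h1 f hf.1 t m hm x hx)) ?_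
  rw [ENNReal.coe_mul, ENNReal.coe_mul, mul_assoc, mul_assoc]
  gcongr
  refine le_trans ?_ (mul_le_mul_right (h2 M f hf) (C1 : ℝ≥0∞))
  have hm1 : Measurable (sqf (fun (j : ℕ) => pst j (fun w : Sph n => VV j f w))) :=
    meas_sqf fun j => measurable_pst _ _
  rw [← T.lintegral_Ψ hm1, ← lintegral_const_mul' _ _ (by finiteness)]
  apply lintegral_mono
  intro x
  dsimp only
  rw [sqf_const_mul (C1 : ℝ≥0∞) (fun t x => pst (8 * (t + t0) + c)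
    (fun w : Sph n => VV (8 * (t + t0) + c) f w) (T.Ψ x)) x]
  gcongr
  unfold sqf
  apply ENNReal.rpow_le_rpow _ (by norm_num)
  exact ENNReal.tsum_comp_le_tsum_of_injective (level_inj t0 c)
    (fun j => pst j (fun w : Sph n => VV j f w) (T.Ψ x) ^ 2)

/-- covering a `G`-adic interval by cells -/
lemma cover {t m : ℕ} (hm : m < GG n ^ t) (H : ℝ → ℝ≥0∞) (K : ℝ≥0)
    (hH : ∀ v ∈ T.N t, ∫⁻ x in Ico (T.lo t v) (T.hi t v), H x ≤
      K * volume (Ico (T.lo t v) (T.hi t v))) :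
    ∫⁻ x in dI (GG n) t m, H x ≤
      K * (ENNReal.ofReal (1 + 2 * T.c2) * (((GG n : ℕ) : ℝ≥0∞) ^ t)⁻¹) := by
  classical
  have hGp := GG_pow_pos n t
  set S : Finset (Sph n) := (T.N t).filter
    (fun v => (Ico (T.lo t v) (T.hi t v) ∩ dI (GG n) t m).Nonempty) with hS
  have hSN : ∀ v ∈ S, v ∈ T.N t := fun v hv => (Finset.mem_filter.mp hv).1
  have hdI : ∀ x ∈ dI (GG n) t m, x ∈ Ico (0 : ℝ) 1 := by
    intro x hx
    refine ⟨dI_nonneg hx, lt_of_lt_of_le hx.2 ?_⟩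
    rw [div_le_one hGp]
    exact_mod_cast hm
  have hdisj : (S : Set (Sph n)).PairwiseDisjoint fun v => Ico (T.lo t v) (T.hi t v) := by
    intro v hv v' hv' hne
    refine Set.disjoint_left.mpr fun x hx hx' => hne ?_
    have h1 : x ∈ {x | x ∈ Ico (0 : ℝ) 1 ∧ T.α t x = v} := by
      rw [T.cell t v (hSN v hv)]; exact hx
    have h2 : x ∈ {x | x ∈ Ico (0 : ℝ) 1 ∧ T.α t x = v'} := by
      rw [T.cell t v' (hSN v' hv')]; exact hx'
    exact h1.2.symm.trans h2.2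
  have hcov : dI (GG n) t m ⊆ ⋃ v ∈ S, Ico (T.lo t v) (T.hi t v) := by
    intro x hx
    have hx1 := hdI x hx
    have hv := T.α_mem t x hx1
    have hxc : x ∈ Ico (T.lo t (T.α t x)) (T.hi t (T.α t x)) := by
      rw [← T.cell t _ hv]
      exact ⟨hx1, rfl⟩
    rw [mem_iUnion₂]
    exact ⟨T.α t x, Finset.mem_filter.mpr ⟨hv, x, hxc, hx⟩, hxc⟩
  have hvol : volume (⋃ v ∈ S, Ico (T.lo t v) (T.hi t v)) ≤
      ENNReal.ofReal (1 + 2 * T.c2) * (((GG n : ℕ) : ℝ≥0∞) ^ t)⁻¹ := by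
    have hsub : (⋃ v ∈ S, Ico (T.lo t v) (T.hi t v)) ⊆
        Ico ((m : ℝ) / ((GG n : ℕ) : ℝ) ^ t - T.c2 / ((GG n : ℕ) : ℝ) ^ t)
          (((m : ℝ) + 1) / ((GG n : ℕ) : ℝ) ^ t + T.c2 / ((GG n : ℕ) : ℝ) ^ t) := by
      intro x hx
      rw [mem_iUnion₂] at hx
      obtain ⟨v, hv, hx⟩ := hx
      obtain ⟨hvN, y, hy1, hy2⟩ := Finset.mem_filter.mp hv
      have hlen := T.len_le t v hvN
      rw [← GG_pow] at hlen
      constructor
      · linarith [hx.1, hy1.2, hy2.1]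
      · linarith [hx.2, hy1.1, hy2.2]
    refine le_trans (measure_mono hsub) ?_
    rw [Real.volume_Ico, GG_enn, ← ENNReal.ofReal_inv_of_pos hGp, ← ENNReal.ofReal_mul (by
      have := T.c2_pos; positivity)]
    apply ENNReal.ofReal_le_ofReal
    apply le_of_eq
    field_simp
    ring
  calc ∫⁻ x in dI (GG n) t m, H x
      ≤ ∫⁻ x in ⋃ v ∈ S, Ico (T.lo t v) (T.hi t v), H x := lintegral_mono_set hcov
    _ = ∑ v ∈ S, ∫⁻ x in Ico (T.lo t v) (T.hi t v), H x :=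
        lintegral_biUnion_finset hdisj (fun v _ => measurableSet_Ico) H
    _ ≤ ∑ v ∈ S, K * volume (Ico (T.lo t v) (T.hi t v)) :=
        Finset.sum_le_sum fun v hv => hH v (hSN v hv)
    _ = K * ∑ v ∈ S, volume (Ico (T.lo t v) (T.hi t v)) := by rw [Finset.mul_sum]
    _ = K * volume (⋃ v ∈ S, Ico (T.lo t v) (T.hi t v)) := by
        rw [measure_biUnion_finset hdisj (fun v _ => measurableSet_Ico)]
    _ ≤ _ := by gcongr

/-- the Carleson condition for the analysis coefficients of bounded functions -/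
lemma ac_carl (h0 : T.c2 ≤ 1 / 2 * 2 ^ (8 * t0 * n)) {c : ℕ} (hc : 1 ≤ c) : ∃ C : ℝ≥0, 0 < C ∧
    ∀ b : Sph n → ℂ, BM b → (∀ x, ‖b x‖ ≤ 1) → ∀ t m, m < GG n ^ t →
      ∫⁻ x in dI (GG n) t m, ∑' j, lvl (ac T t0 c b) (t + j) x ^ 2 ≤
        (C : ℝ≥0∞) ^ 2 * (((GG n : ℕ) : ℝ≥0∞) ^ t)⁻¹ := by
  obtain ⟨C1, _, h1⟩ := ac_le T t0 h0 hc
  obtain ⟨C2, h2⟩ := T.carleson_cell
  set K : ℝ≥0 := (kap0 T t0)⁻¹ * (C1 ^ 2 * (C2 * Real.toNNReal (1 + 2 * T.c2))) with hK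
  refine ⟨K + 1, by positivity, fun b hb hb1 t m hm => ?_⟩
  have hKle : (K : ℝ≥0∞) ≤ ((K + 1 : ℝ≥0) : ℝ≥0∞) ^ 2 := by
    rw [← ENNReal.coe_pow, ENNReal.coe_le_coe]
    nlinarith [zero_le (a := K)]
  refine le_trans ?_ (mul_le_mul_left hKle _)
  rw [hK, ENNReal.coe_mul, mul_assoc]
  apply enn_le_of_mul kap0_pos
  refine le_trans (CE h0 (ac T t0 c b) (fun t x => C1 * pst (8 * (t + t0) + c)
    (fun w : Sph n => VV (8 * (t + t0) + c) b w) (T.Ψ x))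
    (fun t => ((measurable_pst _ _).comp T.Ψ_meas).const_mul _) (h1 b hb) t m hm) ?_
  have h3 : ∀ x : ℝ, ∑' j, (C1 * pst (8 * (t + j + t0) + c)
      (fun w : Sph n => VV (8 * (t + j + t0) + c) b w) (T.Ψ x)) ^ 2 ≤
      (C1 : ℝ≥0∞) ^ 2 * ∑' i, pst (8 * t + i) (fun w : Sph n => VV (8 * t + i) b w) (T.Ψ x) ^ 2 := by
    intro x
    rw [← ENNReal.tsum_mul_left]
    refine le_trans (le_of_eq ?_) (ENNReal.tsum_comp_le_tsum_of_injective (level_inj t0 c)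
      (fun i => (C1 : ℝ≥0∞) ^ 2 * pst (8 * t + i) (fun w : Sph n => VV (8 * t + i) b w)
        (T.Ψ x) ^ 2))
    congr 1
    funext j
    rw [mul_pow, show 8 * (t + j + t0) + c = 8 * t + (8 * (j + t0) + c) by ring]
  refine le_trans (lintegral_mono fun x => h3 x) ?_
  rw [lintegral_const_mul' _ _ (by finiteness)]
  have h4 := cover (T := T) hm (fun x => ∑' i, pst (8 * t + i)
    (fun w : Sph n => VV (8 * t + i) b w) (T.Ψ x) ^ 2) C2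
    (fun v hv => h2 b hb hb1 t (8 * t) le_rfl (by omega) v hv)
  refine le_trans (mul_le_mul_right h4 _) ?_
  rw [ENNReal.coe_mul, ENNReal.coe_mul, ENNReal.coe_pow]
  apply le_of_eq
  have e : ((Real.toNNReal (1 + 2 * T.c2) : ℝ≥0) : ℝ≥0∞) = ENNReal.ofReal (1 + 2 * T.c2) := rfl
  rw [e]
  ring

end

end Pool.Agent.MP28b1a7.FrB
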