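import Pool.Agent.Lib.MP_28b1a7_an.FB3

/-!
Second frame, part 4: the Gram matrix is close to the identity.
-/

namespace Pool.Agent.MP28b1a7.FrB

open MeasureTheory Set Filter Topology
open scoped InnerProductSpace ENNReal NNReal

section
variable {n : ℕ} [NeZero n] {T : TreeData n} {t0 : ℕ}

variable (T t0) in
/-- averaging kernels on the interval -/
noncomputable def k3 (t : ℕ) (x y : ℝ) : ℝ≥0∞ := tk n (8 * (t + t0)) (T.Ψ x) (T.Ψ y)

variable (T t0) in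
lemma k3_KF : ∃ C : ℝ≥0, KF mu01 (k3 T t0) C := by
  obtain ⟨C, hC⟩ := tk_KF n
  have hm : ∀ t : ℕ, Measurable fun p : ℝ × ℝ => tk n (8 * (t + t0)) (T.Ψ p.1) (T.Ψ p.2) := by
    intro t
    have h : Measurable fun p : ℝ × ℝ => (T.Ψ p.1, T.Ψ p.2) :=
      (T.Ψ_meas.comp measurable_fst).prodMk (T.Ψ_meas.comp measurable_snd)
    have hm1 := hC.meas (8 * (t + t0))
    generalize tk n (8 * (t + t0)) = f at hm1 ⊢
    exact hm1.comp h
  have hs : ∀ (t : ℕ) (x y : ℝ), tk n (8 * (t + t0)) (T.Ψ x) (T.Ψ y) =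
      tk n (8 * (t + t0)) (T.Ψ y) (T.Ψ x) := fun t x y => hC.symm _ _ _
  have hi : ∀ (t : ℕ) (x : ℝ), ∫⁻ y, tk n (8 * (t + t0)) (T.Ψ x) (T.Ψ y) ∂mu01 ≤ C := by
    intro t x
    have h := T.lintegral_Ψ (F := fun y => tk n (8 * (t + t0)) (T.Ψ x) y)
      (meas_k_left hC.meas _ _)
    exact le_trans (le_of_eq h) (hC.int_le _ _)
  have hcomp : ∀ (s t : ℕ), s ≤ t → ∀ x z : ℝ, ∫⁻ y, tk n (8 * (s + t0)) (T.Ψ x) (T.Ψ y) *
      tk n (8 * (t + t0)) (T.Ψ y) (T.Ψ z) ∂mu01 ≤ C * tk n (8 * (s + t0)) (T.Ψ x) (T.Ψ z) := by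
    intro s t hst x z
    have hmm : Measurable fun y => tk n (8 * (s + t0)) (T.Ψ x) y *
        tk n (8 * (t + t0)) y (T.Ψ z) := by
      have h1 : Measurable fun y => tk n (8 * (t + t0)) y (T.Ψ z) := by
        have h2 : (fun y => tk n (8 * (t + t0)) y (T.Ψ z)) =
            fun y => tk n (8 * (t + t0)) (T.Ψ z) y := by
          funext y; exact hC.symm _ _ _
        rw [h2]
        exact meas_k_left hC.meas _ _
      exact (meas_k_left hC.meas _ _).mul h1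
    have h := T.lintegral_Ψ hmm
    exact le_trans (le_of_eq h) (hC.comp_le _ _ (by omega) _ _)
  refine ⟨C, ?_⟩
  constructor
  · exact hC.one_le
  · intro t
    have e : Function.uncurry (k3 T t0 t) =
        fun p : ℝ × ℝ => tk n (8 * (t + t0)) (T.Ψ p.1) (T.Ψ p.2) := by
      funext p
      rfl
    rw [e]
    exact hm t
  · intro t x y
    unfold k3
    exact hs t x y
  · intro t x
    unfold k3
    exact hi t x
  · intro s t hst x z
    unfold k3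
    exact hcomp s t hst x z

variable (T) in
/-- comparison constant -/
noncomputable def Wc : ℝ≥0 := 4 * Real.toNNReal (1 + T.C3) ^ 2

lemma Wc_pos : 0 < Wc T := by
  unfold Wc
  have h : 0 < Real.toNNReal (1 + T.C3) := by
    rw [Real.toNNReal_pos]
    have := T.C3_pos
    linarith
  positivity

lemma wte_cells {t m m' : ℕ} (hm : m < GG n ^ t) (hm' : m' < GG n ^ t) {x y : ℝ}
    (hx : x ∈ Ec T t0 t m) (hy : y ∈ Ec T t0 t m') :
    wte (8 * (t + t0)) (T.Ψ x) (T.Ψ y) ≤ Wc T * wte (8 * (t + t0)) (vt T t0 t m) (vt T t0 t m') := by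
  have h1 := wte_near (T := T) (t0 := t0) 0 hm hx
  have h2 := wte_near (T := T) (t0 := t0) 0 hm' hy
  rw [add_zero, pow_zero, one_mul] at h1 h2
  have h3 := wte_quasi (8 * (t + t0)) (T.Ψ x) (vt T t0 t m) (T.Ψ y)
  have h4 := wte_quasi (8 * (t + t0)) (vt T t0 t m) (vt T t0 t m') (T.Ψ y)
  rw [wte_comm _ (vt T t0 t m') (T.Ψ y)] at h4
  have e : (Wc T : ℝ≥0∞) = 4 * ENNReal.ofReal (1 + T.C3) ^ 2 := by
    unfold Wc; push_cast; rfl
  calc wte (8 * (t + t0)) (T.Ψ x) (T.Ψ y)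
      ≤ 2 * (ENNReal.ofReal (1 + T.C3) * (2 * (wte (8 * (t + t0)) (vt T t0 t m) (vt T t0 t m') *
          ENNReal.ofReal (1 + T.C3)))) := by
        refine le_trans h3 ?_
        gcongr
        refine le_trans h4 ?_
        gcongr
    _ = _ := by rw [e]; ring

variable (T t0) in
/-- discrete averages are controlled by the averaging kernels -/
lemma TKE (h0 : T.c2 ≤ 1 / 2 * 2 ^ (8 * t0 * n)) : ∃ C : ℝ≥0, ∀ (φ : ℕ → ℝ≥0∞) (t m : ℕ),
    m < GG n ^ t → ∀ x ∈ Ec T t0 t m,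
      ∑ m' ∈ Finset.range (GG n ^ t),
        φ m' * (wte (8 * (t + t0)) (vt T t0 t m) (vt T t0 t m') ^ (2 * n + 2))⁻¹ ≤
      C * TK mu01 (k3 T t0) t (fun y => φ (mm (GG n) t y)) x := by
  refine ⟨(kap0 T t0)⁻¹ * Wc T ^ (2 * n + 2), fun φ t m hm x hx => ?_⟩
  rw [ENNReal.coe_mul, mul_assoc]
  apply enn_le_of_mul kap0_pos
  unfold TK
  rw [← lintegral_const_mul' _ _ (by finiteness), ← sum_dI (n := n) t, Finset.mul_sum]
  apply Finset.sum_le_sum
  intro m' hm'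
  rw [Finset.mem_range] at hm'
  set w := wte (8 * (t + t0)) (vt T t0 t m) (vt T t0 t m') with hw
  have hG := GG_enn_ne_zero n t
  have hG' := GG_enn_ne_top n t
  calc (kap0 T t0 : ℝ≥0∞) * (φ m' * (w ^ (2 * n + 2))⁻¹)
      = ((kap0 T t0 : ℝ≥0∞) * (((GG n : ℕ) : ℝ≥0∞) ^ t)⁻¹) *
          (((GG n : ℕ) : ℝ≥0∞) ^ t * (φ m' * (w ^ (2 * n + 2))⁻¹)) := by
        rw [mul_assoc, ← mul_assoc (((GG n : ℕ) : ℝ≥0∞) ^ t)⁻¹, ENNReal.inv_mul_cancel hG hG',
          one_mul]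
    _ ≤ volume (Ec T t0 t m') * (((GG n : ℕ) : ℝ≥0∞) ^ t * (φ m' * (w ^ (2 * n + 2))⁻¹)) :=
        mul_le_mul_left (Ec_vol_ge hm') _
    _ = ∫⁻ y in Ec T t0 t m', ((GG n : ℕ) : ℝ≥0∞) ^ t * (φ m' * (w ^ (2 * n + 2))⁻¹) := by
        rw [setLIntegral_const, mul_comm]
    _ ≤ ∫⁻ y in Ec T t0 t m', ((Wc T ^ (2 * n + 2) : ℝ≥0) : ℝ≥0∞) *
          (k3 T t0 t x y * φ (mm (GG n) t y)) := by
        apply setLIntegral_mono' (measurableSet_Ec T t0 t m')
        intro y hy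
        rw [mm_of_mem_Ec h0 hm' hy]
        unfold k3
        rw [tk_eq_kN]
        unfold kN
        set b := wte (8 * (t + t0)) (T.Ψ x) (T.Ψ y) with hb
        have hbw : b ≤ Wc T * w := wte_cells hm hm' hx hy
        have h1 : (w ^ (2 * n + 2))⁻¹ ≤
            ((Wc T ^ (2 * n + 2) : ℝ≥0) : ℝ≥0∞) * (b ^ (2 * n + 2))⁻¹ := by
          have hWne : ((Wc T ^ (2 * n + 2) : ℝ≥0) : ℝ≥0∞) ≠ 0 := by
            rw [ne_eq, ENNReal.coe_eq_zero]
            exact (pow_pos Wc_pos _).ne'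
          have h2 : (((Wc T ^ (2 * n + 2) : ℝ≥0) : ℝ≥0∞) * w ^ (2 * n + 2))⁻¹ ≤
              (b ^ (2 * n + 2))⁻¹ := by
            rw [ENNReal.inv_le_inv]
            calc b ^ (2 * n + 2) ≤ (Wc T * w) ^ (2 * n + 2) := by gcongr
              _ = _ := by rw [mul_pow, ENNReal.coe_pow]
          calc (w ^ (2 * n + 2))⁻¹ = ((Wc T ^ (2 * n + 2) : ℝ≥0) : ℝ≥0∞) *
              (((Wc T ^ (2 * n + 2) : ℝ≥0) : ℝ≥0∞) * w ^ (2 * n + 2))⁻¹ := by
                rw [ENNReal.mul_inv (Or.inl hWne) (Or.inl ENNReal.coe_ne_top), ← mul_assoc,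
                  ENNReal.mul_inv_cancel hWne ENNReal.coe_ne_top, one_mul]
            _ ≤ _ := by gcongr
        have h3 : ((GG n : ℕ) : ℝ≥0∞) ^ t ≤ 2 ^ (8 * (t + t0) * n) := by
          rw [GG_enn, two_pow_enn, GG_pow]
          apply ENNReal.ofReal_le_ofReal
          apply pow_le_pow_right₀ (by norm_num)
          apply Nat.mul_le_mul_right
          omega
        calc ((GG n : ℕ) : ℝ≥0∞) ^ t * (φ m' * (w ^ (2 * n + 2))⁻¹)
            ≤ 2 ^ (8 * (t + t0) * n) * (φ m' *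
              (((Wc T ^ (2 * n + 2) : ℝ≥0) : ℝ≥0∞) * (b ^ (2 * n + 2))⁻¹)) := by gcongr
          _ = _ := by rw [ENNReal.div_eq_inv_mul]; ring
    _ ≤ _ := lintegral_mono_set (Ec_sub h0 hm')

omit [NeZero n] in
lemma LL_two_thirds (n : ℕ) : ((LL n : ℕ) : ℝ) * (2 / 3) = ((2 * n + 2 : ℕ) : ℝ) := by
  unfold LL
  push_cast
  ring

omit [NeZero n] in
lemma sum_rpow_le {ι : Type*} (s : Finset ι) (f : ι → ℝ≥0∞) {p : ℝ} (hp : 0 < p) (hp1 : p ≤ 1) :
    (∑ i ∈ s, f i) ^ p ≤ ∑ i ∈ s, f i ^ p := by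
  classical
  induction s using Finset.induction_on with
  | empty => simp [ENNReal.zero_rpow_of_pos hp]
  | insert a s ha ih =>
    rw [Finset.sum_insert ha, Finset.sum_insert ha]
    exact le_trans (ENNReal.rpow_add_le_add_rpow _ _ hp.le hp1) (by gcongr)

variable (T t0) in
/-- node functions -/
noncomputable def psn (c : ℕ) (i : Idx (GG n)) : Sph n → ℂ :=
  psi (8 * (i.1.1 + t0) + c) (vt T t0 i.1.1 i.1.2)

variable (T t0) in
/-- the error of the Gram matrix applied to a finitely supported sequence -/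
noncomputable def ge (c : ℕ) (a : Idx (GG n) →₀ ℂ) (i : Idx (GG n)) : ℂ :=
  (∑ i' ∈ a.support, a i' * ip (psn T t0 c i') (psn T t0 c i)) - a i

variable (n) in
/-- decay of the Gram matrix relative to the coarser scale -/
lemma gram_decay : ∃ D : ℝ≥0, ∀ (T : TreeData n) (t0 c : ℕ),
    T.c2 ≤ 1 / 2 * 2 ^ (8 * t0 * n) → 1 ≤ c → ∀ t m m', m < GG n ^ t → m' < GG n ^ t → m ≠ m' →
      ‖ip (psi (8 * (t + t0) + c) (vt T t0 t m')) (psi (8 * (t + t0) + c) (vt T t0 t m))‖ₑ ≤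
        D * (2 ^ c)⁻¹ * (wte (8 * (t + t0)) (vt T t0 t m) (vt T t0 t m') ^ LL n)⁻¹ := by
  obtain ⟨C, hC⟩ := ip_psi_decay n
  refine ⟨2 * C, fun T t0 c h0 hc t m m' hm hm' hne => ?_⟩
  have h1 := hC (8 * (t + t0) + c) (by omega) (vt T t0 t m) (vt T t0 t m')
  set v := vt T t0 t m with hv
  set v' := vt T t0 t m' with hv'
  set q := ‖ip (psi (8 * (t + t0) + c) v') (psi (8 * (t + t0) + c) v)‖ₑ with hq
  have hvv : v ≠ v' := vt_ne h0 hm hm' hne
  have hsep := T.sep (t + t0) v (vt_mem T t0 hm) v' (vt_mem T t0 hm') hvv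
  rw [div_le_iff₀ (by positivity)] at hsep
  -- comparison of the weights
  have h2 : (2 : ℝ≥0∞) ^ c * wte (8 * (t + t0)) v v' ≤ 2 * wte (8 * (t + t0) + c) v v' := by
    unfold wte wt
    have e2 : (2 : ℝ≥0∞) = ENNReal.ofReal 2 := by norm_num
    rw [two_pow_enn, e2]
    rw [← ENNReal.ofReal_mul (by positivity), ← ENNReal.ofReal_mul (by norm_num)]
    apply ENNReal.ofReal_le_ofReal
    rw [pow_add]
    have hp : (0 : ℝ) < 2 ^ c := by positivity
    nlinarith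
  have hL : 1 ≤ LL n := by unfold LL; omega
  have h3 : (2 : ℝ≥0∞) ^ c * wte (8 * (t + t0)) v v' ^ LL n ≤
      2 * wte (8 * (t + t0) + c) v v' ^ LL n := by
    obtain ⟨c', rfl⟩ : ∃ c', c = c' + 1 := ⟨c - 1, by omega⟩
    have h4 : (2 : ℝ≥0∞) ^ c' * wte (8 * (t + t0)) v v' ≤ wte (8 * (t + t0) + (c' + 1)) v v' := by
      rw [pow_succ'] at h2
      rw [mul_assoc] at h2
      exact (ENNReal.mul_le_mul_iff_right (by norm_num) (by norm_num)).mp h2
    calc (2 : ℝ≥0∞) ^ (c' + 1) * wte (8 * (t + t0)) v v' ^ LL n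
        = 2 * (2 ^ c' * wte (8 * (t + t0)) v v' ^ LL n) := by rw [pow_succ']; ring
      _ ≤ 2 * ((2 ^ c') ^ LL n * wte (8 * (t + t0)) v v' ^ LL n) := by
          have h6 : (2 : ℝ≥0∞) ^ c' ≤ ((2 : ℝ≥0∞) ^ c') ^ LL n :=
            le_self_pow₀ (one_le_pow₀ (by norm_num)) (by omega)
          gcongr
      _ = 2 * (2 ^ c' * wte (8 * (t + t0)) v v') ^ LL n := by rw [mul_pow]
      _ ≤ _ := by gcongr
  have h5 : q * (2 ^ c * wte (8 * (t + t0)) v v' ^ LL n) ≤ 2 * C := by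
    calc q * (2 ^ c * wte (8 * (t + t0)) v v' ^ LL n)
        ≤ q * (2 * wte (8 * (t + t0) + c) v v' ^ LL n) := by gcongr
      _ = 2 * (q * wte (8 * (t + t0) + c) v v' ^ LL n) := by ring
      _ ≤ _ := by gcongr
  have hne0 : (2 : ℝ≥0∞) ^ c * wte (8 * (t + t0)) v v' ^ LL n ≠ 0 :=
    mul_ne_zero (by positivity) (pow_ne_zero _ (wte_ne_zero _ _ _))
  have hnet : (2 : ℝ≥0∞) ^ c * wte (8 * (t + t0)) v v' ^ LL n ≠ ∞ :=
    ENNReal.mul_ne_top (by finiteness) (ENNReal.pow_ne_top (wte_ne_top _ _ _))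
  rw [mul_assoc, ← ENNReal.mul_inv (Or.inl (by positivity)) (Or.inl (by finiteness)),
    ← div_eq_mul_inv, ENNReal.le_div_iff_mul_le (Or.inl hne0) (Or.inl hnet)]
  exact_mod_cast h5

end

end Pool.Agent.MP28b1a7.FrB
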