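import Pool.Agent.Lib.MP_28b1a7_an.FB4

/-!
Second frame, part 5: norms of the error of the Gram matrix.
-/

namespace Pool.Agent.MP28b1a7.FrB

open MeasureTheory Set Filter Topology
open scoped InnerProductSpace ENNReal NNReal

section
variable {n : ℕ} [NeZero n] {T : TreeData n} {t0 : ℕ}

lemma ip_psn_diff {c : ℕ} {i i' : Idx (GG n)} (h : i.1.1 ≠ i'.1.1) :
    ip (psn T t0 c i') (psn T t0 c i) = 0 := by
  unfold psn
  apply ip_psi_diff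
  omega

lemma ip_psn_self {c : ℕ} (hc : 1 ≤ c) (i : Idx (GG n)) :
    ip (psn T t0 c i) (psn T t0 c i) = 1 := by
  unfold psn
  exact ip_psi_self (by omega) _

omit [NeZero n] in
lemma Idx_ext {i i' : Idx (GG n)} (h1 : i.1.1 = i'.1.1) (h2 : i.1.2 = i'.1.2) : i = i' :=
  Subtype.ext (Prod.ext h1 h2)

omit [NeZero n] in
lemma co_idx (a : Idx (GG n) → ℂ) (i : Idx (GG n)) : co a i.1.1 i.1.2 = a i := by
  unfold co
  rw [dif_pos i.2]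
  rfl

lemma ge_eq {c : ℕ} (hc : 1 ≤ c) (a : Idx (GG n) →₀ ℂ) (i : Idx (GG n)) :
    ge T t0 c a i = ∑ i' ∈ (a.support.erase i).filter (fun i' => i'.1.1 = i.1.1),
      a i' * ip (psn T t0 c i') (psn T t0 c i) := by
  unfold ge
  have h1 : ∑ i' ∈ a.support, a i' * ip (psn T t0 c i') (psn T t0 c i) =
      (∑ i' ∈ a.support.erase i, a i' * ip (psn T t0 c i') (psn T t0 c i)) + a i := by
    by_cases hi : i ∈ a.support
    · rw [← Finset.sum_erase_add _ _ hi, ip_psn_self hc, mul_one]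
    · rw [Finset.erase_eq_of_notMem hi, Finsupp.notMem_support_iff.mp hi, add_zero]
  rw [h1, add_sub_cancel_right, Finset.sum_filter]
  apply Finset.sum_congr rfl
  intro i' _
  split_ifs with h
  · rfl
  · rw [ip_psn_diff (Ne.symm h), mul_zero]

variable (n) in
lemma ge_le : ∃ D : ℝ≥0, ∀ (T : TreeData n) (t0 c : ℕ),
    T.c2 ≤ 1 / 2 * 2 ^ (8 * t0 * n) → 1 ≤ c → ∀ (a : Idx (GG n) →₀ ℂ) t m, m < GG n ^ t →
      ‖co (ge T t0 c a) t m‖ₑ ≤ D * (2 ^ c)⁻¹ * ∑ m' ∈ Finset.range (GG n ^ t), ‖co a t m'‖ₑ *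
        (wte (8 * (t + t0)) (vt T t0 t m) (vt T t0 t m') ^ LL n)⁻¹ := by
  obtain ⟨D, hD⟩ := gram_decay n
  refine ⟨D, fun T t0 c h0 hc a t m hm => ?_⟩
  set i : Idx (GG n) := ⟨(t, m), hm⟩ with hi
  have e1 : co (ge T t0 c a) t m = ge T t0 c a i := by
    unfold co
    rw [dif_pos hm]
  rw [e1, ge_eq hc]
  refine le_trans (enorm_sum_le _ _) ?_
  set S := (a.support.erase i).filter (fun i' => i'.1.1 = i.1.1) with hS
  have hSt : ∀ i' ∈ S, i'.1.1 = t ∧ i'.1.2 ≠ m := by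
    intro i' hi'
    obtain ⟨h1, h2⟩ := Finset.mem_filter.mp hi'
    refine ⟨h2, fun h3 => ?_⟩
    exact (Finset.mem_erase.mp h1).1 (Idx_ext h2 h3)
  have hSlt : ∀ i' ∈ S, i'.1.2 < GG n ^ t := by
    intro i' hi'
    have h1 := i'.2
    rw [(hSt i' hi').1] at h1
    exact h1
  have hterm : ∀ i' ∈ S, ‖a i' * ip (psn T t0 c i') (psn T t0 c i)‖ₑ ≤
      (fun m' => D * (2 ^ c)⁻¹ * (‖co a t m'‖ₑ *
        (wte (8 * (t + t0)) (vt T t0 t m) (vt T t0 t m') ^ LL n)⁻¹)) i'.1.2 := by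
    intro i' hi'
    obtain ⟨h1, h2⟩ := hSt i' hi'
    have h3 := hD T t0 c h0 hc t m i'.1.2 hm (hSlt i' hi') (Ne.symm h2)
    have e2 : psn T t0 c i' = psi (8 * (t + t0) + c) (vt T t0 t i'.1.2) := by
      unfold psn; rw [h1]
    have e3 : psn T t0 c i = psi (8 * (t + t0) + c) (vt T t0 t m) := rfl
    have e4 : co a t i'.1.2 = a i' := by
      rw [← co_idx a i', h1]
    rw [enorm_mul, e2, e3]
    dsimp only
    rw [e4]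
    calc _ ≤ ‖a i'‖ₑ * (D * (2 ^ c)⁻¹ *
        (wte (8 * (t + t0)) (vt T t0 t m) (vt T t0 t i'.1.2) ^ LL n)⁻¹) := by gcongr
      _ = _ := by ring
  refine le_trans (Finset.sum_le_sum hterm) ?_
  rw [← Finset.sum_image (g := fun i' : Idx (GG n) => i'.1.2) (s := S)
    (f := fun m' => D * (2 ^ c)⁻¹ * (‖co a t m'‖ₑ *
        (wte (8 * (t + t0)) (vt T t0 t m) (vt T t0 t m') ^ LL n)⁻¹))]
  · rw [Finset.mul_sum]
    apply Finset.sum_le_sum_of_subset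
    intro m' hm'
    obtain ⟨i', hi', rfl⟩ := Finset.mem_image.mp hm'
    exact Finset.mem_range.mpr (hSlt i' hi')
  · intro x hx y hy hxy
    exact Idx_ext ((hSt x hx).1.trans (hSt y hy).1.symm) hxy

omit [NeZero n] in
lemma wte_pow_le (j : ℕ) (x y : Sph n) :
    (wte j x y ^ LL n)⁻¹ ≤ (wte j x y ^ (2 * n + 2))⁻¹ := by
  rw [ENNReal.inv_le_inv]
  apply pow_le_pow_right₀ (one_le_wte j x y)
  unfold LL
  omega

omit [NeZero n] in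
lemma lvl_eq (a : Idx (GG n) → ℂ) (t : ℕ) : lvl a t =
    fun y => (fun m => (((GG n : ℕ) : ℝ≥0∞) ^ t) ^ (1 / 2 : ℝ) * ‖co a t m‖ₑ) (mm (GG n) t y) := rfl

/-- pointwise bounds of the error, linear version -/
lemma ge_pt1 (h0 : T.c2 ≤ 1 / 2 * 2 ^ (8 * t0 * n)) : ∃ C : ℝ≥0, ∀ c, 1 ≤ c →
    ∀ (a : Idx (GG n) →₀ ℂ) t m, m < GG n ^ t → ∀ x ∈ Ec T t0 t m,
      lvl (ge T t0 c a) t x ≤ C * (2 ^ c)⁻¹ * TK mu01 (k3 T t0) t (lvl a t) x := by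
  obtain ⟨D, hD⟩ := ge_le n
  obtain ⟨C, hC⟩ := TKE T t0 h0
  refine ⟨D * C, fun c hc a t m hm x hx => ?_⟩
  have h1 := hD T t0 c h0 hc a t m hm
  have h2 := hC (fun m => (((GG n : ℕ) : ℝ≥0∞) ^ t) ^ (1 / 2 : ℝ) * ‖co a t m‖ₑ) t m hm x hx
  rw [← lvl_eq] at h2
  rw [lvl_of_mem h0 hm hx]
  set g := (((GG n : ℕ) : ℝ≥0∞) ^ t) ^ (1 / 2 : ℝ) with hg
  calc g * ‖co (ge T t0 c a) t m‖ₑ
      ≤ g * (D * (2 ^ c)⁻¹ * ∑ m' ∈ Finset.range (GG n ^ t), ‖co a t m'‖ₑ *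
        (wte (8 * (t + t0)) (vt T t0 t m) (vt T t0 t m') ^ (2 * n + 2))⁻¹) := by
        gcongr
        refine le_trans h1 (mul_le_mul_right (Finset.sum_le_sum fun m' _ => ?_) _)
        exact mul_le_mul_right (wte_pow_le _ _ _) _
    _ = D * (2 ^ c)⁻¹ * ∑ m' ∈ Finset.range (GG n ^ t), g * ‖co a t m'‖ₑ *
        (wte (8 * (t + t0)) (vt T t0 t m) (vt T t0 t m') ^ (2 * n + 2))⁻¹ := by
        rw [mul_comm g, mul_assoc, Finset.sum_mul]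
        congr 1
        apply Finset.sum_congr rfl
        intro m' _
        ring
    _ ≤ D * (2 ^ c)⁻¹ * (C * TK mu01 (k3 T t0) t (lvl a t) x) := by gcongr
    _ = _ := by rw [ENNReal.coe_mul]; ring

/-- pointwise bounds of the error, version with the power `2/3` -/
lemma ge_pt2 (h0 : T.c2 ≤ 1 / 2 * 2 ^ (8 * t0 * n)) : ∃ C : ℝ≥0, ∀ c, 1 ≤ c →
    ∀ (a : Idx (GG n) →₀ ℂ) t m, m < GG n ^ t → ∀ x ∈ Ec T t0 t m,
      lvl (ge T t0 c a) t x ≤ C * (2 ^ c)⁻¹ *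
        (TK mu01 (k3 T t0) t (fun y => lvl a t y ^ (2 / 3 : ℝ)) x) ^ (3 / 2 : ℝ) := by
  obtain ⟨D, hD⟩ := ge_le n
  obtain ⟨C, hC⟩ := TKE T t0 h0
  refine ⟨D * C ^ (3 / 2 : ℝ), fun c hc a t m hm x hx => ?_⟩
  have h1 := hD T t0 c h0 hc a t m hm
  set g := (((GG n : ℕ) : ℝ≥0∞) ^ t) ^ (1 / 2 : ℝ) with hg
  have h2 := hC (fun m => (g * ‖co a t m‖ₑ) ^ (2 / 3 : ℝ)) t m hm x hx
  rw [lvl_of_mem h0 hm hx]
  have h3 : (∑ m' ∈ Finset.range (GG n ^ t), g * ‖co a t m'‖ₑ *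
      (wte (8 * (t + t0)) (vt T t0 t m) (vt T t0 t m') ^ LL n)⁻¹) ^ (2 / 3 : ℝ) ≤
      C * TK mu01 (k3 T t0) t (fun y => lvl a t y ^ (2 / 3 : ℝ)) x := by
    refine le_trans (sum_rpow_le _ _ (by norm_num) (by norm_num)) ?_
    refine le_trans (le_of_eq ?_) h2
    apply Finset.sum_congr rfl
    intro m' _
    rw [ENNReal.mul_rpow_of_nonneg _ _ (by norm_num)]
    congr 1
    rw [ENNReal.inv_rpow, ← ENNReal.rpow_natCast, ← ENNReal.rpow_mul, LL_two_thirds,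
      ENNReal.rpow_natCast]
  have h4 : ∑ m' ∈ Finset.range (GG n ^ t), g * ‖co a t m'‖ₑ *
      (wte (8 * (t + t0)) (vt T t0 t m) (vt T t0 t m') ^ LL n)⁻¹ ≤
      (C * TK mu01 (k3 T t0) t (fun y => lvl a t y ^ (2 / 3 : ℝ)) x) ^ (3 / 2 : ℝ) := by
    have h5 := ENNReal.rpow_le_rpow h3 (show (0 : ℝ) ≤ 3 / 2 by norm_num)
    rw [← ENNReal.rpow_mul] at h5
    norm_num at h5 ⊢
    exact h5
  calc g * ‖co (ge T t0 c a) t m‖ₑ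
      ≤ g * (D * (2 ^ c)⁻¹ * ∑ m' ∈ Finset.range (GG n ^ t), ‖co a t m'‖ₑ *
        (wte (8 * (t + t0)) (vt T t0 t m) (vt T t0 t m') ^ LL n)⁻¹) := by
        gcongr
    _ = D * (2 ^ c)⁻¹ * ∑ m' ∈ Finset.range (GG n ^ t), g * ‖co a t m'‖ₑ *
        (wte (8 * (t + t0)) (vt T t0 t m) (vt T t0 t m') ^ LL n)⁻¹ := by
        rw [mul_comm g, mul_assoc, Finset.sum_mul]
        congr 1
        apply Finset.sum_congr rfl
        intro m' _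
        ring
    _ ≤ D * (2 ^ c)⁻¹ *
        (C * TK mu01 (k3 T t0) t (fun y => lvl a t y ^ (2 / 3 : ℝ)) x) ^ (3 / 2 : ℝ) := by gcongr
    _ = _ := by
        rw [ENNReal.coe_mul, ENNReal.mul_rpow_of_nonneg _ _ (by norm_num),
          ENNReal.coe_rpow_of_nonneg _ (by norm_num)]
        ring

lemma sum_lvl_sq (a : Idx (GG n) → ℂ) : ∑' t, ∫⁻ x, lvl a t x ^ 2 ∂mu01 = n2 a := by
  rw [← tsum_co]
  congr 1
  funext t
  rw [← sum_dI (n := n) t, tsum_eq_sum (s := Finset.range (GG n ^ t))]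
  · apply Finset.sum_congr rfl
    intro m _
    have h2 : ∫⁻ x in dI (GG n) t m, lvl a t x ^ 2 =
        ∫⁻ x in dI (GG n) t m, ((GG n : ℕ) : ℝ≥0∞) ^ t * ‖co a t m‖ₑ ^ 2 := by
      apply setLIntegral_congr_fun (measurableSet_dI _ _ _)
      intro x hx
      exact lvl_sq a t _ ((mem_dI (GG_two_le n) _ _ (dI_nonneg hx)).mp hx)
    rw [h2, setLIntegral_const, vol_dI, mul_comm, ← mul_assoc,
      ENNReal.inv_mul_cancel (GG_enn_ne_zero n _) (GG_enn_ne_top n _), one_mul]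
  · intro m hm
    rw [Finset.mem_range] at hm
    rw [co_eq_zero a hm]
    simp

/-- the error is small in `l^2` -/
lemma ge_L2 (h0 : T.c2 ≤ 1 / 2 * 2 ^ (8 * t0 * n)) : ∃ C : ℝ≥0, ∀ c, 1 ≤ c →
    ∀ (a : Idx (GG n) →₀ ℂ), n2 (ge T t0 c a) ≤ (C * (2 ^ c)⁻¹) ^ 2 * n2 a := by
  obtain ⟨C1, h1⟩ := ge_pt1 (T := T) (t0 := t0) h0
  obtain ⟨C2, h2⟩ := k3_KF T t0
  refine ⟨((kap0 T t0)⁻¹ + 1) * (C1 * C2), fun c hc a => ?_⟩
  have h3 : ((kap0 T t0 : ℝ≥0) : ℝ≥0∞) * n2 (ge T t0 c a) ≤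
      (C1 * C2 * (2 ^ c)⁻¹) ^ 2 * n2 a := by
    refine le_trans (L2E h0 (ge T t0 c a) _ (fun t m hm x hx => h1 c hc a t m hm x hx)) ?_
    rw [← sum_lvl_sq (n := n) a, ← ENNReal.tsum_mul_left]
    apply ENNReal.tsum_le_tsum
    intro t
    have h4 := TK_L2 h2 t (measurable_lvl (G := GG n) a t)
    calc ∫⁻ x, (C1 * (2 ^ c)⁻¹ * TK mu01 (k3 T t0) t (lvl a t) x) ^ 2 ∂mu01
        = (C1 * (2 ^ c)⁻¹) ^ 2 * ∫⁻ x, (TK mu01 (k3 T t0) t (lvl a t) x) ^ 2 ∂mu01 := by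
          rw [← lintegral_const_mul' _ _ (by finiteness)]
          congr 1
          funext x
          rw [mul_pow]
      _ ≤ (C1 * (2 ^ c)⁻¹) ^ 2 * (C2 ^ 2 * ∫⁻ x, lvl a t x ^ 2 ∂mu01) := by gcongr
      _ = _ := by ring
  refine le_trans (enn_le_of_mul kap0_pos h3) ?_
  have h5 : (((kap0 T t0)⁻¹ : ℝ≥0) : ℝ≥0∞) ≤ (((kap0 T t0)⁻¹ + 1 : ℝ≥0) : ℝ≥0∞) ^ 2 := by
    rw [← ENNReal.coe_pow, ENNReal.coe_le_coe]
    nlinarith [zero_le (a := (kap0 T t0)⁻¹)]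
  calc (((kap0 T t0)⁻¹ : ℝ≥0) : ℝ≥0∞) * ((C1 * C2 * (2 ^ c)⁻¹) ^ 2 * n2 a)
      ≤ (((kap0 T t0)⁻¹ + 1 : ℝ≥0) : ℝ≥0∞) ^ 2 * ((C1 * C2 * (2 ^ c)⁻¹) ^ 2 * n2 a) := by gcongr
    _ = _ := by rw [ENNReal.coe_mul, ENNReal.coe_mul]; ring

/-- the error is small in the square function norm -/
lemma ge_ND (h0 : T.c2 ≤ 1 / 2 * 2 ^ (8 * t0 * n)) : ∃ C : ℝ≥0, ∀ c, 1 ≤ c →
    ∀ (a : Idx (GG n) →₀ ℂ), ND (ge T t0 c a) ≤ C * (2 ^ c)⁻¹ * ND a := by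
  obtain ⟨C1, h1⟩ := ge_pt2 (T := T) (t0 := t0) h0
  obtain ⟨C2, h2⟩ := k3_KF T t0
  obtain ⟨C3, h3⟩ := NDE T t0 h0
  refine ⟨C3 * (C1 * (2 * C2 ^ 2)), fun c hc a => ?_⟩
  have h4 := h3 (ge T t0 c a) (fun t x => C1 * (2 ^ c)⁻¹ *
        (TK mu01 (k3 T t0) t (fun y => lvl a t y ^ (2 / 3 : ℝ)) x) ^ (3 / 2 : ℝ))
        (fun t m hm x hx => h1 c hc a t m hm x hx)
  have h5 := FS_ineq h2 (fun t => measurable_lvl (G := GG n) a t)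
  have h6 : ∫⁻ x, sqf (fun t x => C1 * (2 ^ c)⁻¹ *
        (TK mu01 (k3 T t0) t (fun y => lvl a t y ^ (2 / 3 : ℝ)) x) ^ (3 / 2 : ℝ)) x ∂mu01 =
      C1 * (2 ^ c)⁻¹ * ∫⁻ x, (∑' j, (TK mu01 (k3 T t0) j
        (fun y => lvl a j y ^ (2 / 3 : ℝ)) x) ^ 3) ^ (1 / 2 : ℝ) ∂mu01 := by
    rw [← lintegral_const_mul' _ _ (by finiteness)]
    congr 1
    funext x
    rw [sqf_const_mul (C1 * (2 ^ c)⁻¹ : ℝ≥0∞) (fun t x =>
      (TK mu01 (k3 T t0) t (fun y => lvl a t y ^ (2 / 3 : ℝ)) x) ^ (3 / 2 : ℝ)) x]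
    congr 1
    unfold sqf
    congr 2
    funext t
    rw [← ENNReal.rpow_natCast, ← ENNReal.rpow_mul, ← ENNReal.rpow_natCast]
    norm_num
  rw [h6] at h4
  have e : ND (a : Idx (GG n) → ℂ) = ∫⁻ x, sqf (lvl a) x ∂mu01 := rfl
  rw [e]
  calc ND (ge T t0 c a) ≤ _ := h4
    _ ≤ C3 * (C1 * (2 ^ c)⁻¹ * ((2 * C2 ^ 2 : ℝ≥0) * ∫⁻ x, sqf (lvl a) x ∂mu01)) := by gcongr
    _ = _ := by
        push_cast
        ring

end

end Pool.Agent.MP28b1a7.FrB
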