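import Mathlib

/-!
Maximal inequality by the `T T^*` method, and a vector-valued inequality of
Fefferman–Stein type, for abstract families of positive symmetric kernels.
-/

namespace Pool.Agent.MP28b1a7

open MeasureTheory ENNReal
open scoped NNReal

variable {X : Type*} [MeasurableSpace X]

/-- positive kernel operator -/
noncomputable def TK (μ : Measure X) (k : ℕ → X → X → ℝ≥0∞) (j : ℕ) (h : X → ℝ≥0∞) (x : X) :
    ℝ≥0∞ := ∫⁻ y, k j x y * h y ∂μ

/-- an admissible family of kernels -/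
structure KF (μ : Measure X) (k : ℕ → X → X → ℝ≥0∞) (C : ℝ≥0) : Prop where
  one_le : 1 ≤ C
  meas : ∀ j, Measurable (Function.uncurry (k j))
  symm : ∀ j x y, k j x y = k j y x
  int_le : ∀ j x, ∫⁻ y, k j x y ∂μ ≤ C
  comp_le : ∀ i j, i ≤ j → ∀ x z, ∫⁻ y, k i x y * k j y z ∂μ ≤ C * k i x z

variable {μ : Measure X} [SFinite μ] {k : ℕ → X → X → ℝ≥0∞} {C : ℝ≥0}

lemma meas_TK (hk : ∀ j, Measurable (Function.uncurry (k j))) (j : ℕ) {h : X → ℝ≥0∞}
    (hh : Measurable h) : Measurable (TK μ k j h) := by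
  unfold TK
  exact Measurable.lintegral_prod_right' (f := fun p : X × X => k j p.1 p.2 * h p.2)
    ((hk j).mul (hh.comp measurable_snd))

lemma meas_k_left (hk : ∀ j, Measurable (Function.uncurry (k j))) (j : ℕ) (x : X) :
    Measurable fun y => k j x y :=
  (hk j).comp (measurable_const.prodMk measurable_id)

/-- symmetry of the bilinear form -/
lemma TK_symm (H : KF μ k C) (j : ℕ) {f g : X → ℝ≥0∞} (hf : Measurable f) (hg : Measurable g) :
    ∫⁻ x, f x * TK μ k j g x ∂μ = ∫⁻ x, TK μ k j f x * g x ∂μ := by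
  unfold TK
  have e1 : ∀ x, f x * ∫⁻ y, k j x y * g y ∂μ = ∫⁻ y, f x * (k j x y * g y) ∂μ := by
    intro x
    have hm : Measurable fun y => k j x y * g y := (meas_k_left H.meas j x).mul hg
    rw [lintegral_const_mul _ hm]
  have e2 : ∀ y, (∫⁻ x, k j y x * f x ∂μ) * g y = ∫⁻ x, f x * (k j x y * g y) ∂μ := by
    intro y
    have hm : Measurable fun x => k j y x * f x := (meas_k_left H.meas j y).mul hf
    rw [← lintegral_mul_const _ hm]
    refine lintegral_congr fun x => ?_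
    rw [H.symm j y x]; ring
  simp_rw [e1]
  rw [lintegral_lintegral_swap]
  · exact lintegral_congr fun y => (e2 y).symm
  · apply Measurable.aemeasurable
    have := H.meas j
    exact (hf.comp measurable_fst).mul (this.mul (hg.comp measurable_snd))

lemma TK_mono (j : ℕ) {f g : X → ℝ≥0∞} (h : ∀ x, f x ≤ g x) (x : X) :
    TK μ k j f x ≤ TK μ k j g x := by
  unfold TK
  exact lintegral_mono fun y => mul_le_mul_right (h y) _

lemma lintegral_TK_le (H : KF μ k C) (j : ℕ) {g : X → ℝ≥0∞} (hg : Measurable g) :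
    ∫⁻ x, TK μ k j g x ∂μ ≤ C * ∫⁻ x, g x ∂μ := by
  have e := TK_symm H j (f := fun _ => 1) measurable_const hg
  simp only [one_mul] at e
  rw [e, ← lintegral_const_mul _ hg]
  refine lintegral_mono fun x => ?_
  gcongr
  unfold TK
  simpa using H.int_le j x

/-- Cauchy–Schwarz -/
lemma CS {f g : X → ℝ≥0∞} (hf : Measurable f) (hg : Measurable g) :
    (∫⁻ x, f x * g x ∂μ) ^ 2 ≤ (∫⁻ x, f x ^ 2 ∂μ) * ∫⁻ x, g x ^ 2 ∂μ := by
  have h := lintegral_mul_norm_pow_le (μ := μ) (f := fun x => f x ^ 2) (g := fun x => g x ^ 2)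
    (hf.pow_const 2).aemeasurable (hg.pow_const 2).aemeasurable (p := 1 / 2) (q := 1 / 2)
    (by norm_num) (by norm_num) (by norm_num)
  have e : ∀ a : ℝ≥0∞, (a ^ 2) ^ (1 / 2 : ℝ) = a := by
    intro a
    rw [← ENNReal.rpow_natCast, ← ENNReal.rpow_mul]; norm_num
  have e' : ∀ a : ℝ≥0∞, (a ^ (1 / 2 : ℝ)) ^ 2 = a := by
    intro a
    rw [← ENNReal.rpow_natCast, ← ENNReal.rpow_mul]; norm_num
  simp only [e] at h
  calc (∫⁻ x, f x * g x ∂μ) ^ 2 ≤ ((∫⁻ x, f x ^ 2 ∂μ) ^ (1 / 2 : ℝ) *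
        (∫⁻ x, g x ^ 2 ∂μ) ^ (1 / 2 : ℝ)) ^ 2 := by gcongr
    _ = _ := by rw [mul_pow, e', e']

lemma TK_sq_le (H : KF μ k C) (j : ℕ) {g : X → ℝ≥0∞} (hg : Measurable g) (x : X) :
    (TK μ k j g x) ^ 2 ≤ C * TK μ k j (fun y => g y ^ 2) x := by
  unfold TK
  have hm := meas_k_left H.meas j x
  have h := lintegral_mul_norm_pow_le (μ := μ) (f := fun y => k j x y)
    (g := fun y => k j x y * g y ^ 2)
    hm.aemeasurable (hm.mul (hg.pow_const 2)).aemeasurable (p := 1 / 2) (q := 1 / 2)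
    (by norm_num) (by norm_num) (by norm_num)
  have e : ∀ a : ℝ≥0∞, (a ^ 2) ^ (1 / 2 : ℝ) = a := by
    intro a
    rw [← ENNReal.rpow_natCast, ← ENNReal.rpow_mul]; norm_num
  have e' : ∀ a : ℝ≥0∞, (a ^ (1 / 2 : ℝ)) ^ 2 = a := by
    intro a
    rw [← ENNReal.rpow_natCast, ← ENNReal.rpow_mul]; norm_num
  have e'' : ∀ a : ℝ≥0∞, a ^ (1 / 2 : ℝ) * a ^ (1 / 2 : ℝ) = a := by
    intro a
    have := e' a
    rwa [pow_two] at this
  have h2 : ∀ y, k j x y ^ (1 / 2 : ℝ) * (k j x y * g y ^ 2) ^ (1 / 2 : ℝ) = k j x y * g y := by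
    intro y
    rw [mul_rpow_of_nonneg _ _ (by norm_num), e, ← mul_assoc, e'']
  simp only [h2] at h
  calc (∫⁻ y, k j x y * g y ∂μ) ^ 2 ≤ ((∫⁻ y, k j x y ∂μ) ^ (1 / 2 : ℝ) *
        (∫⁻ y, k j x y * g y ^ 2 ∂μ) ^ (1 / 2 : ℝ)) ^ 2 := by gcongr
    _ = (∫⁻ y, k j x y ∂μ) * ∫⁻ y, k j x y * g y ^ 2 ∂μ := by rw [mul_pow, e', e']
    _ ≤ _ := by gcongr; exact H.int_le j x

lemma TK_L2 (H : KF μ k C) (j : ℕ) {g : X → ℝ≥0∞} (hg : Measurable g) :
    ∫⁻ x, (TK μ k j g x) ^ 2 ∂μ ≤ C ^ 2 * ∫⁻ x, g x ^ 2 ∂μ := by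
  calc ∫⁻ x, (TK μ k j g x) ^ 2 ∂μ ≤ ∫⁻ x, C * TK μ k j (fun y => g y ^ 2) x ∂μ :=
        lintegral_mono fun x => TK_sq_le H j hg x
    _ = C * ∫⁻ x, TK μ k j (fun y => g y ^ 2) x ∂μ :=
        lintegral_const_mul _ (meas_TK H.meas j (hg.pow_const 2))
    _ ≤ C * (C * ∫⁻ x, g x ^ 2 ∂μ) := by gcongr; exact lintegral_TK_le H j (hg.pow_const 2)
    _ = _ := by ring

/-- composition bound in bilinear form -/
lemma TK_comp_le (H : KF μ k C) {i j : ℕ} (hij : i ≤ j) {f g : X → ℝ≥0∞} (hf : Measurable f)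
    (hg : Measurable g) :
    ∫⁻ x, TK μ k i f x * TK μ k j g x ∂μ ≤ C * ∫⁻ x, f x * TK μ k i g x ∂μ := by
  have hm : Measurable fun x => f x * TK μ k i g x := hf.mul (meas_TK H.meas i hg)
  rw [← TK_symm H i hf (meas_TK H.meas j hg), ← lintegral_const_mul _ hm]
  refine lintegral_mono fun x => ?_
  have : TK μ k i (TK μ k j g) x ≤ C * TK μ k i g x := by
    unfold TK
    have e1 : ∀ y, k i x y * ∫⁻ z, k j y z * g z ∂μ = ∫⁻ z, k i x y * (k j y z * g z) ∂μ := by
      intro y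
      have hm : Measurable fun z => k j y z * g z := (meas_k_left H.meas j y).mul hg
      rw [lintegral_const_mul _ hm]
    simp_rw [e1]
    have hm : Measurable fun z => k i x z * g z := (meas_k_left H.meas i x).mul hg
    rw [lintegral_lintegral_swap]
    · rw [← lintegral_const_mul _ hm]
      refine lintegral_mono fun z => ?_
      calc ∫⁻ y, k i x y * (k j y z * g z) ∂μ = ∫⁻ y, (k i x y * k j y z) * g z ∂μ := by
            simp_rw [mul_assoc]
        _ = (∫⁻ y, k i x y * k j y z ∂μ) * g z := by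
            rw [lintegral_mul_const]
            refine (meas_k_left H.meas i x).mul ?_
            exact (H.meas j).comp (measurable_id.prodMk measurable_const)
        _ ≤ (C * k i x z) * g z := by gcongr; exact H.comp_le i j hij x z
        _ = _ := by ring
    · apply Measurable.aemeasurable
      exact ((meas_k_left H.meas i x).comp measurable_fst).mul
        ((H.meas j).mul (hg.comp measurable_snd))
  calc f x * TK μ k i (TK μ k j g) x ≤ f x * (C * TK μ k i g x) := by gcongr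
    _ = _ := by ring

/-- finite maximal function -/
noncomputable def MJ (μ : Measure X) (k : ℕ → X → X → ℝ≥0∞) (J : ℕ) (h : X → ℝ≥0∞) (x : X) :
    ℝ≥0∞ := (Finset.range J).sup fun j => TK μ k j h x

lemma meas_MJ (hk : ∀ j, Measurable (Function.uncurry (k j))) (J : ℕ) {h : X → ℝ≥0∞}
    (hh : Measurable h) : Measurable (MJ μ k J h) := by
  unfold MJ
  simp_rw [Finset.sup_eq_iSup]
  exact Measurable.iSup fun j => Measurable.iSup fun _ => meas_TK hk j hh

lemma MJ_step (H : KF μ k C) {J : ℕ} (hJ : 0 < J) {K : ℝ≥0}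
    (hK : ∀ h : X → ℝ≥0∞, Measurable h → ∫⁻ x, MJ μ k J h x ^ 2 ∂μ ≤ (K : ℝ≥0∞) ^ 2 *
      ∫⁻ x, h x ^ 2 ∂μ)
    {h : X → ℝ≥0∞} (hh : Measurable h) (hfin : ∫⁻ x, h x ^ 2 ∂μ ≠ ∞) :
    ∫⁻ x, MJ μ k J h x ^ 2 ∂μ ≤ (2 * C * K) * ∫⁻ x, h x ^ 2 ∂μ := by
  set M := MJ μ k J h with hM
  have hMm : Measurable M := meas_MJ H.meas J hh
  have hT : ∀ j, Measurable (TK μ k j h) := fun j => meas_TK H.meas j hh
  set D : ℕ → Set X := fun j => {x | TK μ k j h x = M x ∧ ∀ i ∈ Finset.range j,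
    TK μ k i h x ≠ M x} with hD
  have hDm : ∀ j, MeasurableSet (D j) := by
    intro j
    have : D j = {x | TK μ k j h x = M x} ∩
      ⋂ i ∈ Finset.range j, {x | TK μ k i h x = M x}ᶜ := by ext x; simp [hD]
    rw [this]
    exact (measurableSet_eq_fun (hT j) hMm).inter
      (MeasurableSet.biInter (Finset.countable_toSet _) fun i _ =>
      (measurableSet_eq_fun (hT i) hMm).compl)
  set φ : ℕ → X → ℝ≥0∞ := fun j => (D j).indicator M with hφ
  have hφm : ∀ j, Measurable (φ j) := fun j => hMm.indicator (hDm j)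
  -- sum of φ
  have hsum : ∀ x, ∑ j ∈ Finset.range J, φ j x = M x := by
    intro x
    obtain ⟨j0, hj0, hj0'⟩ := Finset.exists_mem_eq_sup (Finset.range J)
      (Finset.nonempty_range_iff.mpr hJ.ne') (fun j => TK μ k j h x)
    have hex : ∃ j, TK μ k j h x = M x := ⟨j0, hj0'.symm⟩
    classical
    have h1 := Nat.find_spec hex
    have h2 : ∀ i < Nat.find hex, TK μ k i h x ≠ M x := fun i hi => Nat.find_min hex hi
    have h3 : Nat.find hex ∈ Finset.range J := by
      rw [Finset.mem_range]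
      exact lt_of_le_of_lt (Nat.find_min' hex hj0'.symm) (Finset.mem_range.mp hj0)
    rw [Finset.sum_eq_single_of_mem _ h3]
    · rw [hφ]
      simp only
      rw [Set.indicator_of_mem]
      exact ⟨h1, fun i hi => h2 i (Finset.mem_range.mp hi)⟩
    · intro j _ hj
      rw [hφ]
      simp only
      rw [Set.indicator_of_notMem]
      rintro ⟨ha, hb⟩
      rcases lt_trichotomy j (Nat.find hex) with hlt | heq | hgt
      · exact h2 j hlt ha
      · exact hj heq
      · exact hb _ (Finset.mem_range.mpr hgt) h1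
  have hφT : ∀ j x, φ j x * M x = φ j x * TK μ k j h x := by
    intro j x
    rw [hφ]
    by_cases hx : x ∈ D j
    · simp only [Set.indicator_of_mem hx]; rw [hx.1]
    · simp only [Set.indicator_of_notMem hx, zero_mul]
  set R : X → ℝ≥0∞ := fun y => ∑ j ∈ Finset.range J, TK μ k j (φ j) y with hR
  have hRm : Measurable R := Finset.measurable_sum _ fun j _ => meas_TK H.meas j (hφm j)
  set a := ∫⁻ x, M x ^ 2 ∂μ with ha
  set b := ∫⁻ x, h x ^ 2 ∂μ with hb
  have s1 : a = ∫⁻ x, h x * R x ∂μ := by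
    calc a = ∫⁻ x, ∑ j ∈ Finset.range J, φ j x * TK μ k j h x ∂μ := by
          refine lintegral_congr fun x => ?_
          rw [← Finset.sum_congr rfl fun j _ => hφT j x, ← Finset.sum_mul, hsum x, pow_two]
      _ = ∑ j ∈ Finset.range J, ∫⁻ x, φ j x * TK μ k j h x ∂μ :=
          lintegral_finsetSum _ fun j _ => (hφm j).mul (hT j)
      _ = ∑ j ∈ Finset.range J, ∫⁻ x, h x * TK μ k j (φ j) x ∂μ := by
          refine Finset.sum_congr rfl fun j _ => ?_
          rw [TK_symm H j (hφm j) hh]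
          exact lintegral_congr fun x => mul_comm _ _
      _ = ∫⁻ x, ∑ j ∈ Finset.range J, h x * TK μ k j (φ j) x ∂μ :=
          (lintegral_finsetSum _ fun j _ => hh.mul (meas_TK H.meas j (hφm j))).symm
      _ = _ := by
          refine lintegral_congr fun x => ?_
          rw [hR, Finset.mul_sum]
  have s2 : ∫⁻ x, R x ^ 2 ∂μ ≤ 2 * C * ∫⁻ x, M x * MJ μ k J M x ∂μ := by
    have hmin : ∀ i ∈ Finset.range J, ∀ j ∈ Finset.range J,
        ∫⁻ x, TK μ k i (φ i) x * TK μ k j (φ j) x ∂μ ≤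
        C * ∫⁻ x, φ i x * TK μ k i (φ j) x ∂μ + C * ∫⁻ x, φ j x * TK μ k j (φ i) x ∂μ := by
      intro i _ j _
      rcases le_total i j with hij | hij
      · exact (TK_comp_le H hij (hφm i) (hφm j)).trans le_self_add
      · have := TK_comp_le H hij (hφm j) (hφm i)
        calc _ = ∫⁻ x, TK μ k j (φ j) x * TK μ k i (φ i) x ∂μ :=
              lintegral_congr fun x => mul_comm _ _
          _ ≤ _ := this.trans le_add_self
    have hlin : ∀ i x, ∑ j ∈ Finset.range J, TK μ k i (φ j) x = TK μ k i M x := by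
      intro i x
      unfold TK
      rw [← lintegral_finsetSum]
      · refine lintegral_congr fun y => ?_
        rw [← Finset.mul_sum, hsum y]
      · exact fun j _ => (meas_k_left H.meas i x).mul (hφm j)
    calc ∫⁻ x, R x ^ 2 ∂μ = ∫⁻ x, ∑ i ∈ Finset.range J, ∑ j ∈ Finset.range J,
          TK μ k i (φ i) x * TK μ k j (φ j) x ∂μ := by
          refine lintegral_congr fun x => ?_
          rw [hR, pow_two]
          simp only
          rw [Finset.sum_mul_sum]
      _ = ∑ i ∈ Finset.range J, ∑ j ∈ Finset.range J,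
          ∫⁻ x, TK μ k i (φ i) x * TK μ k j (φ j) x ∂μ := by
          rw [lintegral_finsetSum]
          · refine Finset.sum_congr rfl fun i _ => ?_
            rw [lintegral_finsetSum]
            exact fun j _ => (meas_TK H.meas i (hφm i)).mul (meas_TK H.meas j (hφm j))
          · exact fun i _ => Finset.measurable_sum _ fun j _ =>
              (meas_TK H.meas i (hφm i)).mul (meas_TK H.meas j (hφm j))
      _ ≤ ∑ i ∈ Finset.range J, ∑ j ∈ Finset.range J,
          (C * ∫⁻ x, φ i x * TK μ k i (φ j) x ∂μ + C * ∫⁻ x, φ j x * TK μ k j (φ i) x ∂μ) :=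
          Finset.sum_le_sum fun i hi => Finset.sum_le_sum fun j hj => hmin i hi j hj
      _ = 2 * C * ∑ i ∈ Finset.range J, ∑ j ∈ Finset.range J,
          ∫⁻ x, φ i x * TK μ k i (φ j) x ∂μ := by
          simp_rw [Finset.sum_add_distrib, ← Finset.mul_sum]
          rw [Finset.sum_comm (f := fun i j => ∫⁻ x, φ j x * TK μ k j (φ i) x ∂μ)]
          ring
      _ = 2 * C * ∑ i ∈ Finset.range J, ∫⁻ x, φ i x * TK μ k i M x ∂μ := by
          congr 1
          refine Finset.sum_congr rfl fun i _ => ?_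
          rw [← lintegral_finsetSum]
          · refine lintegral_congr fun x => ?_
            rw [← Finset.mul_sum, hlin i x]
          · exact fun j _ => (hφm i).mul (meas_TK H.meas i (hφm j))
      _ ≤ 2 * C * ∑ i ∈ Finset.range J, ∫⁻ x, φ i x * MJ μ k J M x ∂μ := by
          gcongr with i hi x
          unfold MJ
          exact Finset.le_sup (f := fun j => TK μ k j M x) hi
      _ = 2 * C * ∫⁻ x, M x * MJ μ k J M x ∂μ := by
          rw [← lintegral_finsetSum]
          · congr 1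
            refine lintegral_congr fun x => ?_
            rw [← Finset.sum_mul, hsum x]
          · exact fun i _ => (hφm i).mul (meas_MJ H.meas J hMm)
  have s3 : (∫⁻ x, M x * MJ μ k J M x ∂μ) ≤ K * a := by
    have h1 := CS (μ := μ) hMm (meas_MJ (μ := μ) H.meas J hMm)
    have h2 := hK M hMm
    have h3 : (∫⁻ x, M x * MJ μ k J M x ∂μ) ^ 2 ≤ (K * a) ^ 2 := by
      calc _ ≤ _ := h1
        _ ≤ a * ((K : ℝ≥0∞) ^ 2 * a) := by gcongr
        _ = _ := by ring
    exact (ENNReal.pow_le_pow_left_iff two_ne_zero).mp h3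
  have s4 : a * a ≤ b * (2 * C * (K * a)) := by
    calc a * a = (∫⁻ x, h x * R x ∂μ) ^ 2 := by rw [← s1, pow_two]
      _ ≤ b * ∫⁻ x, R x ^ 2 ∂μ := CS hh hRm
      _ ≤ b * (2 * C * (K * a)) := by gcongr; exact s2.trans (by gcongr)
  have hafin : a ≠ ∞ := by
    have := hK h hh
    refine ne_top_of_le_ne_top ?_ this
    exact mul_ne_top (by simp) hfin
  rcases eq_or_ne a 0 with h0 | h0
  · rw [h0]; exact zero_le
  · have : a * a ≤ (2 * C * K * b) * a := by
      calc _ ≤ _ := s4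
        _ = _ := by ring
    exact (ENNReal.mul_le_mul_iff_left h0 hafin).mp this

lemma MJ_apriori (H : KF μ k C) (J : ℕ) {h : X → ℝ≥0∞} (hh : Measurable h) :
    ∫⁻ x, MJ μ k J h x ^ 2 ∂μ ≤ J * C ^ 2 * ∫⁻ x, h x ^ 2 ∂μ := by
  calc ∫⁻ x, MJ μ k J h x ^ 2 ∂μ ≤ ∫⁻ x, ∑ j ∈ Finset.range J, (TK μ k j h x) ^ 2 ∂μ := by
        refine lintegral_mono fun x => ?_
        unfold MJ
        rcases Nat.eq_zero_or_pos J with hJ | hJ
        · subst hJ; simp
        · obtain ⟨j0, hj0, hj0'⟩ := Finset.exists_mem_eq_sup (Finset.range J)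
            (Finset.nonempty_range_iff.mpr hJ.ne') (fun j => TK μ k j h x)
          simp only
          rw [hj0']
          exact Finset.single_le_sum (f := fun j => (TK μ k j h x) ^ 2)
            (fun _ _ => zero_le) hj0
    _ = ∑ j ∈ Finset.range J, ∫⁻ x, (TK μ k j h x) ^ 2 ∂μ :=
        lintegral_finsetSum _ fun j _ => (meas_TK H.meas j hh).pow_const 2
    _ ≤ ∑ j ∈ Finset.range J, C ^ 2 * ∫⁻ x, h x ^ 2 ∂μ :=
        Finset.sum_le_sum fun j _ => TK_L2 H j hh
    _ = _ := by simp [mul_assoc]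

lemma MJ_L2 (H : KF μ k C) (J : ℕ) {h : X → ℝ≥0∞} (hh : Measurable h) :
    ∫⁻ x, MJ μ k J h x ^ 2 ∂μ ≤ (2 * C) ^ 2 * ∫⁻ x, h x ^ 2 ∂μ := by
  have hC1 := H.one_le
  rcases Nat.eq_zero_or_pos J with hJ | hJ
  · subst hJ; simp [MJ]
  by_cases hfin : ∫⁻ x, h x ^ 2 ∂μ = ∞
  · rw [hfin, ENNReal.mul_top]
    · exact le_top
    · have : (2 * (C : ℝ≥0∞)) ≠ 0 := by
        simp only [ne_eq, mul_eq_zero, OfNat.ofNat_ne_zero, coe_eq_zero, false_or]
        exact (lt_of_lt_of_le one_pos hC1).ne'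
      exact pow_ne_zero _ this
  -- iteration
  set θ : ℝ≥0 := J + 1 with hθ
  have hθ1 : 1 ≤ θ := by rw [hθ]; exact le_add_self
  have key : ∀ m : ℕ, ∀ g : X → ℝ≥0∞, Measurable g → ∫⁻ x, MJ μ k J g x ^ 2 ∂μ ≤
      ((2 * C * θ ^ ((1 / 2 : ℝ) ^ m) : ℝ≥0) : ℝ≥0∞) ^ 2 * ∫⁻ x, g x ^ 2 ∂μ := by
    intro m
    induction m with
    | zero =>
      intro g hg
      refine (MJ_apriori H J hg).trans ?_
      gcongr
      simp only [pow_zero, NNReal.rpow_one]
      have : (J : ℝ≥0) * C ^ 2 ≤ (2 * C * θ) ^ 2 := by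
        have h1 : (J : ℝ≥0) ≤ θ := by rw [hθ]; exact le_self_add
        calc (J : ℝ≥0) * C ^ 2 ≤ θ * C ^ 2 := by gcongr
          _ ≤ θ ^ 2 * C ^ 2 := by
              gcongr
              exact le_self_pow₀ hθ1 two_ne_zero
          _ ≤ 4 * (θ ^ 2 * C ^ 2) := by
              have : (1 : ℝ≥0) ≤ 4 := by norm_num
              exact le_mul_of_one_le_left (zero_le) this
          _ = _ := by ring
      exact_mod_cast this
    | succ m ih =>
      intro g hg
      by_cases hgf : ∫⁻ x, g x ^ 2 ∂μ = ∞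
      · rw [hgf, ENNReal.mul_top]
        · exact le_top
        · apply pow_ne_zero
          rw [ne_eq, coe_eq_zero]
          have h1 : 0 < θ ^ ((1 / 2 : ℝ) ^ (m + 1)) := NNReal.rpow_pos (lt_of_lt_of_le one_pos hθ1)
          exact (mul_pos (mul_pos two_pos (lt_of_lt_of_le one_pos hC1)) h1).ne'
      · refine (MJ_step H hJ ih hg hgf).trans ?_
        gcongr
        have : (2 * C * (2 * C * θ ^ ((1 / 2 : ℝ) ^ m)) : ℝ≥0) =
            (2 * C * θ ^ ((1 / 2 : ℝ) ^ (m + 1))) ^ 2 := by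
          rw [mul_pow, ← NNReal.rpow_natCast (θ ^ _) 2, ← NNReal.rpow_mul]
          have : (1 / 2 : ℝ) ^ (m + 1) * ((2 : ℕ) : ℝ) = (1 / 2) ^ m := by
            rw [pow_succ]; push_cast; ring
          rw [this]; ring
        exact_mod_cast this.le
  have hlim : Filter.Tendsto (fun m : ℕ => ((2 * C * θ ^ ((1 / 2 : ℝ) ^ m) : ℝ≥0) : ℝ≥0∞) ^ 2 *
      ∫⁻ x, h x ^ 2 ∂μ) Filter.atTop (nhds ((2 * C) ^ 2 * ∫⁻ x, h x ^ 2 ∂μ)) := by
    have h1 : Filter.Tendsto (fun m : ℕ => (1 / 2 : ℝ) ^ m) Filter.atTop (nhds 0) :=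
      tendsto_pow_atTop_nhds_zero_of_lt_one (by norm_num) (by norm_num)
    have h2 : Filter.Tendsto (fun m : ℕ => θ ^ ((1 / 2 : ℝ) ^ m)) Filter.atTop (nhds (θ ^ (0 : ℝ)))
      := by
      have hc : Continuous fun y : ℝ => θ ^ y := by
        rw [continuous_iff_continuousAt]
        intro y
        exact NNReal.continuousAt_rpow (Or.inl (lt_of_lt_of_le one_pos hθ1).ne') |>.comp
          (f := fun y : ℝ => (θ, y)) (by fun_prop)
      exact (hc.tendsto 0).comp h1
    rw [NNReal.rpow_zero] at h2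
    have h3 : Filter.Tendsto (fun m : ℕ => ((2 * C * θ ^ ((1 / 2 : ℝ) ^ m) : ℝ≥0) : ℝ≥0∞))
        Filter.atTop (nhds ((2 * C * 1 : ℝ≥0) : ℝ≥0∞)) :=
      ENNReal.tendsto_coe.mpr (h2.const_mul (2 * C))
    have h4 := (ENNReal.Tendsto.pow (n := 2) h3)
    have h5 := ENNReal.Tendsto.mul_const (b := ∫⁻ x, h x ^ 2 ∂μ) h4 (Or.inr hfin)
    simpa using h5
  exact ge_of_tendsto' hlim fun m => key m h hh

/-- The maximal inequality. -/
theorem max_L2 (H : KF μ k C) {h : X → ℝ≥0∞} (hh : Measurable h) :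
    ∫⁻ x, (⨆ j, TK μ k j h x) ^ 2 ∂μ ≤ (2 * C) ^ 2 * ∫⁻ x, h x ^ 2 ∂μ := by
  have e : ∀ x, (⨆ j, TK μ k j h x) ^ 2 = ⨆ J, MJ μ k J h x ^ 2 := by
    intro x
    have e1 : (⨆ j, TK μ k j h x) = ⨆ J, MJ μ k J h x := by
      apply le_antisymm
      · refine iSup_le fun j => le_iSup_of_le (j + 1) ?_
        exact Finset.le_sup (f := fun j => TK μ k j h x) (Finset.mem_range.mpr (Nat.lt_succ_self j))
      · refine iSup_le fun J => Finset.sup_le fun j _ => le_iSup (fun j => TK μ k j h x) j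
    rw [e1]
    have hmono : Monotone fun J => MJ μ k J h x := by
      intro a b hab
      exact Finset.sup_mono (Finset.range_mono hab)
    exact (Monotone.map_iSup_of_continuousAt (f := fun y : ℝ≥0∞ => y ^ 2)
      (ENNReal.continuous_pow 2).continuousAt (fun a b hab => pow_le_pow_left' hab 2)
      (by simp))
  simp_rw [e]
  rw [lintegral_iSup]
  · exact iSup_le fun J => MJ_L2 H J hh
  · exact fun J => (meas_MJ H.meas J hh).pow_const 2
  · intro a b hab x
    have : MJ μ k a h x ≤ MJ μ k b h x := Finset.sup_mono (Finset.range_mono hab)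
    simp only
    gcongr

end Pool.Agent.MP28b1a7
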