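import Pool.Agent.Lib.MP_28b1a7_an.FB5

/-!
Second frame: the analysis operator whose Gram matrix is close to the identity.
-/

namespace Pool.Agent.MP28b1a7

open MeasureTheory Set Filter Topology
open scoped InnerProductSpace ENNReal NNReal

namespace FrB

section
variable {n : ℕ} [NeZero n]

lemma continuous_p1 : Continuous (p1 n) := by
  apply Seminorm.continuous_of_le (q := normSeminorm ℂ (H2 n)) continuous_norm
  intro f
  exact p1_le f

lemma continuous_ND (hG : 0 < GG n) :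
    Continuous fun c : DD (GG n) => (ND (c : Idx (GG n) → ℂ)).toReal := by
  have h : Continuous (NDs hG) := by
    apply Seminorm.continuous_of_le (q := normSeminorm ℂ (DD (GG n))) continuous_norm
    intro f
    exact NDs_le hG f
  exact h

lemma coe_finl {ι : Type*} (a : ι →₀ ℂ) : ((finl a : lp (fun _ : ι => ℂ) 2) : ι → ℂ) = a := by
  funext i
  exact finl_apply a i

lemma sum_norm_sq_le (w : Idx (GG n) → ℂ) (s : Finset (Idx (GG n))) {K : ℝ} (hK : 0 ≤ K)
    (h : n2 w ≤ ENNReal.ofReal K) : ∑ i ∈ s, ‖w i‖ ^ 2 ≤ K := by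
  rw [← ENNReal.ofReal_le_ofReal_iff hK, ENNReal.ofReal_sum_of_nonneg (fun i _ => by positivity)]
  refine le_trans ?_ h
  refine le_trans (le_of_eq ?_) (ENNReal.sum_le_tsum s)
  apply Finset.sum_congr rfl
  intro i _
  rw [ENNReal.ofReal_pow (norm_nonneg _), ofReal_norm]

end

end FrB

open FrB

open ContinuousLinearMap in
theorem frameB (n : ℕ) [NeZero n] : ∃ (B : H2 n →L[ℂ] DD (2 ^ (8 * n))) (C : ℝ),
    (∀ f, (ND (B f : Idx (2 ^ (8 * n)) → ℂ)).toReal ≤ C * p1 n f) ∧
    (∀ c : DD (2 ^ (8 * n)), p1 n (adjoint B c) ≤ C * (ND (c : Idx (2 ^ (8 * n)) → ℂ)).toReal) ∧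
    (∀ c, ‖B (adjoint B c) - c‖ ≤ 1 / 2 * ‖c‖) ∧
    (∀ c, (ND ((B (adjoint B c) - c : DD (2 ^ (8 * n))) : Idx (2 ^ (8 * n)) → ℂ)).toReal ≤
      1 / 2 * (ND (c : Idx (2 ^ (8 * n)) → ℂ)).toReal) := by
  have hn : 1 ≤ n := Nat.one_le_iff_ne_zero.mpr (NeZero.ne n)
  have hG : 0 < GG n := lt_of_lt_of_le two_pos (GG_two_le n)
  obtain ⟨T⟩ := exists_treeData n
  obtain ⟨t0, h0⟩ : ∃ t0, T.c2 ≤ 1 / 2 * 2 ^ (8 * t0 * n) := by
    obtain ⟨t0, ht0⟩ := pow_unbounded_of_one_lt (2 * T.c2) (one_lt_two)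
    refine ⟨t0, ?_⟩
    have h1 : (2 : ℝ) ^ t0 ≤ 2 ^ (8 * t0 * n) := by
      apply pow_le_pow_right₀ (by norm_num)
      nlinarith
    linarith
  obtain ⟨K1, hK1⟩ := ge_L2 (T := T) (t0 := t0) h0
  obtain ⟨K2, hK2⟩ := ge_ND (T := T) (t0 := t0) h0
  obtain ⟨c, hc1, hc⟩ : ∃ c : ℕ, 1 ≤ c ∧ 2 * (K1 + K2) ≤ (2 : ℝ≥0) ^ c := by
    obtain ⟨c, hc⟩ := pow_unbounded_of_one_lt (2 * (K1 + K2)) (one_lt_two (α := ℝ≥0))
    refine ⟨c + 1, by omega, hc.le.trans ?_⟩
    apply pow_le_pow_right₀ (by norm_num)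
    omega
  have hsm : ∀ K : ℝ≥0, K ≤ K1 + K2 → (K : ℝ≥0∞) * (2 ^ c)⁻¹ ≤ 1 / 2 := by
    intro K hK
    rw [← div_eq_mul_inv]
    apply ENNReal.div_le_of_le_mul
    have h1 : (K : ℝ≥0) ≤ 1 / 2 * 2 ^ c := by
      have : 2 * K ≤ 2 ^ c := le_trans (by gcongr) hc
      rw [one_div, inv_mul_eq_div, le_div_iff₀ two_pos, mul_comm]
      exact this
    have h2 : ((K : ℝ≥0) : ℝ≥0∞) ≤ ((1 / 2 * 2 ^ c : ℝ≥0) : ℝ≥0∞) := by exact_mod_cast h1
    refine le_trans h2 (le_of_eq ?_)
    rw [ENNReal.coe_mul, ENNReal.coe_pow, ENNReal.coe_div two_ne_zero]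
    norm_num
  have hs1 := hsm K1 (by simp)
  have hs2 := hsm K2 (by simp)
  -- the vectors
  let ψ : Idx (GG n) → H2 n := fun i => ofPol (Pol_psi (8 * (i.1.1 + t0) + c) (vt T t0 i.1.1 i.1.2))
  have hψ : ∀ {M : ℕ} {f : Sph n → ℂ} (hf : Pol M f) (i : Idx (GG n)),
      ⟪ψ i, ofPol hf⟫_ℂ = ac T t0 c f i := fun hf i => inner_ofPol _ hf
  obtain ⟨Cb, hCb⟩ := ac_bessel (T := T) (t0 := t0) h0 hc1
  obtain ⟨B, hB⟩ := exists_analysis ψ (Cb : ℝ) (dense_ofPol n) (by
    rintro _ ⟨M, f, hf, rfl⟩ s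
    simp_rw [hψ hf]
    apply sum_norm_sq_le _ _ (by positivity)
    refine le_trans (hCb f hf.1) ?_
    rw [lint_sq hf.1, norm_ofPol, ENNReal.ofReal_mul (by positivity), ENNReal.ofReal_coe_nnreal])
  have hBf : ∀ {M : ℕ} {f : Sph n → ℂ} (hf : Pol M f),
      ((B (ofPol hf) : DD (GG n)) : Idx (GG n) → ℂ) = ac T t0 c f := by
    intro M f hf
    funext i
    rw [hB, hψ hf]
  -- finitely supported sequences
  have hpol : ∀ i, Pol (4 * 2 ^ (8 * (i.1.1 + t0) + c)) (psn T t0 c i) := fun i => Pol_psi _ _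
  have hadj : ∀ a : Idx (GG n) →₀ ℂ, ∃ (M : ℕ)
      (h : Pol M (fun x => ∑ i ∈ a.support, a i * psn T t0 c i x)),
      adjoint B (finl a) = ofPol h := by
    intro a
    obtain ⟨M, h, e⟩ := ofPol_sum a.support a hpol
    refine ⟨M, h, ?_⟩
    rw [adjoint_finl hB]
    exact e
  have hgram : ∀ a : Idx (GG n) →₀ ℂ,
      ((B (adjoint B (finl a)) - finl a : DD (GG n)) : Idx (GG n) → ℂ) = ge T t0 c a := by
    intro a
    obtain ⟨M, h, e⟩ := hadj a
    funext i
    rw [e]
    have e1 : ((B (ofPol h) - finl a : DD (GG n)) : Idx (GG n) → ℂ) i =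
        ((B (ofPol h) : DD (GG n)) : Idx (GG n) → ℂ) i - a i := rfl
    rw [e1, hBf h]
    unfold ge ac
    congr 1
    change ip (fun x => ∑ i ∈ a.support, a i * psn T t0 c i x) (psn T t0 c i) = _
    rw [ip_sum_left _ (fun i _ => ((hpol i).1).const_mul _) (hpol i).1]
    apply Finset.sum_congr rfl
    intro i' _
    rw [ip_const_left]
  -- analysis bound
  obtain ⟨C1, hC1⟩ := ac_ND (T := T) (t0 := t0) h0 hc1
  have hA1 : ∀ f : H2 n, (ND (B f : Idx (GG n) → ℂ)).toReal ≤ C1 * p1 n f := by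
    have hcl : IsClosed {f : H2 n | (ND (B f : Idx (GG n) → ℂ)).toReal ≤ C1 * p1 n f} :=
      isClosed_le ((continuous_ND hG).comp B.continuous) (continuous_const.mul continuous_p1)
    intro f
    have h1 := closure_minimal (s := {x : H2 n | ∃ (M : ℕ) (f : Sph n → ℂ) (hf : Pol M f),
      x = ofPol hf}) (by
        rintro _ ⟨M, f, hf, rfl⟩
        rw [mem_ofPred_eq, hBf hf]
        have h2 := hC1 M f hf
        rw [← p1_ofPol hf] at h2
        have h3 := ENNReal.toReal_mono (by finiteness) h2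
        rw [ENNReal.toReal_mul, ENNReal.coe_toReal, ENNReal.toReal_ofReal (apply_nonneg _ _)] at h3
        exact h3) hcl
    rw [(dense_ofPol n).closure_eq] at h1
    exact h1 (mem_univ f)
  -- synthesis bound
  obtain ⟨C2, hC2, hcarl⟩ := ac_carl (T := T) (t0 := t0) h0 hc1
  have hA2 : ∀ a : DD (GG n), p1 n (adjoint B a) ≤
      (3 * C2 : ℝ≥0) * (ND (a : Idx (GG n) → ℂ)).toReal := by
    intro a
    refine dense_finl.induction_on
      (p := fun a : DD (GG n) => p1 n (adjoint B a) ≤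
        (3 * C2 : ℝ≥0) * (ND (a : Idx (GG n) → ℂ)).toReal) a ?_ ?_
    · exact isClosed_le (continuous_p1.comp (adjoint B).continuous)
        (continuous_const.mul (continuous_ND hG))
    · intro a
      obtain ⟨M, h, e⟩ := hadj a
      rw [e, coe_finl]
      apply p1_le_of_dual
      intro b hb hb1
      rw [ip_sum_left _ (fun i _ => ((hpol i).1).const_mul _) hb]
      simp_rw [ip_const_left]
      have h2 := tree_dual (GG_two_le n) hC2 a (ac T t0 c b)
        (fun t m hm => hcarl b hb hb1 t m hm)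
      have hfin : ND (a : Idx (GG n) → ℂ) ≠ ⊤ := by
        have := ND_ne_top hG (finl a)
        rwa [coe_finl] at this
      have h3 : ENNReal.ofReal (∑ i ∈ a.support, ‖a i‖ * ‖ac T t0 c b i‖) ≤
          3 * C2 * ND (a : Idx (GG n) → ℂ) := by
        refine le_trans ?_ h2
        rw [ENNReal.ofReal_sum_of_nonneg (fun i _ => by positivity)]
        refine le_trans (le_of_eq ?_) (ENNReal.sum_le_tsum a.support)
        apply Finset.sum_congr rfl
        intro i _
        rw [ENNReal.ofReal_mul (norm_nonneg _), ofReal_norm, ofReal_norm]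
      have h4 : ∑ i ∈ a.support, ‖a i‖ * ‖ac T t0 c b i‖ ≤
          (3 * C2 : ℝ≥0) * (ND (a : Idx (GG n) → ℂ)).toReal := by
        have h5 := (ENNReal.ofReal_le_iff_le_toReal (by finiteness)).mp h3
        rw [ENNReal.toReal_mul, ENNReal.toReal_mul] at h5
        push_cast
        exact h5
      refine le_trans (norm_sum_le _ _) (le_trans (le_of_eq ?_) h4)
      apply Finset.sum_congr rfl
      intro i _
      rw [norm_mul, ← ip_conj, RCLike.norm_conj]
      rfl
  -- the error in the Hilbert space norm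
  have hE : ∀ a : DD (GG n), ‖B (adjoint B a) - a‖ ≤ 1 / 2 * ‖a‖ := by
    intro a
    refine dense_finl.induction_on
      (p := fun a : DD (GG n) => ‖B (adjoint B a) - a‖ ≤ 1 / 2 * ‖a‖) a ?_ ?_
    · exact isClosed_le (((B.continuous.comp (adjoint B).continuous).sub continuous_id).norm)
        (continuous_const.mul continuous_norm)
    · intro a
      have h1 := hK1 c hc1 a
      rw [← hgram a, n2_eq', ← coe_finl a, n2_eq'] at h1
      have h2 : ‖B (adjoint B (finl a)) - finl a‖ₑ ^ 2 ≤ (1 / 2 * ‖finl a‖ₑ) ^ 2 := by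
        refine le_trans h1 ?_
        rw [mul_pow (1 / 2 : ℝ≥0∞)]
        exact mul_le_mul_left (pow_le_pow_left' hs1 2) _
      have h3 := enn_sq_le h2
      rw [← ofReal_norm, ← ofReal_norm] at h3
      have e : (1 / 2 : ℝ≥0∞) = ENNReal.ofReal (1 / 2) := by
        rw [ENNReal.ofReal_div_of_pos two_pos]; norm_num
      rw [e, ← ENNReal.ofReal_mul (by norm_num)] at h3
      exact (ENNReal.ofReal_le_ofReal_iff (by positivity)).mp h3
  -- the error in the square function norm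
  have hEp : ∀ a : DD (GG n), (ND ((B (adjoint B a) - a : DD (GG n)) : Idx (GG n) → ℂ)).toReal ≤
      1 / 2 * (ND (a : Idx (GG n) → ℂ)).toReal := by
    intro a
    refine dense_finl.induction_on
      (p := fun a : DD (GG n) => (ND ((B (adjoint B a) - a : DD (GG n)) : Idx (GG n) → ℂ)).toReal ≤
        1 / 2 * (ND (a : Idx (GG n) → ℂ)).toReal) a ?_ ?_
    · exact isClosed_le ((continuous_ND hG).comp
        ((B.continuous.comp (adjoint B).continuous).sub continuous_id))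
        (continuous_const.mul (continuous_ND hG))
    · intro a
      have h1 := hK2 c hc1 a
      have hfin : ND (a : Idx (GG n) → ℂ) ≠ ⊤ := by
        have := ND_ne_top hG (finl a)
        rwa [coe_finl] at this
      rw [hgram a, coe_finl]
      have h2 : ND (ge T t0 c a) ≤ 1 / 2 * ND (a : Idx (GG n) → ℂ) :=
        le_trans h1 (by gcongr)
      have h3 := ENNReal.toReal_mono (by finiteness) h2
      rw [ENNReal.toReal_mul] at h3
      norm_num at h3 ⊢
      exact h3
  refine ⟨B, C1 + (3 * C2 : ℝ≥0), fun f => ?_, fun a => ?_, hE, hEp⟩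
  · refine le_trans (hA1 f) ?_
    have := apply_nonneg (p1 n) f
    gcongr
    exact le_add_of_nonneg_right (NNReal.coe_nonneg _)
  · refine le_trans (hA2 a) ?_
    gcongr
    exact le_add_of_nonneg_left (NNReal.coe_nonneg _)

end Pool.Agent.MP28b1a7
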