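import Pool.Agent.Lib.MP_28b1a7_an.FrameA3
import Pool.Agent.Lib.MP_28b1a7_an.FrameB
import Pool.Agent.Lib.MP_28b1a7_an.Abs
import Pool.Agent.Lib.MP_28b1a7_an.Density
import Pool.Agent.Lib.MP_28b1a7_an.Ball

/-!
The assembly: `H^1` of the ball has an orthonormal unconditional basis.
-/

namespace Pool.Agent.MP28b1a7

open MeasureTheory Set Filter Topology
open scoped InnerProductSpace ENNReal NNReal

theorem target (n : ℕ) [NeZero n] : Target n := by
  obtain ⟨A, CA, hA1, hA2, hA3, hA4⟩ := frameA n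
  obtain ⟨B, CB, hB1, hB2, hB3, hB4⟩ := frameB n
  have hp0 : ∀ f : H2 n, 0 ≤ p1 n f := fun f => apply_nonneg _ _
  obtain ⟨U, C, hU1, hU2⟩ := hilbert_core (p1 n) p1_le (2 ^ (8 * n)) (two_le_G n) (max CA CB) A B
    (fun f => (hA1 f).trans (mul_le_mul_of_nonneg_right (le_max_left _ _) (hp0 f)))
    (fun c => (hA2 c).trans (mul_le_mul_of_nonneg_right (le_max_left _ _) ENNReal.toReal_nonneg))
    (fun f => (hB1 f).trans (mul_le_mul_of_nonneg_right (le_max_right _ _) (hp0 f)))
    (fun c => (hB2 c).trans (mul_le_mul_of_nonneg_right (le_max_right _ _) ENNReal.toReal_nonneg))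
    hA3 hA4 hB3 hB4
  exact target_of_core (2 ^ (8 * n)) (two_le_G n) U C (fun c => hU1 c) (fun f => hU2 f)
    (density n)

end Pool.Agent.MP28b1a7
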