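import Pool.Agent.Lib.MP_28b1a7_an.Cover
import Pool.Agent.Lib.MP_28b1a7_an.H2

/-!
The discretisation error in the reproducing formula.
-/

namespace Pool.Agent.MP28b1a7

open MeasureTheory Filter Topology Set
open scoped InnerProductSpace ENNReal NNReal

section
variable {n : ℕ} [NeZero n]

omit [NeZero n] in
lemma KM_conj (M : ℕ) (m : ℕ → ℝ) (z η : V n) :
    (starRingEnd ℂ) (KM M m z η) = KM M m η z := by
  unfold KM
  rw [map_sum]
  refine Finset.sum_congr rfl fun k _ => ?_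
  simp only [map_mul, map_pow, Complex.conj_ofReal, map_natCast, inner_conj_symm]

lemma PP_KM (M : ℕ) (m : ℕ → ℝ) (v z : V n) (l : ℕ) :
    PP l (fun ζ : Sph n => KM M m (ζ : V n) v) z =
      if l < M then (m l : ℂ) * (cc n l : ℂ) * ⟪v, z⟫_ℂ ^ l else 0 := by
  have e : (fun ζ : Sph n => KM M m (ζ : V n) v) = fun ζ : Sph n =>
      ∑ k ∈ Finset.range M, ((m k : ℂ) * (cc n k : ℂ)) * mono k v ζ := rfl
  rw [e, PP_sum l _ (fun k _ => (BM_cont (mono k v).continuous).const_mul _)]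
  have h : ∀ k ∈ Finset.range M, PP l (fun x : Sph n => ((m k : ℂ) * (cc n k : ℂ)) * mono k v x) z
      = if l = k then (m l : ℂ) * (cc n l : ℂ) * ⟪v, z⟫_ℂ ^ l else 0 := by
    intro k _
    rw [PP_const_mul, PP_mono]
    by_cases hkl : l = k
    · subst hkl; simp
    · rw [if_neg (fun h => hkl h.symm), if_neg hkl, mul_zero]
  rw [Finset.sum_congr rfl h, Finset.sum_ite_eq]
  simp

lemma Pol_KM (M : ℕ) (m : ℕ → ℝ) (v : V n) : Pol M (fun ζ : Sph n => KM M m (ζ : V n) v) := by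
  refine ⟨BM_cont (by unfold KM; fun_prop), fun z => ?_⟩
  have h : ∀ l ∈ Finset.range M, PP l (fun ζ : Sph n => KM M m (ζ : V n) v) (z : V n) =
      (m l : ℂ) * (cc n l : ℂ) * ⟪v, (z : V n)⟫_ℂ ^ l := by
    intro l hl
    rw [PP_KM, if_pos (Finset.mem_range.mp hl)]
  rw [Finset.sum_congr rfl h]
  rfl

/-- pairing with a kernel is evaluation of the multiplier operator -/
lemma ip_KM (M : ℕ) (m : ℕ → ℝ) {f : Sph n → ℂ} (hf : BM f) (v : Sph n) :
    ip f (fun ζ : Sph n => KM M m (ζ : V n) v) = VM M m f v := by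
  rw [VM_eq_KM _ _ hf]
  unfold ip
  refine integral_congr_ae (Eventually.of_forall fun ζ => ?_)
  simp only [KM_conj]
  ring

/-- a polynomial has only finitely many Littlewood-Paley pieces -/
lemma Pol.VV_eq_zero {M : ℕ} {f : Sph n → ℂ} (hf : Pol M f) {j : ℕ} (hj : M ≤ j) (z : V n) :
    VV j f z = 0 := by
  unfold VV VM
  apply Finset.sum_eq_zero
  intro k _
  rcases Nat.lt_or_ge k M with h | h
  · have h1 : AA j k = 0 := by
      rcases j with _ | j
      · omega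
      · apply AA_of_small
        have h2 : j + 1 < 2 ^ (j + 1) := Nat.lt_two_pow_self
        have h3 : k ≤ j := by omega
        have h4 : j + 1 ≤ 2 ^ j := Nat.lt_two_pow_self
        rw [pow_succ]
        omega
    rw [h1]; simp
  · rw [hf.PP_eq_zero h]; simp

/-- the reproducing formula -/
lemma Pol.ip_eq {M : ℕ} {f g : Sph n → ℂ} (hf : Pol M f) (hg : BM g) {J : ℕ} (hJ : M ≤ J) :
    ip f g = ∑ j ∈ Finset.range J, ip (fun ζ : Sph n => VV j f ζ) (fun ζ : Sph n => VV j g ζ) := by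
  have h1 : ∀ j, ip (fun ζ : Sph n => VV j f ζ) (fun ζ : Sph n => VV j g ζ) =
      ip (fun ζ : Sph n => VM (4 * 2 ^ j) (fun k => AA j k * AA j k) f ζ) g := by
    intro j
    unfold VV
    rw [← ip_VM _ _ (BM_VM _ _ hf.1) hg]
    congr 1
    funext ζ
    exact VM_comp _ _ _ _ hf.1 _ fun k hk hk' => absurd hk (not_lt.mpr hk')
  have hext : ∀ j ∈ Finset.range J, ∀ ζ : Sph n,
      VM (4 * 2 ^ j) (fun k => AA j k * AA j k) f (ζ : V n) =
      ∑ k ∈ Finset.range M, ((AA j k ^ 2 : ℝ) : ℂ) * PP k f (ζ : V n) := by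
    intro j _ ζ
    unfold VM
    rcases le_total M (4 * 2 ^ j) with h | h
    · symm
      rw [Finset.sum_subset (Finset.range_mono h)
        (f := fun k => ((AA j k ^ 2 : ℝ) : ℂ) * PP k f (ζ : V n))]
      · refine Finset.sum_congr rfl fun k _ => ?_
        rw [pow_two]
      · intro k _ hk
        rw [hf.PP_eq_zero (by simpa using hk)]; simp
    · rw [← Finset.sum_subset (Finset.range_mono h)
        (f := fun k => ((AA j k ^ 2 : ℝ) : ℂ) * PP k f (ζ : V n))]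
      · refine Finset.sum_congr rfl fun k _ => ?_
        rw [pow_two]
      · intro k _ hk
        rw [AA_of_le (by
          have : 4 * 2 ^ j ≤ k := by simpa using hk
          omega)]
        simp
  have h2 : ∀ ζ : Sph n, f ζ = ∑ j ∈ Finset.range J,
      VM (4 * 2 ^ j) (fun k => AA j k * AA j k) f (ζ : V n) := by
    intro ζ
    rw [Finset.sum_congr rfl fun j hj => hext j hj ζ, Finset.sum_comm, hf.2 ζ]
    refine Finset.sum_congr rfl fun k hk => ?_
    rw [← Finset.sum_mul]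
    rcases J with _ | J
    · have := Finset.mem_range.mp hk
      omega
    · have hk' : k ≤ 2 ^ J := by
        have h3 := Finset.mem_range.mp hk
        have h4 : J < 2 ^ J := Nat.lt_two_pow_self
        omega
      have h5 : ∑ j ∈ Finset.range (J + 1), ((AA j k ^ 2 : ℝ) : ℂ) = 1 := by
        rw [← Complex.ofReal_sum, sum_AA_sq_eq_one hk', Complex.ofReal_one]
      rw [h5, one_mul]
  rw [Finset.sum_congr rfl fun j _ => h1 j,
    ← ip_sum_left _ (fun j _ => BM_VM _ _ hf.1) hg]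
  congr 1
  funext ζ
  exact h2 ζ

end

namespace TreeData

variable {n : ℕ} [NeZero n] (T : TreeData n)

/-- the fineness parameter -/
noncomputable def epsc (c : ℕ) : ℝ := 128 * T.C3 / 2 ^ (8 * c)

lemma near_fine (c j : ℕ) {x : ℝ} (hx : x ∈ Ico (0 : ℝ) 1) :
    2 ^ j * dd (T.Ψ x : V n) (T.β (j / 8 + c) x) ≤ T.epsc c := by
  rw [T.β_eq hx]
  have h1 := T.near (j / 8 + c) x hx
  have h2 : (2 : ℝ) ^ j ≤ 2 ^ (8 * (j / 8) + 7) := pow_le_pow_right₀ (by norm_num) (by omega)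
  have h3 := dd_nonneg (T.Ψ x : V n) (T.α (j / 8 + c) x)
  have hC := T.C3_pos
  calc (2 : ℝ) ^ j * dd (T.Ψ x : V n) (T.α (j / 8 + c) x) ≤
        2 ^ (8 * (j / 8) + 7) * (T.C3 / 2 ^ (8 * (j / 8 + c))) := by gcongr
    _ = T.epsc c := by
        unfold epsc
        rw [mul_add, pow_add, pow_add]; field_simp; norm_num

/-- pointwise discretisation error -/
lemma osc_pair : ∃ C : ℝ≥0, ∀ (c : ℕ), T.epsc c ≤ 1 / 36 → ∀ (j : ℕ) (f g : Sph n → ℂ), BM f →
    BM g → ∀ x ∈ Ico (0 : ℝ) 1,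
      ‖VV j f (T.β (j / 8 + c) x : V n) * (starRingEnd ℂ) (VV j g (T.β (j / 8 + c) x : V n)) -
        VV j f (T.Ψ x : V n) * (starRingEnd ℂ) (VV j g (T.Ψ x : V n))‖ₑ ≤
      C * ENNReal.ofReal (Real.sqrt (T.epsc c)) *
        (pst j (fun w : Sph n => VV j f w) (T.Ψ x) *
          pst j (fun w : Sph n => VV j g w) (T.Ψ x)) := by
  obtain ⟨C, hC⟩ := VV_osc n
  refine ⟨C * (1 + C) + C, fun c hc j f g hf hg x hx => ?_⟩
  have hC3 := T.C3_pos
  have he : 0 ≤ T.epsc c := by unfold epsc; positivity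
  have h1 := hC j f hf (T.epsc c) he hc (T.Ψ x) (T.β (j / 8 + c) x) (T.near_fine c j hx)
  have h2 := hC j g hg (T.epsc c) he hc (T.Ψ x) (T.β (j / 8 + c) x) (T.near_fine c j hx)
  set a := VV j f (T.β (j / 8 + c) x : V n) with ha
  set b := VV j f (T.Ψ x : V n) with hb
  set a' := VV j g (T.β (j / 8 + c) x : V n) with ha'
  set b' := VV j g (T.Ψ x : V n) with hb'
  set P := pst j (fun w : Sph n => VV j f w) (T.Ψ x) with hP
  set Q := pst j (fun w : Sph n => VV j g w) (T.Ψ x) with hQ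
  set s := ENNReal.ofReal (Real.sqrt (T.epsc c)) with hs
  have hs1 : s ≤ 1 := by
    rw [hs, ← ENNReal.ofReal_one]
    apply ENNReal.ofReal_le_ofReal
    rw [Real.sqrt_le_iff]
    constructor
    · norm_num
    · linarith
  have hbP : ‖b‖ₑ ≤ P := le_pst_self j (fun w : Sph n => VV j f w) (T.Ψ x)
  have hbQ : ‖b'‖ₑ ≤ Q := le_pst_self j (fun w : Sph n => VV j g w) (T.Ψ x)
  have haQ : ‖a'‖ₑ ≤ (1 + C) * Q := by
    have e : a' = b' - (b' - a') := by ring
    rw [e]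
    calc ‖b' - (b' - a')‖ₑ ≤ ‖b'‖ₑ + ‖b' - a'‖ₑ := enorm_sub_le
      _ ≤ Q + C * s * Q := add_le_add hbQ h2
      _ ≤ Q + C * 1 * Q := by gcongr
      _ = _ := by ring
  have e : a * (starRingEnd ℂ) a' - b * (starRingEnd ℂ) b' =
      -((b - a) * (starRingEnd ℂ) a') - b * (starRingEnd ℂ) (b' - a') := by
    rw [map_sub]; ring
  rw [e]
  calc ‖-((b - a) * (starRingEnd ℂ) a') - b * (starRingEnd ℂ) (b' - a')‖ₑ
      ≤ ‖-((b - a) * (starRingEnd ℂ) a')‖ₑ + ‖b * (starRingEnd ℂ) (b' - a')‖ₑ := enorm_sub_le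
    _ = ‖b - a‖ₑ * ‖a'‖ₑ + ‖b‖ₑ * ‖b' - a'‖ₑ := by
        rw [enorm_neg, enorm_mul, enorm_mul]
        have : ∀ z : ℂ, ‖(starRingEnd ℂ) z‖ₑ = ‖z‖ₑ := fun z => by
          rw [← ofReal_norm, ← ofReal_norm, RCLike.norm_conj]
        rw [this, this]
    _ ≤ (C * s * P) * ((1 + C) * Q) + P * (C * s * Q) := by gcongr
    _ = _ := by push_cast; ring

/-- integrated discretisation error -/
lemma osc_sum : ∃ C : ℝ≥0, ∀ (c : ℕ), T.epsc c ≤ 1 / 36 → ∀ (J : ℕ) (f g : Sph n → ℂ), BM f →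
    BM g → ‖∑ j ∈ Finset.range J, (∫ x, VV j f (T.β (j / 8 + c) x : V n) *
        (starRingEnd ℂ) (VV j g (T.β (j / 8 + c) x : V n)) ∂mu01) -
      ∑ j ∈ Finset.range J, ip (fun ζ : Sph n => VV j f ζ) (fun ζ : Sph n => VV j g ζ)‖ₑ ≤
      C * ENNReal.ofReal (Real.sqrt (T.epsc c)) *
        ∫⁻ x, ∑' j, pst j (fun w : Sph n => VV j f w) (T.Ψ x) *
          pst j (fun w : Sph n => VV j g w) (T.Ψ x) ∂mu01 := by
  obtain ⟨C, hC⟩ := T.osc_pair
  refine ⟨C, fun c hc J f g hf hg => ?_⟩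
  have hm : ∀ j, Measurable fun ζ : Sph n => VV j f (ζ : V n) *
      (starRingEnd ℂ) (VV j g (ζ : V n)) := fun j =>
    ((BM_VV j hf).mul (BM_VV j hg).conj).1
  have hbd : ∀ j, ∃ D : ℝ, ∀ ζ : Sph n, ‖VV j f (ζ : V n) *
      (starRingEnd ℂ) (VV j g (ζ : V n))‖ ≤ D := fun j =>
    ((BM_VV j hf).mul (BM_VV j hg).conj).2
  have hi1 : ∀ j, Integrable (fun x => VV j f (T.β (j / 8 + c) x : V n) *
      (starRingEnd ℂ) (VV j g (T.β (j / 8 + c) x : V n))) mu01 := by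
    intro j
    obtain ⟨D, hD⟩ := hbd j
    exact Integrable.of_bound ((T.measurable_comp_β (j / 8 + c) (fun ζ : Sph n =>
      VV j f (ζ : V n) * (starRingEnd ℂ) (VV j g (ζ : V n)))).aestronglyMeasurable) D
      (Eventually.of_forall fun x => hD _)
  have hi2 : ∀ j, Integrable (fun x => VV j f (T.Ψ x : V n) *
      (starRingEnd ℂ) (VV j g (T.Ψ x : V n))) mu01 := by
    intro j
    obtain ⟨D, hD⟩ := hbd j
    exact Integrable.of_bound (((hm j).comp T.Ψ_meas).aestronglyMeasurable) D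
      (Eventually.of_forall fun x => hD _)
  have h1 : ∀ j, ip (fun ζ : Sph n => VV j f ζ) (fun ζ : Sph n => VV j g ζ) =
      ∫ x, VV j f (T.Ψ x : V n) * (starRingEnd ℂ) (VV j g (T.Ψ x : V n)) ∂mu01 := fun j =>
    (T.integral_Ψ (hm j)).symm
  simp_rw [h1]
  rw [← Finset.sum_sub_distrib]
  have h2 : ∀ j ∈ Finset.range J, ‖(∫ x, VV j f (T.β (j / 8 + c) x : V n) *
        (starRingEnd ℂ) (VV j g (T.β (j / 8 + c) x : V n)) ∂mu01) -
      ∫ x, VV j f (T.Ψ x : V n) * (starRingEnd ℂ) (VV j g (T.Ψ x : V n)) ∂mu01‖ₑ ≤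
      C * ENNReal.ofReal (Real.sqrt (T.epsc c)) *
        ∫⁻ x, pst j (fun w : Sph n => VV j f w) (T.Ψ x) *
          pst j (fun w : Sph n => VV j g w) (T.Ψ x) ∂mu01 := by
    intro j _
    rw [← integral_sub (hi1 j) (hi2 j)]
    refine (enorm_integral_le_lintegral_enorm _).trans ?_
    rw [← lintegral_const_mul' _ _ (by finiteness)]
    exact setLIntegral_mono' measurableSet_Ico fun x hx => hC c hc j f g hf hg x hx
  have h3 : ∀ (s : Finset ℕ) (F : ℕ → ℂ), ‖∑ j ∈ s, F j‖ₑ ≤ ∑ j ∈ s, ‖F j‖ₑ := fun s F =>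
    enorm_sum_le s F
  refine (h3 _ _).trans ?_
  refine (Finset.sum_le_sum h2).trans ?_
  rw [← Finset.mul_sum]
  gcongr
  rw [← lintegral_finsetSum]
  · refine lintegral_mono fun x => ?_
    exact ENNReal.sum_le_tsum _
  · intro j _
    exact (((measurable_pst _ _).comp T.Ψ_meas).mul ((measurable_pst _ _).comp T.Ψ_meas))

end TreeData

end Pool.Agent.MP28b1a7
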