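import Pool.Agent.Lib.MP_28b1a7_an.FrameA1
import Pool.Agent.Lib.MP_28b1a7_an.Dyadic

/-!
The first frame: indices, functions, analysis bounds and the Carleson property.
-/

namespace Pool.Agent.MP28b1a7

open MeasureTheory Filter Topology Set
open scoped InnerProductSpace ENNReal NNReal

namespace TreeData

variable {n : ℕ} [NeZero n] (T : TreeData n)

/-- pairs (frequency, node) -/
def LamA (c : ℕ) : Type := {p : ℕ × Sph n // p.2 ∈ T.N (p.1 / 8 + c)}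

/-- length of the cell -/
noncomputable def len (t : ℕ) (v : Sph n) : ℝ := T.hi t v - T.lo t v

lemma len_pos {t : ℕ} {v : Sph n} (hv : v ∈ T.N t) : 0 < T.len t v := by
  have h1 := T.len_ge t v hv
  have h2 : 0 < T.c1 / (2 : ℝ) ^ (8 * t * n) := by have := T.c1_pos; positivity
  unfold len; linarith

/-- the admissible offsets -/
def OK (l0 : ℕ) : Prop := 9 ≤ T.c1 * 2 ^ (8 * n * l0)

lemma exists_OK : ∃ l0, T.OK l0 := by
  have hc := T.c1_pos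
  obtain ⟨m, hm⟩ := pow_unbounded_of_one_lt (9 / T.c1) (by norm_num : (1 : ℝ) < 2)
  refine ⟨m, ?_⟩
  unfold OK
  have h1 : (2 : ℝ) ^ m ≤ 2 ^ (8 * n * m) := by
    apply pow_le_pow_right₀ (by norm_num)
    have : 1 ≤ n := Nat.one_le_iff_ne_zero.mpr (NeZero.ne n)
    nlinarith
  rw [div_lt_iff₀ hc] at hm
  nlinarith

lemma G_pow (t : ℕ) : (((2 ^ (8 * n) : ℕ) : ℝ)) ^ t = 2 ^ (8 * n * t) := by
  push_cast; rw [← pow_mul]

/-- the position of the interval attached to `(j, v)` -/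
noncomputable def pos (c l0 : ℕ) (j : ℕ) (v : Sph n) : ℕ :=
  ⌈T.lo (j / 8 + c) v * (2 : ℝ) ^ (8 * n * (j / 8 + c + l0))⌉₊ + j % 8

lemma pos_bounds {c l0 : ℕ} (h : T.OK l0) {j : ℕ} {v : Sph n} (hv : v ∈ T.N (j / 8 + c)) :
    T.lo (j / 8 + c) v * 2 ^ (8 * n * (j / 8 + c + l0)) ≤ T.pos c l0 j v ∧
    (T.pos c l0 j v : ℝ) + 1 ≤ T.hi (j / 8 + c) v * 2 ^ (8 * n * (j / 8 + c + l0)) := by
  set t := j / 8 + c with ht
  set P : ℝ := 2 ^ (8 * n * (t + l0)) with hP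
  have hP0 : 0 < P := by positivity
  have hlo := T.lo_nonneg t v hv
  have h1 : 9 ≤ (T.hi t v - T.lo t v) * P := by
    have h2 := T.len_ge t v hv
    have h3 : P = 2 ^ (8 * t * n) * 2 ^ (8 * n * l0) := by
      rw [hP, ← pow_add]; congr 1; ring
    calc (9 : ℝ) ≤ T.c1 * 2 ^ (8 * n * l0) := h
      _ = T.c1 / 2 ^ (8 * t * n) * P := by rw [h3]; field_simp
      _ ≤ _ := by gcongr
  unfold pos
  have h4 := Nat.le_ceil (T.lo t v * P)
  have h5 := Nat.ceil_lt_add_one (a := T.lo t v * P) (by positivity)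
  have h6 : ((j % 8 : ℕ) : ℝ) ≤ 7 := by
    have : j % 8 ≤ 7 := by omega
    exact_mod_cast this
  have h7 : (0 : ℝ) ≤ ((j % 8 : ℕ) : ℝ) := by positivity
  push_cast
  constructor
  · linarith
  · nlinarith

lemma pos_lt {c l0 : ℕ} (h : T.OK l0) {j : ℕ} {v : Sph n} (hv : v ∈ T.N (j / 8 + c)) :
    T.pos c l0 j v < (2 ^ (8 * n)) ^ (j / 8 + c + l0) := by
  have h1 := (T.pos_bounds h hv).2
  have h2 := T.hi_le _ v hv
  have h3 : (0 : ℝ) < 2 ^ (8 * n * (j / 8 + c + l0)) := by positivity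
  have h4 : ((T.pos c l0 j v : ℕ) : ℝ) < (((2 ^ (8 * n)) ^ (j / 8 + c + l0) : ℕ) : ℝ) := by
    push_cast
    rw [← pow_mul]
    nlinarith
  exact_mod_cast h4

/-- the injection of pairs into the tree -/
noncomputable def emb (c l0 : ℕ) (h : T.OK l0) (p : T.LamA c) : Idx (2 ^ (8 * n)) :=
  ⟨(p.1.1 / 8 + c + l0, T.pos c l0 p.1.1 p.1.2), T.pos_lt h p.2⟩

lemma mem_cell_of {c l0 : ℕ} (h : T.OK l0) {j : ℕ} {v : Sph n} (hv : v ∈ T.N (j / 8 + c))
    {x : ℝ} (hx : x ∈ dI (2 ^ (8 * n)) (j / 8 + c + l0) (T.pos c l0 j v)) :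
    x ∈ Ico (0 : ℝ) 1 ∧ T.β (j / 8 + c) x = v := by
  have hb := T.pos_bounds h hv
  have hP0 : (0 : ℝ) < 2 ^ (8 * n * (j / 8 + c + l0)) := by positivity
  have hx' : x ∈ Ico (T.lo (j / 8 + c) v) (T.hi (j / 8 + c) v) := by
    unfold dI at hx
    rw [G_pow] at hx
    have h1 : (T.pos c l0 j v : ℝ) ≤ x * 2 ^ (8 * n * (j / 8 + c + l0)) :=
      (div_le_iff₀ hP0).mp hx.1
    have h2 : x * 2 ^ (8 * n * (j / 8 + c + l0)) < (T.pos c l0 j v : ℝ) + 1 :=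
      (lt_div_iff₀ hP0).mp hx.2
    constructor
    · have := hb.1.trans h1
      exact le_of_mul_le_mul_right this hP0
    · have := lt_of_lt_of_le h2 hb.2
      exact lt_of_mul_lt_mul_right this hP0.le
  rw [← T.cell _ v hv] at hx'
  exact ⟨hx'.1, by rw [T.β_eq hx'.1]; exact hx'.2⟩

lemma emb_inj (c l0 : ℕ) (h : T.OK l0) : Function.Injective (T.emb c l0 h) := by
  rintro ⟨⟨j, v⟩, hv⟩ ⟨⟨j', v'⟩, hv'⟩ he
  have h1 : j / 8 + c + l0 = j' / 8 + c + l0 := congrArg (fun i => i.1.1) he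
  have h2 : T.pos c l0 j v = T.pos c l0 j' v' := congrArg (fun i => i.1.2) he
  have h3 : j / 8 = j' / 8 := by omega
  simp only at hv hv'
  have hmem : ((T.pos c l0 j v : ℝ) / (((2 ^ (8 * n) : ℕ) : ℝ)) ^ (j / 8 + c + l0)) ∈
      dI (2 ^ (8 * n)) (j / 8 + c + l0) (T.pos c l0 j v) := by
    unfold dI
    refine ⟨le_rfl, ?_⟩
    have : (0 : ℝ) < (((2 ^ (8 * n) : ℕ) : ℝ)) ^ (j / 8 + c + l0) := by positivity
    gcongr
    linarith
  have h4 := T.mem_cell_of h hv hmem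
  have hmem' : ((T.pos c l0 j v : ℝ) / (((2 ^ (8 * n) : ℕ) : ℝ)) ^ (j / 8 + c + l0)) ∈
      dI (2 ^ (8 * n)) (j' / 8 + c + l0) (T.pos c l0 j' v') := by
    rw [← h2, ← h3]; exact hmem
  have h5 := T.mem_cell_of h hv' hmem'
  have hvv : v = v' := by
    rw [← h4.2, ← h5.2, h3]
  subst hvv
  have h6 : j % 8 = j' % 8 := by
    unfold pos at h2
    rw [h3] at h2
    omega
  have hjj : j = j' := by omega
  subst hjj
  rfl

/-- the frame functions on pairs -/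
noncomputable def gA0 (c : ℕ) (p : T.LamA c) (ζ : Sph n) : ℂ :=
  ((Real.sqrt (T.len (p.1.1 / 8 + c) p.1.2) : ℝ) : ℂ) *
    KM (4 * 2 ^ p.1.1) (AA p.1.1) (ζ : V n) p.1.2

/-- the frame functions on the tree -/
noncomputable def gA (c l0 : ℕ) (h : T.OK l0) (i : Idx (2 ^ (8 * n))) : Sph n → ℂ :=
  Function.extend (T.emb c l0 h) (T.gA0 c) (fun _ _ => 0) i

lemma gA_emb (c l0 : ℕ) (h : T.OK l0) (p : T.LamA c) : T.gA c l0 h (T.emb c l0 h p) = T.gA0 c p :=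
  (T.emb_inj c l0 h).extend_apply _ _ _

lemma gA_zero (c l0 : ℕ) (h : T.OK l0) {i : Idx (2 ^ (8 * n))} (hi : ¬ ∃ p, T.emb c l0 h p = i) :
    T.gA c l0 h i = fun _ => 0 := Function.extend_apply' _ _ _ hi

lemma Pol_gA (c l0 : ℕ) (h : T.OK l0) (i : Idx (2 ^ (8 * n))) : ∃ M, Pol M (T.gA c l0 h i) := by
  by_cases hi : ∃ p, T.emb c l0 h p = i
  · obtain ⟨p, rfl⟩ := hi
    rw [gA_emb]
    exact ⟨_, (Pol_KM _ _ _).const_mul _⟩
  · rw [T.gA_zero c l0 h hi]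
    exact ⟨0, Pol_zero⟩

/-- coefficients -/
noncomputable def coef (c l0 : ℕ) (h : T.OK l0) (f : Sph n → ℂ) (i : Idx (2 ^ (8 * n))) : ℂ :=
  ip f (T.gA c l0 h i)

lemma coef_emb (c l0 : ℕ) (h : T.OK l0) {f : Sph n → ℂ} (hf : BM f) (p : T.LamA c) :
    T.coef c l0 h f (T.emb c l0 h p) =
      ((Real.sqrt (T.len (p.1.1 / 8 + c) p.1.2) : ℝ) : ℂ) * VV p.1.1 f (p.1.2 : V n) := by
  unfold coef
  rw [gA_emb]
  unfold gA0
  rw [ip_const_right, ip_KM _ _ hf, Complex.conj_ofReal]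
  rfl

lemma coef_zero (c l0 : ℕ) (h : T.OK l0) (f : Sph n → ℂ) {i : Idx (2 ^ (8 * n))}
    (hi : ¬ ∃ p, T.emb c l0 h p = i) : T.coef c l0 h f i = 0 := by
  unfold coef
  rw [T.gA_zero c l0 h hi, ip_zero_right]

/-- pointwise bound of the coefficients -/
lemma lvl_coef_le (c l0 : ℕ) (h : T.OK l0) : ∃ C : ℝ≥0, ∀ (f : Sph n → ℂ), BM f →
    ∀ (t : ℕ), ∀ x ∈ Ico (0 : ℝ) 1, lvl (T.coef c l0 h f) t x ^ 2 ≤
      C * ∑' j : ℕ, if j / 8 + c + l0 = t then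
        pst j (fun w : Sph n => VV j f w) (T.Ψ x) ^ 2 else 0 := by
  obtain ⟨C, hC⟩ := T.pst_compare
  have hc2 := T.c2_pos
  refine ⟨(T.c2 * 2 ^ (8 * n * l0)).toNNReal * C ^ 2, fun f hf t x hx => ?_⟩
  have hG : 2 ≤ 2 ^ (8 * n) := by
    have : 1 ≤ n := Nat.one_le_iff_ne_zero.mpr (NeZero.ne n)
    calc 2 = 2 ^ 1 := (pow_one 2).symm
      _ ≤ _ := Nat.pow_le_pow_right (by norm_num) (by omega)
  have hm := mm_lt hG t hx
  set i : Idx (2 ^ (8 * n)) := ⟨(t, mm (2 ^ (8 * n)) t x), hm⟩ with hi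
  have hl : lvl (T.coef c l0 h f) t x =
      (((2 ^ (8 * n) : ℕ) : ℝ≥0∞) ^ t) ^ (1 / 2 : ℝ) * ‖T.coef c l0 h f i‖ₑ := by
    unfold lvl co
    have hm' : ⌊x * (((2 ^ (8 * n) : ℕ) : ℝ)) ^ t⌋₊ < (2 ^ (8 * n)) ^ t := hm
    rw [dif_pos hm']
    rfl
  rw [hl]
  by_cases hex : ∃ p, T.emb c l0 h p = i
  · obtain ⟨⟨⟨j, v⟩, hv⟩, hp⟩ := hex
    have h1 : j / 8 + c + l0 = t := congrArg (fun i => i.1.1) hp
    have h2 : T.pos c l0 j v = mm (2 ^ (8 * n)) t x := congrArg (fun i => i.1.2) hp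
    have hxd : x ∈ dI (2 ^ (8 * n)) (j / 8 + c + l0) (T.pos c l0 j v) := by
      rw [mem_dI hG _ _ hx.1, h1, h2]
    have h3 := (T.mem_cell_of h hv hxd).2
    have h4 := (hC j (j / 8 + c) (by omega) (fun w : Sph n => VV j f w) x hx).2
    rw [h3] at h4
    have h5 : ‖VV j f (v : V n)‖ₑ ≤ C * pst j (fun w : Sph n => VV j f w) (T.Ψ x) :=
      (le_pst_self j (fun w : Sph n => VV j f w) v).trans h4
    have h6 : T.coef c l0 h f i = ((Real.sqrt (T.len (j / 8 + c) v) : ℝ) : ℂ) *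
        VV j f (v : V n) := by
      rw [← hp]; exact T.coef_emb c l0 h hf _
    have hlen := T.len_pos hv
    have hlen2 : T.len (j / 8 + c) v ≤ T.c2 / 2 ^ (8 * (j / 8 + c) * n) := T.len_le _ v hv
    have h7 : ((((2 ^ (8 * n) : ℕ) : ℝ≥0∞) ^ t) ^ (1 / 2 : ℝ)) ^ 2 =
        ENNReal.ofReal (2 ^ (8 * n * t)) := by
      rw [← ENNReal.rpow_natCast, ← ENNReal.rpow_mul]
      norm_num
      rw [← pow_mul]
    have h8 : ‖((Real.sqrt (T.len (j / 8 + c) v) : ℝ) : ℂ)‖ₑ ^ 2 =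
        ENNReal.ofReal (T.len (j / 8 + c) v) := by
      rw [← ofReal_norm, ← ENNReal.ofReal_pow (norm_nonneg _), Complex.norm_real,
        Real.norm_of_nonneg (Real.sqrt_nonneg _), Real.sq_sqrt hlen.le]
    have h9 : ENNReal.ofReal (2 ^ (8 * n * t)) * ENNReal.ofReal (T.len (j / 8 + c) v) ≤
        ((T.c2 * 2 ^ (8 * n * l0)).toNNReal : ℝ≥0∞) := by
      rw [← ENNReal.ofReal_mul (by positivity)]
      apply ENNReal.ofReal_le_ofReal
      have e : (2 : ℝ) ^ (8 * n * t) = 2 ^ (8 * (j / 8 + c) * n) * 2 ^ (8 * n * l0) := by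
        rw [← pow_add, ← h1]; congr 1; ring
      rw [e]
      calc 2 ^ (8 * (j / 8 + c) * n) * 2 ^ (8 * n * l0) * T.len (j / 8 + c) v
          ≤ 2 ^ (8 * (j / 8 + c) * n) * 2 ^ (8 * n * l0) *
            (T.c2 / 2 ^ (8 * (j / 8 + c) * n)) := by gcongr
        _ = _ := by field_simp
    rw [h6, mul_pow, h7, enorm_mul, mul_pow, h8, ← mul_assoc]
    calc _ ≤ ((T.c2 * 2 ^ (8 * n * l0)).toNNReal : ℝ≥0∞) *
          (C * pst j (fun w : Sph n => VV j f w) (T.Ψ x)) ^ 2 := by gcongr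
      _ = ((T.c2 * 2 ^ (8 * n * l0)).toNNReal * C ^ 2 : ℝ≥0) *
          (if j / 8 + c + l0 = t then
            pst j (fun w : Sph n => VV j f w) (T.Ψ x) ^ 2 else 0) := by
          rw [if_pos h1]; push_cast; ring
      _ ≤ _ := by
          gcongr
          exact ENNReal.le_tsum (f := fun j : ℕ => if j / 8 + c + l0 = t then
            pst j (fun w : Sph n => VV j f w) (T.Ψ x) ^ 2 else 0) j
  · rw [T.coef_zero c l0 h f hex]
    simp

/-- sum over levels -/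
lemma sum_lvl_coef_le (c l0 : ℕ) (h : T.OK l0) : ∃ C : ℝ≥0, ∀ (f : Sph n → ℂ), BM f →
    ∀ x ∈ Ico (0 : ℝ) 1, ∑' t, lvl (T.coef c l0 h f) t x ^ 2 ≤
      C * ∑' j : ℕ, pst j (fun w : Sph n => VV j f w) (T.Ψ x) ^ 2 := by
  obtain ⟨C, hC⟩ := T.lvl_coef_le c l0 h
  refine ⟨C, fun f hf x hx => ?_⟩
  calc _ ≤ ∑' t, C * ∑' j : ℕ, (if j / 8 + c + l0 = t then
        pst j (fun w : Sph n => VV j f w) (T.Ψ x) ^ 2 else 0) :=
        ENNReal.tsum_le_tsum fun t => hC f hf t x hx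
    _ = C * ∑' j : ℕ, ∑' t, (if j / 8 + c + l0 = t then
        pst j (fun w : Sph n => VV j f w) (T.Ψ x) ^ 2 else 0) := by
        rw [ENNReal.tsum_mul_left, ENNReal.tsum_comm]
    _ = _ := by
        congr 1
        refine tsum_congr fun j => ?_
        rw [tsum_eq_single (j / 8 + c + l0) (fun t ht => if_neg (fun h => ht h.symm)),
          if_pos rfl]

/-- sum over high levels -/
lemma sum_lvl_coef_high (c l0 : ℕ) (h : T.OK l0) : ∃ C : ℝ≥0, ∀ (f : Sph n → ℂ), BM f →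
    ∀ (t : ℕ), ∀ x ∈ Ico (0 : ℝ) 1, ∑' j, lvl (T.coef c l0 h f) (t + j) x ^ 2 ≤
      C * ∑' i : ℕ, pst (8 * (t - (c + l0)) + i)
        (fun w : Sph n => VV (8 * (t - (c + l0)) + i) f w) (T.Ψ x) ^ 2 := by
  obtain ⟨C, hC⟩ := T.lvl_coef_le c l0 h
  refine ⟨C, fun f hf t x hx => ?_⟩
  set P : ℕ → ℝ≥0∞ := fun j => pst j (fun w : Sph n => VV j f w) (T.Ψ x) ^ 2 with hP
  set s := t - (c + l0) with hs
  calc _ ≤ ∑' j', C * ∑' j : ℕ, (if j / 8 + c + l0 = t + j' then P j else 0) :=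
        ENNReal.tsum_le_tsum fun j' => hC f hf (t + j') x hx
    _ = C * ∑' j : ℕ, ∑' j' : ℕ, (if j / 8 + c + l0 = t + j' then P j else 0) := by
        rw [ENNReal.tsum_mul_left, ENNReal.tsum_comm]
    _ ≤ C * ∑' j : ℕ, (if 8 * s ≤ j then P j else 0) := by
        gcongr with j
        by_cases hj : t ≤ j / 8 + c + l0
        · have h1 : 8 * s ≤ j := by omega
          rw [if_pos h1, tsum_eq_single (j / 8 + c + l0 - t) (fun j' hj' => if_neg (by omega)),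
            if_pos (by omega)]
        · have : ∀ j' : ℕ, (if j / 8 + c + l0 = t + j' then P j else 0) = 0 := fun j' =>
            if_neg (by omega)
          simp_rw [this]
          simp
    _ = C * ∑' i : ℕ, P (8 * s + i) := by
        congr 1
        have hinj : Function.Injective (fun i : ℕ => 8 * s + i) := fun a b h => by
          simpa using h
        have h3 := hinj.tsum_eq (f := fun j => if 8 * s ≤ j then P j else 0) (by
          intro j hj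
          rw [Function.mem_support] at hj
          by_cases hle : 8 * s ≤ j
          · exact ⟨j - 8 * s, by simp only; omega⟩
          · exact absurd (if_neg hle) hj)
        rw [← h3]
        exact tsum_congr fun i => if_pos (by omega)

/-- Carleson property of the coefficients of bounded functions -/
lemma coef_carleson (c l0 : ℕ) (h : T.OK l0) : ∃ C : ℝ≥0, 0 < C ∧ ∀ (b : Sph n → ℂ), BM b →
    (∀ x, ‖b x‖ ≤ 1) → ∀ t m, m < (2 ^ (8 * n)) ^ t →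
      ∫⁻ x in dI (2 ^ (8 * n)) t m, ∑' j, lvl (T.coef c l0 h b) (t + j) x ^ 2 ≤
        (C : ℝ≥0∞) ^ 2 * (((2 ^ (8 * n) : ℕ) : ℝ≥0∞) ^ t)⁻¹ := by
  obtain ⟨C1, hC1⟩ := T.sum_lvl_coef_high c l0 h
  obtain ⟨C2, hC2⟩ := T.carleson_interval
  have hc2 := T.c2_pos
  set K : ℝ := 1 + 2 * (T.c2 * 2 ^ (8 * n * (c + l0))) with hK
  have hK0 : 0 < K := by positivity
  set D : ℝ≥0 := C1 * C2 * K.toNNReal + 1 with hD
  refine ⟨D, by positivity, fun b hb hb1 t m hm => ?_⟩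
  set P : ℝ := 2 ^ (8 * n * t) with hP
  have hP0 : 0 < P := by positivity
  have hdI : dI (2 ^ (8 * n)) t m = Ico ((m : ℝ) / P) (((m : ℝ) + 1) / P) := by
    unfold dI; rw [G_pow]
  have hsub : dI (2 ^ (8 * n)) t m ⊆ Ico (0 : ℝ) 1 := by
    rw [hdI]
    intro x hx
    refine ⟨le_trans (by positivity) hx.1, lt_of_lt_of_le hx.2 ?_⟩
    rw [div_le_one hP0]
    have : ((m : ℕ) : ℝ) + 1 ≤ (((2 ^ (8 * n)) ^ t : ℕ) : ℝ) := by exact_mod_cast hm
    rw [hP]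
    push_cast at this
    rwa [← pow_mul] at this
  have h1 : (m + 1 : ℝ) / P ≤ 1 := by
    rw [div_le_one hP0]
    have : ((m : ℕ) : ℝ) + 1 ≤ (((2 ^ (8 * n)) ^ t : ℕ) : ℝ) := by exact_mod_cast hm
    rw [hP]
    push_cast at this
    rwa [← pow_mul] at this
  have hDD : (C1 : ℝ≥0∞) * C2 * K.toNNReal ≤ (D : ℝ≥0∞) ^ 2 := by
    have h2 : C1 * C2 * K.toNNReal ≤ D ^ 2 := by
      have h3 : 1 ≤ D := by rw [hD]; simp
      calc C1 * C2 * K.toNNReal ≤ D * 1 := by rw [hD, mul_one]; simp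
        _ ≤ D * D := by gcongr
        _ = _ := (pow_two D).symm
    exact_mod_cast h2
  have hfin : ENNReal.ofReal (((m : ℝ) + 1) / P - (m : ℝ) / P +
      2 * (T.c2 / 2 ^ (8 * (t - (c + l0)) * n))) ≤ (K.toNNReal : ℝ≥0∞) *
      (((2 ^ (8 * n) : ℕ) : ℝ≥0∞) ^ t)⁻¹ := by
    have e1 : (((2 ^ (8 * n) : ℕ) : ℝ≥0∞) ^ t)⁻¹ = ENNReal.ofReal (P⁻¹) := by
      rw [ENNReal.ofReal_inv_of_pos hP0, hP, ENNReal.ofReal_pow (by norm_num)]
      norm_num
      rw [← pow_mul]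
    rw [e1]
    change _ ≤ ENNReal.ofReal K * _
    rw [← ENNReal.ofReal_mul hK0.le]
    apply ENNReal.ofReal_le_ofReal
    have e2 : (2 : ℝ) ^ (8 * n * t) ≤ 2 ^ (8 * (t - (c + l0)) * n) * 2 ^ (8 * n * (c + l0)) := by
      rw [← pow_add]
      apply pow_le_pow_right₀ (by norm_num)
      have : t ≤ (t - (c + l0)) + (c + l0) := by omega
      calc 8 * n * t ≤ 8 * n * ((t - (c + l0)) + (c + l0)) := Nat.mul_le_mul_left _ this
        _ = _ := by ring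
    have e3 : T.c2 / 2 ^ (8 * (t - (c + l0)) * n) ≤ T.c2 * 2 ^ (8 * n * (c + l0)) * P⁻¹ := by
      rw [← div_eq_mul_inv, div_le_div_iff₀ (by positivity) hP0]
      rw [← hP] at e2
      nlinarith
    have e4 : ((m : ℝ) + 1) / P - (m : ℝ) / P = P⁻¹ := by field_simp; ring
    rw [e4, hK]
    linarith
  calc ∫⁻ x in dI (2 ^ (8 * n)) t m, ∑' j, lvl (T.coef c l0 h b) (t + j) x ^ 2
      ≤ ∫⁻ x in dI (2 ^ (8 * n)) t m, C1 * ∑' i : ℕ, pst (8 * (t - (c + l0)) + i)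
        (fun w : Sph n => VV (8 * (t - (c + l0)) + i) b w) (T.Ψ x) ^ 2 :=
        setLIntegral_mono' (by rw [hdI]; exact measurableSet_Ico) fun x hx =>
          hC1 b hb t x (hsub hx)
    _ = C1 * ∫⁻ x in Ico ((m : ℝ) / P) (((m : ℝ) + 1) / P), ∑' i : ℕ,
        pst (8 * (t - (c + l0)) + i)
        (fun w : Sph n => VV (8 * (t - (c + l0)) + i) b w) (T.Ψ x) ^ 2 := by
        rw [lintegral_const_mul' _ _ ENNReal.coe_ne_top, hdI]
    _ ≤ C1 * (C2 * ENNReal.ofReal (((m : ℝ) + 1) / P - (m : ℝ) / P +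
        2 * (T.c2 / 2 ^ (8 * (t - (c + l0)) * n)))) := by
        gcongr
        exact hC2 b hb hb1 _ _ _ (by positivity) (by gcongr; linarith) h1
    _ ≤ C1 * (C2 * ((K.toNNReal : ℝ≥0∞) * (((2 ^ (8 * n) : ℕ) : ℝ≥0∞) ^ t)⁻¹)) := by gcongr
    _ = (C1 * C2 * K.toNNReal) * (((2 ^ (8 * n) : ℕ) : ℝ≥0∞) ^ t)⁻¹ := by ring
    _ ≤ _ := by gcongr

end TreeData

end Pool.Agent.MP28b1a7
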