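import Pool.Agent.Lib.MP_28b1a7_an.Dyadic
import Pool.Agent.Lib.MP_28b1a7_an.H2

/-!
General lemmas for frames: continuity of the norms, `ℓ²` norm through levels,
synthesis operators.
-/

namespace Pool.Agent.MP28b1a7

open MeasureTheory Filter Topology Set
open scoped InnerProductSpace ENNReal NNReal

/-- a seminorm dominated by the norm is continuous -/
lemma continuous_seminorm {E : Type*} [NormedAddCommGroup E] [NormedSpace ℂ E]
    (p : Seminorm ℂ E) (hp : ∀ x, p x ≤ ‖x‖) : Continuous p := by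
  have h : LipschitzWith 1 p := by
    apply LipschitzWith.of_dist_le_mul
    intro x y
    rw [NNReal.coe_one, one_mul, Real.dist_eq, dist_eq_norm_sub x y]
    exact (abs_sub_map_le_sub p x y).trans (hp _)
  exact h.continuous

lemma two_le_G (n : ℕ) [NeZero n] : 2 ≤ 2 ^ (8 * n) := by
  have : 1 ≤ n := Nat.one_le_iff_ne_zero.mpr (NeZero.ne n)
  calc 2 = 2 ^ 1 := (pow_one 2).symm
    _ ≤ _ := Nat.pow_le_pow_right (by norm_num) (by omega)

lemma G_pos (n : ℕ) [NeZero n] : 0 < 2 ^ (8 * n) := by positivity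

lemma continuous_p1 (n : ℕ) [NeZero n] : Continuous (p1 n) := continuous_seminorm _ p1_le

lemma continuous_NDs {G : ℕ} (hG : 0 < G) : Continuous (NDs hG) :=
  continuous_seminorm _ (NDs_le hG)

/-- the `ℓ²` norm through the levels -/
lemma n2_eq_lint {G : ℕ} (hG : 2 ≤ G) (c : Idx G → ℂ) :
    n2 c = ∫⁻ x, ∑' t, lvl c t x ^ 2 ∂mu01 := by
  rw [lintegral_tsum fun t => ((measurable_lvl c t).pow_const 2).aemeasurable, ← tsum_co]
  refine tsum_congr fun t => ?_
  have h1 : ∀ x, lvl c t x ^ 2 = (fun m => (G : ℝ≥0∞) ^ t * ‖co c t m‖ₑ ^ 2) (mm G t x) := by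
    intro x
    rw [lvl_eq, mul_pow, ← ENNReal.rpow_natCast, ← ENNReal.rpow_mul]
    norm_num
  rw [lintegral_congr h1, lintegral_level hG t (fun m => (G : ℝ≥0∞) ^ t * ‖co c t m‖ₑ ^ 2),
    tsum_eq_sum (s := Finset.range (G ^ t))]
  · refine Finset.sum_congr rfl fun m _ => ?_
    rw [mul_comm, ← mul_assoc, ENNReal.inv_mul_cancel (Gt_ne_zero hG t) (Gt_ne_top G t), one_mul]
  · intro m hm
    unfold co
    rw [dif_neg (by simpa using hm)]
    simp

section
variable {n : ℕ} [NeZero n]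

/-- synthesis of finitely supported sequences -/
lemma synth_eq {G : ℕ} {g : Idx G → Sph n → ℂ} {M : Idx G → ℕ} (hP : ∀ i, Pol (M i) (g i))
    (c : Idx G →₀ ℂ) : ∃ (M' : ℕ) (h : Pol M' (fun x => ∑ i ∈ c.support, c i * g i x)),
      ∑ i ∈ c.support, c i • ofPol (hP i) = ofPol h := ofPol_sum c.support c hP

lemma norm_sum_le_tsum {G : ℕ} (c : Idx G →₀ ℂ) (w : Idx G → ℂ) {K : ℝ≥0∞}
    (h : ∑' i, ‖c i‖ₑ * ‖w i‖ₑ ≤ K) : ‖∑ i ∈ c.support, c i * w i‖ₑ ≤ K := by
  refine (enorm_sum_le _ _).trans (le_trans ?_ h)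
  simp_rw [enorm_mul]
  exact ENNReal.sum_le_tsum _

/-- the synthesis bound, from the Carleson property of the coefficients -/
lemma synth_bound {G : ℕ} (hG : 2 ≤ G) {g : Idx G → Sph n → ℂ} {M : Idx G → ℕ}
    (hP : ∀ i, Pol (M i) (g i)) {A : H2 n →L[ℂ] DD G} (hA : ∀ f i, A f i = ⟪ofPol (hP i), f⟫_ℂ)
    {C : ℝ≥0} (hC : 0 < C) (hCar : ∀ (b : Sph n → ℂ), BM b → (∀ x, ‖b x‖ ≤ 1) →
      ∀ t m, m < G ^ t → ∫⁻ x in dI G t m, ∑' j, lvl (fun i => ip b (g i)) (t + j) x ^ 2 ≤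
        (C : ℝ≥0∞) ^ 2 * ((G : ℝ≥0∞) ^ t)⁻¹) (c : DD G) :
    p1 n (ContinuousLinearMap.adjoint A c) ≤ 3 * C * (ND (c : Idx G → ℂ)).toReal := by
  have hG0 : 0 < G := by omega
  have hclosed : IsClosed {c : DD G | p1 n (ContinuousLinearMap.adjoint A c) ≤
      3 * C * (ND (c : Idx G → ℂ)).toReal} := by
    apply isClosed_le
    · exact (continuous_p1 n).comp (ContinuousLinearMap.adjoint A).continuous
    · exact continuous_const.mul (continuous_NDs hG0)
  have hsub : Set.range (finl : (Idx G →₀ ℂ) → DD G) ⊆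
      {c : DD G | p1 n (ContinuousLinearMap.adjoint A c) ≤
      3 * C * (ND (c : Idx G → ℂ)).toReal} := by
    rintro _ ⟨c, rfl⟩
    change p1 n (ContinuousLinearMap.adjoint A (finl c)) ≤ _
    rw [adjoint_finl hA]
    obtain ⟨M', hM', e⟩ := synth_eq hP c
    rw [e]
    apply p1_le_of_dual
    intro b hb hb1
    have h1 : ip (fun x => ∑ i ∈ c.support, c i * g i x) b =
        ∑ i ∈ c.support, c i * (starRingEnd ℂ) (ip b (g i)) := by
      rw [ip_sum_left _ (fun i _ => (hP i).1.const_mul _) hb]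
      refine Finset.sum_congr rfl fun i _ => ?_
      rw [ip_const_left, ip_conj]
    have h2 := tree_dual hG hC (finl c : Idx G → ℂ) (fun i => ip b (g i)) (hCar b hb hb1)
    have h3 : ‖∑ i ∈ c.support, c i * (starRingEnd ℂ) (ip b (g i))‖ₑ ≤
        3 * C * ND (finl c : Idx G → ℂ) := by
      apply norm_sum_le_tsum
      refine le_trans (le_of_eq ?_) h2
      refine tsum_congr fun i => ?_
      congr 1
      rw [← ofReal_norm, ← ofReal_norm, RCLike.norm_conj]
    rw [h1]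
    have h4 : (3 * C * ND (finl c : Idx G → ℂ)) ≠ ∞ := by
      have := ND_ne_top hG0 (finl c)
      finiteness
    have h5 := ENNReal.toReal_mono h4 h3
    rw [toReal_enorm] at h5
    refine h5.trans (le_of_eq ?_)
    rw [ENNReal.toReal_mul, ENNReal.toReal_mul]
    rfl
  exact (hclosed.closure_subset_iff.mpr hsub) (dense_finl c)

/-- extension of an inequality from polynomials to `H2` -/
lemma H2_ext {S : Set (H2 n)} (hS : IsClosed S)
    (h : ∀ (M : ℕ) (f : Sph n → ℂ) (hf : Pol M f), ofPol hf ∈ S) (f : H2 n) : f ∈ S := by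
  have hsub : {x : H2 n | ∃ (M : ℕ) (f : Sph n → ℂ) (hf : Pol M f), x = ofPol hf} ⊆ S := by
    rintro _ ⟨M, f, hf, rfl⟩
    exact h M f hf
  exact (hS.closure_subset_iff.mpr hsub) (dense_ofPol n f)

/-- extension of an inequality between continuous functions from polynomials to `H2` -/
lemma H2_ext_le {F G : H2 n → ℝ} (hF : Continuous F) (hG : Continuous G)
    (h : ∀ (M : ℕ) (f : Sph n → ℂ) (hf : Pol M f), F (ofPol hf) ≤ G (ofPol hf)) (x : H2 n) :
    F x ≤ G x :=
  H2_ext (S := {x | F x ≤ G x}) (isClosed_le hF hG) h x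

end

end Pool.Agent.MP28b1a7
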