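import Pool.Agent.Lib.MP_28b1a7_an.FrameA2
import Pool.Agent.Lib.MP_28b1a7_an.Gen

/-!
The first frame: the analysis operator and the reproduction error.
-/

namespace Pool.Agent.MP28b1a7

open MeasureTheory Filter Topology Set
open scoped InnerProductSpace ENNReal NNReal

namespace TreeData

variable {n : ℕ} [NeZero n] (T : TreeData n)

lemma sqrt_const_mul (C a : ℝ≥0∞) : (C * a) ^ (1 / 2 : ℝ) = C ^ (1 / 2 : ℝ) * a ^ (1 / 2 : ℝ) :=
  ENNReal.mul_rpow_of_nonneg _ _ (by norm_num)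

/-- analysis bound in `ND` norm for polynomials -/
lemma ND_coef_le (c l0 : ℕ) (h : T.OK l0) : ∃ C : ℝ≥0, ∀ (M : ℕ) (f : Sph n → ℂ), Pol M f →
    ND (T.coef c l0 h f) ≤ C * ∫⁻ ζ, ‖f ζ‖ₑ ∂sig n := by
  obtain ⟨C1, hC1⟩ := T.sum_lvl_coef_le c l0 h
  obtain ⟨C2, hC2⟩ := LP_pst n
  obtain ⟨D, hD⟩ : ∃ D : ℝ≥0, (C1 : ℝ≥0∞) ^ (1 / 2 : ℝ) = D :=
    ⟨((C1 : ℝ≥0∞) ^ (1 / 2 : ℝ)).toNNReal, by
      rw [ENNReal.coe_toNNReal (ENNReal.rpow_ne_top_of_nonneg (by norm_num) ENNReal.coe_ne_top)]⟩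
  refine ⟨D * C2, fun M f hf => ?_⟩
  unfold ND
  have hm : Measurable (sqf (fun (j : ℕ) => pst j (fun w : Sph n => VV j f w))) :=
    meas_sqf fun j => measurable_pst _ _
  calc ∫⁻ x in Ico (0 : ℝ) 1, sqf (lvl (T.coef c l0 h f)) x
      ≤ ∫⁻ x in Ico (0 : ℝ) 1, D * sqf (fun (j : ℕ) => pst j (fun w : Sph n => VV j f w)) (T.Ψ x) := by
        refine setLIntegral_mono' measurableSet_Ico fun x hx => ?_
        unfold sqf
        rw [← hD, ← sqrt_const_mul]
        exact ENNReal.rpow_le_rpow (hC1 f hf.1 x hx) (by norm_num)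
    _ = D * ∫⁻ x, sqf (fun (j : ℕ) => pst j (fun w : Sph n => VV j f w)) (T.Ψ x) ∂mu01 :=
        lintegral_const_mul' _ _ ENNReal.coe_ne_top
    _ = D * ∫⁻ z, sqf (fun (j : ℕ) => pst j (fun w : Sph n => VV j f w)) z ∂sig n := by
        rw [T.lintegral_Ψ hm]
    _ ≤ D * (C2 * ∫⁻ ζ, ‖f ζ‖ₑ ∂sig n) := by
        gcongr
        exact hC2 M f hf
    _ = _ := by push_cast; ring

/-- Bessel's inequality -/
lemma n2_coef_le (c l0 : ℕ) (h : T.OK l0) : ∃ C : ℝ≥0, ∀ (f : Sph n → ℂ), BM f →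
    n2 (T.coef c l0 h f) ≤ C * ∫⁻ ζ, ‖f ζ‖ₑ ^ 2 ∂sig n := by
  obtain ⟨C1, hC1⟩ := T.sum_lvl_coef_le c l0 h
  obtain ⟨C2, hC2⟩ := pst_L2 n
  refine ⟨C1 * C2, fun f hf => ?_⟩
  rw [n2_eq_lint (two_le_G n)]
  have hm : ∀ j, Measurable fun z : Sph n => pst j (fun w : Sph n => VV j f w) z ^ 2 :=
    fun j => (measurable_pst _ _).pow_const 2
  have hm' : Measurable fun z : Sph n => ∑' j, pst j (fun w : Sph n => VV j f w) z ^ 2 :=
    Measurable.tsum hm
  calc ∫⁻ x, ∑' t, lvl (T.coef c l0 h f) t x ^ 2 ∂mu01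
      ≤ ∫⁻ x, C1 * ∑' j : ℕ, pst j (fun w : Sph n => VV j f w) (T.Ψ x) ^ 2 ∂mu01 :=
        setLIntegral_mono' measurableSet_Ico fun x hx => hC1 f hf x hx
    _ = C1 * ∫⁻ x, ∑' j : ℕ, pst j (fun w : Sph n => VV j f w) (T.Ψ x) ^ 2 ∂mu01 :=
        lintegral_const_mul' _ _ ENNReal.coe_ne_top
    _ = C1 * ∑' j : ℕ, ∫⁻ z, pst j (fun w : Sph n => VV j f w) z ^ 2 ∂sig n := by
        rw [T.lintegral_Ψ hm', lintegral_tsum fun j => (hm j).aemeasurable]
    _ ≤ C1 * (C2 * ∫⁻ ζ, ‖f ζ‖ₑ ^ 2 ∂sig n) := by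
        gcongr
        exact hC2 f hf
    _ = _ := by push_cast; ring

/-- the pair with given frequency -/
def mkLam (c j : ℕ) (v : {v // v ∈ T.N (j / 8 + c)}) : T.LamA c := ⟨(j, v.1), v.2⟩

/-- pairs of low frequency -/
noncomputable def QQ (c J : ℕ) : Finset (T.LamA c) :=
  letI := Classical.decEq (T.LamA c)
  (Finset.range J).biUnion fun j => (T.N (j / 8 + c)).attach.image (T.mkLam c j)

lemma mem_QQ {c J : ℕ} (p : T.LamA c) : p ∈ T.QQ c J ↔ p.1.1 < J := by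
  classical
  unfold QQ
  simp only [Finset.mem_biUnion, Finset.mem_range, Finset.mem_image, Finset.mem_attach, true_and]
  constructor
  · rintro ⟨j, hj, v, rfl⟩
    exact hj
  · intro hp
    exact ⟨p.1.1, hp, ⟨p.1.2, p.2⟩, rfl⟩

lemma sum_QQ {c J : ℕ} (F : ℕ → Sph n → ℂ) :
    ∑ p ∈ T.QQ c J, F p.1.1 p.1.2 = ∑ j ∈ Finset.range J, ∑ v ∈ T.N (j / 8 + c), F j v := by
  classical
  unfold QQ
  rw [Finset.sum_biUnion]
  · refine Finset.sum_congr rfl fun j _ => ?_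
    rw [Finset.sum_image]
    · exact Finset.sum_attach (T.N (j / 8 + c)) (fun v => F j v)
    · intro v _ v' _ hvv
      have : v.1 = v'.1 := congrArg (fun p : T.LamA c => p.1.2) hvv
      exact Subtype.ext this
  · intro j _ j' _ hjj
    rw [Function.onFun, Finset.disjoint_left]
    intro p hp hp'
    simp only [Finset.mem_image, Finset.mem_attach, true_and] at hp hp'
    obtain ⟨v, rfl⟩ := hp
    obtain ⟨v', he⟩ := hp'
    exact hjj (congrArg (fun p : T.LamA c => p.1.1) he).symm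

/-- support of the coefficients of a polynomial -/
lemma coef_support (c l0 : ℕ) (h : T.OK l0) {M : ℕ} {f : Sph n → ℂ} (hf : Pol M f)
    {i : Idx (2 ^ (8 * n))} (hi : T.coef c l0 h f i ≠ 0) :
    ∃ p ∈ T.QQ c M, T.emb c l0 h p = i := by
  by_cases hex : ∃ p, T.emb c l0 h p = i
  · obtain ⟨p, rfl⟩ := hex
    refine ⟨p, ?_, rfl⟩
    rw [mem_QQ]
    by_contra hlt
    apply hi
    rw [T.coef_emb c l0 h hf.1, hf.VV_eq_zero (not_lt.mp hlt), mul_zero]
  · exact absurd (T.coef_zero c l0 h f hex) hi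

lemma coef_finite (c l0 : ℕ) (h : T.OK l0) {M : ℕ} {f : Sph n → ℂ} (hf : Pol M f) :
    (Function.support (T.coef c l0 h f)).Finite := by
  classical
  refine Set.Finite.subset ((T.QQ c M).finite_toSet.image (T.emb c l0 h)) fun i hi => ?_
  obtain ⟨p, hp, e⟩ := T.coef_support c l0 h hf hi
  exact ⟨p, hp, e⟩

/-- the finitely supported coefficient sequence -/
noncomputable def coefF (c l0 : ℕ) (h : T.OK l0) {M : ℕ} {f : Sph n → ℂ} (hf : Pol M f) :
    Idx (2 ^ (8 * n)) →₀ ℂ := Finsupp.ofSupportFinite _ (T.coef_finite c l0 h hf)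

lemma coefF_apply (c l0 : ℕ) (h : T.OK l0) {M : ℕ} {f : Sph n → ℂ} (hf : Pol M f)
    (i : Idx (2 ^ (8 * n))) : T.coefF c l0 h hf i = T.coef c l0 h f i := rfl

/-- bilinear sum of coefficients as an integral -/
lemma coef_sum (c l0 : ℕ) (h : T.OK l0) {M : ℕ} {f g : Sph n → ℂ} (hf : Pol M f) (hg : BM g) :
    ∑ i ∈ (T.coefF c l0 h hf).support, T.coefF c l0 h hf i *
      (starRingEnd ℂ) (T.coef c l0 h g i) =
    ∑ j ∈ Finset.range M, ∫ x, VV j f (T.β (j / 8 + c) x : V n) *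
        (starRingEnd ℂ) (VV j g (T.β (j / 8 + c) x : V n)) ∂mu01 := by
  classical
  have h1 : ∑ i ∈ (T.coefF c l0 h hf).support, T.coefF c l0 h hf i *
      (starRingEnd ℂ) (T.coef c l0 h g i) =
      ∑ i ∈ (T.QQ c M).image (T.emb c l0 h), T.coefF c l0 h hf i *
      (starRingEnd ℂ) (T.coef c l0 h g i) := by
    apply Finset.sum_subset
    · intro i hi
      rw [Finsupp.mem_support_iff, coefF_apply] at hi
      obtain ⟨p, hp, e⟩ := T.coef_support c l0 h hf hi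
      exact Finset.mem_image.mpr ⟨p, hp, e⟩
    · intro i _ hi
      rw [Finsupp.notMem_support_iff] at hi
      rw [hi, zero_mul]
  rw [h1, Finset.sum_image fun p _ p' _ e => T.emb_inj c l0 h e]
  have h2 : ∀ p ∈ T.QQ c M, T.coefF c l0 h hf (T.emb c l0 h p) *
      (starRingEnd ℂ) (T.coef c l0 h g (T.emb c l0 h p)) =
      (fun (j : ℕ) (v : Sph n) => ((T.len (j / 8 + c) v : ℝ) : ℂ) * (VV j f (v : V n) *
        (starRingEnd ℂ) (VV j g (v : V n)))) p.1.1 p.1.2 := by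
    intro p _
    rw [T.coefF_apply, T.coef_emb c l0 h hf.1, T.coef_emb c l0 h hg]
    simp only [map_mul, Complex.conj_ofReal]
    have h3 : ((Real.sqrt (T.len (p.1.1 / 8 + c) p.1.2) : ℝ) : ℂ) *
        ((Real.sqrt (T.len (p.1.1 / 8 + c) p.1.2) : ℝ) : ℂ) =
        ((T.len (p.1.1 / 8 + c) p.1.2 : ℝ) : ℂ) := by
      rw [← Complex.ofReal_mul, Real.mul_self_sqrt (T.len_pos p.2).le]
    rw [← h3]; ring
  rw [Finset.sum_congr rfl h2]
  rw [T.sum_QQ (fun (j : ℕ) (v : Sph n) => ((T.len (j / 8 + c) v : ℝ) : ℂ) * (VV j f (v : V n) *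
        (starRingEnd ℂ) (VV j g (v : V n))))]
  refine Finset.sum_congr rfl fun j _ => ?_
  rw [T.integral_β (j / 8 + c) (fun v => VV j f (v : V n) * (starRingEnd ℂ) (VV j g (v : V n)))]
  rfl

/-- the reproduction error tested against a bounded function -/
lemma err_bound : ∃ C : ℝ≥0, ∀ (c : ℕ), T.epsc c ≤ 1 / 36 → ∀ (l0 : ℕ) (h : T.OK l0) (M : ℕ)
    (f g : Sph n → ℂ) (hf : Pol M f), BM g →
    ‖ip (fun x => (∑ i ∈ (T.coefF c l0 h hf).support, T.coefF c l0 h hf i * T.gA c l0 h i x) +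
        (-1) * f x) g‖ₑ ≤
      C * ENNReal.ofReal (Real.sqrt (T.epsc c)) *
        ∫⁻ x, ∑' j, pst j (fun w : Sph n => VV j f w) (T.Ψ x) *
          pst j (fun w : Sph n => VV j g w) (T.Ψ x) ∂mu01 := by
  obtain ⟨C, hC⟩ := T.osc_sum
  refine ⟨C, fun c hc l0 h M f g hf hg => ?_⟩
  have hgB : ∀ i, BM (T.gA c l0 h i) := fun i => by
    obtain ⟨M', hM'⟩ := T.Pol_gA c l0 h i
    exact hM'.1
  have e : ip (fun x => (∑ i ∈ (T.coefF c l0 h hf).support, T.coefF c l0 h hf i *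
      T.gA c l0 h i x) + (-1) * f x) g =
      (∑ j ∈ Finset.range M, (∫ x, VV j f (T.β (j / 8 + c) x : V n) *
        (starRingEnd ℂ) (VV j g (T.β (j / 8 + c) x : V n)) ∂mu01)) -
      ∑ j ∈ Finset.range M, ip (fun ζ : Sph n => VV j f ζ) (fun ζ : Sph n => VV j g ζ) := by
    rw [ip_add_left (BM.sum _ fun i _ => (hgB i).const_mul _) (hf.1.const_mul _) hg,
      ip_const_left, ip_sum_left _ (fun i _ => (hgB i).const_mul _) hg, ← hf.ip_eq hg le_rfl,
      ← T.coef_sum c l0 h hf hg]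
    have h1 : ∀ i ∈ (T.coefF c l0 h hf).support,
        ip (fun x => T.coefF c l0 h hf i * T.gA c l0 h i x) g =
        T.coefF c l0 h hf i * (starRingEnd ℂ) (T.coef c l0 h g i) := by
      intro i _
      rw [ip_const_left]
      unfold coef
      rw [ip_conj]
    rw [Finset.sum_congr rfl h1]
    ring
  rw [e]
  exact hC c hc M f g hf.1 hg

lemma epsc_small (δ : ℝ) (hδ : 0 < δ) : ∃ c, T.epsc c ≤ δ := by
  have hC := T.C3_pos
  obtain ⟨m, hm⟩ := pow_unbounded_of_one_lt (128 * T.C3 / δ) (by norm_num : (1 : ℝ) < 2)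
  refine ⟨m, ?_⟩
  unfold epsc
  rw [div_le_iff₀ (by positivity)]
  have h1 : (2 : ℝ) ^ m ≤ 2 ^ (8 * m) := pow_le_pow_right₀ (by norm_num) (by omega)
  rw [div_lt_iff₀ hδ] at hm
  nlinarith

end TreeData

open ContinuousLinearMap in
theorem frameA (n : ℕ) [NeZero n] : ∃ (A : H2 n →L[ℂ] DD (2 ^ (8 * n))) (C : ℝ),
    (∀ f, (ND (A f : Idx (2 ^ (8 * n)) → ℂ)).toReal ≤ C * p1 n f) ∧
    (∀ c : DD (2 ^ (8 * n)), p1 n (adjoint A c) ≤ C * (ND (c : Idx (2 ^ (8 * n)) → ℂ)).toReal) ∧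
    (∀ f, ‖adjoint A (A f) - f‖ ≤ 1 / 2 * ‖f‖) ∧
    (∀ f, p1 n (adjoint A (A f) - f) ≤ 1 / 2 * p1 n f) := by
  obtain ⟨T⟩ := exists_treeData n
  obtain ⟨l0, h⟩ := T.exists_OK
  obtain ⟨C0, hC0⟩ := T.err_bound
  obtain ⟨C1, hC1⟩ := T.coarse_dual
  obtain ⟨C2, hC2⟩ := LP_pst n
  obtain ⟨C3, hC3⟩ := pst_L2 n
  -- choice of the fineness
  obtain ⟨c, hc⟩ := T.epsc_small (min (1 / 36) ((1 / (5 * (1 + C0 * (C1 * C2 + C3)))) ^ 2))
    (by positivity)
  have hc36 : T.epsc c ≤ 1 / 36 := hc.trans (min_le_left _ _)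
  have hT3 := T.C3_pos
  have he0 : 0 ≤ T.epsc c := by unfold TreeData.epsc; positivity
  have hsq : Real.sqrt (T.epsc c) ≤ 1 / (5 * (1 + C0 * (C1 * C2 + C3))) := by
    rw [Real.sqrt_le_iff]
    exact ⟨by positivity, hc.trans (min_le_right _ _)⟩
  have hs0 := Real.sqrt_nonneg (T.epsc c)
  have hden : (0 : ℝ) < 5 * (1 + C0 * (C1 * C2 + C3)) := by positivity
  rw [le_div_iff₀ hden] at hsq
  have hsm1 : (C0 : ℝ) * Real.sqrt (T.epsc c) * (C1 * C2) ≤ 1 / 5 := by
    have h1 : (0 : ℝ) ≤ C0 * C3 * Real.sqrt (T.epsc c) := by positivity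
    nlinarith
  have hsm2 : (C0 : ℝ) * Real.sqrt (T.epsc c) * C3 ≤ 1 / 5 := by
    have h1 : (0 : ℝ) ≤ C0 * (C1 * C2) * Real.sqrt (T.epsc c) := by positivity
    nlinarith
  -- the functions
  choose M hP using T.Pol_gA c l0 h
  obtain ⟨C4, hC4⟩ := T.n2_coef_le c l0 h
  obtain ⟨C5, hC5⟩ := T.ND_coef_le c l0 h
  obtain ⟨C6, hC6pos, hC6⟩ := T.coef_carleson c l0 h
  have hinn : ∀ {M' : ℕ} {f : Sph n → ℂ} (hf : Pol M' f) (i : Idx (2 ^ (8 * n))),
      ⟪ofPol (hP i), ofPol hf⟫_ℂ = T.coef c l0 h f i := fun hf i => inner_ofPol (hP i) hf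
  obtain ⟨A, hA⟩ := exists_analysis (fun i => ofPol (hP i)) C4 (dense_ofPol n) (by
    rintro _ ⟨M', f, hf, rfl⟩ s
    have h1 : ∀ i ∈ s, ‖⟪ofPol (hP i), ofPol hf⟫_ℂ‖ ^ 2 = (‖T.coef c l0 h f i‖ₑ ^ 2).toReal := by
      intro i _
      rw [hinn hf i, ENNReal.toReal_pow, toReal_enorm]
    rw [Finset.sum_congr rfl h1, ← ENNReal.toReal_sum (fun i _ => by finiteness)]
    have h2 : ∑ i ∈ s, ‖T.coef c l0 h f i‖ₑ ^ 2 ≤ C4 * ENNReal.ofReal (‖ofPol hf‖ ^ 2) := by
      refine (ENNReal.sum_le_tsum s).trans ?_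
      refine (hC4 f hf.1).trans (le_of_eq ?_)
      rw [norm_ofPol, lint_sq hf.1]
    have h3 := ENNReal.toReal_mono (by finiteness) h2
    rw [ENNReal.toReal_mul, ENNReal.toReal_ofReal (by positivity)] at h3
    exact h3)
  have hAf : ∀ {M' : ℕ} {f : Sph n → ℂ} (hf : Pol M' f), (A (ofPol hf) : Idx (2 ^ (8 * n)) → ℂ) =
      T.coef c l0 h f := fun hf => by
    funext i
    rw [hA, hinn hf i]
  -- the error on polynomials
  have herr : ∀ {M' : ℕ} {f : Sph n → ℂ} (hf : Pol M' f), ∃ (M'' : ℕ) (hh : Pol M'' (fun x =>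
      (∑ i ∈ (T.coefF c l0 h hf).support, T.coefF c l0 h hf i * T.gA c l0 h i x) +
        (-1) * f x)), adjoint A (A (ofPol hf)) - ofPol hf = ofPol hh := by
    intro M' f hf
    obtain ⟨M'', h', e⟩ := synth_eq hP (T.coefF c l0 h hf)
    refine ⟨_, h'.add (hf.const_mul (-1)), ?_⟩
    rw [← ofPol_add h' (hf.const_mul (-1)), ← e, ← ofPol_smul hf (-1)]
    have h1 : A (ofPol hf) = finl (T.coefF c l0 h hf) := by
      ext i
      rw [finl_apply, T.coefF_apply]
      exact congrFun (hAf hf) i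
    rw [h1, adjoint_finl hA]
    simp [sub_eq_add_neg]
  refine ⟨A, max C5 (3 * C6), ?_, ?_, ?_, ?_⟩
  · refine H2_ext_le (F := fun f => (ND (A f : Idx (2 ^ (8 * n)) → ℂ)).toReal)
      (G := fun f => max (C5 : ℝ) (3 * C6) * p1 n f) ?_ ?_ ?_
    · exact (continuous_NDs (G_pos n)).comp A.continuous
    · exact continuous_const.mul (continuous_p1 n)
    · intro M' f hf
      change (ND (A (ofPol hf) : Idx (2 ^ (8 * n)) → ℂ)).toReal ≤ _
      rw [hAf hf]
      have h1 := hC5 M' f hf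
      rw [← p1_ofPol hf] at h1
      have h2 := ENNReal.toReal_mono (by finiteness) h1
      have hp0 : 0 ≤ p1 n (ofPol hf) := apply_nonneg _ _
      rw [ENNReal.toReal_mul, ENNReal.toReal_ofReal hp0] at h2
      refine h2.trans ?_
      gcongr
      exact le_max_left _ _
  · intro c'
    refine (synth_bound (two_le_G n) hP hA hC6pos hC6 c').trans ?_
    gcongr
    exact le_max_right _ _
  · refine H2_ext_le (F := fun f => ‖adjoint A (A f) - f‖) (G := fun f => 1 / 2 * ‖f‖) ?_ ?_ ?_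
    · exact (((adjoint A).comp A - ContinuousLinearMap.id ℂ (H2 n)).continuous).norm
    · exact continuous_const.mul continuous_norm
    · intro M' f hf
      obtain ⟨M'', hh, e⟩ := herr hf
      change ‖adjoint A (A (ofPol hf)) - ofPol hf‖ ≤ 1 / 2 * ‖ofPol hf‖
      rw [e]
      set g : Sph n → ℂ := fun x => (∑ i ∈ (T.coefF c l0 h hf).support, T.coefF c l0 h hf i *
        T.gA c l0 h i x) + (-1) * f x with hg
      have h1 := hC0 c hc36 l0 h M' f g hf hh.1
      rw [← hg] at h1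
      have h2 : ∫⁻ x, ∑' j, pst j (fun w : Sph n => VV j f w) (T.Ψ x) *
          pst j (fun w : Sph n => VV j g w) (T.Ψ x) ∂mu01 ≤
          C3 * (ENNReal.ofReal (‖ofPol hf‖ ^ 2 + ‖ofPol hh‖ ^ 2)) := by
        have hm : ∀ (F : Sph n → ℂ) (j : ℕ), Measurable fun x =>
            pst j (fun w : Sph n => VV j F w) (T.Ψ x) ^ 2 := fun F j =>
          ((measurable_pst _ _).comp T.Ψ_meas).pow_const 2
        calc _ ≤ ∫⁻ x, (∑' j, pst j (fun w : Sph n => VV j f w) (T.Ψ x) ^ 2) +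
              ∑' j, pst j (fun w : Sph n => VV j g w) (T.Ψ x) ^ 2 ∂mu01 := by
              refine lintegral_mono fun x => ?_
              rw [← ENNReal.tsum_add]
              refine ENNReal.tsum_le_tsum fun j => ?_
              set a := pst j (fun w : Sph n => VV j f w) (T.Ψ x)
              set b := pst j (fun w : Sph n => VV j g w) (T.Ψ x)
              rcases le_total a b with hab | hab
              · calc a * b ≤ b * b := by gcongr
                  _ = b ^ 2 := (pow_two b).symm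
                  _ ≤ _ := le_add_self
              · calc a * b ≤ a * a := by gcongr
                  _ = a ^ 2 := (pow_two a).symm
                  _ ≤ _ := le_self_add
          _ = (∑' j, ∫⁻ z, pst j (fun w : Sph n => VV j f w) z ^ 2 ∂sig n) +
              ∑' j, ∫⁻ z, pst j (fun w : Sph n => VV j g w) z ^ 2 ∂sig n := by
              rw [lintegral_add_left (Measurable.tsum fun j => hm f j),
                lintegral_tsum fun j => (hm f j).aemeasurable,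
                lintegral_tsum fun j => (hm g j).aemeasurable]
              congr 1
              · exact tsum_congr fun j => T.lintegral_Ψ
                  (F := fun z => pst j (fun w : Sph n => VV j f w) z ^ 2)
                  ((measurable_pst _ _).pow_const 2)
              · exact tsum_congr fun j => T.lintegral_Ψ
                  (F := fun z => pst j (fun w : Sph n => VV j g w) z ^ 2)
                  ((measurable_pst _ _).pow_const 2)
          _ ≤ C3 * ∫⁻ ζ, ‖f ζ‖ₑ ^ 2 ∂sig n + C3 * ∫⁻ ζ, ‖g ζ‖ₑ ^ 2 ∂sig n :=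
              add_le_add (hC3 f hf.1) (hC3 g hh.1)
          _ = _ := by
              rw [lint_sq hf.1, lint_sq hh.1, ← norm_ofPol hf, ← norm_ofPol hh, ← mul_add,
                ← ENNReal.ofReal_add (by positivity) (by positivity)]
      have h3 : ‖ip g g‖ₑ ≤ C0 * ENNReal.ofReal (Real.sqrt (T.epsc c)) *
          (C3 * (ENNReal.ofReal (‖ofPol hf‖ ^ 2 + ‖ofPol hh‖ ^ 2))) := h1.trans (by gcongr)
      have h4 := ENNReal.toReal_mono (by finiteness) h3
      rw [toReal_enorm, ip_self, ENNReal.toReal_mul, ENNReal.toReal_mul, ENNReal.toReal_mul,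
        ENNReal.toReal_ofReal hs0, ENNReal.toReal_ofReal (by positivity), ← norm_ofPol hh,
        Complex.norm_real, Real.norm_of_nonneg (by positivity)] at h4
      simp only [ENNReal.coe_toReal] at h4
      have h5 : ‖ofPol hh‖ ^ 2 ≤ 1 / 5 * (‖ofPol hf‖ ^ 2 + ‖ofPol hh‖ ^ 2) := by
        calc _ ≤ _ := h4
          _ = (C0 * Real.sqrt (T.epsc c) * C3) * (‖ofPol hf‖ ^ 2 + ‖ofPol hh‖ ^ 2) := by ring
          _ ≤ _ := by gcongr
      have h6 : ‖ofPol hh‖ ^ 2 ≤ (1 / 2 * ‖ofPol hf‖) ^ 2 := by nlinarith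
      exact le_of_sq_le_sq h6 (by positivity)
  · refine H2_ext_le (F := fun f => p1 n (adjoint A (A f) - f))
      (G := fun f => 1 / 2 * p1 n f) ?_ ?_ ?_
    · exact (continuous_p1 n).comp
        (((adjoint A).comp A - ContinuousLinearMap.id ℂ (H2 n)).continuous)
    · exact continuous_const.mul (continuous_p1 n)
    · intro M' f hf
      obtain ⟨M'', hh, e⟩ := herr hf
      change p1 n (adjoint A (A (ofPol hf)) - ofPol hf) ≤ 1 / 2 * p1 n (ofPol hf)
      rw [e]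
      apply p1_le_of_dual
      intro b hb hb1
      have h1 := hC0 c hc36 l0 h M' f b hf hb
      have h2 : ∫⁻ x, ∑' j, pst j (fun w : Sph n => VV j f w) (T.Ψ x) *
          pst j (fun w : Sph n => VV j b w) (T.Ψ x) ∂mu01 ≤
          C1 * (C2 * ENNReal.ofReal (p1 n (ofPol hf))) := by
        refine (hC1 b hb hb1 (fun j (w : Sph n) => VV j f (w : V n))).trans ?_
        rw [p1_ofPol hf]
        gcongr
        exact hC2 M' f hf
      have h3 := h1.trans (mul_le_mul' le_rfl h2)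
      have h4 := ENNReal.toReal_mono (by finiteness) h3
      have hp0 : 0 ≤ p1 n (ofPol hf) := apply_nonneg _ _
      rw [toReal_enorm, ENNReal.toReal_mul, ENNReal.toReal_mul, ENNReal.toReal_mul,
        ENNReal.toReal_mul, ENNReal.toReal_ofReal hs0, ENNReal.toReal_ofReal hp0] at h4
      simp only [ENNReal.coe_toReal] at h4
      calc _ ≤ _ := h4
        _ = (C0 * Real.sqrt (T.epsc c) * (C1 * C2)) * p1 n (ofPol hf) := by ring
        _ ≤ 1 / 5 * p1 n (ofPol hf) := by gcongr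
        _ ≤ _ := by nlinarith

end Pool.Agent.MP28b1a7
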