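import Mathlib

/-!
Geometry of the unit sphere of `ℂ^n` with the nonisotropic distance `|1 - ⟨x, y⟩|`.
-/

namespace Pool.Agent.MP28b1a7

open scoped InnerProductSpace ENNReal

/-- `ℂ^n` with its Hermitian inner product. -/
abbrev V (n : ℕ) := EuclideanSpace ℂ (Fin n)

/-- The unit sphere of `ℂ^n`. -/
abbrev Sph (n : ℕ) := Metric.sphere (0 : V n) 1

/-- The nonisotropic quasi-distance. -/
noncomputable def dd {n : ℕ} (x y : V n) : ℝ := ‖(1 : ℂ) - ⟪x, y⟫_ℂ‖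

variable {n : ℕ}

lemma dd_nonneg (x y : V n) : 0 ≤ dd x y := norm_nonneg _

lemma dd_comm (x y : V n) : dd x y = dd y x := by
  unfold dd
  rw [← inner_conj_symm x y, ← Complex.norm_conj]
  simp

lemma sph_norm (x : Sph n) : ‖(x : V n)‖ = 1 := by
  have := x.2
  simp

lemma dd_self (x : Sph n) : dd (x : V n) x = 0 := by
  unfold dd
  rw [inner_self_eq_norm_sq_to_K, sph_norm]
  simp

lemma norm_inner_le_one (x y : Sph n) : ‖⟪(x : V n), (y : V n)⟫_ℂ‖ ≤ 1 := by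
  have := norm_inner_le_norm (𝕜 := ℂ) (x : V n) (y : V n)
  rw [sph_norm, sph_norm] at this
  simpa using this

lemma dd_le_two (x y : Sph n) : dd (x : V n) y ≤ 2 := by
  unfold dd
  calc ‖(1 : ℂ) - ⟪(x : V n), (y : V n)⟫_ℂ‖ ≤ ‖(1 : ℂ)‖ + ‖⟪(x : V n), (y : V n)⟫_ℂ‖ :=
        norm_sub_le _ _
    _ ≤ 1 + 1 := by gcongr; · simp
                    · exact norm_inner_le_one x y
    _ = 2 := by norm_num

lemma continuous_dd : Continuous fun p : V n × V n => dd p.1 p.2 := by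
  unfold dd
  fun_prop

/-- Component orthogonal to a unit vector. -/
lemma norm_sq_sub_comp (c x : V n) (hc : ‖c‖ = 1) :
    ‖x - ⟪c, x⟫_ℂ • c‖ ^ 2 = ‖x‖ ^ 2 - ‖⟪c, x⟫_ℂ‖ ^ 2 := by
  have h : ⟪x - ⟪c, x⟫_ℂ • c, ⟪c, x⟫_ℂ • c⟫_ℂ = 0 := by
    rw [inner_sub_left, inner_smul_right, inner_smul_right, inner_smul_left,
      inner_self_eq_norm_sq_to_K, hc, inner_conj_symm]
    simp
  have h2 := norm_add_sq_eq_norm_sq_add_norm_sq_of_inner_eq_zero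
    (x - ⟪c, x⟫_ℂ • c) (⟪c, x⟫_ℂ • c) h
  rw [sub_add_cancel, norm_smul, hc] at h2
  nlinarith [h2]

lemma inner_comp (c x y : V n) (hc : ‖c‖ = 1) :
    ⟪x - ⟪c, x⟫_ℂ • c, y - ⟪c, y⟫_ℂ • c⟫_ℂ = ⟪x, y⟫_ℂ - ⟪x, c⟫_ℂ * ⟪c, y⟫_ℂ := by
  rw [inner_sub_left, inner_sub_right, inner_sub_right, inner_smul_right, inner_smul_right,
    inner_smul_left, inner_smul_left, inner_self_eq_norm_sq_to_K, hc, inner_conj_symm]
  simp

lemma comp_norm_le (c x : Sph n) :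
    ‖(x : V n) - ⟪(c : V n), (x : V n)⟫_ℂ • (c : V n)‖ ≤ Real.sqrt (2 * dd (c : V n) x) := by
  apply Real.le_sqrt_of_sq_le
  rw [norm_sq_sub_comp _ _ (sph_norm c), sph_norm]
  have h1 : 1 - ‖⟪(c : V n), (x : V n)⟫_ℂ‖ ≤ dd (c : V n) x := by
    unfold dd
    have := norm_sub_norm_le (1 : ℂ) ⟪(c : V n), (x : V n)⟫_ℂ
    simpa using this
  have h2 := norm_inner_le_one c x
  have h3 := norm_nonneg ⟪(c : V n), (x : V n)⟫_ℂ
  nlinarith

lemma cross_le (c x y : Sph n) :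
    ‖⟪(x : V n), (y : V n)⟫_ℂ - ⟪(x : V n), (c : V n)⟫_ℂ * ⟪(c : V n), (y : V n)⟫_ℂ‖ ≤
      2 * (Real.sqrt (dd (c : V n) x) * Real.sqrt (dd (c : V n) y)) := by
  rw [← inner_comp _ _ _ (sph_norm c)]
  refine (norm_inner_le_norm _ _).trans ?_
  calc _ ≤ Real.sqrt (2 * dd (c : V n) x) * Real.sqrt (2 * dd (c : V n) y) :=
        mul_le_mul (comp_norm_le c x) (comp_norm_le c y) (norm_nonneg _) (Real.sqrt_nonneg _)
    _ = 2 * (Real.sqrt (dd (c : V n) x) * Real.sqrt (dd (c : V n) y)) := by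
        rw [Real.sqrt_mul (by norm_num), Real.sqrt_mul (by norm_num)]
        have : Real.sqrt 2 * Real.sqrt 2 = 2 := Real.mul_self_sqrt (by norm_num)
        linear_combination (Real.sqrt (dd (c : V n) x) * Real.sqrt (dd (c : V n) y)) * this

/-- The square root of `dd` satisfies the triangle inequality. -/
lemma sqrt_dd_triangle (x c y : Sph n) :
    Real.sqrt (dd (x : V n) y) ≤ Real.sqrt (dd (x : V n) c) + Real.sqrt (dd (c : V n) y) := by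
  rw [Real.sqrt_le_iff]
  refine ⟨by positivity, ?_⟩
  have h1 : dd (x : V n) y ≤ ‖(1 : ℂ) - ⟪(x : V n), (c : V n)⟫_ℂ * ⟪(c : V n), (y : V n)⟫_ℂ‖ +
      2 * (Real.sqrt (dd (c : V n) x) * Real.sqrt (dd (c : V n) y)) := by
    have h := cross_le c x y
    unfold dd at h ⊢
    have e : (1 : ℂ) - ⟪(x : V n), (y : V n)⟫_ℂ =
      ((1 : ℂ) - ⟪(x : V n), (c : V n)⟫_ℂ * ⟪(c : V n), (y : V n)⟫_ℂ) -
      (⟪(x : V n), (y : V n)⟫_ℂ - ⟪(x : V n), (c : V n)⟫_ℂ * ⟪(c : V n), (y : V n)⟫_ℂ) := by ring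
    rw [e]
    exact (norm_sub_le _ _).trans (by linarith)
  have h2 : ‖(1 : ℂ) - ⟪(x : V n), (c : V n)⟫_ℂ * ⟪(c : V n), (y : V n)⟫_ℂ‖ ≤
      dd (x : V n) c + dd (c : V n) y := by
    have e : (1 : ℂ) - ⟪(x : V n), (c : V n)⟫_ℂ * ⟪(c : V n), (y : V n)⟫_ℂ =
      (1 - ⟪(x : V n), (c : V n)⟫_ℂ) + ⟪(x : V n), (c : V n)⟫_ℂ * (1 - ⟪(c : V n), (y : V n)⟫_ℂ) := by
      ring
    rw [e]
    refine (norm_add_le _ _).trans ?_
    rw [norm_mul]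
    unfold dd
    have := norm_inner_le_one x c
    have h0 := norm_nonneg ((1 : ℂ) - ⟪(c : V n), (y : V n)⟫_ℂ)
    nlinarith
  rw [add_sq, Real.sq_sqrt (dd_nonneg _ _), Real.sq_sqrt (dd_nonneg _ _)]
  rw [dd_comm (c : V n) x] at h1
  nlinarith [h1, h2]

lemma dd_quasi (x c y : Sph n) :
    dd (x : V n) y ≤ 2 * (dd (x : V n) c + dd (c : V n) y) := by
  have h := sqrt_dd_triangle x c y
  have h1 := Real.sq_sqrt (dd_nonneg (x : V n) y)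
  have h2 := Real.sq_sqrt (dd_nonneg (x : V n) c)
  have h3 := Real.sq_sqrt (dd_nonneg (c : V n) y)
  have h0 := Real.sqrt_nonneg (dd (x : V n) y)
  nlinarith [sq_nonneg (Real.sqrt (dd (x : V n) c) - Real.sqrt (dd (c : V n) y))]

/-- Weights `1 + 2^j d`. -/
noncomputable def wt (j : ℕ) (x y : V n) : ℝ := 1 + 2 ^ j * dd x y

lemma one_le_wt (j : ℕ) (x y : V n) : 1 ≤ wt j x y := by
  unfold wt
  have := dd_nonneg x y
  have : (0 : ℝ) ≤ 2 ^ j * dd x y := by positivity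
  linarith

lemma wt_pos (j : ℕ) (x y : V n) : 0 < wt j x y := lt_of_lt_of_le one_pos (one_le_wt j x y)

lemma wt_comm (j : ℕ) (x y : V n) : wt j x y = wt j y x := by
  unfold wt; rw [dd_comm]

lemma wt_quasi (j : ℕ) (x c y : Sph n) :
    wt j (x : V n) y ≤ 2 * (wt j (x : V n) c * wt j (c : V n) y) := by
  unfold wt
  have h := dd_quasi x c y
  have h1 := dd_nonneg (x : V n) c
  have h2 := dd_nonneg (c : V n) y
  have hp : (0 : ℝ) < 2 ^ j := by positivity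
  have h3 : (2 : ℝ) ^ j * dd (x : V n) y ≤
    2 * (2 ^ j * dd (x : V n) c) + 2 * (2 ^ j * dd (c : V n) y) := by nlinarith
  have h4 : 0 ≤ (2 : ℝ) ^ j * dd (x : V n) c := by positivity
  have h5 : 0 ≤ (2 : ℝ) ^ j * dd (c : V n) y := by positivity
  nlinarith [mul_nonneg h4 h5]

/-- Difference of inner products in the second slot. -/
lemma inner_diff_le (x x' y : Sph n) :
    ‖⟪(y : V n), (x : V n)⟫_ℂ - ⟪(y : V n), (x' : V n)⟫_ℂ‖ ≤
      dd (x : V n) x' + 2 * (Real.sqrt (dd (x : V n) x') * Real.sqrt (dd (x : V n) y)) := by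
  have h := cross_le x y x'
  have e : ⟪(y : V n), (x : V n)⟫_ℂ - ⟪(y : V n), (x' : V n)⟫_ℂ =
    ⟪(y : V n), (x : V n)⟫_ℂ * (1 - ⟪(x : V n), (x' : V n)⟫_ℂ) -
    (⟪(y : V n), (x' : V n)⟫_ℂ - ⟪(y : V n), (x : V n)⟫_ℂ * ⟪(x : V n), (x' : V n)⟫_ℂ) := by
    ring
  rw [e]
  refine (norm_sub_le _ _).trans ?_
  rw [norm_mul]
  have h1 := norm_inner_le_one y x
  have h2 := norm_nonneg ((1 : ℂ) - ⟪(x : V n), (x' : V n)⟫_ℂ)
  have h3 : dd (x : V n) x' = ‖(1 : ℂ) - ⟪(x : V n), (x' : V n)⟫_ℂ‖ := rfl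
  rw [← h3] at h2 ⊢
  nlinarith [mul_comm (Real.sqrt (dd (x : V n) x')) (Real.sqrt (dd (x : V n) y))]

/-- If `dd x x' ≤ ε 2^{-j}` with `ε ≤ 1`, inner products differ by `3 √ε 2^{-j} wt`. -/
lemma inner_diff_le' (j : ℕ) {ε : ℝ} (hε : 0 ≤ ε) (hε1 : ε ≤ 1) (x x' y : Sph n)
    (h : 2 ^ j * dd (x : V n) x' ≤ ε) :
    2 ^ j * ‖⟪(y : V n), (x : V n)⟫_ℂ - ⟪(y : V n), (x' : V n)⟫_ℂ‖ ≤
      3 * Real.sqrt ε * wt j (x : V n) y := by
  have h1 := inner_diff_le x x' y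
  have hp : (0 : ℝ) < 2 ^ j := by positivity
  set a := dd (x : V n) x' with ha
  set b := dd (x : V n) y with hb
  have ha0 : 0 ≤ a := dd_nonneg _ _
  have hb0 : 0 ≤ b := dd_nonneg _ _
  have hse : 0 ≤ Real.sqrt ε := Real.sqrt_nonneg _
  have hse1 : Real.sqrt ε ≤ 1 := Real.sqrt_le_iff.mpr ⟨by norm_num, by simpa using hε1⟩
  have hss : Real.sqrt ε * Real.sqrt ε = ε := Real.mul_self_sqrt hε
  have h2 : (2 : ℝ) ^ j * (Real.sqrt a * Real.sqrt b) ≤ Real.sqrt ε * Real.sqrt (2 ^ j * b) := by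
    have e1 : (2 : ℝ) ^ j * (Real.sqrt a * Real.sqrt b) =
      Real.sqrt (2 ^ j * a) * Real.sqrt (2 ^ j * b) := by
      rw [Real.sqrt_mul hp.le, Real.sqrt_mul hp.le]
      have := Real.mul_self_sqrt hp.le
      linear_combination (-(Real.sqrt a * Real.sqrt b)) * this
    rw [e1]
    exact mul_le_mul_of_nonneg_right (Real.sqrt_le_sqrt h) (Real.sqrt_nonneg _)
  have h3 : Real.sqrt (2 ^ j * b) ≤ (1 + 2 ^ j * b) / 2 := by
    have h0 : 0 ≤ 2 ^ j * b := by positivity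
    have := Real.sq_sqrt h0
    nlinarith [sq_nonneg (Real.sqrt (2 ^ j * b) - 1)]
  have h4 : 0 ≤ 2 ^ j * b := by positivity
  have h5 : 2 ^ j * a ≤ Real.sqrt ε := by nlinarith
  have h6 : wt j (x : V n) y = 1 + 2 ^ j * b := rfl
  rw [h6]
  calc 2 ^ j * ‖⟪(y : V n), (x : V n)⟫_ℂ - ⟪(y : V n), (x' : V n)⟫_ℂ‖
      ≤ 2 ^ j * (a + 2 * (Real.sqrt a * Real.sqrt b)) := by gcongr
    _ = 2 ^ j * a + 2 * (2 ^ j * (Real.sqrt a * Real.sqrt b)) := by ring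
    _ ≤ Real.sqrt ε + 2 * (Real.sqrt ε * Real.sqrt (2 ^ j * b)) := by gcongr
    _ ≤ 3 * Real.sqrt ε * (1 + 2 ^ j * b) := by
      nlinarith [mul_nonneg hse h4, mul_le_mul_of_nonneg_left h3 hse]

/-- relation with the norm. -/
lemma norm_sub_sq_le_dd (x y : Sph n) : ‖(x : V n) - y‖ ^ 2 ≤ 2 * dd (x : V n) y := by
  rw [@norm_sub_sq ℂ, sph_norm, sph_norm]
  have h : 1 - (⟪(x : V n), (y : V n)⟫_ℂ).re ≤ dd (x : V n) y := by
    unfold dd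
    have := Complex.re_le_norm ((1 : ℂ) - ⟪(x : V n), (y : V n)⟫_ℂ)
    simpa using this
  have e : RCLike.re ⟪(x : V n), (y : V n)⟫_ℂ = (⟪(x : V n), (y : V n)⟫_ℂ).re := rfl
  rw [e]
  linarith

end Pool.Agent.MP28b1a7
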