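import Pool.Agent.Lib.MP_28b1a7_an.Meas

/-!
The Hardy space of the sphere and the target statement (definitions only).
-/

namespace Pool.Agent.MP28b1a7

open MeasureTheory Set Filter Topology
open scoped InnerProductSpace ENNReal NNReal

section
variable {n : ℕ} [NeZero n]

/-- the Hardy space `H^2` of the sphere -/
noncomputable def H2 (n : ℕ) [NeZero n] : Submodule ℂ (Lp ℂ 2 (sig n)) :=
  (Submodule.span ℂ {f | ∃ (k : ℕ) (v : V n), f =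
    ContinuousMap.toLp 2 (sig n) ℂ (mono k v)}).topologicalClosure

instance (n : ℕ) [NeZero n] : CompleteSpace (H2 n) :=
  (Submodule.isClosed_topologicalClosure _).completeSpace_coe

/-- the statement that the frozen problem asks for a given `n` -/
def Target (n : ℕ) : Prop :=
  ∀ B : Set (Fin n → ℂ), B = {z | ∑ i, ‖z i‖ ^ 2 < 1} →
  ∀ I : ((Fin n → ℂ) → ℂ) → ℝ → ℂ,
    I = (fun (h : (Fin n → ℂ) → ℂ) (r : ℝ) =>
      (volume B).toReal⁻¹ • ∫ x in B, h ((r / Real.sqrt (∑ i, ‖x i‖ ^ 2)) • x)) →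
  ∀ H : ℝ → Set ((Fin n → ℂ) → ℂ),
    H = (fun (p : ℝ) => {f : (Fin n → ℂ) → ℂ | DifferentiableOn ℂ f B ∧
      BddAbove ((fun r : ℝ => (I (fun z => ((‖f z‖ ^ p : ℝ) : ℂ)) r).re) '' Set.Ioo 0 1)}) →
  ∀ N1 : ((Fin n → ℂ) → ℂ) → ℝ,
    N1 = (fun (f : (Fin n → ℂ) → ℂ) =>
      sSup ((fun r : ℝ => (I (fun z => ((‖f z‖ : ℝ) : ℂ)) r).re) '' Set.Ioo 0 1)) →
  ∃ b : ℕ → (Fin n → ℂ) → ℂ,
    (∀ k, b k ∈ H 2) ∧
    (∀ j k : ℕ, Tendsto (fun r : ℝ => I (fun z => b j z * star (b k z)) r) (𝓝[<] (1 : ℝ))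
        (𝓝 (if j = k then (1 : ℂ) else 0))) ∧
    (∀ f ∈ H 1, ∃! a : ℕ → ℂ,
        Tendsto (fun N : ℕ => N1 (fun z => (∑ k ∈ Finset.range N, a k * b k z) - f z)) atTop (𝓝 0)) ∧
    (∀ f ∈ H 1, ∀ a : ℕ → ℂ,
        Tendsto (fun N : ℕ => N1 (fun z => (∑ k ∈ Finset.range N, a k * b k z) - f z)) atTop (𝓝 0) →
        Tendsto (fun s : Finset ℕ => N1 (fun z => (∑ k ∈ s, a k * b k z) - f z)) atTop (𝓝 0))

end

end Pool.Agent.MP28b1a7
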