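import Pool.Agent.Lib.MP_28b1a7_an.Peetre

/-!
`L^2` bounds and smoothness of Littlewood-Paley pieces in terms of Peetre functions.
-/

namespace Pool.Agent.MP28b1a7

open MeasureTheory Filter Topology
open scoped InnerProductSpace ENNReal NNReal

section
variable {n : ℕ}

lemma measurable_pst (j : ℕ) (F : Sph n → ℂ) : Measurable (pst j F) := by
  have h : LowerSemicontinuous fun z : Sph n => ⨆ w : Sph n, ‖F w‖ₑ / wte j z w ^ LL n := by
    apply lowerSemicontinuous_iSup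
    intro w
    apply Continuous.lowerSemicontinuous
    have h1 : Continuous fun z : Sph n => (wte j z w ^ LL n)⁻¹ := by
      have h2 : Continuous fun z : Sph n => wte j z w := by
        have h3 : Continuous fun z : Sph n => (z, w) := Continuous.prodMk_left w
        have h4 := (continuous_wte (n := n) j).comp h3
        exact h4
      exact ((ENNReal.continuous_pow (LL n)).comp h2).inv
    simp only [div_eq_mul_inv]
    exact (ENNReal.continuous_const_mul enorm_ne_top).comp h1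
  exact h.measurable

end

section
variable {n : ℕ} [NeZero n]

lemma lint_sq {f : Sph n → ℂ} (hf : BM f) :
    ∫⁻ ζ, ‖f ζ‖ₑ ^ 2 ∂sig n = ENNReal.ofReal (∫ ζ, ‖f ζ‖ ^ 2 ∂sig n) := by
  have h1 : Integrable (fun ζ => ‖f ζ‖ ^ 2) (sig n) := by
    obtain ⟨hm, C, hC⟩ := hf
    refine Integrable.of_bound (hm.norm.pow_const 2).aestronglyMeasurable (C ^ 2)
      (Eventually.of_forall fun x => ?_)
    rw [Real.norm_eq_abs, abs_of_nonneg (by positivity)]
    gcongr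
    exact hC x
  rw [ofReal_integral_eq_lintegral_ofReal h1 (Eventually.of_forall fun x => by positivity)]
  refine lintegral_congr fun ζ => ?_
  rw [ENNReal.ofReal_pow (norm_nonneg _), ofReal_norm]

lemma VV_bessel_real (J : ℕ) {f : Sph n → ℂ} (hf : BM f) :
    ∑ j ∈ Finset.range J, ∫ ζ : Sph n, ‖VV j f (ζ : V n)‖ ^ 2 ∂sig n ≤
      ∫ ζ : Sph n, ‖f ζ‖ ^ 2 ∂sig n := by
  have h1 : ∀ j ∈ Finset.range J, ∫ ζ : Sph n, ‖VV j f (ζ : V n)‖ ^ 2 ∂sig n ≤
      ∑ k ∈ Finset.range (4 * 2 ^ J), AA j k ^ 2 * mass k f := by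
    intro j hj
    unfold VV
    rw [VM_sq _ _ hf]
    apply Finset.sum_le_sum_of_subset_of_nonneg
    · apply Finset.range_mono
      have : j ≤ J := (Finset.mem_range.mp hj).le
      have := Nat.pow_le_pow_right (n := 2) (by norm_num) this
      omega
    · intro k _ _
      have := mass_nonneg k f
      positivity
  refine (Finset.sum_le_sum h1).trans ?_
  rw [Finset.sum_comm]
  refine le_trans (Finset.sum_le_sum fun k _ => ?_) (bessel (4 * 2 ^ J) hf)
  rw [← Finset.sum_mul]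
  have h2 := sum_AA_sq_le J k
  have h3 := mass_nonneg k f
  nlinarith

lemma VV_bessel {f : Sph n → ℂ} (hf : BM f) :
    ∑' j : ℕ, ∫⁻ ζ : Sph n, ‖VV j f (ζ : V n)‖ₑ ^ 2 ∂sig n ≤ ∫⁻ ζ, ‖f ζ‖ₑ ^ 2 ∂sig n := by
  rw [ENNReal.tsum_eq_iSup_nat]
  refine iSup_le fun J => ?_
  rw [lint_sq hf]
  have h : ∀ j ∈ Finset.range J, ∫⁻ ζ : Sph n, ‖VV j f (ζ : V n)‖ₑ ^ 2 ∂sig n =
      ENNReal.ofReal (∫ ζ : Sph n, ‖VV j f (ζ : V n)‖ ^ 2 ∂sig n) := fun j _ =>
    lint_sq (BM_VV j hf)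
  rw [Finset.sum_congr rfl h, ← ENNReal.ofReal_sum_of_nonneg]
  · exact ENNReal.ofReal_le_ofReal (VV_bessel_real J hf)
  · intro j _
    exact integral_nonneg fun _ => by positivity

lemma measurable_enorm_VV (j : ℕ) {f : Sph n → ℂ} (hf : BM f) :
    Measurable fun ζ : Sph n => ‖VV j f (ζ : V n)‖ₑ := (BM_VV j hf).1.enorm

/-- Peetre functions are dominated by averages -/
lemma pst_VV_le (n : ℕ) [NeZero n] : ∃ C : ℝ≥0, ∀ (j : ℕ) (f : Sph n → ℂ), BM f → ∀ z : Sph n,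
    pst j (fun w : Sph n => VV j f w) z ≤
      C * TK (sig n) (tk n) j (fun w : Sph n => ‖VV j f w‖ₑ) z := by
  obtain ⟨C, hC⟩ := pst_mult isMult_TH n
  refine ⟨C, fun j f hf z => ?_⟩
  have h1 := hC j _ (BM_VV j hf) z
  have e : (fun w : Sph n => VM (4 * 2 ^ j) (TH j) (fun ζ : Sph n => VV j f ζ) (w : V n)) =
      fun w : Sph n => VV j f w := by
    funext w; exact TH_repro j hf w
  rw [e] at h1
  refine h1.trans ?_
  unfold TK
  refine mul_le_mul' le_rfl (lintegral_mono fun η => ?_)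
  simp only
  gcongr
  rw [tk_eq_kN]
  exact kN_anti (by unfold LL; omega) j z η

/-- (I2) -/
lemma pst_L2 (n : ℕ) [NeZero n] : ∃ C : ℝ≥0, ∀ f : Sph n → ℂ, BM f →
    ∑' j : ℕ, ∫⁻ z, pst j (fun w : Sph n => VV j f w) z ^ 2 ∂sig n ≤
      C * ∫⁻ ζ, ‖f ζ‖ₑ ^ 2 ∂sig n := by
  obtain ⟨C, hC⟩ := pst_VV_le n
  obtain ⟨K, hK⟩ := tk_KF n
  refine ⟨C ^ 2 * K ^ 2, fun f hf => ?_⟩
  calc ∑' j : ℕ, ∫⁻ z, pst j (fun w : Sph n => VV j f w) z ^ 2 ∂sig n
      ≤ ∑' j : ℕ, (C : ℝ≥0∞) ^ 2 * K ^ 2 * ∫⁻ ζ : Sph n, ‖VV j f (ζ : V n)‖ₑ ^ 2 ∂sig n := by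
        refine ENNReal.tsum_le_tsum fun j => ?_
        have hm := measurable_enorm_VV j hf
        calc ∫⁻ z, pst j (fun w : Sph n => VV j f w) z ^ 2 ∂sig n
            ≤ ∫⁻ z, (C : ℝ≥0∞) ^ 2 * TK (sig n) (tk n) j (fun w : Sph n => ‖VV j f w‖ₑ) z ^ 2
              ∂sig n := by
              refine lintegral_mono fun z => ?_
              rw [← mul_pow]
              gcongr
              exact hC j f hf z
          _ = (C : ℝ≥0∞) ^ 2 * ∫⁻ z, TK (sig n) (tk n) j (fun w : Sph n => ‖VV j f w‖ₑ) z ^ 2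
              ∂sig n := lintegral_const_mul _ ((meas_TK hK.meas j hm).pow_const 2)
          _ ≤ (C : ℝ≥0∞) ^ 2 * (K ^ 2 * ∫⁻ ζ : Sph n, ‖VV j f (ζ : V n)‖ₑ ^ 2 ∂sig n) := by
              gcongr
              exact TK_L2 hK j hm
          _ = _ := by ring
    _ = (C : ℝ≥0∞) ^ 2 * K ^ 2 * ∑' j : ℕ, ∫⁻ ζ : Sph n, ‖VV j f (ζ : V n)‖ₑ ^ 2 ∂sig n :=
        ENNReal.tsum_mul_left
    _ ≤ (C : ℝ≥0∞) ^ 2 * K ^ 2 * ∫⁻ ζ, ‖f ζ‖ₑ ^ 2 ∂sig n := by
        gcongr
        exact VV_bessel hf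
    _ = _ := by push_cast; ring

/-- integral of the size kernel -/
lemma kN_int_le (n : ℕ) [NeZero n] {N : ℕ} (hN : 2 * n ≤ N) (j : ℕ) (z : Sph n) :
    ∫⁻ η, kN n N j z η ∂sig n ≤ 1 := by
  refine le_trans (lintegral_mono fun y => ?_) (poisson_int j z)
  refine (kN_anti hN j z y).trans (le_of_eq ?_)
  unfold kN wte
  rw [ENNReal.ofReal_div_of_pos (by have := wt_pos j (z : V n) y; positivity),
    ENNReal.ofReal_pow (by norm_num), ENNReal.ofReal_pow (wt_pos _ _ _).le]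
  norm_num

/-- (III) oscillation of the Littlewood-Paley pieces -/
lemma VV_osc (n : ℕ) [NeZero n] : ∃ C : ℝ≥0, ∀ (j : ℕ) (f : Sph n → ℂ), BM f → ∀ (ε : ℝ),
    0 ≤ ε → ε ≤ 1 / 36 → ∀ z z' : Sph n, 2 ^ j * dd (z : V n) z' ≤ ε →
      ‖VV j f (z : V n) - VV j f (z' : V n)‖ₑ ≤
        C * ENNReal.ofReal (Real.sqrt ε) * pst j (fun w : Sph n => VV j f w) z := by
  obtain ⟨C, hC, hb⟩ := mult_diff isMult_TH n (LL n + 2 * n)
  refine ⟨C.toNNReal, fun j f hf ε hε hε1 z z' hzz => ?_⟩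
  set F : Sph n → ℂ := fun w => VV j f w with hF
  have hFB : BM F := BM_VV j hf
  have hrep : ∀ w : Sph n, VV j f (w : V n) =
      ∫ η : Sph n, KM (4 * 2 ^ j) (TH j) (w : V n) η * F η ∂sig n := by
    intro w
    rw [← TH_repro j hf, VM_eq_KM _ _ hFB]
  have hint : ∀ w : Sph n, Integrable
      (fun η : Sph n => KM (4 * 2 ^ j) (TH j) (w : V n) η * F η) (sig n) := by
    intro w
    have : BM fun η : Sph n => KM (4 * 2 ^ j) (TH j) (w : V n) η := by
      apply BM_cont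
      unfold KM
      fun_prop
    exact (this.mul hFB).integrable
  rw [hrep z, hrep z', ← integral_sub (hint z) (hint z')]
  have e : ∀ η : Sph n, KM (4 * 2 ^ j) (TH j) (z : V n) η * F η -
      KM (4 * 2 ^ j) (TH j) (z' : V n) η * F η =
      (KM (4 * 2 ^ j) (TH j) (z : V n) η - KM (4 * 2 ^ j) (TH j) (z' : V n) η) * F η := by
    intro η; ring
  simp_rw [e]
  refine (enorm_integral_le_lintegral_enorm _).trans ?_
  have h1 : ∀ η : Sph n, ‖(KM (4 * 2 ^ j) (TH j) (z : V n) η -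
      KM (4 * 2 ^ j) (TH j) (z' : V n) η) * F η‖ₑ ≤
      (C.toNNReal * ENNReal.ofReal (Real.sqrt ε) * pst j F z) * kN n (2 * n) j z η := by
    intro η
    rw [enorm_mul]
    have h2 := hb j ε hε hε1 z z' η hzz
    have h3 := real_to_enn_kernel (wt_pos j (z : V n) η).le (by positivity) h2
    rw [← wte] at h3
    have h4 := le_pst j F z η
    set D := KM (4 * 2 ^ j) (TH j) (z : V n) η - KM (4 * 2 ^ j) (TH j) (z' : V n) η with hD
    have h5 := wte_ne_zero j z η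
    have h6 := wte_ne_top j z η
    have h7 : ENNReal.ofReal (C * Real.sqrt ε) * ENNReal.ofReal (2 ^ (j * n)) =
        C.toNNReal * ENNReal.ofReal (Real.sqrt ε) * 2 ^ (j * n) := by
      rw [ENNReal.ofReal_mul hC, ENNReal.ofReal_pow (by norm_num)]
      norm_num
      rfl
    rw [h7, pow_add, ← mul_assoc] at h3
    unfold kN
    rw [mul_div_assoc', ENNReal.le_div_iff_mul_le (Or.inl (pow_ne_zero _ h5))
      (Or.inl (by finiteness))]
    calc ‖D‖ₑ * ‖F η‖ₑ * wte j z η ^ (2 * n)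
        ≤ ‖D‖ₑ * (wte j z η ^ LL n * pst j F z) * wte j z η ^ (2 * n) := by gcongr
      _ = (‖D‖ₑ * wte j z η ^ LL n * wte j z η ^ (2 * n)) * pst j F z := by ring
      _ ≤ (C.toNNReal * ENNReal.ofReal (Real.sqrt ε) * 2 ^ (j * n)) * pst j F z := by gcongr
      _ = _ := by ring
  refine (lintegral_mono h1).trans ?_
  rw [lintegral_const_mul _ (kN_measurable _ _ _)]
  calc _ ≤ (C.toNNReal * ENNReal.ofReal (Real.sqrt ε) * pst j F z) * 1 := by
        gcongr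
        exact kN_int_le n le_rfl j z
    _ = _ := mul_one _

end

end Pool.Agent.MP28b1a7
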