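import Pool.Agent.Lib.MP_28b1a7_an.LP1D
import Pool.Agent.Lib.MP_28b1a7_an.Peetre2

/-!
The Littlewood-Paley inequality on the sphere, and its version with Peetre functions.
-/

namespace Pool.Agent.MP28b1a7

open MeasureTheory Filter Topology
open scoped InnerProductSpace ENNReal NNReal

section
variable {n : ℕ} [NeZero n]

omit [NeZero n] in
lemma sph1_norm (ξ : Sph 1) : ‖(ξ : V 1) 0‖ = 1 := by
  have h := sph_norm ξ
  rw [EuclideanSpace.norm_eq] at h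
  simpa using h

/-- multiplication by a unimodular number -/
noncomputable def rotC (n : ℕ) (c : ℂ) (hc : ‖c‖ = 1) : V n ≃ₗᵢ[ℂ] V n where
  toLinearEquiv := LinearEquiv.smulOfNeZero ℂ (V n) c (by
    intro h; rw [h] at hc; simp at hc)
  norm_map' := fun x => by simp [norm_smul, hc]

omit [NeZero n] in
lemma rotC_apply (c : ℂ) (hc : ‖c‖ = 1) (x : V n) : rotC n c hc x = c • x := rfl

/-- rotation of the sphere by a point of the circle -/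
noncomputable def rot1 (ξ : Sph 1) (ζ : Sph n) : Sph n := uact (rotC n ((ξ : V 1) 0) (sph1_norm ξ)) ζ

omit [NeZero n] in
lemma rot1_coe (ξ : Sph 1) (ζ : Sph n) : ((rot1 ξ ζ : Sph n) : V n) = (ξ : V 1) 0 • (ζ : V n) := rfl

omit [NeZero n] in
lemma continuous_rot1 : Continuous fun p : Sph 1 × Sph n => rot1 p.1 p.2 := by
  rw [continuous_induced_rng]
  have : (Subtype.val ∘ fun p : Sph 1 × Sph n => rot1 p.1 p.2) =
      fun p : Sph 1 × Sph n => (p.1 : V 1) 0 • (p.2 : V n) := by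
    funext p; rfl
  rw [this]
  fun_prop

lemma lint_rot {F : Sph n → ℝ≥0∞} (hF : Measurable F) :
    ∫⁻ ζ, F ζ ∂sig n = ∫⁻ ζ, ∫⁻ ξ, F (rot1 ξ ζ) ∂sig 1 ∂sig n := by
  have hm : Measurable fun p : Sph 1 × Sph n => F (rot1 p.1 p.2) :=
    hF.comp (continuous_rot1 (n := n)).measurable
  have h1 : ∀ ξ : Sph 1, ∫⁻ ζ, F (rot1 ξ ζ) ∂sig n = ∫⁻ ζ, F ζ ∂sig n := fun ξ =>
    (sig_map (rotC n ((ξ : V 1) 0) (sph1_norm ξ))).lintegral_comp hF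
  rw [← lintegral_lintegral_swap (f := fun (ξ : Sph 1) (ζ : Sph n) => F (rot1 ξ ζ))
    hm.aemeasurable]
  simp_rw [h1]
  simp

lemma VV_slice {M : ℕ} {f : Sph n → ℂ} (hf : Pol M f) (j : ℕ) (ξ : Sph 1) (ζ : Sph n) :
    VV j f (rot1 ξ ζ : V n) =
      ∑ k ∈ Finset.range M, (AA j k : ℂ) * PP k f (ζ : V n) * ((ξ : V 1) 0) ^ k := by
  unfold VV VM
  rw [rot1_coe]
  have h1 : ∀ k, (AA j k : ℂ) * PP k f ((ξ : V 1) 0 • (ζ : V n)) =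
      (AA j k : ℂ) * PP k f (ζ : V n) * ((ξ : V 1) 0) ^ k := by
    intro k; rw [PP_smul]; ring
  simp_rw [h1]
  rcases le_total M (4 * 2 ^ j) with h | h
  · symm
    apply Finset.sum_subset (Finset.range_mono h)
    intro k _ hk
    rw [hf.PP_eq_zero (by simpa using hk)]; simp
  · apply Finset.sum_subset (Finset.range_mono h)
    intro k _ hk
    rw [AA_of_le (by
      have : 4 * 2 ^ j ≤ k := by simpa using hk
      omega)]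
    simp

lemma Pol.slice {M : ℕ} {f : Sph n → ℂ} (hf : Pol M f) (ξ : Sph 1) (ζ : Sph n) :
    f (rot1 ξ ζ) = ∑ k ∈ Finset.range M, PP k f (ζ : V n) * ((ξ : V 1) 0) ^ k := by
  rw [hf.2]
  refine Finset.sum_congr rfl fun k _ => ?_
  rw [rot1_coe, PP_smul]; ring

/-- Littlewood-Paley inequality on the sphere -/
theorem LP_sph (n : ℕ) [NeZero n] : ∃ C : ℝ≥0, ∀ (M : ℕ) (f : Sph n → ℂ), Pol M f →
    ∫⁻ ζ : Sph n, sqf (fun (j : ℕ) (ζ : Sph n) => ‖VV j f (ζ : V n)‖ₑ) ζ ∂sig n ≤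
      C * ∫⁻ ζ, ‖f ζ‖ₑ ∂sig n := by
  obtain ⟨C, hC⟩ := LP1D
  refine ⟨C, fun M f hf => ?_⟩
  have hm : Measurable (sqf fun (j : ℕ) (ζ : Sph n) => ‖VV j f (ζ : V n)‖ₑ) :=
    meas_sqf fun j => measurable_enorm_VV j hf.1
  rw [lint_rot hm, lint_rot hf.1.1.enorm, ← lintegral_const_mul' _ _ ENNReal.coe_ne_top]
  refine lintegral_mono fun ζ => ?_
  have h := hC M fun k => PP k f (ζ : V n)
  have e1 : ∀ ξ : Sph 1, sqf (fun (j : ℕ) (ζ : Sph n) => ‖VV j f (ζ : V n)‖ₑ) (rot1 ξ ζ) =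
      sqf (fun (j : ℕ) (ξ : Sph 1) => ‖∑ k ∈ Finset.range M, (AA j k : ℂ) * PP k f (ζ : V n) *
        ((ξ : V 1) 0) ^ k‖ₑ) ξ := by
    intro ξ
    unfold sqf
    simp_rw [VV_slice hf]
  have e2 : ∀ ξ : Sph 1, ‖f (rot1 ξ ζ)‖ₑ =
      ‖∑ k ∈ Finset.range M, PP k f (ζ : V n) * ((ξ : V 1) 0) ^ k‖ₑ := by
    intro ξ; rw [hf.slice]
  simp_rw [e1, e2]
  exact h

/-- (I) -/
theorem LP_pst (n : ℕ) [NeZero n] : ∃ C : ℝ≥0, ∀ (M : ℕ) (f : Sph n → ℂ), Pol M f →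
    ∫⁻ ζ : Sph n, sqf (fun (j : ℕ) => pst j (fun w : Sph n => VV j f w)) ζ ∂sig n ≤
      C * ∫⁻ ζ, ‖f ζ‖ₑ ∂sig n := by
  obtain ⟨C, hC⟩ := LP_sph n
  obtain ⟨D, hD⟩ := peetre n
  obtain ⟨K, hK⟩ := tk_KF n
  obtain ⟨E, hE⟩ : ∃ E : ℝ≥0, (D : ℝ≥0∞) ^ (3 / 2 : ℝ) ≤ E :=
    ⟨((D : ℝ≥0∞) ^ (3 / 2 : ℝ)).toNNReal, by
      rw [ENNReal.coe_toNNReal (ENNReal.rpow_ne_top_of_nonneg (by norm_num) ENNReal.coe_ne_top)]⟩
  refine ⟨E * (2 * K ^ 2) * C, fun M f hf => ?_⟩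
  set G : ℕ → Sph n → ℝ≥0∞ := fun j ζ => ‖VV j f (ζ : V n)‖ₑ with hG
  have hGm : ∀ j, Measurable (G j) := fun j => measurable_enorm_VV j hf.1
  have h1 : ∀ ζ : Sph n, sqf (fun (j : ℕ) => pst j (fun w : Sph n => VV j f w)) ζ ≤
      E * (∑' j, (TK (sig n) (tk n) j (fun y => G j y ^ (2 / 3 : ℝ)) ζ) ^ 3) ^ (1 / 2 : ℝ) := by
    intro ζ
    unfold sqf
    have h2 : ∑' j, pst j (fun w : Sph n => VV j f w) ζ ^ 2 ≤
        (D : ℝ≥0∞) ^ 3 * ∑' j, (TK (sig n) (tk n) j (fun y => G j y ^ (2 / 3 : ℝ)) ζ) ^ 3 := by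
      rw [← ENNReal.tsum_mul_left]
      refine ENNReal.tsum_le_tsum fun j => ?_
      rw [← mul_pow]
      have h3 := hD j f hf.1 ζ
      calc pst j (fun w : Sph n => VV j f w) ζ ^ 2
          = (pst j (fun w : Sph n => VV j f w) ζ ^ (2 / 3 : ℝ)) ^ 3 := by
            rw [← ENNReal.rpow_natCast, ← ENNReal.rpow_natCast, ← ENNReal.rpow_mul]
            norm_num
        _ ≤ _ := by gcongr
    calc (∑' j, pst j (fun w : Sph n => VV j f w) ζ ^ 2) ^ (1 / 2 : ℝ)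
        ≤ ((D : ℝ≥0∞) ^ 3 * ∑' j, (TK (sig n) (tk n) j (fun y => G j y ^ (2 / 3 : ℝ)) ζ) ^ 3) ^
          (1 / 2 : ℝ) := ENNReal.rpow_le_rpow h2 (by norm_num)
      _ = (D : ℝ≥0∞) ^ (3 / 2 : ℝ) *
          (∑' j, (TK (sig n) (tk n) j (fun y => G j y ^ (2 / 3 : ℝ)) ζ) ^ 3) ^ (1 / 2 : ℝ) := by
          rw [ENNReal.mul_rpow_of_nonneg _ _ (by norm_num), ← ENNReal.rpow_natCast,
            ← ENNReal.rpow_mul]
          norm_num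
      _ ≤ _ := by gcongr
  calc ∫⁻ ζ : Sph n, sqf (fun (j : ℕ) => pst j (fun w : Sph n => VV j f w)) ζ ∂sig n
      ≤ ∫⁻ ζ, E * (∑' j, (TK (sig n) (tk n) j (fun y => G j y ^ (2 / 3 : ℝ)) ζ) ^ 3) ^
        (1 / 2 : ℝ) ∂sig n := lintegral_mono h1
    _ = E * ∫⁻ ζ, (∑' j, (TK (sig n) (tk n) j (fun y => G j y ^ (2 / 3 : ℝ)) ζ) ^ 3) ^
        (1 / 2 : ℝ) ∂sig n := lintegral_const_mul' _ _ ENNReal.coe_ne_top
    _ ≤ E * ((2 * K ^ 2 : ℝ≥0) * ∫⁻ ζ, sqf G ζ ∂sig n) := by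
        gcongr
        exact FS_ineq hK hGm
    _ ≤ E * ((2 * K ^ 2 : ℝ≥0) * (C * ∫⁻ ζ, ‖f ζ‖ₑ ∂sig n)) := by
        gcongr
        exact hC M f hf
    _ = _ := by push_cast; ring

end

end Pool.Agent.MP28b1a7
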