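import Mathlib

/-!
Polynomials on the unit circle are approximated by differences of squares of polynomials, with
control of the moduli (a substitute for the inner-outer factorisation).
-/

namespace Pool.Agent.MP28b1a7

namespace LPC

open Polynomial Filter Topology Metric

/-- holomorphic square roots of zero free holomorphic functions on discs -/
lemma exists_sqrt_on_ball {R : ℝ} (hR : 0 < R) {G : ℂ → ℂ} (hG : DifferentiableOn ℂ G (ball 0 R))
    (h0 : ∀ z ∈ ball (0 : ℂ) R, G z ≠ 0) :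
    ∃ s : ℂ → ℂ, DifferentiableOn ℂ s (ball 0 R) ∧ ∀ z ∈ ball (0 : ℂ) R, s z ^ 2 = G z := by
  have hd : DifferentiableOn ℂ (fun z => deriv G z / G z) (ball 0 R) :=
    (hG.deriv isOpen_ball).div hG h0
  obtain ⟨L, hL0, hL⟩ := hd.isExactOn_ball.with_val_at 0 0
  have hLd : DifferentiableOn ℂ L (ball 0 R) :=
    fun z hz => (hL z hz).differentiableAt.differentiableWithinAt
  have hconst : ∀ z ∈ ball (0 : ℂ) R, G z * Complex.exp (-L z) = G 0 := by
    intro z hz
    have h1 : ∀ x ∈ ball (0 : ℂ) R, HasDerivAt (fun z => G z * Complex.exp (-L z)) 0 x := by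
      intro x hx
      have a1 : HasDerivAt G (deriv G x) x :=
        ((hG x hx).differentiableAt (isOpen_ball.mem_nhds hx)).hasDerivAt
      have a2 : HasDerivAt (fun z => G z * Complex.exp (-L z))
        (deriv G x * Complex.exp (-L x) + G x * (Complex.exp (-L x) * -(deriv G x / G x))) x :=
        a1.mul ((hL x hx).neg.cexp)
      have e : G x * (deriv G x / G x) = deriv G x := by
        rw [mul_comm]; exact div_mul_cancel₀ _ (h0 x hx)
      have e2 : deriv G x * Complex.exp (-L x) +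
          G x * (Complex.exp (-L x) * -(deriv G x / G x)) = 0 := by
        linear_combination (-Complex.exp (-L x)) * e
      rwa [e2] at a2
    have h2 := (convex_ball (0 : ℂ) R).is_const_of_fderivWithin_eq_zero (𝕜 := ℂ)
      (f := fun z => G z * Complex.exp (-L z))
      (fun x hx => (h1 x hx).differentiableAt.differentiableWithinAt)
      (fun x hx => by
        have := (h1 x hx).hasFDerivAt.hasFDerivWithinAt (s := ball (0 : ℂ) R)
        rw [this.fderivWithin (isOpen_ball.uniqueDiffWithinAt hx)]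
        ext; simp) hz (mem_ball_self hR)
    simpa [hL0] using h2
  refine ⟨fun z => Complex.exp ((Complex.log (G 0) + L z) / 2), ?_, ?_⟩
  · exact (((differentiableOn_const _).add hLd).div_const 2).cexp
  · intro z hz
    rw [← Complex.exp_nat_mul]
    have e : ((2 : ℕ) : ℂ) * ((Complex.log (G 0) + L z) / 2) = Complex.log (G 0) + L z := by
      push_cast; ring
    rw [e, Complex.exp_add, Complex.exp_log (h0 0 (mem_ball_self hR)), ← hconst z hz, mul_assoc,
      ← Complex.exp_add]
    simp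

/-- functions holomorphic on a larger disc are uniform limits of polynomials -/
lemma exists_poly_approx {R : ℝ} (hR : 1 < R) {s : ℂ → ℂ} (hs : DifferentiableOn ℂ s (ball 0 R))
    {δ : ℝ} (hδ : 0 < δ) : ∃ p : ℂ[X], ∀ z : ℂ, ‖z‖ ≤ 1 → ‖s z - p.eval z‖ ≤ δ := by
  set R1 : NNReal := ⟨(1 + R) / 2, by linarith⟩ with hR1
  have hR1c : (R1 : ℝ) = (1 + R) / 2 := rfl
  set R2 : NNReal := ⟨(3 + R) / 4, by linarith⟩ with hR2
  have hR2c : (R2 : ℝ) = (3 + R) / 4 := rfl
  have hR1pos : 0 < R1 := by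
    rw [← NNReal.coe_pos, hR1c]; linarith
  have h21 : (R2 : ENNReal) < R1 := by
    rw [ENNReal.coe_lt_coe, ← NNReal.coe_lt_coe, hR1c, hR2c]; linarith
  have hp := (hs.mono (closedBall_subset_ball (by rw [hR1c]; linarith) :
    closedBall (0 : ℂ) R1 ⊆ ball 0 R)).hasFPowerSeriesOnBall hR1pos
  have hu := hp.tendstoUniformlyOn h21
  rw [Metric.tendstoUniformlyOn_iff] at hu
  obtain ⟨N, hN⟩ := (hu δ hδ).exists
  refine ⟨∑ k ∈ Finset.range N, C ((cauchyPowerSeries s 0 R1).coeff k) * X ^ k, fun z hz => ?_⟩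
  have hzb : z ∈ ball (0 : ℂ) R2 := by
    rw [mem_ball_zero_iff, hR2c]; linarith
  have h1 := hN z hzb
  rw [dist_eq_norm] at h1
  have e : (∑ k ∈ Finset.range N, C ((cauchyPowerSeries s 0 R1).coeff k) * X ^ k).eval z =
      (cauchyPowerSeries s 0 R1).partialSum N z := by
    rw [eval_finsetSum, FormalMultilinearSeries.partialSum]
    refine Finset.sum_congr rfl fun k _ => ?_
    rw [eval_mul, eval_C, eval_pow, eval_X, FormalMultilinearSeries.apply_eq_pow_smul_coeff,
      smul_eq_mul, mul_comm]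
  rw [e]
  simpa using h1.le

/-- zero free polynomials are approximated by squares of polynomials on the closed disc -/
theorem approx_sq {g : ℂ[X]} (hg : ∀ z : ℂ, ‖z‖ < 1 → g.eval z ≠ 0) {ε : ℝ} (hε : 0 < ε) :
    ∃ p : ℂ[X], ∀ z : ℂ, ‖z‖ ≤ 1 → ‖g.eval z - (p.eval z) ^ 2‖ ≤ ε := by
  -- uniform continuity
  have huc : UniformContinuousOn (fun z => g.eval z) (closedBall (0 : ℂ) 1) :=
    (isCompact_closedBall (0 : ℂ) 1).uniformContinuousOn_of_continuous g.continuous.continuousOn
  rw [Metric.uniformContinuousOn_iff] at huc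
  obtain ⟨δ, hδ, hδ'⟩ := huc (ε / 2) (by linarith)
  set r : ℝ := max (1 / 2) (1 - δ / 2) with hr
  have hr1 : r < 1 := by
    rw [hr]; apply max_lt <;> linarith
  have hr0 : 0 < r := lt_of_lt_of_le (by norm_num) (le_max_left _ _)
  have hrδ : 1 - r < δ := by
    have := le_max_right (1 / 2) (1 - δ / 2)
    rw [← hr] at this; linarith
  have hclose : ∀ z : ℂ, ‖z‖ ≤ 1 → ‖g.eval z - g.eval ((r : ℂ) * z)‖ ≤ ε / 2 := by
    intro z hz
    have h1 := hδ' z (by simpa using hz) ((r : ℂ) * z) (by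
      rw [mem_closedBall_zero_iff, norm_mul, Complex.norm_real, Real.norm_of_nonneg hr0.le]
      nlinarith [norm_nonneg z]) (by
      rw [dist_eq_norm]
      have : z - (r : ℂ) * z = ((1 - r : ℝ) : ℂ) * z := by push_cast; ring
      rw [this, norm_mul, Complex.norm_real, Real.norm_of_nonneg (by linarith)]
      nlinarith [norm_nonneg z])
    rw [dist_eq_norm] at h1
    exact h1.le
  have hR : 1 < 1 / r := by rw [lt_div_iff₀ hr0]; linarith
  obtain ⟨s, hs, hs2⟩ := exists_sqrt_on_ball (R := 1 / r) (by positivity)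
    (G := fun z => g.eval ((r : ℂ) * z)) (by
      apply Differentiable.differentiableOn
      exact g.differentiable.comp (differentiable_id.const_mul (r : ℂ))) (by
      intro z hz
      apply hg
      rw [mem_ball_zero_iff, lt_div_iff₀ hr0] at hz
      rw [norm_mul, Complex.norm_real, Real.norm_of_nonneg hr0.le]
      linarith)
  -- bound of s on the closed disc
  have hsub : closedBall (0 : ℂ) 1 ⊆ ball 0 (1 / r) := closedBall_subset_ball hR
  obtain ⟨B, hB⟩ := (isCompact_closedBall (0 : ℂ) 1).exists_bound_of_continuousOn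
    (hs.continuousOn.mono hsub)
  have hB0 : 0 ≤ B := (norm_nonneg _).trans (hB 0 (by simp))
  set η : ℝ := min 1 (ε / (2 * (2 * B + 1))) with hη
  have hη0 : 0 < η := lt_min one_pos (by positivity)
  have hη1 : η ≤ 1 := min_le_left _ _
  have hη2 : η * (2 * B + 1) ≤ ε / 2 := by
    have h1 : η ≤ ε / (2 * (2 * B + 1)) := min_le_right _ _
    rw [le_div_iff₀ (by positivity)] at h1
    linarith
  obtain ⟨p, hp⟩ := exists_poly_approx hR hs hη0
  refine ⟨p, fun z hz => ?_⟩
  have hzc : z ∈ closedBall (0 : ℂ) 1 := by simpa using hz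
  have h1 := hs2 z (hsub hzc)
  have h2 := hp z hz
  have h3 := hB z hzc
  have h4 : ‖p.eval z‖ ≤ B + η := by
    have e : p.eval z = s z - (s z - p.eval z) := by ring
    rw [e]
    exact (norm_sub_le _ _).trans (add_le_add h3 h2)
  have h5 : ‖s z ^ 2 - (p.eval z) ^ 2‖ ≤ ε / 2 := by
    have e : s z ^ 2 - (p.eval z) ^ 2 = (s z - p.eval z) * (s z + p.eval z) := by ring
    rw [e, norm_mul]
    have h6 : ‖s z + p.eval z‖ ≤ 2 * B + 1 := (norm_add_le _ _).trans (by linarith)
    calc _ ≤ η * (2 * B + 1) := mul_le_mul h2 h6 (norm_nonneg _) hη0.le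
      _ ≤ _ := hη2
  have e : g.eval z - (p.eval z) ^ 2 = (g.eval z - g.eval ((r : ℂ) * z)) +
      (s z ^ 2 - (p.eval z) ^ 2) := by rw [h1]; ring
  rw [e]
  exact (norm_add_le _ _).trans (by linarith [hclose z hz])

lemma blaschke_le {a z : ℂ} (ha : ‖a‖ < 1) (hz : ‖z‖ < 1) :
    ‖z - a‖ < ‖1 - (starRingEnd ℂ) a * z‖ := by
  rw [← sq_lt_sq₀ (norm_nonneg _) (norm_nonneg _), ← Complex.normSq_eq_norm_sq,
    ← Complex.normSq_eq_norm_sq]
  have e : Complex.normSq (1 - (starRingEnd ℂ) a * z) - Complex.normSq (z - a) =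
      (1 - ‖a‖ ^ 2) * (1 - ‖z‖ ^ 2) := by
    rw [← Complex.normSq_eq_norm_sq, ← Complex.normSq_eq_norm_sq]
    simp only [Complex.normSq_apply, Complex.sub_re, Complex.sub_im, Complex.mul_re,
      Complex.mul_im, Complex.one_re, Complex.one_im, Complex.conj_re, Complex.conj_im]
    ring
  have h1 : 0 < 1 - ‖a‖ ^ 2 := by nlinarith [norm_nonneg a]
  have h2 : 0 < 1 - ‖z‖ ^ 2 := by nlinarith [norm_nonneg z]
  nlinarith [mul_pos h1 h2]

lemma blaschke_eq {a z : ℂ} (hz : ‖z‖ = 1) :
    ‖1 - (starRingEnd ℂ) a * z‖ = ‖z - a‖ := by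
  rw [← sq_eq_sq₀ (norm_nonneg _) (norm_nonneg _), ← Complex.normSq_eq_norm_sq,
    ← Complex.normSq_eq_norm_sq]
  have e : Complex.normSq (1 - (starRingEnd ℂ) a * z) - Complex.normSq (z - a) =
      (1 - ‖a‖ ^ 2) * (1 - ‖z‖ ^ 2) := by
    rw [← Complex.normSq_eq_norm_sq, ← Complex.normSq_eq_norm_sq]
    simp only [Complex.normSq_apply, Complex.sub_re, Complex.sub_im, Complex.mul_re,
      Complex.mul_im, Complex.one_re, Complex.one_im, Complex.conj_re, Complex.conj_im]
    ring
  rw [hz] at e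
  linarith

/-- the outer part -/
theorem exists_outer (c : ℂ) (hc : c ≠ 0) (m : Multiset ℂ) :
    ∃ h : ℂ[X], (∀ z : ℂ, ‖z‖ = 1 → ‖h.eval z‖ = ‖(C c * (m.map fun a => X - C a).prod).eval z‖) ∧
      (∀ z : ℂ, ‖z‖ < 1 → h.eval z ≠ 0) ∧
      ((∀ z : ℂ, ‖z‖ < 1 → ‖(C c * (m.map fun a => X - C a).prod).eval z‖ < ‖h.eval z‖) ∨
        h = C c * (m.map fun a => X - C a).prod) := by
  induction m using Multiset.induction_on with
  | empty => exact ⟨C c, by simp, by simp [hc], Or.inr (by simp)⟩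
  | cons a m ih =>
    obtain ⟨h, h1, h2, h3⟩ := ih
    set q : ℂ[X] := C c * (m.map fun a => X - C a).prod with hq
    have eq : C c * ((a ::ₘ m).map fun a => X - C a).prod = (X - C a) * q := by
      rw [Multiset.map_cons, Multiset.prod_cons, hq]; ring
    have hle : ∀ z : ℂ, ‖z‖ < 1 → ‖q.eval z‖ ≤ ‖h.eval z‖ := by
      intro z hz
      rcases h3 with h3 | h3
      · exact (h3 z hz).le
      · rw [h3]
    simp only [eq]
    by_cases ha : ‖a‖ < 1
    · refine ⟨(1 - C ((starRingEnd ℂ) a) * X) * h, fun z hz => ?_, fun z hz => ?_,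
        Or.inl fun z hz => ?_⟩
      · simp only [eval_mul, eval_sub, eval_one, eval_C, eval_X, norm_mul]
        rw [h1 z hz, blaschke_eq hz]
      · simp only [eval_mul, eval_sub, eval_one, eval_C, eval_X]
        refine mul_ne_zero ?_ (h2 z hz)
        have := blaschke_le ha hz
        exact norm_pos_iff.mp (lt_of_le_of_lt (norm_nonneg _) this)
      · simp only [eval_mul, eval_sub, eval_one, eval_C, eval_X, norm_mul]
        have h4 := blaschke_le ha hz
        have h5 := norm_pos_iff.mpr (h2 z hz)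
        calc ‖z - a‖ * ‖q.eval z‖ ≤ ‖z - a‖ * ‖h.eval z‖ := by gcongr; exact hle z hz
          _ < _ := by gcongr
    · have hne : ∀ z : ℂ, ‖z‖ < 1 → z - a ≠ 0 := by
        intro z hz h0
        have : z = a := by linear_combination h0
        rw [this] at hz
        exact ha hz
      refine ⟨(X - C a) * h, fun z hz => ?_, fun z hz => ?_, ?_⟩
      · simp only [eval_mul, eval_sub, eval_C, eval_X, norm_mul]
        rw [h1 z hz]
      · simp only [eval_mul, eval_sub, eval_C, eval_X]
        exact mul_ne_zero (hne z hz) (h2 z hz)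
      · rcases h3 with h3 | h3
        · refine Or.inl fun z hz => ?_
          simp only [eval_mul, eval_sub, eval_C, eval_X, norm_mul]
          exact mul_lt_mul_of_pos_left (h3 z hz) (norm_pos_iff.mpr (hne z hz))
        · exact Or.inr (by rw [h3])

/-- Approximate factorisation. -/
theorem exists_sq_diff (q : ℂ[X]) {ε : ℝ} (hε : 0 < ε) : ∃ p₁ p₂ : ℂ[X], ∀ z : ℂ, ‖z‖ = 1 →
    ‖q.eval z - (p₁.eval z ^ 2 - p₂.eval z ^ 2)‖ ≤ ε ∧ ‖p₁.eval z‖ ^ 2 ≤ ‖q.eval z‖ + ε ∧
      ‖p₂.eval z‖ ^ 2 ≤ ‖q.eval z‖ + ε := by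
  rcases eq_or_ne q 0 with h0 | h0
  · refine ⟨0, 0, fun z _ => ?_⟩
    simp [h0, hε.le]
  have hsplit : q = C q.leadingCoeff * (q.roots.map fun a => X - C a).prod :=
    (IsAlgClosed.splits q).eq_prod_roots
  obtain ⟨h, h1, h2, h3⟩ := exists_outer q.leadingCoeff (leadingCoeff_ne_zero.mpr h0) q.roots
  rw [← hsplit] at h1 h3
  rcases h3 with h3 | h3
  · obtain ⟨p₁, hp₁⟩ := approx_sq (g := C (1 / 2) * (h + q)) (by
      intro z hz h4
      have h5 := h3 z hz
      have h6 : h.eval z = -q.eval z := by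
        simp only [eval_mul, eval_C, eval_add] at h4
        have : h.eval z + q.eval z = 0 := by
          have h7 : (1 / 2 : ℂ) ≠ 0 := by norm_num
          exact (mul_eq_zero.mp h4).resolve_left h7
        linear_combination this
      rw [h6, norm_neg] at h5
      exact lt_irrefl _ h5) (half_pos hε)
    obtain ⟨p₂, hp₂⟩ := approx_sq (g := C (1 / 2) * (h - q)) (by
      intro z hz h4
      have h5 := h3 z hz
      have h6 : h.eval z = q.eval z := by
        simp only [eval_mul, eval_C, eval_sub] at h4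
        have : h.eval z - q.eval z = 0 := by
          have h7 : (1 / 2 : ℂ) ≠ 0 := by norm_num
          exact (mul_eq_zero.mp h4).resolve_left h7
        linear_combination this
      rw [h6] at h5
      exact lt_irrefl _ h5) (half_pos hε)
    refine ⟨p₁, p₂, fun z hz => ?_⟩
    have k1 := hp₁ z hz.le
    have k2 := hp₂ z hz.le
    simp only [eval_mul, eval_C, eval_add, eval_sub] at k1 k2
    have k3 := h1 z hz
    refine ⟨?_, ?_, ?_⟩
    · have e : q.eval z - (p₁.eval z ^ 2 - p₂.eval z ^ 2) =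
        (1 / 2 * (h.eval z + q.eval z) - p₁.eval z ^ 2) -
        (1 / 2 * (h.eval z - q.eval z) - p₂.eval z ^ 2) := by ring
      rw [e]
      exact (norm_sub_le _ _).trans (by linarith)
    · rw [← norm_pow]
      have e : p₁.eval z ^ 2 = 1 / 2 * (h.eval z + q.eval z) -
        (1 / 2 * (h.eval z + q.eval z) - p₁.eval z ^ 2) := by ring
      rw [e]
      refine (norm_sub_le _ _).trans ?_
      have k4 : ‖(1 / 2 : ℂ) * (h.eval z + q.eval z)‖ ≤ ‖q.eval z‖ := by
        rw [norm_mul]
        have := norm_add_le (h.eval z) (q.eval z)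
        have e2 : ‖(1 / 2 : ℂ)‖ = 1 / 2 := by simp
        rw [e2]
        linarith
      linarith
    · rw [← norm_pow]
      have e : p₂.eval z ^ 2 = 1 / 2 * (h.eval z - q.eval z) -
        (1 / 2 * (h.eval z - q.eval z) - p₂.eval z ^ 2) := by ring
      rw [e]
      refine (norm_sub_le _ _).trans ?_
      have k4 : ‖(1 / 2 : ℂ) * (h.eval z - q.eval z)‖ ≤ ‖q.eval z‖ := by
        rw [norm_mul]
        have := norm_sub_le (h.eval z) (q.eval z)
        have e2 : ‖(1 / 2 : ℂ)‖ = 1 / 2 := by simp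
        rw [e2]
        linarith
      linarith
  · obtain ⟨p₁, hp₁⟩ := approx_sq (g := q) (by rw [← h3]; exact h2) hε
    refine ⟨p₁, 0, fun z hz => ?_⟩
    have k1 := hp₁ z hz.le
    refine ⟨by simpa using k1, ?_, ?_⟩
    · rw [← norm_pow]
      have e : p₁.eval z ^ 2 = q.eval z - (q.eval z - p₁.eval z ^ 2) := by ring
      rw [e]
      exact (norm_sub_le _ _).trans (by linarith)
    · simp
      positivity

end LPC

end Pool.Agent.MP28b1a7
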