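import Pool.Agent.Lib.MP_28b1a7_an.Tk
import Pool.Agent.Lib.MP_28b1a7_an.LP1DFactor

/-!
The Littlewood-Paley inequality for analytic polynomials on the circle.
-/

namespace Pool.Agent.MP28b1a7

namespace LPC

open MeasureTheory Set Filter Topology Polynomial
open scoped InnerProductSpace ENNReal NNReal ComplexConjugate ContDiff

/-! ### The coordinate on the circle -/

/-- coordinate on the circle -/
noncomputable def zc (ζ : Sph 1) : ℂ := (ζ : V 1) 0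

lemma continuous_zc : Continuous zc := by unfold zc; fun_prop

lemma inner_zc (ξ η : Sph 1) : ⟪(ξ : V 1), (η : V 1)⟫_ℂ = conj (zc ξ) * zc η := by
  simp [PiLp.inner_apply, zc, mul_comm]

lemma norm_zc (ζ : Sph 1) : ‖zc ζ‖ = 1 := by
  have h := sph_norm ζ
  rw [EuclideanSpace.norm_eq] at h
  simpa [zc] using h

lemma conj_mul_zc (ζ : Sph 1) : conj (zc ζ) * zc ζ = 1 := by
  rw [mul_comm, Complex.mul_conj, Complex.normSq_eq_norm_sq, norm_zc]; simp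

lemma int_zc (k l : ℕ) :
    ∫ ζ : Sph 1, conj (zc ζ) ^ k * zc ζ ^ l ∂sig 1 = if k = l then 1 else 0 := by
  have h := inner_pow_int (n := 1) l k (e0 1 : V 1) (e0 1 : V 1)
  have h1 : ∀ ζ : Sph 1, ⟪((e0 1 : Sph 1) : V 1), (ζ : V 1)⟫_ℂ = zc ζ := by
    intro ζ; simp [e0, zc, EuclideanSpace.inner_single_left]
  have h2 : ∀ ζ : Sph 1, ⟪(ζ : V 1), ((e0 1 : Sph 1) : V 1)⟫_ℂ = conj (zc ζ) := by
    intro ζ; simp [e0, zc, EuclideanSpace.inner_single_right]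
  simp_rw [h1, h2] at h
  have h3 : zc (e0 1) = 1 := by simp [e0, zc]
  rw [h3] at h
  calc _ = ∫ ζ : Sph 1, zc ζ ^ l * conj (zc ζ) ^ k ∂sig 1 := by
        congr 1; ext ζ; ring
    _ = _ := by
        rw [h]
        simp [cc, eq_comm]

lemma integrable_cont {f : Sph 1 → ℂ} (hf : Continuous f) : Integrable f (sig 1) := by
  obtain ⟨B, hB⟩ := (isCompact_univ (X := Sph 1)).exists_bound_of_continuousOn hf.continuousOn
  exact Integrable.of_bound hf.aestronglyMeasurable B (ae_of_all _ fun x => hB x (mem_univ x))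

/-! ### Multipliers -/

/-- multiplier applied to a polynomial -/
noncomputable def mp (m : ℕ → ℝ) (P : ℂ[X]) : ℂ[X] :=
  ∑ k ∈ Finset.range (P.natDegree + 1), Polynomial.monomial k ((m k : ℂ) * P.coeff k)

lemma mp_coeff (m : ℕ → ℝ) (P : ℂ[X]) (k : ℕ) : (mp m P).coeff k = (m k : ℂ) * P.coeff k := by
  unfold mp
  rw [finsetSum_coeff]
  simp only [coeff_monomial]
  rw [Finset.sum_ite_eq' (Finset.range (P.natDegree + 1)) k]
  split_ifs with h
  · rfl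
  · rw [Finset.mem_range, not_lt] at h
    rw [coeff_eq_zero_of_natDegree_lt (by omega)]; simp

lemma mp_eval (m : ℕ → ℝ) (P : ℂ[X]) (z : ℂ) : (mp m P).eval z =
    ∑ k ∈ Finset.range (P.natDegree + 1), (m k : ℂ) * P.coeff k * z ^ k := by
  unfold mp
  rw [eval_finsetSum]
  exact Finset.sum_congr rfl fun k _ => by rw [eval_monomial]

lemma mp_add (m : ℕ → ℝ) (P Q : ℂ[X]) : mp m (P + Q) = mp m P + mp m Q := by
  ext k; simp [mp_coeff]; ring

lemma mp_sub (m : ℕ → ℝ) (P Q : ℂ[X]) : mp m (P - Q) = mp m P - mp m Q := by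
  ext k; simp [mp_coeff]; ring

lemma mp_sum {ι : Type*} (m : ℕ → ℝ) (s : Finset ι) (P : ι → ℂ[X]) :
    mp m (∑ i ∈ s, P i) = ∑ i ∈ s, mp m (P i) := by
  ext k; simp [mp_coeff, Finset.mul_sum]

/-- Laurent kernels -/
noncomputable def LK (κ : ℕ → ℝ) (L N : ℕ) (w : ℂ) : ℂ :=
  (∑ k ∈ Finset.range L, (κ k : ℂ) * w ^ k) * conj w ^ N

lemma continuous_LK (κ : ℕ → ℝ) (L N : ℕ) : Continuous (LK κ L N) := by
  unfold LK
  have := Complex.continuous_conj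
  fun_prop

lemma LK_int (κ : ℕ → ℝ) (L N : ℕ) (m : ℕ → ℝ)
    (hm : ∀ k, m k = if k + N < L then κ (k + N) else 0) (P : ℂ[X]) (η : Sph 1) :
    (mp m P).eval (zc η) =
      ∫ ξ : Sph 1, LK κ L N ⟪(ξ : V 1), (η : V 1)⟫_ℂ * P.eval (zc ξ) ∂sig 1 := by
  have e : ∀ ξ : Sph 1, LK κ L N ⟪(ξ : V 1), (η : V 1)⟫_ℂ * P.eval (zc ξ) =
      ∑ l ∈ Finset.range (P.natDegree + 1), ∑ k ∈ Finset.range L,
        ((κ k : ℂ) * P.coeff l * zc η ^ k * conj (zc η) ^ N) *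
          (conj (zc ξ) ^ k * zc ξ ^ (N + l)) := by
    intro ξ
    rw [inner_zc, LK, eval_eq_sum_range, Finset.mul_sum]
    refine Finset.sum_congr rfl fun l _ => ?_
    rw [Finset.sum_mul, Finset.sum_mul]
    refine Finset.sum_congr rfl fun k _ => ?_
    simp only [map_mul, Complex.conj_conj, mul_pow, pow_add]
    ring
  simp_rw [e]
  rw [integral_finsetSum]
  · rw [mp_eval]
    refine Finset.sum_congr rfl fun l _ => ?_
    rw [integral_finsetSum]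
    · simp_rw [integral_const_mul, int_zc]
      simp only [mul_ite, mul_one, mul_zero]
      rw [Finset.sum_ite_eq' (Finset.range L) (N + l), hm l, add_comm l N]
      by_cases h : N + l < L
      · simp only [h, if_true, Finset.mem_range]
        have h1 : zc η ^ (N + l) * conj (zc η) ^ N = zc η ^ l := by
          rw [pow_add]
          calc _ = (conj (zc η) * zc η) ^ N * zc η ^ l := by rw [mul_pow]; ring
            _ = _ := by rw [conj_mul_zc, one_pow, one_mul]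
        rw [mul_assoc ((κ (N + l) : ℂ) * P.coeff l), h1]
      · simp only [h, if_false, Finset.mem_range]
        simp
    · intro k _
      apply integrable_cont
      have := Complex.continuous_conj
      have := continuous_zc
      fun_prop
  · intro l _
    apply integrable_cont
    have := Complex.continuous_conj
    have := continuous_zc
    fun_prop

/-- from kernel bounds to operator bounds -/
lemma mp_enorm_le {κ : ℕ → ℝ} {L N : ℕ} {m : ℕ → ℝ}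
    (hm : ∀ k, m k = if k + N < L then κ (k + N) else 0) {b : Sph 1 → Sph 1 → ℝ}
    {C : ℝ≥0} (η : Sph 1)
    (hb : ∀ ξ : Sph 1, ‖LK κ L N ⟪(ξ : V 1), (η : V 1)⟫_ℂ‖ ≤ C * b ξ η)
    (P : ℂ[X]) : ‖(mp m P).eval (zc η)‖ₑ ≤
      ∫⁻ ξ, (C * ENNReal.ofReal (b ξ η)) * ‖P.eval (zc ξ)‖ₑ ∂sig 1 := by
  rw [LK_int κ L N m hm]
  refine (enorm_integral_le_lintegral_enorm _).trans ?_
  refine lintegral_mono fun ξ => ?_
  simp only [enorm_mul]
  gcongr
  rw [← ofReal_norm]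
  calc _ ≤ ENNReal.ofReal (C * b ξ η) := ENNReal.ofReal_le_ofReal (hb ξ)
    _ = _ := by rw [ENNReal.ofReal_mul (by positivity), ENNReal.ofReal_coe_nnreal]

/-! ### The profiles -/

lemma phi_contDiff : ContDiff ℝ ∞ phi := by
  unfold phi
  exact contDiff_const.mul (Real.smoothTransition.contDiff.comp (contDiff_id.sub contDiff_const))

lemma phi_zero {x : ℝ} (hx : x ≤ 1) : phi x = 0 := by
  unfold phi
  rw [Real.smoothTransition.zero_of_nonpos (by linarith)]; simp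

lemma phi_one {x : ℝ} (hx : 2 ≤ x) : phi x = Real.pi / 2 := by
  unfold phi
  rw [Real.smoothTransition.one_of_one_le (by linarith)]; simp

lemma ms_contDiff : ContDiff ℝ ∞ ms := by
  unfold ms
  exact (Real.contDiff_cos.comp phi_contDiff).pow 2

lemma ms_one {x : ℝ} (hx : x ≤ 1) : ms x = 1 := by unfold ms; rw [phi_zero hx]; simp

lemma ms_zero {x : ℝ} (hx : 2 ≤ x) : ms x = 0 := by unfold ms; rw [phi_one hx]; simp

lemma ma_contDiff : ContDiff ℝ ∞ ma := by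
  unfold ma
  exact (Real.contDiff_sin.comp (phi_contDiff.comp (contDiff_const.mul contDiff_id))).mul
    (Real.contDiff_cos.comp phi_contDiff)

lemma ma_zero {x : ℝ} (hx : x ≤ 1 / 2) : ma x = 0 := by
  unfold ma; rw [phi_zero (x := 2 * x) (by linarith)]; simp

lemma ma_zero' {x : ℝ} (hx : 2 ≤ x) : ma x = 0 := by unfold ma; rw [phi_one hx]; simp

lemma ma_sq (x : ℝ) : ma x ^ 2 = ms x - ms (2 * x) := by
  unfold ma ms
  have h1 := Real.sin_sq_add_cos_sq (phi (2 * x))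
  rcases le_total x 1 with hx | hx
  · rw [phi_zero hx, Real.cos_zero]; linarith
  · rw [phi_one (x := 2 * x) (by linarith)]; simp

lemma abs_ma_le (x : ℝ) : |ma x| ≤ 1 := by
  unfold ma
  rw [abs_mul]
  exact mul_le_one₀ (Real.abs_sin_le_one _) (abs_nonneg _) (Real.abs_cos_le_one _)

lemma ms_nonneg (x : ℝ) : 0 ≤ ms x := by unfold ms; positivity

lemma ms_le_one (x : ℝ) : ms x ≤ 1 := by
  unfold ms
  have := Real.abs_cos_le_one (phi x)
  rw [← sq_abs]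
  exact pow_le_one₀ (abs_nonneg _) this

/-- low pass multiplier -/
noncomputable def sm (i k : ℕ) : ℝ := ms (k / 2 ^ i)

lemma AA_abs_le (j k : ℕ) : |AA j k| ≤ 1 := by
  unfold AA
  split_ifs <;> simp [abs_ma_le]

lemma AA_zero_of_le {j k : ℕ} (h : 2 * 2 ^ j ≤ k) : AA j k = 0 := by
  unfold AA
  split_ifs with h1 h2
  · subst h1; simp at h; omega
  · rfl
  · apply ma_zero'
    rw [le_div_iff₀ (by positivity)]
    exact_mod_cast h

lemma AA_zero_of_ge {j k : ℕ} (hj : j ≠ 0) (h : 2 * k ≤ 2 ^ j) : AA j k = 0 := by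
  unfold AA
  rw [if_neg hj]
  apply ma_zero
  rw [div_le_iff₀ (by positivity)]
  have : (2 : ℝ) * k ≤ 2 ^ j := by exact_mod_cast h
  linarith

lemma sm_zero_of_le {i k : ℕ} (h : 2 * 2 ^ i ≤ k) : sm i k = 0 := by
  unfold sm
  apply ms_zero
  rw [le_div_iff₀ (by positivity)]
  exact_mod_cast h

lemma sm_one {i k : ℕ} (h : k ≤ 2 ^ i) : sm i k = 1 := by
  unfold sm
  apply ms_one
  rw [div_le_iff₀ (by positivity), one_mul]
  exact_mod_cast h

lemma AA_sq_zero (k : ℕ) : AA 0 k ^ 2 = sm 0 k := by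
  unfold AA sm
  rw [if_pos rfl]
  split_ifs with h
  · rw [ms_one]
    · norm_num
    · have : (k : ℝ) ≤ 1 := by exact_mod_cast h
      simpa using this
  · rw [ms_zero]
    · norm_num
    · have : (2 : ℝ) ≤ k := by
        have h2 : 2 ≤ k := by omega
        exact_mod_cast h2
      simpa using this

lemma AA_sq_succ (i k : ℕ) : AA (i + 1) k ^ 2 = sm (i + 1) k - sm i k := by
  unfold AA sm
  rw [if_neg (Nat.succ_ne_zero i), ma_sq]
  congr 2
  rw [pow_succ]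
  field_simp

lemma sum_AA_sq (I k : ℕ) : ∑ i ∈ Finset.range (I + 1), AA i k ^ 2 = sm I k := by
  induction I with
  | zero => simp [AA_sq_zero]
  | succ I ih => rw [Finset.sum_range_succ, ih, AA_sq_succ]; ring

lemma sum_AA_sq_le (I k : ℕ) : ∑ i ∈ Finset.range I, AA i k ^ 2 ≤ 1 := by
  cases I with
  | zero => simp
  | succ I => rw [sum_AA_sq]; exact ms_le_one _

/-! ### Kernel bounds -/

lemma kerS_bound (N : ℕ) : ∃ C : ℝ≥0, ∀ (i : ℕ) (ξ η : Sph 1),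
    ‖LK (fun k => ms (((k + 0 : ℕ) : ℝ) * (1 / 2 ^ i) - 2) * ms (2 - ((k + 0 : ℕ) : ℝ) * (1 / 2 ^ i)))
      (4 * 2 ^ i) (2 * 2 ^ i) ⟪(ξ : V 1), (η : V 1)⟫_ℂ‖ ≤
      C * (2 ^ i / wt i (ξ : V 1) η ^ N) := by
  obtain ⟨C, hC, hb⟩ := ks_bound (m := fun x => ms (x - 2) * ms (2 - x)) (by
    exact (ms_contDiff.comp (contDiff_id.sub contDiff_const)).mul
      (ms_contDiff.comp (contDiff_const.sub contDiff_id)))
    (fun x hx => by rw [ms_zero (x := 2 - x) (by linarith), mul_zero])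
    (fun x hx => by rw [ms_zero (x := x - 2) (by linarith), zero_mul]) N
  refine ⟨⟨C, hC⟩, fun i ξ η => ?_⟩
  have h := hb i 0 (by norm_num) ⟪(ξ : V 1), (η : V 1)⟫_ℂ (norm_inner_le_one ξ η)
  unfold LK
  rw [norm_mul, norm_pow, Complex.norm_conj]
  have h1 : ‖⟪(ξ : V 1), (η : V 1)⟫_ℂ‖ ^ (2 * 2 ^ i) ≤ 1 :=
    pow_le_one₀ (norm_nonneg _) (norm_inner_le_one ξ η)
  have h2 := wt_pos i (ξ : V 1) η
  refine (mul_le_of_le_one_right (norm_nonneg _) h1).trans ?_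
  change _ ≤ C * _
  rw [← mul_div_assoc, le_div_iff₀ (pow_pos h2 N)]
  exact h

lemma kerV_bound (N : ℕ) : ∃ C : ℝ≥0, ∀ (j : ℕ) (ξ η : Sph 1),
    ‖LK (AA j) (4 * 2 ^ j) 0 ⟪(ξ : V 1), (η : V 1)⟫_ℂ‖ ≤ C * (2 ^ j / wt j (ξ : V 1) η ^ N) := by
  obtain ⟨C, hC, hb⟩ := ks_bound ma_contDiff (fun x hx => ma_zero (by linarith))
    (fun x hx => ma_zero' (by linarith)) N
  refine ⟨⟨C + 4 * 3 ^ N, by positivity⟩, fun j ξ η => ?_⟩
  have hw := norm_inner_le_one ξ η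
  have h2 := wt_pos j (ξ : V 1) η
  unfold LK
  rw [pow_zero, mul_one]
  change _ ≤ (C + 4 * 3 ^ N) * _
  rw [← mul_div_assoc, le_div_iff₀ (pow_pos h2 N)]
  rcases Nat.eq_zero_or_pos j with hj | hj
  · subst hj
    have h3 : ‖∑ k ∈ Finset.range (4 * 2 ^ 0), ((AA 0 k : ℝ) : ℂ) *
        ⟪(ξ : V 1), (η : V 1)⟫_ℂ ^ k‖ ≤ 4 := by
      refine (norm_sum_le _ _).trans ?_
      calc _ ≤ ∑ k ∈ Finset.range (4 * 2 ^ 0), (1 : ℝ) := by
            refine Finset.sum_le_sum fun k _ => ?_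
            rw [norm_mul, norm_pow, Complex.norm_real, Real.norm_eq_abs]
            exact mul_le_one₀ (AA_abs_le 0 k) (by positivity) (pow_le_one₀ (norm_nonneg _) hw)
        _ = 4 := by simp
    have h4 : wt 0 (ξ : V 1) η ≤ 3 := by
      unfold wt
      have := dd_le_two ξ η
      simp only [pow_zero, one_mul]; linarith
    calc _ ≤ 4 * 3 ^ N := by gcongr
      _ ≤ (C + 4 * 3 ^ N) * 2 ^ 0 := by simp [hC]
  · have h := hb j 0 (by norm_num) ⟪(ξ : V 1), (η : V 1)⟫_ℂ hw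
    have e : ∑ k ∈ Finset.range (4 * 2 ^ j), ((AA j k : ℝ) : ℂ) *
        ⟪(ξ : V 1), (η : V 1)⟫_ℂ ^ k = ks ma (1 / 2 ^ j) 0 (4 * 2 ^ j) ⟪(ξ : V 1), (η : V 1)⟫_ℂ := by
      unfold ks
      refine Finset.sum_congr rfl fun k _ => ?_
      unfold AA
      rw [if_neg hj.ne']
      congr 3
      push_cast; ring
    rw [e]
    refine h.trans ?_
    gcongr
    have : (0 : ℝ) ≤ 4 * 3 ^ N := by positivity
    linarith

lemma sm_repr (i k : ℕ) : sm i k = if k + 2 * 2 ^ i < 4 * 2 ^ i then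
    (fun k : ℕ => ms (((k + 0 : ℕ) : ℝ) * (1 / 2 ^ i) - 2) *
      ms (2 - ((k + 0 : ℕ) : ℝ) * (1 / 2 ^ i))) (k + 2 * 2 ^ i) else 0 := by
  split_ifs with h
  · have e1 : (((k + 2 * 2 ^ i + 0 : ℕ) : ℝ) * (1 / 2 ^ i) - 2) = k / 2 ^ i := by
      push_cast; field_simp; ring
    have e2 : (2 - ((k + 2 * 2 ^ i + 0 : ℕ) : ℝ) * (1 / 2 ^ i)) = -(k / 2 ^ i) := by
      rw [← e1]; ring
    simp only
    rw [e1, e2, ms_one (x := -(k / 2 ^ i))]
    · rw [mul_one]; rfl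
    · have : (0 : ℝ) ≤ k / 2 ^ i := by positivity
      linarith
  · exact sm_zero_of_le (by omega)

lemma AA_repr (j k : ℕ) : AA j k = if k + 0 < 4 * 2 ^ j then AA j (k + 0) else 0 := by
  split_ifs with h
  · rfl
  · exact AA_zero_of_le (by omega)

/-- pointwise bound of the low pass operators by the averaging operators -/
lemma sm_le : ∃ C : ℝ≥0, ∀ (i : ℕ) (P : ℂ[X]) (η : Sph 1), ‖(mp (sm i) P).eval (zc η)‖ₑ ≤
    C * TK (sig 1) (tk 1) i (fun ξ => ‖P.eval (zc ξ)‖ₑ) η := by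
  obtain ⟨C, hC⟩ := kerS_bound 4
  obtain ⟨C', hK⟩ := tk_KF 1
  refine ⟨C, fun i P η => ?_⟩
  have h := mp_enorm_le (b := fun ξ η => 2 ^ i / wt i (ξ : V 1) η ^ 4) (C := C) (sm_repr i) η
    (fun ξ => hC i ξ η) P
  refine h.trans ?_
  unfold TK
  have hm : Measurable fun ξ : Sph 1 => ‖P.eval (zc ξ)‖ₑ :=
    (P.continuous.comp continuous_zc).measurable.enorm
  have hm2 : Measurable fun ξ : Sph 1 => tk 1 i η ξ * ‖P.eval (zc ξ)‖ₑ :=
    (meas_k_left hK.meas i η).mul hm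
  rw [← lintegral_const_mul _ hm2]
  refine lintegral_mono fun ξ => ?_
  simp only
  rw [mul_assoc]
  gcongr
  unfold tk
  rw [wt_comm i (ξ : V 1) η]
  simp

lemma AA_le : ∃ C : ℝ≥0, ∀ (j : ℕ) (P : ℂ[X]) (η : Sph 1), ‖(mp (AA j) P).eval (zc η)‖ₑ ≤
    ∫⁻ ξ, (C * ENNReal.ofReal (2 ^ j / wt j (ξ : V 1) η ^ 8)) * ‖P.eval (zc ξ)‖ₑ ∂sig 1 := by
  obtain ⟨C, hC⟩ := kerV_bound 8
  refine ⟨C, fun j P η => ?_⟩
  exact mp_enorm_le (b := fun ξ η => 2 ^ j / wt j (ξ : V 1) η ^ 8) (C := C) (AA_repr j) η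
    (fun ξ => hC j ξ η) P

lemma TK_shift (i : ℕ) {h : Sph 1 → ℝ≥0∞} (hh : Measurable h) (η ζ : Sph 1) :
    TK (sig 1) (tk 1) i h η ≤
      ENNReal.ofReal ((2 * wt i (ζ : V 1) η) ^ 4) * TK (sig 1) (tk 1) i h ζ := by
  obtain ⟨C', hK⟩ := tk_KF 1
  unfold TK
  have hm2 : Measurable fun ξ : Sph 1 => tk 1 i ζ ξ * h ξ := (meas_k_left hK.meas i ζ).mul hh
  rw [← lintegral_const_mul _ hm2]
  refine lintegral_mono fun ξ => ?_
  simp only
  rw [← mul_assoc]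
  gcongr
  unfold tk
  rw [← ENNReal.ofReal_mul (by positivity)]
  apply ENNReal.ofReal_le_ofReal
  have h1 := wt_quasi i ζ η ξ
  have p1 := wt_pos i (η : V 1) ξ
  have p2 := wt_pos i (ζ : V 1) ξ
  have p3 := wt_pos i (ζ : V 1) η
  have e : (2 * 1 + 2 : ℕ) = 4 := rfl
  rw [e, ← mul_div_assoc, div_le_div_iff₀ (pow_pos p1 4) (pow_pos p2 4)]
  calc 2 ^ (i * 1) * wt i (ζ : V 1) ξ ^ 4 ≤
        2 ^ (i * 1) * (2 * (wt i (ζ : V 1) η * wt i (η : V 1) ξ)) ^ 4 := by gcongr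
    _ = _ := by ring

/-! ### Parseval -/

lemma parseval (P : ℂ[X]) {M : ℕ} (hM : P.natDegree < M) :
    ∫⁻ ζ : Sph 1, ‖P.eval (zc ζ)‖ₑ ^ 2 ∂sig 1 =
      ENNReal.ofReal (∑ k ∈ Finset.range M, ‖P.coeff k‖ ^ 2) := by
  have hc : Continuous fun ζ : Sph 1 => P.eval (zc ζ) := P.continuous.comp continuous_zc
  have h1 : (((∫ ζ : Sph 1, ‖P.eval (zc ζ)‖ ^ 2 ∂sig 1 : ℝ)) : ℂ) =
      ((∑ k ∈ Finset.range M, ‖P.coeff k‖ ^ 2 : ℝ) : ℂ) := by
    rw [← integral_complex_ofReal]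
    have e : ∀ ζ : Sph 1, (((‖P.eval (zc ζ)‖ ^ 2 : ℝ)) : ℂ) =
        ∑ k ∈ Finset.range M, ∑ l ∈ Finset.range M,
          (conj (P.coeff k) * P.coeff l) * (conj (zc ζ) ^ k * zc ζ ^ l) := by
      intro ζ
      have : (((‖P.eval (zc ζ)‖ ^ 2 : ℝ)) : ℂ) = conj (P.eval (zc ζ)) * P.eval (zc ζ) := by
        rw [mul_comm, Complex.mul_conj, Complex.normSq_eq_norm_sq]
      rw [this, eval_eq_sum_range' hM, map_sum, Finset.sum_mul_sum]
      refine Finset.sum_congr rfl fun k _ => Finset.sum_congr rfl fun l _ => ?_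
      simp only [map_mul, map_pow]
      ring
    simp_rw [e]
    rw [integral_finsetSum]
    · push_cast
      refine Finset.sum_congr rfl fun k hk => ?_
      rw [integral_finsetSum]
      · simp_rw [integral_const_mul, int_zc]
        simp only [mul_ite, mul_one, mul_zero]
        rw [Finset.sum_ite_eq (Finset.range M) k, if_pos hk, mul_comm, Complex.mul_conj,
          Complex.normSq_eq_norm_sq]
        push_cast; rfl
      · intro l _
        apply integrable_cont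
        have := Complex.continuous_conj
        have := continuous_zc
        fun_prop
    · intro k _
      apply integrable_cont
      have := Complex.continuous_conj
      have := continuous_zc
      fun_prop
  have h2 : ∫ ζ : Sph 1, ‖P.eval (zc ζ)‖ ^ 2 ∂sig 1 = ∑ k ∈ Finset.range M, ‖P.coeff k‖ ^ 2 := by
    exact_mod_cast h1
  rw [← h2, ofReal_integral_eq_lintegral_ofReal]
  · refine lintegral_congr fun ζ => ?_
    rw [← ofReal_norm, ENNReal.ofReal_pow (norm_nonneg _)]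
  · obtain ⟨B, hB⟩ := (isCompact_univ (X := Sph 1)).exists_bound_of_continuousOn
      (hc.norm.pow 2).continuousOn
    exact Integrable.of_bound (hc.norm.pow 2).aestronglyMeasurable B
      (ae_of_all _ fun x => hB x (mem_univ x))
  · exact ae_of_all _ fun x => by positivity

lemma mp_natDegree_lt (m : ℕ → ℝ) (P : ℂ[X]) : (mp m P).natDegree < P.natDegree + 1 := by
  rw [Nat.lt_succ_iff, natDegree_le_iff_coeff_eq_zero]
  intro N hN
  rw [mp_coeff, coeff_eq_zero_of_natDegree_lt hN, mul_zero]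

/-! ### The decomposition of a square -/

/-- low pass pieces, shifted -/
noncomputable def SS (g : ℂ[X]) : ℕ → ℂ[X]
  | 0 => 0
  | (i + 1) => mp (sm i) g

/-- band pass pieces -/
noncomputable def WW (g : ℂ[X]) (i : ℕ) : ℂ[X] := mp (fun k => AA i k ^ 2) g

lemma WW_eq (g : ℂ[X]) (i : ℕ) : WW g i = SS g (i + 1) - SS g i := by
  cases i with
  | zero =>
    ext k
    simp [WW, SS, mp_coeff, ← AA_sq_zero]
  | succ i =>
    ext k
    simp only [WW, SS, mp_coeff, coeff_sub]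
    rw [AA_sq_succ]; push_cast; ring

/-- the terms of the telescoping sum for the square -/
noncomputable def FF (g : ℂ[X]) (i : ℕ) : ℂ[X] := WW g i * (SS g (i + 1) + SS g i)

lemma sum_FF (g : ℂ[X]) (I : ℕ) : ∑ i ∈ Finset.range I, FF g i = SS g I ^ 2 := by
  induction I with
  | zero => simp [SS]
  | succ I ih => rw [Finset.sum_range_succ, ih, FF, WW_eq]; ring

lemma SS_eq_self (g : ℂ[X]) {I : ℕ} (hI : g.natDegree < I) : SS g I = g := by
  cases I with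
  | zero => omega
  | succ I =>
    ext k
    simp only [SS, mp_coeff]
    rcases le_or_gt k (2 ^ I) with hk | hk
    · rw [sm_one hk]; simp
    · rw [coeff_eq_zero_of_natDegree_lt (n := k)]
      · simp
      · have : I < 2 ^ I := Nat.lt_two_pow_self
        omega

lemma loc (g : ℂ[X]) {i j : ℕ} (h : ¬ (i ≤ j + 2 ∧ j ≤ i + 2)) : mp (AA j) (FF g i) = 0 := by
  ext n
  rw [mp_coeff, coeff_zero]
  by_cases hn : AA j n = 0
  · rw [hn]; simp
  have hn1 : n < 2 * 2 ^ j := by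
    by_contra hc
    exact hn (AA_zero_of_le (not_lt.mp hc))
  have hn2 : j ≠ 0 → 2 ^ j < 2 * n := by
    intro hj
    by_contra hc
    exact hn (AA_zero_of_ge hj (not_lt.mp hc))
  have hz : (FF g i).coeff n = 0 := by
    unfold FF
    rw [coeff_mul]
    refine Finset.sum_eq_zero fun p hp => ?_
    rw [Finset.HasAntidiagonal.mem_antidiagonal] at hp
    by_cases ha : AA i p.1 = 0
    · simp [WW, mp_coeff, ha]
    have ha1 : p.1 < 2 * 2 ^ i := by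
      by_contra hc
      exact ha (AA_zero_of_le (not_lt.mp hc))
    have ha2 : i ≠ 0 → 2 ^ i < 2 * p.1 := by
      intro hi
      by_contra hc
      exact ha (AA_zero_of_ge hi (not_lt.mp hc))
    have hb : 2 * 2 ^ i ≤ p.2 → (SS g (i + 1) + SS g i).coeff p.2 = 0 := by
      intro hb
      rw [coeff_add]
      have e1 : (SS g (i + 1)).coeff p.2 = 0 := by
        simp only [SS, mp_coeff]
        rw [sm_zero_of_le hb]; simp
      have e2 : (SS g i).coeff p.2 = 0 := by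
        cases i with
        | zero => simp [SS]
        | succ i =>
          simp only [SS, mp_coeff]
          rw [sm_zero_of_le]
          · simp
          · have : 2 * 2 ^ i ≤ 2 * 2 ^ (i + 1) := by
              have := Nat.pow_le_pow_right (n := 2) (by norm_num) (Nat.le_succ i)
              omega
            omega
      rw [e1, e2, add_zero]
    rcases le_or_gt (2 * 2 ^ i) p.2 with hb2 | hb2
    · rw [hb hb2, mul_zero]
    exfalso
    rw [not_and_or, not_le, not_le] at h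
    rcases h with h | h
    · have h1 := ha2 (by omega)
      have h2 : 2 ^ (j + 2) ≤ 2 ^ i := Nat.pow_le_pow_right (by norm_num) (by omega)
      rw [pow_add] at h2
      omega
    · have h1 := hn2 (by omega)
      have h2 : 2 ^ (i + 3) ≤ 2 ^ j := Nat.pow_le_pow_right (by norm_num) (by omega)
      rw [pow_add] at h2
      omega
  rw [hz, mul_zero]

/-! ### Pointwise estimates -/

lemma wt_mono {i j : ℕ} (h : i ≤ j) (x y : V 1) : wt i x y ≤ wt j x y := by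
  unfold wt
  have := dd_nonneg x y
  have h2 : (2 : ℝ) ^ i ≤ 2 ^ j := pow_le_pow_right₀ (by norm_num) h
  nlinarith

lemma wt_add_two (j : ℕ) (x y : V 1) : wt (j + 2) x y ≤ 4 * wt j x y := by
  unfold wt
  have := dd_nonneg x y
  rw [pow_add]; nlinarith [this]

/-- the maximal function of the modulus of a polynomial -/
noncomputable def MF (g : ℂ[X]) (ζ : Sph 1) : ℝ≥0∞ :=
  ⨆ l, TK (sig 1) (tk 1) l (fun ξ => ‖g.eval (zc ξ)‖ₑ) ζ

lemma meas_ev (g : ℂ[X]) : Measurable fun ξ : Sph 1 => ‖g.eval (zc ξ)‖ₑ :=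
  (g.continuous.comp continuous_zc).measurable.enorm

lemma SS_le : ∃ C : ℝ≥0, ∀ (g : ℂ[X]) (i i' : ℕ), i' ≤ i + 1 → ∀ ξ ζ : Sph 1,
    ‖(SS g i').eval (zc ξ)‖ₑ ≤ C * (ENNReal.ofReal ((2 * wt i (ζ : V 1) ξ) ^ 4) * MF g ζ) := by
  obtain ⟨C, hC⟩ := sm_le
  refine ⟨C, fun g i i' h ξ ζ => ?_⟩
  cases i' with
  | zero => simp [SS]
  | succ l =>
    have hl : l ≤ i := by omega
    refine (hC l g ξ).trans ?_
    gcongr
    refine (TK_shift l (meas_ev g) ξ ζ).trans ?_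
    have h1 := wt_mono hl (ζ : V 1) ξ
    have h2 := wt_pos l (ζ : V 1) ξ
    gcongr
    exact le_iSup (fun l => TK (sig 1) (tk 1) l (fun ξ => ‖g.eval (zc ξ)‖ₑ) ζ) l

lemma VF_le : ∃ C : ℝ≥0, ∀ (g : ℂ[X]) (i j : ℕ), i ≤ j + 2 → ∀ ζ : Sph 1,
    ‖(mp (AA j) (FF g i)).eval (zc ζ)‖ₑ ≤ C * MF g ζ *
      TK (sig 1) (tk 1) j (fun ξ => ‖(WW g i).eval (zc ξ)‖ₑ) ζ := by
  obtain ⟨C1, h1⟩ := SS_le
  obtain ⟨C2, h2⟩ := AA_le
  obtain ⟨C', hK⟩ := tk_KF 1
  refine ⟨C2 * (2 * C1) * 4096, fun g i j hij ζ => ?_⟩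
  refine (h2 j (FF g i) ζ).trans ?_
  unfold TK
  have hm2 : Measurable fun ξ : Sph 1 => tk 1 j ζ ξ * ‖(WW g i).eval (zc ξ)‖ₑ :=
    (meas_k_left hK.meas j ζ).mul (meas_ev _)
  rw [← lintegral_const_mul _ hm2]
  refine lintegral_mono fun ξ => ?_
  simp only
  have hw := wt_pos j (ζ : V 1) ξ
  have e1 : ‖(FF g i).eval (zc ξ)‖ₑ ≤ ‖(WW g i).eval (zc ξ)‖ₑ *
      (2 * (C1 * (ENNReal.ofReal ((8 * wt j (ζ : V 1) ξ) ^ 4) * MF g ζ))) := by
    unfold FF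
    rw [eval_mul, enorm_mul]
    gcongr
    rw [eval_add]
    refine (enorm_add_le _ _).trans ?_
    have hwt : 2 * wt i (ζ : V 1) ξ ≤ 8 * wt j (ζ : V 1) ξ := by
      have a1 := wt_mono hij (ζ : V 1) ξ
      have a2 := wt_add_two j (ζ : V 1) ξ
      linarith
    have hwi := wt_pos i (ζ : V 1) ξ
    have k1 := h1 g i (i + 1) le_rfl ξ ζ
    have k2 := h1 g i i (Nat.le_succ i) ξ ζ
    rw [two_mul]
    refine add_le_add (k1.trans ?_) (k2.trans ?_) <;> gcongr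
  have e2 : ENNReal.ofReal (2 ^ j / wt j (ξ : V 1) ζ ^ 8) *
      ENNReal.ofReal ((8 * wt j (ζ : V 1) ξ) ^ 4) = 4096 * tk 1 j ζ ξ := by
    unfold tk
    rw [wt_comm j (ξ : V 1) ζ, ← ENNReal.ofReal_mul (by positivity)]
    have e3 : (4096 : ℝ≥0∞) = ENNReal.ofReal 4096 := by norm_num
    rw [e3, ← ENNReal.ofReal_mul (by norm_num)]
    congr 1
    have e : (2 * 1 + 2 : ℕ) = 4 := rfl
    rw [e, mul_one]
    field_simp
    norm_num
  calc (C2 : ℝ≥0∞) * ENNReal.ofReal (2 ^ j / wt j (ξ : V 1) ζ ^ 8) * ‖(FF g i).eval (zc ξ)‖ₑ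
      ≤ (C2 : ℝ≥0∞) * ENNReal.ofReal (2 ^ j / wt j (ξ : V 1) ζ ^ 8) * (‖(WW g i).eval (zc ξ)‖ₑ *
      (2 * (C1 * (ENNReal.ofReal ((8 * wt j (ζ : V 1) ξ) ^ 4) * MF g ζ)))) := by gcongr
    _ = (C2 : ℝ≥0∞) * (2 * C1) * (ENNReal.ofReal (2 ^ j / wt j (ξ : V 1) ζ ^ 8) *
      ENNReal.ofReal ((8 * wt j (ζ : V 1) ξ) ^ 4)) * MF g ζ * ‖(WW g i).eval (zc ξ)‖ₑ := by ring
    _ = _ := by
      rw [e2]; push_cast; ring

/-! ### The square estimate -/

lemma sum_L2 (g : ℂ[X]) : ∑' i, ∫⁻ ζ : Sph 1, ‖(WW g i).eval (zc ζ)‖ₑ ^ 2 ∂sig 1 ≤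
    ∫⁻ ζ : Sph 1, ‖g.eval (zc ζ)‖ₑ ^ 2 ∂sig 1 := by
  refine ENNReal.tsum_le_of_sum_range_le fun I => ?_
  have h1 : ∀ i, ∫⁻ ζ : Sph 1, ‖(WW g i).eval (zc ζ)‖ₑ ^ 2 ∂sig 1 =
      ENNReal.ofReal (∑ k ∈ Finset.range (g.natDegree + 1), ‖(WW g i).coeff k‖ ^ 2) :=
    fun i => parseval _ (mp_natDegree_lt _ g)
  simp_rw [h1]
  rw [parseval g (Nat.lt_succ_self _), ← ENNReal.ofReal_sum_of_nonneg (fun i _ => by positivity)]
  apply ENNReal.ofReal_le_ofReal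
  rw [Finset.sum_comm]
  refine Finset.sum_le_sum fun k _ => ?_
  have h2 : ∀ i, ‖(WW g i).coeff k‖ ^ 2 ≤ AA i k ^ 2 * ‖g.coeff k‖ ^ 2 := by
    intro i
    rw [WW, mp_coeff, norm_mul, mul_pow, Complex.norm_real, Real.norm_eq_abs, sq_abs]
    have h3 : AA i k ^ 2 ≤ 1 := by
      rw [← sq_abs]; exact pow_le_one₀ (abs_nonneg _) (AA_abs_le i k)
    have h4 : (AA i k ^ 2) ^ 2 ≤ AA i k ^ 2 := by nlinarith [sq_nonneg (AA i k)]
    gcongr
  calc _ ≤ ∑ i ∈ Finset.range I, AA i k ^ 2 * ‖g.coeff k‖ ^ 2 :=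
        Finset.sum_le_sum fun i _ => h2 i
    _ = (∑ i ∈ Finset.range I, AA i k ^ 2) * ‖g.coeff k‖ ^ 2 := by rw [Finset.sum_mul]
    _ ≤ 1 * ‖g.coeff k‖ ^ 2 := by gcongr; exact sum_AA_sq_le I k
    _ = _ := one_mul _

lemma card_near (j I : ℕ) :
    ((Finset.range I).filter fun i => i ≤ j + 2 ∧ j ≤ i + 2).card ≤ 5 := by
  calc _ ≤ (Finset.Icc (j - 2) (j + 2)).card := by
        apply Finset.card_le_card
        intro i hi
        rw [Finset.mem_filter] at hi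
        rw [Finset.mem_Icc]
        omega
    _ ≤ 5 := by rw [Nat.card_Icc]; omega

lemma sq_sum_le (s : Finset ℕ) (hs : s.card ≤ 5) (f : ℕ → ℝ≥0∞) :
    (∑ i ∈ s, f i) ^ 2 ≤ 5 * ∑ i ∈ s, f i ^ 2 := by
  have h := ENNReal.rpow_sum_le_const_mul_sum_rpow s f (p := 2) (by norm_num)
  have e : ∀ a : ℝ≥0∞, a ^ (2 : ℝ) = a ^ 2 := fun a => by
    rw [← ENNReal.rpow_natCast]; norm_num
  simp_rw [e] at h
  refine h.trans ?_
  gcongr
  have e2 : (2 : ℝ) - 1 = 1 := by norm_num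
  rw [e2, ENNReal.rpow_one]
  exact_mod_cast hs

lemma eval_sq_le (g : ℂ[X]) {C : ℝ≥0} (hC : ∀ (g : ℂ[X]) (i j : ℕ), i ≤ j + 2 → ∀ ζ : Sph 1,
    ‖(mp (AA j) (FF g i)).eval (zc ζ)‖ₑ ≤ C * MF g ζ *
      TK (sig 1) (tk 1) j (fun ξ => ‖(WW g i).eval (zc ξ)‖ₑ) ζ) {I : ℕ} (hI : g.natDegree < I)
    (j : ℕ) (ζ : Sph 1) :
    ‖(mp (AA j) (g ^ 2)).eval (zc ζ)‖ₑ ^ 2 ≤ (C * MF g ζ) ^ 2 *
      (5 * ∑ i ∈ (Finset.range I).filter (fun i => i ≤ j + 2 ∧ j ≤ i + 2),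
        TK (sig 1) (tk 1) j (fun ξ => ‖(WW g i).eval (zc ξ)‖ₑ) ζ ^ 2) := by
  have e : g ^ 2 = ∑ i ∈ Finset.range I, FF g i := by rw [sum_FF, SS_eq_self g hI]
  have h1 : ‖(mp (AA j) (g ^ 2)).eval (zc ζ)‖ₑ ≤ (C * MF g ζ) *
      ∑ i ∈ (Finset.range I).filter (fun i => i ≤ j + 2 ∧ j ≤ i + 2),
        TK (sig 1) (tk 1) j (fun ξ => ‖(WW g i).eval (zc ξ)‖ₑ) ζ := by
    rw [e, mp_sum, eval_finsetSum, Finset.mul_sum]
    refine (enorm_sum_le _ _).trans ?_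
    rw [Finset.sum_filter]
    refine Finset.sum_le_sum fun i _ => ?_
    split_ifs with h
    · exact hC g i j h.1 ζ
    · rw [loc g h]; simp
  calc _ ≤ _ := pow_le_pow_left' h1 2
    _ = (C * MF g ζ) ^ 2 * (∑ i ∈ (Finset.range I).filter (fun i => i ≤ j + 2 ∧ j ≤ i + 2),
        TK (sig 1) (tk 1) j (fun ξ => ‖(WW g i).eval (zc ξ)‖ₑ) ζ) ^ 2 := by rw [mul_pow]
    _ ≤ _ := by
      gcongr
      exact sq_sum_le _ (card_near j I) _

theorem LP_sq : ∃ C : ℝ≥0, ∀ g : ℂ[X],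
    ∫⁻ ζ : Sph 1, sqf (fun (j : ℕ) (ζ : Sph 1) => ‖(mp (AA j) (g ^ 2)).eval (zc ζ)‖ₑ) ζ ∂sig 1 ≤
      C * ∫⁻ ζ : Sph 1, ‖g.eval (zc ζ)‖ₑ ^ 2 ∂sig 1 := by
  obtain ⟨C, hC⟩ := VF_le
  obtain ⟨K, hK⟩ := tk_KF 1
  refine ⟨10 * C * K ^ 2, fun g => ?_⟩
  set I := g.natDegree + 1 with hI
  set E : ℝ≥0∞ := ∫⁻ ζ : Sph 1, ‖g.eval (zc ζ)‖ₑ ^ 2 ∂sig 1 with hE
  set T : ℕ → ℕ → Sph 1 → ℝ≥0∞ := fun i j ζ =>
    TK (sig 1) (tk 1) j (fun ξ => ‖(WW g i).eval (zc ξ)‖ₑ) ζ with hT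
  have hTm : ∀ i j, Measurable (T i j) := fun i j => meas_TK hK.meas j (meas_ev _)
  set A : Sph 1 → ℝ≥0∞ := fun ζ => ∑' j, 5 * ∑ i ∈ (Finset.range I).filter
    (fun i => i ≤ j + 2 ∧ j ≤ i + 2), T i j ζ ^ 2 with hA
  have hAm : Measurable A := by
    refine Measurable.tsum fun j => ?_
    refine Measurable.const_mul ?_ _
    exact Finset.measurable_sum _ fun i _ => (hTm i j).pow_const 2
  have hMm : Measurable (MF g) := by
    unfold MF
    exact Measurable.iSup fun l => meas_TK hK.meas l (meas_ev _)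
  -- pointwise
  have hpt : ∀ ζ, sqf (fun (j : ℕ) (ζ : Sph 1) => ‖(mp (AA j) (g ^ 2)).eval (zc ζ)‖ₑ) ζ ≤
      (C * MF g ζ) * A ζ ^ (1 / 2 : ℝ) := by
    intro ζ
    unfold sqf
    have h1 : ∑' j, ‖(mp (AA j) (g ^ 2)).eval (zc ζ)‖ₑ ^ 2 ≤ (C * MF g ζ) ^ 2 * A ζ := by
      rw [hA, ← ENNReal.tsum_mul_left]
      exact ENNReal.tsum_le_tsum fun j => eval_sq_le g hC (Nat.lt_succ_self _) j ζ
    calc _ ≤ ((C * MF g ζ) ^ 2 * A ζ) ^ (1 / 2 : ℝ) := ENNReal.rpow_le_rpow h1 (by norm_num)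
      _ = _ := by
        rw [ENNReal.mul_rpow_of_nonneg _ _ (by norm_num), ← ENNReal.rpow_natCast,
          ← ENNReal.rpow_mul]
        norm_num
  -- integral of A
  have hAint : ∫⁻ ζ, A ζ ∂sig 1 ≤ 25 * K ^ 2 * E := by
    have b1 : ∀ i j, ∫⁻ ζ, T i j ζ ^ 2 ∂sig 1 ≤
        K ^ 2 * ∫⁻ ζ : Sph 1, ‖(WW g i).eval (zc ζ)‖ₑ ^ 2 ∂sig 1 :=
      fun i j => TK_L2 hK j (meas_ev _)
    have b2 : ∀ i, ∑' j, (if i ≤ j + 2 ∧ j ≤ i + 2 then
        K ^ 2 * ∫⁻ ζ : Sph 1, ‖(WW g i).eval (zc ζ)‖ₑ ^ 2 ∂sig 1 else 0) ≤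
        5 * (K ^ 2 * ∫⁻ ζ : Sph 1, ‖(WW g i).eval (zc ζ)‖ₑ ^ 2 ∂sig 1) := by
      intro i
      rw [tsum_eq_sum (s := Finset.Icc (i - 2) (i + 2))]
      · calc _ ≤ ∑ j ∈ Finset.Icc (i - 2) (i + 2),
              K ^ 2 * ∫⁻ ζ : Sph 1, ‖(WW g i).eval (zc ζ)‖ₑ ^ 2 ∂sig 1 := by
              refine Finset.sum_le_sum fun j _ => ?_
              split_ifs
              · exact le_rfl
              · exact zero_le
          _ ≤ _ := by
              rw [Finset.sum_const, nsmul_eq_mul]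
              gcongr
              have : (Finset.Icc (i - 2) (i + 2)).card ≤ 5 := by rw [Nat.card_Icc]; omega
              exact_mod_cast this
      · intro j hj
        rw [if_neg]
        intro hc
        apply hj
        rw [Finset.mem_Icc]
        omega
    calc ∫⁻ ζ, A ζ ∂sig 1 = ∑' j, 5 * ∑ i ∈ (Finset.range I).filter
          (fun i => i ≤ j + 2 ∧ j ≤ i + 2), ∫⁻ ζ, T i j ζ ^ 2 ∂sig 1 := by
          rw [hA]
          rw [lintegral_tsum]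
          · refine tsum_congr fun j => ?_
            rw [lintegral_const_mul]
            · rw [lintegral_finsetSum]
              exact fun i _ => (hTm i j).pow_const 2
            · exact Finset.measurable_sum _ fun i _ => (hTm i j).pow_const 2
          · intro j
            refine (Measurable.const_mul ?_ _).aemeasurable
            exact Finset.measurable_sum _ fun i _ => (hTm i j).pow_const 2
      _ = 5 * ∑' j, ∑ i ∈ Finset.range I, (if i ≤ j + 2 ∧ j ≤ i + 2 then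
            ∫⁻ ζ, T i j ζ ^ 2 ∂sig 1 else 0) := by
          rw [← ENNReal.tsum_mul_left]
          refine tsum_congr fun j => ?_
          rw [Finset.sum_filter]
      _ ≤ 5 * ∑' j, ∑ i ∈ Finset.range I, (if i ≤ j + 2 ∧ j ≤ i + 2 then
            K ^ 2 * ∫⁻ ζ : Sph 1, ‖(WW g i).eval (zc ζ)‖ₑ ^ 2 ∂sig 1 else 0) := by
          gcongr with j i hi
          split_ifs
          · exact b1 i j
          · exact le_rfl
      _ = 5 * ∑ i ∈ Finset.range I, ∑' j, (if i ≤ j + 2 ∧ j ≤ i + 2 then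
            K ^ 2 * ∫⁻ ζ : Sph 1, ‖(WW g i).eval (zc ζ)‖ₑ ^ 2 ∂sig 1 else 0) := by
          congr 1
          exact Summable.tsum_finsetSum fun i _ => ENNReal.summable
      _ ≤ 5 * ∑ i ∈ Finset.range I,
            5 * (K ^ 2 * ∫⁻ ζ : Sph 1, ‖(WW g i).eval (zc ζ)‖ₑ ^ 2 ∂sig 1) := by
          gcongr with i hi
          exact b2 i
      _ = 25 * K ^ 2 * ∑ i ∈ Finset.range I,
            ∫⁻ ζ : Sph 1, ‖(WW g i).eval (zc ζ)‖ₑ ^ 2 ∂sig 1 := by
          simp_rw [Finset.mul_sum]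
          refine Finset.sum_congr rfl fun i _ => ?_
          ring
      _ ≤ 25 * K ^ 2 * E := by
          gcongr
          exact (ENNReal.sum_le_tsum _).trans (sum_L2 g)
  have hMint : ∫⁻ ζ, MF g ζ ^ 2 ∂sig 1 ≤ (2 * K) ^ 2 * E := max_L2 hK (meas_ev g)
  -- Cauchy-Schwarz
  have hCS := CS (μ := sig 1) (f := fun ζ => C * MF g ζ) (g := fun ζ => A ζ ^ (1 / 2 : ℝ))
    (hMm.const_mul _) (hAm.pow_const _)
  have e1 : ∀ a : ℝ≥0∞, (a ^ (1 / 2 : ℝ)) ^ 2 = a := by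
    intro a
    rw [← ENNReal.rpow_natCast, ← ENNReal.rpow_mul]; norm_num
  simp only [e1] at hCS
  refine (lintegral_mono hpt).trans ?_
  refine (ENNReal.pow_le_pow_left_iff two_ne_zero).mp ?_
  refine hCS.trans ?_
  have e2 : ∫⁻ ζ, (C * MF g ζ) ^ 2 ∂sig 1 = C ^ 2 * ∫⁻ ζ, MF g ζ ^ 2 ∂sig 1 := by
    simp_rw [mul_pow]
    exact lintegral_const_mul _ (hMm.pow_const 2)
  rw [e2]
  calc (C : ℝ≥0∞) ^ 2 * (∫⁻ ζ, MF g ζ ^ 2 ∂sig 1) * ∫⁻ ζ, A ζ ∂sig 1 ≤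
        (C : ℝ≥0∞) ^ 2 * ((2 * K) ^ 2 * E) * (25 * K ^ 2 * E) := by gcongr
    _ = _ := by push_cast; ring

/-! ### The Littlewood-Paley inequality -/

lemma coeff_le_of_eval_le (P : ℂ[X]) {ε : ℝ} (h : ∀ z : ℂ, ‖z‖ = 1 → ‖P.eval z‖ ≤ ε) (k : ℕ) :
    ‖P.coeff k‖ ≤ ε := by
  have hε : 0 ≤ ε := (norm_nonneg _).trans (h 1 (by simp))
  have e : P.coeff k = ∫ ζ : Sph 1, conj (zc ζ) ^ k * P.eval (zc ζ) ∂sig 1 := by
    simp_rw [eval_eq_sum_range, Finset.mul_sum]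
    rw [integral_finsetSum]
    · have e1 : ∀ l, ∫ ζ : Sph 1, conj (zc ζ) ^ k * (P.coeff l * zc ζ ^ l) ∂sig 1 =
          if k = l then P.coeff l else 0 := by
        intro l
        have : ∀ ζ : Sph 1, conj (zc ζ) ^ k * (P.coeff l * zc ζ ^ l) =
          P.coeff l * (conj (zc ζ) ^ k * zc ζ ^ l) := fun ζ => by ring
        simp_rw [this, integral_const_mul, int_zc]
        simp
      simp_rw [e1]
      rw [Finset.sum_ite_eq]
      split_ifs with hk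
      · rfl
      · rw [Finset.mem_range, not_lt] at hk
        exact coeff_eq_zero_of_natDegree_lt (by omega)
    · intro l _
      apply integrable_cont
      have := Complex.continuous_conj
      have := continuous_zc
      fun_prop
  rw [e]
  have h1 := norm_integral_le_of_norm_le_const (μ := sig 1) (C := ε)
    (f := fun ζ : Sph 1 => conj (zc ζ) ^ k * P.eval (zc ζ)) (ae_of_all _ fun ζ => by
      rw [norm_mul, norm_pow, Complex.norm_conj, norm_zc, one_pow, one_mul]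
      exact h _ (norm_zc ζ))
  simpa using h1

lemma mp_AA_small (P : ℂ[X]) {ε : ℝ} (h : ∀ z : ℂ, ‖z‖ = 1 → ‖P.eval z‖ ≤ ε) (j : ℕ)
    (ζ : Sph 1) : ‖(mp (AA j) P).eval (zc ζ)‖ ≤ 4 * 2 ^ j * ε := by
  have hε : 0 ≤ ε := (norm_nonneg _).trans (h 1 (by simp))
  have e : (mp (AA j) P).eval (zc ζ) = ∑ k ∈ Finset.range (4 * 2 ^ j),
      (AA j k : ℂ) * P.coeff k * zc ζ ^ k := by
    have hlt : (mp (AA j) P).natDegree < 4 * 2 ^ j := by
      have h1 : (mp (AA j) P).natDegree ≤ 2 * 2 ^ j := by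
        rw [natDegree_le_iff_coeff_eq_zero]
        intro N hN
        rw [mp_coeff, AA_zero_of_le hN.le]; simp
      have h2 : 0 < 2 ^ j := by positivity
      omega
    rw [eval_eq_sum_range' hlt]
    exact Finset.sum_congr rfl fun k _ => by rw [mp_coeff]
  rw [e]
  refine (norm_sum_le _ _).trans ?_
  calc _ ≤ ∑ k ∈ Finset.range (4 * 2 ^ j), ε := by
        refine Finset.sum_le_sum fun k _ => ?_
        rw [norm_mul, norm_mul, norm_pow, norm_zc, one_pow, mul_one, Complex.norm_real,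
          Real.norm_eq_abs]
        have h1 := AA_abs_le j k
        have h2 := coeff_le_of_eval_le P h k
        calc _ ≤ 1 * ε := mul_le_mul h1 h2 (norm_nonneg _) zero_le_one
          _ = ε := one_mul _
    _ = _ := by simp

/-- finite square function -/
noncomputable def sqJ (J : ℕ) (F : ℕ → Sph 1 → ℝ≥0∞) (ζ : Sph 1) : ℝ≥0∞ :=
  (∑ j ∈ Finset.range J, F j ζ ^ 2) ^ (1 / 2 : ℝ)

lemma sqJ_le_sqf (J : ℕ) (F : ℕ → Sph 1 → ℝ≥0∞) (ζ : Sph 1) : sqJ J F ζ ≤ sqf F ζ := by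
  unfold sqJ sqf
  exact ENNReal.rpow_le_rpow (ENNReal.sum_le_tsum _) (by norm_num)

lemma sqJ_add_le (J : ℕ) (F G : ℕ → Sph 1 → ℝ≥0∞) (ζ : Sph 1) :
    sqJ J (fun j ζ => F j ζ + G j ζ) ζ ≤ sqJ J F ζ + sqJ J G ζ := by
  unfold sqJ
  have h := ENNReal.Lp_add_le (Finset.range J) (fun j => F j ζ) (fun j => G j ζ) (p := 2)
    (by norm_num)
  have e : ∀ a : ℝ≥0∞, a ^ (2 : ℝ) = a ^ 2 := fun a => by
    rw [← ENNReal.rpow_natCast]; norm_num
  simp_rw [e] at h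
  exact h

lemma sqJ_mono (J : ℕ) {F G : ℕ → Sph 1 → ℝ≥0∞} {ζ : Sph 1} (h : ∀ j < J, F j ζ ≤ G j ζ) :
    sqJ J F ζ ≤ sqJ J G ζ := by
  unfold sqJ
  refine ENNReal.rpow_le_rpow (Finset.sum_le_sum fun j hj => ?_) (by norm_num)
  exact pow_le_pow_left' (h j (Finset.mem_range.mp hj)) 2

lemma meas_sqJ (J : ℕ) {F : ℕ → Sph 1 → ℝ≥0∞} (h : ∀ j, Measurable (F j)) :
    Measurable (sqJ J F) := by
  unfold sqJ
  exact (Finset.measurable_sum _ fun j _ => (h j).pow_const 2).pow_const _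

lemma sqJ_const (J : ℕ) (a : ℝ≥0∞) (ζ : Sph 1) : sqJ J (fun _ _ => a) ζ ≤ (J + 1) * a := by
  unfold sqJ
  rw [Finset.sum_const, Finset.card_range, nsmul_eq_mul]
  have h1 : (J : ℝ≥0∞) * a ^ 2 ≤ ((J + 1) * a) ^ 2 := by
    rw [mul_pow]
    gcongr
    have : J ≤ (J + 1) ^ 2 := by nlinarith
    exact_mod_cast this
  calc _ ≤ (((J + 1) * a) ^ 2) ^ (1 / 2 : ℝ) := ENNReal.rpow_le_rpow h1 (by norm_num)
    _ = _ := by
      rw [← ENNReal.rpow_natCast, ← ENNReal.rpow_mul]; norm_num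

theorem LP_poly : ∃ C : ℝ≥0, ∀ (q : ℂ[X]) (J : ℕ),
    ∫⁻ ζ : Sph 1, sqJ J (fun j ζ => ‖(mp (AA j) q).eval (zc ζ)‖ₑ) ζ ∂sig 1 ≤
      C * ∫⁻ ζ : Sph 1, ‖q.eval (zc ζ)‖ₑ ∂sig 1 := by
  obtain ⟨C, hC⟩ := LP_sq
  refine ⟨2 * C, fun q J => ?_⟩
  -- the constant in front of the error
  set K : ℝ≥0 := 2 * C + (J + 1) * (4 * 2 ^ J) with hK
  have key : ∀ ε : ℝ≥0, 0 < ε →
      ∫⁻ ζ : Sph 1, sqJ J (fun j ζ => ‖(mp (AA j) q).eval (zc ζ)‖ₑ) ζ ∂sig 1 ≤
        ((2 * C : ℝ≥0) : ℝ≥0∞) * (∫⁻ ζ : Sph 1, ‖q.eval (zc ζ)‖ₑ ∂sig 1) + K * ε := by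
    intro ε hε
    obtain ⟨p₁, p₂, hp⟩ := exists_sq_diff q (ε := ε) (by exact_mod_cast hε)
    set e : ℂ[X] := q - (p₁ ^ 2 - p₂ ^ 2) with he
    have heval : ∀ z : ℂ, ‖z‖ = 1 → ‖e.eval z‖ ≤ ε := by
      intro z hz
      rw [he]
      simp only [eval_sub, eval_pow]
      exact (hp z hz).1
    have hpt : ∀ ζ : Sph 1, sqJ J (fun j ζ => ‖(mp (AA j) q).eval (zc ζ)‖ₑ) ζ ≤
        (sqJ J (fun j ζ => ‖(mp (AA j) (p₁ ^ 2)).eval (zc ζ)‖ₑ) ζ +
        sqJ J (fun j ζ => ‖(mp (AA j) (p₂ ^ 2)).eval (zc ζ)‖ₑ) ζ) +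
        ((J + 1) * (4 * 2 ^ J) : ℝ≥0) * ε := by
      intro ζ
      have h1 : sqJ J (fun j ζ => ‖(mp (AA j) q).eval (zc ζ)‖ₑ) ζ ≤
          sqJ J (fun j ζ => (‖(mp (AA j) (p₁ ^ 2)).eval (zc ζ)‖ₑ +
            ‖(mp (AA j) (p₂ ^ 2)).eval (zc ζ)‖ₑ) + ((4 * 2 ^ J : ℝ≥0) * ε : ℝ≥0∞)) ζ := by
        refine sqJ_mono J fun j hj => ?_
        have e1 : q = (p₁ ^ 2 - p₂ ^ 2) + e := by rw [he]; ring
        have e2 : (mp (AA j) q).eval (zc ζ) = (mp (AA j) (p₁ ^ 2)).eval (zc ζ) -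
            (mp (AA j) (p₂ ^ 2)).eval (zc ζ) + (mp (AA j) e).eval (zc ζ) := by
          conv_lhs => rw [e1, mp_add, mp_sub, eval_add, eval_sub]
        rw [e2]
        refine (enorm_add_le _ _).trans ?_
        refine add_le_add enorm_sub_le ?_
        have h2 := mp_AA_small e heval j ζ
        rw [← ofReal_norm]
        have h3 : (4 * 2 ^ j * ε : ℝ) ≤ 4 * 2 ^ J * ε := by
          have : (2 : ℝ) ^ j ≤ 2 ^ J := pow_le_pow_right₀ (by norm_num) hj.le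
          gcongr
        have h4 := ENNReal.ofReal_le_ofReal (h2.trans h3)
        refine h4.trans (le_of_eq ?_)
        rw [← ENNReal.coe_mul, ENNReal.ofReal, ENNReal.coe_inj]
        ext
        rw [Real.coe_toNNReal _ (by positivity)]
        push_cast; rfl
      refine h1.trans ?_
      refine (sqJ_add_le J _ _ ζ).trans ?_
      refine add_le_add (sqJ_add_le J _ _ ζ) ?_
      refine (sqJ_const J _ ζ).trans (le_of_eq ?_)
      push_cast; ring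
    have hm : ∀ p : ℂ[X], Measurable
        (sqJ J (fun j ζ => ‖(mp (AA j) p).eval (zc ζ)‖ₑ)) :=
      fun p => meas_sqJ J fun j => meas_ev _
    have hsq : ∀ p : ℂ[X], (∀ z : ℂ, ‖z‖ = 1 → ‖p.eval z‖ ^ 2 ≤ ‖q.eval z‖ + ε) →
        ∫⁻ ζ : Sph 1, sqJ J (fun j ζ => ‖(mp (AA j) (p ^ 2)).eval (zc ζ)‖ₑ) ζ ∂sig 1 ≤
        C * ((∫⁻ ζ : Sph 1, ‖q.eval (zc ζ)‖ₑ ∂sig 1) + ε) := by
      intro p hp'
      calc _ ≤ ∫⁻ ζ : Sph 1, sqf (fun j ζ => ‖(mp (AA j) (p ^ 2)).eval (zc ζ)‖ₑ) ζ ∂sig 1 :=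
            lintegral_mono fun ζ => sqJ_le_sqf J _ ζ
        _ ≤ C * ∫⁻ ζ : Sph 1, ‖p.eval (zc ζ)‖ₑ ^ 2 ∂sig 1 := hC p
        _ ≤ C * ∫⁻ ζ : Sph 1, (‖q.eval (zc ζ)‖ₑ + ε) ∂sig 1 := by
            gcongr with ζ
            have h1 := hp' (zc ζ) (norm_zc ζ)
            have h2 := ENNReal.ofReal_le_ofReal h1
            rw [ENNReal.ofReal_pow (norm_nonneg _), ofReal_norm,
              ENNReal.ofReal_add (norm_nonneg _) (by positivity), ofReal_norm,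
              ENNReal.ofReal_coe_nnreal] at h2
            exact h2
        _ = _ := by
            rw [lintegral_add_left (meas_ev q)]; simp
    calc _ ≤ ∫⁻ ζ : Sph 1, ((sqJ J (fun j ζ => ‖(mp (AA j) (p₁ ^ 2)).eval (zc ζ)‖ₑ) ζ +
        sqJ J (fun j ζ => ‖(mp (AA j) (p₂ ^ 2)).eval (zc ζ)‖ₑ) ζ) +
        ((J + 1) * (4 * 2 ^ J) : ℝ≥0) * ε) ∂sig 1 := lintegral_mono hpt
      _ = (∫⁻ ζ : Sph 1, sqJ J (fun j ζ => ‖(mp (AA j) (p₁ ^ 2)).eval (zc ζ)‖ₑ) ζ ∂sig 1 +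
        ∫⁻ ζ : Sph 1, sqJ J (fun j ζ => ‖(mp (AA j) (p₂ ^ 2)).eval (zc ζ)‖ₑ) ζ ∂sig 1) +
        ((J + 1) * (4 * 2 ^ J) : ℝ≥0) * ε := by
          rw [lintegral_add_left, lintegral_add_left (hm _)]
          · simp
          · exact (hm _).add (hm _)
      _ ≤ (C * ((∫⁻ ζ : Sph 1, ‖q.eval (zc ζ)‖ₑ ∂sig 1) + ε) +
          C * ((∫⁻ ζ : Sph 1, ‖q.eval (zc ζ)‖ₑ ∂sig 1) + ε)) +
          ((J + 1) * (4 * 2 ^ J) : ℝ≥0) * ε := by
          gcongr
          · exact hsq p₁ fun z hz => (hp z hz).2.1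
          · exact hsq p₂ fun z hz => (hp z hz).2.2
      _ = _ := by rw [hK]; push_cast; ring
  refine ENNReal.le_of_forall_pos_le_add fun ε hε _ => ?_
  have h1 := key (ε / (K + 1)) (div_pos hε (by positivity))
  refine h1.trans ?_
  gcongr
  have h2 : K * (ε / (K + 1)) ≤ ε := by
    rw [← mul_div_assoc]
    apply div_le_of_le_mul₀ (by positivity) (by positivity)
    rw [mul_comm]
    gcongr
    exact le_self_add
  exact_mod_cast h2

end LPC

open MeasureTheory Set Filter Topology Polynomial LPC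
open scoped InnerProductSpace ENNReal NNReal ComplexConjugate ContDiff

/-- The Littlewood-Paley inequality for analytic polynomials on the circle. -/
theorem LP1D : ∃ C : ℝ≥0, ∀ (M : ℕ) (c : ℕ → ℂ),
    ∫⁻ ζ : Sph 1, sqf (fun (j : ℕ) (ζ : Sph 1) =>
        ‖∑ k ∈ Finset.range M, (AA j k : ℂ) * c k * (ζ : V 1) 0 ^ k‖ₑ) ζ ∂sig 1 ≤
      C * ∫⁻ ζ : Sph 1, ‖∑ k ∈ Finset.range M, c k * (ζ : V 1) 0 ^ k‖ₑ ∂sig 1 := by
  obtain ⟨C, hC⟩ := LP_poly
  refine ⟨C, fun M c => ?_⟩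
  set q : ℂ[X] := ∑ k ∈ Finset.range M, Polynomial.monomial k (c k) with hq
  have hcoeff : ∀ k, q.coeff k = if k < M then c k else 0 := by
    intro k
    rw [hq, finsetSum_coeff]
    simp only [coeff_monomial]
    rw [Finset.sum_ite_eq' (Finset.range M) k]
    simp
  have h1 : ∀ ζ : Sph 1, ∑ k ∈ Finset.range M, c k * (ζ : V 1) 0 ^ k = q.eval (zc ζ) := by
    intro ζ
    rw [hq, eval_finsetSum]
    exact Finset.sum_congr rfl fun k _ => by rw [eval_monomial]; rfl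
  have h2 : ∀ (j : ℕ) (ζ : Sph 1), ∑ k ∈ Finset.range M, (AA j k : ℂ) * c k * (ζ : V 1) 0 ^ k =
      (mp (AA j) q).eval (zc ζ) := by
    intro j ζ
    have e : mp (AA j) q = ∑ k ∈ Finset.range M, Polynomial.monomial k ((AA j k : ℂ) * c k) := by
      ext k
      rw [mp_coeff, hcoeff, finsetSum_coeff]
      simp only [coeff_monomial]
      rw [Finset.sum_ite_eq' (Finset.range M) k]
      simp only [Finset.mem_range]
      split_ifs <;> simp
    rw [e, eval_finsetSum]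
    exact Finset.sum_congr rfl fun k _ => by rw [eval_monomial]; rfl
  simp_rw [h1, h2]
  -- only finitely many pieces
  have h3 : ∀ ζ : Sph 1, sqf (fun (j : ℕ) (ζ : Sph 1) => ‖(mp (AA j) q).eval (zc ζ)‖ₑ) ζ =
      sqJ (2 * M + 1) (fun (j : ℕ) (ζ : Sph 1) => ‖(mp (AA j) q).eval (zc ζ)‖ₑ) ζ := by
    intro ζ
    unfold sqf sqJ
    congr 1
    refine tsum_eq_sum fun j hj => ?_
    rw [Finset.mem_range, not_lt] at hj
    have : mp (AA j) q = 0 := by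
      ext k
      rw [mp_coeff, hcoeff]
      split_ifs with hk
      · rw [AA_zero_of_ge (by omega)]
        · simp
        · have : j < 2 ^ j := Nat.lt_two_pow_self
          omega
      · simp
    simp [this]
  simp_rw [h3]
  exact hC q _

end Pool.Agent.MP28b1a7
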