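import Pool.Agent.Lib.MP_28b1a7_an.Meas4

/-!
Measure of nonisotropic balls.
-/

namespace Pool.Agent.MP28b1a7

open MeasureTheory Set Filter Topology
open scoped InnerProductSpace ENNReal NNReal ComplexConjugate

variable {n : ℕ} [NeZero n]

omit [NeZero n] in
lemma measurableSet_ball (x : Sph n) (t : ℝ) : MeasurableSet {y : Sph n | dd (x : V n) y ≤ t} := by
  have h : Continuous fun y : Sph n => dd (x : V n) y := by
    unfold dd; fun_prop
  exact (isClosed_le h continuous_const).measurableSet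

lemma ball_upper_aux (x : Sph n) {t : ℝ} (ht : 0 < t) (ht1 : t ≤ 1) :
    sig n {y : Sph n | dd (x : V n) y ≤ t} ≤ ENNReal.ofReal (4 ^ n * t ^ n) := by
  have h0 : 0 ≤ 1 - t := by linarith
  have h1 : 1 - t < 1 := by linarith
  have hpt : ∀ y ∈ {y : Sph n | dd (x : V n) y ≤ t}, (1 : ℝ≥0∞) ≤ ENNReal.ofReal ((2 * t) ^ (2 * n)) *
      ENNReal.ofReal (1 / ‖1 - ((1 - t : ℝ) : ℂ) * ⟪(x : V n), (y : V n)⟫_ℂ‖ ^ (2 * n)) := by
    intro y hy
    have hy' : dd (x : V n) y ≤ t := hy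
    have h2 := norm_one_sub_le h1.le x y
    have h3 := le_norm_one_sub h0 x y
    have h5 : 0 < ‖1 - ((1 - t : ℝ) : ℂ) * ⟪(x : V n), (y : V n)⟫_ℂ‖ := by linarith
    rw [← ENNReal.ofReal_mul (by positivity)]
    refine ENNReal.one_le_ofReal.2 ?_
    rw [mul_one_div, one_le_div (by positivity)]
    exact pow_le_pow_left₀ h5.le (by linarith) _
  calc sig n {y : Sph n | dd (x : V n) y ≤ t} = ∫⁻ y in {y : Sph n | dd (x : V n) y ≤ t}, 1 ∂sig n := by
        simp
    _ ≤ ∫⁻ y in {y : Sph n | dd (x : V n) y ≤ t}, ENNReal.ofReal ((2 * t) ^ (2 * n)) *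
      ENNReal.ofReal (1 / ‖1 - ((1 - t : ℝ) : ℂ) * ⟪(x : V n), (y : V n)⟫_ℂ‖ ^ (2 * n)) ∂sig n :=
        setLIntegral_mono' (measurableSet_ball x t) hpt
    _ ≤ ∫⁻ y, ENNReal.ofReal ((2 * t) ^ (2 * n)) *
      ENNReal.ofReal (1 / ‖1 - ((1 - t : ℝ) : ℂ) * ⟪(x : V n), (y : V n)⟫_ℂ‖ ^ (2 * n)) ∂sig n :=
        setLIntegral_le_lintegral _ _
    _ = ENNReal.ofReal ((2 * t) ^ (2 * n)) * ENNReal.ofReal (1 / (1 - (1 - t) ^ 2) ^ n) := by
        rw [lintegral_const_mul' _ _ ENNReal.ofReal_ne_top, pois_lint x h0 h1]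
    _ ≤ ENNReal.ofReal (4 ^ n * t ^ n) := by
        rw [← ENNReal.ofReal_mul (by positivity)]
        refine ENNReal.ofReal_le_ofReal ?_
        have h6 : t ≤ 1 - (1 - t) ^ 2 := by nlinarith
        have h7 : t ^ n ≤ (1 - (1 - t) ^ 2) ^ n := pow_le_pow_left₀ ht.le h6 n
        have h8 : 0 < t ^ n := by positivity
        rw [mul_one_div, div_le_iff₀ (by linarith)]
        calc (2 * t) ^ (2 * n) = 4 ^ n * t ^ n * t ^ n := by
              rw [pow_mul, ← mul_pow, ← mul_pow]; ring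
          _ ≤ 4 ^ n * t ^ n * (1 - (1 - t) ^ 2) ^ n := by gcongr

theorem ball_upper (x : Sph n) {t : ℝ} (ht : 0 ≤ t) :
    sig n {y : Sph n | dd (x : V n) y ≤ t} ≤ ENNReal.ofReal (4 ^ n * t ^ n) := by
  rcases le_or_gt t 1 with h1 | h1
  · rcases eq_or_lt_of_le ht with h0 | h0
    · -- t = 0
      subst h0
      have hn : n ≠ 0 := NeZero.ne n
      have hlim : Tendsto (fun s : ℝ => ENNReal.ofReal (4 ^ n * s ^ n)) (𝓝[>] 0)
          (𝓝 (ENNReal.ofReal (4 ^ n * 0 ^ n))) := by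
        have hc : Continuous fun s : ℝ => ENNReal.ofReal (4 ^ n * s ^ n) :=
          ENNReal.continuous_ofReal.comp (by fun_prop)
        exact (hc.tendsto 0).mono_left nhdsWithin_le_nhds
      refine ge_of_tendsto hlim ?_
      filter_upwards [Ioc_mem_nhdsGT (zero_lt_one' ℝ)] with s hs
      refine (measure_mono ?_).trans (ball_upper_aux x hs.1 hs.2)
      intro y hy
      exact le_trans hy hs.1.le
    · exact ball_upper_aux x h0 h1
  · calc sig n {y : Sph n | dd (x : V n) y ≤ t} ≤ 1 := prob_le_one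
      _ ≤ ENNReal.ofReal (4 ^ n * t ^ n) := by
        refine ENNReal.one_le_ofReal.2 ?_
        rw [← mul_pow]
        exact one_le_pow₀ (by linarith)

theorem ball_lower (n : ℕ) [NeZero n] : ∃ c : ℝ, 0 < c ∧ ∀ (x : Sph n) (t : ℝ), 0 < t → t ≤ 2 →
    ENNReal.ofReal (c * t ^ n) ≤ sig n {y : Sph n | dd (x : V n) y ≤ t} := by
  have hn : 1 ≤ n := NeZero.one_le
  refine ⟨(1 / 2) * (1 / 512) ^ n, by positivity, fun x t ht ht2 => ?_⟩
  set s : ℝ := t / 256 with hs
  have hs0 : 0 < s := by positivity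
  have hs1 : s ≤ 1 := by rw [hs]; linarith
  have hts : t = 256 * s := by rw [hs]; ring
  have h0 : 0 ≤ 1 - s := by linarith
  have h1 : 1 - s < 1 := by linarith
  set F : Sph n → ℝ := fun y => 1 / ‖1 - ((1 - s : ℝ) : ℂ) * ⟪(x : V n), (y : V n)⟫_ℂ‖ ^ (2 * n) with hF
  have hpos : ∀ y : Sph n, 0 < ‖1 - ((1 - s : ℝ) : ℂ) * ⟪(x : V n), (y : V n)⟫_ℂ‖ := fun y => by
    have h3 := le_norm_one_sub h0 x y
    linarith
  have hF0 : ∀ y, 0 ≤ F y := fun y => by simp only [hF]; positivity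
  -- total mass
  have htot : ∫⁻ y, ENNReal.ofReal (F y) ∂sig n = ENNReal.ofReal (1 / (1 - (1 - s) ^ 2) ^ n) :=
    pois_lint x h0 h1
  have h2s : 1 - (1 - s) ^ 2 ≤ 2 * s := by nlinarith
  have h2s0 : 0 < 1 - (1 - s) ^ 2 := by nlinarith
  have htot2 : ENNReal.ofReal (1 / (2 * s) ^ n) ≤ ∫⁻ y, ENNReal.ofReal (F y) ∂sig n := by
    rw [htot]
    refine ENNReal.ofReal_le_ofReal ?_
    exact one_div_le_one_div_of_le (by positivity) (pow_le_pow_left₀ h2s0.le h2s n)
  -- tail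
  set E : Set (Sph n) := {y : Sph n | dd (x : V n) y ≤ t} with hE
  have hEm : MeasurableSet E := measurableSet_ball x t
  have hshell : ∀ y ∈ Eᶜ, ENNReal.ofReal (F y) ≤ ∑' l : ℕ,
      ENNReal.ofReal (4 ^ n / (2 ^ l * t) ^ (2 * n)) *
        {y : Sph n | dd (x : V n) y ≤ 2 ^ (l + 1) * t}.indicator 1 y := by
    intro y hy
    have hy1 : t < dd (x : V n) y := by
      have : ¬ (dd (x : V n) y ≤ t) := hy
      linarith
    have hd0 : 0 < dd (x : V n) y := by linarith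
    obtain ⟨l, hl1, hl2⟩ : ∃ l : ℕ, 2 ^ l * t ≤ dd (x : V n) y ∧ dd (x : V n) y ≤ 2 ^ (l + 1) * t := by
      obtain ⟨l, hl1, hl2⟩ := exists_nat_pow_near (x := dd (x : V n) y / t) (y := (2 : ℝ))
        (by rw [one_le_div ht]; exact hy1.le) one_lt_two
      refine ⟨l, ?_, ?_⟩
      · rwa [le_div_iff₀ ht] at hl1
      · rw [div_lt_iff₀ ht] at hl2; exact hl2.le
    refine le_trans ?_ (ENNReal.le_tsum l)
    rw [indicator_of_mem (by exact hl2), Pi.one_apply, mul_one]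
    refine ENNReal.ofReal_le_ofReal ?_
    simp only [hF]
    have h4 := dd_le_norm_one_sub h0 h1.le x y
    rw [div_le_div_iff₀ (by have := hpos y; positivity) (by positivity), one_mul]
    calc (2 ^ l * t) ^ (2 * n) ≤ (2 * ‖1 - ((1 - s : ℝ) : ℂ) * ⟪(x : V n), (y : V n)⟫_ℂ‖) ^ (2 * n) :=
          pow_le_pow_left₀ (by positivity) (hl1.trans h4) _
      _ = 4 ^ n * ‖1 - ((1 - s : ℝ) : ℂ) * ⟪(x : V n), (y : V n)⟫_ℂ‖ ^ (2 * n) := by
          rw [mul_pow, pow_mul 2 2 n]; norm_num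
  have htail : ∫⁻ y in Eᶜ, ENNReal.ofReal (F y) ∂sig n ≤ ENNReal.ofReal ((1 / 2) * (1 / (2 * s) ^ n)) := by
    calc ∫⁻ y in Eᶜ, ENNReal.ofReal (F y) ∂sig n
        ≤ ∫⁻ y in Eᶜ, ∑' l : ℕ, ENNReal.ofReal (4 ^ n / (2 ^ l * t) ^ (2 * n)) *
        {y : Sph n | dd (x : V n) y ≤ 2 ^ (l + 1) * t}.indicator 1 y ∂sig n :=
          setLIntegral_mono' hEm.compl hshell
      _ ≤ ∫⁻ y, ∑' l : ℕ, ENNReal.ofReal (4 ^ n / (2 ^ l * t) ^ (2 * n)) *
        {y : Sph n | dd (x : V n) y ≤ 2 ^ (l + 1) * t}.indicator 1 y ∂sig n :=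
          setLIntegral_le_lintegral _ _
      _ = ∑' l : ℕ, ENNReal.ofReal (4 ^ n / (2 ^ l * t) ^ (2 * n)) *
          sig n {y : Sph n | dd (x : V n) y ≤ 2 ^ (l + 1) * t} := by
          rw [lintegral_tsum]
          · congr 1; funext l
            rw [lintegral_const_mul' _ _ ENNReal.ofReal_ne_top,
              lintegral_indicator_one (measurableSet_ball x _)]
          · intro l
            exact ((measurable_const.indicator (measurableSet_ball x _)).const_mul _).aemeasurable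
      _ ≤ ∑' l : ℕ, ENNReal.ofReal (4 ^ n / (2 ^ l * t) ^ (2 * n)) *
          ENNReal.ofReal (4 ^ n * (2 ^ (l + 1) * t) ^ n) := by
          gcongr with l
          exact ball_upper x (by positivity)
      _ ≤ ∑' l : ℕ, ENNReal.ofReal ((1 / 4 * (1 / (2 * s) ^ n)) * (1 / 2) ^ l) := by
          gcongr with l
          rw [← ENNReal.ofReal_mul (by positivity)]
          refine ENNReal.ofReal_le_ofReal ?_
          have e1 : (4 ^ n / (2 ^ l * t) ^ (2 * n) * (4 ^ n * (2 ^ (l + 1) * t) ^ n) : ℝ) =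
              (1 / 4) ^ n * (1 / (2 * s) ^ n) * ((1 / 2) ^ l) ^ n := by
            have eL : (4 ^ n / (2 ^ l * t) ^ (2 * n) * (4 ^ n * (2 ^ (l + 1) * t) ^ n) : ℝ) =
                (4 / (2 ^ l * t) ^ 2 * (4 * (2 ^ (l + 1) * t))) ^ n := by
              have gen : ∀ A B : ℝ, 4 ^ n / A ^ (2 * n) * (4 ^ n * B ^ n) = (4 / A ^ 2 * (4 * B)) ^ n := by
                intro A B
                rw [mul_pow (4 / A ^ 2), div_pow, mul_pow 4 B, ← pow_mul]
              exact gen _ _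
            have eR : ((1 / 4) ^ n * (1 / (2 * s) ^ n) * ((1 / 2) ^ l) ^ n : ℝ) =
                (1 / 4 * (1 / (2 * s)) * (1 / 2) ^ l) ^ n := by
              rw [mul_pow (1 / 4 * (1 / (2 * s))), mul_pow (1 / 4), one_div_pow (2 * s)]
            have eM : (4 / (2 ^ l * t) ^ 2 * (4 * (2 ^ (l + 1) * t)) : ℝ) =
                1 / 4 * (1 / (2 * s)) * (1 / 2) ^ l := by
              rw [hts, one_div_pow]
              field_simp
              ring
            rw [eL, eR, eM]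
          rw [e1]
          have e2 : ((1 : ℝ) / 4) ^ n ≤ 1 / 4 := by
            calc ((1 : ℝ) / 4) ^ n ≤ (1 / 4) ^ 1 := pow_le_pow_of_le_one (by norm_num) (by norm_num) hn
              _ = 1 / 4 := by norm_num
          have e3 : (((1 : ℝ) / 2) ^ l) ^ n ≤ (1 / 2) ^ l := by
            calc (((1 : ℝ) / 2) ^ l) ^ n ≤ ((1 / 2) ^ l) ^ 1 :=
                  pow_le_pow_of_le_one (by positivity) (pow_le_one₀ (by norm_num) (by norm_num)) hn
              _ = (1 / 2) ^ l := by ring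
          gcongr
      _ = ENNReal.ofReal ((1 / 2) * (1 / (2 * s) ^ n)) := by
          have h5 : HasSum (fun l : ℕ => (1 / 4 * (1 / (2 * s) ^ n)) * ((1 : ℝ) / 2) ^ l)
              ((1 / 4 * (1 / (2 * s) ^ n)) * 2) := hasSum_geometric_two.mul_left _
          rw [← ENNReal.ofReal_tsum_of_nonneg (fun l => by positivity) h5.summable, h5.tsum_eq]
          congr 1; ring
  -- main part
  have hmain : ∫⁻ y in E, ENNReal.ofReal (F y) ∂sig n ≤ ENNReal.ofReal (1 / s ^ (2 * n)) * sig n E := by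
    calc ∫⁻ y in E, ENNReal.ofReal (F y) ∂sig n ≤ ∫⁻ _ in E, ENNReal.ofReal (1 / s ^ (2 * n)) ∂sig n := by
          refine lintegral_mono fun y => ENNReal.ofReal_le_ofReal ?_
          simp only [hF]
          refine one_div_le_one_div_of_le (by positivity) (pow_le_pow_left₀ hs0.le ?_ _)
          have h3 := le_norm_one_sub h0 x y
          linarith
      _ = ENNReal.ofReal (1 / s ^ (2 * n)) * sig n E := by simp
  have hsplit := lintegral_add_compl (μ := sig n) (fun y => ENNReal.ofReal (F y)) hEm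
  have h6 : ENNReal.ofReal (1 / (2 * s) ^ n) ≤
      ENNReal.ofReal (1 / s ^ (2 * n)) * sig n E + ENNReal.ofReal ((1 / 2) * (1 / (2 * s) ^ n)) := by
    calc ENNReal.ofReal (1 / (2 * s) ^ n) ≤ ∫⁻ y, ENNReal.ofReal (F y) ∂sig n := htot2
      _ = _ := hsplit.symm
      _ ≤ _ := add_le_add hmain htail
  have h7 : sig n E ≠ ∞ := measure_ne_top _ _
  rw [← ENNReal.ofReal_toReal h7, ← ENNReal.ofReal_mul (by positivity),
    ← ENNReal.ofReal_add (by positivity) (by positivity)] at h6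
  have h8 := (ENNReal.ofReal_le_ofReal_iff (by positivity)).1 h6
  rw [← ENNReal.ofReal_toReal h7]
  refine ENNReal.ofReal_le_ofReal ?_
  have h9 : (1 / 2) * (1 / (2 * s) ^ n) ≤ 1 / s ^ (2 * n) * (sig n E).toReal := by linarith
  have h10 : (1 / 2) * (1 / (2 * s) ^ n) * s ^ (2 * n) ≤ (sig n E).toReal := by
    have := mul_le_mul_of_nonneg_right h9 (by positivity : (0 : ℝ) ≤ s ^ (2 * n))
    calc _ ≤ _ := this
      _ = (sig n E).toReal := by field_simp
  refine le_trans (le_of_eq ?_) h10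
  have e4 : (1 / 512 : ℝ) ^ n * t ^ n = (s / 2) ^ n := by
    rw [← mul_pow, hts]; congr 1; ring
  have e5 : 1 / (2 * s) ^ n * s ^ (2 * n) = (s / 2) ^ n := by
    rw [pow_mul, ← one_div_pow, ← mul_pow]
    congr 1
    field_simp
  rw [mul_assoc, e4, mul_assoc, e5]

end Pool.Agent.MP28b1a7
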