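import Pool.Agent.Lib.MP_28b1a7_an.Defs

/-!
The measure `sig n` on the sphere: probability measure, unitary invariance.
-/

namespace Pool.Agent.MP28b1a7

open MeasureTheory Set Filter Topology
open scoped InnerProductSpace ENNReal NNReal

variable {n : ℕ} [NeZero n]

omit [NeZero n] in
lemma isOpen_ballB : IsOpen (ballB n) := by
  unfold ballB
  exact isOpen_lt (by fun_prop) continuous_const

omit [NeZero n] in
lemma ballB_subset : ballB n ⊆ Metric.closedBall 0 1 := by
  intro z hz
  rw [mem_closedBall_zero_iff, pi_norm_le_iff_of_nonneg zero_le_one]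
  intro i
  have h1 : ‖z i‖ ^ 2 ≤ ∑ i, ‖z i‖ ^ 2 :=
    Finset.single_le_sum (f := fun i => ‖z i‖ ^ 2) (fun _ _ => by positivity) (Finset.mem_univ i)
  have h2 : ∑ i, ‖z i‖ ^ 2 < 1 := hz
  have h3 := norm_nonneg (z i)
  nlinarith

omit [NeZero n] in
lemma vol_ballB_ne_top : volume (ballB n) ≠ ∞ :=
  ((measure_mono ballB_subset).trans_lt
    (Metric.isBounded_closedBall.measure_lt_top)).ne

omit [NeZero n] in
lemma vol_ballB_ne_zero : volume (ballB n) ≠ 0 :=
  (isOpen_ballB.measure_pos volume ⟨0, by simp [ballB]⟩).ne'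

lemma coe_toS (x : Fin n → ℂ) : (toS n x : V n) =
    if x = 0 then (e0 n : V n) else
      ((‖(WithLp.toLp 2 x : V n)‖⁻¹ : ℝ) : ℂ) • (WithLp.toLp 2 x : V n) := by
  unfold toS
  by_cases h : x = 0
  · simp [h]
  · simp [h]

theorem measurable_toS : Measurable (toS n) := by
  have h : Measurable (fun x => (toS n x : V n)) := by
    simp_rw [coe_toS]
    refine Measurable.ite (measurableSet_eq_fun measurable_id measurable_const) measurable_const ?_
    have h1 : Measurable (fun x : Fin n → ℂ => (WithLp.toLp 2 x : V n)) :=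
      (PiLp.continuous_toLp 2 _).measurable
    have h2 : Measurable (fun x : Fin n → ℂ => (((‖(WithLp.toLp 2 x : V n)‖⁻¹ : ℝ) : ℂ))) :=
      Complex.measurable_ofReal.comp h1.norm.inv
    exact h2.smul h1
  exact Measurable.subtype_mk h

instance : IsProbabilityMeasure (sig n) := by
  constructor
  unfold sig
  rw [Measure.smul_apply, Measure.map_apply measurable_toS MeasurableSet.univ, preimage_univ,
    Measure.restrict_apply_univ, smul_eq_mul,
    ENNReal.inv_mul_cancel vol_ballB_ne_zero vol_ballB_ne_top]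

theorem integral_sig {g : Sph n → ℂ} (hg : Measurable g) :
    ∫ ζ, g ζ ∂sig n = (volume (ballB n)).toReal⁻¹ • ∫ x in ballB n, g (toS n x) := by
  unfold sig
  rw [integral_smul_measure, ENNReal.toReal_inv, integral_map measurable_toS.aemeasurable
    hg.aestronglyMeasurable]

/-- the linear map on `Fin n → ℂ` given by a unitary. -/
noncomputable def ulin (U : V n ≃ₗᵢ[ℂ] V n) : (Fin n → ℂ) →ₗ[ℝ] (Fin n → ℂ) where
  toFun x := WithLp.ofLp (U (WithLp.toLp 2 x))
  map_add' x y := by simp
  map_smul' c x := by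
    have : (WithLp.toLp 2 (c • x) : V n) = (c : ℂ) • (WithLp.toLp 2 x : V n) := by
      ext i; simp
    rw [this, map_smul]
    ext i; simp

omit [NeZero n] in
lemma ulin_apply (U : V n ≃ₗᵢ[ℂ] V n) (x : Fin n → ℂ) :
    ulin U x = WithLp.ofLp (U (WithLp.toLp 2 x)) := rfl

omit [NeZero n] in
lemma mem_ballB (x : Fin n → ℂ) : x ∈ ballB n ↔ ‖(WithLp.toLp 2 x : V n)‖ < 1 := by
  rw [EuclideanSpace.norm_eq, Real.sqrt_lt' one_pos]
  simp [ballB]

omit [NeZero n] in
lemma ulin_mem (U : V n ≃ₗᵢ[ℂ] V n) (x : Fin n → ℂ) : ulin U x ∈ ballB n ↔ x ∈ ballB n := by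
  rw [mem_ballB, mem_ballB, ulin_apply]
  simp

omit [NeZero n] in
lemma ulin_comp (U : V n ≃ₗᵢ[ℂ] V n) : (ulin U) ∘ₗ (ulin U.symm) = LinearMap.id := by
  refine LinearMap.ext fun x => ?_
  simp [ulin_apply]

omit [NeZero n] in
lemma ulin_det (U : V n ≃ₗᵢ[ℂ] V n) : LinearMap.det (ulin U) ≠ 0 := by
  intro h
  have h1 := congrArg LinearMap.det (ulin_comp U)
  rw [LinearMap.det_comp, h, zero_mul, LinearMap.det_id] at h1
  exact zero_ne_one h1

omit [NeZero n] in
lemma continuous_ulin (U : V n ≃ₗᵢ[ℂ] V n) : Continuous (ulin U) :=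
  LinearMap.continuous_of_finiteDimensional _

omit [NeZero n] in
lemma map_ulin_restrict (U : V n ≃ₗᵢ[ℂ] V n) :
    (volume.restrict (ballB n)).map (ulin U) = volume.restrict (ballB n) := by
  have h1 := Measure.map_linearMap_addHaar_eq_smul_addHaar (μ := (volume : Measure (Fin n → ℂ)))
    (ulin_det U)
  set c := ENNReal.ofReal |(LinearMap.det (ulin U))⁻¹| with hc
  have hpre : (ulin U) ⁻¹' (ballB n) = ballB n := by
    ext x; exact ulin_mem U x
  have h2 : c = 1 := by
    have h3 := congrArg (fun m => m (ballB n)) h1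
    simp only [Measure.smul_apply, smul_eq_mul] at h3
    rw [Measure.map_apply (continuous_ulin U).measurable isOpen_ballB.measurableSet, hpre] at h3
    have h4 : 1 * volume (ballB n) = c * volume (ballB n) := by rw [one_mul]; exact h3
    exact ((ENNReal.mul_left_inj vol_ballB_ne_zero vol_ballB_ne_top).1 h4).symm
  rw [h2, one_smul] at h1
  calc (volume.restrict (ballB n)).map (ulin U)
      = (volume.restrict ((ulin U) ⁻¹' (ballB n))).map (ulin U) := by rw [hpre]
    _ = (volume.map (ulin U)).restrict (ballB n) :=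
        (Measure.restrict_map (continuous_ulin U).measurable isOpen_ballB.measurableSet).symm
    _ = volume.restrict (ballB n) := by rw [h1]

omit [NeZero n] in
lemma continuous_uact (U : V n ≃ₗᵢ[ℂ] V n) : Continuous (uact U) := by
  unfold uact
  fun_prop

lemma toS_ulin (U : V n ≃ₗᵢ[ℂ] V n) {x : Fin n → ℂ} (hx : x ≠ 0) :
    toS n (ulin U x) = uact U (toS n x) := by
  have h1 : ulin U x ≠ 0 := by
    intro h
    have h2 : (U (WithLp.toLp 2 x) : V n) = 0 := by
      apply (WithLp.ofLp_injective 2)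
      exact h
    rw [map_eq_zero_iff U U.injective] at h2
    apply hx
    have := congrArg WithLp.ofLp h2
    simpa using this
  apply Subtype.ext
  rw [coe_toS, if_neg h1]
  unfold uact
  simp only
  rw [coe_toS, if_neg hx, map_smul, ulin_apply]
  simp

theorem sig_map (U : V n ≃ₗᵢ[ℂ] V n) : MeasurePreserving (uact U) (sig n) (sig n) := by
  refine ⟨(continuous_uact U).measurable, ?_⟩
  unfold sig
  rw [Measure.map_smul, Measure.map_map (continuous_uact U).measurable measurable_toS]
  congr 1
  have h1 : (uact U ∘ toS n) =ᵐ[volume.restrict (ballB n)] (toS n ∘ ulin U) := by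
    have h2 : ∀ᵐ x ∂(volume.restrict (ballB n)), x ≠ (0 : Fin n → ℂ) := by
      apply ae_restrict_of_ae
      rw [ae_iff]
      simp
    filter_upwards [h2] with x hx
    exact (toS_ulin U hx).symm
  rw [Measure.map_congr h1, ← Measure.map_map measurable_toS (continuous_ulin U).measurable,
    map_ulin_restrict]

end Pool.Agent.MP28b1a7
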