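import Pool.Agent.Lib.MP_28b1a7_an.Meas1

/-!
The mean value property on complex lines.
-/

namespace Pool.Agent.MP28b1a7

open MeasureTheory Set Filter Topology
open scoped InnerProductSpace ENNReal NNReal

variable {n : ℕ}

/-- rotation of the orthogonal complement of `v` -/
noncomputable def rotLin (v : V n) (c : ℂ) : V n →ₗ[ℂ] V n where
  toFun x := ⟪v, x⟫_ℂ • v + c • (x - ⟪v, x⟫_ℂ • v)
  map_add' x y := by rw [inner_add_right]; module
  map_smul' a x := by rw [inner_smul_right]; simp only [RingHom.id_apply]; module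

lemma rotLin_apply (v : V n) (c : ℂ) (x : V n) :
    rotLin v c x = ⟪v, x⟫_ℂ • v + c • (x - ⟪v, x⟫_ℂ • v) := rfl

lemma norm_sq_rotLin (v : Sph n) (c : ℂ) (x : V n) :
    ‖rotLin (v : V n) c x‖ ^ 2 =
      ‖⟪(v : V n), x⟫_ℂ‖ ^ 2 + ‖c‖ ^ 2 * ‖x - ⟪(v : V n), x⟫_ℂ • (v : V n)‖ ^ 2 := by
  rw [rotLin_apply]
  have h : ⟪⟪(v : V n), x⟫_ℂ • (v : V n), c • (x - ⟪(v : V n), x⟫_ℂ • (v : V n))⟫_ℂ = 0 := by
    rw [inner_smul_left, inner_smul_right, inner_sub_right, inner_smul_right,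
      inner_self_eq_norm_sq_to_K, sph_norm]
    simp
  have h2 := norm_add_sq_eq_norm_sq_add_norm_sq_of_inner_eq_zero _ _ h
  have h3 : ‖⟪(v : V n), x⟫_ℂ • (v : V n)‖ = ‖⟪(v : V n), x⟫_ℂ‖ := by
    rw [norm_smul, sph_norm, mul_one]
  rw [h3, norm_smul c] at h2
  nlinarith [h2]

lemma norm_sq_decomp (v : Sph n) (x : V n) :
    ‖⟪(v : V n), x⟫_ℂ‖ ^ 2 + ‖x - ⟪(v : V n), x⟫_ℂ • (v : V n)‖ ^ 2 = ‖x‖ ^ 2 := by
  rw [norm_sq_sub_comp _ _ (sph_norm v)]; ring

lemma norm_rotLin (v : Sph n) {c : ℂ} (hc : ‖c‖ = 1) (x : V n) : ‖rotLin (v : V n) c x‖ = ‖x‖ := by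
  have h := norm_sq_rotLin v c x
  rw [hc, one_pow, one_mul, norm_sq_decomp] at h
  exact (sq_eq_sq₀ (norm_nonneg _) (norm_nonneg _)).1 h

lemma inner_rotLin (v : Sph n) (c : ℂ) (x : V n) :
    ⟪(v : V n), rotLin (v : V n) c x⟫_ℂ = ⟪(v : V n), x⟫_ℂ := by
  rw [rotLin_apply, inner_add_right, inner_smul_right, inner_smul_right, inner_sub_right,
    inner_smul_right, inner_self_eq_norm_sq_to_K, sph_norm]
  simp

/-- rotation as a unitary -/
noncomputable def rotU (v : Sph n) (c : ℂ) (hc : ‖c‖ = 1) : V n ≃ₗᵢ[ℂ] V n :=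
  (LinearIsometry.mk (rotLin (v : V n) c) (norm_rotLin v hc)).toLinearIsometryEquiv rfl

lemma coe_uact_rotU (v : Sph n) (c : ℂ) (hc : ‖c‖ = 1) (x : Sph n) :
    ((uact (rotU v c hc) x : Sph n) : V n) = rotLin (v : V n) c x := rfl

lemma rotLin_mem_ball (v ζ : Sph n) {R : ℝ} (hR : 1 < R) {c : ℂ} (hc : c ∈ Metric.ball (0 : ℂ) R) :
    rotLin (v : V n) c ζ ∈ Metric.ball (0 : V n) R := by
  rw [mem_ball_zero_iff] at hc ⊢
  have h := norm_sq_rotLin v c ζ
  have h2 := norm_sq_decomp v (ζ : V n)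
  rw [sph_norm] at h2
  have h0 := norm_nonneg c
  have h3 : ‖c‖ ^ 2 < R ^ 2 := by nlinarith
  have h4 : (1 : ℝ) < R ^ 2 := by nlinarith
  have h5 := sq_nonneg ‖⟪(v : V n), (ζ : V n)⟫_ℂ‖
  have h6 := sq_nonneg ‖(ζ : V n) - ⟪(v : V n), (ζ : V n)⟫_ℂ • (v : V n)‖
  have h7 : ‖rotLin (v : V n) c ζ‖ ^ 2 < R ^ 2 := by
    rw [h]
    rcases eq_or_lt_of_le h5 with h8 | h8
    · nlinarith
    · nlinarith [mul_nonneg h6 (sub_nonneg.2 h3.le)]
  exact lt_of_pow_lt_pow_left₀ 2 (by linarith) h7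

variable [NeZero n]

omit [NeZero n] in
lemma cont_bound {F : Sph n → ℂ} (hF : Continuous F) : ∃ M, ∀ ζ, ‖F ζ‖ ≤ M := by
  obtain ⟨M, hM⟩ := isCompact_univ.exists_bound_of_continuousOn (f := F) hF.continuousOn
  exact ⟨M, fun ζ => hM ζ (mem_univ _)⟩

lemma cont_integrable {E : Type*} [NormedAddCommGroup E] {F : Sph n → E} (hF : Continuous F) :
    Integrable F (sig n) := by
  obtain ⟨M, hM⟩ := isCompact_univ.exists_bound_of_continuousOn (f := F) hF.continuousOn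
  exact Integrable.of_bound hF.aestronglyMeasurable M (ae_of_all _ fun ζ => hM ζ (mem_univ _))

lemma integral_uact {F : Sph n → ℂ} (hF : Continuous F) (U : V n ≃ₗᵢ[ℂ] V n) :
    ∫ ζ, F (uact U ζ) ∂sig n = ∫ ζ, F ζ ∂sig n := by
  have h := (sig_map U).map_eq
  conv_rhs => rw [← h]
  rw [integral_map (continuous_uact U).aemeasurable hF.aestronglyMeasurable]

/-- Mean value property on the complex lines through `⟪v, ζ⟫ v`. -/
theorem mean_line {f : V n → ℂ} {R : ℝ} (hR : 1 < R)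
    (hf : DifferentiableOn ℂ f (Metric.ball 0 R)) (v : Sph n) {g : ℂ → ℂ} (hg : Continuous g) :
    ∫ ζ : Sph n, f ζ * g ⟪(v : V n), ζ⟫_ℂ ∂sig n =
      ∫ ζ : Sph n, f (⟪(v : V n), ζ⟫_ℂ • (v : V n)) * g ⟪(v : V n), ζ⟫_ℂ ∂sig n := by
  have hmem : ∀ ζ : Sph n, (ζ : V n) ∈ Metric.ball (0 : V n) R := fun ζ => by
    rw [mem_ball_zero_iff, sph_norm]; exact hR
  have hfc : Continuous (fun ζ : Sph n => f ζ) :=
    hf.continuousOn.comp_continuous continuous_subtype_val hmem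
  have hgc : Continuous (fun ζ : Sph n => g ⟪(v : V n), ζ⟫_ℂ) := by fun_prop
  obtain ⟨Mf, hMf⟩ := cont_bound hfc
  obtain ⟨Mg, hMg⟩ := cont_bound hgc
  have hc1 : ∀ θ : ℝ, ‖circleMap 0 1 θ‖ = 1 := fun θ => by simp
  -- rotation invariance
  have h1 : ∀ θ : ℝ, ∫ ζ : Sph n, f (rotLin (v : V n) (circleMap 0 1 θ) ζ) * g ⟪(v : V n), ζ⟫_ℂ ∂sig n =
      ∫ ζ : Sph n, f ζ * g ⟪(v : V n), ζ⟫_ℂ ∂sig n := by
    intro θ
    refine Eq.trans ?_ (integral_uact (F := fun ζ : Sph n => f ζ * g ⟪(v : V n), ζ⟫_ℂ)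
      (hfc.mul hgc) (rotU v _ (hc1 θ)))
    refine integral_congr_ae (ae_of_all _ fun ζ => ?_)
    simp only [coe_uact_rotU, inner_rotLin]
  -- mean value property
  have h2 : ∀ ζ : Sph n, (2 * Real.pi)⁻¹ • ∫ θ in (0 : ℝ)..2 * Real.pi,
      f (rotLin (v : V n) (circleMap 0 1 θ) ζ) = f (⟪(v : V n), ζ⟫_ℂ • (v : V n)) := by
    intro ζ
    have hd : DifferentiableOn ℂ (fun c : ℂ => f (rotLin (v : V n) c ζ)) (Metric.ball 0 R) := by
      refine hf.comp (t := Metric.ball 0 R) ?_ (fun c hc => rotLin_mem_ball v ζ hR hc)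
      simp_rw [rotLin_apply]
      fun_prop
    have hd2 : DiffContOnCl ℂ (fun c : ℂ => f (rotLin (v : V n) c ζ)) (Metric.ball 0 |1|) := by
      apply DifferentiableOn.diffContOnCl
      rw [abs_one, closure_ball _ one_ne_zero]
      exact hd.mono (Metric.closedBall_subset_ball hR)
    have h3 := hd2.circleAverage
    rw [Real.circleAverage_def] at h3
    rw [h3, rotLin_apply]
    simp
  have hjc : Continuous (fun p : ℝ × Sph n => rotLin (v : V n) (circleMap 0 1 p.1) p.2) := by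
    simp_rw [rotLin_apply]
    fun_prop
  have hjc2 : Continuous (fun p : ℝ × Sph n =>
      f (rotLin (v : V n) (circleMap 0 1 p.1) p.2) * g ⟪(v : V n), p.2⟫_ℂ) := by
    refine Continuous.mul ?_ (by fun_prop)
    refine hf.continuousOn.comp_continuous hjc fun p => ?_
    rw [mem_ball_zero_iff, norm_rotLin v (hc1 p.1), sph_norm]
    exact hR
  have hint : Integrable (Function.uncurry fun (θ : ℝ) (ζ : Sph n) =>
      f (rotLin (v : V n) (circleMap 0 1 θ) ζ) * g ⟪(v : V n), ζ⟫_ℂ)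
      ((volume.restrict (Ioc 0 (2 * Real.pi))).prod (sig n)) := by
    refine Integrable.of_bound hjc2.aestronglyMeasurable (Mf * Mg) (ae_of_all _ fun p => ?_)
    simp only [Function.uncurry]
    rw [norm_mul]
    have h4 := hMf (uact (rotU v _ (hc1 p.1)) p.2)
    rw [coe_uact_rotU] at h4
    exact mul_le_mul h4 (hMg p.2) (norm_nonneg _) ((norm_nonneg _).trans h4)
  have h5 : ∫ ζ : Sph n, f ζ * g ⟪(v : V n), ζ⟫_ℂ ∂sig n =
      (2 * Real.pi)⁻¹ • ∫ θ in (0 : ℝ)..2 * Real.pi, ∫ ζ : Sph n,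
        f (rotLin (v : V n) (circleMap 0 1 θ) ζ) * g ⟪(v : V n), ζ⟫_ℂ ∂sig n := by
    simp_rw [h1]
    rw [intervalIntegral.integral_const, sub_zero, smul_smul,
      inv_mul_cancel₀ (by positivity), one_smul]
  rw [h5, intervalIntegral.integral_of_le (by positivity), integral_integral_swap hint,
    ← integral_smul]
  refine integral_congr_ae (ae_of_all _ fun ζ => ?_)
  simp only
  rw [integral_mul_const, ← intervalIntegral.integral_of_le (by positivity), ← smul_mul_assoc, h2]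

end Pool.Agent.MP28b1a7
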