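import Pool.Agent.Lib.MP_28b1a7_an.Meas2

/-!
Moments of the sphere measure.
-/

namespace Pool.Agent.MP28b1a7

open MeasureTheory Set Filter Topology
open scoped InnerProductSpace ENNReal NNReal ComplexConjugate

variable {n : ℕ} [NeZero n]

/-- real moments -/
noncomputable def mom (k : ℕ) (w : V n) : ℝ := ∫ ζ : Sph n, ‖⟪w, (ζ : V n)⟫_ℂ‖ ^ (2 * k) ∂sig n

omit [NeZero n] in
lemma inner_mul_inner_conj (w ζ : V n) : ⟪w, ζ⟫_ℂ * ⟪ζ, w⟫_ℂ = ((‖⟪w, ζ⟫_ℂ‖ ^ 2 : ℝ) : ℂ) := by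
  rw [← inner_conj_symm ζ w, Complex.mul_conj, Complex.normSq_eq_norm_sq]

lemma mom_eq (k : ℕ) (w : V n) :
    ∫ ζ : Sph n, ⟪w, (ζ : V n)⟫_ℂ ^ k * ⟪(ζ : V n), w⟫_ℂ ^ k ∂sig n = (mom k w : ℂ) := by
  unfold mom
  rw [← integral_complex_ofReal]
  refine integral_congr_ae (ae_of_all _ fun ζ => ?_)
  simp only
  rw [← mul_pow, inner_mul_inner_conj, ← Complex.ofReal_pow, ← pow_mul]

lemma line_base (k l : ℕ) (a : V n) (w : Sph n) :
    ∫ ζ : Sph n, ⟪a, (ζ : V n)⟫_ℂ ^ k * ⟪(ζ : V n), (w : V n)⟫_ℂ ^ l ∂sig n =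
      ⟪a, (w : V n)⟫_ℂ ^ k *
        ∫ ζ : Sph n, ⟪(w : V n), (ζ : V n)⟫_ℂ ^ k * ⟪(ζ : V n), (w : V n)⟫_ℂ ^ l ∂sig n := by
  have hd : Differentiable ℂ (fun z : V n => ⟪a, z⟫_ℂ) := (innerSL ℂ a).differentiable
  have h := mean_line (n := n) (f := fun z => ⟪a, z⟫_ℂ ^ k) (R := 2) one_lt_two
    (hd.pow k).differentiableOn w (g := fun z => (conj z) ^ l) (by fun_prop)
  simp only [inner_conj_symm, inner_smul_right, mul_pow] at h
  rw [h, ← integral_const_mul]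
  refine integral_congr_ae (ae_of_all _ fun ζ => ?_)
  simp only
  ring

/-- multiplication by a unimodular scalar -/
noncomputable def scU (c : ℂ) (hc : ‖c‖ = 1) : V n ≃ₗᵢ[ℂ] V n :=
  (LinearIsometry.mk (c • LinearMap.id) (fun x => by
    simp [norm_smul, hc])).toLinearIsometryEquiv rfl

omit [NeZero n] in
lemma coe_scU (c : ℂ) (hc : ‖c‖ = 1) (x : Sph n) :
    ((uact (scU c hc) x : Sph n) : V n) = c • (x : V n) := rfl

lemma zero_of_ne (k l : ℕ) (hkl : k ≠ l) (w : V n) :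
    ∫ ζ : Sph n, ⟪w, (ζ : V n)⟫_ℂ ^ k * ⟪(ζ : V n), w⟫_ℂ ^ l ∂sig n = 0 := by
  have hne : ((k : ℝ) - l) ≠ 0 := by
    intro h; apply hkl; exact_mod_cast (sub_eq_zero.1 h)
  set θ : ℝ := Real.pi / ((k : ℝ) - l) with hθ
  set c : ℂ := Complex.exp (θ * Complex.I) with hc
  have hc1 : ‖c‖ = 1 := Complex.norm_exp_ofReal_mul_I θ
  have hcc : c ^ k * (conj c) ^ l = -1 := by
    have h1 : conj c = Complex.exp (-(θ * Complex.I)) := by
      rw [hc, ← Complex.exp_conj]; simp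
    rw [h1, hc, ← Complex.exp_nat_mul, ← Complex.exp_nat_mul, ← Complex.exp_add]
    have h2 : (k : ℂ) * (θ * Complex.I) + l * -(θ * Complex.I) = Real.pi * Complex.I := by
      have h3 : ((k : ℝ) - l) * θ = Real.pi := by rw [hθ]; field_simp
      have h4 : ((k : ℂ) - l) * θ = Real.pi := by exact_mod_cast h3
      linear_combination Complex.I * h4
    rw [h2, Complex.exp_pi_mul_I]
  have h := integral_uact (n := n)
    (F := fun ζ : Sph n => ⟪w, (ζ : V n)⟫_ℂ ^ k * ⟪(ζ : V n), w⟫_ℂ ^ l) (by fun_prop) (scU c hc1)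
  have h2 : ∫ ζ : Sph n, ⟪w, ((uact (scU c hc1) ζ : Sph n) : V n)⟫_ℂ ^ k *
      ⟪((uact (scU c hc1) ζ : Sph n) : V n), w⟫_ℂ ^ l ∂sig n =
      - ∫ ζ : Sph n, ⟪w, (ζ : V n)⟫_ℂ ^ k * ⟪(ζ : V n), w⟫_ℂ ^ l ∂sig n := by
    rw [← integral_neg]
    refine integral_congr_ae (ae_of_all _ fun ζ => ?_)
    simp only [coe_scU, inner_smul_right, inner_smul_left, mul_pow]
    linear_combination (⟪w, (ζ : V n)⟫_ℂ ^ k * ⟪(ζ : V n), w⟫_ℂ ^ l) * hcc
  rw [h2] at h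
  exact CharZero.neg_eq_self_iff.1 h

lemma mom_symm (k : ℕ) (a w : Sph n) (h : ⟪(a : V n), (w : V n)⟫_ℂ ≠ 0) :
    mom k (a : V n) = mom k (w : V n) := by
  have h1 := line_base k k (a : V n) w
  have h2 := line_base k k (w : V n) a
  rw [mom_eq] at h1 h2
  have h3 := congrArg (starRingEnd ℂ) h2
  rw [← integral_conj] at h3
  simp only [map_mul, map_pow, inner_conj_symm, Complex.conj_ofReal] at h3
  have h4 : ∫ ζ : Sph n, ⟪(ζ : V n), (w : V n)⟫_ℂ ^ k * ⟪(a : V n), (ζ : V n)⟫_ℂ ^ k ∂sig n =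
      ∫ ζ : Sph n, ⟪(a : V n), (ζ : V n)⟫_ℂ ^ k * ⟪(ζ : V n), (w : V n)⟫_ℂ ^ k ∂sig n := by
    refine integral_congr_ae (ae_of_all _ fun ζ => ?_)
    simp only
    ring
  rw [h4, h1] at h3
  have h5 := mul_left_cancel₀ (pow_ne_zero k h) h3
  exact_mod_cast h5.symm

lemma mom_const (k : ℕ) (a w : Sph n) : mom k (a : V n) = mom k (w : V n) := by
  by_cases h : ⟪(a : V n), (w : V n)⟫_ℂ = 0
  · have h1 : ‖(a : V n) + w‖ ≠ 0 := by
      rw [norm_ne_zero_iff]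
      intro h2
      have h3 : ⟪(a : V n), (a : V n) + w⟫_ℂ = 0 := by rw [h2, inner_zero_right]
      rw [inner_add_right, h, inner_self_eq_norm_sq_to_K, sph_norm] at h3
      simp at h3
    let b : Sph n := ⟨((‖(a : V n) + w‖⁻¹ : ℝ) : ℂ) • ((a : V n) + w), by
      rw [mem_sphere_zero_iff_norm, norm_smul]
      simp [h1]⟩
    have hb : (b : V n) = ((‖(a : V n) + w‖⁻¹ : ℝ) : ℂ) • ((a : V n) + w) := rfl
    have h2 : ⟪(a : V n), (b : V n)⟫_ℂ ≠ 0 := by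
      rw [hb, inner_smul_right, inner_add_right, h, inner_self_eq_norm_sq_to_K, sph_norm]
      simp [h1]
    have h3 : ⟪(b : V n), (w : V n)⟫_ℂ ≠ 0 := by
      rw [hb, inner_smul_left, inner_add_left, h, inner_self_eq_norm_sq_to_K, sph_norm]
      simp [h1]
    rw [mom_symm k a b h2, mom_symm k b w h3]
  · exact mom_symm k a w h

lemma mom_eq_e0 (k : ℕ) (w : Sph n) : mom k (w : V n) = mom k (e0 n : V n) := mom_const k w _

/-- every vector is a scalar multiple of a unit vector -/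
lemma exists_unit (b : V n) : ∃ (s : ℝ) (w : Sph n), b = (s : ℂ) • (w : V n) := by
  by_cases h : b = 0
  · exact ⟨0, e0 n, by simp [h]⟩
  · have h1 : ‖b‖ ≠ 0 := norm_ne_zero_iff.2 h
    refine ⟨‖b‖, ⟨((‖b‖⁻¹ : ℝ) : ℂ) • b, by
      rw [mem_sphere_zero_iff_norm, norm_smul]
      simp [h1]⟩, ?_⟩
    simp only
    rw [smul_smul, ← Complex.ofReal_mul, mul_inv_cancel₀ h1]
    simp

lemma homog_int (k : ℕ) (v u b : V n) :
    ∫ ζ : Sph n, ⟪v, (ζ : V n)⟫_ℂ ^ k * ⟪u, (ζ : V n)⟫_ℂ * ⟪(ζ : V n), b⟫_ℂ ^ (k + 1) ∂sig n =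
      ⟪v, b⟫_ℂ ^ k * ⟪u, b⟫_ℂ * (mom (k + 1) (e0 n : V n) : ℂ) := by
  obtain ⟨s, w, rfl⟩ := exists_unit b
  have hd : ∀ a : V n, Differentiable ℂ (fun z : V n => ⟪a, z⟫_ℂ) :=
    fun a => (innerSL ℂ a).differentiable
  have h := mean_line (n := n) (f := fun z => ⟪v, z⟫_ℂ ^ k * ⟪u, z⟫_ℂ) (R := 2) one_lt_two
    (((hd v).pow k).mul (hd u)).differentiableOn w
    (g := fun z => (conj z) ^ (k + 1)) (by fun_prop)
  simp only [inner_conj_symm] at h
  have h2 : ∫ ζ : Sph n, ⟪v, (ζ : V n)⟫_ℂ ^ k * ⟪u, (ζ : V n)⟫_ℂ *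
      ⟪(ζ : V n), (s : ℂ) • (w : V n)⟫_ℂ ^ (k + 1) ∂sig n = (s : ℂ) ^ (k + 1) *
      ∫ ζ : Sph n, ⟪v, (ζ : V n)⟫_ℂ ^ k * ⟪u, (ζ : V n)⟫_ℂ * ⟪(ζ : V n), (w : V n)⟫_ℂ ^ (k + 1) ∂sig n := by
    rw [← integral_const_mul]
    refine integral_congr_ae (ae_of_all _ fun ζ => ?_)
    simp only [inner_smul_right]
    ring
  rw [h2, h, ← mom_eq_e0 (k + 1) w, ← mom_eq, ← integral_const_mul, ← integral_const_mul]
  refine integral_congr_ae (ae_of_all _ fun ζ => ?_)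
  simp only [inner_smul_right]
  ring

/-- mixed moment -/
lemma mixed (k : ℕ) (v u : V n) (hv : ⟪v, v⟫_ℂ = 1) (hu : ⟪u, u⟫_ℂ = 1) (hvu : ⟪v, u⟫_ℂ = 0)
    (huv : ⟪u, v⟫_ℂ = 0) :
    (k + 1 : ℝ) * ∫ ζ : Sph n, ‖⟪v, (ζ : V n)⟫_ℂ‖ ^ (2 * k) * ‖⟪u, (ζ : V n)⟫_ℂ‖ ^ 2 ∂sig n =
      mom (k + 1) (e0 n : V n) := by
  set A : ℕ → ℂ := fun j => ((k + 1).choose j : ℂ) * ∫ ζ : Sph n, ⟪v, (ζ : V n)⟫_ℂ ^ k *
    ⟪u, (ζ : V n)⟫_ℂ * (⟪(ζ : V n), v⟫_ℂ ^ j * ⟪(ζ : V n), u⟫_ℂ ^ (k + 1 - j)) ∂sig n with hA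
  set P : Polynomial ℂ := ∑ j ∈ Finset.range (k + 2), Polynomial.C (A j) * Polynomial.X ^ (k + 1 - j)
    with hP
  have hev : P = Polynomial.C (mom (k + 1) (e0 n : V n) : ℂ) * Polynomial.X := by
    apply Polynomial.funext
    intro ε
    have h := homog_int k v u (v + ε • u)
    rw [inner_add_right, inner_add_right, inner_smul_right, inner_smul_right, hv, hu, hvu, huv] at h
    simp only [mul_zero, add_zero, one_pow, mul_one, zero_add, one_mul] at h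
    rw [hP, Polynomial.eval_finsetSum]
    simp only [Polynomial.eval_mul, Polynomial.eval_C, Polynomial.eval_pow, Polynomial.eval_X]
    rw [mul_comm (mom (k + 1) (e0 n : V n) : ℂ) ε, ← h]
    have h3 : ∀ ζ : Sph n, ⟪v, (ζ : V n)⟫_ℂ ^ k * ⟪u, (ζ : V n)⟫_ℂ *
        ⟪(ζ : V n), v + ε • u⟫_ℂ ^ (k + 1) = ∑ j ∈ Finset.range (k + 2),
        (((k + 1).choose j : ℂ) * ε ^ (k + 1 - j)) * (⟪v, (ζ : V n)⟫_ℂ ^ k *
    ⟪u, (ζ : V n)⟫_ℂ * (⟪(ζ : V n), v⟫_ℂ ^ j * ⟪(ζ : V n), u⟫_ℂ ^ (k + 1 - j))) := by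
      intro ζ
      rw [inner_add_right, inner_smul_right, add_pow, Finset.mul_sum]
      refine Finset.sum_congr rfl fun j _ => ?_
      rw [mul_pow]
      ring
    simp_rw [h3]
    rw [integral_finsetSum _ (fun j _ => cont_integrable (by fun_prop))]
    refine Finset.sum_congr rfl fun j _ => ?_
    rw [integral_const_mul, hA]
    simp only
    ring
  have hco : P.coeff 1 = A k := by
    rw [hP, Polynomial.finsetSum_coeff]
    rw [Finset.sum_eq_single k]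
    · rw [Polynomial.coeff_C_mul, Polynomial.coeff_X_pow]
      simp
    · intro j hj hjk
      rw [Finset.mem_range] at hj
      rw [Polynomial.coeff_C_mul, Polynomial.coeff_X_pow, if_neg (by omega), mul_zero]
    · intro hk
      exact absurd (Finset.mem_range.2 (by omega)) hk
  rw [hev, Polynomial.coeff_C_mul, Polynomial.coeff_X_one, mul_one] at hco
  have h5 : A k = (((k + 1 : ℝ) * ∫ ζ : Sph n, ‖⟪v, (ζ : V n)⟫_ℂ‖ ^ (2 * k) *
      ‖⟪u, (ζ : V n)⟫_ℂ‖ ^ 2 ∂sig n : ℝ) : ℂ) := by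
    rw [hA]
    simp only
    rw [Nat.choose_succ_self_right, Complex.ofReal_mul, ← integral_complex_ofReal]
    congr 1
    · push_cast; ring
    · refine integral_congr_ae (ae_of_all _ fun ζ => ?_)
      simp only [Nat.add_sub_cancel_left, pow_one]
      have e1 := inner_mul_inner_conj v (ζ : V n)
      have e2 := inner_mul_inner_conj u (ζ : V n)
      rw [Complex.ofReal_mul, pow_mul, Complex.ofReal_pow, ← e1, ← e2, mul_pow]
      ring
  rw [h5] at hco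
  exact_mod_cast hco.symm

omit [NeZero n] in
lemma sum_norm_coord (ζ : Sph n) :
    ∑ i : Fin n, ‖⟪(EuclideanSpace.single i (1 : ℂ) : V n), (ζ : V n)⟫_ℂ‖ ^ 2 = 1 := by
  have h := EuclideanSpace.norm_sq_eq (ζ : V n)
  rw [sph_norm, one_pow] at h
  rw [h]
  refine Finset.sum_congr rfl fun i _ => ?_
  rw [EuclideanSpace.inner_single_left]
  simp

omit [NeZero n] in
lemma inner_single_single (i j : Fin n) :
    ⟪(EuclideanSpace.single i (1 : ℂ) : V n), EuclideanSpace.single j (1 : ℂ)⟫_ℂ =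
      if i = j then 1 else 0 := by
  rw [EuclideanSpace.inner_single_left]
  by_cases h : i = j
  · subst h; simp
  · simp [h]

lemma mom_succ (k : ℕ) :
    mom k (e0 n : V n) * (k + 1) = mom (k + 1) (e0 n : V n) * (k + n) := by
  have h1 : mom k (e0 n : V n) = ∑ i : Fin n, ∫ ζ : Sph n, ‖⟪(e0 n : V n), (ζ : V n)⟫_ℂ‖ ^ (2 * k) *
      ‖⟪(EuclideanSpace.single i (1 : ℂ) : V n), (ζ : V n)⟫_ℂ‖ ^ 2 ∂sig n := by
    rw [← integral_finsetSum _ (fun j _ => cont_integrable (by fun_prop))]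
    unfold mom
    refine integral_congr_ae (ae_of_all _ fun ζ => ?_)
    simp only
    rw [← Finset.mul_sum, sum_norm_coord, mul_one]
  have h0 : (e0 n : V n) = EuclideanSpace.single (0 : Fin n) (1 : ℂ) := rfl
  have h2 : ∀ i : Fin n, (k + 1 : ℝ) * ∫ ζ : Sph n, ‖⟪(e0 n : V n), (ζ : V n)⟫_ℂ‖ ^ (2 * k) *
      ‖⟪(EuclideanSpace.single i (1 : ℂ) : V n), (ζ : V n)⟫_ℂ‖ ^ 2 ∂sig n =
      if i = 0 then (k + 1) * mom (k + 1) (e0 n : V n) else mom (k + 1) (e0 n : V n) := by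
    intro i
    by_cases hi : i = 0
    · subst hi
      rw [if_pos rfl, ← h0]
      congr 1
      unfold mom
      refine integral_congr_ae (ae_of_all _ fun ζ => ?_)
      simp only
      rw [← pow_add]
      congr 1
    · rw [if_neg hi]
      have hi' : (0 : Fin n) ≠ i := fun h => hi h.symm
      apply mixed
      · rw [h0, inner_single_single, if_pos rfl]
      · rw [inner_single_single, if_pos rfl]
      · rw [h0, inner_single_single, if_neg hi']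
      · rw [h0, inner_single_single, if_neg hi]
  rw [mul_comm, h1, Finset.mul_sum, Finset.sum_congr rfl (fun i _ => h2 i), Finset.sum_ite]
  simp only [Finset.sum_const, nsmul_eq_mul]
  have h3 : (Finset.univ.filter (fun i : Fin n => i = 0)).card = 1 := by
    rw [Finset.card_eq_one]
    exact ⟨0, by ext i; simp⟩
  have h4 : (Finset.univ.filter (fun i : Fin n => ¬ i = 0)).card = n - 1 := by
    have := Finset.card_filter_add_card_filter_not (s := (Finset.univ : Finset (Fin n))) (fun i => i = 0)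
    rw [h3, Finset.card_univ, Fintype.card_fin] at this
    omega
  have hn : 1 ≤ n := NeZero.one_le
  rw [h3, h4, Nat.cast_sub hn]
  push_cast
  ring

lemma mom_val (k : ℕ) : mom k (e0 n : V n) = 1 / (cc n k : ℝ) := by
  induction k with
  | zero =>
    unfold mom cc
    simp
  | succ k ih =>
    have h := mom_succ (n := n) k
    rw [ih] at h
    have hn : 1 ≤ n := NeZero.one_le
    have h1 := Nat.choose_mul_succ_eq (k + n - 1) (n - 1)
    have e1 : k + n - 1 + 1 = k + 1 + n - 1 := by omega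
    have e2 : k + 1 + n - 1 - (n - 1) = k + 1 := by omega
    have e3 : ((k + 1 + n - 1 : ℕ) : ℝ) = k + n := by
      have : k + 1 + n - 1 = k + n := by omega
      rw [this]; push_cast; ring
    rw [e1, e2] at h1
    have hc1 : 0 < cc n k := Nat.choose_pos (by omega)
    have hc2 : 0 < cc n (k + 1) := Nat.choose_pos (by omega)
    have h2 : (cc n k : ℝ) * (k + n) = (cc n (k + 1) : ℝ) * (k + 1) := by
      have := congrArg (fun x : ℕ => (x : ℝ)) h1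
      simp only [Nat.cast_mul, e3] at this
      unfold cc
      rw [this]; push_cast; ring
    have hc1' : (cc n k : ℝ) ≠ 0 := by positivity
    have hc2' : (cc n (k + 1) : ℝ) ≠ 0 := by positivity
    have hkn : (k + n : ℝ) ≠ 0 := by positivity
    field_simp at h ⊢
    have h5 : mom (k + 1) (e0 n : V n) * (cc n k * (k + n)) = k + 1 := by
      rw [h]; ring
    rw [h2] at h5
    have hk : (k + 1 : ℝ) ≠ 0 := by positivity
    apply mul_right_cancel₀ hk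
    linear_combination h5

theorem moment (v : Sph n) (k : ℕ) :
    ∫ ζ : Sph n, ‖⟪(v : V n), ζ⟫_ℂ‖ ^ (2 * k) ∂sig n = 1 / (cc n k : ℝ) := by
  have h := mom_eq_e0 k v
  rw [mom_val] at h
  exact h

theorem inner_pow_int (k l : ℕ) (v w : V n) :
    ∫ ζ : Sph n, ⟪v, (ζ : V n)⟫_ℂ ^ k * ⟪(ζ : V n), w⟫_ℂ ^ l ∂sig n =
      if k = l then ⟪v, w⟫_ℂ ^ k / (cc n k : ℂ) else 0 := by
  obtain ⟨s, w, rfl⟩ := exists_unit w
  have h2 : ∫ ζ : Sph n, ⟪v, (ζ : V n)⟫_ℂ ^ k * ⟪(ζ : V n), (s : ℂ) • (w : V n)⟫_ℂ ^ l ∂sig n =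
      (s : ℂ) ^ l * ∫ ζ : Sph n, ⟪v, (ζ : V n)⟫_ℂ ^ k * ⟪(ζ : V n), (w : V n)⟫_ℂ ^ l ∂sig n := by
    rw [← integral_const_mul]
    refine integral_congr_ae (ae_of_all _ fun ζ => ?_)
    simp only [inner_smul_right]
    ring
  rw [h2, line_base]
  by_cases h : k = l
  · subst h
    rw [if_pos rfl, mom_eq, mom_eq_e0, mom_val, inner_smul_right]
    push_cast
    ring
  · rw [if_neg h, zero_of_ne k l h]
    ring

end Pool.Agent.MP28b1a7
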