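import Pool.Agent.Lib.MP_28b1a7_an.Meas3

/-!
Poisson-type integrals and the measure of nonisotropic balls.
-/

namespace Pool.Agent.MP28b1a7

open MeasureTheory Set Filter Topology
open scoped InnerProductSpace ENNReal NNReal ComplexConjugate

variable {n : ℕ} [NeZero n]

lemma hs_cc (z : ℂ) (hz : ‖z‖ < 1) : HasSum (fun m : ℕ => (cc n m : ℂ) * z ^ m) (1 / (1 - z) ^ n) := by
  have hn : 1 ≤ n := NeZero.one_le
  have h := hasSum_choose_mul_geometric_of_norm_lt_one (𝕜 := ℂ) (n - 1) hz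
  have e : n - 1 + 1 = n := by omega
  rw [e] at h
  have e2 : (fun m : ℕ => (cc n m : ℂ) * z ^ m) =
      fun m : ℕ => ((m + (n - 1)).choose (n - 1) : ℂ) * z ^ m := by
    funext m; unfold cc; rw [Nat.add_sub_assoc hn]
  rw [e2]; exact h

lemma hs_cc_real {z : ℝ} (h0 : 0 ≤ z) (hz : z < 1) :
    HasSum (fun m : ℕ => (cc n m : ℝ) * z ^ m) (1 / (1 - z) ^ n) := by
  have h := hs_cc (n := n) (z : ℂ) (by rw [Complex.norm_real, Real.norm_of_nonneg h0]; exact hz)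
  have e : (1 / (1 - (z : ℂ)) ^ n) = ((1 / (1 - z) ^ n : ℝ) : ℂ) := by push_cast; ring
  rw [e] at h
  have h2 : HasSum (fun m : ℕ => (((cc n m : ℝ) * z ^ m : ℝ) : ℂ)) ((1 / (1 - z) ^ n : ℝ) : ℂ) := by
    simpa using h
  exact_mod_cast h2

lemma parseval (x : Sph n) (a : ℕ → ℂ) (N : ℕ) :
    ∫ ζ : Sph n, ‖∑ k ∈ Finset.range N, a k * ⟪(x : V n), (ζ : V n)⟫_ℂ ^ k‖ ^ 2 ∂sig n =
      ∑ k ∈ Finset.range N, ‖a k‖ ^ 2 / (cc n k : ℝ) := by
  have h : ((∫ ζ : Sph n, ‖∑ k ∈ Finset.range N, a k * ⟪(x : V n), (ζ : V n)⟫_ℂ ^ k‖ ^ 2 ∂sig n : ℝ) : ℂ)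
      = ((∑ k ∈ Finset.range N, ‖a k‖ ^ 2 / (cc n k : ℝ) : ℝ) : ℂ) := by
    rw [← integral_complex_ofReal]
    have h1 : ∀ ζ : Sph n, ((‖∑ k ∈ Finset.range N, a k * ⟪(x : V n), (ζ : V n)⟫_ℂ ^ k‖ ^ 2 : ℝ) : ℂ) =
        ∑ k ∈ Finset.range N, ∑ l ∈ Finset.range N, (a k * conj (a l)) *
          (⟪(x : V n), (ζ : V n)⟫_ℂ ^ k * ⟪(ζ : V n), (x : V n)⟫_ℂ ^ l) := by
      intro ζ
      rw [← Complex.normSq_eq_norm_sq, ← Complex.mul_conj, map_sum, Finset.sum_mul_sum]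
      refine Finset.sum_congr rfl fun k _ => Finset.sum_congr rfl fun l _ => ?_
      rw [map_mul, map_pow, inner_conj_symm]
      ring
    simp_rw [h1]
    rw [integral_finsetSum _ (fun k _ => cont_integrable (by fun_prop))]
    push_cast
    refine Finset.sum_congr rfl fun k hk => ?_
    rw [integral_finsetSum _ (fun l _ => cont_integrable (by fun_prop))]
    simp_rw [integral_const_mul, inner_pow_int]
    rw [Finset.sum_eq_single k]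
    · rw [if_pos rfl, inner_self_eq_norm_sq_to_K, sph_norm, Complex.mul_conj,
        Complex.normSq_eq_norm_sq]
      simp only [Complex.coe_algebraMap, Complex.ofReal_one, one_pow, Complex.ofReal_pow]
      ring
    · intro l _ hl
      rw [if_neg (fun h => hl h.symm), mul_zero]
    · intro h; exact absurd hk h
  exact_mod_cast h

omit [NeZero n] in
lemma norm_lt_one_mul {r : ℝ} (h0 : 0 ≤ r) (h1 : r < 1) (x ζ : Sph n) :
    ‖(r : ℂ) * ⟪(x : V n), (ζ : V n)⟫_ℂ‖ < 1 := by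
  rw [norm_mul, Complex.norm_real, Real.norm_of_nonneg h0]
  have := norm_inner_le_one x ζ
  have h2 := norm_nonneg ⟪(x : V n), (ζ : V n)⟫_ℂ
  nlinarith

/-- Poisson type integral. -/
lemma pois_int (x : Sph n) {r : ℝ} (h0 : 0 ≤ r) (h1 : r < 1) :
    ∫ ζ : Sph n, 1 / ‖1 - (r : ℂ) * ⟪(x : V n), (ζ : V n)⟫_ℂ‖ ^ (2 * n) ∂sig n =
      1 / (1 - r ^ 2) ^ n := by
  set S : ℕ → Sph n → ℂ := fun N ζ =>
    ∑ k ∈ Finset.range N, ((cc n k : ℂ) * (r : ℂ) ^ k) * ⟪(x : V n), (ζ : V n)⟫_ℂ ^ k with hS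
  have hlim : ∀ ζ : Sph n, Tendsto (fun N => ‖S N ζ‖ ^ 2) atTop
      (𝓝 (1 / ‖1 - (r : ℂ) * ⟪(x : V n), (ζ : V n)⟫_ℂ‖ ^ (2 * n))) := by
    intro ζ
    have h := (hs_cc (n := n) ((r : ℂ) * ⟪(x : V n), (ζ : V n)⟫_ℂ)
      (norm_lt_one_mul h0 h1 x ζ)).tendsto_sum_nat
    have h2 := (h.norm.pow 2)
    have e : ‖1 / (1 - (r : ℂ) * ⟪(x : V n), (ζ : V n)⟫_ℂ) ^ n‖ ^ 2 =
        1 / ‖1 - (r : ℂ) * ⟪(x : V n), (ζ : V n)⟫_ℂ‖ ^ (2 * n) := by
      rw [norm_div, norm_one, norm_pow, div_pow, one_pow, ← pow_mul, mul_comm n 2]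
    rw [e] at h2
    refine h2.congr fun N => ?_
    simp only [hS, mul_pow, mul_assoc]
  have hsum := hs_cc_real (n := n) h0 h1
  have hbd : ∀ N ζ, ‖S N ζ‖ ≤ 1 / (1 - r) ^ n := by
    intro N ζ
    calc ‖S N ζ‖ ≤ ∑ k ∈ Finset.range N, (cc n k : ℝ) * r ^ k := by
          refine (norm_sum_le _ _).trans (Finset.sum_le_sum fun k _ => ?_)
          rw [norm_mul, norm_mul, norm_pow, norm_pow, Complex.norm_real, Real.norm_of_nonneg h0]
          have h3 : ‖⟪(x : V n), (ζ : V n)⟫_ℂ‖ ^ k ≤ 1 :=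
            pow_le_one₀ (norm_nonneg _) (norm_inner_le_one x ζ)
          have h4 : ‖(cc n k : ℂ)‖ = (cc n k : ℝ) := by simp
          rw [h4]
          have h5 : 0 ≤ (cc n k : ℝ) * r ^ k := by positivity
          nlinarith
      _ ≤ 1 / (1 - r) ^ n := sum_le_hasSum _ (fun k _ => by positivity) hsum
  have hL : Tendsto (fun N => ∫ ζ : Sph n, ‖S N ζ‖ ^ 2 ∂sig n) atTop
      (𝓝 (∫ ζ : Sph n, 1 / ‖1 - (r : ℂ) * ⟪(x : V n), (ζ : V n)⟫_ℂ‖ ^ (2 * n) ∂sig n)) := by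
    refine tendsto_integral_of_dominated_convergence (fun _ => (1 / (1 - r) ^ n) ^ 2)
      (fun N => ?_) (integrable_const _) (fun N => ae_of_all _ fun ζ => ?_) (ae_of_all _ hlim)
    · have : Continuous (fun ζ : Sph n => ‖S N ζ‖ ^ 2) := by
        simp only [hS]; fun_prop
      exact this.aestronglyMeasurable
    · rw [Real.norm_of_nonneg (by positivity)]
      exact pow_le_pow_left₀ (norm_nonneg _) (hbd N ζ) 2
  have hr2 : r ^ 2 < 1 := by nlinarith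
  have hR : Tendsto (fun N => ∫ ζ : Sph n, ‖S N ζ‖ ^ 2 ∂sig n) atTop (𝓝 (1 / (1 - r ^ 2) ^ n)) := by
    have h := (hs_cc_real (n := n) (sq_nonneg r) hr2).tendsto_sum_nat
    refine h.congr fun N => ?_
    simp only [hS]
    rw [parseval]
    refine Finset.sum_congr rfl fun k _ => ?_
    have hcc : 0 < cc n k := Nat.choose_pos (by have : 1 ≤ n := NeZero.one_le; omega)
    have hcc' : (cc n k : ℝ) ≠ 0 := by positivity
    rw [norm_mul, norm_pow, Complex.norm_real, Real.norm_of_nonneg h0]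
    have h4 : ‖(cc n k : ℂ)‖ = (cc n k : ℝ) := by simp
    rw [h4]
    field_simp
    ring
  exact tendsto_nhds_unique hL hR

lemma cont_pois (x : Sph n) {r : ℝ} (h0 : 0 ≤ r) (h1 : r < 1) :
    Continuous fun ζ : Sph n => 1 / ‖1 - (r : ℂ) * ⟪(x : V n), (ζ : V n)⟫_ℂ‖ ^ (2 * n) := by
  refine Continuous.div continuous_const (by fun_prop) fun ζ => ?_
  refine pow_ne_zero _ (norm_ne_zero_iff.2 fun h => ?_)
  have h2 := norm_lt_one_mul h0 h1 x ζ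
  rw [← sub_eq_zero.1 h] at h2
  simp at h2

lemma pois_lint (x : Sph n) {r : ℝ} (h0 : 0 ≤ r) (h1 : r < 1) :
    ∫⁻ ζ : Sph n, ENNReal.ofReal (1 / ‖1 - (r : ℂ) * ⟪(x : V n), (ζ : V n)⟫_ℂ‖ ^ (2 * n)) ∂sig n =
      ENNReal.ofReal (1 / (1 - r ^ 2) ^ n) := by
  rw [← pois_int x h0 h1, ofReal_integral_eq_lintegral_ofReal (cont_integrable (cont_pois x h0 h1))]
  exact ae_of_all _ fun ζ => by positivity

omit [NeZero n] in
lemma norm_one_sub_le {r : ℝ} (h1 : r ≤ 1) (x ζ : Sph n) :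
    ‖1 - (r : ℂ) * ⟪(x : V n), (ζ : V n)⟫_ℂ‖ ≤ dd (x : V n) ζ + (1 - r) := by
  have e : 1 - (r : ℂ) * ⟪(x : V n), (ζ : V n)⟫_ℂ =
      (1 - ⟪(x : V n), (ζ : V n)⟫_ℂ) + ((1 - r : ℝ) : ℂ) * ⟪(x : V n), (ζ : V n)⟫_ℂ := by
    push_cast; ring
  rw [e]
  refine (norm_add_le _ _).trans ?_
  rw [norm_mul, Complex.norm_real, Real.norm_of_nonneg (by linarith)]
  have := norm_inner_le_one x ζ
  unfold dd
  nlinarith

omit [NeZero n] in
lemma le_norm_one_sub {r : ℝ} (h0 : 0 ≤ r) (x ζ : Sph n) :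
    1 - r ≤ ‖1 - (r : ℂ) * ⟪(x : V n), (ζ : V n)⟫_ℂ‖ := by
  have h := norm_sub_norm_le (1 : ℂ) ((r : ℂ) * ⟪(x : V n), (ζ : V n)⟫_ℂ)
  rw [norm_mul, Complex.norm_real, Real.norm_of_nonneg h0, norm_one] at h
  have := norm_inner_le_one x ζ
  nlinarith

omit [NeZero n] in
lemma dd_le_norm_one_sub {r : ℝ} (h0 : 0 ≤ r) (h1 : r ≤ 1) (x ζ : Sph n) :
    dd (x : V n) ζ ≤ 2 * ‖1 - (r : ℂ) * ⟪(x : V n), (ζ : V n)⟫_ℂ‖ := by
  have h2 := le_norm_one_sub h0 x ζ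
  have e : (1 : ℂ) - ⟪(x : V n), (ζ : V n)⟫_ℂ =
      (1 - (r : ℂ) * ⟪(x : V n), (ζ : V n)⟫_ℂ) - ((1 - r : ℝ) : ℂ) * ⟪(x : V n), (ζ : V n)⟫_ℂ := by
    push_cast; ring
  have h3 : dd (x : V n) ζ ≤ ‖1 - (r : ℂ) * ⟪(x : V n), (ζ : V n)⟫_ℂ‖ + (1 - r) := by
    unfold dd
    rw [e]
    refine (norm_sub_le _ _).trans ?_
    rw [norm_mul, Complex.norm_real, Real.norm_of_nonneg (by linarith)]
    have := norm_inner_le_one x ζ
    nlinarith
  linarith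

theorem poisson_int (j : ℕ) (x : Sph n) :
    ∫⁻ y : Sph n, ENNReal.ofReal (2 ^ (j * n) / wt j (x : V n) y ^ (2 * n)) ∂sig n ≤ 1 := by
  set q : ℝ := (1 / 2) ^ j with hq
  have hq0 : 0 < q := by positivity
  have hq1 : q ≤ 1 := pow_le_one₀ (by norm_num) (by norm_num)
  have hq2 : q * 2 ^ j = 1 := by rw [hq, ← mul_pow]; norm_num
  have h0 : 0 ≤ 1 - q := by linarith
  have h1 : 1 - q < 1 := by linarith
  have hpt : ∀ y : Sph n, (2 ^ (j * n) / wt j (x : V n) y ^ (2 * n) : ℝ) ≤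
      q ^ n * (1 / ‖1 - ((1 - q : ℝ) : ℂ) * ⟪(x : V n), (y : V n)⟫_ℂ‖ ^ (2 * n)) := by
    intro y
    have h2 := norm_one_sub_le h1.le x y
    have h3 := le_norm_one_sub h0 x y
    have h4 : ‖1 - ((1 - q : ℝ) : ℂ) * ⟪(x : V n), (y : V n)⟫_ℂ‖ ≤ q * wt j (x : V n) y := by
      refine h2.trans (le_of_eq ?_)
      unfold wt
      have : q * (1 + 2 ^ j * dd (x : V n) y) = q + (q * 2 ^ j) * dd (x : V n) y := by ring
      rw [this, hq2]; ring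
    have h5 : 0 < ‖1 - ((1 - q : ℝ) : ℂ) * ⟪(x : V n), (y : V n)⟫_ℂ‖ := by linarith
    have hw := wt_pos j (x : V n) y
    rw [mul_one_div, div_le_div_iff₀ (by positivity) (by positivity)]
    calc 2 ^ (j * n) * ‖1 - ((1 - q : ℝ) : ℂ) * ⟪(x : V n), (y : V n)⟫_ℂ‖ ^ (2 * n)
        ≤ 2 ^ (j * n) * (q * wt j (x : V n) y) ^ (2 * n) := by gcongr
      _ = (q * 2 ^ j) ^ n * (q ^ n * wt j (x : V n) y ^ (2 * n)) := by
          rw [pow_mul 2 j n]; ring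
      _ = q ^ n * wt j (x : V n) y ^ (2 * n) := by rw [hq2]; ring
  calc ∫⁻ y : Sph n, ENNReal.ofReal (2 ^ (j * n) / wt j (x : V n) y ^ (2 * n)) ∂sig n
      ≤ ∫⁻ y : Sph n, ENNReal.ofReal (q ^ n) * ENNReal.ofReal
        (1 / ‖1 - ((1 - q : ℝ) : ℂ) * ⟪(x : V n), (y : V n)⟫_ℂ‖ ^ (2 * n)) ∂sig n := by
        refine lintegral_mono fun y => ?_
        rw [← ENNReal.ofReal_mul (by positivity)]
        exact ENNReal.ofReal_le_ofReal (hpt y)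
    _ = ENNReal.ofReal (q ^ n) * ENNReal.ofReal (1 / (1 - (1 - q) ^ 2) ^ n) := by
        rw [lintegral_const_mul' _ _ ENNReal.ofReal_ne_top, pois_lint x h0 h1]
    _ ≤ 1 := by
        rw [← ENNReal.ofReal_mul (by positivity)]
        refine ENNReal.ofReal_le_one.2 ?_
        rw [mul_one_div, div_le_one (by apply pow_pos; nlinarith)]
        exact pow_le_pow_left₀ hq0.le (by nlinarith) n

end Pool.Agent.MP28b1a7
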