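import Pool.Agent.Lib.MP_28b1a7_an.Defs

/-!
Elementary facts about the multipliers.
-/

namespace Pool.Agent.MP28b1a7

open scoped ContDiff
open Real

lemma phi_of_le_one {x : ℝ} (h : x ≤ 1) : phi x = 0 := by
  unfold phi
  rw [smoothTransition.zero_of_nonpos (by linarith), mul_zero]

lemma phi_of_two_le {x : ℝ} (h : 2 ≤ x) : phi x = π / 2 := by
  unfold phi
  rw [smoothTransition.one_of_one_le (by linarith), mul_one]

lemma phi_contDiff : ContDiff ℝ ∞ phi := by
  unfold phi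
  have : ContDiff ℝ ∞ (fun x : ℝ => smoothTransition (x - 1)) :=
    smoothTransition.contDiff.comp (contDiff_id.sub contDiff_const)
  exact contDiff_const.mul this

lemma ms_contDiff : ContDiff ℝ ∞ ms := by
  unfold ms
  exact (Real.contDiff_cos.comp phi_contDiff).pow 2

lemma ma_contDiff : ContDiff ℝ ∞ ma := by
  unfold ma
  exact (Real.contDiff_sin.comp (phi_contDiff.comp (contDiff_const.mul contDiff_id))).mul
    (Real.contDiff_cos.comp phi_contDiff)

lemma mth_contDiff : ContDiff ℝ ∞ mth := by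
  unfold mth
  have h1 : ContDiff ℝ ∞ (fun x : ℝ => x / 2) := contDiff_id.div_const 2
  have h2 : ContDiff ℝ ∞ (fun x : ℝ => 4 * x) := contDiff_const.mul contDiff_id
  exact (Real.contDiff_cos.comp (phi_contDiff.comp h1)).mul
    (Real.contDiff_sin.comp (phi_contDiff.comp h2))

lemma ms_of_le_one {x : ℝ} (h : x ≤ 1) : ms x = 1 := by
  unfold ms; rw [phi_of_le_one h]; simp

lemma ms_of_two_le {x : ℝ} (h : 2 ≤ x) : ms x = 0 := by
  unfold ms; rw [phi_of_two_le h]; simp

lemma ms_nonneg (x : ℝ) : 0 ≤ ms x := by unfold ms; positivity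

lemma ms_le_one (x : ℝ) : ms x ≤ 1 := by
  unfold ms; nlinarith [Real.sin_sq_add_cos_sq (phi x), sq_nonneg (Real.sin (phi x))]

lemma ma_of_le {x : ℝ} (h : x ≤ 1 / 2) : ma x = 0 := by
  unfold ma; rw [phi_of_le_one (by linarith : 2 * x ≤ 1)]; simp

lemma ma_of_two_le {x : ℝ} (h : 2 ≤ x) : ma x = 0 := by
  unfold ma; rw [phi_of_two_le h]; simp

lemma mth_of_le {x : ℝ} (h : x ≤ 1 / 4) : mth x = 0 := by
  unfold mth; rw [phi_of_le_one (by linarith : 4 * x ≤ 1)]; simp

lemma mth_of_four_le {x : ℝ} (h : 4 ≤ x) : mth x = 0 := by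
  unfold mth; rw [phi_of_two_le (by linarith : 2 ≤ x / 2)]; simp

lemma mth_eq_one {x : ℝ} (h : 1 / 2 ≤ x) (h' : x ≤ 2) : mth x = 1 := by
  unfold mth
  rw [phi_of_two_le (by linarith : 2 ≤ 4 * x), phi_of_le_one (by linarith : x / 2 ≤ 1)]; simp

lemma abs_ma_le (x : ℝ) : |ma x| ≤ 1 := by
  unfold ma
  rw [abs_mul]
  exact mul_le_one₀ (abs_sin_le_one _) (abs_nonneg _) (abs_cos_le_one _)

lemma ma_sq (x : ℝ) : ma x ^ 2 = ms x - ms (2 * x) := by
  rcases le_total 1 x with h | h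
  · rw [ms_of_two_le (by linarith : 2 ≤ 2 * x)]
    unfold ma ms
    rw [phi_of_two_le (by linarith : 2 ≤ 2 * x)]
    simp
  · rw [ms_of_le_one h]
    unfold ma ms
    rw [phi_of_le_one h]
    have := Real.sin_sq_add_cos_sq (phi (2 * x))
    simp only [Real.cos_zero, mul_one]
    linarith

lemma AA_zero_of_le {k : ℕ} (h : k ≤ 1) : AA 0 k = 1 := by simp [AA, h]

lemma AA_succ (j k : ℕ) : AA (j + 1) k = ma (k / 2 ^ (j + 1)) := by simp [AA]

lemma AA_of_le {j k : ℕ} (h : 2 * 2 ^ j ≤ k) : AA j k = 0 := by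
  rcases j with _ | j
  · have : ¬ k ≤ 1 := by simp at h; omega
    simp [AA, this]
  · rw [AA_succ]
    apply ma_of_two_le
    rw [le_div_iff₀ (by positivity)]
    exact_mod_cast h

lemma AA_of_small {j k : ℕ} (h : 2 * k ≤ 2 ^ (j + 1)) : AA (j + 1) k = 0 := by
  rw [AA_succ]
  apply ma_of_le
  rw [div_le_div_iff₀ (by positivity) (by norm_num)]
  have : ((2 * k : ℕ) : ℝ) ≤ ((2 ^ (j + 1) : ℕ) : ℝ) := by exact_mod_cast h
  push_cast at this
  linarith

lemma abs_AA_le (j k : ℕ) : |AA j k| ≤ 1 := by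
  unfold AA
  split_ifs
  · simp
  · simp
  · exact abs_ma_le _

lemma TH_mul_AA (j k : ℕ) : TH j k * AA j k = AA j k := by
  rcases j with _ | j
  · unfold TH AA
    split_ifs <;> simp_all
  · simp only [TH, AA, Nat.add_eq_zero_iff, one_ne_zero, and_false, if_false]
    set x : ℝ := (k : ℝ) / 2 ^ (j + 1)
    rcases le_total x (1 / 2) with h | h
    · rw [ma_of_le h]; simp
    · rcases le_total 2 x with h' | h'
      · rw [ma_of_two_le h']; simp
      · rw [mth_eq_one h h']; simp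

lemma TH_of_le {j k : ℕ} (h : 4 * 2 ^ j ≤ k) : TH j k = 0 := by
  rcases j with _ | j
  · have : ¬ k ≤ 1 := by simp at h; omega
    simp [TH, this]
  · simp only [TH, Nat.add_eq_zero_iff, one_ne_zero, and_false, if_false]
    apply mth_of_four_le
    rw [le_div_iff₀ (by positivity)]
    exact_mod_cast h

/-- partial sums of the squares of the multipliers -/
lemma sum_AA_sq (J k : ℕ) : ∑ j ∈ Finset.range (J + 1), AA j k ^ 2 = ms (k / 2 ^ J) := by
  induction J with
  | zero =>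
    simp only [zero_add, Finset.range_one, Finset.sum_singleton, pow_zero, div_one]
    by_cases h : k ≤ 1
    · rw [AA_zero_of_le h, ms_of_le_one (by exact_mod_cast h)]; simp
    · have h2 : 2 ≤ k := by omega
      rw [AA_of_le (by simpa using h2), ms_of_two_le (by exact_mod_cast h2)]; simp
  | succ J ih =>
    rw [Finset.sum_range_succ, ih, AA_succ, ma_sq]
    have : (2 : ℝ) * (k / 2 ^ (J + 1)) = k / 2 ^ J := by
      rw [pow_succ]; field_simp
    rw [this]; ring

lemma sum_AA_sq_le (J k : ℕ) : ∑ j ∈ Finset.range J, AA j k ^ 2 ≤ 1 := by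
  rcases J with _ | J
  · simp
  · rw [sum_AA_sq]; exact ms_le_one _

lemma sum_AA_sq_eq_one {J k : ℕ} (h : k ≤ 2 ^ J) : ∑ j ∈ Finset.range (J + 1), AA j k ^ 2 = 1 := by
  rw [sum_AA_sq]
  apply ms_of_le_one
  rw [div_le_one (by positivity)]
  exact_mod_cast h

end Pool.Agent.MP28b1a7
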