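import Pool.Agent.Lib.MP_28b1a7_an.Tk

/-!
Peetre maximal functions.
-/

namespace Pool.Agent.MP28b1a7

open MeasureTheory Filter Topology
open scoped InnerProductSpace ENNReal NNReal

/-- the exponent of the Peetre maximal functions -/
def LL (n : ℕ) : ℕ := 3 * (n + 1)

/-- weights in `ENNReal` -/
noncomputable def wte {n : ℕ} (j : ℕ) (x y : Sph n) : ℝ≥0∞ := ENNReal.ofReal (wt j (x : V n) y)

section
variable {n : ℕ}

lemma wte_comm (j : ℕ) (x y : Sph n) : wte j x y = wte j y x := by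
  unfold wte; rw [wt_comm]

lemma one_le_wte (j : ℕ) (x y : Sph n) : 1 ≤ wte j x y := by
  unfold wte
  rw [← ENNReal.ofReal_one]
  exact ENNReal.ofReal_le_ofReal (one_le_wt _ _ _)

lemma wte_ne_zero (j : ℕ) (x y : Sph n) : wte j x y ≠ 0 :=
  (lt_of_lt_of_le one_pos (one_le_wte j x y)).ne'

lemma wte_ne_top (j : ℕ) (x y : Sph n) : wte j x y ≠ ∞ := ENNReal.ofReal_ne_top

lemma wte_quasi (j : ℕ) (x c y : Sph n) : wte j x y ≤ 2 * (wte j x c * wte j c y) := by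
  unfold wte
  have h := wt_quasi j x c y
  refine (ENNReal.ofReal_le_ofReal h).trans (le_of_eq ?_)
  rw [ENNReal.ofReal_mul (by norm_num), ENNReal.ofReal_mul (wt_pos _ _ _).le]
  norm_num

lemma wte_self (j : ℕ) (x : Sph n) : wte j x x = 1 := by
  unfold wte wt
  rw [dd_self]; simp

lemma continuous_wte (j : ℕ) : Continuous fun p : Sph n × Sph n => wte j p.1 p.2 :=
  ENNReal.continuous_ofReal.comp (continuous_wt j)

/-- the size kernel with exponent `N` -/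
noncomputable def kN (n N j : ℕ) (x y : Sph n) : ℝ≥0∞ := 2 ^ (j * n) / wte j x y ^ N

lemma kN_measurable (N j : ℕ) (x : Sph n) : Measurable fun y : Sph n => kN n N j x y := by
  unfold kN
  have : Measurable fun y : Sph n => wte j x y :=
    ((continuous_wte j).comp (Continuous.prodMk_right x)).measurable
  exact (this.pow_const N).const_div _

lemma tk_eq_kN (j : ℕ) (x y : Sph n) : tk n j x y = kN n (2 * n + 2) j x y := by
  unfold tk kN wte
  rw [ENNReal.ofReal_div_of_pos (by have := wt_pos j (x : V n) y; positivity),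
    ENNReal.ofReal_pow (by norm_num), ENNReal.ofReal_pow (wt_pos _ _ _).le]
  norm_num

lemma kN_anti {N N' : ℕ} (h : N ≤ N') (j : ℕ) (x y : Sph n) : kN n N' j x y ≤ kN n N j x y := by
  unfold kN
  gcongr
  exact one_le_wte j x y

/-- the Peetre maximal function at level `j` -/
noncomputable def pst (j : ℕ) (F : Sph n → ℂ) (z : Sph n) : ℝ≥0∞ :=
  ⨆ w : Sph n, ‖F w‖ₑ / wte j z w ^ LL n

lemma le_pst (j : ℕ) (F : Sph n → ℂ) (z w : Sph n) : ‖F w‖ₑ ≤ wte j z w ^ LL n * pst j F z := by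
  have h : ‖F w‖ₑ / wte j z w ^ LL n ≤ pst j F z :=
    le_iSup (fun w : Sph n => ‖F w‖ₑ / wte j z w ^ LL n) w
  rw [ENNReal.div_le_iff (pow_ne_zero _ (wte_ne_zero _ _ _)) (by
    have := wte_ne_top j z w; finiteness)] at h
  rwa [mul_comm]

lemma le_pst_self (j : ℕ) (F : Sph n → ℂ) (z : Sph n) : ‖F z‖ₑ ≤ pst j F z := by
  have := le_pst j F z z
  rwa [wte_self, one_pow, one_mul] at this

/-- slow variation -/
lemma pst_slow (j : ℕ) (F : Sph n → ℂ) (z z' : Sph n) :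
    pst j F z ≤ (2 * wte j z z') ^ LL n * pst j F z' := by
  unfold pst
  refine iSup_le fun w => ?_
  rw [ENNReal.div_le_iff (pow_ne_zero _ (wte_ne_zero _ _ _)) (by
    have := wte_ne_top j z w; finiteness)]
  refine (le_pst j F z' w).trans ?_
  have h : wte j z' w ^ LL n ≤ (2 * wte j z z') ^ LL n * wte j z w ^ LL n := by
    rw [← mul_pow]
    gcongr
    have := wte_quasi j z' z w
    rw [wte_comm j z' z] at this
    calc _ ≤ _ := this
      _ = _ := by ring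
  calc wte j z' w ^ LL n * pst j F z' ≤
      ((2 * wte j z z') ^ LL n * wte j z w ^ LL n) * pst j F z' := by gcongr
    _ = _ := by unfold pst; ring

lemma pst_lt_top (j : ℕ) {F : Sph n → ℂ} {C : ℝ} (hC : ∀ x, ‖F x‖ ≤ C) (z : Sph n) :
    pst j F z < ∞ := by
  refine lt_of_le_of_lt (b := ENNReal.ofReal C) ?_ ENNReal.ofReal_lt_top
  unfold pst
  refine iSup_le fun w => ?_
  have h1 : ‖F w‖ₑ ≤ ENNReal.ofReal C := by
    rw [← ofReal_norm]
    exact ENNReal.ofReal_le_ofReal (hC w)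
  refine le_trans ?_ h1
  exact ENNReal.div_le_of_le_mul (le_mul_of_one_le_right zero_le (one_le_pow₀ (one_le_wte _ _ _)))

end

section
variable {n : ℕ} [NeZero n]

/-- general bound of Peetre functions of kernel operators -/
lemma pst_le_of_kernel (j : ℕ) {F g : Sph n → ℂ} {K : Sph n → Sph n → ℂ} {C : ℝ≥0}
    (hF : ∀ w, F w = ∫ η, K w η * g η ∂sig n)
    (hK : ∀ w η, ‖K w η‖ₑ * wte j w η ^ LL n ≤ C * 2 ^ (j * n)) (z : Sph n) :
    pst j F z ≤ C * 2 ^ LL n * ∫⁻ η, kN n (LL n) j z η * ‖g η‖ₑ ∂sig n := by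
  unfold pst
  refine iSup_le fun w => ?_
  have hw0 : wte j z w ^ LL n ≠ 0 := pow_ne_zero _ (wte_ne_zero _ _ _)
  have hwt : wte j z w ^ LL n ≠ ∞ := by have := wte_ne_top j z w; finiteness
  rw [ENNReal.div_le_iff hw0 hwt]
  have h1 : ‖F w‖ₑ ≤ ∫⁻ η, ‖K w η‖ₑ * ‖g η‖ₑ ∂sig n := by
    rw [hF w]
    refine (enorm_integral_le_lintegral_enorm _).trans (le_of_eq ?_)
    refine lintegral_congr fun η => ?_
    rw [enorm_mul]
  refine h1.trans ?_
  rw [← lintegral_const_mul' _ _ (by finiteness), mul_comm, ← lintegral_const_mul' _ _ hwt]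
  refine lintegral_mono fun η => ?_
  have h2 : wte j w η ^ LL n ≠ 0 := pow_ne_zero _ (wte_ne_zero _ _ _)
  have h3 : wte j w η ^ LL n ≠ ∞ := by have := wte_ne_top j w η; finiteness
  have h4 : ‖K w η‖ₑ ≤ C * 2 ^ (j * n) / wte j w η ^ LL n := by
    rw [ENNReal.le_div_iff_mul_le (Or.inl h2) (Or.inl h3)]
    exact hK w η
  have h5 : wte j z η ^ LL n ≤ 2 ^ LL n * (wte j z w ^ LL n * wte j w η ^ LL n) := by
    rw [← mul_pow, ← mul_pow]
    gcongr
    exact wte_quasi j z w η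
  have h6 : (1 : ℝ≥0∞) / wte j w η ^ LL n ≤ 2 ^ LL n * wte j z w ^ LL n / wte j z η ^ LL n := by
    have h7 : wte j z η ^ LL n ≠ 0 := pow_ne_zero _ (wte_ne_zero _ _ _)
    have h8 : wte j z η ^ LL n ≠ ∞ := by have := wte_ne_top j z η; finiteness
    rw [ENNReal.le_div_iff_mul_le (Or.inl h7) (Or.inl h8), mul_comm, mul_one_div]
    apply ENNReal.div_le_of_le_mul
    calc _ ≤ _ := h5
      _ = _ := by ring
  calc ‖K w η‖ₑ * ‖g η‖ₑ ≤ (C * 2 ^ (j * n) / wte j w η ^ LL n) * ‖g η‖ₑ := by gcongr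
    _ = C * 2 ^ (j * n) * (1 / wte j w η ^ LL n) * ‖g η‖ₑ := by
        rw [mul_one_div]
    _ ≤ C * 2 ^ (j * n) * (2 ^ LL n * wte j z w ^ LL n / wte j z η ^ LL n) * ‖g η‖ₑ := by gcongr
    _ = _ := by
        unfold kN
        simp only [div_eq_mul_inv]
        ring

lemma real_to_enn_kernel {a : ℂ} {w C b : ℝ} {N : ℕ} (hw : 0 ≤ w) (hC : 0 ≤ C)
    (h : ‖a‖ * w ^ N ≤ C * b) : ‖a‖ₑ * ENNReal.ofReal w ^ N ≤ ENNReal.ofReal C * ENNReal.ofReal b := by
  rw [← ofReal_norm, ← ENNReal.ofReal_pow hw, ← ENNReal.ofReal_mul (norm_nonneg _),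
    ← ENNReal.ofReal_mul hC]
  exact ENNReal.ofReal_le_ofReal h

/-- size bound in `ENNReal` -/
lemma mult_size_enn {A : ℕ → ℕ → ℝ} {m : ℝ → ℝ} (hA : IsMult A m) (n : ℕ) [NeZero n] (N : ℕ) :
    ∃ C : ℝ≥0, ∀ (j : ℕ) (z η : Sph n),
      ‖KM (4 * 2 ^ j) (A j) (z : V n) η‖ₑ * wte j z η ^ N ≤ C * 2 ^ (j * n) := by
  obtain ⟨C, hC, hb⟩ := mult_size hA n N
  refine ⟨C.toNNReal, fun j z η => ?_⟩
  have h := real_to_enn_kernel (wt_pos j (z : V n) η).le hC (hb j z η)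
  unfold wte
  refine h.trans (le_of_eq ?_)
  rw [ENNReal.ofReal_pow (by norm_num)]
  norm_num
  rfl

/-- (P0) Peetre functions of multiplier operators applied to bounded functions -/
lemma pst_mult {A : ℕ → ℕ → ℝ} {m : ℝ → ℝ} (hA : IsMult A m) (n : ℕ) [NeZero n] :
    ∃ C : ℝ≥0, ∀ (j : ℕ) (g : Sph n → ℂ), BM g → ∀ z : Sph n,
      pst j (fun w : Sph n => VM (4 * 2 ^ j) (A j) g w) z ≤
        C * ∫⁻ η, kN n (LL n) j z η * ‖g η‖ₑ ∂sig n := by
  obtain ⟨C, hC⟩ := mult_size_enn hA n (LL n)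
  refine ⟨C * 2 ^ LL n, fun j g hg z => ?_⟩
  have := pst_le_of_kernel (n := n) j (F := fun w : Sph n => VM (4 * 2 ^ j) (A j) g w) (g := g)
    (K := fun w η => KM (4 * 2 ^ j) (A j) (w : V n) η) (C := C)
    (fun w => VM_eq_KM _ _ hg _) (fun w η => hC j w η) z
  push_cast
  exact this

/-- reproduction by the wider multiplier -/
lemma TH_repro (j : ℕ) {f : Sph n → ℂ} (hf : BM f) (z : V n) :
    VM (4 * 2 ^ j) (TH j) (fun ζ : Sph n => VV j f ζ) z = VV j f z := by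
  unfold VV
  rw [VM_comp _ _ _ _ hf z (fun k hk hk' => absurd hk (not_lt.mpr hk'))]
  simp_rw [TH_mul_AA]

lemma BM_VV (j : ℕ) {f : Sph n → ℂ} (hf : BM f) : BM fun z : Sph n => VV j f z := BM_VM _ _ hf

/-- (P1) Peetre's inequality -/
lemma peetre (n : ℕ) [NeZero n] : ∃ C : ℝ≥0, ∀ (j : ℕ) (f : Sph n → ℂ), BM f → ∀ z : Sph n,
    (pst j (fun w : Sph n => VV j f w) z) ^ (2 / 3 : ℝ) ≤
      C * TK (sig n) (tk n) j (fun w : Sph n => ‖VV j f w‖ₑ ^ (2 / 3 : ℝ)) z := by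
  obtain ⟨C, hC⟩ := pst_mult isMult_TH n
  refine ⟨C, fun j f hf z => ?_⟩
  set F : Sph n → ℂ := fun w => VV j f w with hF
  have hFB : BM F := BM_VV j hf
  have h1 : pst j F z ≤ C * ∫⁻ η, kN n (LL n) j z η * ‖F η‖ₑ ∂sig n := by
    have := hC j F hFB z
    have e : (fun w : Sph n => VM (4 * 2 ^ j) (TH j) F (w : V n)) = F := by
      funext w; exact TH_repro j hf w
    rwa [e] at this
  have hfin : pst j F z ≠ ∞ := by
    obtain ⟨_, D, hD⟩ := hFB
    exact (pst_lt_top j hD z).ne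
  set P := pst j F z with hP
  have h2 : ∀ η, kN n (LL n) j z η * ‖F η‖ₑ ≤
      P ^ (1 / 3 : ℝ) * (tk n j z η * ‖F η‖ₑ ^ (2 / 3 : ℝ)) := by
    intro η
    have h3 := le_pst j F z η
    rw [← hP] at h3
    have h4 : ‖F η‖ₑ = ‖F η‖ₑ ^ (1 / 3 : ℝ) * ‖F η‖ₑ ^ (2 / 3 : ℝ) := by
      rw [← ENNReal.rpow_add_of_nonneg _ _ (by norm_num) (by norm_num)]; norm_num
    have h5 : ‖F η‖ₑ ^ (1 / 3 : ℝ) ≤ wte j z η ^ (n + 1) * P ^ (1 / 3 : ℝ) := by
      refine (ENNReal.rpow_le_rpow h3 (by norm_num)).trans (le_of_eq ?_)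
      rw [ENNReal.mul_rpow_of_nonneg _ _ (by norm_num), ← ENNReal.rpow_natCast,
        ← ENNReal.rpow_mul, ← ENNReal.rpow_natCast]
      congr 2
      unfold LL
      push_cast; ring
    have h6 : kN n (LL n) j z η * wte j z η ^ (n + 1) = tk n j z η := by
      rw [tk_eq_kN]
      unfold kN LL
      have h7 := wte_ne_zero j z η
      have h8 := wte_ne_top j z η
      have e : 3 * (n + 1) = (2 * n + 2) + (n + 1) := by ring
      rw [e, pow_add, div_eq_mul_inv, div_eq_mul_inv, ENNReal.mul_inv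
        (Or.inl (pow_ne_zero _ h7)) (Or.inl (by finiteness)), mul_assoc, mul_assoc,
        ENNReal.inv_mul_cancel (pow_ne_zero _ h7) (by finiteness), mul_one]
    calc kN n (LL n) j z η * ‖F η‖ₑ
        = kN n (LL n) j z η * (‖F η‖ₑ ^ (1 / 3 : ℝ) * ‖F η‖ₑ ^ (2 / 3 : ℝ)) := by rw [← h4]
      _ ≤ kN n (LL n) j z η * ((wte j z η ^ (n + 1) * P ^ (1 / 3 : ℝ)) * ‖F η‖ₑ ^ (2 / 3 : ℝ)) := by
          gcongr
      _ = P ^ (1 / 3 : ℝ) * ((kN n (LL n) j z η * wte j z η ^ (n + 1)) * ‖F η‖ₑ ^ (2 / 3 : ℝ)) := by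
          ring
      _ = _ := by rw [h6]
  have h3 : P ≤ P ^ (1 / 3 : ℝ) * (C * TK (sig n) (tk n) j (fun w => ‖F w‖ₑ ^ (2 / 3 : ℝ)) z) := by
    refine h1.trans ?_
    calc C * ∫⁻ η, kN n (LL n) j z η * ‖F η‖ₑ ∂sig n
        ≤ C * ∫⁻ η, P ^ (1 / 3 : ℝ) * (tk n j z η * ‖F η‖ₑ ^ (2 / 3 : ℝ)) ∂sig n := by
          exact mul_le_mul' le_rfl (lintegral_mono fun η => h2 η)
      _ = C * (P ^ (1 / 3 : ℝ) * ∫⁻ η, tk n j z η * ‖F η‖ₑ ^ (2 / 3 : ℝ) ∂sig n) := by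
          rw [lintegral_const_mul' _ _ (ENNReal.rpow_ne_top_of_nonneg (by norm_num) hfin)]
      _ = _ := by unfold TK; ring
  rcases eq_or_ne P 0 with h0 | h0
  · rw [h0, ENNReal.zero_rpow_of_pos (by norm_num)]
    exact zero_le
  · have h5 : P ^ (1 / 3 : ℝ) ≠ 0 := by
      intro h
      rw [ENNReal.rpow_eq_zero_iff] at h
      rcases h with h | h
      · exact h0 h.1
      · exact absurd h.2 (by norm_num)
    have h6 : P ^ (1 / 3 : ℝ) ≠ ∞ := ENNReal.rpow_ne_top_of_nonneg (by norm_num) hfin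
    have h7 : P = P ^ (1 / 3 : ℝ) * P ^ (2 / 3 : ℝ) := by
      rw [← ENNReal.rpow_add_of_nonneg _ _ (by norm_num) (by norm_num)]; norm_num
    have h8 : P ^ (1 / 3 : ℝ) * P ^ (2 / 3 : ℝ) ≤
        P ^ (1 / 3 : ℝ) * (C * TK (sig n) (tk n) j (fun w => ‖F w‖ₑ ^ (2 / 3 : ℝ)) z) := by
      rw [← h7]; exact h3
    exact (ENNReal.mul_le_mul_iff_right h5 h6).mp h8

end

end Pool.Agent.MP28b1a7
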