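import Pool.Agent.Lib.MP_28b1a7_an.L2

/-!
The averaging kernels `tk n j` form an admissible family.
-/

namespace Pool.Agent.MP28b1a7

open MeasureTheory Filter Topology
open scoped InnerProductSpace ENNReal NNReal

section
variable {n : ℕ}

/-- real version of `tk` -/
noncomputable def tkr (n : ℕ) (j : ℕ) (x y : Sph n) : ℝ :=
  2 ^ (j * n) / wt j (x : V n) y ^ (2 * n + 2)

lemma tk_eq (j : ℕ) (x y : Sph n) : tk n j x y = ENNReal.ofReal (tkr n j x y) := rfl

lemma tkr_pos (j : ℕ) (x y : Sph n) : 0 < tkr n j x y := by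
  unfold tkr
  have := wt_pos j (x : V n) y
  positivity

lemma tkr_comm (j : ℕ) (x y : Sph n) : tkr n j x y = tkr n j y x := by
  unfold tkr; rw [wt_comm]

lemma continuous_wt (j : ℕ) : Continuous fun p : Sph n × Sph n => wt j (p.1 : V n) p.2 := by
  unfold wt dd
  fun_prop

lemma continuous_tkr (j : ℕ) : Continuous fun p : Sph n × Sph n => tkr n j p.1 p.2 := by
  unfold tkr
  apply Continuous.div continuous_const ((continuous_wt j).pow _)
  intro p
  exact pow_ne_zero _ (wt_pos j _ _).ne'

lemma tkr_comp (i j : ℕ) (hij : i ≤ j) (x y z : Sph n) :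
    tkr n i x y * tkr n j y z ≤ 8 ^ (2 * n + 2) * tkr n i x z * (tkr n j y z + tkr n i x y) := by
  set p := 2 * n + 2 with hp
  set D := dd (x : V n) z with hD
  set D1 := dd (x : V n) y with hD1
  set D2 := dd (y : V n) z with hD2
  have hq : D ≤ 2 * (D1 + D2) := dd_quasi x y z
  have h0 : 0 ≤ D := dd_nonneg _ _
  have h1 : 0 ≤ D1 := dd_nonneg _ _
  have h2 : 0 ≤ D2 := dd_nonneg _ _
  have hi : (0 : ℝ) < 2 ^ i := by positivity
  have hj : (0 : ℝ) < 2 ^ j := by positivity
  have ei : tkr n i x z = 2 ^ (i * n) / (1 + 2 ^ i * D) ^ p := rfl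
  have e1 : tkr n i x y = 2 ^ (i * n) / (1 + 2 ^ i * D1) ^ p := rfl
  have e2 : tkr n j y z = 2 ^ (j * n) / (1 + 2 ^ j * D2) ^ p := rfl
  have hiz := tkr_pos (n := n) i x z
  have hiy := tkr_pos (n := n) i x y
  have hjz := tkr_pos (n := n) j y z
  have h8 : (1 : ℝ) ≤ 8 ^ p := one_le_pow₀ (by norm_num)
  by_cases hc : D / 4 ≤ D1
  · have : tkr n i x y ≤ 8 ^ p * tkr n i x z := by
      rw [e1, ei, mul_div_assoc', div_le_div_iff₀ (by positivity) (by positivity)]
      have h3 : (1 + 2 ^ i * D) ^ p ≤ (8 * (1 + 2 ^ i * D1)) ^ p := by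
        gcongr
        nlinarith [mul_nonneg hi.le h1]
      rw [mul_pow] at h3
      have : (0 : ℝ) < 2 ^ (i * n) := by positivity
      nlinarith
    calc _ ≤ 8 ^ p * tkr n i x z * tkr n j y z := by gcongr
      _ ≤ _ := by gcongr; linarith
  · have hc2 : D / 4 ≤ D2 := by
      rw [not_le] at hc; linarith
    by_cases hs : 2 ^ i * D ≤ 1
    · have : tkr n i x y ≤ 8 ^ p * tkr n i x z := by
        rw [e1, ei, mul_div_assoc', div_le_div_iff₀ (by positivity) (by positivity)]
        have h3 : (1 + 2 ^ i * D) ^ p ≤ (8 * (1 + 2 ^ i * D1)) ^ p := by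
          gcongr
          nlinarith [mul_nonneg hi.le h1]
        rw [mul_pow] at h3
        have : (0 : ℝ) < 2 ^ (i * n) := by positivity
        nlinarith
      calc _ ≤ 8 ^ p * tkr n i x z * tkr n j y z := by gcongr
        _ ≤ _ := by gcongr; linarith
    · rw [not_le] at hs
      have hji : (2 : ℝ) ^ j = 2 ^ (j - i) * 2 ^ i := by rw [← pow_add]; congr 1; omega
      have : tkr n j y z ≤ 8 ^ p * tkr n i x z := by
        rw [e2, ei, mul_div_assoc', div_le_div_iff₀ (by positivity) (by positivity)]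
        have h3 : (2 ^ (j - i) * (1 + 2 ^ i * D)) ^ p ≤ (8 * (1 + 2 ^ j * D2)) ^ p := by
          apply pow_le_pow_left₀ (by positivity)
          rw [hji]
          have h4 : (0 : ℝ) < 2 ^ (j - i) := by positivity
          have h5 : 2 ^ (j - i) * (1 + 2 ^ i * D) ≤ 2 ^ (j - i) * (2 * (2 ^ i * D)) := by
            gcongr; linarith
          have h6 : 2 ^ (j - i) * (2 * (2 ^ i * D)) ≤ 8 * (2 ^ (j - i) * 2 ^ i * D2) := by
            have : D ≤ 4 * D2 := by linarith
            have h7 : (0 : ℝ) < 2 ^ (j - i) * 2 ^ i := by positivity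
            nlinarith
          nlinarith
        rw [mul_pow, mul_pow] at h3
        have h4 : (2 : ℝ) ^ (j * n) ≤ 2 ^ (i * n) * (2 ^ (j - i)) ^ p := by
          rw [← pow_mul, ← pow_add]
          apply pow_le_pow_right₀ (by norm_num)
          have : j * n = i * n + (j - i) * n := by
            rw [← add_mul]; congr 1; omega
          rw [this]
          have : (j - i) * n ≤ (j - i) * p := Nat.mul_le_mul_left _ (by omega)
          omega
        calc 2 ^ (j * n) * (1 + 2 ^ i * D) ^ p
            ≤ 2 ^ (i * n) * (2 ^ (j - i)) ^ p * (1 + 2 ^ i * D) ^ p := by gcongr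
          _ = 2 ^ (i * n) * ((2 ^ (j - i)) ^ p * (1 + 2 ^ i * D) ^ p) := by ring
          _ ≤ 2 ^ (i * n) * (8 ^ p * (1 + 2 ^ j * D2) ^ p) := by gcongr
          _ = _ := by ring
      calc _ ≤ tkr n i x y * (8 ^ p * tkr n i x z) := by gcongr
        _ = 8 ^ p * tkr n i x z * tkr n i x y := by ring
        _ ≤ _ := by gcongr; linarith

end

theorem tk_int_le (n : ℕ) [NeZero n] (j : ℕ) (x : Sph n) :
    ∫⁻ y, tk n j x y ∂sig n ≤ 1 := by
  refine le_trans (lintegral_mono fun y => ?_) (poisson_int j x)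
  unfold tk
  apply ENNReal.ofReal_le_ofReal
  have h1 := one_le_wt j (x : V n) y
  gcongr
  omega

theorem measurable_tk (n : ℕ) (j : ℕ) : Measurable (Function.uncurry (tk n j)) :=
  ENNReal.measurable_ofReal.comp (continuous_tkr (n := n) j).measurable

theorem tk_KF (n : ℕ) [NeZero n] : ∃ C : ℝ≥0, KF (sig n) (tk n) C := by
  obtain ⟨K, hK⟩ : ∃ K : ℝ≥0, (K : ℝ) = 8 ^ (2 * n + 2) := ⟨⟨8 ^ (2 * n + 2), by positivity⟩, rfl⟩
  have hK1 : 1 ≤ K := by
    have : (1 : ℝ) ≤ 8 ^ (2 * n + 2) := one_le_pow₀ (by norm_num)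
    rw [← hK] at this
    exact_mod_cast this
  have hK2 : 1 ≤ 2 * K := by
    calc (1 : ℝ≥0) ≤ 2 * 1 := by norm_num
      _ ≤ _ := by gcongr
  refine ⟨2 * K, hK2, measurable_tk n, ?_, ?_, ?_⟩
  · intro j x y
    rw [tk_eq, tk_eq, tkr_comm]
  · intro j x
    refine (tk_int_le n j x).trans ?_
    exact_mod_cast hK2
  · intro i j hij x z
    have hmj : Measurable fun y : Sph n => tk n j y z :=
      (measurable_tk n j).of_uncurry_right
    have hmi : Measurable fun y : Sph n => tk n i x y :=
      (measurable_tk n i).of_uncurry_left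
    calc ∫⁻ y, tk n i x y * tk n j y z ∂sig n
        ≤ ∫⁻ y, (K * tk n i x z) * (tk n j y z + tk n i x y) ∂sig n := by
          refine lintegral_mono fun y => ?_
          have h := tkr_comp (n := n) i j hij x y z
          rw [← hK] at h
          simp only [tk_eq]
          rw [← ENNReal.ofReal_mul (tkr_pos _ _ _).le]
          refine (ENNReal.ofReal_le_ofReal h).trans (le_of_eq ?_)
          have h3 := tkr_pos (n := n) i x z
          rw [ENNReal.ofReal_mul (by positivity),
            ENNReal.ofReal_mul (by positivity), ENNReal.ofReal_add (tkr_pos _ _ _).le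
            (tkr_pos _ _ _).le, ENNReal.ofReal_coe_nnreal]
      _ = (K * tk n i x z) * (∫⁻ y, tk n j y z ∂sig n + ∫⁻ y, tk n i x y ∂sig n) := by
          have hm : Measurable fun y : Sph n => tk n j y z + tk n i x y := hmj.add hmi
          rw [lintegral_const_mul _ hm, lintegral_add_left hmj]
      _ ≤ (K * tk n i x z) * (1 + 1) := by
          gcongr
          · have : ∀ y, tk n j y z = tk n j z y := fun y => by rw [tk_eq, tk_eq, tkr_comm]
            simp_rw [this]
            exact tk_int_le n j z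
          · exact tk_int_le n i x
      _ = _ := by push_cast; ring

end Pool.Agent.MP28b1a7
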